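import Mathlib

/-!
Elementary inequalities for `x ↦ |x|^(r-2) x`.
-/

set_option autoImplicit false
set_option maxHeartbeats 1000000

namespace Pool.Agent.H56.BN

/-- the signed power `|x|^(r-2) x` -/
noncomputable def sp (r x : ℝ) : ℝ := |x| ^ (r - 2) * x

lemma sp_zero (r : ℝ) : sp r 0 = 0 := by simp [sp]

lemma abs_sp {r : ℝ} (hr : 1 < r) (x : ℝ) : |sp r x| = |x| ^ (r - 1) := by
  unfold sp
  rcases eq_or_ne x 0 with rfl | hx
  · simp [Real.zero_rpow (by linarith : r - 1 ≠ 0)]
  · have hx' : 0 < |x| := abs_pos.2 hx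
    rw [abs_mul, abs_of_nonneg (Real.rpow_nonneg (abs_nonneg _) _)]
    nth_rewrite 2 [← Real.rpow_one |x|]
    rw [← Real.rpow_add hx']
    congr 1
    ring

lemma mul_sp {r : ℝ} (hr : 1 < r) (x : ℝ) : x * sp r x = |x| ^ r := by
  unfold sp
  rcases eq_or_ne x 0 with rfl | hx
  · simp [Real.zero_rpow (by linarith : r ≠ 0)]
  · have hx' : 0 < |x| := abs_pos.2 hx
    have : x * (|x| ^ (r - 2) * x) = |x| ^ (r - 2) * |x| ^ (2:ℝ) := by
      rw [Real.rpow_two, sq_abs]; ring
    rw [this, ← Real.rpow_add hx']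
    congr 1
    ring

lemma sp_mul_sp {r : ℝ} (hr : 1 < r) (x : ℝ) : sp r x * x = |x| ^ r := by
  rw [mul_comm, mul_sp hr]

lemma sp_smul {r c : ℝ} (hr : 1 < r) (hc : 0 ≤ c) (x : ℝ) : sp r (c * x) = c ^ (r - 1) * sp r x := by
  unfold sp
  rcases hc.eq_or_lt with rfl | hc
  · simp [Real.zero_rpow (by linarith : r - 1 ≠ 0)]
  · rw [abs_mul, abs_of_pos hc, Real.mul_rpow hc.le (abs_nonneg _)]
    have : c ^ (r - 1) = c ^ (r - 2) * c := by
      nth_rewrite 3 [← Real.rpow_one c]
      rw [← Real.rpow_add hc]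
      congr 1; ring
    rw [this]; ring

lemma sp_neg (r x : ℝ) : sp r (-x) = - sp r x := by simp [sp]

lemma sp_sp {p q : ℝ} (h : p.HolderConjugate q) (x : ℝ) : sp p (sp q x) = x := by
  rcases eq_or_ne x 0 with rfl | hx
  · simp [sp_zero]
  · have hx' : 0 < |x| := abs_pos.2 hx
    have h1 := abs_sp h.symm.lt x
    conv_lhs => rw [sp, h1]
    unfold sp
    rw [← mul_assoc, ← Real.rpow_mul hx'.le, ← Real.rpow_add hx']
    have : (q - 1) * (p - 2) + (q - 2) = 0 := by
      have := h.sub_one_mul_conj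
      have h2 := h.symm.sub_one_mul_conj
      have h3 := h.mul_eq_add
      nlinarith
    rw [this, Real.rpow_zero, one_mul]

/-- the tangent inequality -/
lemma tangent {r : ℝ} (hr : 1 < r) (x y : ℝ) : |y| ^ r + r * (sp r y * (x - y)) ≤ |x| ^ r := by
  have hc : r.HolderConjugate (r / (r - 1)) := Real.HolderConjugate.conjExponent hr
  have h1 := Real.young_inequality x (sp r y) hc
  rw [abs_sp hr, ← Real.rpow_mul (abs_nonneg _)] at h1
  have h2 : (r - 1) * (r / (r - 1)) = r := by field_simp [(by linarith : r - 1 ≠ 0)]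
  rw [h2] at h1
  have h3 : sp r y * y = |y| ^ r := sp_mul_sp hr y
  have h4 : |y| ^ r / (r / (r - 1)) = (r - 1) / r * |y| ^ r := by
    have : r ≠ 0 := by linarith
    have : r - 1 ≠ 0 := by linarith
    field_simp
  rw [h4] at h1
  have hr0 : 0 < r := by linarith
  have h5 : r * (x * sp r y) ≤ |x| ^ r + (r - 1) * |y| ^ r := by
    have := mul_le_mul_of_nonneg_left h1 hr0.le
    have e : r * (|x| ^ r / r + (r - 1) / r * |y| ^ r) = |x| ^ r + (r - 1) * |y| ^ r := by
      field_simp
    linarith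
  nlinarith

lemma rpow_sub_le {s : ℝ} (hs : 0 < s) (hs1 : s ≤ 1) {a b : ℝ} (hb : 0 ≤ b) (hab : b ≤ a) :
    a ^ s - b ^ s ≤ (a - b) ^ s := by
  have h := Real.rpow_add_le_add_rpow (a := a - b) (b := b) (by linarith) hb hs.le hs1
  rw [sub_add_cancel] at h
  linarith

/-- Hölder continuity of the signed power, `1 < q ≤ 2` -/
lemma sp_holder {q : ℝ} (hq : 1 < q) (hq2 : q ≤ 2) (x y : ℝ) :
    |sp q x - sp q y| ≤ 2 * |x - y| ^ (q - 1) := by
  have hs : 0 < q - 1 := by linarith
  have hs1 : q - 1 ≤ 1 := by linarith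
  -- reduce to nonnegative statements
  have key1 : ∀ a b : ℝ, 0 ≤ b → b ≤ a → |sp q a - sp q b| ≤ 2 * |a - b| ^ (q - 1) := by
    intro a b hb hab
    have ha : 0 ≤ a := hb.trans hab
    have e1 : ∀ t : ℝ, 0 ≤ t → sp q t = t ^ (q - 1) := by
      intro t ht
      have := abs_sp hq t
      rw [abs_of_nonneg ht] at this
      rw [← this, abs_of_nonneg]
      exact mul_nonneg (Real.rpow_nonneg (abs_nonneg _) _) ht
    rw [e1 a ha, e1 b hb, abs_of_nonneg (by linarith : 0 ≤ a - b),
      abs_of_nonneg (by linarith [Real.rpow_le_rpow hb hab hs.le])]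
    have := rpow_sub_le hs hs1 hb hab
    have h3 : 0 ≤ (a - b) ^ (q - 1) := Real.rpow_nonneg (by linarith) _
    linarith
  have key2 : ∀ a b : ℝ, b ≤ 0 → 0 ≤ a → |sp q a - sp q b| ≤ 2 * |a - b| ^ (q - 1) := by
    intro a b hb ha
    have h1 : |sp q a - sp q b| ≤ |sp q a| + |sp q b| := abs_sub _ _
    rw [abs_sp hq, abs_sp hq] at h1
    have h2 : |a| ≤ |a - b| := by
      rw [abs_of_nonneg ha, abs_of_nonneg (by linarith)]; linarith
    have h3 : |b| ≤ |a - b| := by
      rw [abs_of_nonpos hb, abs_of_nonneg (by linarith)]; linarith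
    have h4 := Real.rpow_le_rpow (abs_nonneg _) h2 hs.le
    have h5 := Real.rpow_le_rpow (abs_nonneg _) h3 hs.le
    linarith
  rcases le_total 0 x with hx | hx <;> rcases le_total 0 y with hy | hy
  · rcases le_total y x with h | h
    · exact key1 x y hy h
    · rw [abs_sub_comm, abs_sub_comm x y]; exact key1 y x hx h
  · exact key2 x y hy hx
  · rw [abs_sub_comm, abs_sub_comm x y]; exact key2 y x hx hy
  · have e : ∀ t, sp q t = - sp q (-t) := fun t => by rw [sp_neg]; ring
    rw [e x, e y]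
    rcases le_total y x with h | h
    · have := key1 (-y) (-x) (by linarith) (by linarith)
      have e2 : |-sp q (-x) - -sp q (-y)| = |sp q (-y) - sp q (-x)| := by
        congr 1; ring
      rw [e2]
      have e3 : |-y - -x| = |x - y| := by congr 1; ring
      rwa [e3] at this
    · have := key1 (-x) (-y) (by linarith) (by linarith)
      have e2 : |-sp q (-x) - -sp q (-y)| = |sp q (-x) - sp q (-y)| := by
        rw [abs_sub_comm]; congr 1; ring
      rw [e2]
      have e3 : |-x - -y| = |x - y| := by rw [abs_sub_comm]; congr 1; ring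
      rwa [e3] at this

/-- uniform smoothness, pointwise form -/
lemma smooth_ineq {q : ℝ} (hq : 1 < q) (hq2 : q ≤ 2) (a b : ℝ) :
    |a + b| ^ q ≤ |a| ^ q + q * (sp q a * b) + 4 * |b| ^ q := by
  have h1 := tangent hq a (a + b)
  have h2 := sp_holder hq hq2 (a + b) a
  rw [add_sub_cancel_left] at h2
  have h3 : (sp q (a + b) - sp q a) * b ≤ 2 * |b| ^ q := by
    calc (sp q (a + b) - sp q a) * b ≤ |(sp q (a + b) - sp q a) * b| := le_abs_self _
      _ = |sp q (a + b) - sp q a| * |b| := abs_mul _ _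
      _ ≤ 2 * |b| ^ (q - 1) * |b| := mul_le_mul_of_nonneg_right h2 (abs_nonneg _)
      _ = 2 * |b| ^ q := by
        rw [mul_assoc]
        congr 1
        rcases eq_or_ne b 0 with rfl | hb
        · simp [Real.zero_rpow (by linarith : q ≠ 0)]
        · have hb' : 0 < |b| := abs_pos.2 hb
          nth_rewrite 2 [← Real.rpow_one |b|]
          rw [← Real.rpow_add hb']
          congr 1; ring
  have h4 : 0 ≤ |b| ^ q := Real.rpow_nonneg (abs_nonneg _) _
  have h5 : a - (a + b) = -b := by ring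
  rw [h5] at h1
  nlinarith

/-- local Lipschitz bound, `p ≥ 2` -/
lemma sp_lip {p : ℝ} (hp : 2 < p) (x y : ℝ) :
    |sp p x - sp p y| ≤ (p - 1) * ((|x| + |y|) ^ (p - 2) * |x - y|) := by
  have hp1 : 1 < p - 1 := by linarith
  have e1 : ∀ t : ℝ, 0 ≤ t → sp p t = t ^ (p - 1) := by
    intro t ht
    have := abs_sp (by linarith : 1 < p) t
    rw [abs_of_nonneg ht] at this
    rw [← this, abs_of_nonneg]
    exact mul_nonneg (Real.rpow_nonneg (abs_nonneg _) _) ht
  have key1 : ∀ a b : ℝ, 0 ≤ b → b ≤ a →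
      |sp p a - sp p b| ≤ (p - 1) * ((|a| + |b|) ^ (p - 2) * |a - b|) := by
    intro a b hb hab
    have ha : 0 ≤ a := hb.trans hab
    have h1 := tangent hp1 b a
    rw [abs_of_nonneg ha, abs_of_nonneg hb] at h1 ⊢
    have h2 : sp (p - 1) a = a ^ (p - 2) := by
      have := abs_sp hp1 a
      rw [abs_of_nonneg ha] at this
      have e : p - 1 - 1 = p - 2 := by ring
      rw [e] at this
      rw [← this, abs_of_nonneg]
      exact mul_nonneg (Real.rpow_nonneg (abs_nonneg _) _) ha
    rw [h2] at h1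
    rw [e1 a ha, e1 b hb, abs_of_nonneg (by linarith : 0 ≤ a - b),
      abs_of_nonneg (by linarith [Real.rpow_le_rpow hb hab (by linarith : (0:ℝ) ≤ p - 1)])]
    have h3 : a ^ (p - 2) ≤ (a + b) ^ (p - 2) :=
      Real.rpow_le_rpow ha (by linarith) (by linarith)
    have h4 : a ^ (p - 2) * (a - b) ≤ (a + b) ^ (p - 2) * (a - b) :=
      mul_le_mul_of_nonneg_right h3 (by linarith)
    nlinarith
  have key2 : ∀ a b : ℝ, b ≤ 0 → 0 ≤ a →
      |sp p a - sp p b| ≤ (p - 1) * ((|a| + |b|) ^ (p - 2) * |a - b|) := by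
    intro a b hb ha
    have h1 : |sp p a - sp p b| ≤ |sp p a| + |sp p b| := abs_sub _ _
    rw [abs_sp (by linarith : 1 < p), abs_sp (by linarith : 1 < p)] at h1
    have h2 : |a - b| = |a| + |b| := by
      rw [abs_of_nonneg ha, abs_of_nonpos hb, abs_of_nonneg (by linarith)]; ring
    have h3 : ∀ t : ℝ, 0 ≤ t → t ≤ |a| + |b| → t ^ (p - 1) ≤ (|a| + |b|) ^ (p - 2) * t := by
      intro t ht htt
      rcases ht.eq_or_lt with rfl | ht'
      · simp [Real.zero_rpow (by linarith : p - 1 ≠ 0)]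
      · have : t ^ (p - 1) = t ^ (p - 2) * t := by
          nth_rewrite 3 [← Real.rpow_one t]
          rw [← Real.rpow_add ht']
          congr 1; ring
        rw [this]
        exact mul_le_mul_of_nonneg_right (Real.rpow_le_rpow ht htt (by linarith)) ht
    have h4 := h3 |a| (abs_nonneg _) (by linarith [abs_nonneg b])
    have h5 := h3 |b| (abs_nonneg _) (by linarith [abs_nonneg a])
    have h6 : 0 ≤ (|a| + |b|) ^ (p - 2) * (|a| + |b|) := by positivity
    rw [h2]
    nlinarith
  rcases le_total 0 x with hx | hx <;> rcases le_total 0 y with hy | hy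
  · rcases le_total y x with h | h
    · exact key1 x y hy h
    · rw [abs_sub_comm, abs_sub_comm x y, add_comm |x|]; exact key1 y x hx h
  · exact key2 x y hy hx
  · rw [abs_sub_comm, abs_sub_comm x y, add_comm |x|]; exact key2 y x hx hy
  · have e : ∀ t, sp p t = - sp p (-t) := fun t => by rw [sp_neg]; ring
    rw [e x, e y]
    rcases le_total y x with h | h
    · have := key1 (-y) (-x) (by linarith) (by linarith)
      have e2 : |-sp p (-x) - -sp p (-y)| = |sp p (-y) - sp p (-x)| := by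
        congr 1; ring
      rw [e2]
      have e3 : |-y - -x| = |x - y| := by congr 1; ring
      rw [e3, abs_neg, abs_neg, add_comm] at this
      exact this
    · have := key1 (-x) (-y) (by linarith) (by linarith)
      have e2 : |-sp p (-x) - -sp p (-y)| = |sp p (-x) - sp p (-y)| := by
        rw [abs_sub_comm]; congr 1; ring
      rw [e2]
      have e3 : |-x - -y| = |x - y| := by rw [abs_sub_comm]; congr 1; ring
      rw [e3, abs_neg, abs_neg] at this
      exact this

/-- Young with `ε` -/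
lemma young_eps {p q : ℝ} (h : p.HolderConjugate q) {ε : ℝ} (hε : 0 < ε) :
    ∃ C : ℝ, 0 ≤ C ∧ ∀ a b : ℝ, 0 ≤ a → 0 ≤ b → a * b ≤ ε * a ^ q + C * b ^ p := by
  have hq := h.symm.pos
  have hp := h.pos
  set c : ℝ := (q * ε) ^ (1 / q) with hc
  have hc0 : 0 < c := Real.rpow_pos_of_pos (by positivity) _
  refine ⟨c⁻¹ ^ p / p, by positivity, ?_⟩
  intro a b ha hb
  have h1 := Real.young_inequality_of_nonneg (a := c * a) (b := c⁻¹ * b) (by positivity)
    (by positivity) h.symm
  rw [Real.mul_rpow hc0.le ha, Real.mul_rpow (inv_nonneg.2 hc0.le) hb] at h1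
  have h2 : c ^ q = q * ε := by
    rw [hc, ← Real.rpow_mul (by positivity)]
    have : 1 / q * q = 1 := by field_simp
    rw [this, Real.rpow_one]
  rw [h2] at h1
  have h3 : c * a * (c⁻¹ * b) = a * b := by field_simp
  have h4 : q * ε * a ^ q / q = ε * a ^ q := by field_simp
  rw [h3, h4] at h1
  calc a * b ≤ _ := h1
    _ = _ := by ring

end Pool.Agent.H56.BN
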