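import Mathlib
import Pool.Agent.H56.BN.Elem

/-!
Facts on `L^r` and the duality map `f ↦ |f|^(r-2) f`.
-/

set_option autoImplicit false
set_option maxHeartbeats 1000000

namespace Pool.Agent.H56.BN

open MeasureTheory Filter Topology

variable {X : Type*} [MeasurableSpace X] {μ : Measure X}

/-- `L^r` for a real exponent -/
abbrev LL (r : ℝ) (μ : Measure X) := Lp ℝ (ENNReal.ofReal r) μ

instance fact_one_le {r : ℝ} [h : Fact (1 < r)] : Fact (1 ≤ ENNReal.ofReal r) :=
  ⟨by rw [ENNReal.one_le_ofReal]; exact h.out.le⟩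

lemma ofReal_ne_zero' {r : ℝ} (hr : 1 < r) : ENNReal.ofReal r ≠ 0 := by
  simp; linarith

lemma toReal_ofReal' {r : ℝ} (hr : 1 < r) : (ENNReal.ofReal r).toReal = r :=
  ENNReal.toReal_ofReal (by linarith)

lemma continuous_sp {r : ℝ} (hr : 1 < r) : Continuous (sp r) := by
  have h : sp r = fun x => max x 0 ^ (r - 1) - max (-x) 0 ^ (r - 1) := by
    funext x
    have hr1 : r - 1 ≠ 0 := by linarith
    rcases lt_trichotomy x 0 with hx | hx | hx
    · rw [max_eq_right hx.le, max_eq_left (by linarith), Real.zero_rpow hr1]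
      have h1 : sp r x ≤ 0 :=
        mul_nonpos_of_nonneg_of_nonpos (Real.rpow_nonneg (abs_nonneg _) _) hx.le
      have h2 := abs_sp hr x
      rw [abs_of_nonpos h1, abs_of_neg hx] at h2
      linarith
    · subst hx; simp [sp_zero, Real.zero_rpow hr1]
    · rw [max_eq_left hx.le, max_eq_right (by linarith), Real.zero_rpow hr1]
      have h1 : 0 ≤ sp r x := mul_nonneg (Real.rpow_nonneg (abs_nonneg _) _) hx.le
      have h2 := abs_sp hr x
      rw [abs_of_nonneg h1, abs_of_pos hx] at h2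
      linarith
  rw [h]
  apply Continuous.sub
  · exact (continuous_id.max continuous_const).rpow_const (fun x => Or.inr (by linarith))
  · exact (continuous_neg.max continuous_const).rpow_const (fun x => Or.inr (by linarith))

lemma integrable_rpow {r : ℝ} (hr : 1 < r) (f : LL r μ) : Integrable (fun x => |f x| ^ r) μ := by
  have h := (integrable_norm_rpow_iff (Lp.aestronglyMeasurable f) (ofReal_ne_zero' hr)
    ENNReal.ofReal_ne_top).2 (Lp.memLp f)
  rw [toReal_ofReal' hr] at h
  simpa [Real.norm_eq_abs] using h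

lemma norm_rpow {r : ℝ} (hr : 1 < r) (f : LL r μ) : ‖f‖ ^ r = ∫ x, |f x| ^ r ∂μ := by
  have hr0 : 0 < r := by linarith
  rw [Lp.norm_def, eLpNorm_eq_lintegral_rpow_enorm_toReal (ofReal_ne_zero' hr) ENNReal.ofReal_ne_top,
    toReal_ofReal' hr, integral_eq_lintegral_of_nonneg_ae
      (ae_of_all _ fun x => Real.rpow_nonneg (abs_nonneg _) _)
      (integrable_rpow hr f).aestronglyMeasurable]
  rw [← ENNReal.toReal_rpow, ← Real.rpow_mul ENNReal.toReal_nonneg]
  rw [one_div, inv_mul_cancel₀ hr0.ne', Real.rpow_one]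
  congr 1
  apply lintegral_congr
  intro x
  rw [← ENNReal.ofReal_rpow_of_nonneg (abs_nonneg _) hr0.le, ← Real.enorm_eq_ofReal_abs]

lemma memLp_iff {r : ℝ} (hr : 1 < r) {f : X → ℝ} (hf : AEStronglyMeasurable f μ) :
    MemLp f (ENNReal.ofReal r) μ ↔ Integrable (fun x => |f x| ^ r) μ := by
  rw [← integrable_norm_rpow_iff hf (ofReal_ne_zero' hr) ENNReal.ofReal_ne_top, toReal_ofReal' hr]
  simp [Real.norm_eq_abs]

lemma memLp_sp {r s : ℝ} (h : r.HolderConjugate s) (f : LL r μ) :
    MemLp (fun x => sp r (f x)) (ENNReal.ofReal s) μ := by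
  have hm : AEStronglyMeasurable (fun x => sp r (f x)) μ :=
    (continuous_sp h.lt).comp_aestronglyMeasurable (Lp.aestronglyMeasurable f)
  rw [memLp_iff h.symm.lt hm]
  apply (integrable_rpow h.lt f).congr
  refine ae_of_all _ fun x => ?_
  simp only
  rw [abs_sp h.lt, ← Real.rpow_mul (abs_nonneg _)]
  congr 1
  have := h.sub_one_mul_conj
  linarith

/-- the duality map `L^r → L^s`, `f ↦ |f|^(r-2) f` -/
noncomputable def Jm {r s : ℝ} (h : r.HolderConjugate s) (f : LL r μ) : LL s μ :=
  (memLp_sp h f).toLp _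

lemma coeFn_Jm {r s : ℝ} (h : r.HolderConjugate s) (f : LL r μ) :
    Jm h f =ᵐ[μ] fun x => sp r (f x) := MemLp.coeFn_toLp _

lemma Jm_Jm {r s : ℝ} (h : r.HolderConjugate s) (f : LL r μ) : Jm h.symm (Jm h f) = f := by
  apply Lp.ext
  filter_upwards [coeFn_Jm h.symm (Jm h f), coeFn_Jm h f] with x h1 h2
  rw [h1, h2, sp_sp h.symm]

lemma norm_Jm_rpow {r s : ℝ} (h : r.HolderConjugate s) (f : LL r μ) : ‖Jm h f‖ ^ s = ‖f‖ ^ r := by
  rw [norm_rpow h.symm.lt, norm_rpow h.lt]
  apply integral_congr_ae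
  filter_upwards [coeFn_Jm h f] with x h1
  rw [h1, abs_sp h.lt, ← Real.rpow_mul (abs_nonneg _)]
  congr 1
  have := h.sub_one_mul_conj
  linarith

lemma norm_Jm {r s : ℝ} (h : r.HolderConjugate s) (f : LL r μ) : ‖Jm h f‖ = ‖f‖ ^ (r - 1) := by
  have : Fact (1 < r) := ⟨h.lt⟩
  have : Fact (1 < s) := ⟨h.symm.lt⟩
  have h1 := norm_Jm_rpow h f
  have h2 : ‖Jm h f‖ = (‖Jm h f‖ ^ s) ^ (1 / s) := by
    rw [← Real.rpow_mul (norm_nonneg _), mul_one_div, div_self h.symm.ne_zero, Real.rpow_one]
  rw [h2, h1, ← Real.rpow_mul (norm_nonneg _)]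
  congr 1
  have := h.sub_one_mul_conj
  have hs := h.symm.ne_zero
  field_simp
  linarith

lemma integrable_mul_LL {r s : ℝ} (h : r.HolderConjugate s) (f : LL r μ) (g : LL s μ) :
    Integrable (fun x => f x * g x) μ := by
  have : (ENNReal.ofReal r).HolderConjugate (ENNReal.ofReal s) := h.ennrealOfReal
  exact (Lp.memLp f).integrable_mul (Lp.memLp g)

lemma abs_integral_mul_le {r s : ℝ} (h : r.HolderConjugate s) (f : LL r μ) (g : LL s μ) :
    |∫ x, f x * g x ∂μ| ≤ ‖f‖ * ‖g‖ := by
  have : Fact (1 < r) := ⟨h.lt⟩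
  have : Fact (1 < s) := ⟨h.symm.lt⟩
  have h1 : |∫ x, f x * g x ∂μ| ≤ ∫ x, |f x| * |g x| ∂μ := by
    refine (abs_integral_le_integral_abs).trans (le_of_eq ?_)
    congr 1; funext x; rw [abs_mul]
  have h2 := integral_mul_norm_le_Lp_mul_Lq (μ := μ) (f := fun x => f x) (g := fun x => g x)
    h (Lp.memLp f) (Lp.memLp g)
  simp only [Real.norm_eq_abs] at h2
  rw [← norm_rpow h.lt, ← norm_rpow h.symm.lt, ← Real.rpow_mul (norm_nonneg _),
    ← Real.rpow_mul (norm_nonneg _), mul_one_div, mul_one_div, div_self h.ne_zero,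
    div_self h.symm.ne_zero, Real.rpow_one, Real.rpow_one] at h2
  exact h1.trans h2

lemma integral_mul_Jm {r s : ℝ} (h : r.HolderConjugate s) (f : LL r μ) :
    ∫ x, f x * (Jm h f) x ∂μ = ‖f‖ ^ r := by
  rw [norm_rpow h.lt]
  apply integral_congr_ae
  filter_upwards [coeFn_Jm h f] with x h1
  rw [h1, mul_sp h.lt]

/-- integrated form of uniform smoothness -/
lemma norm_add_rpow_le {p q : ℝ} (h : p.HolderConjugate q) (hq2 : q ≤ 2) (f g : LL q μ) :
    ‖f + g‖ ^ q ≤ ‖f‖ ^ q + q * (∫ x, (Jm h.symm f) x * g x ∂μ) + 4 * ‖g‖ ^ q := by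
  have hq := h.symm.lt
  rw [norm_rpow hq, norm_rpow hq f, norm_rpow hq g]
  have i1 := integrable_rpow hq f
  have i2 := integrable_rpow hq g
  have i3 := (integrable_mul_LL h (Jm h.symm f) g).const_mul q
  have i13 : Integrable (fun x => |f x| ^ q + q * ((Jm h.symm f) x * g x)) μ := i1.add i3
  rw [← integral_const_mul, ← integral_const_mul, ← integral_add i1 i3,
    ← integral_add i13 (i2.const_mul 4)]
  apply integral_mono_ae (integrable_rpow hq (f + g)) (i13.add (i2.const_mul 4))
  filter_upwards [coeFn_Jm h.symm f, Lp.coeFn_add f g] with x h1 h2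
  simp only [Pi.add_apply]
  rw [h2, h1]
  exact smooth_ineq hq hq2 (f x) (g x)

/-- the map `g ↦ |g|^(p-2) g` is locally Lipschitz from `L^p` to `L^q` -/
lemma norm_Jm_sub_le {p q : ℝ} (h : p.HolderConjugate q) (hp2 : 2 < p) (f g : LL p μ) :
    ‖Jm h f - Jm h g‖ ≤ (p - 1) * ((‖f‖ + ‖g‖) ^ (p - 2) * ‖f - g‖) := by
  have hp := h.lt
  have hq := h.symm.lt
  have hp0 : 0 < p := by linarith
  have hq0 : 0 < q := by linarith
  have : Fact (1 < p) := ⟨hp⟩
  have : Fact (1 < q) := ⟨hq⟩
  -- the comparison function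
  have hpq1 : 1 / p + 1 / q = 1 := by
    have := h.inv_add_inv_eq_one
    simpa [one_div] using this
  -- `a = q (p-2)/p`-th power
  set F : X → ℝ := fun x => |f x| + |g x| with hF
  have hFn : ∀ x, 0 ≤ F x := fun x => by positivity
  set G : X → ℝ := fun x => |f x - g x| with hG
  have mF : MemLp F (ENNReal.ofReal p) μ := (Lp.memLp f).abs.add (Lp.memLp g).abs
  have mG : MemLp G (ENNReal.ofReal p) μ := ((Lp.memLp f).sub (Lp.memLp g)).abs
  -- Hölder with exponents (p/(q(p-2)), p/q)
  have hpm : 0 < p - 2 := by linarith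
  have hc : (p / (q * (p - 2))).HolderConjugate (p / q) := by
    rw [Real.holderConjugate_iff]
    have e : q * (p - 1) = p := by
      have := h.mul_eq_add
      nlinarith
    constructor
    · rw [lt_div_iff₀ (by positivity)]; nlinarith
    · have hqne := hq0.ne'
      have hpne := hp0.ne'
      have hmne := hpm.ne'
      rw [inv_div, inv_div]
      rw [← add_div, div_eq_one_iff_eq hpne]
      linarith
  have hA : Integrable (fun x => (F x ^ (p - 2) * G x) ^ q) μ ∧
      ∫ x, (F x ^ (p - 2) * G x) ^ q ∂μ ≤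
        (∫ x, F x ^ p ∂μ) ^ (1 / (p / (q * (p - 2)))) * (∫ x, G x ^ p ∂μ) ^ (1 / (p / q)) := by
    have e1 : ∀ x, (F x ^ (p - 2) * G x) ^ q = F x ^ (q * (p - 2)) * G x ^ q := by
      intro x
      rw [Real.mul_rpow (Real.rpow_nonneg (hFn x) _) (abs_nonneg _), ← Real.rpow_mul (hFn x),
        mul_comm (p - 2) q]
    have m1 : MemLp (fun x => F x ^ (q * (p - 2))) (ENNReal.ofReal (p / (q * (p - 2)))) μ := by
      have hm : AEStronglyMeasurable (fun x => F x ^ (q * (p - 2))) μ :=
        (Real.continuous_rpow_const (by positivity : (0:ℝ) ≤ q * (p - 2))).comp_aestronglyMeasurable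
          mF.1
      rw [memLp_iff hc.lt hm]
      have := (memLp_iff hp mF.1).1 mF
      apply this.congr
      refine ae_of_all _ fun x => ?_
      simp only
      rw [abs_of_nonneg (Real.rpow_nonneg (hFn x) _), ← Real.rpow_mul (hFn x), abs_of_nonneg (hFn x)]
      congr 1
      field_simp
    have m2 : MemLp (fun x => G x ^ q) (ENNReal.ofReal (p / q)) μ := by
      have hm : AEStronglyMeasurable (fun x => G x ^ q) μ :=
        (Real.continuous_rpow_const hq0.le).comp_aestronglyMeasurable mG.1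
      rw [memLp_iff hc.symm.lt hm]
      have := (memLp_iff hp mG.1).1 mG
      apply this.congr
      refine ae_of_all _ fun x => ?_
      simp only
      rw [abs_of_nonneg (Real.rpow_nonneg (abs_nonneg _) _), ← Real.rpow_mul (abs_nonneg _)]
      have : |G x| = G x := abs_of_nonneg (abs_nonneg _)
      rw [this]
      congr 1
      field_simp
    constructor
    · have := hc.ennrealOfReal
      have := m1.integrable_mul m2
      apply this.congr
      exact ae_of_all _ fun x => (e1 x).symm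
    · have h2 := integral_mul_le_Lp_mul_Lq_of_nonneg (μ := μ) hc
        (ae_of_all _ fun x => Real.rpow_nonneg (hFn x) (q * (p - 2)))
        (ae_of_all _ fun x => Real.rpow_nonneg (abs_nonneg (f x - g x)) q) m1 m2
      calc ∫ x, (F x ^ (p - 2) * G x) ^ q ∂μ = ∫ x, F x ^ (q * (p - 2)) * G x ^ q ∂μ := by
            congr 1; funext x; exact e1 x
        _ ≤ _ := h2
        _ = _ := by
            congr 2
            · congr 1; funext x
              rw [← Real.rpow_mul (hFn x)]
              congr 1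
              field_simp
            · congr 1; funext x
              rw [← Real.rpow_mul (abs_nonneg _)]
              congr 1
              field_simp
  -- compare norms
  have hnF : (∫ x, F x ^ p ∂μ) ^ (1 / p) ≤ ‖f‖ + ‖g‖ := by
    have h1 : (mF.toLp F : LL p μ) = (Lp.memLp f).abs.toLp _ + (Lp.memLp g).abs.toLp _ := by
      rw [← MemLp.toLp_add]
      rfl
    have h2 : ‖(mF.toLp F : LL p μ)‖ ≤ ‖f‖ + ‖g‖ := by
      rw [h1]
      refine (norm_add_le _ _).trans (le_of_eq ?_)
      congr 1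
      · rw [Lp.norm_toLp, Lp.norm_def]
        congr 1
        exact eLpNorm_congr_norm_ae (ae_of_all _ fun x => by simp)
      · rw [Lp.norm_toLp, Lp.norm_def]
        congr 1
        exact eLpNorm_congr_norm_ae (ae_of_all _ fun x => by simp)
    have h3 : ∫ x, F x ^ p ∂μ = ‖(mF.toLp F : LL p μ)‖ ^ p := by
      rw [norm_rpow hp]
      apply integral_congr_ae
      filter_upwards [mF.coeFn_toLp] with x hx
      rw [hx, abs_of_nonneg (hFn x)]
    rw [h3, ← Real.rpow_mul (norm_nonneg _), mul_one_div, div_self hp0.ne', Real.rpow_one]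
    exact h2
  have hnG : ∫ x, G x ^ p ∂μ = ‖f - g‖ ^ p := by
    rw [norm_rpow hp]
    apply integral_congr_ae
    filter_upwards [Lp.coeFn_sub f g] with x hx
    rw [hx]; rfl
  -- final
  have hle : ‖Jm h f - Jm h g‖ ^ q ≤ ((p - 1) * ((‖f‖ + ‖g‖) ^ (p - 2) * ‖f - g‖)) ^ q := by
    rw [norm_rpow hq]
    calc ∫ x, |(Jm h f - Jm h g) x| ^ q ∂μ
        ≤ ∫ x, (p - 1) ^ q * (F x ^ (p - 2) * G x) ^ q ∂μ := by
          apply integral_mono_ae (integrable_rpow hq _) (hA.1.const_mul _)
          filter_upwards [Lp.coeFn_sub (Jm h f) (Jm h g), coeFn_Jm h f, coeFn_Jm h g] with x h1 h2 h3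
          rw [h1, Pi.sub_apply, h2, h3, ← Real.mul_rpow (by linarith) (by
            have := hFn x
            positivity)]
          exact Real.rpow_le_rpow (abs_nonneg _) (sp_lip hp2 _ _) hq0.le
      _ = (p - 1) ^ q * ∫ x, (F x ^ (p - 2) * G x) ^ q ∂μ := integral_const_mul _ _
      _ ≤ (p - 1) ^ q * ((∫ x, F x ^ p ∂μ) ^ (1 / (p / (q * (p - 2)))) *
            (∫ x, G x ^ p ∂μ) ^ (1 / (p / q))) :=
          mul_le_mul_of_nonneg_left hA.2 (Real.rpow_nonneg (by linarith) _)
      _ ≤ (p - 1) ^ q * ((‖f‖ + ‖g‖) ^ (q * (p - 2)) * ‖f - g‖ ^ q) := by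
          apply mul_le_mul_of_nonneg_left _ (Real.rpow_nonneg (by linarith) _)
          have hi : 0 ≤ ∫ x, F x ^ p ∂μ := integral_nonneg fun x => Real.rpow_nonneg (hFn x) _
          apply mul_le_mul
          · have e : 1 / (p / (q * (p - 2))) = (1 / p) * (q * (p - 2)) := by field_simp
            rw [e, Real.rpow_mul hi]
            exact Real.rpow_le_rpow (Real.rpow_nonneg hi _) hnF (by positivity)
          · rw [hnG, ← Real.rpow_mul (norm_nonneg _)]
            apply le_of_eq
            congr 1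
            field_simp
          · rw [hnG]; exact Real.rpow_nonneg (Real.rpow_nonneg (norm_nonneg _) _) _
          · exact Real.rpow_nonneg (by positivity) _
      _ = ((p - 1) * ((‖f‖ + ‖g‖) ^ (p - 2) * ‖f - g‖)) ^ q := by
          rw [Real.mul_rpow (by linarith) (by positivity), Real.mul_rpow (by positivity)
            (norm_nonneg _), ← Real.rpow_mul (by positivity), mul_comm (p - 2) q]
  have hnn : 0 ≤ (p - 1) * ((‖f‖ + ‖g‖) ^ (p - 2) * ‖f - g‖) := by
    have : 0 ≤ p - 1 := by linarith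
    positivity
  exact (Real.rpow_le_rpow_iff (norm_nonneg _) hnn hq0).1 hle

end Pool.Agent.H56.BN
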