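import Mathlib
import Pool.Agent.H56.BN.LpFacts

/-!
The dual variational problem in an abstract setting.
-/

set_option autoImplicit false
set_option maxHeartbeats 1000000

namespace Pool.Agent.H56.BN

open MeasureTheory Filter Topology
open scoped InnerProductSpace

variable {X : Type*} [MeasurableSpace X] {μ : Measure X}
variable {V : Type*} [NormedAddCommGroup V] [InnerProductSpace ℝ V] [CompleteSpace V]
variable {p q : ℝ} [Fact (1 < p)] [Fact (1 < q)]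

/-- the adjoint `L^q → V` of `ι : V → L^p` -/
noncomputable def adjF (h : p.HolderConjugate q) (ι : V →L[ℝ] LL p μ) (f : LL q μ) : V :=
  have : (ENNReal.ofReal q).HolderConjugate (ENNReal.ofReal p) := h.symm.ennrealOfReal
  (InnerProductSpace.toDual ℝ V).symm
    (((ContinuousLinearMap.mul ℝ ℝ).lpPairing μ (ENNReal.ofReal q) (ENNReal.ofReal p) f).comp ι)

lemma inner_adjF (h : p.HolderConjugate q) (ι : V →L[ℝ] LL p μ) (f : LL q μ) (v : V) :
    ⟪adjF h ι f, v⟫_ℝ = ∫ x, f x * (ι v) x ∂μ := by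
  have : (ENNReal.ofReal q).HolderConjugate (ENNReal.ofReal p) := h.symm.ennrealOfReal
  unfold adjF
  rw [InnerProductSpace.toDual_symm_apply, ContinuousLinearMap.comp_apply,
    ContinuousLinearMap.lpPairing_eq_integral]
  simp

lemma inner_adjF' (h : p.HolderConjugate q) (ι : V →L[ℝ] LL p μ) (f : LL q μ) (v : V) :
    ⟪v, adjF h ι f⟫_ℝ = ∫ x, f x * (ι v) x ∂μ := by
  rw [real_inner_comm, inner_adjF]

lemma adjF_add (h : p.HolderConjugate q) (ι : V →L[ℝ] LL p μ) (f g : LL q μ) :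
    adjF h ι (f + g) = adjF h ι f + adjF h ι g := by
  apply ext_inner_right ℝ
  intro v
  rw [inner_add_left, inner_adjF, inner_adjF, inner_adjF,
    ← integral_add (integrable_mul_LL h.symm f (ι v)) (integrable_mul_LL h.symm g (ι v))]
  apply integral_congr_ae
  filter_upwards [Lp.coeFn_add f g] with x hx
  rw [hx, Pi.add_apply]; ring

lemma adjF_smul (h : p.HolderConjugate q) (ι : V →L[ℝ] LL p μ) (c : ℝ) (f : LL q μ) :
    adjF h ι (c • f) = c • adjF h ι f := by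
  apply ext_inner_right ℝ
  intro v
  rw [real_inner_smul_left, inner_adjF, inner_adjF, ← integral_const_mul]
  apply integral_congr_ae
  filter_upwards [Lp.coeFn_smul c f] with x hx
  rw [hx, Pi.smul_apply, smul_eq_mul]; ring

lemma adjF_sub (h : p.HolderConjugate q) (ι : V →L[ℝ] LL p μ) (f g : LL q μ) :
    adjF h ι (f - g) = adjF h ι f - adjF h ι g := by
  have : f - g = f + (-1 : ℝ) • g := by rw [neg_one_smul, sub_eq_add_neg]
  rw [this, adjF_add, adjF_smul, neg_one_smul, sub_eq_add_neg]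

lemma norm_adjF_le (h : p.HolderConjugate q) (ι : V →L[ℝ] LL p μ) (f : LL q μ) :
    ‖adjF h ι f‖ ≤ ‖ι‖ * ‖f‖ := by
  have h1 : ‖adjF h ι f‖ ^ 2 ≤ (‖ι‖ * ‖f‖) * ‖adjF h ι f‖ := by
    rw [← real_inner_self_eq_norm_sq, inner_adjF]
    calc ∫ x, f x * (ι (adjF h ι f)) x ∂μ ≤ |∫ x, f x * (ι (adjF h ι f)) x ∂μ| := le_abs_self _
      _ ≤ ‖f‖ * ‖ι (adjF h ι f)‖ := abs_integral_mul_le h.symm _ _
      _ ≤ ‖f‖ * (‖ι‖ * ‖adjF h ι f‖) :=
        mul_le_mul_of_nonneg_left (ι.le_opNorm _) (norm_nonneg _)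
      _ = _ := by ring
  rcases (norm_nonneg (adjF h ι f)).eq_or_lt with h0 | h0
  · rw [← h0]; positivity
  · have : ‖adjF h ι f‖ * ‖adjF h ι f‖ ≤ (‖ι‖ * ‖f‖) * ‖adjF h ι f‖ := by rw [← sq]; exact h1
    exact le_of_mul_le_mul_right this h0

/-- the dual quadratic form -/
noncomputable def DD (h : p.HolderConjugate q) (ι : V →L[ℝ] LL p μ) (K : V →L[ℝ] V) (f : LL q μ) :
    ℝ := ⟪K (adjF h ι f), adjF h ι f⟫_ℝ

lemma DD_add (h : p.HolderConjugate q) (ι : V →L[ℝ] LL p μ) (K : V →L[ℝ] V)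
    (hKs : ∀ x y, ⟪K x, y⟫_ℝ = ⟪x, K y⟫_ℝ) (f g : LL q μ) :
    DD h ι K (f + g) = DD h ι K f + 2 * ⟪K (adjF h ι f), adjF h ι g⟫_ℝ + DD h ι K g := by
  unfold DD
  rw [adjF_add, map_add, inner_add_left, inner_add_right, inner_add_right,
    hKs (adjF h ι g) (adjF h ι f), real_inner_comm (K (adjF h ι f)) (adjF h ι g)]
  ring

lemma DD_smul (h : p.HolderConjugate q) (ι : V →L[ℝ] LL p μ) (K : V →L[ℝ] V) (c : ℝ) (f : LL q μ) :
    DD h ι K (c • f) = c ^ 2 * DD h ι K f := by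
  unfold DD
  rw [adjF_smul, map_smul, inner_smul_left, inner_smul_right]
  simp; ring

lemma abs_DD_le (h : p.HolderConjugate q) (ι : V →L[ℝ] LL p μ) (K : V →L[ℝ] V) (f : LL q μ) :
    |DD h ι K f| ≤ ‖K‖ * ‖ι‖ ^ 2 * ‖f‖ ^ 2 := by
  unfold DD
  have h1 := norm_adjF_le h ι f
  calc |⟪K (adjF h ι f), adjF h ι f⟫_ℝ| ≤ ‖K (adjF h ι f)‖ * ‖adjF h ι f‖ :=
        abs_real_inner_le_norm _ _
    _ ≤ (‖K‖ * ‖adjF h ι f‖) * ‖adjF h ι f‖ :=
        mul_le_mul_of_nonneg_right (K.le_opNorm _) (norm_nonneg _)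
    _ ≤ (‖K‖ * (‖ι‖ * ‖f‖)) * (‖ι‖ * ‖f‖) := by gcongr
    _ = _ := by ring

lemma rpow_bound {ρ x : ℝ} (h1 : 1 ≤ ρ) (h2 : ρ ≤ 2) (hx : -1 ≤ x) :
    (1 + x) ^ ρ ≤ 1 + ρ * x + x ^ 2 := by
  rcases hx.eq_or_lt with rfl | hx'
  · rw [add_neg_cancel, Real.zero_rpow (by linarith)]
    linarith
  · have hx0 : 0 < 1 + x := by linarith
    have h3 : (1 + x) ^ ρ = (1 + x) * (1 + x) ^ (ρ - 1) := by
      nth_rewrite 2 [← Real.rpow_one (1 + x)]
      rw [← Real.rpow_add hx0]; congr 1; ring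
    have h4 := rpow_one_add_le_one_add_mul_self (s := x) (by linarith) (by linarith : 0 ≤ ρ - 1)
      (by linarith : ρ - 1 ≤ 1)
    rw [h3]
    have h5 := mul_le_mul_of_nonneg_left h4 hx0.le
    nlinarith [sq_nonneg x]

/-- near maximizers almost satisfy the Euler-Lagrange equation -/
lemma near_max (h : p.HolderConjugate q) (hq2 : q ≤ 2) (ι : V →L[ℝ] LL p μ) (K : V →L[ℝ] V)
    (hKs : ∀ x y, ⟪K x, y⟫_ℝ = ⟪x, K y⟫_ℝ) {M : ℝ} (hM0 : 0 ≤ M)
    (hM : ∀ f, DD h ι K f ≤ M * ‖f‖ ^ 2) :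
    ∃ C : ℝ, 0 ≤ C ∧ ∀ (δ t : ℝ) (f : LL q μ), 0 ≤ δ → 0 < t → t ≤ 1 → ‖f‖ = 1 →
      M - δ ≤ DD h ι K f →
      ‖ι (K (adjF h ι f)) - M • Jm h.symm f‖ ≤ δ / (2 * t) + C * t ^ (q - 1) := by
  have hq := h.symm.lt
  have hq0 : 0 < q := by linarith
  set C₀ := ‖K‖ * ‖ι‖ ^ 2 with hC₀
  have hC₀n : 0 ≤ C₀ := by positivity
  refine ⟨(44 * M + C₀) / 2, by positivity, ?_⟩
  intro δ t f hδ ht ht1 hf hD
  set g := ι (K (adjF h ι f)) - M • Jm h.symm f with hg
  -- the key estimate for test directions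
  have key : ∀ w : LL q μ, ‖w‖ ≤ 1 →
      ∫ x, g x * w x ∂μ ≤ δ / (2 * t) + (44 * M + C₀) / 2 * t ^ (q - 1) := by
    intro w hw
    set A := ∫ x, (Jm h.symm f) x * w x ∂μ with hA
    have hA1 : |A| ≤ 1 := by
      have := abs_integral_mul_le h (Jm h.symm f) w
      rw [norm_Jm h.symm f, hf, Real.one_rpow, one_mul] at this
      exact this.trans hw
    have hgw : ∫ x, g x * w x ∂μ = ⟪K (adjF h ι f), adjF h ι w⟫_ℝ - M * A := by
      rw [inner_adjF', hA, ← integral_const_mul,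
        ← integral_sub (integrable_mul_LL h.symm _ _)
          ((integrable_mul_LL h (Jm h.symm f) w).const_mul M)]
      apply integral_congr_ae
      filter_upwards [Lp.coeFn_sub (ι (K (adjF h ι f))) (M • Jm h.symm f),
        Lp.coeFn_smul M (Jm h.symm f)] with x h1 h2
      rw [hg, h1, Pi.sub_apply, h2, Pi.smul_apply, smul_eq_mul]; ring
    -- norm of `f + t w`
    have h1 := norm_add_rpow_le h hq2 f (t • w)
    rw [hf, Real.one_rpow, norm_smul, Real.norm_eq_abs, abs_of_pos ht,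
      Real.mul_rpow ht.le (norm_nonneg _)] at h1
    have h2 : ∫ x, (Jm h.symm f) x * (t • w : LL q μ) x ∂μ = t * A := by
      rw [hA, ← integral_const_mul]
      apply integral_congr_ae
      filter_upwards [Lp.coeFn_smul t w] with x hx
      rw [hx, Pi.smul_apply, smul_eq_mul]; ring
    rw [h2] at h1
    have hwq : ‖w‖ ^ q ≤ 1 := Real.rpow_le_one (norm_nonneg _) hw hq0.le
    have hwq0 : 0 ≤ ‖w‖ ^ q := Real.rpow_nonneg (norm_nonneg _) _
    have htq : 0 < t ^ q := Real.rpow_pos_of_pos ht _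
    have htq1 : t ^ q ≤ t := by
      have := Real.rpow_le_rpow_of_exponent_ge ht ht1 hq.le
      rwa [Real.rpow_one] at this
    have ht2q : t ^ 2 ≤ t ^ q := by
      have := Real.rpow_le_rpow_of_exponent_ge ht ht1 hq2
      rwa [Real.rpow_two] at this
    set x := q * (t * A) + 4 * (t ^ q * ‖w‖ ^ q) with hx
    have hx' : ‖f + t • w‖ ^ q ≤ 1 + x := by rw [hx]; linarith
    have hxm : -1 ≤ x := by
      have : 0 ≤ ‖f + t • w‖ ^ q := Real.rpow_nonneg (norm_nonneg _) _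
      linarith
    have hρ1 : 1 ≤ 2 / q := by rw [le_div_iff₀ hq0]; linarith
    have hρ2 : 2 / q ≤ 2 := by rw [div_le_iff₀ hq0]; linarith
    have h3 : ‖f + t • w‖ ^ 2 ≤ 1 + 2 / q * x + x ^ 2 := by
      have e : ‖f + t • w‖ ^ 2 = (‖f + t • w‖ ^ q) ^ (2 / q) := by
        rw [← Real.rpow_mul (norm_nonneg _), mul_div_cancel₀ _ hq0.ne', Real.rpow_two]
      rw [e]
      exact (Real.rpow_le_rpow (Real.rpow_nonneg (norm_nonneg _) _) hx' (by positivity)).trans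
        (rpow_bound hρ1 hρ2 hxm)
    have h4 := hM (f + t • w)
    rw [DD_add h ι K hKs, DD_smul, adjF_smul, inner_smul_right] at h4
    have h5 : M * ‖f + t • w‖ ^ 2 ≤ M * (1 + 2 / q * x + x ^ 2) :=
      mul_le_mul_of_nonneg_left h3 hM0
    have h6 := abs_DD_le h ι K w
    have h7 : -(C₀) ≤ DD h ι K w := by
      have : ‖K‖ * ‖ι‖ ^ 2 * ‖w‖ ^ 2 ≤ C₀ * 1 := by
        apply mul_le_mul_of_nonneg_left _ hC₀n
        exact pow_le_one₀ (norm_nonneg _) hw
      linarith [neg_abs_le (DD h ι K w)]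
    have hxa : |x| ≤ 6 * t := by
      rw [hx]
      calc |q * (t * A) + 4 * (t ^ q * ‖w‖ ^ q)| ≤ |q * (t * A)| + |4 * (t ^ q * ‖w‖ ^ q)| :=
            abs_add_le _ _
        _ = q * (t * |A|) + 4 * (t ^ q * ‖w‖ ^ q) := by
            rw [abs_mul, abs_mul, abs_of_pos hq0, abs_of_pos ht,
              abs_of_nonneg (by positivity : 0 ≤ 4 * (t ^ q * ‖w‖ ^ q))]
        _ ≤ 2 * (t * 1) + 4 * (t * 1) := by
            gcongr
        _ = 6 * t := by ring
    have hx2 : x ^ 2 ≤ 36 * t ^ q := by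
      have : x ^ 2 ≤ (6 * t) ^ 2 := by
        rw [← sq_abs]; exact pow_le_pow_left₀ (abs_nonneg _) hxa 2
      nlinarith
    have h8 : 2 / q * x = 2 * (t * A) + 8 / q * (t ^ q * ‖w‖ ^ q) := by
      rw [hx]; field_simp; ring
    have h9 : 8 / q * (t ^ q * ‖w‖ ^ q) ≤ 8 * t ^ q := by
      have : 8 / q ≤ 8 := by rw [div_le_iff₀ hq0]; linarith
      calc 8 / q * (t ^ q * ‖w‖ ^ q) ≤ 8 * (t ^ q * 1) := by gcongr
        _ = 8 * t ^ q := by ring
    rw [h8] at h5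
    set I := ⟪K (adjF h ι f), adjF h ι w⟫_ℝ with hI
    have h10 : 2 * (t * (I - M * A)) ≤ δ + (44 * M + C₀) * t ^ q := by
      have e1 : M * (8 / q * (t ^ q * ‖w‖ ^ q)) ≤ M * (8 * t ^ q) :=
        mul_le_mul_of_nonneg_left h9 hM0
      have e2 : M * x ^ 2 ≤ M * (36 * t ^ q) := mul_le_mul_of_nonneg_left hx2 hM0
      have e3 : t ^ 2 * (-(C₀)) ≤ t ^ 2 * DD h ι K w := mul_le_mul_of_nonneg_left h7 (sq_nonneg t)
      have e4 : C₀ * t ^ 2 ≤ C₀ * t ^ q := mul_le_mul_of_nonneg_left ht2q hC₀n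
      nlinarith
    rw [hgw]
    have h11 : t ^ q = t * t ^ (q - 1) := by
      nth_rewrite 2 [← Real.rpow_one t]
      rw [← Real.rpow_add ht]; congr 1; ring
    rw [h11] at h10
    have h12 : I - M * A ≤ (δ + (44 * M + C₀) * (t * t ^ (q - 1))) / (2 * t) := by
      rw [le_div_iff₀ (by positivity)]
      linarith
    refine h12.trans (le_of_eq ?_)
    field_simp
  -- apply it to the dual element of `g`
  rcases eq_or_ne g 0 with h0 | h0
  · rw [h0, norm_zero]; positivity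
  · have hgn : 0 < ‖g‖ := norm_pos_iff.2 h0
    have hgp : 0 < ‖g‖ ^ (p - 1) := Real.rpow_pos_of_pos hgn _
    have h1 := key ((‖g‖ ^ (p - 1))⁻¹ • Jm h g) (by
      rw [norm_smul, norm_Jm h g, Real.norm_eq_abs, abs_of_pos (inv_pos.2 hgp),
        inv_mul_cancel₀ hgp.ne'])
    have h2 : ∫ x, g x * ((‖g‖ ^ (p - 1))⁻¹ • Jm h g : LL q μ) x ∂μ = ‖g‖ := by
      have e : ∫ x, g x * ((‖g‖ ^ (p - 1))⁻¹ • Jm h g : LL q μ) x ∂μ =
          (‖g‖ ^ (p - 1))⁻¹ * ∫ x, g x * (Jm h g) x ∂μ := by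
        rw [← integral_const_mul]
        apply integral_congr_ae
        filter_upwards [Lp.coeFn_smul (‖g‖ ^ (p - 1))⁻¹ (Jm h g)] with x hx
        rw [hx, Pi.smul_apply, smul_eq_mul]; ring
      rw [e, integral_mul_Jm h g]
      have e2 : ‖g‖ ^ p = ‖g‖ ^ (p - 1) * ‖g‖ := by
        nth_rewrite 3 [← Real.rpow_one ‖g‖]
        rw [← Real.rpow_add hgn]; congr 1; ring
      rw [e2]
      field_simp
    rwa [h2] at h1

end Pool.Agent.H56.BN
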