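import Mathlib
import Pool.Agent.H56.BN.Dual

/-!
Palais-Smale sequences and the dual level.
-/

set_option autoImplicit false
set_option maxHeartbeats 1000000

namespace Pool.Agent.H56.BN

open MeasureTheory Filter Topology
open scoped InnerProductSpace

variable {X : Type*} [MeasurableSpace X] {μ : Measure X}
variable {V : Type*} [NormedAddCommGroup V] [InnerProductSpace ℝ V] [CompleteSpace V]
variable {p q : ℝ} [Fact (1 < p)] [Fact (1 < q)]

/-- the gradient of the energy -/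
noncomputable def gr (h : p.HolderConjugate q) (ι : V →L[ℝ] LL p μ) (B : V →L[ℝ] V) (v : V) : V :=
  B v - adjF h ι (Jm h (ι v))

/-- the energy -/
noncomputable def En (ι : V →L[ℝ] LL p μ) (B : V →L[ℝ] V) (v : V) : ℝ :=
  1 / 2 * ⟪B v, v⟫_ℝ - 1 / p * ‖ι v‖ ^ p

/-- the level that corresponds to the dual maximum `M` -/
noncomputable def lev (p M : ℝ) : ℝ := (1 / 2 - 1 / p) * M ^ (-(p / (p - 2)))

lemma lev_pos {p M : ℝ} (hp2 : 2 < p) (hM : 0 < M) : 0 < lev p M := by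
  unfold lev
  have : 1 / p < 1 / 2 := one_div_lt_one_div_of_lt (by norm_num) hp2
  have h2 : 0 < M ^ (-(p / (p - 2))) := Real.rpow_pos_of_pos hM _
  have : 0 < 1 / 2 - 1 / p := by linarith
  positivity

lemma lev_anti {p M M' : ℝ} (hp2 : 2 < p) (hM : 0 < M) (hMM : M ≤ M') : lev p M' ≤ lev p M := by
  unfold lev
  have : 1 / p < 1 / 2 := one_div_lt_one_div_of_lt (by norm_num) hp2
  apply mul_le_mul_of_nonneg_left _ (by linarith)
  apply Real.rpow_le_rpow_of_nonpos hM hMM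
  have : 0 < p / (p - 2) := div_pos (by linarith) (by linarith)
  linarith

lemma inner_adj_Jm (h : p.HolderConjugate q) (ι : V →L[ℝ] LL p μ) (v : V) :
    ⟪adjF h ι (Jm h (ι v)), v⟫_ℝ = ‖ι v‖ ^ p := by
  rw [inner_adjF, ← integral_mul_Jm h]
  congr 1; funext x; ring

lemma En_eq (h : p.HolderConjugate q) (ι : V →L[ℝ] LL p μ) (B : V →L[ℝ] V) (v : V) :
    En ι B v = (1 / 2 - 1 / p) * ‖ι v‖ ^ p + 1 / 2 * ⟪gr h ι B v, v⟫_ℝ := by
  unfold En gr
  rw [inner_sub_left, inner_adj_Jm]; ring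

/-- from `A ≤ M A^(2(p-1)/p)` -/
lemma level_le {p M A : ℝ} (hp2 : 2 < p) (hM : 0 < M) (hA : 0 < A)
    (h : A ≤ M * A ^ (2 * (p - 1) / p)) : M ^ (-(p / (p - 2))) ≤ A := by
  have hp0 : 0 < p := by linarith
  have hm : 0 < p - 2 := by linarith
  have h1 : A ^ (-((p - 2) / p)) ≤ M := by
    have e : A ^ (2 * (p - 1) / p) = A * A ^ ((p - 2) / p) := by
      nth_rewrite 2 [← Real.rpow_one A]
      rw [← Real.rpow_add hA]; congr 1; field_simp; ring
    rw [e] at h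
    have h2 : 1 ≤ M * A ^ ((p - 2) / p) := by
      have : A * 1 ≤ A * (M * A ^ ((p - 2) / p)) := by linarith
      exact le_of_mul_le_mul_left this hA
    rw [Real.rpow_neg hA.le, inv_le_comm₀ (Real.rpow_pos_of_pos hA _) hM]
    rw [inv_le_iff_one_le_mul₀ hM]
    linarith
  have h3 := Real.rpow_le_rpow_of_nonpos (Real.rpow_pos_of_pos hA _) h1
    (by have : 0 < p / (p - 2) := by positivity
        linarith : -(p / (p - 2)) ≤ 0)
  refine h3.trans (le_of_eq ?_)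
  rw [← Real.rpow_mul hA.le]
  have : -((p - 2) / p) * -(p / (p - 2)) = 1 := by field_simp
  rw [this, Real.rpow_one]

lemma pow_two_rpow {p x : ℝ} (hx : 0 ≤ x) (hp : 0 < p) :
    (x ^ (p - 1)) ^ 2 = (x ^ p) ^ (2 * (p - 1) / p) := by
  rw [← Real.rpow_two, ← Real.rpow_mul hx, ← Real.rpow_mul hx]
  congr 1; field_simp

/-- the identity behind the lower bound -/
lemma energy_dual (h : p.HolderConjugate q) (ι : V →L[ℝ] LL p μ) {B K : V →L[ℝ] V}
    (hKB : ∀ x, K (B x) = x) (v : V) :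
    ‖ι v‖ ^ p = DD h ι K (Jm h (ι v)) + ⟪K (gr h ι B v), adjF h ι (Jm h (ι v))⟫_ℝ := by
  unfold DD
  rw [← inner_add_left, ← map_add]
  have : adjF h ι (Jm h (ι v)) + gr h ι B v = B v := by unfold gr; abel
  rw [this, hKB, real_inner_comm, inner_adj_Jm]

/-- every positive Palais-Smale level is at least `lev p M` -/
theorem PS_lower (h : p.HolderConjugate q) (hp2 : 2 < p) (ι : V →L[ℝ] LL p μ) {B K : V →L[ℝ] V}
    (hKB : ∀ x, K (B x) = x) {M : ℝ} (hM0 : 0 < M)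
    (hM : ∀ f, DD h ι K f ≤ M * ‖f‖ ^ 2) {v : ℕ → V} {τ : ℝ} (hτ : 0 < τ)
    (hE : Tendsto (fun j => En ι B (v j)) atTop (𝓝 τ))
    (hg : Tendsto (fun j => ‖gr h ι B (v j)‖) atTop (𝓝 0)) : lev p M ≤ τ := by
  have hp0 : 0 < p := by linarith
  set c := 1 / 2 - 1 / p with hc
  have hc0 : 0 < c := by
    have : 1 / p < 1 / 2 := one_div_lt_one_div_of_lt (by norm_num) hp2
    linarith
  -- norm bound of `v`
  have hv : ∀ j, ‖v j‖ ≤ ‖K‖ * (‖ι‖ * ‖ι (v j)‖ ^ (p - 1) + ‖gr h ι B (v j)‖) := by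
    intro j
    have e : v j = K (adjF h ι (Jm h (ι (v j))) + gr h ι B (v j)) := by
      rw [← hKB (v j)]
      congr 1
      rw [hKB]
      unfold gr; abel
    calc ‖v j‖ = ‖K (adjF h ι (Jm h (ι (v j))) + gr h ι B (v j))‖ := by rw [← e]
      _ ≤ ‖K‖ * ‖adjF h ι (Jm h (ι (v j))) + gr h ι B (v j)‖ := K.le_opNorm _
      _ ≤ ‖K‖ * (‖adjF h ι (Jm h (ι (v j)))‖ + ‖gr h ι B (v j)‖) := by
        gcongr; exact norm_add_le _ _
      _ ≤ _ := by
        gcongr
        rw [← norm_Jm h]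
        exact norm_adjF_le h ι _
  have hin : ∀ j, |⟪gr h ι B (v j), v j⟫_ℝ| ≤ ‖gr h ι B (v j)‖ *
      (‖K‖ * (‖ι‖ * ‖ι (v j)‖ ^ (p - 1) + ‖gr h ι B (v j)‖)) := fun j =>
    (abs_real_inner_le_norm _ _).trans (mul_le_mul_of_nonneg_left (hv j) (norm_nonneg _))
  -- boundedness
  set η := min 1 (c / (‖K‖ * ‖ι‖ + 1)) with hη
  have hη0 : 0 < η := lt_min one_pos (by positivity)
  have hev1 : ∀ᶠ j in atTop, ‖gr h ι B (v j)‖ < η := by
    have := (tendsto_order.1 hg).2 η hη0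
    exact this
  have hev2 : ∀ᶠ j in atTop, En ι B (v j) < τ + 1 := (tendsto_order.1 hE).2 _ (by linarith)
  set S := max 1 ((2 / c) * (τ + 1 + 1 / 2 * ‖K‖)) with hS
  have hbd : ∀ᶠ j in atTop, ‖ι (v j)‖ ^ p ≤ S := by
    filter_upwards [hev1, hev2] with j h1 h2
    by_contra hcon
    push Not at hcon
    have hs1 : 1 < ‖ι (v j)‖ ^ p := (le_max_left _ _).trans_lt hcon
    have hs2 : (2 / c) * (τ + 1 + 1 / 2 * ‖K‖) < ‖ι (v j)‖ ^ p := (le_max_right _ _).trans_lt hcon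
    have hs3 : 1 < ‖ι (v j)‖ := by
      by_contra hh
      push Not at hh
      exact absurd hs1 (not_lt.2 (Real.rpow_le_one (norm_nonneg _) hh hp0.le))
    have hs4 : ‖ι (v j)‖ ^ (p - 1) ≤ ‖ι (v j)‖ ^ p :=
      Real.rpow_le_rpow_of_exponent_le hs3.le (by linarith)
    rw [En_eq h] at h2
    have h3 := hin j
    have h4 : -|⟪gr h ι B (v j), v j⟫_ℝ| ≤ ⟪gr h ι B (v j), v j⟫_ℝ := neg_abs_le _
    have hg1 : ‖gr h ι B (v j)‖ ≤ 1 := h1.le.trans (min_le_left _ _)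
    have hg2 : ‖gr h ι B (v j)‖ * (‖K‖ * ‖ι‖) ≤ c := by
      have e1 : ‖gr h ι B (v j)‖ ≤ c / (‖K‖ * ‖ι‖ + 1) := h1.le.trans (min_le_right _ _)
      rw [le_div_iff₀ (by positivity)] at e1
      nlinarith [norm_nonneg (gr h ι B (v j))]
    have h5 : ‖gr h ι B (v j)‖ * (‖K‖ * (‖ι‖ * ‖ι (v j)‖ ^ (p - 1) + ‖gr h ι B (v j)‖)) ≤
        c * ‖ι (v j)‖ ^ p + ‖K‖ := by
      have e1 : ‖gr h ι B (v j)‖ * (‖K‖ * (‖ι‖ * ‖ι (v j)‖ ^ (p - 1) + ‖gr h ι B (v j)‖)) =
        (‖gr h ι B (v j)‖ * (‖K‖ * ‖ι‖)) * ‖ι (v j)‖ ^ (p - 1) +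
          ‖K‖ * (‖gr h ι B (v j)‖ * ‖gr h ι B (v j)‖) := by ring
      rw [e1]
      have e2 : (‖gr h ι B (v j)‖ * (‖K‖ * ‖ι‖)) * ‖ι (v j)‖ ^ (p - 1) ≤ c * ‖ι (v j)‖ ^ p :=
        mul_le_mul hg2 hs4 (Real.rpow_nonneg (norm_nonneg _) _) hc0.le
      have e3 : ‖K‖ * (‖gr h ι B (v j)‖ * ‖gr h ι B (v j)‖) ≤ ‖K‖ * (1 * 1) := by gcongr
      linarith
    have h6 : (c / 2) * ‖ι (v j)‖ ^ p < τ + 1 + 1 / 2 * ‖K‖ := by
      have : c * ‖ι (v j)‖ ^ p + 1 / 2 * ⟪gr h ι B (v j), v j⟫_ℝ < τ + 1 := h2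
      linarith
    have h7 : (2 / c) * ((c / 2) * ‖ι (v j)‖ ^ p) < (2 / c) * (τ + 1 + 1 / 2 * ‖K‖) :=
      mul_lt_mul_of_pos_left h6 (by positivity)
    have h8 : (2 / c) * ((c / 2) * ‖ι (v j)‖ ^ p) = ‖ι (v j)‖ ^ p := by field_simp
    linarith
  have hS1 : 1 ≤ S := le_max_left _ _
  have hbd' : ∀ᶠ j in atTop, ‖ι (v j)‖ ^ (p - 1) ≤ S := by
    filter_upwards [hbd] with j hj
    rcases le_or_gt ‖ι (v j)‖ 1 with h1 | h1
    · exact (Real.rpow_le_one (norm_nonneg _) h1 (by linarith)).trans hS1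
    · exact (Real.rpow_le_rpow_of_exponent_le h1.le (by linarith)).trans hj
  -- the inner product tends to zero
  have hin0 : Tendsto (fun j => ⟪gr h ι B (v j), v j⟫_ℝ) atTop (𝓝 0) := by
    have hup : Tendsto (fun j => ‖gr h ι B (v j)‖ * (‖K‖ * (‖ι‖ * S + ‖gr h ι B (v j)‖))) atTop
        (𝓝 (0 * (‖K‖ * (‖ι‖ * S + 0)))) :=
      hg.mul (tendsto_const_nhds.mul (tendsto_const_nhds.add hg))
    rw [zero_mul] at hup
    apply squeeze_zero_norm' _ hup
    filter_upwards [hbd'] with j hj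
    rw [Real.norm_eq_abs]
    refine (hin j).trans ?_
    gcongr
  have hA : Tendsto (fun j => ‖ι (v j)‖ ^ p) atTop (𝓝 (τ / c)) := by
    have : Tendsto (fun j => (En ι B (v j) - 1 / 2 * ⟪gr h ι B (v j), v j⟫_ℝ) / c) atTop
        (𝓝 ((τ - 1 / 2 * 0) / c)) := (hE.sub (hin0.const_mul _)).div_const _
    rw [mul_zero, sub_zero] at this
    refine this.congr (fun j => ?_)
    rw [En_eq h, ← hc, add_sub_cancel_right, mul_div_cancel_left₀ _ hc0.ne']
  have hτc : 0 < τ / c := by positivity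
  -- the dual inequality in the limit
  have hR : Tendsto (fun j => M * (‖ι (v j)‖ ^ p) ^ (2 * (p - 1) / p) +
      ‖K‖ * ‖gr h ι B (v j)‖ * (‖ι‖ * S)) atTop
      (𝓝 (M * (τ / c) ^ (2 * (p - 1) / p) + ‖K‖ * 0 * (‖ι‖ * S))) := by
    apply Tendsto.add
    · apply Tendsto.const_mul
      exact hA.rpow_const (Or.inl hτc.ne')
    · exact (hg.const_mul _).mul_const _
  rw [mul_zero, zero_mul, add_zero] at hR
  have hle : τ / c ≤ M * (τ / c) ^ (2 * (p - 1) / p) := by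
    apply le_of_tendsto_of_tendsto hA hR
    filter_upwards [hbd'] with j hj
    rw [energy_dual h ι hKB (v j)]
    apply add_le_add
    · have := hM (Jm h (ι (v j)))
      rwa [norm_Jm h, pow_two_rpow (norm_nonneg _) hp0,
        energy_dual h ι hKB (v j)] at this
    · calc ⟪K (gr h ι B (v j)), adjF h ι (Jm h (ι (v j)))⟫_ℝ
          ≤ ‖K (gr h ι B (v j))‖ * ‖adjF h ι (Jm h (ι (v j)))‖ := real_inner_le_norm _ _
        _ ≤ (‖K‖ * ‖gr h ι B (v j)‖) * (‖ι‖ * ‖ι (v j)‖ ^ (p - 1)) := by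
          apply mul_le_mul (K.le_opNorm _) _ (norm_nonneg _) (by positivity)
          rw [← norm_Jm h]
          exact norm_adjF_le h ι _
        _ ≤ _ := by gcongr
  have hfin := level_le hp2 hM0 hτc hle
  unfold lev
  rw [← hc]
  calc c * M ^ (-(p / (p - 2))) ≤ c * (τ / c) := mul_le_mul_of_nonneg_left hfin hc0.le
    _ = τ := by field_simp

/-- the critical point attached to `f` -/
noncomputable def mul0 (p M : ℝ) : ℝ := M ^ (-((p - 1) / (p - 2)))

lemma mul0_pos {p M : ℝ} (hM : 0 < M) : 0 < mul0 p M := Real.rpow_pos_of_pos hM _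

lemma mul0_rel {p M : ℝ} (hp2 : 2 < p) (hM : 0 < M) :
    (mul0 p M * M) ^ (p - 1) = mul0 p M := by
  have hm : 0 < p - 2 := by linarith
  unfold mul0
  nth_rewrite 2 [← Real.rpow_one M]
  rw [← Real.rpow_add hM, ← Real.rpow_mul hM.le]
  congr 1
  field_simp
  ring

lemma mul0_sq {p M : ℝ} (hp2 : 2 < p) (hM : 0 < M) :
    (mul0 p M * M) ^ p = mul0 p M ^ 2 * M ∧ mul0 p M ^ 2 * M = M ^ (-(p / (p - 2))) := by
  have hm : 0 < p - 2 := by linarith
  have h2 : mul0 p M ^ 2 * M = M ^ (-(p / (p - 2))) := by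
    unfold mul0
    nth_rewrite 2 [← Real.rpow_one M]
    rw [← Real.rpow_two, ← Real.rpow_mul hM.le, ← Real.rpow_add hM]
    congr 1
    field_simp
    ring
  refine ⟨?_, h2⟩
  rw [h2]
  unfold mul0
  nth_rewrite 2 [← Real.rpow_one M]
  rw [← Real.rpow_add hM, ← Real.rpow_mul hM.le]
  congr 1
  field_simp
  ring

/-- gradient and energy at the point attached to an almost maximizer -/
lemma near_point (h : p.HolderConjugate q) (hp2 : 2 < p) (ι : V →L[ℝ] LL p μ) {B K : V →L[ℝ] V}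
    (hBK : ∀ x, B (K x) = x) {M : ℝ} (hM0 : 0 < M) {f : LL q μ} (hf : ‖f‖ = 1) {ω : ℝ}
    (hω1 : ω ≤ 1) (hr : ‖ι (K (adjF h ι f)) - M • Jm h.symm f‖ ≤ ω) :
    ‖gr h ι B (mul0 p M • K (adjF h ι f))‖ ≤
      ‖ι‖ * ((p - 1) * ((mul0 p M * (2 * M + 1)) ^ (p - 2) * (mul0 p M * ω))) := by
  set m := mul0 p M with hm
  have hm0 : 0 < m := mul0_pos hM0
  set x := ι (K (adjF h ι f)) with hx
  have hω0 : 0 ≤ ω := (norm_nonneg _).trans hr
  have hJf : ‖Jm h.symm f‖ = 1 := by rw [norm_Jm h.symm, hf, Real.one_rpow]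
  -- `J (m M J f) = m f`
  have hJ : Jm h ((m * M) • Jm h.symm f) = m • f := by
    have hmM : 0 < m * M := by positivity
    apply Lp.ext
    filter_upwards [coeFn_Jm h ((m * M) • Jm h.symm f), Lp.coeFn_smul (m * M) (Jm h.symm f),
      coeFn_Jm h.symm f, Lp.coeFn_smul m f] with y h1 h2 h3 h4
    rw [h1, h2, Pi.smul_apply, smul_eq_mul, h3, h4, Pi.smul_apply, smul_eq_mul,
      sp_smul h.lt hmM.le, sp_sp h, hm, mul0_rel hp2 hM0]
  have e : gr h ι B (m • K (adjF h ι f)) =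
      adjF h ι (Jm h ((m * M) • Jm h.symm f) - Jm h (m • x)) := by
    unfold gr
    rw [adjF_sub, hJ, adjF_smul, map_smul, map_smul, hBK]
  rw [e]
  refine (norm_adjF_le h ι _).trans ?_
  apply mul_le_mul_of_nonneg_left _ (norm_nonneg _)
  refine (norm_Jm_sub_le h hp2 _ _).trans ?_
  have hp1 : 0 ≤ p - 1 := by linarith
  apply mul_le_mul_of_nonneg_left _ hp1
  have hx1 : ‖x‖ ≤ M + 1 := by
    have : x = M • Jm h.symm f + (x - M • Jm h.symm f) := by abel
    calc ‖x‖ = ‖M • Jm h.symm f + (x - M • Jm h.symm f)‖ := by rw [← this]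
      _ ≤ ‖M • Jm h.symm f‖ + ‖x - M • Jm h.symm f‖ := norm_add_le _ _
      _ ≤ M + 1 := by
        rw [norm_smul, hJf, Real.norm_eq_abs, abs_of_pos hM0]
        linarith
  apply mul_le_mul
  · apply Real.rpow_le_rpow (by positivity) _ (by linarith)
    rw [norm_smul, norm_smul, hJf, Real.norm_eq_abs, Real.norm_eq_abs, abs_of_pos hm0,
      abs_of_pos (by positivity : 0 < m * M)]
    nlinarith
  · have e2 : (m * M) • Jm h.symm f - m • x = -(m • (x - M • Jm h.symm f)) := by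
      rw [smul_sub, smul_smul]; abel
    rw [e2, norm_neg, norm_smul, Real.norm_eq_abs, abs_of_pos hm0]
    gcongr
  · exact norm_nonneg _
  · positivity

lemma En_point (h : p.HolderConjugate q) (hp2 : 2 < p) (ι : V →L[ℝ] LL p μ) {B K : V →L[ℝ] V}
    (hBK : ∀ x, B (K x) = x) {M : ℝ} (hM0 : 0 < M) (f : LL q μ) :
    En ι B (mul0 p M • K (adjF h ι f)) = 1 / 2 * (mul0 p M ^ 2 * DD h ι K f) -
      1 / p * (mul0 p M * ‖ι (K (adjF h ι f))‖) ^ p := by
  unfold En DD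
  rw [map_smul, map_smul, hBK, norm_smul, Real.norm_eq_abs, abs_of_pos (mul0_pos hM0),
    real_inner_smul_left, real_inner_smul_right, real_inner_comm]
  ring

/-- there is a Palais-Smale sequence at the level `lev p M` -/
theorem PS_exists (h : p.HolderConjugate q) (hp2 : 2 < p) (ι : V →L[ℝ] LL p μ) {B K : V →L[ℝ] V}
    (hBK : ∀ x, B (K x) = x) (hKs : ∀ x y, ⟪K x, y⟫_ℝ = ⟪x, K y⟫_ℝ) {M : ℝ} (hM0 : 0 < M)
    (hM : ∀ f, DD h ι K f ≤ M * ‖f‖ ^ 2) (hatt : ∀ ε > 0, ∃ f, ‖f‖ = 1 ∧ M - ε ≤ DD h ι K f) :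
    ∃ v : ℕ → V, Tendsto (fun j => En ι B (v j)) atTop (𝓝 (lev p M)) ∧
      Tendsto (fun j => ‖gr h ι B (v j)‖) atTop (𝓝 0) := by
  have hq := h.symm.lt
  have hq2 : q ≤ 2 := by
    have := h.mul_eq_add
    nlinarith
  obtain ⟨C, hC, hnear⟩ := near_max h hq2 ι K hKs hM0.le hM
  set δ : ℕ → ℝ := fun j => (1 / ((j : ℝ) + 1)) ^ 2 with hδ
  have hδ0 : ∀ j, 0 < δ j := fun j => by positivity
  choose f hf1 hf2 using fun j => hatt (δ j) (hδ0 j)
  set t : ℕ → ℝ := fun j => 1 / ((j : ℝ) + 1) with ht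
  have ht0 : ∀ j, 0 < t j := fun j => by positivity
  have ht1 : ∀ j, t j ≤ 1 := fun j => by
    simp only [ht]
    rw [div_le_one (by positivity)]
    have : (0:ℝ) ≤ j := Nat.cast_nonneg j
    linarith
  have htt : Tendsto t atTop (𝓝 0) := tendsto_one_div_add_atTop_nhds_zero_nat
  set ω : ℕ → ℝ := fun j => δ j / (2 * t j) + C * t j ^ (q - 1) with hω
  have hω0 : Tendsto ω atTop (𝓝 0) := by
    have h1 : Tendsto (fun j => δ j / (2 * t j)) atTop (𝓝 0) := by
      have : (fun j => δ j / (2 * t j)) = fun j => t j * (1 / 2) := by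
        funext j
        simp only [hδ, ht]
        field_simp
      rw [this]
      have h5 := htt.mul_const (1 / 2)
      rwa [zero_mul] at h5
    have h2 : Tendsto (fun j => C * t j ^ (q - 1)) atTop (𝓝 0) := by
      have h3 := (htt.rpow_const (Or.inr (by linarith : (0:ℝ) ≤ q - 1))).const_mul C
      rwa [Real.zero_rpow (by linarith : q - 1 ≠ 0), mul_zero] at h3
    simpa using h1.add h2
  have hr : ∀ j, ‖ι (K (adjF h ι (f j))) - M • Jm h.symm (f j)‖ ≤ ω j := fun j =>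
    hnear (δ j) (t j) (f j) (hδ0 j).le (ht0 j) (ht1 j) (hf1 j) (hf2 j)
  refine ⟨fun j => mul0 p M • K (adjF h ι (f j)), ?_, ?_⟩
  · -- energies
    have hD : Tendsto (fun j => DD h ι K (f j)) atTop (𝓝 M) := by
      have hlow : Tendsto (fun j => M - δ j) atTop (𝓝 M) := by
        have : Tendsto δ atTop (𝓝 0) := by
          have := htt.pow 2
          simpa using this
        simpa using tendsto_const_nhds.sub this
      refine tendsto_of_tendsto_of_tendsto_of_le_of_le hlow tendsto_const_nhds (fun j => hf2 j)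
        (fun j => ?_)
      have := hM (f j)
      rw [hf1 j] at this
      linarith
    have hX : Tendsto (fun j => ‖ι (K (adjF h ι (f j)))‖) atTop (𝓝 M) := by
      have h1 : ∀ j, |‖ι (K (adjF h ι (f j)))‖ - M| ≤ ω j := by
        intro j
        have h2 := abs_norm_sub_norm_le (ι (K (adjF h ι (f j)))) (M • Jm h.symm (f j))
        rw [norm_smul, norm_Jm h.symm, hf1 j, Real.one_rpow, mul_one, Real.norm_eq_abs,
          abs_of_pos hM0] at h2
        exact h2.trans (hr j)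
      rw [tendsto_iff_norm_sub_tendsto_zero]
      exact squeeze_zero (fun j => norm_nonneg _) h1 hω0
    have hlim : Tendsto (fun j => 1 / 2 * (mul0 p M ^ 2 * DD h ι K (f j)) -
        1 / p * (mul0 p M * ‖ι (K (adjF h ι (f j)))‖) ^ p) atTop
        (𝓝 (1 / 2 * (mul0 p M ^ 2 * M) - 1 / p * (mul0 p M * M) ^ p)) := by
      apply Tendsto.sub
      · exact (hD.const_mul _).const_mul _
      · apply Tendsto.const_mul
        exact (hX.const_mul _).rpow_const (Or.inr (by linarith))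
    have e : 1 / 2 * (mul0 p M ^ 2 * M) - 1 / p * (mul0 p M * M) ^ p = lev p M := by
      rw [(mul0_sq hp2 hM0).1, (mul0_sq hp2 hM0).2]
      unfold lev; ring
    rw [e] at hlim
    refine hlim.congr (fun j => ?_)
    rw [En_point h hp2 ι hBK hM0]
  · have hup : Tendsto (fun j => ‖ι‖ * ((p - 1) * ((mul0 p M * (2 * M + 1)) ^ (p - 2) *
        (mul0 p M * ω j)))) atTop (𝓝 (‖ι‖ * ((p - 1) * ((mul0 p M * (2 * M + 1)) ^ (p - 2) *
        (mul0 p M * 0))))) :=
      (((hω0.const_mul _).const_mul _).const_mul _).const_mul _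
    rw [mul_zero, mul_zero, mul_zero, mul_zero] at hup
    apply squeeze_zero' (Eventually.of_forall fun j => norm_nonneg _) _ hup
    have hev : ∀ᶠ j in atTop, ω j ≤ 1 := by
      have := (tendsto_order.1 hω0).2 1 one_pos
      filter_upwards [this] with j hj using hj.le
    filter_upwards [hev] with j hj
    exact near_point h hp2 ι hBK hM0 (hf1 j) hj (hr j)

/-- an exact maximizer gives a critical point at the level `lev p M` -/
theorem crit_of_max (h : p.HolderConjugate q) (hp2 : 2 < p) (ι : V →L[ℝ] LL p μ) {B K : V →L[ℝ] V}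
    (hBK : ∀ x, B (K x) = x) (hKs : ∀ x y, ⟪K x, y⟫_ℝ = ⟪x, K y⟫_ℝ) {M : ℝ} (hM0 : 0 < M)
    (hM : ∀ f, DD h ι K f ≤ M * ‖f‖ ^ 2) {f : LL q μ} (hf : ‖f‖ = 1) (hD : DD h ι K f = M) :
    ∃ v : V, gr h ι B v = 0 ∧ En ι B v = lev p M := by
  have hq := h.symm.lt
  have hq2 : q ≤ 2 := by
    have := h.mul_eq_add
    nlinarith
  obtain ⟨C, hC, hnear⟩ := near_max h hq2 ι K hKs hM0.le hM
  have hr0 : ‖ι (K (adjF h ι f)) - M • Jm h.symm f‖ ≤ 0 := by
    have htt : Tendsto (fun j : ℕ => 1 / ((j : ℝ) + 1)) atTop (𝓝 0) :=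
      tendsto_one_div_add_atTop_nhds_zero_nat
    have h3 := (htt.rpow_const (Or.inr (by linarith : (0:ℝ) ≤ q - 1))).const_mul C
    rw [Real.zero_rpow (by linarith : q - 1 ≠ 0), mul_zero] at h3
    apply ge_of_tendsto' h3
    intro j
    have := hnear 0 (1 / ((j : ℝ) + 1)) f le_rfl (by positivity) (by
      rw [div_le_one (by positivity)]
      have : (0:ℝ) ≤ j := Nat.cast_nonneg j
      linarith) hf (by rw [hD]; linarith)
    simpa using this
  refine ⟨mul0 p M • K (adjF h ι f), ?_, ?_⟩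
  · have := near_point h hp2 ι hBK hM0 hf (by norm_num : (0:ℝ) ≤ 1) hr0
    simp only [mul_zero] at this
    exact norm_le_zero_iff.1 this
  · rw [En_point h hp2 ι hBK hM0, hD]
    have : ι (K (adjF h ι f)) = M • Jm h.symm f := by
      have := norm_le_zero_iff.1 hr0
      exact sub_eq_zero.1 this
    rw [this, norm_smul, norm_Jm h.symm, hf, Real.one_rpow, mul_one, Real.norm_eq_abs,
      abs_of_pos hM0, (mul0_sq hp2 hM0).1, (mul0_sq hp2 hM0).2]
    unfold lev; ring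

/-- if the dual form is strictly below `Mc`, nonzero critical points have energy above `lev p Mc` -/
theorem crit_energy (h : p.HolderConjugate q) (hp2 : 2 < p) (ι : V →L[ℝ] LL p μ) {B K : V →L[ℝ] V}
    (hKB : ∀ x, K (B x) = x) {M : ℝ} (hM0 : 0 < M)
    (hM : ∀ f, f ≠ 0 → DD h ι K f < M * ‖f‖ ^ 2) {v : V} (hv : v ≠ 0) (hc : gr h ι B v = 0) :
    lev p M < En ι B v := by
  have hp0 : 0 < p := by linarith
  have hcc : 0 < 1 / 2 - 1 / p := by
    have : 1 / p < 1 / 2 := one_div_lt_one_div_of_lt (by norm_num) hp2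
    linarith
  have hv2 : v = K (adjF h ι (Jm h (ι v))) := by
    rw [← hKB v]
    congr 1
    rw [hKB]
    exact sub_eq_zero.1 hc
  have hJ : Jm h (ι v) ≠ 0 := by
    intro h0
    apply hv
    rw [hv2, h0]
    have : adjF h ι (0 : LL q μ) = 0 := by
      have := adjF_smul h ι (0:ℝ) (0 : LL q μ)
      simpa using this
    rw [this, map_zero]
  have hA : 0 < ‖ι v‖ ^ p := by
    rw [← norm_Jm_rpow h]
    exact Real.rpow_pos_of_pos (norm_pos_iff.2 hJ) _
  have h1 := energy_dual h ι hKB v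
  rw [hc, map_zero, inner_zero_left, add_zero] at h1
  have h2 := hM _ hJ
  rw [← h1, norm_Jm h, pow_two_rpow (norm_nonneg _) hp0] at h2
  rw [En_eq h, hc, inner_zero_left, mul_zero, add_zero]
  unfold lev
  apply mul_lt_mul_of_pos_left _ hcc
  -- strict version of `level_le`
  have hm : 0 < p - 2 := by linarith
  by_contra hcon
  push Not at hcon
  set A := ‖ι v‖ ^ p with hAdef
  have h3 := level_le hp2 hM0 hA h2.le
  have h4 : A = M ^ (-(p / (p - 2))) := le_antisymm hcon h3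
  rw [h4, ← Real.rpow_mul hM0.le] at h2
  nth_rewrite 2 [← Real.rpow_one M] at h2
  rw [← Real.rpow_add hM0] at h2
  have h5 : -(p / (p - 2)) = 1 + -(p / (p - 2)) * (2 * (p - 1) / p) := by
    field_simp; ring
  rw [← h5] at h2
  exact lt_irrefl _ h2

end Pool.Agent.H56.BN
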