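import Mathlib
import Pool.Agent.H56.BN.Dual2

/-!
Existence of a maximizer of the dual problem.
-/

set_option autoImplicit false
set_option maxHeartbeats 1000000

namespace Pool.Agent.H56.BN

open MeasureTheory Filter Topology
open scoped InnerProductSpace

variable {X : Type*} [MeasurableSpace X] {μ : Measure X}
variable {V : Type*} [NormedAddCommGroup V] [InnerProductSpace ℝ V] [CompleteSpace V]
variable {p q : ℝ} [Fact (1 < p)] [Fact (1 < q)]

lemma compact_weaknull {C : V →L[ℝ] V} (hC : IsCompactOperator C) {x : ℕ → V} {R : ℝ}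
    (hR : ∀ j, ‖x j‖ ≤ R) (hw : ∀ y, Tendsto (fun j => ⟪x j, y⟫_ℝ) atTop (𝓝 0)) :
    Tendsto (fun j => C (x j)) atTop (𝓝 0) := by
  apply tendsto_of_subseq_tendsto
  intro ns hns
  obtain ⟨S, hS, hsub⟩ := IsCompactOperator.image_closedBall_subset_compact (f := (C : V →ₗ[ℝ] V))
    hC R
  have hmem : ∀ j, C (x (ns j)) ∈ S := fun j => hsub ⟨x (ns j), by simpa using hR (ns j), rfl⟩
  obtain ⟨a, -, φ, hφ, hlim⟩ := hS.tendsto_subseq hmem
  refine ⟨φ, ?_⟩
  have ha : a = 0 := by
    apply ext_inner_right ℝ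
    intro y
    rw [inner_zero_left]
    have h1 : Tendsto (fun j => ⟪C (x (ns (φ j))), y⟫_ℝ) atTop (𝓝 ⟪a, y⟫_ℝ) :=
      hlim.inner tendsto_const_nhds
    have h2 : Tendsto (fun j => ⟪C (x (ns (φ j))), y⟫_ℝ) atTop (𝓝 0) := by
      have h3 := (hw (ContinuousLinearMap.adjoint C y)).comp (hns.comp hφ.tendsto_atTop)
      refine h3.congr (fun j => ?_)
      simp only [Function.comp_apply]
      rw [ContinuousLinearMap.adjoint_inner_right]
    exact tendsto_nhds_unique h1 h2
  rw [ha] at hlim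
  exact hlim

/-- a truncation argument replacing uniform integrability -/
lemma lim_trick {a b : ℕ → X → ℝ} (ha : ∀ j, Integrable (a j) μ) (hb : ∀ j, Integrable (b j) μ)
    (ha0 : ∀ j, ∀ᵐ x ∂μ, 0 ≤ a j x) (hb0 : ∀ j, ∀ᵐ x ∂μ, 0 ≤ b j x) {R : ℝ}
    (hR : ∀ j, ∫ x, b j x ∂μ ≤ R) (hlim : ∀ᵐ x ∂μ, Tendsto (fun j => a j x) atTop (𝓝 0))
    (hdom : ∀ ε > 0, ∃ G : X → ℝ, Integrable G μ ∧ ∀ j, ∀ᵐ x ∂μ, a j x ≤ ε * b j x + G x) :
    Tendsto (fun j => ∫ x, a j x ∂μ) atTop (𝓝 0) := by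
  have hR0 : 0 ≤ R := (integral_nonneg_of_ae (hb0 0)).trans (hR 0)
  rw [Metric.tendsto_atTop]
  intro η hη
  set ε := η / (2 * (R + 1)) with hε
  have hε0 : 0 < ε := by positivity
  obtain ⟨G, hG, hGdom⟩ := hdom ε hε0
  set hh : ℕ → X → ℝ := fun j x => max (a j x - ε * b j x) 0 with hhh
  have hmeas : ∀ j, AEStronglyMeasurable (hh j) μ := fun j =>
    (((ha j).sub ((hb j).const_mul ε)).sup (integrable_zero _ _ _)).aestronglyMeasurable
  have hT : Tendsto (fun j => ∫ x, hh j x ∂μ) atTop (𝓝 (∫ x, (0:ℝ) ∂μ)) := by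
    apply tendsto_integral_of_dominated_convergence (fun x => |G x|) hmeas hG.abs
    · intro j
      filter_upwards [hGdom j] with x hx
      simp only [hhh]
      rw [Real.norm_eq_abs, abs_of_nonneg (le_max_right _ _)]
      apply max_le _ (abs_nonneg _)
      linarith [le_abs_self (G x)]
    · have hb0' : ∀ᵐ x ∂μ, ∀ j, 0 ≤ b j x := ae_all_iff.2 hb0
      have ha0' : ∀ᵐ x ∂μ, ∀ j, 0 ≤ a j x := ae_all_iff.2 ha0
      filter_upwards [hb0', ha0', hlim] with x h1 h2 h3
      apply squeeze_zero (fun j => le_max_right _ _) _ h3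
      intro j
      apply max_le _ (h2 j)
      nlinarith [h1 j]
  rw [integral_zero] at hT
  obtain ⟨N, hN⟩ := (Metric.tendsto_atTop.1 hT) (η / 2) (by positivity)
  refine ⟨N, fun j hj => ?_⟩
  have h1 := hN j hj
  rw [Real.dist_eq, sub_zero] at h1 ⊢
  rw [abs_of_nonneg (integral_nonneg_of_ae (ha0 j))]
  have h2 : ∫ x, a j x ∂μ ≤ ∫ x, (hh j x + ε * b j x) ∂μ := by
    apply integral_mono_ae (ha j)
    · exact (((ha j).sub ((hb j).const_mul ε)).sup (integrable_zero _ _ _)).add ((hb j).const_mul ε)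
    · refine ae_of_all _ fun x => ?_
      simp only [hhh]
      linarith [le_max_left (a j x - ε * b j x) 0]
  have h3 : ∫ x, (hh j x + ε * b j x) ∂μ = ∫ x, hh j x ∂μ + ε * ∫ x, b j x ∂μ := by
    rw [← integral_const_mul]
    exact integral_add (((ha j).sub ((hb j).const_mul ε)).sup (integrable_zero _ _ _))
      ((hb j).const_mul ε)
  have h4 : ε * ∫ x, b j x ∂μ ≤ ε * R := mul_le_mul_of_nonneg_left (hR j) hε0.le
  have h5 : ε * R < η / 2 := by
    rw [hε, div_mul_eq_mul_div, div_lt_div_iff₀ (by positivity) (by norm_num)]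
    nlinarith
  have h6 : ∫ x, hh j x ∂μ < η / 2 := (le_abs_self _).trans_lt h1
  linarith

/-- bounded sequences of `L^q` that tend to zero almost everywhere are weakly null -/
lemma weaknull (h : p.HolderConjugate q) {g : ℕ → LL q μ} {R : ℝ} (hR : ∀ j, ‖g j‖ ≤ R)
    (hg : ∀ᵐ x ∂μ, Tendsto (fun j => (g j) x) atTop (𝓝 0)) (ψ : LL p μ) :
    Tendsto (fun j => ∫ x, (g j) x * ψ x ∂μ) atTop (𝓝 0) := by
  have hq := h.symm.lt
  have hp := h.lt
  have hR0 : 0 ≤ R := (norm_nonneg _).trans (hR 0)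
  have h1 : Tendsto (fun j => ∫ x, |(g j) x * ψ x| ∂μ) atTop (𝓝 0) := by
    apply lim_trick (b := fun j x => |(g j) x| ^ q) (R := R ^ q)
      (fun j => (integrable_mul_LL h.symm (g j) ψ).abs) (fun j => integrable_rpow hq (g j))
      (fun j => ae_of_all _ fun x => abs_nonneg _)
      (fun j => ae_of_all _ fun x => Real.rpow_nonneg (abs_nonneg _) _)
    · intro j
      rw [← norm_rpow hq]
      exact Real.rpow_le_rpow (norm_nonneg _) (hR j) (by linarith)
    · filter_upwards [hg] with x hx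
      have := (hx.mul_const (ψ x)).abs
      simpa using this
    · intro ε hε
      obtain ⟨C, hC, hy⟩ := young_eps h hε
      refine ⟨fun x => C * |ψ x| ^ p, (integrable_rpow hp ψ).const_mul C, fun j => ?_⟩
      refine ae_of_all _ fun x => ?_
      rw [abs_mul]
      exact hy _ _ (abs_nonneg _) (abs_nonneg _)
  apply squeeze_zero_norm _ h1
  intro j
  rw [Real.norm_eq_abs]
  exact abs_integral_le_integral_abs

/-- the one-sided Brezis-Lieb lemma -/
lemma brezis_lieb (h : p.HolderConjugate q) {g : ℕ → LL q μ} {R : ℝ} (hR : ∀ j, ‖g j‖ ≤ R)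
    (hg : ∀ᵐ x ∂μ, Tendsto (fun j => (g j) x) atTop (𝓝 0)) (F : LL q μ) :
    ∃ e : ℕ → ℝ, Tendsto e atTop (𝓝 0) ∧ ∀ j, ‖g j‖ ^ q + ‖F‖ ^ q ≤ ‖F + g j‖ ^ q + e j := by
  have hq := h.symm.lt
  have hq0 : 0 < q := by linarith
  have hR0 : 0 ≤ R := (norm_nonneg _).trans (hR 0)
  set a : ℕ → X → ℝ := fun j x => max (|(g j) x| ^ q + |F x| ^ q - |(F + g j) x| ^ q) 0 with ha
  have hint : ∀ j, Integrable (fun x => |(g j) x| ^ q + |F x| ^ q - |(F + g j) x| ^ q) μ :=
    fun j => ((integrable_rpow hq (g j)).add (integrable_rpow hq F)).sub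
      (integrable_rpow hq (F + g j))
  have hai : ∀ j, Integrable (a j) μ := fun j => (hint j).sup (integrable_zero _ _ _)
  have hlim : Tendsto (fun j => ∫ x, a j x ∂μ) atTop (𝓝 0) := by
    apply lim_trick (b := fun j x => |(g j) x| ^ q) (R := R ^ q) hai
      (fun j => integrable_rpow hq (g j)) (fun j => ae_of_all _ fun x => le_max_right _ _)
      (fun j => ae_of_all _ fun x => Real.rpow_nonneg (abs_nonneg _) _)
    · intro j
      rw [← norm_rpow hq]
      exact Real.rpow_le_rpow (norm_nonneg _) (hR j) (by linarith)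
    · have hadd : ∀ᵐ x ∂μ, ∀ j, (F + g j : LL q μ) x = F x + (g j) x :=
        ae_all_iff.2 fun j => Lp.coeFn_add F (g j)
      filter_upwards [hg, hadd] with x hx hx2
      have h1 : Tendsto (fun j => |(g j) x| ^ q) atTop (𝓝 0) := by
        have := hx.abs.rpow_const (p := q) (Or.inr hq0.le)
        rwa [abs_zero, Real.zero_rpow hq0.ne'] at this
      have h2 : Tendsto (fun j => |(F + g j : LL q μ) x| ^ q) atTop (𝓝 (|F x| ^ q)) := by
        have h3 : Tendsto (fun j => F x + (g j) x) atTop (𝓝 (F x + 0)) :=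
          tendsto_const_nhds.add hx
        rw [add_zero] at h3
        have := h3.abs.rpow_const (p := q) (Or.inr hq0.le)
        refine this.congr (fun j => ?_)
        rw [hx2 j]
      have h4 := ((h1.add_const (|F x| ^ q)).sub h2).max (tendsto_const_nhds (x := (0:ℝ)))
      simpa [ha] using h4
    · intro ε hε
      obtain ⟨C, hC, hy⟩ := young_eps h.symm (ε := ε / q) (by positivity)
      refine ⟨fun x => (1 + q * C) * |F x| ^ q, (integrable_rpow hq F).const_mul _, fun j => ?_⟩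
      filter_upwards [Lp.coeFn_add F (g j)] with x hx
      simp only [ha]
      rw [hx, Pi.add_apply]
      have hFq : 0 ≤ |F x| ^ q := Real.rpow_nonneg (abs_nonneg _) _
      have hgq : 0 ≤ |(g j) x| ^ q := Real.rpow_nonneg (abs_nonneg _) _
      apply max_le _ (by positivity)
      have h1 := tangent hq (F x + (g j) x) ((g j) x)
      rw [add_sub_cancel_right] at h1
      have h2 : -(sp q ((g j) x) * F x) ≤ |(g j) x| ^ (q - 1) * |F x| := by
        rw [← abs_sp hq, ← abs_mul]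
        exact neg_le_abs _
      have h3 := hy (|(g j) x| ^ (q - 1)) |F x| (Real.rpow_nonneg (abs_nonneg _) _) (abs_nonneg _)
      rw [← Real.rpow_mul (abs_nonneg _)] at h3
      have h4 : (q - 1) * p = q := by
        have := h.symm.sub_one_mul_conj
        linarith
      rw [h4] at h3
      have h5 : q * (ε / q * |(g j) x| ^ q + C * |F x| ^ q) =
          ε * |(g j) x| ^ q + q * C * |F x| ^ q := by field_simp
      have h6 : q * (|(g j) x| ^ (q - 1) * |F x|) ≤ q * (ε / q * |(g j) x| ^ q + C * |F x| ^ q) :=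
        mul_le_mul_of_nonneg_left h3 hq0.le
      nlinarith
  refine ⟨fun j => ∫ x, a j x ∂μ, hlim, fun j => ?_⟩
  rw [norm_rpow hq, norm_rpow hq, norm_rpow hq]
  have h1 : ∫ x, (|(g j) x| ^ q + |F x| ^ q - |(F + g j) x| ^ q) ∂μ ≤ ∫ x, a j x ∂μ :=
    integral_mono (hint j) (hai j) (fun x => le_max_left _ _)
  have h2 : ∫ x, (|(g j) x| ^ q + |F x| ^ q - |(F + g j) x| ^ q) ∂μ =
      ∫ x, |(g j) x| ^ q ∂μ + ∫ x, |F x| ^ q ∂μ - ∫ x, |(F + g j) x| ^ q ∂μ := by
    have i12 : Integrable (fun x => |(g j) x| ^ q + |F x| ^ q) μ :=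
      (integrable_rpow hq (g j)).add (integrable_rpow hq F)
    rw [integral_sub i12 (integrable_rpow hq (F + g j)),
      integral_add (integrable_rpow hq (g j)) (integrable_rpow hq F)]
  linarith

/-- extraction of an almost everywhere convergent subsequence from `L^r` convergence -/
lemma ae_subseq {r : ℝ} [Fact (1 < r)] {f : ℕ → LL r μ} (hf : Tendsto (fun j => ‖f j‖) atTop (𝓝 0)) :
    ∃ φ : ℕ → ℕ, StrictMono φ ∧ ∀ᵐ x ∂μ, Tendsto (fun j => (f (φ j)) x) atTop (𝓝 0) := by
  have h1 : Tendsto (fun j => eLpNorm (fun x => (f j) x - (0 : X → ℝ) x) (ENNReal.ofReal r) μ) atTop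
      (𝓝 0) := by
    have h2 : ∀ j, eLpNorm (fun x => (f j) x - (0 : X → ℝ) x) (ENNReal.ofReal r) μ =
        ENNReal.ofReal ‖f j‖ := by
      intro j
      rw [Lp.norm_def, ENNReal.ofReal_toReal (Lp.eLpNorm_ne_top _)]
      congr 1
      funext x; simp
    simp_rw [h2]
    have := ENNReal.tendsto_ofReal hf
    simpa using this
  have h3 := tendstoInMeasure_of_tendsto_eLpNorm (μ := μ) (g := (0 : X → ℝ))
    (f := fun j x => (f j) x) (l := atTop) (p := ENNReal.ofReal r)
    (ofReal_ne_zero' (Fact.out : 1 < r)) (fun j => Lp.aestronglyMeasurable (f j))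
    aestronglyMeasurable_zero h1
  obtain ⟨φ, hφ, hae⟩ := h3.exists_seq_tendsto_ae
  exact ⟨φ, hφ, by simpa using hae⟩

end Pool.Agent.H56.BN
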