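import Mathlib
import Pool.Agent.H56.BN.Dual3

/-!
Existence of a maximizer of the dual problem.
-/

set_option autoImplicit false
set_option maxHeartbeats 1000000

namespace Pool.Agent.H56.BN

open MeasureTheory Filter Topology
open scoped InnerProductSpace

variable {X : Type*} [MeasurableSpace X] {μ : Measure X}
variable {V : Type*} [NormedAddCommGroup V] [InnerProductSpace ℝ V] [CompleteSpace V]
variable {p q : ℝ} [Fact (1 < p)] [Fact (1 < q)]

/-- a point where the dual maximum is attained -/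
theorem max_exists (h : p.HolderConjugate q) (hp2 : 2 < p) (ι : V →L[ℝ] LL p μ)
    {K C₁ : V →L[ℝ] V} (hKs : ∀ x y, ⟪K x, y⟫_ℝ = ⟪x, K y⟫_ℝ) (hK1 : ∀ x, K x = x + C₁ x)
    (hC1 : IsCompactOperator C₁)
    (hae : ∀ (v : ℕ → V) (R : ℝ), (∀ j, ‖v j‖ ≤ R) → ∃ φ : ℕ → ℕ, StrictMono φ ∧ ∃ w : X → ℝ,
      ∀ᵐ x ∂μ, Tendsto (fun j => (ι (v (φ j))) x) atTop (𝓝 (w x)))
    {M Mc : ℝ} (hMc0 : 0 ≤ Mc) (hMM : Mc < M)
    (hMc : ∀ f : LL q μ, ‖adjF h ι f‖ ^ 2 ≤ Mc * ‖f‖ ^ 2)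
    (hM : ∀ f, DD h ι K f ≤ M * ‖f‖ ^ 2) (hatt : ∀ ε > 0, ∃ f, ‖f‖ = 1 ∧ M - ε ≤ DD h ι K f) :
    ∃ f, ‖f‖ = 1 ∧ DD h ι K f = M := by
  have hq := h.symm.lt
  have hq0 : 0 < q := by linarith
  have hM0 : 0 < M := hMc0.trans_lt hMM
  have hq2 : q ≤ 2 := by
    have := h.mul_eq_add
    nlinarith
  obtain ⟨C, hC, hnear⟩ := near_max h hq2 ι K hKs hM0.le hM
  set δ : ℕ → ℝ := fun j => (1 / ((j : ℝ) + 1)) ^ 2 with hδ
  have hδ0 : ∀ j, 0 < δ j := fun j => by positivity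
  choose f hf1 hf2 using fun j => hatt (δ j) (hδ0 j)
  set t : ℕ → ℝ := fun j => 1 / ((j : ℝ) + 1) with ht
  have ht0 : ∀ j, 0 < t j := fun j => by positivity
  have ht1 : ∀ j, t j ≤ 1 := fun j => by
    simp only [ht]
    rw [div_le_one (by positivity)]
    have : (0:ℝ) ≤ j := Nat.cast_nonneg j
    linarith
  have htt : Tendsto t atTop (𝓝 0) := tendsto_one_div_add_atTop_nhds_zero_nat
  set ω : ℕ → ℝ := fun j => δ j / (2 * t j) + C * t j ^ (q - 1) with hω
  have hω0 : Tendsto ω atTop (𝓝 0) := by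
    have h1 : Tendsto (fun j => δ j / (2 * t j)) atTop (𝓝 0) := by
      have : (fun j => δ j / (2 * t j)) = fun j => t j * (1 / 2) := by
        funext j
        simp only [hδ, ht]
        field_simp
      rw [this]
      have h5 := htt.mul_const (1 / 2)
      rwa [zero_mul] at h5
    have h2 : Tendsto (fun j => C * t j ^ (q - 1)) atTop (𝓝 0) := by
      have h3 := (htt.rpow_const (Or.inr (by linarith : (0:ℝ) ≤ q - 1))).const_mul C
      rwa [Real.zero_rpow (by linarith : q - 1 ≠ 0), mul_zero] at h3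
    simpa using h1.add h2
  have hr : ∀ j, ‖ι (K (adjF h ι (f j))) - M • Jm h.symm (f j)‖ ≤ ω j := fun j =>
    hnear (δ j) (t j) (f j) (hδ0 j).le (ht0 j) (ht1 j) (hf1 j) (hf2 j)
  -- bounded sequence
  have hvb : ∀ j, ‖K (adjF h ι (f j))‖ ≤ ‖K‖ * (‖ι‖ * 1) := fun j => by
    refine (K.le_opNorm _).trans ?_
    have := norm_adjF_le h ι (f j)
    rw [hf1 j] at this
    gcongr
  obtain ⟨φ, hφ, w, hw⟩ := hae (fun j => K (adjF h ι (f j))) _ hvb
  have hrn : Tendsto (fun j => ‖ι (K (adjF h ι (f (φ j)))) - M • Jm h.symm (f (φ j))‖) atTop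
      (𝓝 0) :=
    squeeze_zero (fun j => norm_nonneg _) (fun j => hr (φ j)) (hω0.comp hφ.tendsto_atTop)
  obtain ⟨ψ, hψ, hψae⟩ := ae_subseq hrn
  set f' : ℕ → LL q μ := fun j => f (φ (ψ j)) with hf'
  set F₀ : X → ℝ := fun x => sp p (w x / M) with hF₀
  have hF : ∀ᵐ x ∂μ, Tendsto (fun j => (f' j) x) atTop (𝓝 (F₀ x)) := by
    have e1 : ∀ᵐ x ∂μ, ∀ j, (ι (K (adjF h ι (f' j))) - M • Jm h.symm (f' j) : LL p μ) x =
        (ι (K (adjF h ι (f' j)))) x - M * sp q ((f' j) x) := by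
      rw [ae_all_iff]
      intro j
      filter_upwards [Lp.coeFn_sub (ι (K (adjF h ι (f' j)))) (M • Jm h.symm (f' j)),
        Lp.coeFn_smul M (Jm h.symm (f' j)), coeFn_Jm h.symm (f' j)] with x h1 h2 h3
      rw [h1, Pi.sub_apply, h2, Pi.smul_apply, smul_eq_mul, h3]
    filter_upwards [e1, hw, hψae] with x h1 h2 h3
    have h4 : Tendsto (fun j => (ι (K (adjF h ι (f' j)))) x) atTop (𝓝 (w x)) :=
      h2.comp hψ.tendsto_atTop
    have h5 : Tendsto (fun j => (ι (K (adjF h ι (f' j)))) x - M * sp q ((f' j) x)) atTop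
        (𝓝 0) := by
      refine h3.congr (fun j => ?_)
      rw [← h1 j]
    have h6 : Tendsto (fun j => sp q ((f' j) x)) atTop (𝓝 (w x / M)) := by
      have h7 := (h4.sub h5).div_const M
      rw [sub_zero] at h7
      refine h7.congr (fun j => ?_)
      field_simp
      ring
    have h8 := ((continuous_sp h.lt).tendsto (w x / M)).comp h6
    refine h8.congr (fun j => ?_)
    rw [Function.comp_apply, sp_sp h]
  -- `F₀` belongs to `L^q`
  have hFm : AEStronglyMeasurable F₀ μ :=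
    aestronglyMeasurable_of_tendsto_ae atTop (fun j => Lp.aestronglyMeasurable (f' j)) hF
  have hFn : eLpNorm F₀ (ENNReal.ofReal q) μ ≤ 1 := by
    refine (Lp.eLpNorm_lim_le_liminf_eLpNorm (fun j => Lp.aestronglyMeasurable (f' j)) F₀
      hF).trans ?_
    have : ∀ j, eLpNorm (f' j) (ENNReal.ofReal q) μ = 1 := by
      intro j
      have h1 : ‖f' j‖ = 1 := hf1 _
      rw [Lp.norm_def] at h1
      rw [← ENNReal.ofReal_toReal (Lp.eLpNorm_ne_top (f' j)), h1, ENNReal.ofReal_one]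
    simp [this]
  have hFL : MemLp F₀ (ENNReal.ofReal q) μ := ⟨hFm, hFn.trans_lt ENNReal.one_lt_top⟩
  set F : LL q μ := hFL.toLp F₀ with hFdef
  have hF1 : ‖F‖ ≤ 1 := by
    rw [hFdef, Lp.norm_toLp]
    exact ENNReal.toReal_le_of_le_ofReal zero_le_one (by simpa using hFn)
  set g : ℕ → LL q μ := fun j => f' j - F with hg
  have hg0 : ∀ᵐ x ∂μ, Tendsto (fun j => (g j) x) atTop (𝓝 0) := by
    have e1 : ∀ᵐ x ∂μ, ∀ j, (g j) x = (f' j) x - F x := by
      rw [ae_all_iff]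
      intro j
      filter_upwards [Lp.coeFn_sub (f' j) F] with x hx
      rw [hg, hx, Pi.sub_apply]
    filter_upwards [e1, hF, MemLp.coeFn_toLp hFL] with x h1 h2 h3
    simp_rw [h1]
    rw [hFdef, h3]
    have := h2.sub_const (F₀ x)
    rwa [sub_self] at this
  have hgb : ∀ j, ‖g j‖ ≤ 2 := fun j => by
    refine (norm_sub_le _ _).trans ?_
    have : ‖f' j‖ = 1 := hf1 _
    linarith
  have hfg : ∀ j, f' j = F + g j := fun j => by simp [hg]
  -- the weak limit of `adjF (g j)`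
  have hwk : ∀ y, Tendsto (fun j => ⟪adjF h ι (g j), y⟫_ℝ) atTop (𝓝 0) := by
    intro y
    simp_rw [inner_adjF]
    exact weaknull h hgb hg0 (ι y)
  have hadjb : ∀ j, ‖adjF h ι (g j)‖ ≤ ‖ι‖ * 2 := fun j =>
    (norm_adjF_le h ι _).trans (mul_le_mul_of_nonneg_left (hgb j) (norm_nonneg _))
  have hC1g : Tendsto (fun j => C₁ (adjF h ι (g j))) atTop (𝓝 0) :=
    compact_weaknull hC1 hadjb hwk
  have hC1i : Tendsto (fun j => ⟪C₁ (adjF h ι (g j)), adjF h ι (g j)⟫_ℝ) atTop (𝓝 0) := by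
    have hup : Tendsto (fun j => ‖C₁ (adjF h ι (g j))‖ * (‖ι‖ * 2)) atTop (𝓝 0) := by
      have := hC1g.norm.mul_const (‖ι‖ * 2)
      simpa using this
    apply squeeze_zero_norm _ hup
    intro j
    rw [Real.norm_eq_abs]
    exact (abs_real_inner_le_norm _ _).trans
      (mul_le_mul_of_nonneg_left (hadjb j) (norm_nonneg _))
  have hcross : Tendsto (fun j => ⟪K (adjF h ι F), adjF h ι (g j)⟫_ℝ) atTop (𝓝 0) := by
    refine (hwk (K (adjF h ι F))).congr (fun j => ?_)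
    rw [real_inner_comm]
  obtain ⟨e, he0, he⟩ := brezis_lieb h hgb hg0 F
  set θ := ‖F‖ ^ q with hθ
  have hθ0 : 0 ≤ θ := Real.rpow_nonneg (norm_nonneg _) _
  have hθ1 : θ ≤ 1 := Real.rpow_le_one (norm_nonneg _) hF1 hq0.le
  have hgq : ∀ j, ‖g j‖ ^ q ≤ 1 - θ + e j := by
    intro j
    have h1 := he j
    have h2 : ‖F + g j‖ = 1 := by rw [← hfg j]; exact hf1 _
    rw [h2, Real.one_rpow] at h1
    linarith
  -- main inequality
  have hDD : ∀ j, DD h ι K (f' j) ≤ DD h ι K F + 2 * ⟪K (adjF h ι F), adjF h ι (g j)⟫_ℝ +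
      (Mc * (max (1 - θ + e j) 0) ^ (2 / q) + ⟪C₁ (adjF h ι (g j)), adjF h ι (g j)⟫_ℝ) := by
    intro j
    rw [hfg j, DD_add h ι K hKs]
    have h1 : DD h ι K (g j) = ‖adjF h ι (g j)‖ ^ 2 +
        ⟪C₁ (adjF h ι (g j)), adjF h ι (g j)⟫_ℝ := by
      unfold DD
      rw [hK1, inner_add_left, real_inner_self_eq_norm_sq]
    have h2 : ‖g j‖ ^ 2 ≤ (max (1 - θ + e j) 0) ^ (2 / q) := by
      have e1 : ‖g j‖ ^ 2 = (‖g j‖ ^ q) ^ (2 / q) := by
        rw [← Real.rpow_mul (norm_nonneg _), mul_div_cancel₀ _ hq0.ne', Real.rpow_two]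
      rw [e1]
      apply Real.rpow_le_rpow (Real.rpow_nonneg (norm_nonneg _) _) _ (by positivity)
      exact (hgq j).trans (le_max_left _ _)
    have h3 := hMc (g j)
    have h4 : Mc * ‖g j‖ ^ 2 ≤ Mc * (max (1 - θ + e j) 0) ^ (2 / q) :=
      mul_le_mul_of_nonneg_left h2 hMc0
    rw [h1]
    linarith
  have hlimR : Tendsto (fun j => DD h ι K F + 2 * ⟪K (adjF h ι F), adjF h ι (g j)⟫_ℝ +
      (Mc * (max (1 - θ + e j) 0) ^ (2 / q) + ⟪C₁ (adjF h ι (g j)), adjF h ι (g j)⟫_ℝ)) atTop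
      (𝓝 (DD h ι K F + 2 * 0 + (Mc * (max (1 - θ + 0) 0) ^ (2 / q) + 0))) := by
    apply Tendsto.add
    · exact tendsto_const_nhds.add (hcross.const_mul 2)
    · apply Tendsto.add _ hC1i
      apply Tendsto.const_mul
      apply Tendsto.rpow_const
      · exact (tendsto_const_nhds.add he0).max tendsto_const_nhds
      · right; positivity
  have hlimL : Tendsto (fun j => DD h ι K (f' j)) atTop (𝓝 M) := by
    have hlow : Tendsto (fun j => M - δ (φ (ψ j))) atTop (𝓝 M) := by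
      have h1 : Tendsto δ atTop (𝓝 0) := by
        have := htt.pow 2
        simpa using this
      have h2 := (h1.comp hφ.tendsto_atTop).comp hψ.tendsto_atTop
      have h3 := (tendsto_const_nhds (x := M)).sub h2
      rw [sub_zero] at h3
      exact h3
    refine tendsto_of_tendsto_of_tendsto_of_le_of_le hlow tendsto_const_nhds
      (fun j => hf2 _) (fun j => ?_)
    have h1 := hM (f' j)
    have h2 : ‖f' j‖ = 1 := hf1 _
    rw [h2] at h1
    linarith
  have hmain := le_of_tendsto_of_tendsto' hlimL hlimR hDD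
  rw [add_zero, mul_zero, add_zero, add_zero, max_eq_left (by linarith : 0 ≤ 1 - θ)] at hmain
  have hF2 : ‖F‖ ^ 2 ≤ θ := by
    have e1 : ‖F‖ ^ 2 = θ ^ (2 / q) := by
      rw [hθ, ← Real.rpow_mul (norm_nonneg _), mul_div_cancel₀ _ hq0.ne', Real.rpow_two]
    rw [e1]
    have h1 : (1:ℝ) ≤ 2 / q := by rw [le_div_iff₀ hq0]; linarith
    rcases hθ0.eq_or_lt with h0 | h0
    · rw [← h0, Real.zero_rpow (by positivity)]
    · have := Real.rpow_le_rpow_of_exponent_ge h0 hθ1 h1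
      rwa [Real.rpow_one] at this
  have hG2 : (1 - θ) ^ (2 / q) ≤ 1 - θ := by
    have h1 : (1:ℝ) ≤ 2 / q := by rw [le_div_iff₀ hq0]; linarith
    rcases (by linarith : 0 ≤ 1 - θ).eq_or_lt with h0 | h0
    · rw [← h0, Real.zero_rpow (by positivity)]
    · have := Real.rpow_le_rpow_of_exponent_ge h0 (by linarith) h1
      rwa [Real.rpow_one] at this
  have hMF := hM F
  have h1 : Mc * (1 - θ) ^ (2 / q) ≤ Mc * (1 - θ) := mul_le_mul_of_nonneg_left hG2 hMc0
  have h2 : M * ‖F‖ ^ 2 ≤ M * θ := mul_le_mul_of_nonneg_left hF2 hM0.le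
  have hθe : θ = 1 := by
    have h3 : (M - Mc) * (1 - θ) ≤ 0 := by nlinarith
    have h4 : 0 < M - Mc := by linarith
    nlinarith
  have hFn1 : ‖F‖ = 1 := by
    have h3 : ‖F‖ ^ q = 1 := hθe
    have h4 : ‖F‖ = (‖F‖ ^ q) ^ (1 / q) := by
      rw [← Real.rpow_mul (norm_nonneg _), mul_one_div, div_self hq0.ne', Real.rpow_one]
    rw [h4, h3, Real.one_rpow]
  refine ⟨F, hFn1, le_antisymm ?_ ?_⟩
  · rw [hFn1] at hMF; linarith
  · rw [hθe, sub_self, Real.zero_rpow (by positivity), mul_zero, add_zero] at hmain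
    exact hmain

end Pool.Agent.H56.BN
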