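import Mathlib
import Pool.Agent.H56.BN.Dual4

/-!
The least Palais-Smale level and ground states, abstract form.
-/

set_option autoImplicit false
set_option maxHeartbeats 1000000

namespace Pool.Agent.H56.BN

open MeasureTheory Filter Topology
open scoped InnerProductSpace

variable {X : Type*} [MeasurableSpace X] {μ : Measure X}
variable {V : Type*} [NormedAddCommGroup V] [InnerProductSpace ℝ V] [CompleteSpace V]
variable {p q : ℝ} [Fact (1 < p)] [Fact (1 < q)]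

/-- positive levels of Palais-Smale sequences -/
def PSset (h : p.HolderConjugate q) (ι : V →L[ℝ] LL p μ) (B : V →L[ℝ] V) : Set ℝ :=
  {τ : ℝ | 0 < τ ∧ ∃ v : ℕ → V, Tendsto (fun j => En ι B (v j)) atTop (𝓝 τ) ∧
    Tendsto (fun j => ‖gr h ι B (v j)‖) atTop (𝓝 0)}

/-- existence of a ground state -/
def Ground (h : p.HolderConjugate q) (ι : V →L[ℝ] LL p μ) (B : V →L[ℝ] V) : Prop :=
  ∃ v : V, gr h ι B v = 0 ∧ En ι B v = sInf (PSset h ι B)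

/-- the dual supremum -/
noncomputable def MM (h : p.HolderConjugate q) (ι : V →L[ℝ] LL p μ) (K : V →L[ℝ] V) : ℝ :=
  sSup {m : ℝ | ∃ f : LL q μ, ‖f‖ = 1 ∧ m = DD h ι K f}

lemma MM_bdd (h : p.HolderConjugate q) (ι : V →L[ℝ] LL p μ) (K : V →L[ℝ] V) :
    BddAbove {m : ℝ | ∃ f : LL q μ, ‖f‖ = 1 ∧ m = DD h ι K f} := by
  refine ⟨‖K‖ * ‖ι‖ ^ 2, ?_⟩
  rintro m ⟨f, hf, rfl⟩
  have := abs_DD_le h ι K f
  rw [hf] at this
  have h2 := le_abs_self (DD h ι K f)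
  linarith

/-- normalisation -/
lemma DD_normalize (h : p.HolderConjugate q) (ι : V →L[ℝ] LL p μ) (K : V →L[ℝ] V) {f : LL q μ}
    (hf : f ≠ 0) : ‖(‖f‖⁻¹ • f)‖ = 1 ∧ DD h ι K (‖f‖⁻¹ • f) = DD h ι K f / ‖f‖ ^ 2 := by
  have h0 : 0 < ‖f‖ := norm_pos_iff.2 hf
  constructor
  · rw [norm_smul, norm_inv, norm_norm, inv_mul_cancel₀ h0.ne']
  · rw [DD_smul]; field_simp

lemma DD_le_MM (h : p.HolderConjugate q) (ι : V →L[ℝ] LL p μ) (K : V →L[ℝ] V) (f : LL q μ) :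
    DD h ι K f ≤ MM h ι K * ‖f‖ ^ 2 := by
  by_cases hf : f = 0
  · rw [hf, norm_zero]
    have : DD h ι K (0 : LL q μ) = 0 := by
      have := DD_smul h ι K 0 (0 : LL q μ)
      simpa using this
    rw [this]; simp
  · have h0 : 0 < ‖f‖ := norm_pos_iff.2 hf
    obtain ⟨h1, h2⟩ := DD_normalize h ι K hf
    have h3 : DD h ι K (‖f‖⁻¹ • f) ≤ MM h ι K := le_csSup (MM_bdd h ι K) ⟨_, h1, rfl⟩
    rw [h2, div_le_iff₀ (by positivity)] at h3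
    exact h3

lemma le_MM (h : p.HolderConjugate q) (ι : V →L[ℝ] LL p μ) (K : V →L[ℝ] V) {f : LL q μ}
    (hf : f ≠ 0) {c : ℝ} (hc : c * ‖f‖ ^ 2 ≤ DD h ι K f) : c ≤ MM h ι K := by
  have h0 : 0 < ‖f‖ := norm_pos_iff.2 hf
  have h1 := hc.trans (DD_le_MM h ι K f)
  exact le_of_mul_le_mul_right h1 (by positivity)

lemma MM_near (h : p.HolderConjugate q) (ι : V →L[ℝ] LL p μ) (K : V →L[ℝ] V) {f₀ : LL q μ}
    (hf₀ : f₀ ≠ 0) : ∀ ε > 0, ∃ f : LL q μ, ‖f‖ = 1 ∧ MM h ι K - ε ≤ DD h ι K f := by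
  intro ε hε
  have hne : {m : ℝ | ∃ f : LL q μ, ‖f‖ = 1 ∧ m = DD h ι K f}.Nonempty :=
    ⟨_, _, (DD_normalize h ι K hf₀).1, rfl⟩
  obtain ⟨m, ⟨f, hf, rfl⟩, hm⟩ := exists_lt_of_lt_csSup hne
    (show MM h ι K - ε < sSup _ by unfold MM; linarith)
  exact ⟨f, hf, hm.le⟩

/-- the least positive Palais-Smale level -/
theorem sInf_PSset (h : p.HolderConjugate q) (hp2 : 2 < p) (ι : V →L[ℝ] LL p μ)
    {B K : V →L[ℝ] V} (hKB : ∀ x, K (B x) = x) (hBK : ∀ x, B (K x) = x)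
    (hKs : ∀ x y, ⟪K x, y⟫_ℝ = ⟪x, K y⟫_ℝ) {f₀ : LL q μ} (hf₀ : f₀ ≠ 0)
    (hM0 : 0 < MM h ι K) : sInf (PSset h ι B) = lev p (MM h ι K) := by
  obtain ⟨v, hv1, hv2⟩ := PS_exists h hp2 ι hBK hKs hM0 (DD_le_MM h ι K) (MM_near h ι K hf₀)
  have hlev := lev_pos hp2 hM0
  apply le_antisymm
  · exact csInf_le ⟨0, fun _ hx => hx.1.le⟩ ⟨hlev, v, hv1, hv2⟩
  · refine le_csInf (s := PSset h ι B) ⟨lev p (MM h ι K), hlev, v, hv1, hv2⟩ ?_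
    rintro τ ⟨hτ, w, hw1, hw2⟩
    exact PS_lower h hp2 ι hKB hM0 (DD_le_MM h ι K) hτ hw1 hw2

/-- existence of ground states -/
theorem ground_of_lt (h : p.HolderConjugate q) (hp2 : 2 < p) (ι : V →L[ℝ] LL p μ)
    {B K C₁ : V →L[ℝ] V} (hKB : ∀ x, K (B x) = x) (hBK : ∀ x, B (K x) = x)
    (hKs : ∀ x y, ⟪K x, y⟫_ℝ = ⟪x, K y⟫_ℝ) (hK1 : ∀ x, K x = x + C₁ x)
    (hC1 : IsCompactOperator C₁)
    (hae : ∀ (v : ℕ → V) (R : ℝ), (∀ j, ‖v j‖ ≤ R) → ∃ φ : ℕ → ℕ, StrictMono φ ∧ ∃ w : X → ℝ,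
      ∀ᵐ x ∂μ, Tendsto (fun j => (ι (v (φ j))) x) atTop (𝓝 (w x)))
    {f₀ : LL q μ} (hf₀ : f₀ ≠ 0) (hf : ‖ι‖ ^ 2 * ‖f₀‖ ^ 2 < DD h ι K f₀) :
    Ground h ι B := by
  have h0 : 0 < ‖f₀‖ ^ 2 := by
    have := norm_pos_iff.2 hf₀
    positivity
  have hMM : ‖ι‖ ^ 2 < MM h ι K := by
    have h1 := hf.trans_le (DD_le_MM h ι K f₀)
    exact lt_of_mul_lt_mul_right h1 h0.le
  have hM0 : 0 < MM h ι K := (sq_nonneg _).trans_lt hMM
  have hMc : ∀ f : LL q μ, ‖adjF h ι f‖ ^ 2 ≤ ‖ι‖ ^ 2 * ‖f‖ ^ 2 := by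
    intro f
    rw [← mul_pow]
    exact pow_le_pow_left₀ (norm_nonneg _) (norm_adjF_le h ι f) 2
  obtain ⟨f, hf1, hf2⟩ := max_exists h hp2 ι hKs hK1 hC1 hae (sq_nonneg ‖ι‖) hMM hMc
    (DD_le_MM h ι K) (MM_near h ι K hf₀)
  obtain ⟨v, hv1, hv2⟩ := crit_of_max h hp2 ι hBK hKs hM0 (DD_le_MM h ι K) hf1 hf2
  exact ⟨v, hv1, by rw [hv2, sInf_PSset h hp2 ι hKB hBK hKs hf₀ hM0]⟩

/-- non-existence of ground states -/
theorem no_ground (h : p.HolderConjugate q) (hp2 : 2 < p) (ι : V →L[ℝ] LL p μ)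
    {B K : V →L[ℝ] V} (hKB : ∀ x, K (B x) = x) (hBK : ∀ x, B (K x) = x)
    (hKs : ∀ x y, ⟪K x, y⟫_ℝ = ⟪x, K y⟫_ℝ) {f₀ : LL q μ} (hf₀ : f₀ ≠ 0) {M : ℝ} (hM0 : 0 < M)
    (hM : ∀ f, f ≠ 0 → DD h ι K f < M * ‖f‖ ^ 2) (hMM : M ≤ MM h ι K) :
    ¬ Ground h ι B := by
  rintro ⟨v, hv1, hv2⟩
  have hMpos : 0 < MM h ι K := hM0.trans_le hMM
  rw [sInf_PSset h hp2 ι hKB hBK hKs hf₀ hMpos] at hv2
  have h1 : lev p (MM h ι K) ≤ lev p M := lev_anti hp2 hM0 hMM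
  by_cases hv : v = 0
  · have h2 : En ι B v = 0 := by
      unfold En
      rw [hv, map_zero, map_zero, inner_zero_left, norm_zero, Real.zero_rpow h.ne_zero]
      ring
    have h3 := lev_pos hp2 hMpos
    rw [h2] at hv2
    linarith
  · have h2 := crit_energy h hp2 ι hKB hM0 hM hv hv1
    linarith

/-- lower bound for the dual supremum along weakly null sequences -/
theorem le_MM_of_seq (h : p.HolderConjugate q) (ι : V →L[ℝ] LL p μ)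
    {K C₁ : V →L[ℝ] V} (hK1 : ∀ x, K x = x + C₁ x) (hC1 : IsCompactOperator C₁)
    {u : ℕ → V} (hu0 : ∀ j, ι (u j) ≠ 0)
    (hae : ∀ᵐ x ∂μ, ∀ᶠ j in atTop, (ι (u j)) x = 0) {c : ℝ}
    (hc : ∀ ε > 0, ∀ᶠ j in atTop, (c - ε) * ‖u j‖ ^ 2 ≤ ‖ι (u j)‖ ^ 2) : c ≤ MM h ι K := by
  set f : ℕ → LL q μ := fun j => ‖Jm h (ι (u j))‖⁻¹ • Jm h (ι (u j)) with hf
  have hn : ∀ j, 0 < ‖ι (u j)‖ := fun j => norm_pos_iff.2 (hu0 j)
  have hJn : ∀ j, ‖Jm h (ι (u j))‖ = ‖ι (u j)‖ ^ (p - 1) := fun j => norm_Jm h _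
  have hJ0 : ∀ j, 0 < ‖Jm h (ι (u j))‖ := fun j => by
    rw [hJn]; exact Real.rpow_pos_of_pos (hn j) _
  have hf1 : ∀ j, ‖f j‖ = 1 := fun j => by
    rw [hf]
    simp only
    rw [norm_smul, norm_inv, norm_norm, inv_mul_cancel₀ (hJ0 j).ne']
  have hf0 : ∀ᵐ x ∂μ, Tendsto (fun j => (f j) x) atTop (𝓝 0) := by
    have h1 : ∀ᵐ x ∂μ, ∀ j, (f j) x = ‖Jm h (ι (u j))‖⁻¹ * sp p ((ι (u j)) x) := by
      rw [ae_all_iff]
      intro j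
      filter_upwards [Lp.coeFn_smul ‖Jm h (ι (u j))‖⁻¹ (Jm h (ι (u j))), coeFn_Jm h (ι (u j))]
        with x h2 h3
      rw [hf, h2, Pi.smul_apply, h3, smul_eq_mul]
    filter_upwards [h1, hae] with x h2 h3
    apply tendsto_const_nhds.congr'
    filter_upwards [h3] with j hj
    rw [h2, hj, sp_zero, mul_zero]
  have hwk : ∀ y, Tendsto (fun j => ⟪adjF h ι (f j), y⟫_ℝ) atTop (𝓝 0) := by
    intro y
    simp_rw [inner_adjF]
    exact weaknull h (fun j => (hf1 j).le) hf0 (ι y)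
  have hadjb : ∀ j, ‖adjF h ι (f j)‖ ≤ ‖ι‖ * 1 := fun j => by
    have := norm_adjF_le h ι (f j)
    rwa [hf1 j] at this
  have hC1g : Tendsto (fun j => C₁ (adjF h ι (f j))) atTop (𝓝 0) :=
    compact_weaknull hC1 hadjb hwk
  have hC1i : Tendsto (fun j => ⟪C₁ (adjF h ι (f j)), adjF h ι (f j)⟫_ℝ) atTop (𝓝 0) := by
    have hup : Tendsto (fun j => ‖C₁ (adjF h ι (f j))‖ * (‖ι‖ * 1)) atTop (𝓝 0) := by
      have := hC1g.norm.mul_const (‖ι‖ * 1)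
      simpa using this
    apply squeeze_zero_norm _ hup
    intro j
    rw [Real.norm_eq_abs]
    exact (abs_real_inner_le_norm _ _).trans
      (mul_le_mul_of_nonneg_left (hadjb j) (norm_nonneg _))
  -- lower bound of the norm of `adjF (f j)`
  have hlow : ∀ ε > 0, ∀ᶠ j in atTop, c - ε ≤ ‖adjF h ι (f j)‖ ^ 2 := by
    intro ε hε
    filter_upwards [hc ε hε] with j hj
    have h1 : ⟪adjF h ι (f j), u j⟫_ℝ = ‖ι (u j)‖ := by
      have e1 : adjF h ι (f j) = ‖Jm h (ι (u j))‖⁻¹ • adjF h ι (Jm h (ι (u j))) := by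
        rw [hf]; exact adjF_smul h ι _ _
      rw [e1, real_inner_smul_left, inner_adj_Jm, hJn]
      rw [← Real.rpow_neg (hn j).le, ← Real.rpow_add (hn j)]
      have : -(p - 1) + p = 1 := by ring
      rw [this, Real.rpow_one]
    have h2 : ‖ι (u j)‖ ≤ ‖adjF h ι (f j)‖ * ‖u j‖ := by
      rw [← h1]; exact real_inner_le_norm _ _
    have h3 : ‖ι (u j)‖ ^ 2 ≤ ‖adjF h ι (f j)‖ ^ 2 * ‖u j‖ ^ 2 := by
      rw [← mul_pow]; exact pow_le_pow_left₀ (norm_nonneg _) h2 2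
    have hu : 0 < ‖u j‖ ^ 2 := by
      have : u j ≠ 0 := by
        intro h0
        apply hu0 j
        rw [h0, map_zero]
      have := norm_pos_iff.2 this
      positivity
    exact le_of_mul_le_mul_right (hj.trans h3) hu
  apply le_of_forall_pos_le_add
  intro ε hε
  have hev1 := hlow (ε / 2) (by positivity)
  have hev2 : ∀ᶠ j in atTop, -(ε / 2) < ⟪C₁ (adjF h ι (f j)), adjF h ι (f j)⟫_ℝ :=
    (tendsto_order.1 hC1i).1 _ (by linarith)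
  obtain ⟨j, h1, h2⟩ := (hev1.and hev2).exists
  have h3 := DD_le_MM h ι K (f j)
  rw [hf1 j] at h3
  have h4 : DD h ι K (f j) = ‖adjF h ι (f j)‖ ^ 2 +
      ⟪C₁ (adjF h ι (f j)), adjF h ι (f j)⟫_ℝ := by
    unfold DD
    rw [hK1, inner_add_left, real_inner_self_eq_norm_sq]
  rw [h4] at h3
  linarith

end Pool.Agent.H56.BN
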