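import Mathlib

/-!
Counting eigenvalues of a compact positive self-adjoint operator.
-/

set_option autoImplicit false
set_option maxHeartbeats 1000000

namespace Pool.Agent.H56.BN

open Filter Topology Module Module.End
open scoped InnerProductSpace

variable {V : Type*} [NormedAddCommGroup V] [InnerProductSpace ℝ V] [CompleteSpace V]

/-- the span of the eigenvectors with eigenvalue at least `t` -/
noncomputable def WW (T : V →L[ℝ] V) (t : ℝ) : Submodule ℝ V :=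
  ⨆ μ : {μ : ℝ // t ≤ μ}, eigenspace (T : V →ₗ[ℝ] V) (μ : ℝ)

lemma mem_WW_of_eig {T : V →L[ℝ] V} {t μ : ℝ} {v : V} (h : T v = μ • v) (ht : t ≤ μ) :
    v ∈ WW T t := by
  apply Submodule.mem_iSup_of_mem (⟨μ, ht⟩ : {μ : ℝ // t ≤ μ})
  rw [mem_eigenspace_iff]
  exact h

lemma WW_anti (T : V →L[ℝ] V) {s t : ℝ} (h : s ≤ t) : WW T t ≤ WW T s := by
  apply iSup_le
  rintro ⟨μ, hμ⟩
  exact le_iSup (fun μ : {μ : ℝ // s ≤ μ} => eigenspace (T : V →ₗ[ℝ] V) (μ : ℝ)) ⟨μ, h.trans hμ⟩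

lemma T_mem_WW {T : V →L[ℝ] V} {t : ℝ} {v : V} (hv : v ∈ WW T t) : T v ∈ WW T t := by
  unfold WW at hv
  induction hv using Submodule.iSup_induction' with
  | mem μ x hx =>
    rw [mem_eigenspace_iff] at hx
    have hx' : T x = (μ : ℝ) • x := hx
    rw [hx']
    exact Submodule.smul_mem _ _ (mem_WW_of_eig hx' μ.2)
  | zero => rw [map_zero]; exact Submodule.zero_mem _
  | add x y _ _ hx hy => rw [map_add]; exact Submodule.add_mem _ hx hy

/-- on `WW` the form is bounded below -/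
lemma WW_lower {T : V →L[ℝ] V} (hs : (T : V →ₗ[ℝ] V).IsSymmetric) {t : ℝ} {v : V}
    (hv : v ∈ WW T t) : t * ‖v‖ ^ 2 ≤ ⟪T v, v⟫_ℝ := by
  unfold WW at hv
  rw [Submodule.mem_iSup_iff_exists_finsupp] at hv
  obtain ⟨f, hf, rfl⟩ := hv
  have hort : ∀ i j : {μ : ℝ // t ≤ μ}, i ≠ j → ⟪f i, f j⟫_ℝ = 0 := by
    intro i j hij
    have h1 := hs.orthogonalFamily_eigenspaces
    have h2 := h1 (i := (i : ℝ)) (j := (j : ℝ)) (fun h => hij (Subtype.ext h))
      ⟨f i, hf i⟩ ⟨f j, hf j⟩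
    simpa using h2
  have hTf : ∀ i, T (f i) = (i : ℝ) • f i := fun i => mem_eigenspace_iff.1 (hf i)
  have e1 : ‖f.sum fun _ x => x‖ ^ 2 = ∑ i ∈ f.support, ‖f i‖ ^ 2 := by
    rw [← real_inner_self_eq_norm_sq, Finsupp.sum, sum_inner]
    apply Finset.sum_congr rfl
    intro i hi
    rw [inner_sum, Finset.sum_eq_single i]
    · rw [real_inner_self_eq_norm_sq]
    · intro j _ hj
      exact hort i j hj.symm
    · intro h; exact absurd hi h
  have e2 : ⟪T (f.sum fun _ x => x), f.sum fun _ x => x⟫_ℝ =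
      ∑ i ∈ f.support, (i : ℝ) * ‖f i‖ ^ 2 := by
    rw [Finsupp.sum, map_sum, sum_inner]
    apply Finset.sum_congr rfl
    intro i hi
    rw [hTf i, real_inner_smul_left, inner_sum, Finset.sum_eq_single i]
    · rw [real_inner_self_eq_norm_sq]
    · intro j _ hj
      exact hort i j hj.symm
    · intro h; exact absurd hi h
  rw [e1, e2, Finset.mul_sum]
  apply Finset.sum_le_sum
  intro i _
  exact mul_le_mul_of_nonneg_right i.2 (sq_nonneg _)

lemma norm_T_lower {T : V →L[ℝ] V} (hs : (T : V →ₗ[ℝ] V).IsSymmetric) {t : ℝ} {v : V}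
    (hv : v ∈ (WW T t).topologicalClosure) : t * ‖v‖ ≤ ‖T v‖ := by
  have h1 : ∀ w ∈ WW T t, t * ‖w‖ ≤ ‖T w‖ := by
    intro w hw
    have h2 := WW_lower hs hw
    have h3 : ⟪T w, w⟫_ℝ ≤ ‖T w‖ * ‖w‖ := real_inner_le_norm _ _
    rcases (norm_nonneg w).eq_or_lt with h0 | h0
    · rw [← h0, mul_zero]; exact norm_nonneg _
    · have : (t * ‖w‖) * ‖w‖ ≤ ‖T w‖ * ‖w‖ := by nlinarith
      exact le_of_mul_le_mul_right this h0
  have hcl : IsClosed {w : V | t * ‖w‖ ≤ ‖T w‖} :=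
    isClosed_le (continuous_const.mul continuous_norm) (T.continuous.norm)
  have := closure_minimal (s := (WW T t : Set V)) h1 hcl
  exact this hv

/-- finite dimension -/
theorem finite_WW {T : V →L[ℝ] V} (hc : IsCompactOperator T)
    (hs : (T : V →ₗ[ℝ] V).IsSymmetric) {t : ℝ} (ht : 0 < t) :
    FiniteDimensional ℝ (WW T t) := by
  set W := (WW T t).topologicalClosure with hW
  have hWc : IsClosed (W : Set V) := Submodule.isClosed_topologicalClosure _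
  have : CompleteSpace W := hWc.completeSpace_coe
  set S : W →L[ℝ] V := T.comp W.subtypeL with hS
  have hanti : AntilipschitzWith (Real.toNNReal (1 / t)) S := by
    apply ContinuousLinearMap.antilipschitz_of_bound
    intro x
    have h1 := norm_T_lower hs x.2
    rw [Real.coe_toNNReal _ (by positivity)]
    have h2 : ‖x‖ = ‖(x : V)‖ := rfl
    rw [h2, div_mul_eq_mul_div, le_div_iff₀ ht, one_mul, mul_comm]
    exact h1
  have hemb : IsClosedEmbedding S := hanti.isClosedEmbedding S.uniformContinuous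
  obtain ⟨K, hK, hsub⟩ := IsCompactOperator.image_closedBall_subset_compact
    (f := (T : V →ₗ[ℝ] V)) hc 1
  have hpre : IsCompact (S ⁻¹' K) := hemb.isCompact_preimage hK
  have hball : IsCompact (Metric.closedBall (0 : W) 1) := by
    apply hpre.of_isClosed_subset Metric.isClosed_closedBall
    intro x hx
    apply hsub
    refine ⟨(x : V), ?_, rfl⟩
    simpa using hx
  have hfin : FiniteDimensional ℝ W := FiniteDimensional.of_isCompact_closedBall ℝ one_pos hball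
  exact Submodule.finiteDimensional_of_le (Submodule.le_topologicalClosure (WW T t))

/-- the norm of a nonzero compact self-adjoint operator is attained by an eigenvalue -/
theorem exists_norm_eig {H : Type*} [NormedAddCommGroup H] [InnerProductSpace ℝ H]
    [CompleteSpace H] {S : H →L[ℝ] H} (hSc : IsCompactOperator S) (hSs : S.IsSymmetric)
    (h0 : S ≠ 0) : ∃ κ : ℝ, |κ| = ‖S‖ ∧ κ ≠ 0 ∧ ∃ w : H, w ≠ 0 ∧ S w = κ • w := by
  have hne : ∃ μ, HasEigenvalue (S : H →ₗ[ℝ] H) μ ∧ μ ≠ 0 := by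
    by_contra hcon
    push Not at hcon
    exact h0 ((ContinuousLinearMap.eq_zero_of_forall_hasEigenvalue_eq_zero hSc hSs).1
      (fun μ hμ => hcon μ hμ))
  obtain ⟨μ, hμ, hμ0⟩ := hne
  have hσ : (spectrum ℝ S).Nonempty := ⟨μ, (hSc.hasEigenvalue_iff_mem_spectrum hμ0).1 hμ⟩
  obtain ⟨κ, hκ, hκn⟩ := spectrum.exists_nnnorm_eq_spectralRadius_of_nonempty hσ
  rw [S.spectralRadius_eq_nnnorm hSs.isSelfAdjoint] at hκn
  have hκn' : |κ| = ‖S‖ := by
    have h3 : ‖κ‖₊ = ‖S‖₊ := by exact_mod_cast hκn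
    have h4 : (‖κ‖₊ : ℝ) = ‖S‖₊ := by rw [h3]
    simpa using h4
  have hκ0 : κ ≠ 0 := by
    intro h
    rw [h, abs_zero] at hκn'
    exact h0 (norm_eq_zero.1 hκn'.symm)
  have hκe := (hSc.hasEigenvalue_iff_mem_spectrum hκ0).2 hκ
  obtain ⟨w, hw⟩ := hκe.exists_hasEigenvector
  exact ⟨κ, hκn', hκ0, w, hw.2, hw.apply_eq_smul⟩

lemma form_le_norm {H : Type*} [NormedAddCommGroup H] [InnerProductSpace ℝ H]
    (S : H →L[ℝ] H) (v : H) : ⟪S v, v⟫_ℝ ≤ ‖S‖ * ‖v‖ ^ 2 := by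
  calc ⟪S v, v⟫_ℝ ≤ ‖S v‖ * ‖v‖ := real_inner_le_norm _ _
    _ ≤ (‖S‖ * ‖v‖) * ‖v‖ := mul_le_mul_of_nonneg_right (S.le_opNorm _) (norm_nonneg _)
    _ = _ := by ring

/-- the form on the orthogonal complement -/
theorem WW_orth {T : V →L[ℝ] V} (hc : IsCompactOperator T)
    (hs : (T : V →ₗ[ℝ] V).IsSymmetric) (hp : ∀ v, 0 ≤ ⟪T v, v⟫_ℝ) (t : ℝ) :
    ∃ s : ℝ, (s = 0 ∨ ((∃ w : V, w ≠ 0 ∧ T w = s • w) ∧ s < t)) ∧ 0 ≤ s ∧
      ∀ v ∈ (WW T t)ᗮ, ⟪T v, v⟫_ℝ ≤ s * ‖v‖ ^ 2 := by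
  have hinv : ∀ v ∈ (WW T t)ᗮ, (T : V →ₗ[ℝ] V) v ∈ (WW T t)ᗮ := by
    intro v hv
    rw [Submodule.mem_orthogonal] at hv ⊢
    intro u hu
    have h1 : ⟪u, (T : V →ₗ[ℝ] V) v⟫_ℝ = ⟪(T : V →ₗ[ℝ] V) u, v⟫_ℝ := (hs u v).symm
    rw [h1]
    exact hv _ (T_mem_WW hu)
  obtain ⟨S, hS⟩ : ∃ S : (WW T t)ᗮ →L[ℝ] (WW T t)ᗮ, S = T.restrict hinv := ⟨_, rfl⟩
  have hSc : IsCompactOperator S := by rw [hS]; exact hc.restrict' hinv
  have hSs : S.IsSymmetric := by rw [hS]; exact hs.restrict_invariant hinv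
  have hSv : ∀ w : (WW T t)ᗮ, ((S w : (WW T t)ᗮ) : V) = T (w : V) := by
    intro w; rw [hS]; rfl
  have hform : ∀ v : V, v ∈ (WW T t)ᗮ → ⟪T v, v⟫_ℝ ≤ ‖S‖ * ‖v‖ ^ 2 := by
    intro v hv
    have h1 := form_le_norm S ⟨v, hv⟩
    rw [Submodule.coe_inner, hSv] at h1
    exact h1
  by_cases h0 : S = 0
  · refine ⟨0, Or.inl rfl, le_rfl, fun v hv => ?_⟩
    have h1 := hform v hv
    have h2 : ‖S‖ = 0 := by rw [h0]; exact ContinuousLinearMap.opNorm_zero
    rwa [h2] at h1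
  · obtain ⟨κ, hκn', hκ0, w, hw0, hw⟩ := exists_norm_eig hSc hSs h0
    have hw1 : T (w : V) = κ • (w : V) := by
      rw [← hSv, hw]; rfl
    have hw0' : (w : V) ≠ 0 := fun h => hw0 (Subtype.ext h)
    have hwn : 0 < ‖(w : V)‖ ^ 2 := by positivity
    have hκpos : 0 ≤ κ := by
      have h6 := hp (w : V)
      rw [hw1, real_inner_smul_left, real_inner_self_eq_norm_sq] at h6
      by_contra hcon
      push Not at hcon
      nlinarith
    have hκt : κ < t := by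
      by_contra hcon
      push Not at hcon
      have h7 := mem_WW_of_eig hw1 hcon
      have h8 := (Submodule.mem_orthogonal _ _).1 w.2 _ h7
      rw [real_inner_self_eq_norm_sq] at h8
      linarith
    refine ⟨κ, Or.inr ⟨⟨(w : V), hw0', hw1⟩, hκt⟩, hκpos, fun v hv => ?_⟩
    have := hform v hv
    rwa [← hκn', abs_of_nonneg hκpos] at this

/-- strict inequality off the span -/
theorem WW_orth_lt {T : V →L[ℝ] V} (hc : IsCompactOperator T)
    (hs : (T : V →ₗ[ℝ] V).IsSymmetric) (hp : ∀ v, 0 ≤ ⟪T v, v⟫_ℝ) {t : ℝ} (ht : 0 < t) {v : V}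
    (hv : v ∈ (WW T t)ᗮ) (hv0 : v ≠ 0) : ⟪T v, v⟫_ℝ < t * ‖v‖ ^ 2 := by
  obtain ⟨s, hs1, -, hs3⟩ := WW_orth hc hs hp t
  have hst : s < t := by
    rcases hs1 with h | h
    · rw [h]; exact ht
    · exact h.2
  have : 0 < ‖v‖ ^ 2 := by positivity
  exact (hs3 v hv).trans_lt (mul_lt_mul_of_pos_right hst this)

/-- min-max -/
theorem finrank_le {T : V →L[ℝ] V} (hc : IsCompactOperator T)
    (hs : (T : V →ₗ[ℝ] V).IsSymmetric) (hp : ∀ v, 0 ≤ ⟪T v, v⟫_ℝ) {t : ℝ} (ht : 0 < t)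
    {F : Submodule ℝ V} [FiniteDimensional ℝ F] (hF : ∀ v ∈ F, t * ‖v‖ ^ 2 ≤ ⟪T v, v⟫_ℝ) :
    finrank ℝ F ≤ finrank ℝ (WW T t) := by
  have := finite_WW hc hs ht
  by_contra hcon
  push Not at hcon
  set P : F →ₗ[ℝ] WW T t :=
    ((WW T t).orthogonalProjectionOnto : V →ₗ[ℝ] WW T t).comp F.subtype with hP
  have hker : P.ker ≠ ⊥ := by
    intro h
    have := LinearMap.finrank_le_finrank_of_injective (LinearMap.ker_eq_bot.1 h)
    omega
  obtain ⟨x, hx, hx0⟩ := Submodule.exists_mem_ne_zero_of_ne_bot hker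
  have h1 : (x : V) ∈ (WW T t)ᗮ := by
    rw [LinearMap.mem_ker] at hx
    rw [← Submodule.orthogonalProjectionOnto_eq_zero_iff]
    exact hx
  have h2 := WW_orth_lt hc hs hp ht h1 (fun h => hx0 (Subtype.ext h))
  exact absurd (hF _ x.2) (not_le.2 h2)

end Pool.Agent.H56.BN
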