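import Mathlib
import Pool.Agent.H56.BN.Spec

/-!
The sequence of eigenvalues.
-/

set_option autoImplicit false
set_option maxHeartbeats 1000000

namespace Pool.Agent.H56.BN

open Filter Topology Module Module.End
open scoped InnerProductSpace

variable {V : Type*} [NormedAddCommGroup V] [InnerProductSpace ℝ V] [CompleteSpace V]

lemma eig_orth {T : V →L[ℝ] V} (hs : (T : V →ₗ[ℝ] V).IsSymmetric) {t μ : ℝ} {w : V}
    (hw : T w = μ • w) (hμ : μ < t) : w ∈ (WW T t)ᗮ := by
  rw [Submodule.mem_orthogonal]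
  intro u hu
  unfold WW at hu
  induction hu using Submodule.iSup_induction' with
  | mem ν x hx =>
    have hx' : T x = (ν : ℝ) • x := mem_eigenspace_iff.1 hx
    have h1 : ⟪T x, w⟫_ℝ = ⟪x, T w⟫_ℝ := hs x w
    rw [hx', hw, real_inner_smul_left, real_inner_smul_right] at h1
    have h2 : ((ν : ℝ) - μ) * ⟪x, w⟫_ℝ = 0 := by linarith
    rcases mul_eq_zero.1 h2 with h3 | h3
    · have := ν.2
      linarith
    · exact h3
  | zero => rw [inner_zero_left]
  | add x y _ _ hx hy => rw [inner_add_left, hx, hy, add_zero]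

/-- the counting function is locally constant from one side -/
lemma WW_gap {T : V →L[ℝ] V} (hc : IsCompactOperator T)
    (hs : (T : V →ₗ[ℝ] V).IsSymmetric) (hp : ∀ v, 0 ≤ ⟪T v, v⟫_ℝ) {t : ℝ} (ht : 0 < t) :
    ∃ s : ℝ, 0 ≤ s ∧ s < t ∧ (s = 0 ∨ ∃ w : V, w ≠ 0 ∧ T w = s • w) ∧
      (∀ v ∈ (WW T t)ᗮ, ⟪T v, v⟫_ℝ ≤ s * ‖v‖ ^ 2) ∧
      ∀ t', s < t' → t' ≤ t → WW T t' = WW T t := by
  obtain ⟨s, hs1, hs2, hs3⟩ := WW_orth hc hs hp t
  have hst : s < t := by
    rcases hs1 with h | h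
    · rw [h]; exact ht
    · exact h.2
  refine ⟨s, hs2, hst, ?_, hs3, ?_⟩
  · rcases hs1 with h | h
    · exact Or.inl h
    · exact Or.inr h.1
  · intro t' h1 h2
    apply le_antisymm _ (WW_anti T h2)
    apply iSup_le
    rintro ⟨μ, hμ⟩ w hw
    have hw' : T w = μ • w := mem_eigenspace_iff.1 hw
    rcases le_or_gt t μ with h3 | h3
    · exact mem_WW_of_eig hw' h3
    · by_cases hw0 : w = 0
      · rw [hw0]; exact Submodule.zero_mem _
      · exfalso
        have h4 := hs3 w (eig_orth hs hw' h3)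
        rw [hw', real_inner_smul_left, real_inner_self_eq_norm_sq] at h4
        have : 0 < ‖w‖ ^ 2 := by positivity
        have hμ' : t' ≤ μ := hμ
        nlinarith

/-- the number of eigenvalues (of the associated form) up to `l` -/
noncomputable def NN (T : V →L[ℝ] V) (l : ℝ) : ℕ := finrank ℝ (WW T (1 / (l + 1)))

/-- the `m`-th eigenvalue -/
noncomputable def lamA (T : V →L[ℝ] V) (m : ℕ) : ℝ := sInf {l : ℝ | 0 ≤ l ∧ m ≤ NN T l}

lemma NN_mono {T : V →L[ℝ] V} (hc : IsCompactOperator T)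
    (hs : (T : V →ₗ[ℝ] V).IsSymmetric) {l l' : ℝ} (hl : 0 ≤ l) (h : l ≤ l') :
    NN T l ≤ NN T l' := by
  unfold NN
  have hl' : 0 ≤ l' := hl.trans h
  have := finite_WW hc hs (t := 1 / (l' + 1)) (by positivity)
  apply Submodule.finrank_mono
  apply WW_anti
  apply one_div_le_one_div_of_le (by linarith)
  linarith

section seq

variable {T : V →L[ℝ] V} (hc : IsCompactOperator T) (hs : (T : V →ₗ[ℝ] V).IsSymmetric)
  (hp : ∀ v, 0 ≤ ⟪T v, v⟫_ℝ) (hinf : ∀ m : ℕ, ∃ l : ℝ, 0 ≤ l ∧ m ≤ NN T l)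

lemma lamA_le {m : ℕ} {l : ℝ} (hl : 0 ≤ l) (h : m ≤ NN T l) : lamA T m ≤ l :=
  csInf_le ⟨0, fun _ hx => hx.1⟩ ⟨hl, h⟩

include hinf in
lemma lamA_nonneg (m : ℕ) : 0 ≤ lamA T m := by
  obtain ⟨l, hl⟩ := hinf m
  exact le_csInf ⟨l, hl⟩ (fun x hx => hx.1)

include hinf in
lemma lamA_mono {m m' : ℕ} (h : m ≤ m') : lamA T m ≤ lamA T m' := by
  obtain ⟨l, hl⟩ := hinf m'
  apply le_csInf ⟨l, hl⟩
  rintro x ⟨hx1, hx2⟩
  exact lamA_le hx1 (h.trans hx2)

include hc hs hp hinf in
lemma le_NN_lamA (m : ℕ) : m ≤ NN T (lamA T m) := by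
  have h0 := lamA_nonneg hinf m
  set l₀ := lamA T m with hl₀
  obtain ⟨s, hs0, hst, -, -, hgap⟩ := WW_gap hc hs hp (t := 1 / (l₀ + 1)) (by positivity)
  -- a point of the set close to `l₀`
  have hex : ∃ l, (0 ≤ l ∧ m ≤ NN T l) ∧ (s = 0 ∨ l < 1 / s - 1) := by
    rcases hs0.eq_or_lt with h1 | h1
    · obtain ⟨l, hl⟩ := hinf m
      exact ⟨l, hl, Or.inl h1.symm⟩
    · have h2 : l₀ < 1 / s - 1 := by
        rw [lt_sub_iff_add_lt, lt_div_iff₀ h1]
        rw [lt_div_iff₀ (by positivity)] at hst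
        linarith
      obtain ⟨l, hl1, hl2⟩ := exists_lt_of_csInf_lt (hinf m) h2
      exact ⟨l, hl1, Or.inr hl2⟩
  obtain ⟨l, ⟨hl0, hl1⟩, hl2⟩ := hex
  have hll : l₀ ≤ l := lamA_le hl0 hl1
  have h3 : WW T (1 / (l + 1)) = WW T (1 / (l₀ + 1)) := by
    apply hgap
    · rcases hs0.eq_or_lt with h1 | h1
      · rw [← h1]; positivity
      · rcases hl2 with h4 | h4
        · exact absurd h4 h1.ne'
        · rw [lt_div_iff₀ (by positivity)]
          rw [lt_sub_iff_add_lt, lt_div_iff₀ h1] at h4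
          linarith
    · apply one_div_le_one_div_of_le (by positivity)
      linarith
  unfold NN at hl1 ⊢
  rwa [h3] at hl1

include hc hs hp hinf in
lemma lamA_le_iff {m : ℕ} {l : ℝ} (hl : 0 ≤ l) : lamA T m ≤ l ↔ m ≤ NN T l :=
  ⟨fun h => (le_NN_lamA hc hs hp hinf m).trans (NN_mono hc hs (lamA_nonneg hinf m) h),
    fun h => lamA_le hl h⟩

lemma lamA_zero : lamA T 0 = 0 := by
  unfold lamA
  apply le_antisymm
  · exact csInf_le ⟨0, fun _ hx => hx.1⟩ ⟨le_rfl, Nat.zero_le _⟩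
  · exact le_csInf ⟨0, ⟨le_rfl, Nat.zero_le _⟩⟩ (fun x hx => hx.1)

include hc hs hp hinf in
/-- inside a gap the span does not change -/
lemma WW_in_gap {m : ℕ} {l : ℝ} (h1 : lamA T m ≤ l) (h2 : l < lamA T (m + 1)) :
    WW T (1 / (l + 1)) = WW T (1 / (lamA T m + 1)) := by
  have h0 := lamA_nonneg hinf m
  have hl : 0 ≤ l := h0.trans h1
  have := finite_WW hc hs (t := 1 / (l + 1)) (by positivity)
  symm
  apply Submodule.eq_of_le_of_finrank_le
  · apply WW_anti
    apply one_div_le_one_div_of_le (by positivity)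
    linarith
  · have h3 : ¬ (m + 1 ≤ NN T l) := fun h => by
      have := (lamA_le_iff hc hs hp hinf hl).2 h
      linarith
    have h4 := le_NN_lamA hc hs hp hinf m
    unfold NN at h3 h4
    omega

include hc hs hp hinf in
/-- the form on the complement, in a gap -/
lemma orth_in_gap {m : ℕ} (h : lamA T m < lamA T (m + 1)) {v : V}
    (hv : v ∈ (WW T (1 / (lamA T m + 1)))ᗮ) :
    (lamA T (m + 1) + 1) * ⟪T v, v⟫_ℝ ≤ ‖v‖ ^ 2 := by
  have h0 := lamA_nonneg hinf m
  have h0' := lamA_nonneg hinf (m + 1)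
  obtain ⟨s, hs0, hst, heig, hform, hgap⟩ :=
    WW_gap hc hs hp (t := 1 / (lamA T m + 1)) (by positivity)
  have hs1 : s ≤ 1 / (lamA T (m + 1) + 1) := by
    rcases hs0.eq_or_lt with h1 | h1
    · rw [← h1]; positivity
    · rcases heig with h2 | ⟨w, hw0, hw⟩
      · rw [h2]; positivity
      · by_contra hcon
        push Not at hcon
        have hl : 0 ≤ 1 / s - 1 := by
          have : s < 1 := hst.trans_le (by rw [div_le_one (by positivity)]; linarith)
          rw [sub_nonneg, le_div_iff₀ h1]; linarith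
        have hl1 : lamA T m ≤ 1 / s - 1 := by
          rw [lt_div_iff₀ (by positivity)] at hst
          rw [le_sub_iff_add_le, le_div_iff₀ h1]; linarith
        have hl2 : 1 / s - 1 < lamA T (m + 1) := by
          rw [div_lt_iff₀ (by positivity)] at hcon
          rw [sub_lt_iff_lt_add, div_lt_iff₀ h1]; linarith
        have h5 := WW_in_gap hc hs hp hinf hl1 hl2
        have h6 : 1 / (1 / s - 1 + 1) = s := by
          rw [sub_add_cancel, one_div_one_div]
        rw [h6] at h5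
        have h7 : w ∈ WW T (1 / (lamA T m + 1)) := by
          rw [← h5]; exact mem_WW_of_eig hw le_rfl
        have h8 := eig_orth hs hw hst
        have h9 := (Submodule.mem_orthogonal _ _).1 h8 w h7
        rw [real_inner_self_eq_norm_sq] at h9
        have : 0 < ‖w‖ ^ 2 := by positivity
        linarith
  have h1 := hform v hv
  have h2 : s * ‖v‖ ^ 2 ≤ 1 / (lamA T (m + 1) + 1) * ‖v‖ ^ 2 :=
    mul_le_mul_of_nonneg_right hs1 (sq_nonneg _)
  have h3 : (lamA T (m + 1) + 1) * ⟪T v, v⟫_ℝ ≤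
      (lamA T (m + 1) + 1) * (1 / (lamA T (m + 1) + 1) * ‖v‖ ^ 2) :=
    mul_le_mul_of_nonneg_left (h1.trans h2) (by positivity)
  refine h3.trans (le_of_eq ?_)
  field_simp

include hc hs hp hinf in
/-- an eigenvector for the upper end of a gap -/
lemma eig_at_gap {m : ℕ} (h : lamA T m < lamA T (m + 1)) :
    ∃ w : V, w ≠ 0 ∧ T w = (1 / (lamA T (m + 1) + 1)) • w := by
  have h0 := lamA_nonneg hinf m
  have h0' := lamA_nonneg hinf (m + 1)
  by_contra hcon
  push Not at hcon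
  have h1 := le_NN_lamA hc hs hp hinf (m + 1)
  have h2 : WW T (1 / (lamA T (m + 1) + 1)) ≤ WW T (1 / (lamA T m + 1)) := by
    apply iSup_le
    rintro ⟨μ, hμ⟩ w hw
    have hw' : T w = μ • w := mem_eigenspace_iff.1 hw
    have hμ' : 1 / (lamA T (m + 1) + 1) ≤ μ := hμ
    rcases le_or_gt (1 / (lamA T m + 1)) μ with h3 | h3
    · exact mem_WW_of_eig hw' h3
    · by_cases hw0 : w = 0
      · rw [hw0]; exact Submodule.zero_mem _
      · exfalso
        have h4 := orth_in_gap hc hs hp hinf h (eig_orth hs hw' h3)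
        rw [hw', real_inner_smul_left, real_inner_self_eq_norm_sq] at h4
        have h5 : 0 < ‖w‖ ^ 2 := by positivity
        have h6 : (lamA T (m + 1) + 1) * μ ≤ 1 := by
          have : ((lamA T (m + 1) + 1) * μ) * ‖w‖ ^ 2 ≤ 1 * ‖w‖ ^ 2 := by linarith
          exact le_of_mul_le_mul_right this h5
        have h7 : μ = 1 / (lamA T (m + 1) + 1) := by
          apply le_antisymm _ hμ'
          rw [le_div_iff₀ (by positivity)]; linarith
        rw [h7] at hw'
        exact hcon w hw0 hw'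
  have h3 := WW_in_gap hc hs hp hinf le_rfl h
  have h4 : ¬ (m + 1 ≤ NN T (lamA T m)) := fun h5 => by
    have := (lamA_le_iff hc hs hp hinf h0).2 h5
    linarith
  unfold NN at h1 h4
  have := finite_WW hc hs (t := 1 / (lamA T m + 1)) (by positivity)
  have h5 := Submodule.finrank_mono h2
  omega

include hc hs hp hinf in
/-- no eigenvalue inside a gap -/
lemma no_eig_in_gap {m : ℕ} {l : ℝ} (h1 : lamA T m < l) (h2 : l < lamA T (m + 1)) {w : V}
    (hw : T w = (1 / (l + 1)) • w) : w = 0 := by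
  have h0 := lamA_nonneg hinf m
  have hl : 0 ≤ l := h0.trans h1.le
  by_contra hw0
  have h3 := WW_in_gap hc hs hp hinf h1.le h2
  have h4 : w ∈ WW T (1 / (lamA T m + 1)) := by
    rw [← h3]; exact mem_WW_of_eig hw le_rfl
  have h5 : (1 / (l + 1)) < 1 / (lamA T m + 1) :=
    one_div_lt_one_div_of_lt (by positivity) (by linarith)
  have h6 := eig_orth hs hw h5
  have h9 := (Submodule.mem_orthogonal _ _).1 h6 w h4
  rw [real_inner_self_eq_norm_sq] at h9
  have : 0 < ‖w‖ ^ 2 := by positivity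
  linarith

include hc hs hp in
/-- min-max, in terms of forms -/
lemma le_NN_of_family {m : ℕ} {l : ℝ} (hl : 0 ≤ l) {b : Fin m → V} (hb : LinearIndependent ℝ b)
    (h : ∀ c : Fin m → ℝ, ‖∑ i, c i • b i‖ ^ 2 ≤ (l + 1) * ⟪T (∑ i, c i • b i), ∑ i, c i • b i⟫_ℝ) :
    m ≤ NN T l := by
  unfold NN
  have h1 : finrank ℝ (Submodule.span ℝ (Set.range b)) = m := by
    rw [finrank_span_eq_card hb, Fintype.card_fin]
  have hfin : FiniteDimensional ℝ (Submodule.span ℝ (Set.range b)) :=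
    FiniteDimensional.span_of_finite ℝ (Set.finite_range b)
  rw [← h1]
  apply finrank_le hc hs hp (by positivity)
  intro v hv
  rw [Submodule.mem_span_range_iff_exists_fun] at hv
  obtain ⟨c, rfl⟩ := hv
  have h2 := h c
  rw [div_mul_eq_mul_div, one_mul, div_le_iff₀ (by positivity), mul_comm]
  exact h2

end seq

end Pool.Agent.H56.BN
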