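import Mathlib
import Pool.Agent.H56.BN.Spec2

/-!
Approximation by a dense subspace, orthonormal families, the resolvent.
-/

set_option autoImplicit false
set_option maxHeartbeats 1000000

namespace Pool.Agent.H56.BN

open Filter Topology Module Module.End
open scoped InnerProductSpace

variable {V : Type*} [NormedAddCommGroup V] [InnerProductSpace ℝ V] [CompleteSpace V]

section seq

variable {T : V →L[ℝ] V} (hc : IsCompactOperator T) (hs : (T : V →ₗ[ℝ] V).IsSymmetric)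
  (hp : ∀ v, 0 ≤ ⟪T v, v⟫_ℝ) (hinf : ∀ m : ℕ, ∃ l : ℝ, 0 ≤ l ∧ m ≤ NN T l)

include hc hs in
/-- a basis of `WW` may be replaced by elements of a dense set, at the price of a larger `l` -/
theorem family_of_le_NN {D : Set V} (hD : Dense D) {m : ℕ} {l l' : ℝ} (hl : 0 ≤ l) (hll : l < l')
    (hm : m ≤ NN T l) :
    ∃ b : Fin m → V, (∀ i, b i ∈ D) ∧ LinearIndependent ℝ b ∧
      ∀ c : Fin m → ℝ, ‖∑ i, c i • b i‖ ^ 2 ≤
        (l' + 1) * ⟪T (∑ i, c i • b i), ∑ i, c i • b i⟫_ℝ := by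
  set t := 1 / (l + 1) with ht
  have ht0 : 0 < t := by positivity
  have hfin := finite_WW hc hs ht0
  -- orthonormal family inside `WW`
  set e0 := stdOrthonormalBasis ℝ (WW T t) with he0
  have hm' : m ≤ finrank ℝ (WW T t) := hm
  set e : Fin m → V := fun i => ((e0 (Fin.castLE hm' i) : WW T t) : V) with he
  have heW : ∀ i, e i ∈ WW T t := fun i => (e0 (Fin.castLE hm' i)).2
  have heo : Orthonormal ℝ e := by
    have h1 : Orthonormal ℝ (fun i => ((e0 i : WW T t) : V)) :=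
      e0.orthonormal.comp_linearIsometry (WW T t).subtypeₗᵢ
    exact h1.comp _ (Fin.castLE_injective hm')
  -- choose the approximation parameter
  obtain ⟨δ, hδ0, hδ1, hδ⟩ : ∃ δ : ℝ, 0 < δ ∧ δ < 1 ∧
      (1 + δ) ^ 2 ≤ (l' + 1) * (t - ‖T‖ * δ * (2 + δ)) := by
    have hcont : Continuous fun δ : ℝ => (l' + 1) * (t - ‖T‖ * δ * (2 + δ)) - (1 + δ) ^ 2 := by
      fun_prop
    have h0 : (0:ℝ) < (l' + 1) * (t - ‖T‖ * 0 * (2 + 0)) - (1 + 0) ^ 2 := by
      have : 1 < (l' + 1) * t := by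
        rw [ht, mul_one_div, lt_div_iff₀ (by positivity)]; linarith
      simp only [mul_zero, zero_mul, sub_zero, add_zero, one_pow]
      linarith
    have hev := (hcont.tendsto 0).eventually (lt_mem_nhds h0)
    have hev2 : ∀ᶠ δ : ℝ in 𝓝 0, δ < 1 := gt_mem_nhds one_pos
    obtain ⟨r, hr, hball⟩ := Metric.eventually_nhds_iff.1 (hev.and hev2)
    have hmem : dist (r / 2) (0:ℝ) < r := by
      rw [Real.dist_eq, sub_zero, abs_of_pos (by positivity)]; linarith
    have h3 := hball hmem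
    exact ⟨r / 2, by positivity, h3.2, by linarith [h3.1]⟩
  have hε0 : 0 < δ / (m + 1) := by positivity
  have hch : ∀ i, ∃ y ∈ D, ‖y - e i‖ ≤ δ / (m + 1) := by
    intro i
    obtain ⟨y, hy, hy2⟩ := Metric.dense_iff.1 hD (e i) _ hε0
    refine ⟨y, hy2, ?_⟩
    rw [Metric.mem_ball, dist_eq_norm] at hy
    exact hy.le
  choose b hb1 hb2 using hch
  -- comparison of linear combinations
  have hcomp : ∀ c : Fin m → ℝ, ‖∑ i, c i • b i - ∑ i, c i • e i‖ ≤
      δ * ‖∑ i, c i • e i‖ := by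
    intro c
    set C := ‖∑ i, c i • e i‖ with hC
    have hci : ∀ i, |c i| ≤ C := by
      intro i
      have h1 : ⟪e i, ∑ j, c j • e j⟫_ℝ = c i := heo.inner_right_fintype c i
      rw [← h1]
      refine (abs_real_inner_le_norm _ _).trans ?_
      rw [heo.1 i, one_mul]
    rw [← Finset.sum_sub_distrib]
    calc ‖∑ i, (c i • b i - c i • e i)‖ ≤ ∑ i, ‖c i • b i - c i • e i‖ := norm_sum_le _ _
      _ ≤ ∑ _i : Fin m, C * (δ / (m + 1)) := by
        apply Finset.sum_le_sum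
        intro i _
        rw [← smul_sub, norm_smul, Real.norm_eq_abs]
        exact mul_le_mul (hci i) (hb2 i) (norm_nonneg _) (norm_nonneg _)
      _ = (m / (m + 1)) * (δ * C) := by
        rw [Finset.sum_const, Finset.card_univ, Fintype.card_fin, nsmul_eq_mul]
        field_simp
      _ ≤ 1 * (δ * C) := by
        apply mul_le_mul_of_nonneg_right _ (by positivity)
        rw [div_le_one (by positivity)]
        linarith
      _ = δ * C := one_mul _
  refine ⟨b, hb1, ?_, ?_⟩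
  · rw [Fintype.linearIndependent_iff]
    intro c hc0
    have h1 := hcomp c
    rw [hc0, zero_sub, norm_neg] at h1
    have h2 : ‖∑ i, c i • e i‖ = 0 := by
      have := norm_nonneg (∑ i, c i • e i)
      nlinarith
    rw [norm_eq_zero] at h2
    exact fun i => (Fintype.linearIndependent_iff.1 heo.linearIndependent) c h2 i
  · intro c
    set v := ∑ i, c i • e i with hv
    set v' := ∑ i, c i • b i with hv'
    have h1 : ‖v' - v‖ ≤ δ * ‖v‖ := hcomp c
    have hvW : v ∈ WW T t := Submodule.sum_mem _ fun i _ => Submodule.smul_mem _ _ (heW i)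
    have h2 := WW_lower hs hvW
    have h3 : ‖v'‖ ≤ (1 + δ) * ‖v‖ := by
      have : v' = v + (v' - v) := by abel
      calc ‖v'‖ = ‖v + (v' - v)‖ := by rw [← this]
        _ ≤ ‖v‖ + ‖v' - v‖ := norm_add_le _ _
        _ ≤ _ := by linarith
    have h4 : ⟪T v', v'⟫_ℝ = ⟪T v, v⟫_ℝ + ⟪T (v' - v), v⟫_ℝ + ⟪T v', v' - v⟫_ℝ := by
      rw [map_sub, inner_sub_left, inner_sub_right]; ring
    have h5 : |⟪T (v' - v), v⟫_ℝ| ≤ ‖T‖ * (δ * ‖v‖) * ‖v‖ := by
      refine (abs_real_inner_le_norm _ _).trans ?_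
      apply mul_le_mul_of_nonneg_right _ (norm_nonneg _)
      exact (T.le_opNorm _).trans (mul_le_mul_of_nonneg_left h1 (norm_nonneg _))
    have h6 : |⟪T v', v' - v⟫_ℝ| ≤ ‖T‖ * ((1 + δ) * ‖v‖) * (δ * ‖v‖) := by
      refine (abs_real_inner_le_norm _ _).trans ?_
      apply mul_le_mul _ h1 (norm_nonneg _) (by positivity)
      exact (T.le_opNorm _).trans (mul_le_mul_of_nonneg_left h3 (norm_nonneg _))
    have h7 : (t - ‖T‖ * δ * (2 + δ)) * ‖v‖ ^ 2 ≤ ⟪T v', v'⟫_ℝ := by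
      rw [h4]
      have := neg_abs_le ⟪T (v' - v), v⟫_ℝ
      have := neg_abs_le ⟪T v', v' - v⟫_ℝ
      nlinarith
    have h8 : ‖v'‖ ^ 2 ≤ (1 + δ) ^ 2 * ‖v‖ ^ 2 := by
      rw [← mul_pow]; exact pow_le_pow_left₀ (norm_nonneg _) h3 2
    calc ‖v'‖ ^ 2 ≤ (1 + δ) ^ 2 * ‖v‖ ^ 2 := h8
      _ ≤ ((l' + 1) * (t - ‖T‖ * δ * (2 + δ))) * ‖v‖ ^ 2 :=
        mul_le_mul_of_nonneg_right hδ (sq_nonneg _)
      _ = (l' + 1) * ((t - ‖T‖ * δ * (2 + δ)) * ‖v‖ ^ 2) := by ring
      _ ≤ _ := mul_le_mul_of_nonneg_left h7 (by linarith)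

include hc hs in
/-- normalised eigenvectors up to `l` -/
theorem eigfamily_of_le_NN {m : ℕ} {l : ℝ} (hl : 0 ≤ l) (hm : m ≤ NN T l) :
    ∃ e : Fin m → V, (∀ i, ∃ s : ℝ, s ≤ l ∧ 0 < s + 1 ∧ (s + 1) • T (e i) = e i) ∧
      ∀ i j, ⟪T (e i), e j⟫_ℝ = if i = j then 1 else 0 := by
  set t := 1 / (l + 1) with ht
  have ht0 : 0 < t := by positivity
  have hfin := finite_WW hc hs ht0
  have hinv : ∀ v ∈ WW T t, (T : V →ₗ[ℝ] V) v ∈ WW T t := fun v hv => T_mem_WW hv
  obtain ⟨S, hS⟩ : ∃ S : WW T t →ₗ[ℝ] WW T t, S = (T : V →ₗ[ℝ] V).restrict hinv := ⟨_, rfl⟩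
  have hSs : S.IsSymmetric := by rw [hS]; exact hs.restrict_invariant hinv
  have hSv : ∀ w : WW T t, ((S w : WW T t) : V) = T (w : V) := by
    intro w; rw [hS]; rfl
  have hm' : m ≤ finrank ℝ (WW T t) := hm
  set b := hSs.eigenvectorBasis rfl with hb
  set μ := hSs.eigenvalues rfl with hμ
  have hTb : ∀ i, T ((b i : WW T t) : V) = μ i • ((b i : WW T t) : V) := by
    intro i
    rw [← hSv, hSs.apply_eigenvectorBasis rfl i]
    simp [hb, hμ]
  have hort : ∀ i j, ⟪((b i : WW T t) : V), ((b j : WW T t) : V)⟫_ℝ = if i = j then 1 else 0 := by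
    intro i j
    have := orthonormal_iff_ite.1 b.orthonormal i j
    rw [← this]; rfl
  have hμt : ∀ i, t ≤ μ i := by
    intro i
    have h1 := WW_lower hs (b i).2
    rw [hTb i, real_inner_smul_left, hort i i] at h1
    have h2 : ‖((b i : WW T t) : V)‖ ^ 2 = 1 := by
      rw [← real_inner_self_eq_norm_sq, hort i i]; simp
    rw [h2] at h1
    simpa using h1
  have hμ0 : ∀ i, 0 < μ i := fun i => ht0.trans_le (hμt i)
  set j : Fin m → Fin (finrank ℝ (WW T t)) := Fin.castLE hm' with hj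
  have hjinj : Function.Injective j := Fin.castLE_injective hm'
  refine ⟨fun i => (Real.sqrt (μ (j i)))⁻¹ • ((b (j i) : WW T t) : V), ?_, ?_⟩
  · intro i
    refine ⟨1 / μ (j i) - 1, ?_, ?_, ?_⟩
    · have h1 := hμt (j i)
      rw [ht, div_le_iff₀ (by positivity)] at h1
      rw [sub_le_iff_le_add, div_le_iff₀ (hμ0 _)]; linarith
    · have := hμ0 (j i)
      rw [sub_add_cancel]; positivity
    · rw [map_smul, hTb, sub_add_cancel, smul_smul, smul_smul]
      congr 1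
      have := (hμ0 (j i)).ne'
      field_simp
  · intro i i'
    rw [map_smul, hTb, real_inner_smul_left, real_inner_smul_left, real_inner_smul_right,
      hort]
    by_cases h : i = i'
    · subst h
      rw [if_pos rfl, if_pos rfl]
      have h1 := Real.mul_self_sqrt (hμ0 (j i)).le
      have h2 : Real.sqrt (μ (j i)) ≠ 0 := (Real.sqrt_pos.2 (hμ0 _)).ne'
      rw [← h1]
      rw [h1]
      field_simp
      nlinarith
    · rw [if_neg h, if_neg (fun h' => h (hjinj h'))]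
      ring

include hc hs in
/-- the converse -/
theorem le_NN_of_eigfamily {m : ℕ} {l : ℝ} (hl : 0 ≤ l) {e : Fin m → V}
    (h1 : ∀ i, ∃ s : ℝ, s ≤ l ∧ 0 < s + 1 ∧ (s + 1) • T (e i) = e i)
    (h2 : ∀ i j, ⟪T (e i), e j⟫_ℝ = if i = j then 1 else 0) : m ≤ NN T l := by
  set t := 1 / (l + 1) with ht
  have ht0 : 0 < t := by positivity
  have hfin := finite_WW hc hs ht0
  have hW : ∀ i, e i ∈ WW T t := by
    intro i
    obtain ⟨s, hsl, hs0, hse⟩ := h1 i
    have h3 : T (e i) = (1 / (s + 1)) • e i := by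
      nth_rewrite 2 [← hse]
      rw [smul_smul, one_div_mul_cancel hs0.ne', one_smul]
    apply mem_WW_of_eig h3
    rw [ht]
    exact one_div_le_one_div_of_le hs0 (by linarith)
  have hli : LinearIndependent ℝ e := by
    rw [Fintype.linearIndependent_iff]
    intro c hc0 i
    have h4 : ⟪T (e i), ∑ j, c j • e j⟫_ℝ = c i := by
      rw [inner_sum, Finset.sum_eq_single i]
      · rw [real_inner_smul_right, h2, if_pos rfl, mul_one]
      · intro j _ hj
        rw [real_inner_smul_right, h2, if_neg hj.symm, mul_zero]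
      · intro h; exact absurd (Finset.mem_univ i) h
    rw [hc0, inner_zero_right] at h4
    exact h4.symm
  have hspan : Submodule.span ℝ (Set.range e) ≤ WW T t := by
    rw [Submodule.span_le]
    rintro _ ⟨i, rfl⟩
    exact hW i
  have h5 := Submodule.finrank_mono hspan
  rw [finrank_span_eq_card hli, Fintype.card_fin] at h5
  exact h5

end seq

include V in
/-- the resolvent -/
theorem exists_resolvent {T : V →L[ℝ] V} (hc : IsCompactOperator T)
    (hs : (T : V →ₗ[ℝ] V).IsSymmetric) {l : ℝ} (hl : 0 < l + 1)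
    (hne : ∀ w : V, T w = (1 / (l + 1)) • w → w = 0) :
    ∃ K C₁ : V →L[ℝ] V, (∀ x, K (x - (l + 1) • T x) = x) ∧ (∀ x, K x - (l + 1) • T (K x) = x) ∧
      (∀ x y, ⟪K x, y⟫_ℝ = ⟪x, K y⟫_ℝ) ∧ (∀ x, K x = x + C₁ x) ∧ IsCompactOperator C₁ := by
  have hμ : (1 / (l + 1) : ℝ) ≠ 0 := by positivity
  have hres : (1 / (l + 1) : ℝ) ∈ resolventSet ℝ T := by
    rcases hc.hasEigenvalue_or_mem_resolventSet hμ with h | h
    · exfalso
      obtain ⟨w, hw⟩ := h.exists_hasEigenvector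
      exact hw.2 (hne w hw.apply_eq_smul)
    · exact h
  obtain ⟨u, hu⟩ := hres
  have hu1 : ∀ x, (u : V →L[ℝ] V) x = (1 / (l + 1)) • x - T x := by
    intro x
    rw [hu]
    simp [Algebra.algebraMap_eq_smul_one]
  have hR1 : ∀ x, (↑u⁻¹ : V →L[ℝ] V) ((u : V →L[ℝ] V) x) = x := by
    intro x
    have h1 : ((↑u⁻¹ : V →L[ℝ] V) * (u : V →L[ℝ] V)) x = x := by rw [u.inv_mul]; rfl
    exact h1
  have hR2 : ∀ x, (u : V →L[ℝ] V) ((↑u⁻¹ : V →L[ℝ] V) x) = x := by
    intro x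
    have h1 : ((u : V →L[ℝ] V) * (↑u⁻¹ : V →L[ℝ] V)) x = x := by rw [u.mul_inv]; rfl
    exact h1
  set K : V →L[ℝ] V := (1 / (l + 1) : ℝ) • (↑u⁻¹ : V →L[ℝ] V) with hK
  have hKx : ∀ x, K x = (1 / (l + 1) : ℝ) • (↑u⁻¹ : V →L[ℝ] V) x := fun x => rfl
  have hB : ∀ x, x - (l + 1) • T x = (l + 1) • (u : V →L[ℝ] V) x := by
    intro x
    rw [hu1, smul_sub, smul_smul, mul_one_div_cancel hl.ne', one_smul]
  have hKB : ∀ x, K (x - (l + 1) • T x) = x := by
    intro x
    rw [hB, map_smul, hKx, hR1, smul_smul, mul_one_div_cancel hl.ne', one_smul]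
  have hBK : ∀ x, K x - (l + 1) • T (K x) = x := by
    intro x
    rw [hB, hKx, map_smul, hR2, smul_smul, mul_one_div_cancel hl.ne', one_smul]
  have hBs : ∀ x y, ⟪x - (l + 1) • T x, y⟫_ℝ = ⟪x, y - (l + 1) • T y⟫_ℝ := by
    intro x y
    have : ⟪T x, y⟫_ℝ = ⟪x, T y⟫_ℝ := hs x y
    rw [inner_sub_left, inner_sub_right, real_inner_smul_left, real_inner_smul_right, this]
  refine ⟨K, (l + 1) • (T.comp K), hKB, hBK, ?_, ?_, ?_⟩
  · intro x y
    have h1 := hBs (K x) (K y)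
    rw [hBK, hBK] at h1
    exact h1.symm
  · intro x
    have h1 := hBK x
    have h2 : ((l + 1) • (T.comp K)) x = (l + 1) • T (K x) := rfl
    rw [h2]
    nth_rewrite 2 [← h1]
    abel
  · have h1 : IsCompactOperator (T.comp K) := hc.comp_clm K
    exact h1.smul (l + 1)

end Pool.Agent.H56.BN
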