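import Mathlib
import Pool.Agent.H56.BN.Spec3

/-!
Orthogonal families; the splitting of the form in a gap.
-/

set_option autoImplicit false
set_option maxHeartbeats 1000000

namespace Pool.Agent.H56.BN

open Filter Topology Module Module.End
open scoped InnerProductSpace

variable {V : Type*} [NormedAddCommGroup V] [InnerProductSpace ℝ V] [CompleteSpace V]

lemma le_NN_of_orth {T : V →L[ℝ] V} (hc : IsCompactOperator T)
    (hs : (T : V →ₗ[ℝ] V).IsSymmetric) (hp : ∀ v, 0 ≤ ⟪T v, v⟫_ℝ) {m : ℕ} {l : ℝ} (hl : 0 ≤ l)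
    {b : Fin m → V} (hb0 : ∀ i, b i ≠ 0) (ho1 : ∀ i j, i ≠ j → ⟪b i, b j⟫_ℝ = 0)
    (ho2 : ∀ i j, i ≠ j → ⟪T (b i), b j⟫_ℝ = 0)
    (h : ∀ i, ‖b i‖ ^ 2 ≤ (l + 1) * ⟪T (b i), b i⟫_ℝ) : m ≤ NN T l := by
  have hn : ∀ c : Fin m → ℝ, ‖∑ i, c i • b i‖ ^ 2 = ∑ i, c i ^ 2 * ‖b i‖ ^ 2 := by
    intro c
    rw [← real_inner_self_eq_norm_sq, sum_inner]
    apply Finset.sum_congr rfl
    intro i _
    rw [inner_sum, Finset.sum_eq_single i]
    · rw [real_inner_smul_left, real_inner_smul_right, real_inner_self_eq_norm_sq]; ring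
    · intro j _ hj
      rw [real_inner_smul_left, real_inner_smul_right, ho1 i j hj.symm]; ring
    · intro h; exact absurd (Finset.mem_univ i) h
  have hT : ∀ c : Fin m → ℝ, ⟪T (∑ i, c i • b i), ∑ i, c i • b i⟫_ℝ =
      ∑ i, c i ^ 2 * ⟪T (b i), b i⟫_ℝ := by
    intro c
    rw [map_sum, sum_inner]
    apply Finset.sum_congr rfl
    intro i _
    rw [inner_sum, Finset.sum_eq_single i]
    · rw [map_smul, real_inner_smul_left, real_inner_smul_right]; ring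
    · intro j _ hj
      rw [map_smul, real_inner_smul_left, real_inner_smul_right, ho2 i j hj.symm]; ring
    · intro h; exact absurd (Finset.mem_univ i) h
  apply le_NN_of_family hc hs hp hl (b := b)
  · rw [Fintype.linearIndependent_iff]
    intro c hc i
    have h1 := hn c
    rw [hc, norm_zero] at h1
    have h2 : ∑ i, c i ^ 2 * ‖b i‖ ^ 2 = 0 := by rw [← h1]; norm_num
    rw [Finset.sum_eq_zero_iff_of_nonneg (fun _ _ => by positivity)] at h2
    have h3 := h2 i (Finset.mem_univ i)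
    have h4 : 0 < ‖b i‖ ^ 2 := by
      have := norm_pos_iff.2 (hb0 i)
      positivity
    rcases mul_eq_zero.1 h3 with h5 | h5
    · exact pow_eq_zero_iff (by norm_num) |>.1 h5
    · exact absurd h5 h4.ne'
  · intro c
    rw [hn, hT, Finset.mul_sum]
    apply Finset.sum_le_sum
    intro i _
    calc c i ^ 2 * ‖b i‖ ^ 2 ≤ c i ^ 2 * ((l + 1) * ⟪T (b i), b i⟫_ℝ) :=
          mul_le_mul_of_nonneg_left (h i) (sq_nonneg _)
      _ = _ := by ring

/-- the quadratic form `Q_l` -/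
noncomputable def QF (T : V →L[ℝ] V) (l : ℝ) (v : V) : ℝ := ‖v‖ ^ 2 - (l + 1) * ⟪T v, v⟫_ℝ

section gap

variable {T : V →L[ℝ] V} (hc : IsCompactOperator T) (hs : (T : V →ₗ[ℝ] V).IsSymmetric)
  (hp : ∀ v, 0 ≤ ⟪T v, v⟫_ℝ) (hinf : ∀ m : ℕ, ∃ l : ℝ, 0 ≤ l ∧ m ≤ NN T l)

include hc hs hp hinf in
/-- the splitting along a gap -/
theorem exists_split {m : ℕ} (h : lamA T m < lamA T (m + 1)) (v : V) :
    ∃ a b : V, v = a + b ∧ ⟪a, b⟫_ℝ = 0 ∧ ⟪T a, b⟫_ℝ = 0 ∧ ⟪a, T b⟫_ℝ = 0 ∧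
      a ∈ WW T (1 / (lamA T m + 1)) ∧ b ∈ (WW T (1 / (lamA T m + 1)))ᗮ := by
  have h0 := lamA_nonneg hinf m
  have hfin := finite_WW hc hs (t := 1 / (lamA T m + 1)) (by positivity)
  obtain ⟨a, ha, b, hb, hab⟩ := (WW T (1 / (lamA T m + 1))).exists_add_mem_mem_orthogonal v
  refine ⟨a, b, hab, ?_, ?_, ?_, ha, hb⟩
  · exact (Submodule.mem_orthogonal _ _).1 hb a ha
  · exact (Submodule.mem_orthogonal _ _).1 hb _ (T_mem_WW ha)
  · have h1 : ⟪T a, b⟫_ℝ = ⟪a, T b⟫_ℝ := hs a b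
    rw [← h1]
    exact (Submodule.mem_orthogonal _ _).1 hb _ (T_mem_WW ha)

include hc hs hp hinf in
/-- the form on `WW` is nonpositive -/
lemma QF_neg {m : ℕ} {l : ℝ} (hl : lamA T m ≤ l) {a : V}
    (ha : a ∈ WW T (1 / (lamA T m + 1))) : QF T l a ≤ 0 := by
  have h0 := lamA_nonneg hinf m
  have h1 := WW_lower hs ha
  have h2 := hp a
  unfold QF
  rw [div_mul_eq_mul_div, one_mul, div_le_iff₀ (by positivity)] at h1
  nlinarith

include hc hs hp hinf in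
/-- the form on the complement -/
lemma QF_pos {m : ℕ} (h : lamA T m < lamA T (m + 1)) {l : ℝ} {b : V}
    (hb : b ∈ (WW T (1 / (lamA T m + 1)))ᗮ) :
    (lamA T (m + 1) - l) * ⟪T b, b⟫_ℝ ≤ QF T l b := by
  have h1 := orth_in_gap hc hs hp hinf h hb
  unfold QF
  linarith

end gap

end Pool.Agent.H56.BN
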