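import Mathlib
import Pool.Agent.H56.BN.Dual5
import Pool.Agent.H56.BN.Spec4

/-!
Ground states inside a spectral gap, abstract form.
-/

set_option autoImplicit false
set_option maxHeartbeats 1000000

namespace Pool.Agent.H56.BN

open MeasureTheory Filter Topology
open scoped InnerProductSpace

variable {X : Type*} [MeasurableSpace X] {μ : Measure X}
variable {V : Type*} [NormedAddCommGroup V] [InnerProductSpace ℝ V] [CompleteSpace V]
variable {p q : ℝ} [Fact (1 < p)] [Fact (1 < q)]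

/-- the operator `1 - (l+1) T` -/
noncomputable def BB (T : V →L[ℝ] V) (l : ℝ) : V →L[ℝ] V :=
  ContinuousLinearMap.id ℝ V - (l + 1) • T

lemma BB_apply (T : V →L[ℝ] V) (l : ℝ) (x : V) : BB T l x = x - (l + 1) • T x := rfl

lemma inner_BB (T : V →L[ℝ] V) (l : ℝ) (x : V) : ⟪BB T l x, x⟫_ℝ = QF T l x := by
  rw [BB_apply, inner_sub_left, real_inner_smul_left, real_inner_self_eq_norm_sq]
  rfl

section gap

variable {T : V →L[ℝ] V} (hc : IsCompactOperator T) (hs : (T : V →ₗ[ℝ] V).IsSymmetric)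
  (hp : ∀ v, 0 ≤ ⟪T v, v⟫_ℝ) (hinf : ∀ m : ℕ, ∃ l : ℝ, 0 ≤ l ∧ m ≤ NN T l)

include hc hs hp hinf in
lemma exists_K {m : ℕ} {l : ℝ} (h1 : lamA T m < l) (h2 : l < lamA T (m + 1)) :
    ∃ K C₁ : V →L[ℝ] V, (∀ x, K (BB T l x) = x) ∧ (∀ x, BB T l (K x) = x) ∧
      (∀ x y, ⟪K x, y⟫_ℝ = ⟪x, K y⟫_ℝ) ∧ (∀ x, K x = x + C₁ x) ∧ IsCompactOperator C₁ := by
  have h0 := lamA_nonneg hinf m
  exact exists_resolvent hc hs (by linarith) fun w hw => no_eig_in_gap hc hs hp hinf h1 h2 hw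

include hc hs hp hinf in
/-- upper bound for the dual form -/
theorem DD_lt (h : p.HolderConjugate q) (ι : V →L[ℝ] LL p μ) {m : ℕ} {l : ℝ}
    (h1 : lamA T m < l) (h2 : l < lamA T (m + 1)) {K : V →L[ℝ] V}
    (hKB : ∀ x, K (BB T l x) = x) (hBK : ∀ x, BB T l (K x) = x)
    (hKs : ∀ x y, ⟪K x, y⟫_ℝ = ⟪x, K y⟫_ℝ) {S : ℝ} (hS : 0 < S)
    (hw : ∀ w ∈ (WW T (1 / (lamA T m + 1)))ᗮ, w ≠ 0 → S * ‖ι w‖ ^ 2 < QF T l w) {f : LL q μ}
    (hf : f ≠ 0) : DD h ι K f < (1 / S) * ‖f‖ ^ 2 := by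
  have h0 := lamA_nonneg hinf m
  have hfn : 0 < ‖f‖ := norm_pos_iff.2 hf
  have hgap : lamA T m < lamA T (m + 1) := h1.trans h2
  set a := adjF h ι f with ha
  set w := K a with hwdef
  have hBw : BB T l w = a := hBK a
  obtain ⟨w1, w2, hw12, ho, hT1, hT2, hw1, hw2⟩ := exists_split hc hs hp hinf hgap w
  -- the dual form is the form at `w`
  have e1 : DD h ι K f = QF T l w := by
    unfold DD
    rw [← ha, ← hwdef, ← hBw, ← inner_BB, real_inner_comm]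
  have e2 : QF T l w = QF T l w1 + QF T l w2 := by
    unfold QF
    rw [hw12, map_add, inner_add_left, inner_add_right, inner_add_right, hT1]
    have : ⟪T w2, w1⟫_ℝ = 0 := by rw [real_inner_comm]; exact hT2
    rw [this]
    have hn : ‖w1 + w2‖ ^ 2 = ‖w1‖ ^ 2 + ‖w2‖ ^ 2 := by
      rw [← real_inner_self_eq_norm_sq, inner_add_left, inner_add_right, inner_add_right,
        real_inner_comm w1 w2, ho, real_inner_self_eq_norm_sq, real_inner_self_eq_norm_sq]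
      ring
    rw [hn]; ring
  have e3 : QF T l w1 ≤ 0 := QF_neg hc hs hp hinf h1.le hw1
  by_cases hw20 : w2 = 0
  · rw [e1, e2, hw20]
    have : QF T l (0:V) = 0 := by unfold QF; simp
    rw [this]
    have : 0 < 1 / S * ‖f‖ ^ 2 := by positivity
    linarith
  · have e4 := hw w2 hw2 hw20
    -- `QF w2 = ⟨a, w2⟩`
    have e5 : QF T l w2 = ∫ x, f x * (ι w2) x ∂μ := by
      rw [← inner_adjF h ι f w2, ← ha, ← hBw, hw12, map_add, inner_add_left, inner_BB]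
      have : ⟪BB T l w1, w2⟫_ℝ = 0 := by
        rw [BB_apply, inner_sub_left, real_inner_smul_left, hT1, ho]; ring
      rw [this, zero_add]
    have e6 : QF T l w2 ≤ ‖f‖ * ‖ι w2‖ := by
      rw [e5]
      exact (le_abs_self _).trans (abs_integral_mul_le h.symm f (ι w2))
    have hQ0 : 0 < QF T l w2 := (by positivity : 0 ≤ S * ‖ι w2‖ ^ 2).trans_lt e4
    have e7 : QF T l w2 ^ 2 ≤ ‖f‖ ^ 2 * ‖ι w2‖ ^ 2 := by
      rw [← mul_pow]; exact pow_le_pow_left₀ hQ0.le e6 2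
    have e8 : S * QF T l w2 ^ 2 < ‖f‖ ^ 2 * QF T l w2 := by
      calc S * QF T l w2 ^ 2 ≤ S * (‖f‖ ^ 2 * ‖ι w2‖ ^ 2) := mul_le_mul_of_nonneg_left e7 hS.le
        _ = ‖f‖ ^ 2 * (S * ‖ι w2‖ ^ 2) := by ring
        _ < ‖f‖ ^ 2 * QF T l w2 := mul_lt_mul_of_pos_left e4 (by positivity)
    have e9 : S * QF T l w2 < ‖f‖ ^ 2 := by
      have : (S * QF T l w2) * QF T l w2 < ‖f‖ ^ 2 * QF T l w2 := by
        calc (S * QF T l w2) * QF T l w2 = S * QF T l w2 ^ 2 := by ring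
          _ < _ := e8
      exact lt_of_mul_lt_mul_right this hQ0.le
    rw [e1, e2, one_div, inv_mul_eq_div, lt_div_iff₀ hS]
    nlinarith

include hc hs hp hinf in
/-- no ground state -/
theorem no_ground_gap (h : p.HolderConjugate q) (hp2 : 2 < p) (ι : V →L[ℝ] LL p μ) {m : ℕ}
    {l : ℝ} (h1 : lamA T m < l) (h2 : l < lamA T (m + 1)) {S : ℝ} (hS : 0 < S)
    (hw : ∀ w ∈ (WW T (1 / (lamA T m + 1)))ᗮ, w ≠ 0 → S * ‖ι w‖ ^ 2 < QF T l w)
    {u : ℕ → V} (hu0 : ∀ j, ι (u j) ≠ 0)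
    (hae : ∀ᵐ x ∂μ, ∀ᶠ j in atTop, (ι (u j)) x = 0)
    (hu : ∀ ε > 0, ∀ᶠ j in atTop, (1 / S - ε) * ‖u j‖ ^ 2 ≤ ‖ι (u j)‖ ^ 2) :
    ¬ Ground h ι (BB T l) := by
  obtain ⟨K, C₁, hKB, hBK, hKs, hK1, hC1⟩ := exists_K hc hs hp hinf h1 h2
  have hf₀ : Jm h (ι (u 0)) ≠ 0 := by
    intro h0
    apply hu0 0
    rw [← Jm_Jm h (ι (u 0)), h0]
    have : ‖Jm h.symm (0 : LL q μ)‖ = 0 := by
      rw [norm_Jm h.symm, norm_zero, Real.zero_rpow]
      have := h.symm.lt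
      linarith
    exact norm_eq_zero.1 this
  apply no_ground h hp2 ι hKB hBK hKs hf₀ (M := 1 / S) (by positivity)
  · intro f hf
    exact DD_lt hc hs hp hinf h ι h1 h2 hKB hBK hKs hS hw hf
  · exact le_MM_of_seq h ι hK1 hC1 hu0 hae hu

include hc hs hp hinf in
/-- existence of a ground state -/
theorem ground_gap (h : p.HolderConjugate q) (hp2 : 2 < p) (ι : V →L[ℝ] LL p μ) {m : ℕ}
    {l : ℝ} (h1 : lamA T m < l) (h2 : l < lamA T (m + 1))
    (hae : ∀ (v : ℕ → V) (R : ℝ), (∀ j, ‖v j‖ ≤ R) → ∃ φ : ℕ → ℕ, StrictMono φ ∧ ∃ w : X → ℝ,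
      ∀ᵐ x ∂μ, Tendsto (fun j => (ι (v (φ j))) x) atTop (𝓝 (w x)))
    {e : V} (he0 : e ≠ 0) (he : T e = (1 / (lamA T (m + 1) + 1)) • e) {f : LL q μ}
    (hf : ∀ v, ∫ x, f x * (ι v) x ∂μ = ⟪T e, v⟫_ℝ) {W : ℝ}
    (hW : ‖f‖ ^ 2 ≤ W * ⟪T e, e⟫_ℝ) (hgap : (lamA T (m + 1) - lamA T m) * (‖ι‖ ^ 2 * W) ≤ 1) :
    Ground h ι (BB T l) := by
  obtain ⟨K, C₁, hKB, hBK, hKs, hK1, hC1⟩ := exists_K hc hs hp hinf h1 h2
  have h0 := lamA_nonneg hinf m
  set L := lamA T (m + 1) with hL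
  have hL1 : 0 < L + 1 := by linarith
  have hadj : adjF h ι f = T e := by
    apply ext_inner_right ℝ
    intro v
    rw [inner_adjF, hf]
  -- action of `K` on `e`
  have hBe : BB T l e = ((L - l) / (L + 1)) • e := by
    rw [BB_apply, he, smul_smul]
    nth_rewrite 1 [← one_smul ℝ e]
    rw [← sub_smul]
    congr 1
    field_simp
    ring
  have hLl : 0 < L - l := by linarith
  have hKe : K e = ((L + 1) / (L - l)) • e := by
    have h3 := hKB e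
    rw [hBe, map_smul] at h3
    have h4 : ((L + 1) / (L - l)) • (((L - l) / (L + 1)) • K e) = ((L + 1) / (L - l)) • e := by
      rw [h3]
    rw [smul_smul] at h4
    have h5 : (L + 1) / (L - l) * ((L - l) / (L + 1)) = 1 := by field_simp
    rwa [h5, one_smul] at h4
  have hen : 0 < ‖e‖ ^ 2 := by
    have := norm_pos_iff.2 he0
    positivity
  have hTe : ⟪T e, e⟫_ℝ = 1 / (L + 1) * ‖e‖ ^ 2 := by
    rw [he, real_inner_smul_left, real_inner_self_eq_norm_sq]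
  have hD : DD h ι K f = ⟪T e, e⟫_ℝ / (L - l) := by
    unfold DD
    rw [hadj, hTe, he, map_smul, hKe, real_inner_smul_left, real_inner_smul_left,
      real_inner_smul_right, real_inner_self_eq_norm_sq]
    field_simp
  have hTe0 : 0 < ⟪T e, e⟫_ℝ := by rw [hTe]; positivity
  have hf0 : f ≠ 0 := by
    intro hf0
    rw [hf0] at hadj
    have h5 : adjF h ι (0 : LL q μ) = 0 := by
      have := adjF_smul h ι (0:ℝ) (0 : LL q μ)
      simpa using this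
    rw [h5] at hadj
    rw [← hadj, inner_zero_left] at hTe0
    exact lt_irrefl _ hTe0
  apply ground_of_lt h hp2 ι hKB hBK hKs hK1 hC1 hae hf0
  rw [hD, lt_div_iff₀ hLl]
  by_cases hι : ‖ι‖ ^ 2 = 0
  · rw [hι, zero_mul, zero_mul]; exact hTe0
  · have hι' : 0 < ‖ι‖ ^ 2 := lt_of_le_of_ne (sq_nonneg _) (Ne.symm hι)
    have hW0 : 0 < W := by
      by_contra hcon
      push Not at hcon
      have h6 : 0 < ‖f‖ ^ 2 := by
        have := norm_pos_iff.2 hf0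
        positivity
      nlinarith
    calc ‖ι‖ ^ 2 * ‖f‖ ^ 2 * (L - l) ≤ ‖ι‖ ^ 2 * (W * ⟪T e, e⟫_ℝ) * (L - l) := by gcongr
      _ = ((L - l) * (‖ι‖ ^ 2 * W)) * ⟪T e, e⟫_ℝ := by ring
      _ < ((L - lamA T m) * (‖ι‖ ^ 2 * W)) * ⟪T e, e⟫_ℝ := by
        apply mul_lt_mul_of_pos_right _ hTe0
        apply mul_lt_mul_of_pos_right _ (by positivity)
        linarith
      _ ≤ 1 * ⟪T e, e⟫_ℝ := mul_le_mul_of_nonneg_right hgap hTe0.le
      _ = _ := one_mul _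

end gap

end Pool.Agent.H56.BN
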