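import Mathlib

/-!
A quantitative approximation by finite rank operators (Rellich).
-/

set_option autoImplicit false
set_option maxHeartbeats 1000000

namespace Pool.Agent.H56.BN

open MeasureTheory Filter Topology Set
open scoped ContDiff InnerProductSpace ENNReal

/-- Cauchy-Schwarz on a finite measure space -/
lemma cs_finite {α : Type*} [MeasurableSpace α] {μ : Measure α} [IsFiniteMeasure μ] {g : α → ℝ}
    (h1 : Integrable g μ) (h2 : Integrable (fun x => g x ^ 2) μ) {s : ℝ} (hs : 0 < s)
    (hV : μ.real univ = s) : (∫ x, g x ∂μ) ^ 2 ≤ s * ∫ x, g x ^ 2 ∂μ := by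
  set c := ∫ x, g x ∂μ with hc
  have h3 : 0 ≤ ∫ x, (g x - c / s) ^ 2 ∂μ := integral_nonneg (fun x => by positivity)
  have h4 : ∫ x, (g x - c / s) ^ 2 ∂μ = (∫ x, g x ^ 2 ∂μ) - c ^ 2 / s := by
    have e : ∀ x, (g x - c / s) ^ 2 = g x ^ 2 - (2 * (c / s)) * g x + (c / s) ^ 2 := by
      intro x; ring
    have i3 : Integrable (fun x => g x ^ 2 - (2 * (c / s)) * g x) μ := h2.sub (h1.const_mul _)
    simp_rw [e]
    rw [integral_add i3 (integrable_const _),
      integral_sub h2 (h1.const_mul _), integral_const_mul, integral_const, hV, ← hc]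
    simp only [smul_eq_mul]
    field_simp
    ring
  rw [h4] at h3
  have h5 : c ^ 2 / s ≤ ∫ x, g x ^ 2 ∂μ := by linarith
  rw [div_le_iff₀ hs] at h5
  linarith

variable {E : Type*} [NormedAddCommGroup E] [NormedSpace ℝ E] [FiniteDimensional ℝ E]
  [MeasurableSpace E] [BorelSpace E] {μ : Measure E} [μ.IsAddHaarMeasure]

lemma sq_diff_le {v : E → ℝ} (hv : ContDiff ℝ 1 v) (x t : E) :
    ENNReal.ofReal ((v (x + t) - v x) ^ 2) ≤
      ∫⁻ s in Icc (0:ℝ) 1, ENNReal.ofReal (‖fderiv ℝ v (x + s • t)‖ ^ 2 * ‖t‖ ^ 2) := by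
  have hcf : Continuous (fderiv ℝ v) := hv.continuous_fderiv (by norm_num)
  have hline : Continuous fun s : ℝ => x + s • t := by fun_prop
  set h : ℝ → ℝ := fun s => fderiv ℝ v (x + s • t) t with hh
  have hch : Continuous h := (hcf.comp hline).clm_apply continuous_const
  have hder : ∀ s : ℝ, HasDerivAt (fun s => v (x + s • t)) (h s) s := by
    intro s
    have h1 : HasFDerivAt v (fderiv ℝ v (x + s • t)) (x + s • t) :=
      ((hv.differentiable (by norm_num)) _).hasFDerivAt
    have h2 : HasDerivAt (fun s : ℝ => x + s • t) t s := by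
      have := ((hasDerivAt_id s).smul_const t).const_add x
      simpa using this
    exact h1.comp_hasDerivAt s h2
  have h3 : v (x + t) - v x = ∫ s in (0:ℝ)..1, h s := by
    rw [intervalIntegral.integral_eq_sub_of_hasDerivAt (fun s _ => hder s)
      (hch.intervalIntegrable _ _)]
    simp
  have hfm : IsFiniteMeasure ((volume : Measure ℝ).restrict (Icc (0:ℝ) 1)) := inferInstance
  have i1 : Integrable h ((volume : Measure ℝ).restrict (Icc (0:ℝ) 1)) :=
    hch.integrableOn_Icc
  have i2 : Integrable (fun s => h s ^ 2) ((volume : Measure ℝ).restrict (Icc (0:ℝ) 1)) :=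
    (hch.pow 2).integrableOn_Icc
  have i3 : Integrable (fun s => ‖fderiv ℝ v (x + s • t)‖ ^ 2 * ‖t‖ ^ 2)
      ((volume : Measure ℝ).restrict (Icc (0:ℝ) 1)) :=
    (((hcf.comp hline).norm.pow 2).mul continuous_const).integrableOn_Icc
  have h4 := cs_finite i1 i2 one_pos (by simp)
  rw [one_mul] at h4
  rw [← ofReal_integral_eq_lintegral_ofReal i3 (ae_of_all _ fun s => by positivity)]
  apply ENNReal.ofReal_le_ofReal
  rw [h3, intervalIntegral.integral_of_le zero_le_one, ← integral_Icc_eq_integral_Ioc]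
  refine h4.trans ?_
  apply integral_mono i2 i3
  intro s
  have h5 : |h s| ≤ ‖fderiv ℝ v (x + s • t)‖ * ‖t‖ := by
    have := (fderiv ℝ v (x + s • t)).le_opNorm t
    rwa [Real.norm_eq_abs] at this
  show h s ^ 2 ≤ ‖fderiv ℝ v (x + s • t)‖ ^ 2 * ‖t‖ ^ 2
  rw [← mul_pow, ← sq_abs]
  exact pow_le_pow_left₀ (abs_nonneg _) h5 2

/-- the translation estimate -/
lemma transl {v : E → ℝ} (hv : ContDiff ℝ 1 v) (t : E) :
    ∫⁻ x, ENNReal.ofReal ((v (x + t) - v x) ^ 2) ∂μ ≤
      ENNReal.ofReal (‖t‖ ^ 2) * ∫⁻ x, ENNReal.ofReal (‖fderiv ℝ v x‖ ^ 2) ∂μ := by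
  have hcf : Continuous (fderiv ℝ v) := hv.continuous_fderiv (by norm_num)
  calc ∫⁻ x, ENNReal.ofReal ((v (x + t) - v x) ^ 2) ∂μ
      ≤ ∫⁻ x, (∫⁻ s in Icc (0:ℝ) 1,
          ENNReal.ofReal (‖fderiv ℝ v (x + s • t)‖ ^ 2 * ‖t‖ ^ 2)) ∂μ :=
        lintegral_mono fun x => sq_diff_le hv x t
    _ = ∫⁻ s in Icc (0:ℝ) 1, (∫⁻ x,
          ENNReal.ofReal (‖fderiv ℝ v (x + s • t)‖ ^ 2 * ‖t‖ ^ 2) ∂μ) := by
        apply lintegral_lintegral_swap
        apply Measurable.aemeasurable
        apply ENNReal.measurable_ofReal.comp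
        apply Continuous.measurable
        apply Continuous.mul _ continuous_const
        apply Continuous.pow
        apply Continuous.norm
        apply hcf.comp
        exact continuous_fst.add (continuous_snd.smul continuous_const)
    _ = ∫⁻ _s in Icc (0:ℝ) 1, (ENNReal.ofReal (‖t‖ ^ 2) *
          ∫⁻ x, ENNReal.ofReal (‖fderiv ℝ v x‖ ^ 2) ∂μ) := by
        congr 1
        funext s
        rw [← lintegral_const_mul' _ _ ENNReal.ofReal_ne_top,
          ← lintegral_add_right_eq_self (μ := μ)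
            (fun x => ENNReal.ofReal (‖t‖ ^ 2) * ENNReal.ofReal (‖fderiv ℝ v x‖ ^ 2)) (s • t)]
        congr 1
        funext x
        rw [mul_comm, ENNReal.ofReal_mul (by positivity)]
    _ = _ := by
        rw [lintegral_const]
        simp

/-- the local average compared with the function -/
lemma avg_le {v : E → ℝ} (hv : Continuous v) {ε : ℝ} (hε : 0 < ε) {x c : E}
    (hx : x ∈ Metric.ball c ε) :
    ENNReal.ofReal ((v x - (μ.real (Metric.ball (0:E) ε))⁻¹ * ∫ y in Metric.ball c ε, v y ∂μ) ^ 2) ≤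
      ENNReal.ofReal (μ.real (Metric.ball (0:E) ε))⁻¹ *
        ∫⁻ t in Metric.ball (0:E) (2 * ε), ENNReal.ofReal ((v (x + t) - v x) ^ 2) ∂μ := by
  set s := μ.real (Metric.ball (0:E) ε) with hs
  have hs0 : 0 < s := by
    rw [hs, Measure.real, ENNReal.toReal_pos_iff]
    exact ⟨Metric.measure_ball_pos _ _ hε, measure_ball_lt_top⟩
  have hsc : μ.real (Metric.ball c ε) = s := by
    rw [hs, Measure.real, Measure.real, Measure.addHaar_ball_center]
  set ν := μ.restrict (Metric.ball c ε) with hν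
  have hfin : IsFiniteMeasure ν := ⟨by
    rw [hν, Measure.restrict_apply_univ]; exact measure_ball_lt_top⟩
  have hint : ∀ f : E → ℝ, Continuous f → Integrable f ν := by
    intro f hf
    have h1 : IntegrableOn f (Metric.closedBall c ε) μ :=
      hf.continuousOn.integrableOn_compact (isCompact_closedBall c ε)
    exact h1.mono_set Metric.ball_subset_closedBall
  have hνu : ν.real univ = s := by
    rw [hν, Measure.real, Measure.restrict_apply_univ]; exact hsc
  have i1 : Integrable (fun y => v x - v y) ν := hint _ (continuous_const.sub hv)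
  have i2 : Integrable (fun y => (v x - v y) ^ 2) ν := hint _ ((continuous_const.sub hv).pow 2)
  have h1 : v x - s⁻¹ * ∫ y in Metric.ball c ε, v y ∂μ = s⁻¹ * ∫ y, (v x - v y) ∂ν := by
    rw [integral_sub (integrable_const _) (hint _ hv), integral_const, hνu, smul_eq_mul, mul_sub,
      ← mul_assoc, inv_mul_cancel₀ hs0.ne', one_mul]
  have h2 := cs_finite i1 i2 hs0 hνu
  have h3 : (v x - s⁻¹ * ∫ y in Metric.ball c ε, v y ∂μ) ^ 2 ≤
      s⁻¹ * ∫ y, (v x - v y) ^ 2 ∂ν := by
    rw [h1, mul_pow]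
    calc s⁻¹ ^ 2 * (∫ y, (v x - v y) ∂ν) ^ 2 ≤ s⁻¹ ^ 2 * (s * ∫ y, (v x - v y) ^ 2 ∂ν) :=
          mul_le_mul_of_nonneg_left h2 (by positivity)
      _ = _ := by field_simp
  refine (ENNReal.ofReal_le_ofReal h3).trans ?_
  rw [ENNReal.ofReal_mul (by positivity)]
  apply mul_le_mul_right
  rw [ofReal_integral_eq_lintegral_ofReal i2 (ae_of_all _ fun y => by positivity), hν]
  calc ∫⁻ y in Metric.ball c ε, ENNReal.ofReal ((v x - v y) ^ 2) ∂μ
      ≤ ∫⁻ y in Metric.ball x (2 * ε), ENNReal.ofReal ((v x - v y) ^ 2) ∂μ := by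
        apply lintegral_mono_set
        intro y hy
        rw [Metric.mem_ball] at hx hy ⊢
        have := dist_triangle y c x
        rw [dist_comm c x] at this
        linarith
    _ = ∫⁻ t in Metric.ball (0:E) (2 * ε), ENNReal.ofReal ((v (x + t) - v x) ^ 2) ∂μ := by
        rw [← lintegral_indicator measurableSet_ball, ← lintegral_indicator measurableSet_ball,
          ← lintegral_add_left_eq_self (μ := μ) _ x]
        congr 1
        funext t
        by_cases ht : t ∈ Metric.ball (0:E) (2 * ε)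
        · have ht' : x + t ∈ Metric.ball x (2 * ε) := by
            rw [Metric.mem_ball, dist_eq_norm, add_sub_cancel_left]
            rwa [mem_ball_zero_iff] at ht
          rw [indicator_of_mem ht, indicator_of_mem ht']
          congr 1; ring
        · have ht' : x + t ∉ Metric.ball x (2 * ε) := by
            rw [Metric.mem_ball, dist_eq_norm, add_sub_cancel_left]
            rwa [mem_ball_zero_iff] at ht
          rw [indicator_of_notMem ht, indicator_of_notMem ht']

/-- a measurable partition subordinate to balls of radius `ε` -/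
lemma exists_partition {K : Set E} (hK : IsCompact K) {ε : ℝ} (hε : 0 < ε) :
    ∃ (n : ℕ) (c : Fin n → E) (B : Fin n → Set E), (∀ i, MeasurableSet (B i)) ∧
      (∀ i, B i ⊆ Metric.ball (c i) ε) ∧ Pairwise (Function.onFun Disjoint B) ∧
      K ⊆ ⋃ i, B i := by
  obtain ⟨t, -, htf, hcov⟩ := hK.finite_cover_balls hε
  set n := htf.toFinset.card with hn
  set e := htf.toFinset.equivFin with he
  set c : Fin n → E := fun i => (e.symm i : E) with hc
  set U : ℕ → Set E := fun i => if h : i < n then Metric.ball (c ⟨i, h⟩) ε else ∅ with hU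
  have hUm : ∀ i, MeasurableSet (U i) := by
    intro i
    simp only [hU]
    split_ifs
    · exact measurableSet_ball
    · exact MeasurableSet.empty
  refine ⟨n, c, fun i => disjointed U i, fun i => MeasurableSet.disjointed hUm _, ?_, ?_, ?_⟩
  · intro i
    refine (disjointed_subset U i).trans ?_
    simp only [hU]
    rw [dif_pos i.2]
  · intro i j hij
    exact disjoint_disjointed U (fun h => hij (Fin.ext h))
  · intro x hx
    have h1 := hcov hx
    simp only [mem_iUnion] at h1
    obtain ⟨y, hy, hxy⟩ := h1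
    have hxU : x ∈ ⋃ i, U i := by
      rw [mem_iUnion]
      set j := e ⟨y, htf.mem_toFinset.2 hy⟩ with hj
      refine ⟨j, ?_⟩
      simp only [hU]
      rw [dif_pos j.2]
      have : c ⟨j, j.2⟩ = y := by
        simp only [hc, Fin.eta]
        rw [hj, Equiv.symm_apply_apply]
      rw [this]; exact hxy
    rw [← iUnion_disjointed, mem_iUnion] at hxU
    obtain ⟨i, hi⟩ := hxU
    have hin : i < n := by
      by_contra h
      have := disjointed_subset U i hi
      simp only [hU] at this
      rw [dif_neg h] at this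
      exact this
    rw [mem_iUnion]
    exact ⟨⟨i, hin⟩, hi⟩

/-- the finite rank operator -/
noncomputable def avgOp (μ : Measure E) [μ.IsAddHaarMeasure] {n : ℕ} (ε : ℝ) (c : Fin n → E)
    {B : Fin n → Set E} (hB : ∀ i, MeasurableSet (B i)) (hBb : ∀ i, B i ⊆ Metric.ball (c i) ε) :
    Lp ℝ 2 μ →L[ℝ] Lp ℝ 2 μ :=
  ∑ i, (μ.real (Metric.ball (0:E) ε))⁻¹ •
    (innerSL ℝ (indicatorConstLp 2 (measurableSet_ball (x := c i) (ε := ε))
      (measure_ball_lt_top (μ := μ)).ne (1:ℝ))).smulRight
      (indicatorConstLp 2 (hB i)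
        ((measure_mono (hBb i)).trans_lt (measure_ball_lt_top (μ := μ))).ne (1:ℝ))

lemma isCompact_avgOp {n : ℕ} (ε : ℝ) (c : Fin n → E)
    {B : Fin n → Set E} (hB : ∀ i, MeasurableSet (B i)) (hBb : ∀ i, B i ⊆ Metric.ball (c i) ε) :
    IsCompactOperator (avgOp μ ε c hB hBb) := by
  unfold avgOp
  have h1 : ∀ s : Finset (Fin n), IsCompactOperator
      ((∑ i ∈ s, (μ.real (Metric.ball (0:E) ε))⁻¹ •
    (innerSL ℝ (indicatorConstLp 2 (measurableSet_ball (x := c i) (ε := ε))
      (measure_ball_lt_top (μ := μ)).ne (1:ℝ))).smulRight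
      (indicatorConstLp 2 (hB i)
        ((measure_mono (hBb i)).trans_lt (measure_ball_lt_top (μ := μ))).ne (1:ℝ)) :
        Lp ℝ 2 μ →L[ℝ] Lp ℝ 2 μ)) := by
    intro s
    induction s using Finset.cons_induction with
    | empty =>
      rw [Finset.sum_empty]
      exact isCompactOperator_zero
    | cons a s ha ih =>
      rw [Finset.sum_cons]
      apply IsCompactOperator.add _ ih
      apply IsCompactOperator.smul
      set w : Lp ℝ 2 μ := indicatorConstLp 2 (hB a)
        ((measure_mono (hBb a)).trans_lt (measure_ball_lt_top (μ := μ))).ne (1:ℝ) with hw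
      set f : Lp ℝ 2 μ →L[ℝ] ℝ := innerSL ℝ (indicatorConstLp 2
        (measurableSet_ball (x := c a) (ε := ε)) (measure_ball_lt_top (μ := μ)).ne (1:ℝ)) with hf
      have h2 : IsCompactOperator f := isCompactOperator_of_locallyCompactSpace_dom f
      have h3 := h2.clm_comp (ContinuousLinearMap.toSpanSingleton ℝ w)
      exact h3
  exact h1 Finset.univ

end Pool.Agent.H56.BN
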