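import Mathlib

/-!
The definitions of the problem. Here `N = k + 1 + d`, so that `k ≤ N - 3` means `2 ≤ d`.
-/

set_option autoImplicit false

namespace Pool.Agent.H56.BN

open MeasureTheory Filter Topology
open scoped ContDiff

/-- the `z`-space `ℝ^d` -/
abbrev Zd (d : ℕ) := EuclideanSpace ℝ (Fin d)
/-- the variables `(x, z) ∈ ℝ × ℝ^d` -/
abbrev PP (d : ℕ) := ℝ × Zd d
/-- the ambient space `ℝ^(k+1) × ℝ^d` -/
abbrev EE (k d : ℕ) := EuclideanSpace ℝ (Fin (k + 1)) × Zd d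
/-- the coordinates of `ℝ^(k+1) × ℝ^d` -/
abbrev Ix (k d : ℕ) := Fin (k + 1) ⊕ Fin d

/-- the coordinate directions -/
noncomputable def dir (k d : ℕ) : Fin (k + 1) ⊕ Fin d → EE k d :=
  Sum.elim (fun i => (EuclideanSpace.single i 1, 0)) (fun j => (0, EuclideanSpace.single j 1))

/-- partial derivatives -/
noncomputable def pd {k d : ℕ} (v : EE k d → ℝ) (i : Fin (k + 1) ⊕ Fin d) (X : EE k d) : ℝ :=
  fderiv ℝ v X (dir k d i)

/-- the exponent `2 (N - k) / (N - k - 2)` -/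
noncomputable def pex (d : ℕ) : ℝ := 2 * (d + 1) / (d - 1)

/-- bounded smooth domains: locally a sublevel set of a smooth function with nonzero differential -/
structure SmoothDom {d : ℕ} (S : Set (PP d)) : Prop where
  isOpen : IsOpen S
  conn : IsConnected S
  bdd : Bornology.IsBounded S
  bdry : ∀ P ∈ frontier S, ∃ (U : Set (PP d)) (F : PP d → ℝ), IsOpen U ∧ P ∈ U ∧
    ContDiffOn ℝ ∞ F U ∧ fderiv ℝ F P ≠ 0 ∧ ∀ Q ∈ U, Q ∈ S ↔ F Q < 0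

/-- bounded smooth domains `S` with `closure S ⊆ (0,∞) × ℝ^d` -/
structure Adm {d : ℕ} (S : Set (PP d)) : Prop where
  smooth : SmoothDom S
  pos : closure S ⊆ {P : PP d | 0 < P.1}

/-- `Ω = {(y,z) : (|y|, z) ∈ S}` -/
def Omega (k : ℕ) {d : ℕ} (S : Set (PP d)) : Set (EE k d) := {X | ((‖X.1‖, X.2) : PP d) ∈ S}

/-- `C_c^∞(Ω)` -/
structure IsCc (k : ℕ) {d : ℕ} (S : Set (PP d)) (φ : EE k d → ℝ) : Prop where
  smooth : ContDiff ℝ ∞ φ
  cpt : HasCompactSupport φ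
  supp : tsupport φ ⊆ Omega k S

/-- `v ∈ H`, with gradient `G`: `v` is in `H_0^1(Ω)` and invariant under `O(k+1)` -/
structure InH (k : ℕ) {d : ℕ} (S : Set (PP d)) (v : EE k d → ℝ) (G : Ix k d → EE k d → ℝ) :
    Prop where
  mem : MemLp v 2
  grad : ∀ i, MemLp (G i) 2
  lim : ∃ φ : ℕ → EE k d → ℝ, (∀ n, IsCc k S (φ n)) ∧
    Tendsto (fun n => ∫ X, (φ n X - v X) ^ 2) atTop (𝓝 0) ∧
    ∀ i, Tendsto (fun n => ∫ X, (pd (φ n) i X - G i X) ^ 2) atTop (𝓝 0)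
  inv : ∀ g : EuclideanSpace ℝ (Fin (k + 1)) ≃ₗᵢ[ℝ] EuclideanSpace ℝ (Fin (k + 1)),
    (fun X : EE k d => v (g X.1, X.2)) =ᵐ[volume] v

/-- the functional `J_l` at `v` with gradient `G` -/
noncomputable def JJ {k d : ℕ} (l : ℝ) (v : EE k d → ℝ) (G : Ix k d → EE k d → ℝ) : ℝ :=
  1 / 2 * ∑ i, (∫ X, G i X ^ 2) - l / 2 * (∫ X, v X ^ 2) - 1 / pex d * ∫ X, |v X| ^ pex d

/-- the derivative `J_l'(v) φ` -/
noncomputable def dJJ {k d : ℕ} (l : ℝ) (v : EE k d → ℝ) (G : Ix k d → EE k d → ℝ)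
    (φ : EE k d → ℝ) : ℝ :=
  ∑ i, (∫ X, G i X * pd φ i X) - l * (∫ X, v X * φ X) -
    ∫ X, |v X| ^ (pex d - 2) * v X * φ X

/-- the square of the `H¹` norm of a test function -/
noncomputable def nsq {k d : ℕ} (φ : EE k d → ℝ) : ℝ :=
  ∑ i, (∫ X, pd φ i X ^ 2) + ∫ X, φ X ^ 2

/-- there is a `(PS)_τ` sequence in `H`; the derivative tends to `0` in `H^{-1}(Ω)` -/
def PSlevel (k : ℕ) {d : ℕ} (S : Set (PP d)) (l τ : ℝ) : Prop :=
  ∃ (v : ℕ → EE k d → ℝ) (G : ℕ → Ix k d → EE k d → ℝ), (∀ n, InH k S (v n) (G n)) ∧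
    Tendsto (fun n => JJ l (v n) (G n)) atTop (𝓝 τ) ∧
    ∀ ε > 0, ∀ᶠ n in atTop, ∀ φ, IsCc k S φ → |dJJ l (v n) (G n) φ| ≤ ε * Real.sqrt (nsq φ)

/-- the lowest positive Palais-Smale level -/
noncomputable def ell (k : ℕ) {d : ℕ} (S : Set (PP d)) (l : ℝ) : ℝ :=
  sInf {τ : ℝ | 0 < τ ∧ PSlevel k S l τ}

/-- a symmetric ground state exists -/
def HasGS (k : ℕ) {d : ℕ} (S : Set (PP d)) (l : ℝ) : Prop :=
  ∃ (v : EE k d → ℝ) (G : Ix k d → EE k d → ℝ), InH k S v G ∧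
    (∀ φ, IsCc k S φ → dJJ l v G φ = 0) ∧ JJ l v G = ell k S l

/-- `v`, with gradient `G`, is an eigenfunction in `H` with eigenvalue `μ` -/
def IsEig (k : ℕ) {d : ℕ} (S : Set (PP d)) (μ : ℝ) (v : EE k d → ℝ)
    (G : Ix k d → EE k d → ℝ) : Prop :=
  InH k S v G ∧ ∀ φ, IsCc k S φ → ∑ i, (∫ X, G i X * pd φ i X) = μ * ∫ X, v X * φ X

/-- at least `m` eigenvalues, counted with multiplicity, are at most `t` -/
def ManyEig (k : ℕ) {d : ℕ} (S : Set (PP d)) (m : ℕ) (t : ℝ) : Prop :=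
  ∃ (v : Fin m → EE k d → ℝ) (G : Fin m → Ix k d → EE k d → ℝ),
    (∀ i, ∃ μ ≤ t, IsEig k S μ (v i) (G i)) ∧
    ∀ i j, ∫ X, v i X * v j X = if i = j then 1 else 0

/-- the `m`-th eigenvalue of `-Δ` in `H`, counted with multiplicity; it is `0` for `m = 0` -/
noncomputable def lam (k : ℕ) {d : ℕ} (S : Set (PP d)) (m : ℕ) : ℝ :=
  sInf {t : ℝ | 0 ≤ t ∧ ManyEig k S m t}

/-- `s` has the defining property of the threshold `λ_{m,*}` -/
def IsThreshold (k : ℕ) {d : ℕ} (S : Set (PP d)) (m : ℕ) (s : ℝ) : Prop :=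
  lam k S m ≤ s ∧ s < lam k S (m + 1) ∧
    (∀ l, s < l → l < lam k S (m + 1) → HasGS k S l) ∧
    ∀ l, lam k S m ≤ l → l < s → ¬ HasGS k S l

end Pool.Agent.H56.BN
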