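import Mathlib
import Pool.Agent.H56.BN.Defs

/-!
Test functions and their lifts to the ambient space.
-/

set_option autoImplicit false
set_option maxHeartbeats 1000000

namespace Pool.Agent.H56.BN

open MeasureTheory Filter Topology
open scoped ContDiff

/-- `(y, z) ↦ (|y|, z)` -/
noncomputable def rad (k d : ℕ) (X : EE k d) : PP d := (‖X.1‖, X.2)

/-- smooth functions with compact support in `Θ` -/
structure IsTest {d : ℕ} (Θ : Set (PP d)) (φ : PP d → ℝ) : Prop where
  smooth : ContDiff ℝ ∞ φ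
  cpt : HasCompactSupport φ
  supp : tsupport φ ⊆ Θ

/-- `v(y,z) = φ(|y|,z)` -/
noncomputable def lift (k : ℕ) {d : ℕ} (φ : PP d → ℝ) (X : EE k d) : ℝ := φ (‖X.1‖, X.2)

/-- derivative in `x` -/
noncomputable def dx {d : ℕ} (φ : PP d → ℝ) (P : PP d) : ℝ := fderiv ℝ φ P (1, 0)
/-- derivative in `z_j` -/
noncomputable def dz {d : ℕ} (φ : PP d → ℝ) (j : Fin d) (P : PP d) : ℝ :=
  fderiv ℝ φ P (0, EuclideanSpace.single j 1)

/-- the squared length of the gradient -/
noncomputable def gsq {d : ℕ} (φ : PP d → ℝ) (P : PP d) : ℝ := dx φ P ^ 2 + ∑ j, dz φ j P ^ 2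

/-- the open half space -/
def HP (d : ℕ) : Set (PP d) := {P | 0 < P.1}

lemma isOpen_HP (d : ℕ) : IsOpen (HP d) := isOpen_lt continuous_const continuous_fst

section basic

variable {k d : ℕ} {Θ : Set (PP d)} {φ ψ : PP d → ℝ}

lemma IsTest.mono {Θ' : Set (PP d)} (h : IsTest Θ φ) (hs : Θ ⊆ Θ') : IsTest Θ' φ :=
  ⟨h.smooth, h.cpt, h.supp.trans hs⟩

lemma IsTest.zero : IsTest Θ (fun _ => 0 : PP d → ℝ) :=
  ⟨contDiff_const, HasCompactSupport.zero, by simp⟩

lemma IsTest.add (h1 : IsTest Θ φ) (h2 : IsTest Θ ψ) : IsTest Θ (fun P => φ P + ψ P) := by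
  refine ⟨h1.smooth.add h2.smooth, h1.cpt.add h2.cpt, ?_⟩
  exact (tsupport_add φ ψ).trans (Set.union_subset h1.supp h2.supp)

lemma IsTest.smul (h1 : IsTest Θ φ) (c : ℝ) : IsTest Θ (fun P => c * φ P) := by
  refine ⟨contDiff_const.mul h1.smooth, h1.cpt.mul_left, ?_⟩
  exact (closure_mono (Function.support_mul_subset_right (fun _ => c) φ)).trans h1.supp

lemma IsTest.eq_zero (h : IsTest Θ φ) {P : PP d} (hP : P ∉ Θ) : φ P = 0 :=
  image_eq_zero_of_notMem_tsupport fun h' => hP (h.supp h')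

lemma IsTest.continuous (h : IsTest Θ φ) : Continuous φ := h.smooth.continuous

lemma IsTest.differentiable (h : IsTest Θ φ) : Differentiable ℝ φ :=
  h.smooth.differentiable (by simp)

/-- multiplying by a function that is smooth on an open set containing the support -/
lemma IsTest.mul_left (h : IsTest Θ φ) {a : PP d → ℝ} {U : Set (PP d)} (hU : IsOpen U)
    (ha : ContDiffOn ℝ ∞ a U) (hΘ : Θ ⊆ U) : IsTest Θ (fun P => a P * φ P) := by
  refine ⟨?_, h.cpt.mul_left, ?_⟩
  · rw [contDiff_iff_contDiffAt]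
    intro P
    by_cases hP : P ∈ tsupport φ
    · exact (ha.contDiffAt (hU.mem_nhds (hΘ (h.supp hP)))).mul h.smooth.contDiffAt
    · have h1 : (fun P => a P * φ P) =ᶠ[𝓝 P] fun _ => 0 := by
        have := notMem_tsupport_iff_eventuallyEq.1 hP
        filter_upwards [this] with Q hQ
        rw [hQ]; simp
      exact contDiffAt_const.congr_of_eventuallyEq h1
  · exact (closure_mono (Function.support_mul_subset_right a φ)).trans h.supp

lemma continuous_dx (h : ContDiff ℝ ∞ φ) : Continuous (dx φ) :=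
  (h.continuous_fderiv (by simp)).clm_apply continuous_const

lemma continuous_dz (h : ContDiff ℝ ∞ φ) (j : Fin d) : Continuous (dz φ j) :=
  (h.continuous_fderiv (by simp)).clm_apply continuous_const

lemma continuous_gsq (h : ContDiff ℝ ∞ φ) : Continuous (gsq φ) :=
  ((continuous_dx h).pow 2).add (continuous_finset_sum _ fun j _ => (continuous_dz h j).pow 2)

lemma dx_eq_zero {P : PP d} (hP : P ∉ tsupport φ) : dx φ P = 0 := by
  unfold dx
  have : fderiv ℝ φ P = 0 := by
    have h1 := notMem_tsupport_iff_eventuallyEq.1 hP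
    rw [h1.fderiv_eq]; simp
  rw [this]; rfl

lemma dz_eq_zero {P : PP d} (hP : P ∉ tsupport φ) (j : Fin d) : dz φ j P = 0 := by
  unfold dz
  have : fderiv ℝ φ P = 0 := by
    have h1 := notMem_tsupport_iff_eventuallyEq.1 hP
    rw [h1.fderiv_eq]; simp
  rw [this]; rfl

lemma gsq_eq_zero {P : PP d} (hP : P ∉ tsupport φ) : gsq φ P = 0 := by
  unfold gsq
  rw [dx_eq_zero hP]
  simp [dz_eq_zero hP]

lemma gsq_nonneg (P : PP d) : 0 ≤ gsq φ P :=
  add_nonneg (sq_nonneg _) (Finset.sum_nonneg fun _ _ => sq_nonneg _)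

/-- the lift is smooth -/
lemma contDiff_lift (h : ContDiff ℝ ∞ φ) (hs : tsupport φ ⊆ HP d) : ContDiff ℝ ∞ (lift k φ) := by
  rw [contDiff_iff_contDiffAt]
  intro X
  by_cases hX : rad k d X ∈ tsupport φ
  · have h0 : X.1 ≠ 0 := by
      intro h0
      have : (0:ℝ) < ‖X.1‖ := hs hX
      rw [h0, norm_zero] at this
      exact lt_irrefl _ this
    have h1 : ContDiffAt ℝ ∞ (fun X : EE k d => ((‖X.1‖, X.2) : PP d)) X :=
      ((contDiffAt_norm ℝ h0).comp X contDiffAt_fst).prodMk contDiffAt_snd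
    exact h.contDiffAt.comp X h1
  · have h1 : lift k φ =ᶠ[𝓝 X] fun _ => 0 := by
      have h2 := notMem_tsupport_iff_eventuallyEq.1 hX
      have h3 : Tendsto (rad k d) (𝓝 X) (𝓝 (rad k d X)) := by
        have : Continuous (rad k d) := (continuous_fst.norm).prodMk continuous_snd
        exact this.tendsto X
      filter_upwards [h3.eventually h2] with Y hY
      exact hY
    exact contDiffAt_const.congr_of_eventuallyEq h1

lemma continuous_rad : Continuous (rad k d) := (continuous_fst.norm).prodMk continuous_snd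

lemma isCompact_rad_preimage {K : Set (PP d)} (hK : IsCompact K) :
    IsCompact (rad k d ⁻¹' K) := by
  apply Metric.isCompact_of_isClosed_isBounded (hK.isClosed.preimage continuous_rad)
  obtain ⟨R, hR⟩ := hK.isBounded.subset_closedBall (0 : PP d)
  apply (Metric.isBounded_closedBall (x := (0 : EE k d)) (r := R)).subset
  intro X hX
  have h1 := hR hX
  rw [mem_closedBall_zero_iff] at h1 ⊢
  have h2 : ‖rad k d X‖ = ‖X‖ := by
    unfold rad
    rw [Prod.norm_def, Prod.norm_def, norm_norm]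
  rwa [← h2]

lemma tsupport_lift_subset : tsupport (lift k φ) ⊆ rad k d ⁻¹' tsupport φ := by
  apply closure_minimal _ ((isClosed_tsupport φ).preimage continuous_rad)
  intro X hX
  exact subset_tsupport φ hX

lemma hasCompactSupport_lift (h : HasCompactSupport φ) : HasCompactSupport (lift k φ) :=
  (isCompact_rad_preimage h).of_isClosed_subset (isClosed_tsupport _) tsupport_lift_subset

/-- the derivative of the lift -/
lemma hasFDerivAt_lift (h : Differentiable ℝ φ) {X : EE k d} (h0 : X.1 ≠ 0) :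
    HasFDerivAt (lift k φ) ((fderiv ℝ φ (rad k d X)).comp
      ((((‖X.1‖⁻¹ : ℝ) • innerSL ℝ X.1).comp (ContinuousLinearMap.fst ℝ _ _)).prod
        (ContinuousLinearMap.snd ℝ _ _))) X := by
  have h1 : HasFDerivAt (fun y : EuclideanSpace ℝ (Fin (k + 1)) => ‖y‖)
      ((‖X.1‖⁻¹ : ℝ) • innerSL ℝ X.1) X.1 := by
    have h2 : HasFDerivAt (fun y : EuclideanSpace ℝ (Fin (k + 1)) => ‖y‖ ^ 2)
        ((2 : ℝ) • innerSL ℝ X.1) X.1 := by
      exact (hasStrictFDerivAt_norm_sq X.1).hasFDerivAt.congr_fderiv (by rw [two_smul, two_smul])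
    have h3 : (0:ℝ) < ‖X.1‖ := norm_pos_iff.2 h0
    have h4 := (Real.hasDerivAt_sqrt (pow_pos h3 2).ne').comp_hasFDerivAt X.1 h2
    have e : (fun y : EuclideanSpace ℝ (Fin (k + 1)) => ‖y‖) = fun y => Real.sqrt (‖y‖ ^ 2) := by
      funext y; rw [Real.sqrt_sq (norm_nonneg _)]
    rw [e]
    refine h4.congr_fderiv ?_
    rw [Real.sqrt_sq h3.le, smul_smul]
    congr 1
    field_simp
  have h5 : HasFDerivAt (fun X : EE k d => ((‖X.1‖, X.2) : PP d))
      ((((‖X.1‖⁻¹ : ℝ) • innerSL ℝ X.1).comp (ContinuousLinearMap.fst ℝ _ _)).prod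
        (ContinuousLinearMap.snd ℝ _ _)) X :=
    (h1.comp X hasFDerivAt_fst).prodMk hasFDerivAt_snd
  exact (h (rad k d X)).hasFDerivAt.comp X h5

lemma pd_lift_inl (h : Differentiable ℝ φ) {X : EE k d} (h0 : X.1 ≠ 0) (i : Fin (k + 1)) :
    pd (lift k φ) (Sum.inl i) X = ‖X.1‖⁻¹ * X.1 i * dx φ (rad k d X) := by
  unfold pd dx
  rw [(hasFDerivAt_lift h h0).fderiv]
  have e1 : ((((‖X.1‖⁻¹ : ℝ) • innerSL ℝ X.1).comp (ContinuousLinearMap.fst ℝ _ _)).prod
      (ContinuousLinearMap.snd ℝ _ _)) (dir k d (Sum.inl i)) =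
      (‖X.1‖⁻¹ * X.1 i) • ((1, 0) : PP d) := by
    simp [dir, EuclideanSpace.inner_single_right]
  rw [ContinuousLinearMap.comp_apply, e1, map_smul, smul_eq_mul]

lemma pd_lift_inr (h : Differentiable ℝ φ) {X : EE k d} (h0 : X.1 ≠ 0) (j : Fin d) :
    pd (lift k φ) (Sum.inr j) X = dz φ j (rad k d X) := by
  unfold pd dz
  rw [(hasFDerivAt_lift h h0).fderiv, ContinuousLinearMap.comp_apply]
  congr 1
  simp [dir]

lemma pd_lift_zero (hs : tsupport φ ⊆ HP d) {X : EE k d} (h0 : X.1 = 0)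
    (i : Fin (k + 1) ⊕ Fin d) : pd (lift k φ) i X = 0 := by
  have h1 : X ∉ tsupport (lift k φ) := by
    intro h
    have h2 := hs (tsupport_lift_subset h)
    have h3 : (0:ℝ) < ‖X.1‖ := h2
    rw [h0, norm_zero] at h3
    exact lt_irrefl _ h3
  unfold pd
  rw [(notMem_tsupport_iff_eventuallyEq.1 h1).fderiv_eq]
  simp

lemma sum_pd_sq (h : Differentiable ℝ φ) (hs : tsupport φ ⊆ HP d) (X : EE k d) :
    ∑ i, pd (lift k φ) i X ^ 2 = gsq φ (rad k d X) := by
  by_cases h0 : X.1 = 0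
  · have h1 : rad k d X ∉ tsupport φ := by
      intro h
      have h3 : (0:ℝ) < ‖X.1‖ := hs h
      rw [h0, norm_zero] at h3
      exact lt_irrefl _ h3
    rw [gsq_eq_zero h1]
    simp [pd_lift_zero hs h0]
  · rw [Fintype.sum_sum_type]
    unfold gsq
    congr 1
    · simp_rw [pd_lift_inl h h0]
      have h3 : (0:ℝ) < ‖X.1‖ := norm_pos_iff.2 h0
      have h4 : ∑ i, X.1 i ^ 2 = ‖X.1‖ ^ 2 := by
        rw [EuclideanSpace.norm_sq_eq]; simp
      calc ∑ i, (‖X.1‖⁻¹ * X.1 i * dx φ (rad k d X)) ^ 2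
          = ∑ i, (‖X.1‖⁻¹ ^ 2 * dx φ (rad k d X) ^ 2) * X.1 i ^ 2 := by
            congr 1; funext i; ring
        _ = (‖X.1‖⁻¹ ^ 2 * dx φ (rad k d X) ^ 2) * ‖X.1‖ ^ 2 := by
            rw [← Finset.mul_sum, h4]
        _ = _ := by field_simp
    · congr 1; funext j; rw [pd_lift_inr h h0]

end basic

end Pool.Agent.H56.BN
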