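import Mathlib
import Pool.Agent.H56.BN.Test

/-!
Integration of radially symmetric functions.
-/

set_option autoImplicit false
set_option maxHeartbeats 1000000

namespace Pool.Agent.H56.BN

open MeasureTheory Filter Topology
open scoped ContDiff

/-- the area of the unit sphere of `ℝ^(k+1)` -/
noncomputable def ck (k : ℕ) : ℝ :=
  (k + 1 : ℕ) * (volume : Measure (EuclideanSpace ℝ (Fin (k + 1)))).real (Metric.ball 0 1)

lemma ck_pos (k : ℕ) : 0 < ck k := by
  unfold ck
  have h : 0 < (volume : Measure (EuclideanSpace ℝ (Fin (k + 1)))).real (Metric.ball 0 1) := by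
    rw [Measure.real, ENNReal.toReal_pos_iff]
    exact ⟨Metric.measure_ball_pos _ _ one_pos, measure_ball_lt_top⟩
  positivity

theorem integral_rad {k d : ℕ} {F : PP d → ℝ} (hF : Continuous F) (hc : HasCompactSupport F)
    (hs : tsupport F ⊆ HP d) :
    ∫ X : EE k d, F (rad k d X) = ck k * ∫ P : PP d, P.1 ^ k * F P := by
  have hi : Integrable (fun X : EE k d => F (rad k d X)) (volume : Measure (EE k d)) := by
    apply (hF.comp continuous_rad).integrable_of_hasCompactSupport
    apply (isCompact_rad_preimage hc).of_isClosed_subset (isClosed_tsupport _)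
    apply closure_minimal _ ((isClosed_tsupport F).preimage continuous_rad)
    intro X hX
    exact subset_tsupport F hX
  have hi2 : Integrable (fun P : PP d => P.1 ^ k * F P) (volume : Measure (PP d)) := by
    apply Continuous.integrable_of_hasCompactSupport
    · exact (continuous_fst.pow k).mul hF
    · exact hc.mul_left
  rw [Measure.volume_eq_prod] at hi hi2 ⊢
  rw [Measure.volume_eq_prod]
  rw [integral_prod_symm _ hi, integral_prod_symm _ hi2, ← integral_const_mul]
  congr 1
  funext z
  have h1 : ∫ y : EuclideanSpace ℝ (Fin (k + 1)), F (rad k d (y, z)) =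
      ∫ y : EuclideanSpace ℝ (Fin (k + 1)), (fun x : ℝ => F (x, z)) ‖y‖ := rfl
  rw [h1, integral_fun_norm_addHaar volume (fun x : ℝ => F (x, z))]
  simp only [finrank_euclideanSpace, Fintype.card_fin, add_tsub_cancel_right, nsmul_eq_mul,
    smul_eq_mul]
  unfold ck
  rw [mul_assoc]
  congr 2
  rw [← integral_indicator measurableSet_Ioi]
  congr 1
  funext x
  by_cases hx : x ∈ Set.Ioi (0:ℝ)
  · rw [Set.indicator_of_mem hx]
  · rw [Set.indicator_of_notMem hx]
    have h2 : ((x, z) : PP d) ∉ tsupport F := fun h => hx (hs h)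
    rw [image_eq_zero_of_notMem_tsupport h2, mul_zero]

end Pool.Agent.H56.BN
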