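import Mathlib
import Pool.Agent.H56.BN.Polar

/-!
The Hilbert space attached to a domain.
-/

set_option autoImplicit false
set_option maxHeartbeats 1000000

namespace Pool.Agent.H56.BN

open MeasureTheory Filter Topology
open scoped ContDiff InnerProductSpace ENNReal

/-- bounded sets in the open half space -/
structure Dom (d : ℕ) where
  S : Set (PP d)
  pos : S ⊆ HP d
  bdd : Bornology.IsBounded S

/-- components of the jet -/
abbrev CI (k d : ℕ) := Option (Fin (k + 1) ⊕ Fin d)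
/-- value space of jets -/
abbrev FF (k d : ℕ) := EuclideanSpace ℝ (CI k d)
/-- square integrable jets -/
noncomputable abbrev HH (k d : ℕ) := Lp (FF k d) 2 (volume : Measure (EE k d))

/-- the function together with its partial derivatives -/
noncomputable def jet {k d : ℕ} (v : EE k d → ℝ) (X : EE k d) : FF k d :=
  WithLp.toLp 2 (fun o => o.elim (v X) (fun i => pd v i X))

/-- the space of test functions -/
def Tst {d : ℕ} (Θ : Dom d) : Submodule ℝ (PP d → ℝ) where
  carrier := {φ | IsTest Θ.S φ}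
  add_mem' := fun h1 h2 => h1.add h2
  zero_mem' := IsTest.zero
  smul_mem' := fun c _ h => h.smul c

variable {k d : ℕ} {Θ : Dom d}

lemma tIs (φ : Tst Θ) : IsTest Θ.S (φ : PP d → ℝ) := φ.2

lemma tHp (φ : Tst Θ) : tsupport (φ : PP d → ℝ) ⊆ HP d := (tIs φ).supp.trans Θ.pos

lemma tCd (φ : Tst Θ) : ContDiff ℝ ∞ (lift k (φ : PP d → ℝ)) :=
  contDiff_lift (tIs φ).smooth (tHp φ)

lemma tCs (φ : Tst Θ) : HasCompactSupport (lift k (φ : PP d → ℝ)) :=
  hasCompactSupport_lift (tIs φ).cpt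

lemma continuous_pd {v : EE k d → ℝ} (h : ContDiff ℝ ∞ v) (i : Fin (k + 1) ⊕ Fin d) :
    Continuous (pd v i) :=
  (h.continuous_fderiv (by simp)).clm_apply continuous_const

lemma pd_eq_zero {v : EE k d → ℝ} {X : EE k d} (hX : X ∉ tsupport v) (i : Fin (k + 1) ⊕ Fin d) :
    pd v i X = 0 := by
  unfold pd
  rw [(notMem_tsupport_iff_eventuallyEq.1 hX).fderiv_eq]
  simp

lemma continuous_jet {v : EE k d → ℝ} (h : ContDiff ℝ ∞ v) : Continuous (jet v) := by
  unfold jet
  apply (PiLp.continuous_toLp 2 _).comp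
  apply continuous_pi
  rintro (_ | i)
  · exact h.continuous
  · exact continuous_pd h i

lemma hasCompactSupport_jet {v : EE k d → ℝ} (hc : HasCompactSupport v) :
    HasCompactSupport (jet v) := by
  apply HasCompactSupport.of_support_subset_isCompact hc
  intro X hX
  by_contra h
  apply hX
  unfold jet
  have h1 : (fun o : CI k d => o.elim (v X) (fun i => pd v i X)) = 0 := by
    funext o
    rcases o with _ | i
    · exact image_eq_zero_of_notMem_tsupport (f := v) h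
    · exact pd_eq_zero h i
  rw [h1]; rfl

lemma memLp_jet (φ : Tst Θ) : MemLp (jet (lift k (φ : PP d → ℝ))) 2
    (volume : Measure (EE k d)) :=
  (continuous_jet (tCd φ)).memLp_of_hasCompactSupport (hasCompactSupport_jet (tCs φ))

lemma lift_add (φ ψ : PP d → ℝ) : lift k (φ + ψ) = lift k φ + lift k ψ := rfl

lemma lift_smul (c : ℝ) (φ : PP d → ℝ) : lift k (c • φ) = c • lift k φ := rfl

lemma jet_add {v w : EE k d → ℝ} (hv : ContDiff ℝ ∞ v) (hw : ContDiff ℝ ∞ w) :
    jet (v + w) = jet v + jet w := by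
  funext X
  unfold jet
  rw [Pi.add_apply]
  apply WithLp.ofLp_injective
  funext o
  rcases o with _ | i
  · rfl
  · simp only [Option.elim_some, WithLp.ofLp_add, Pi.add_apply]
    unfold pd
    rw [fderiv_add (hv.differentiable (by simp) X) (hw.differentiable (by simp) X)]
    rfl

lemma jet_smul {v : EE k d → ℝ} (hv : ContDiff ℝ ∞ v) (c : ℝ) :
    jet (c • v) = c • jet v := by
  funext X
  unfold jet
  rw [Pi.smul_apply]
  apply WithLp.ofLp_injective
  funext o
  rcases o with _ | i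
  · rfl
  · simp only [Option.elim_some, WithLp.ofLp_smul, Pi.smul_apply]
    unfold pd
    rw [fderiv_const_smul (hv.differentiable (by simp) X)]
    rfl

/-- the jets of the lifts of test functions -/
noncomputable def vec (k : ℕ) {d : ℕ} (Θ : Dom d) : Tst Θ →ₗ[ℝ] HH k d where
  toFun φ := (memLp_jet (k := k) φ).toLp _
  map_add' φ ψ := by
    rw [← MemLp.toLp_add]
    apply MemLp.toLp_congr
    apply ae_of_all
    intro X
    have h1 : ((φ + ψ : Tst Θ) : PP d → ℝ) = (φ : PP d → ℝ) + (ψ : PP d → ℝ) := rfl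
    rw [h1, lift_add, jet_add (tCd φ) (tCd ψ)]
  map_smul' c φ := by
    rw [RingHom.id_apply, ← MemLp.toLp_const_smul]
    apply MemLp.toLp_congr
    apply ae_of_all
    intro X
    have h1 : ((c • φ : Tst Θ) : PP d → ℝ) = c • (φ : PP d → ℝ) := rfl
    rw [h1, lift_smul, jet_smul (tCd φ)]

lemma coeFn_vec (φ : Tst Θ) : vec k Θ φ =ᵐ[volume] jet (lift k (φ : PP d → ℝ)) :=
  MemLp.coeFn_toLp (memLp_jet (k := k) φ)

/-- the closure of the space of test functions -/
noncomputable def VV (k : ℕ) {d : ℕ} (Θ : Dom d) : Submodule ℝ (HH k d) :=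
  (LinearMap.range (vec k Θ)).topologicalClosure

instance : CompleteSpace (VV k Θ) :=
  (Submodule.isClosed_topologicalClosure (LinearMap.range (vec k Θ))).completeSpace_coe

lemma vec_mem (φ : Tst Θ) : vec k Θ φ ∈ VV k Θ :=
  Submodule.le_topologicalClosure _ (LinearMap.mem_range_self _ φ)

/-- test functions as elements of `VV` -/
noncomputable def emb (k : ℕ) {d : ℕ} (Θ : Dom d) : Tst Θ →ₗ[ℝ] VV k Θ :=
  (vec k Θ).codRestrict (VV k Θ) vec_mem

lemma coe_emb (φ : Tst Θ) : (emb k Θ φ : HH k d) = vec k Θ φ := rfl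

lemma dense_emb : DenseRange (emb k Θ) := by
  intro x
  rw [closure_subtype]
  have h1 : (Subtype.val '' Set.range (emb k Θ) : Set (HH k d)) =
      (LinearMap.range (vec k Θ) : Set (HH k d)) := by
    ext y
    constructor
    · rintro ⟨_, ⟨φ, rfl⟩, rfl⟩
      exact ⟨φ, rfl⟩
    · rintro ⟨φ, rfl⟩
      exact ⟨_, ⟨φ, rfl⟩, rfl⟩
  rw [h1]
  exact x.2

/-- components -/
noncomputable def comp (k d : ℕ) (o : CI k d) : HH k d →L[ℝ] Lp ℝ 2 (volume : Measure (EE k d)) :=
  (EuclideanSpace.proj o : FF k d →L[ℝ] ℝ).compLpL 2 volume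

lemma coeFn_comp (o : CI k d) (u : HH k d) :
    comp k d o u =ᵐ[volume] fun X => (u X) o :=
  ContinuousLinearMap.coeFn_compLp _ _

/-- the embedding into `L²` -/
noncomputable def io2 (k : ℕ) {d : ℕ} (Θ : Dom d) :
    VV k Θ →L[ℝ] Lp ℝ 2 (volume : Measure (EE k d)) :=
  (comp k d none).comp (VV k Θ).subtypeL

lemma coeFn_io2 (u : VV k Θ) : io2 k Θ u =ᵐ[volume] fun X => ((u : HH k d) X) none :=
  coeFn_comp none (u : HH k d)

lemma coeFn_io2_emb (φ : Tst Θ) :
    io2 k Θ (emb k Θ φ) =ᵐ[volume] lift k (φ : PP d → ℝ) := by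
  filter_upwards [coeFn_io2 (emb k Θ φ), coeFn_vec (k := k) φ] with X h1 h2
  rw [h1, coe_emb, h2]
  rfl

/-- the operator representing the `L²` product -/
noncomputable def TT (k : ℕ) {d : ℕ} (Θ : Dom d) : VV k Θ →L[ℝ] VV k Θ :=
  (ContinuousLinearMap.adjoint (io2 k Θ)).comp (io2 k Θ)

lemma inner_TT (u w : VV k Θ) : ⟪TT k Θ u, w⟫_ℝ = ⟪io2 k Θ u, io2 k Θ w⟫_ℝ := by
  unfold TT
  rw [ContinuousLinearMap.comp_apply, ContinuousLinearMap.adjoint_inner_left]

lemma inner_io2 (u w : VV k Θ) :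
    ⟪io2 k Θ u, io2 k Θ w⟫_ℝ = ∫ X, io2 k Θ u X * io2 k Θ w X := by
  rw [L2.inner_def]
  apply integral_congr_ae
  apply ae_of_all
  intro X
  simp only [RCLike.inner_apply, conj_trivial]
  exact mul_comm _ _

lemma TT_symm : (TT k Θ : VV k Θ →ₗ[ℝ] VV k Θ).IsSymmetric := by
  intro u w
  have h1 := inner_TT u w
  have h2 := inner_TT w u
  rw [real_inner_comm] at h2
  show ⟪TT k Θ u, w⟫_ℝ = ⟪u, TT k Θ w⟫_ℝ
  rw [h1, h2, real_inner_comm]

lemma TT_nonneg (u : VV k Θ) : 0 ≤ ⟪TT k Θ u, u⟫_ℝ := by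
  rw [inner_TT]; exact real_inner_self_nonneg

lemma inner_TT_self (u : VV k Θ) : ⟪TT k Θ u, u⟫_ℝ = ‖io2 k Θ u‖ ^ 2 := by
  rw [inner_TT, real_inner_self_eq_norm_sq]

/-! ### weighted integrals of test functions -/

/-- the Dirichlet integral -/
noncomputable def q0 (k : ℕ) {d : ℕ} (φ : PP d → ℝ) : ℝ := ∫ P : PP d, P.1 ^ k * gsq φ P
/-- the mass -/
noncomputable def n2 (k : ℕ) {d : ℕ} (φ : PP d → ℝ) : ℝ := ∫ P : PP d, P.1 ^ k * φ P ^ 2
/-- the `p`-th power integral -/
noncomputable def npp (k : ℕ) {d : ℕ} (p : ℝ) (φ : PP d → ℝ) : ℝ :=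
  ∫ P : PP d, P.1 ^ k * |φ P| ^ p

lemma tsupp_comp {g : ℝ → ℝ} (hg : g 0 = 0) {φ : PP d → ℝ} :
    tsupport (fun P => g (φ P)) ⊆ tsupport φ := by
  apply closure_mono
  intro P hP h0
  apply hP
  simp only [h0, hg]

lemma integral_lift_sq (φ : Tst Θ) :
    ∫ X : EE k d, lift k (φ : PP d → ℝ) X ^ 2 = ck k * n2 k (φ : PP d → ℝ) := by
  have h := integral_rad (k := k) (F := fun P => (φ : PP d → ℝ) P ^ 2)
    ((tIs φ).continuous.pow 2) ((tIs φ).cpt.comp_left (g := fun x : ℝ => x ^ 2) (by norm_num))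
    ((tsupp_comp (g := fun x : ℝ => x ^ 2) (by norm_num)).trans (tHp φ))
  exact h

lemma integral_lift_rpow {p : ℝ} (hp : 0 < p) (φ : Tst Θ) :
    ∫ X : EE k d, |lift k (φ : PP d → ℝ) X| ^ p = ck k * npp k p (φ : PP d → ℝ) := by
  have h := integral_rad (k := k) (F := fun P => |(φ : PP d → ℝ) P| ^ p)
    ((tIs φ).continuous.abs.rpow_const fun _ => Or.inr hp.le)
    ((tIs φ).cpt.comp_left (g := fun x : ℝ => |x| ^ p) (by simp [hp.ne']))
    ((tsupp_comp (g := fun x : ℝ => |x| ^ p) (by simp [hp.ne'])).trans (tHp φ))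
  exact h

lemma integral_gsq_lift (φ : Tst Θ) :
    ∫ X : EE k d, ∑ i, pd (lift k (φ : PP d → ℝ)) i X ^ 2 = ck k * q0 k (φ : PP d → ℝ) := by
  have hs : Function.support (gsq (φ : PP d → ℝ)) ⊆ tsupport (φ : PP d → ℝ) := by
    intro P hP
    by_contra h
    exact hP (gsq_eq_zero h)
  have h := integral_rad (k := k) (F := gsq (φ : PP d → ℝ))
    (continuous_gsq (tIs φ).smooth)
    (HasCompactSupport.of_support_subset_isCompact (tIs φ).cpt hs)
    ((closure_minimal hs (isClosed_tsupport _)).trans (tHp φ))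
  rw [show q0 k (φ : PP d → ℝ) = ∫ P : PP d, P.1 ^ k * gsq (φ : PP d → ℝ) P from rfl, ← h]
  congr 1
  funext X
  exact sum_pd_sq (tIs φ).differentiable (tHp φ) X

lemma norm_io2_emb (φ : Tst Θ) : ‖io2 k Θ (emb k Θ φ)‖ ^ 2 = ck k * n2 k (φ : PP d → ℝ) := by
  rw [← real_inner_self_eq_norm_sq, inner_io2, ← integral_lift_sq]
  apply integral_congr_ae
  filter_upwards [coeFn_io2_emb (k := k) φ] with X hX
  rw [hX]; ring

lemma norm_emb (φ : Tst Θ) :
    ‖emb k Θ φ‖ ^ 2 = ck k * q0 k (φ : PP d → ℝ) + ck k * n2 k (φ : PP d → ℝ) := by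
  have h1 : ‖emb k Θ φ‖ = ‖vec k Θ φ‖ := rfl
  rw [h1, ← real_inner_self_eq_norm_sq, L2.inner_def, ← integral_lift_sq, ← integral_gsq_lift]
  have e : ∫ X, ⟪vec k Θ φ X, vec k Θ φ X⟫_ℝ = ∫ X : EE k d,
      (∑ i, pd (lift k (φ : PP d → ℝ)) i X ^ 2 + lift k (φ : PP d → ℝ) X ^ 2) := by
    apply integral_congr_ae
    filter_upwards [coeFn_vec (k := k) φ] with X hX
    rw [hX, real_inner_self_eq_norm_sq, EuclideanSpace.norm_sq_eq, Fintype.sum_option]
    simp only [Real.norm_eq_abs, sq_abs]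
    rw [add_comm]
    rfl
  rw [e]
  apply integral_add
  · apply Continuous.integrable_of_hasCompactSupport
    · exact continuous_finsetSum _ fun i _ => (continuous_pd (tCd φ) i).pow 2
    · refine HasCompactSupport.of_support_subset_isCompact (tCs (k := k) φ) (fun X hX => ?_)
      by_contra h
      apply hX
      simp [pd_eq_zero h]
  · apply Continuous.integrable_of_hasCompactSupport
    · exact (tCd φ).continuous.pow 2
    · exact (tCs (k := k) φ).comp_left (g := fun x : ℝ => x ^ 2) (by norm_num)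

end Pool.Agent.H56.BN
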