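import Mathlib
import Pool.Agent.H56.BN.Rellich
import Pool.Agent.H56.BN.Space

/-!
Compactness of the embedding into `L²`.
-/

set_option autoImplicit false
set_option maxHeartbeats 1000000

namespace Pool.Agent.H56.BN

open MeasureTheory Filter Topology Set
open scoped ContDiff InnerProductSpace ENNReal

section gen

variable {E : Type*} [NormedAddCommGroup E] [NormedSpace ℝ E] [FiniteDimensional ℝ E]
  [MeasurableSpace E] [BorelSpace E] {μ : Measure E} [μ.IsAddHaarMeasure]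

lemma coeFn_avgOp {n : ℕ} (ε : ℝ) (c : Fin n → E)
    {B : Fin n → Set E} (hB : ∀ i, MeasurableSet (B i)) (hBb : ∀ i, B i ⊆ Metric.ball (c i) ε)
    {v : E → ℝ} {u : Lp ℝ 2 μ} (hu : u =ᵐ[μ] v) :
    avgOp μ ε c hB hBb u =ᵐ[μ] fun x => ∑ i, (B i).indicator (fun _ =>
      (μ.real (Metric.ball (0:E) ε))⁻¹ * ∫ y in Metric.ball (c i) ε, v y ∂μ) x := by
  set s := μ.real (Metric.ball (0:E) ε) with hs
  set w : Fin n → Lp ℝ 2 μ := fun i => indicatorConstLp 2 (hB i)
        ((measure_mono (hBb i)).trans_lt (measure_ball_lt_top (μ := μ))).ne (1:ℝ) with hw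
  have h1 : avgOp μ ε c hB hBb u =
      ∑ i, (s⁻¹ * ∫ y in Metric.ball (c i) ε, v y ∂μ) • w i := by
    unfold avgOp
    rw [ContinuousLinearMap.sum_apply]
    apply Finset.sum_congr rfl
    intro i _
    rw [ContinuousLinearMap.smul_apply, ContinuousLinearMap.smulRight_apply, smul_smul]
    congr 2
    rw [innerSL_apply_apply, L2.inner_indicatorConstLp_one]
    apply integral_congr_ae
    exact ae_restrict_of_ae hu
  rw [h1]
  have h2 : ∀ᵐ x ∂μ, ∀ i, ((s⁻¹ * ∫ y in Metric.ball (c i) ε, v y ∂μ) • w i : Lp ℝ 2 μ) x =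
      (B i).indicator (fun _ => s⁻¹ * ∫ y in Metric.ball (c i) ε, v y ∂μ) x := by
    rw [ae_all_iff]
    intro i
    filter_upwards [Lp.coeFn_smul (s⁻¹ * ∫ y in Metric.ball (c i) ε, v y ∂μ) (w i),
      indicatorConstLp_coeFn (p := 2) (hs := hB i)
        (hμs := ((measure_mono (hBb i)).trans_lt (measure_ball_lt_top (μ := μ))).ne) (c := (1:ℝ))]
      with x h3 h4
    rw [h3, Pi.smul_apply, hw, h4]
    by_cases hx : x ∈ B i
    · rw [indicator_of_mem hx, indicator_of_mem hx, smul_eq_mul, mul_one]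
    · rw [indicator_of_notMem hx, indicator_of_notMem hx, smul_zero]
  have h3 : ∀ t : Finset (Fin n), (∑ i ∈ t, (s⁻¹ * ∫ y in Metric.ball (c i) ε, v y ∂μ) • w i :
      Lp ℝ 2 μ) =ᵐ[μ] fun x => ∑ i ∈ t,
        ((s⁻¹ * ∫ y in Metric.ball (c i) ε, v y ∂μ) • w i : Lp ℝ 2 μ) x := by
    intro t
    exact Lp.coeFn_fun_finsetSum t
      (fun i => ((s⁻¹ * ∫ y in Metric.ball (c i) ε, v y ∂μ) • w i : Lp ℝ 2 μ))
  filter_upwards [h2, h3 Finset.univ] with x h4 h5
  rw [h5]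
  exact Finset.sum_congr rfl fun i _ => h4 i

/-- the finite rank operators approximate the identity on functions with bounded gradient -/
theorem approx_avgOp {n : ℕ} {ε : ℝ} (hε : 0 < ε) (c : Fin n → E)
    {B : Fin n → Set E} (hB : ∀ i, MeasurableSet (B i)) (hBb : ∀ i, B i ⊆ Metric.ball (c i) ε)
    (hd : Pairwise (Function.onFun Disjoint B))
    {v : E → ℝ} (hv : ContDiff ℝ 1 v) (hsupp : Function.support v ⊆ ⋃ i, B i) {u : Lp ℝ 2 μ}
    (hu : u =ᵐ[μ] v) (hi : Integrable (fun x => ‖fderiv ℝ v x‖ ^ 2) μ) :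
    ‖u - avgOp μ ε c hB hBb u‖ ^ 2 ≤ 2 ^ (Module.finrank ℝ E) * (2 * ε) ^ 2 *
      ∫ x, ‖fderiv ℝ v x‖ ^ 2 ∂μ := by
  set s := μ.real (Metric.ball (0:E) ε) with hs
  have hs0 : 0 < s := by
    rw [hs, Measure.real, ENNReal.toReal_pos_iff]
    exact ⟨Metric.measure_ball_pos _ _ hε, measure_ball_lt_top⟩
  set G : E → ℝ≥0∞ := fun x => ENNReal.ofReal s⁻¹ *
    ∫⁻ t in Metric.ball (0:E) (2 * ε), ENNReal.ofReal ((v (x + t) - v x) ^ 2) ∂μ with hG
  have hpt : ∀ᵐ x ∂μ, ENNReal.ofReal (((u - avgOp μ ε c hB hBb u : Lp ℝ 2 μ) x) ^ 2) ≤ G x := by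
    filter_upwards [Lp.coeFn_sub u (avgOp μ ε c hB hBb u), hu, coeFn_avgOp ε c hB hBb hu]
      with x h1 h2 h3
    rw [h1, Pi.sub_apply, h2, h3]
    by_cases hx : ∃ i, x ∈ B i
    · obtain ⟨i, hi⟩ := hx
      rw [Finset.sum_eq_single i]
      · rw [indicator_of_mem hi]
        exact avg_le hv.continuous hε (hBb i hi)
      · intro j _ hj
        apply indicator_of_notMem
        intro hxj
        exact (Set.disjoint_left.1 (hd hj)) hxj hi
      · intro h; exact absurd (Finset.mem_univ i) h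
    · push Not at hx
      have h4 : v x = 0 := by
        by_contra h
        have := hsupp h
        rw [mem_iUnion] at this
        obtain ⟨i, hi⟩ := this
        exact hx i hi
      rw [h4, Finset.sum_eq_zero fun i _ => indicator_of_notMem (hx i) _]
      simp
  set I := ∫⁻ x, ENNReal.ofReal (‖fderiv ℝ v x‖ ^ 2) ∂μ with hI
  have hIr : I = ENNReal.ofReal (∫ x, ‖fderiv ℝ v x‖ ^ 2 ∂μ) := by
    rw [ofReal_integral_eq_lintegral_ofReal hi (ae_of_all _ fun x => by positivity)]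
  have hint : ∫⁻ x, ENNReal.ofReal (((u - avgOp μ ε c hB hBb u : Lp ℝ 2 μ) x) ^ 2) ∂μ ≤
      ENNReal.ofReal (2 ^ (Module.finrank ℝ E) * (2 * ε) ^ 2 * ∫ x, ‖fderiv ℝ v x‖ ^ 2 ∂μ) := by
    calc ∫⁻ x, ENNReal.ofReal (((u - avgOp μ ε c hB hBb u : Lp ℝ 2 μ) x) ^ 2) ∂μ
        ≤ ∫⁻ x, G x ∂μ := lintegral_mono_ae hpt
      _ = ENNReal.ofReal s⁻¹ * ∫⁻ x, (∫⁻ t in Metric.ball (0:E) (2 * ε),
            ENNReal.ofReal ((v (x + t) - v x) ^ 2) ∂μ) ∂μ := by
          rw [hG, lintegral_const_mul' _ _ ENNReal.ofReal_ne_top]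
      _ = ENNReal.ofReal s⁻¹ * ∫⁻ t in Metric.ball (0:E) (2 * ε),
            (∫⁻ x, ENNReal.ofReal ((v (x + t) - v x) ^ 2) ∂μ) ∂μ := by
          congr 1
          apply lintegral_lintegral_swap
          apply Measurable.aemeasurable
          apply ENNReal.measurable_ofReal.comp
          apply Continuous.measurable
          apply Continuous.pow
          have hc := hv.continuous
          exact (hc.comp (continuous_fst.add continuous_snd)).sub (hc.comp continuous_fst)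
      _ ≤ ENNReal.ofReal s⁻¹ * ∫⁻ _t in Metric.ball (0:E) (2 * ε),
            (ENNReal.ofReal ((2 * ε) ^ 2) * I) ∂μ := by
          apply mul_le_mul_right
          apply setLIntegral_mono' measurableSet_ball
          intro t ht
          refine (transl hv t).trans ?_
          apply mul_le_mul_left
          apply ENNReal.ofReal_le_ofReal
          rw [mem_ball_zero_iff] at ht
          exact pow_le_pow_left₀ (norm_nonneg _) ht.le 2
      _ = ENNReal.ofReal s⁻¹ * (ENNReal.ofReal ((2 * ε) ^ 2) * I *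
            μ (Metric.ball (0:E) (2 * ε))) := by
          rw [lintegral_const, Measure.restrict_apply_univ]
      _ = ENNReal.ofReal s⁻¹ * (ENNReal.ofReal ((2 * ε) ^ 2) * I *
            (ENNReal.ofReal (2 ^ (Module.finrank ℝ E)) * ENNReal.ofReal s)) := by
          rw [Measure.addHaar_ball_mul_of_pos μ (0:E) (by norm_num : (0:ℝ) < 2) ε, hs, Measure.real,
            ENNReal.ofReal_toReal measure_ball_lt_top.ne]
      _ = _ := by
          rw [hIr, ← ENNReal.ofReal_mul (by positivity), ← ENNReal.ofReal_mul (by positivity),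
            ← ENNReal.ofReal_mul (by positivity), ← ENNReal.ofReal_mul (by positivity)]
          congr 1
          field_simp
  have hn : ‖u - avgOp μ ε c hB hBb u‖ ^ 2 =
      ∫ x, ((u - avgOp μ ε c hB hBb u : Lp ℝ 2 μ) x) ^ 2 ∂μ := by
    rw [← real_inner_self_eq_norm_sq, L2.inner_def]
    apply integral_congr_ae
    apply ae_of_all
    intro x
    simp only [RCLike.inner_apply, conj_trivial]
    ring
  have hmeas : AEStronglyMeasurable
      (fun x => ((u - avgOp μ ε c hB hBb u : Lp ℝ 2 μ) x) ^ 2) μ :=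
    (Lp.aestronglyMeasurable _).pow 2
  rw [hn, integral_eq_lintegral_of_nonneg_ae (ae_of_all _ fun x => by positivity) hmeas]
  apply ENNReal.toReal_le_of_le_ofReal _ hint
  have : 0 ≤ ∫ x, ‖fderiv ℝ v x‖ ^ 2 ∂μ := integral_nonneg fun x => by positivity
  positivity

end gen

variable {k d : ℕ} {Θ : Dom d}

/-- decomposition of a vector into the coordinate directions -/
lemma eq_sum_dir (Y : EE k d) :
    Y = ∑ i : Fin (k + 1), Y.1 i • dir k d (Sum.inl i) + ∑ j : Fin d, Y.2 j • dir k d (Sum.inr j) := by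
  apply Prod.ext
  · rw [Prod.fst_add, Prod.fst_sum, Prod.fst_sum]
    ext i
    simp [dir, Finset.sum_apply, Pi.single_apply]
  · rw [Prod.snd_add, Prod.snd_sum, Prod.snd_sum]
    ext j
    simp [dir, Finset.sum_apply, Pi.single_apply]

lemma norm_fderiv_sq_le (v : EE k d → ℝ) (X : EE k d) :
    ‖fderiv ℝ v X‖ ^ 2 ≤ 2 * ∑ i, pd v i X ^ 2 := by
  set S := ∑ i, pd v i X ^ 2 with hS
  have hS0 : 0 ≤ S := Finset.sum_nonneg fun _ _ => sq_nonneg _
  have h1 : ‖fderiv ℝ v X‖ ≤ Real.sqrt (2 * S) := by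
    apply ContinuousLinearMap.opNorm_le_bound _ (Real.sqrt_nonneg _)
    intro Y
    rw [Real.norm_eq_abs]
    apply abs_le_of_sq_le_sq _ (by positivity)
    rw [mul_pow, Real.sq_sqrt (by positivity)]
    have h2 : fderiv ℝ v X Y = ∑ i : Fin (k + 1) ⊕ Fin d,
        (Sum.elim (fun i => Y.1 i) (fun j => Y.2 j) i) * pd v i X := by
      rw [Fintype.sum_sum_type]
      nth_rewrite 1 [eq_sum_dir Y]
      rw [map_add, map_sum, map_sum]
      simp only [map_smul, smul_eq_mul, Sum.elim_inl, Sum.elim_inr]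
      rfl
    rw [h2]
    have h3 : (∑ i : Fin (k + 1) ⊕ Fin d,
        (Sum.elim (fun i => Y.1 i) (fun j => Y.2 j) i) * pd v i X) ^ 2 ≤
        (∑ i : Fin (k + 1) ⊕ Fin d, (Sum.elim (fun i => Y.1 i) (fun j => Y.2 j) i : ℝ) ^ 2) * S :=
      Finset.sum_mul_sq_le_sq_mul_sq _ _ _
    have h4 : (∑ i : Fin (k + 1) ⊕ Fin d, (Sum.elim (fun i => Y.1 i) (fun j => Y.2 j) i : ℝ) ^ 2) ≤
        2 * ‖Y‖ ^ 2 := by
      rw [Fintype.sum_sum_type]
      simp only [Sum.elim_inl, Sum.elim_inr]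
      have e1 : ∑ i, Y.1 i ^ 2 = ‖Y.1‖ ^ 2 := by rw [EuclideanSpace.norm_sq_eq]; simp
      have e2 : ∑ i, Y.2 i ^ 2 = ‖Y.2‖ ^ 2 := by rw [EuclideanSpace.norm_sq_eq]; simp
      rw [e1, e2]
      have e3 : ‖Y.1‖ ≤ ‖Y‖ := norm_fst_le Y
      have e4 : ‖Y.2‖ ≤ ‖Y‖ := norm_snd_le Y
      have := norm_nonneg Y.1
      have := norm_nonneg Y.2
      nlinarith
    calc _ ≤ _ := h3
      _ ≤ (2 * ‖Y‖ ^ 2) * S := mul_le_mul_of_nonneg_right h4 hS0
      _ = _ := by ring
  calc ‖fderiv ℝ v X‖ ^ 2 ≤ (Real.sqrt (2 * S)) ^ 2 := pow_le_pow_left₀ (norm_nonneg _) h1 2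
    _ = 2 * S := Real.sq_sqrt (by positivity)

instance instHaarEE : (volume : Measure (EE k d)).IsAddHaarMeasure := by
  rw [Measure.volume_eq_prod]; infer_instance

lemma integrable_fderiv_sq {v : EE k d → ℝ} (hv : ContDiff ℝ ∞ v) (hc : HasCompactSupport v) :
    Integrable (fun X => ‖fderiv ℝ v X‖ ^ 2) (volume : Measure (EE k d)) := by
  have hcont : Continuous (fderiv ℝ v) := hv.continuous_fderiv (by simp)
  have h1 : Continuous (fun X => ‖fderiv ℝ v X‖ ^ 2) := by fun_prop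
  refine h1.integrable_of_hasCompactSupport ?_
  refine HasCompactSupport.of_support_subset_isCompact hc (fun X hX => ?_)
  by_contra h
  apply hX
  have h2 : fderiv ℝ v X = 0 := by
    rw [(notMem_tsupport_iff_eventuallyEq.1 h).fderiv_eq]; simp
  show ‖fderiv ℝ v X‖ ^ 2 = 0
  rw [h2, norm_zero]; norm_num

lemma integrable_sum_pd_sq {v : EE k d → ℝ} (hv : ContDiff ℝ ∞ v) (hc : HasCompactSupport v) :
    Integrable (fun X => ∑ i, pd v i X ^ 2) (volume : Measure (EE k d)) := by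
  have h1 : Continuous (fun X => ∑ i, pd v i X ^ 2) :=
    continuous_finsetSum _ fun i _ => (continuous_pd hv i).pow 2
  refine h1.integrable_of_hasCompactSupport ?_
  refine HasCompactSupport.of_support_subset_isCompact hc (fun X hX => ?_)
  by_contra h
  apply hX
  simp [pd_eq_zero h]

lemma integral_fderiv_sq_le (φ : Tst Θ) :
    ∫ X : EE k d, ‖fderiv ℝ (lift k (φ : PP d → ℝ)) X‖ ^ 2 ≤ 2 * ‖emb k Θ φ‖ ^ 2 := by
  have h3 : ∫ X : EE k d, ‖fderiv ℝ (lift k (φ : PP d → ℝ)) X‖ ^ 2 ≤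
      ∫ X : EE k d, 2 * ∑ i, pd (lift k (φ : PP d → ℝ)) i X ^ 2 := by
    apply integral_mono (integrable_fderiv_sq (tCd φ) (tCs φ))
      ((integrable_sum_pd_sq (tCd φ) (tCs φ)).const_mul 2)
    intro X
    exact norm_fderiv_sq_le _ X
  rw [integral_const_mul, integral_gsq_lift] at h3
  rw [norm_emb]
  have : 0 ≤ ck k * n2 k (φ : PP d → ℝ) := by
    rw [← norm_io2_emb]; positivity
  linarith

lemma approx_emb {n : ℕ} {ε : ℝ} (hε : 0 < ε) (c : Fin n → EE k d)
    {B : Fin n → Set (EE k d)} (hB : ∀ i, MeasurableSet (B i))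
    (hBb : ∀ i, B i ⊆ Metric.ball (c i) ε)
    (hd : Pairwise (Function.onFun Disjoint B)) (hcov : rad k d ⁻¹' closure Θ.S ⊆ ⋃ i, B i)
    (φ : Tst Θ) :
    ‖io2 k Θ (emb k Θ φ) - avgOp volume ε c hB hBb (io2 k Θ (emb k Θ φ))‖ ≤
      Real.sqrt (2 ^ (Module.finrank ℝ (EE k d)) * 8) * ε * ‖emb k Θ φ‖ := by
  apply le_of_sq_le_sq _ (by positivity)
  have hv : ContDiff ℝ 1 (lift k (φ : PP d → ℝ)) := (tCd φ).of_le (by exact_mod_cast le_top)
  have hsupp : Function.support (lift k (φ : PP d → ℝ)) ⊆ ⋃ i, B i := by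
    refine Set.Subset.trans ?_ hcov
    intro X hX
    exact subset_closure ((tIs φ).supp (subset_tsupport _ hX))
  have h1 := approx_avgOp (μ := (volume : Measure (EE k d))) hε c hB hBb hd hv hsupp
    (coeFn_io2_emb (k := k) φ) (integrable_fderiv_sq (tCd φ) (tCs φ))
  have h2 := integral_fderiv_sq_le (k := k) φ
  refine h1.trans ?_
  have e : (Real.sqrt (2 ^ (Module.finrank ℝ (EE k d)) * 8) * ε * ‖emb k Θ φ‖) ^ 2 =
      (Real.sqrt (2 ^ (Module.finrank ℝ (EE k d)) * 8)) ^ 2 * ε ^ 2 * ‖emb k Θ φ‖ ^ 2 := by ring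
  rw [e, Real.sq_sqrt (by positivity)]
  calc 2 ^ (Module.finrank ℝ (EE k d)) * (2 * ε) ^ 2 *
        ∫ X : EE k d, ‖fderiv ℝ (lift k (φ : PP d → ℝ)) X‖ ^ 2
      ≤ 2 ^ (Module.finrank ℝ (EE k d)) * (2 * ε) ^ 2 * (2 * ‖emb k Θ φ‖ ^ 2) :=
        mul_le_mul_of_nonneg_left h2 (by positivity)
    _ = _ := by ring

/-- operators that are close on test functions are close -/
lemma norm_sub_comp_le {A : Lp ℝ 2 (volume : Measure (EE k d)) →L[ℝ]
      Lp ℝ 2 (volume : Measure (EE k d))} {C : ℝ} (hC : 0 ≤ C)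
    (h : ∀ φ : Tst Θ, ‖io2 k Θ (emb k Θ φ) - A (io2 k Θ (emb k Θ φ))‖ ≤ C * ‖emb k Θ φ‖) :
    ‖io2 k Θ - A.comp (io2 k Θ)‖ ≤ C := by
  apply ContinuousLinearMap.opNorm_le_bound _ hC
  intro u
  have hcl : IsClosed {u : VV k Θ | ‖io2 k Θ u - A (io2 k Θ u)‖ ≤ C * ‖u‖} := by
    apply isClosed_le
    · exact ((io2 k Θ).continuous.sub (A.continuous.comp (io2 k Θ).continuous)).norm
    · exact continuous_const.mul continuous_norm
  exact isClosed_property dense_emb hcl h u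

lemma isCompact_of_approx {V W : Type*} [NormedAddCommGroup V] [NormedSpace ℝ V]
    [NormedAddCommGroup W] [NormedSpace ℝ W] [CompleteSpace W] {S : V →L[ℝ] W} {C : ℝ}
    (h : ∀ ε : ℝ, 0 < ε → ∃ A : V →L[ℝ] W, IsCompactOperator A ∧ ‖S - A‖ ≤ C * ε) :
    IsCompactOperator S := by
  choose A hA1 hA2 using fun n : ℕ => h (1 / ((n:ℝ) + 1)) (by positivity)
  have hlim : Tendsto A atTop (𝓝 S) := by
    rw [tendsto_iff_norm_sub_tendsto_zero]
    have h1 : Tendsto (fun n : ℕ => C * (1 / ((n:ℝ) + 1))) atTop (𝓝 0) := by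
      have := (tendsto_one_div_add_atTop_nhds_zero_nat (𝕜 := ℝ)).const_mul C
      rwa [mul_zero] at this
    apply squeeze_zero (fun n => norm_nonneg _) _ h1
    intro n
    rw [norm_sub_rev]
    exact hA2 n
  exact isCompactOperator_of_tendsto hlim (Eventually.of_forall hA1)

/-- Rellich's theorem for `VV` -/
theorem isCompact_io2 : IsCompactOperator (io2 k Θ) := by
  have hK : IsCompact (rad k d ⁻¹' closure Θ.S) :=
    isCompact_rad_preimage (Metric.isCompact_of_isClosed_isBounded isClosed_closure Θ.bdd.closure)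
  have key : ∀ ε : ℝ, 0 < ε → ∃ A : Lp ℝ 2 (volume : Measure (EE k d)) →L[ℝ]
      Lp ℝ 2 (volume : Measure (EE k d)), IsCompactOperator A ∧
      ‖io2 k Θ - A.comp (io2 k Θ)‖ ≤ Real.sqrt (2 ^ (Module.finrank ℝ (EE k d)) * 8) * ε := by
    intro ε hε
    obtain ⟨n, c, B, hB, hBb, hd, hcov⟩ := exists_partition hK hε
    exact ⟨avgOp volume ε c hB hBb, isCompact_avgOp ε c hB hBb,
      norm_sub_comp_le (by positivity) (approx_emb hε c hB hBb hd hcov)⟩
  apply isCompact_of_approx (C := Real.sqrt (2 ^ (Module.finrank ℝ (EE k d)) * 8))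
  intro ε hε
  obtain ⟨A, hA1, hA2⟩ := key ε hε
  exact ⟨A.comp (io2 k Θ), hA1.comp_clm (io2 k Θ), hA2⟩

theorem isCompact_TT : IsCompactOperator (TT k Θ) := by
  have h := isCompact_io2 (k := k) (Θ := Θ)
  exact h.clm_comp (ContinuousLinearMap.adjoint (io2 k Θ))

end Pool.Agent.H56.BN
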