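import Mathlib
import Pool.Agent.H56.BN.Test

/-!
The Sobolev constant of the half space variables.
-/

set_option autoImplicit false
set_option maxHeartbeats 1000000

namespace Pool.Agent.H56.BN

open MeasureTheory Filter Topology
open scoped ContDiff ENNReal NNReal

variable {d : ℕ}

instance instHaarPP : (volume : Measure (PP d)).IsAddHaarMeasure := by
  rw [Measure.volume_eq_prod]; infer_instance

/-- the dual exponent -/
noncomputable def qex (d : ℕ) : ℝ := 2 * (d + 1) / (d + 3)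

lemma pex_gt (hd : 2 ≤ d) : 2 < pex d := by
  unfold pex
  have : (2:ℝ) ≤ d := by exact_mod_cast hd
  rw [lt_div_iff₀ (by linarith)]; linarith

lemma pq_conj (hd : 2 ≤ d) : (pex d).HolderConjugate (qex d) := by
  have : (2:ℝ) ≤ d := by exact_mod_cast hd
  rw [Real.holderConjugate_iff]
  refine ⟨by have := pex_gt hd; linarith, ?_⟩
  unfold pex qex
  have h1 : (d:ℝ) - 1 ≠ 0 := by linarith
  have h2 : (d:ℝ) + 3 ≠ 0 := by linarith
  have h3 : (d:ℝ) + 1 ≠ 0 := by linarith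
  field_simp
  ring

/-- decomposition into coordinate directions -/
lemma eq_sum_dirP (Y : PP d) :
    Y = Y.1 • ((1, 0) : PP d) + ∑ j : Fin d, Y.2 j • ((0, EuclideanSpace.single j 1) : PP d) := by
  apply Prod.ext
  · rw [Prod.fst_add, Prod.fst_sum]
    simp
  · rw [Prod.snd_add, Prod.snd_sum]
    ext j
    simp [Finset.sum_apply, Pi.single_apply]

lemma fderiv_apply_eq (φ : PP d → ℝ) (P Y : PP d) :
    fderiv ℝ φ P Y = Y.1 * dx φ P + ∑ j, Y.2 j * dz φ j P := by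
  nth_rewrite 1 [eq_sum_dirP Y]
  rw [map_add, map_sum]
  simp only [map_smul, smul_eq_mul]
  rfl

lemma norm_fderiv_sq_leP (φ : PP d → ℝ) (P : PP d) : ‖fderiv ℝ φ P‖ ^ 2 ≤ 2 * gsq φ P := by
  have hS0 := gsq_nonneg (φ := φ) P
  have h1 : ‖fderiv ℝ φ P‖ ≤ Real.sqrt (2 * gsq φ P) := by
    apply ContinuousLinearMap.opNorm_le_bound _ (Real.sqrt_nonneg _)
    intro Y
    rw [Real.norm_eq_abs]
    apply abs_le_of_sq_le_sq _ (by positivity)
    rw [mul_pow, Real.sq_sqrt (by positivity), fderiv_apply_eq]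
    have h3 : (∑ j, Y.2 j * dz φ j P) ^ 2 ≤ (∑ j, Y.2 j ^ 2) * ∑ j, dz φ j P ^ 2 :=
      Finset.sum_mul_sq_le_sq_mul_sq _ _ _
    have e2 : ∑ i, Y.2 i ^ 2 = ‖Y.2‖ ^ 2 := by rw [EuclideanSpace.norm_sq_eq]; simp
    rw [e2] at h3
    have e3 : |Y.1| ≤ ‖Y‖ := norm_fst_le Y
    have e4 : ‖Y.2‖ ≤ ‖Y‖ := norm_snd_le Y
    have e5 : Y.1 ^ 2 ≤ ‖Y‖ ^ 2 := by
      rw [← sq_abs]; exact pow_le_pow_left₀ (abs_nonneg _) e3 2
    have e6 : ‖Y.2‖ ^ 2 ≤ ‖Y‖ ^ 2 := pow_le_pow_left₀ (norm_nonneg _) e4 2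
    set A := ∑ j, dz φ j P ^ 2 with hA
    have hA0 : 0 ≤ A := Finset.sum_nonneg fun _ _ => sq_nonneg _
    unfold gsq
    rw [← hA]
    have h4 : (Y.1 * dx φ P) ^ 2 ≤ ‖Y‖ ^ 2 * dx φ P ^ 2 := by
      rw [mul_pow]; exact mul_le_mul_of_nonneg_right e5 (sq_nonneg _)
    have h5 : (∑ j, Y.2 j * dz φ j P) ^ 2 ≤ ‖Y‖ ^ 2 * A :=
      h3.trans (mul_le_mul_of_nonneg_right e6 hA0)
    nlinarith [sq_nonneg (Y.1 * dx φ P - ∑ j, Y.2 j * dz φ j P)]
  calc ‖fderiv ℝ φ P‖ ^ 2 ≤ (Real.sqrt (2 * gsq φ P)) ^ 2 := pow_le_pow_left₀ (norm_nonneg _) h1 2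
    _ = 2 * gsq φ P := Real.sq_sqrt (by positivity)

/-- smooth with compact support -/
abbrev CC {d : ℕ} (φ : PP d → ℝ) : Prop := IsTest Set.univ φ

lemma integrable_gsq {φ : PP d → ℝ} (h : CC φ) : Integrable (gsq φ) (volume : Measure (PP d)) := by
  refine (continuous_gsq h.smooth).integrable_of_hasCompactSupport ?_
  refine HasCompactSupport.of_support_subset_isCompact h.cpt (fun X hX => ?_)
  by_contra h'
  exact hX (gsq_eq_zero h')

lemma integrable_rpow_test {φ : PP d → ℝ} (h : CC φ) {p : ℝ} (hp : 0 < p) :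
    Integrable (fun P => |φ P| ^ p) (volume : Measure (PP d)) := by
  refine (h.continuous.abs.rpow_const fun _ => Or.inr hp.le).integrable_of_hasCompactSupport ?_
  exact h.cpt.comp_left (g := fun x : ℝ => |x| ^ p) (by simp [hp.ne'])

/-- Gagliardo-Nirenberg-Sobolev for test functions -/
theorem exists_sob (hd : 2 ≤ d) : ∃ C : ℝ, 0 < C ∧ ∀ φ : PP d → ℝ, CC φ →
    (∫ P, |φ P| ^ pex d) ^ (2 / pex d) ≤ C * ∫ P, gsq φ P := by
  have hd' : (2:ℝ) ≤ d := by exact_mod_cast hd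
  have hp2 := pex_gt hd
  have hp0 : 0 < pex d := by linarith
  set p' : ℝ≥0 := ⟨pex d, hp0.le⟩ with hp'
  set C₀ := SNormLESNormFDerivOfEqConst ℝ (volume : Measure (PP d)) 2 with hC₀
  have hfr : Module.finrank ℝ (PP d) = d + 1 := by
    rw [Module.finrank_prod, finrank_euclideanSpace, Fintype.card_fin, Module.finrank_self, add_comm]
  refine ⟨(C₀ : ℝ) ^ 2 * 2 + 1, by positivity, fun φ hφ => ?_⟩
  have h1 : ContDiff ℝ 1 φ := hφ.smooth.of_le (by exact_mod_cast le_top)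
  have h2 := eLpNorm_le_eLpNorm_fderiv_of_eq (volume : Measure (PP d)) h1 hφ.cpt
    (p := 2) (p' := p') (by norm_num) (by rw [hfr]; omega) (by
      rw [hfr]
      show (pex d)⁻¹ = ((2:ℝ≥0) : ℝ)⁻¹ - ((d + 1 : ℕ) : ℝ)⁻¹
      unfold pex
      push_cast
      have h1 : (d:ℝ) - 1 ≠ 0 := by linarith
      have h3 : (d:ℝ) + 1 ≠ 0 := by linarith
      field_simp
      ring)
  have hm1 : MemLp φ (p' : ℝ≥0∞) (volume : Measure (PP d)) :=
    hφ.continuous.memLp_of_hasCompactSupport hφ.cpt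
  have hm2 : MemLp (fderiv ℝ φ) ((2:ℝ≥0) : ℝ≥0∞) (volume : Measure (PP d)) :=
    (h1.continuous_fderiv (by norm_num)).memLp_of_hasCompactSupport (hφ.cpt.fderiv ℝ)
  have hp'0 : (p' : ℝ≥0∞) ≠ 0 := by
    rw [ENNReal.coe_ne_zero]
    intro h
    have := congrArg NNReal.toReal h
    exact hp0.ne' this
  rw [hm1.eLpNorm_eq_integral_rpow_norm hp'0 ENNReal.coe_ne_top,
    hm2.eLpNorm_eq_integral_rpow_norm (by norm_num) ENNReal.coe_ne_top] at h2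
  have e1 : (p' : ℝ≥0∞).toReal = pex d := rfl
  have e2 : (((2:ℝ≥0)) : ℝ≥0∞).toReal = 2 := by norm_num
  rw [e1, e2] at h2
  simp only [Real.norm_eq_abs, Real.rpow_two] at h2
  set A := ∫ P, |φ P| ^ pex d with hA
  set G := ∫ P, ‖fderiv ℝ φ P‖ ^ 2 with hG
  have hA0 : 0 ≤ A := integral_nonneg fun P => Real.rpow_nonneg (abs_nonneg _) _
  have hG0 : 0 ≤ G := integral_nonneg fun P => by positivity
  have h3 : A ^ (pex d)⁻¹ ≤ C₀ * G ^ (2:ℝ)⁻¹ := by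
    have h4 : ENNReal.ofReal (A ^ (pex d)⁻¹) ≤ ENNReal.ofReal (C₀ * G ^ (2:ℝ)⁻¹) := by
      rw [ENNReal.ofReal_mul (by positivity)]
      refine h2.trans (le_of_eq ?_)
      congr 1
      exact (ENNReal.ofReal_coe_nnreal).symm
    exact (ENNReal.ofReal_le_ofReal_iff (by positivity)).1 h4
  have h5 : A ^ (2 / pex d) ≤ (C₀:ℝ) ^ 2 * G := by
    have e3 : A ^ (2 / pex d) = (A ^ (pex d)⁻¹) ^ 2 := by
      rw [← Real.rpow_two, ← Real.rpow_mul hA0]; congr 1; field_simp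
    have e4 : (G ^ (2:ℝ)⁻¹) ^ 2 = G := by
      rw [← Real.rpow_two, ← Real.rpow_mul hG0]; norm_num
    have h6 : 0 ≤ A ^ (pex d)⁻¹ := by positivity
    calc A ^ (2 / pex d) = (A ^ (pex d)⁻¹) ^ 2 := e3
      _ ≤ (C₀ * G ^ (2:ℝ)⁻¹) ^ 2 := pow_le_pow_left₀ h6 h3 2
      _ = (C₀:ℝ) ^ 2 * (G ^ (2:ℝ)⁻¹) ^ 2 := by ring
      _ = _ := by rw [e4]
  have h7 : G ≤ 2 * ∫ P, gsq φ P := by
    rw [hG, ← integral_const_mul]
    have hi : Integrable (fun P => ‖fderiv ℝ φ P‖ ^ 2) (volume : Measure (PP d)) := by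
      have hcont : Continuous (fderiv ℝ φ) := h1.continuous_fderiv (by norm_num)
      have hc2 : Continuous (fun X => ‖fderiv ℝ φ X‖ ^ 2) := by fun_prop
      refine hc2.integrable_of_hasCompactSupport ?_
      exact (hφ.cpt.fderiv ℝ).comp_left (g := fun y => ‖y‖ ^ 2) (by simp)
    exact integral_mono hi ((integrable_gsq hφ).const_mul 2) fun P => norm_fderiv_sq_leP φ P
  have h8 : 0 ≤ ∫ P, gsq φ P := integral_nonneg fun P => gsq_nonneg P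
  calc A ^ (2 / pex d) ≤ (C₀:ℝ) ^ 2 * G := h5
    _ ≤ (C₀:ℝ) ^ 2 * (2 * ∫ P, gsq φ P) := mul_le_mul_of_nonneg_left h7 (by positivity)
    _ ≤ _ := by nlinarith

/-- the Sobolev constant -/
noncomputable def SS (d : ℕ) : ℝ :=
  sInf {s : ℝ | ∃ φ : PP d → ℝ, CC φ ∧ 0 < (∫ P, |φ P| ^ pex d) ∧
    s = (∫ P, gsq φ P) / (∫ P, |φ P| ^ pex d) ^ (2 / pex d)}

lemma exists_test_pos (hd : 2 ≤ d) : ∃ φ : PP d → ℝ, CC φ ∧ 0 < (∫ P, |φ P| ^ pex d) := by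
  have hp0 : 0 < pex d := by have := pex_gt hd; linarith
  obtain ⟨f, hf1, hf2, hf3, -, hf5⟩ := exists_contDiff_tsupport_subset (n := ⊤)
    (s := (Set.univ : Set (PP d))) (x := 0) Filter.univ_mem
  have hcc : CC f := ⟨by exact_mod_cast hf3, hf2, hf1⟩
  refine ⟨f, hcc, ?_⟩
  rw [integral_pos_iff_support_of_nonneg (fun P => Real.rpow_nonneg (abs_nonneg _) _)
    (integrable_rpow_test hcc hp0)]
  have hcont : Continuous fun P => |f P| ^ pex d :=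
    hcc.continuous.abs.rpow_const fun _ => Or.inr hp0.le
  refine hcont.isOpen_support.measure_pos volume ⟨0, ?_⟩
  show |f 0| ^ pex d ≠ 0
  rw [hf5]; simp

lemma SS_bdd : BddBelow {s : ℝ | ∃ φ : PP d → ℝ, CC φ ∧ 0 < (∫ P, |φ P| ^ pex d) ∧
    s = (∫ P, gsq φ P) / (∫ P, |φ P| ^ pex d) ^ (2 / pex d)} := by
  refine ⟨0, ?_⟩
  rintro s ⟨φ, -, h1, rfl⟩
  have : 0 ≤ ∫ P, gsq φ P := integral_nonneg fun P => gsq_nonneg P
  positivity

lemma SS_pos (hd : 2 ≤ d) : 0 < SS d := by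
  obtain ⟨C, hC, h⟩ := exists_sob hd
  obtain ⟨φ₀, h₀, h₀'⟩ := exists_test_pos hd
  have : 1 / C ≤ SS d := by
    unfold SS
    refine le_csInf ⟨_, φ₀, h₀, h₀', rfl⟩ ?_
    rintro s ⟨φ, h1, h2, rfl⟩
    have h3 : 0 < (∫ P, |φ P| ^ pex d) ^ (2 / pex d) := Real.rpow_pos_of_pos h2 _
    rw [div_le_div_iff₀ hC h3, one_mul, mul_comm]
    exact h φ h1
  exact (by positivity : (0:ℝ) < 1 / C).trans_le this

/-- the Sobolev inequality -/
lemma SS_le (hd : 2 ≤ d) {φ : PP d → ℝ} (h : CC φ) :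
    SS d * (∫ P, |φ P| ^ pex d) ^ (2 / pex d) ≤ ∫ P, gsq φ P := by
  have hp0 : 0 < pex d := by have := pex_gt hd; linarith
  have h0 : 0 ≤ ∫ P, |φ P| ^ pex d := integral_nonneg fun P => Real.rpow_nonneg (abs_nonneg _) _
  rcases h0.eq_or_lt with h1 | h1
  · rw [← h1, Real.zero_rpow (by positivity), mul_zero]
    exact integral_nonneg fun P => gsq_nonneg P
  · have h3 : 0 < (∫ P, |φ P| ^ pex d) ^ (2 / pex d) := Real.rpow_pos_of_pos h1 _
    rw [← le_div_iff₀ h3]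
    exact csInf_le SS_bdd ⟨φ, h, h1, rfl⟩

/-- almost optimal test functions -/
lemma SS_near (hd : 2 ≤ d) {η : ℝ} (hη : 0 < η) :
    ∃ φ : PP d → ℝ, CC φ ∧ 0 < (∫ P, |φ P| ^ pex d) ∧
      ∫ P, gsq φ P < (SS d + η) * (∫ P, |φ P| ^ pex d) ^ (2 / pex d) := by
  obtain ⟨φ₀, h₀, h₀'⟩ := exists_test_pos hd
  obtain ⟨s, ⟨φ, h1, h2, rfl⟩, h3⟩ := exists_lt_of_csInf_lt (s := {s : ℝ | ∃ φ : PP d → ℝ,
    CC φ ∧ 0 < (∫ P, |φ P| ^ pex d) ∧
    s = (∫ P, gsq φ P) / (∫ P, |φ P| ^ pex d) ^ (2 / pex d)}) ⟨_, φ₀, h₀, h₀', rfl⟩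
    (show SS d < SS d + η by linarith)
  refine ⟨φ, h1, h2, ?_⟩
  rwa [div_lt_iff₀ (Real.rpow_pos_of_pos h2 _)] at h3

end Pool.Agent.H56.BN
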