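import Mathlib
import Pool.Agent.H56.BN.Sob
import Pool.Agent.H56.BN.Rellich2
import Pool.Agent.H56.BN.LpFacts

/-!
The embedding into the critical Lebesgue space.
-/

set_option autoImplicit false
set_option maxHeartbeats 1000000

namespace Pool.Agent.H56.BN

open MeasureTheory Filter Topology Set
open scoped ContDiff InnerProductSpace ENNReal

variable {k d : ℕ} {Θ : Dom d} {p : ℝ}

lemma tCC (φ : Tst Θ) : CC (φ : PP d → ℝ) := (tIs φ).mono (Set.subset_univ _)

lemma memLp_lift (r : ℝ≥0∞) (φ : Tst Θ) : MemLp (lift k (φ : PP d → ℝ)) r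
    (volume : Measure (EE k d)) :=
  (tCd φ).continuous.memLp_of_hasCompactSupport (tCs φ)

/-- lifts of test functions as elements of `L^p` -/
noncomputable def vecp (k : ℕ) {d : ℕ} (Θ : Dom d) (p : ℝ) :
    Tst Θ →ₗ[ℝ] LL p (volume : Measure (EE k d)) where
  toFun φ := (memLp_lift (k := k) (ENNReal.ofReal p) φ).toLp _
  map_add' φ ψ := by
    rw [← MemLp.toLp_add]
    apply MemLp.toLp_congr
    exact ae_of_all _ fun X => rfl
  map_smul' c φ := by
    rw [RingHom.id_apply, ← MemLp.toLp_const_smul]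
    apply MemLp.toLp_congr
    exact ae_of_all _ fun X => rfl

lemma coeFn_vecp (φ : Tst Θ) : vecp k Θ p φ =ᵐ[volume] lift k (φ : PP d → ℝ) :=
  MemLp.coeFn_toLp (memLp_lift (k := k) (ENNReal.ofReal p) φ)

lemma norm_vecp (hp : 1 < p) (φ : Tst Θ) :
    ‖vecp k Θ p φ‖ ^ p = ck k * npp k p (φ : PP d → ℝ) := by
  rw [norm_rpow hp, ← integral_lift_rpow (by linarith)]
  apply integral_congr_ae
  filter_upwards [coeFn_vecp (k := k) (p := p) φ] with X hX
  rw [hX]

/-- the embedding into `L^p` (zero if there is no such embedding) -/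
noncomputable def iop (k : ℕ) {d : ℕ} (Θ : Dom d) (p : ℝ) [Fact (1 < p)] :
    VV k Θ →L[ℝ] LL p (volume : Measure (EE k d)) :=
  (vecp k Θ p).extendOfNorm (emb k Θ)

/-- the condition that `VV` embeds into `L^p` -/
def HasEmb (k : ℕ) {d : ℕ} (Θ : Dom d) (p : ℝ) [Fact (1 < p)] : Prop :=
  ∃ C : ℝ, ∀ φ : Tst Θ, ‖vecp k Θ p φ‖ ≤ C * ‖emb k Θ φ‖

lemma iop_emb [Fact (1 < p)] (h : HasEmb k Θ p) (φ : Tst Θ) :
    iop k Θ p (emb k Θ φ) = vecp k Θ p φ :=
  LinearMap.extendOfNorm_eq dense_emb h φ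

lemma exists_seq_emb (u : VV k Θ) :
    ∃ φ : ℕ → Tst Θ, Tendsto (fun j => emb k Θ (φ j)) atTop (𝓝 u) := by
  have h1 : u ∈ closure (Set.range (emb k Θ)) := dense_emb u
  obtain ⟨x, hx, hlim⟩ := mem_closure_iff_seq_limit.1 h1
  choose φ hφ using hx
  refine ⟨φ, ?_⟩
  have : (fun j => emb k Θ (φ j)) = x := funext hφ
  rw [this]; exact hlim

lemma ae_subseq' {α : Type*} [MeasurableSpace α] {μ : Measure α} {r : ℝ≥0∞} [Fact (1 ≤ r)]
    (hr : r ≠ 0) {f : ℕ → Lp ℝ r μ} {g : Lp ℝ r μ} (hf : Tendsto f atTop (𝓝 g)) :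
    ∃ φ : ℕ → ℕ, StrictMono φ ∧ ∀ᵐ x ∂μ, Tendsto (fun j => (f (φ j)) x) atTop (𝓝 (g x)) := by
  have h1 := tendstoInMeasure_of_tendsto_Lp hf
  exact h1.exists_seq_tendsto_ae

lemma coeFn_iop [Fact (1 < p)] (h : HasEmb k Θ p) (u : VV k Θ) :
    iop k Θ p u =ᵐ[volume] io2 k Θ u := by
  have hp : 1 < p := Fact.out
  obtain ⟨φ, hφ⟩ := exists_seq_emb u
  have h1 : Tendsto (fun j => vecp k Θ p (φ j)) atTop (𝓝 (iop k Θ p u)) := by
    have := ((iop k Θ p).continuous.tendsto u).comp hφ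
    refine this.congr (fun j => ?_)
    rw [Function.comp_apply, iop_emb h]
  obtain ⟨a, ha, hae⟩ := ae_subseq' (ofReal_ne_zero' hp) h1
  have h2 : Tendsto (fun j => io2 k Θ (emb k Θ (φ (a j)))) atTop (𝓝 (io2 k Θ u)) :=
    ((io2 k Θ).continuous.tendsto u).comp (hφ.comp ha.tendsto_atTop)
  obtain ⟨b, hb, hbe⟩ := ae_subseq' (by norm_num) h2
  have h3 : ∀ᵐ X ∂(volume : Measure (EE k d)), ∀ j, (vecp k Θ p (φ (a (b j)))) X =
      (io2 k Θ (emb k Θ (φ (a (b j))))) X := by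
    rw [ae_all_iff]
    intro j
    filter_upwards [coeFn_vecp (k := k) (p := p) (φ (a (b j))),
      coeFn_io2_emb (k := k) (φ (a (b j)))] with X h4 h5
    rw [h4, h5]
  filter_upwards [hae, hbe, h3] with X h4 h5 h6
  have h7 : Tendsto (fun j => (vecp k Θ p (φ (a (b j)))) X) atTop (𝓝 (iop k Θ p u X)) :=
    h4.comp hb.tendsto_atTop
  have h8 : Tendsto (fun j => (vecp k Θ p (φ (a (b j)))) X) atTop (𝓝 (io2 k Θ u X)) :=
    h5.congr fun j => (h6 j).symm
  exact tendsto_nhds_unique h7 h8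

/-- bounded sequences have a subsequence that converges almost everywhere -/
lemma iop_ae [Fact (1 < p)] (h : HasEmb k Θ p) (v : ℕ → VV k Θ) (R : ℝ) (hR : ∀ j, ‖v j‖ ≤ R) :
    ∃ φ : ℕ → ℕ, StrictMono φ ∧ ∃ w : EE k d → ℝ,
      ∀ᵐ x, Tendsto (fun j => (iop k Θ p (v (φ j))) x) atTop (𝓝 (w x)) := by
  obtain ⟨S, hS, hsub⟩ := IsCompactOperator.image_closedBall_subset_compact
    (f := (io2 k Θ : VV k Θ →ₗ[ℝ] Lp ℝ 2 (volume : Measure (EE k d))))
    (isCompact_io2 (k := k) (Θ := Θ)) R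
  have hmem : ∀ j, io2 k Θ (v j) ∈ S := fun j => hsub ⟨v j, by simpa using hR j, rfl⟩
  obtain ⟨a, -, φ, hφ, hlim⟩ := hS.tendsto_subseq hmem
  obtain ⟨b, hb, hbe⟩ := ae_subseq' (by norm_num) hlim
  refine ⟨φ ∘ b, hφ.comp hb, a, ?_⟩
  have h3 : ∀ᵐ X ∂(volume : Measure (EE k d)), ∀ j, (iop k Θ p (v j)) X = (io2 k Θ (v j)) X := by
    rw [ae_all_iff]
    intro j
    exact coeFn_iop h (v j)
  filter_upwards [hbe, h3] with X h4 h5
  refine h4.congr fun j => ?_
  exact (h5 _).symm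

/-- domains away from the axis -/
lemma npp_le (hd : 2 ≤ d) {a b : ℝ} (ha : 0 < a) (hΘa : ∀ P ∈ Θ.S, a ≤ P.1)
    (hΘb : ∀ P ∈ Θ.S, P.1 ≤ b) (φ : Tst Θ) :
    SS d * (a ^ k / (b ^ k) ^ (2 / pex d)) * (npp k (pex d) (φ : PP d → ℝ)) ^ (2 / pex d) ≤
      q0 k (φ : PP d → ℝ) := by
  have hp0 : 0 < pex d := by have := pex_gt hd; linarith
  have hcc := tCC φ
  by_cases hb : b ≤ 0
  · -- the set is empty
    have h1 : (φ : PP d → ℝ) = fun _ => 0 := by
      funext P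
      by_contra h
      have hP : P ∈ Θ.S := by
        by_contra h'
        exact h ((tIs φ).eq_zero h')
      have := hΘa P hP
      have := hΘb P hP
      linarith
    have h2 : npp k (pex d) (φ : PP d → ℝ) = 0 := by
      unfold npp
      rw [h1]
      simp [hp0.ne']
    rw [h2, Real.zero_rpow (by positivity), mul_zero]
    unfold q0
    apply integral_nonneg
    intro P
    by_cases hP : P ∈ Θ.S
    · have := hΘa P hP
      have hP0 : 0 ≤ P.1 := by linarith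
      exact mul_nonneg (by positivity) (gsq_nonneg P)
    · have : P ∉ tsupport (φ : PP d → ℝ) := fun h => hP ((tIs φ).supp h)
      show 0 ≤ P.1 ^ k * gsq (φ : PP d → ℝ) P
      rw [gsq_eq_zero this, mul_zero]
  push Not at hb
  have h1 : a ^ k * ∫ P, gsq (φ : PP d → ℝ) P ≤ q0 k (φ : PP d → ℝ) := by
    unfold q0
    rw [← integral_const_mul]
    apply integral_mono ((integrable_gsq hcc).const_mul _)
    · refine Continuous.integrable_of_hasCompactSupport ((continuous_fst.pow k).mul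
        (continuous_gsq hcc.smooth)) ?_
      refine HasCompactSupport.of_support_subset_isCompact hcc.cpt (fun X hX => ?_)
      by_contra h'
      apply hX
      show X.1 ^ k * gsq (φ : PP d → ℝ) X = 0
      rw [gsq_eq_zero h', mul_zero]
    · intro P
      show a ^ k * gsq (φ : PP d → ℝ) P ≤ P.1 ^ k * gsq (φ : PP d → ℝ) P
      by_cases hP : P ∈ Θ.S
      · exact mul_le_mul_of_nonneg_right (pow_le_pow_left₀ ha.le (hΘa P hP) k) (gsq_nonneg P)
      · have : P ∉ tsupport (φ : PP d → ℝ) := fun h => hP ((tIs φ).supp h)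
        rw [gsq_eq_zero this, mul_zero, mul_zero]
  have h2 : npp k (pex d) (φ : PP d → ℝ) ≤ b ^ k * ∫ P, |(φ : PP d → ℝ) P| ^ pex d := by
    unfold npp
    rw [← integral_const_mul]
    apply integral_mono _ ((integrable_rpow_test hcc hp0).const_mul _)
    · intro P
      show P.1 ^ k * |(φ : PP d → ℝ) P| ^ pex d ≤ b ^ k * |(φ : PP d → ℝ) P| ^ pex d
      by_cases hP : P ∈ Θ.S
      · have h3 := hΘa P hP
        exact mul_le_mul_of_nonneg_right (pow_le_pow_left₀ (by linarith) (hΘb P hP) k)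
          (Real.rpow_nonneg (abs_nonneg _) _)
      · rw [(tIs φ).eq_zero hP, abs_zero, Real.zero_rpow hp0.ne', mul_zero, mul_zero]
    · refine Continuous.integrable_of_hasCompactSupport ((continuous_fst.pow k).mul
        (hcc.continuous.abs.rpow_const fun _ => Or.inr hp0.le)) ?_
      exact (hcc.cpt.comp_left (g := fun x : ℝ => |x| ^ pex d) (by simp [hp0.ne'])).mul_left
  have h3 := SS_le hd hcc
  have hn0 : 0 ≤ npp k (pex d) (φ : PP d → ℝ) := by
    have h4 : 0 ≤ ck k * npp k (pex d) (φ : PP d → ℝ) := by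
      rw [← integral_lift_rpow hp0]
      exact integral_nonneg fun X => Real.rpow_nonneg (abs_nonneg _) _
    exact nonneg_of_mul_nonneg_right h4 (ck_pos k)
  have hI0 : 0 ≤ ∫ P, |(φ : PP d → ℝ) P| ^ pex d :=
    integral_nonneg fun P => Real.rpow_nonneg (abs_nonneg _) _
  have h4 : (npp k (pex d) (φ : PP d → ℝ)) ^ (2 / pex d) ≤
      (b ^ k) ^ (2 / pex d) * (∫ P, |(φ : PP d → ℝ) P| ^ pex d) ^ (2 / pex d) := by
    rw [← Real.mul_rpow (by positivity) hI0]
    exact Real.rpow_le_rpow hn0 h2 (by positivity)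
  have hS := SS_pos hd
  have hbk : 0 < (b ^ k) ^ (2 / pex d) := by positivity
  calc SS d * (a ^ k / (b ^ k) ^ (2 / pex d)) * (npp k (pex d) (φ : PP d → ℝ)) ^ (2 / pex d)
      ≤ SS d * (a ^ k / (b ^ k) ^ (2 / pex d)) *
        ((b ^ k) ^ (2 / pex d) * (∫ P, |(φ : PP d → ℝ) P| ^ pex d) ^ (2 / pex d)) :=
        mul_le_mul_of_nonneg_left h4 (by positivity)
    _ = a ^ k * (SS d * (∫ P, |(φ : PP d → ℝ) P| ^ pex d) ^ (2 / pex d)) := by
        field_simp
    _ ≤ a ^ k * ∫ P, gsq (φ : PP d → ℝ) P := mul_le_mul_of_nonneg_left h3 (by positivity)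
    _ ≤ _ := h1

lemma npp_nonneg (hd : 2 ≤ d) (φ : Tst Θ) : 0 ≤ npp k (pex d) (φ : PP d → ℝ) := by
  have hp0 : 0 < pex d := by have := pex_gt hd; linarith
  have h4 : 0 ≤ ck k * npp k (pex d) (φ : PP d → ℝ) := by
    rw [← integral_lift_rpow hp0]
    exact integral_nonneg fun X => Real.rpow_nonneg (abs_nonneg _) _
  exact nonneg_of_mul_nonneg_right h4 (ck_pos k)

lemma n2_nonneg (φ : Tst Θ) : 0 ≤ n2 k (φ : PP d → ℝ) := by
  have h1 : 0 ≤ ck k * n2 k (φ : PP d → ℝ) := by rw [← norm_io2_emb]; positivity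
  exact nonneg_of_mul_nonneg_right h1 (ck_pos k)

end Pool.Agent.H56.BN
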