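import Mathlib
import Pool.Agent.H56.BN.Rellich2
import Pool.Agent.H56.BN.Spec4

/-!
Eigenvalues and test functions.
-/

set_option autoImplicit false
set_option maxHeartbeats 1000000

namespace Pool.Agent.H56.BN

open MeasureTheory Filter Topology Set
open scoped ContDiff InnerProductSpace ENNReal

variable {k d : ℕ} {Θ Θ' : Dom d}

lemma emb_injective : Function.Injective (emb k Θ) := by
  rw [← LinearMap.ker_eq_bot, LinearMap.ker_eq_bot']
  intro φ h
  have h1 : lift k (φ : PP d → ℝ) =ᵐ[volume] (0 : EE k d → ℝ) := by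
    have h2 := coeFn_io2_emb (k := k) φ
    rw [h, map_zero] at h2
    filter_upwards [h2, Lp.coeFn_zero ℝ 2 (volume : Measure (EE k d))] with X h3 h4
    rw [← h3, h4]
  have h2 : lift k (φ : PP d → ℝ) = (0 : EE k d → ℝ) :=
    (tCd φ).continuous.ae_eq_iff_eq volume continuous_zero |>.1 h1
  apply Subtype.ext
  funext P
  by_cases hP : P ∈ Θ.S
  · have hp : 0 < P.1 := Θ.pos hP
    have h3 := congrFun h2 ((EuclideanSpace.single 0 P.1, P.2) : EE k d)
    unfold lift at h3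
    simp only [EuclideanSpace.norm_single, Real.norm_eq_abs, abs_of_pos hp] at h3
    exact h3
  · exact (tIs φ).eq_zero hP

lemma TT_emb (φ : Tst Θ) : ⟪TT k Θ (emb k Θ φ), emb k Θ φ⟫_ℝ = ck k * n2 k (φ : PP d → ℝ) := by
  rw [inner_TT_self, norm_io2_emb]

lemma form_iff (φ : Tst Θ) (l : ℝ) :
    ‖emb k Θ φ‖ ^ 2 ≤ (l + 1) * ⟪TT k Θ (emb k Θ φ), emb k Θ φ⟫_ℝ ↔
      q0 k (φ : PP d → ℝ) ≤ l * n2 k (φ : PP d → ℝ) := by
  rw [norm_emb, TT_emb]
  have hc := ck_pos k
  constructor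
  · intro h
    have : ck k * q0 k (φ : PP d → ℝ) ≤ ck k * (l * n2 k (φ : PP d → ℝ)) := by linarith
    exact le_of_mul_le_mul_left this hc
  · intro h
    have : ck k * q0 k (φ : PP d → ℝ) ≤ ck k * (l * n2 k (φ : PP d → ℝ)) :=
      mul_le_mul_of_nonneg_left h hc.le
    linarith

/-- existence of `m`-dimensional spaces of test functions with small quotients -/
def Fam (k : ℕ) {d : ℕ} (S : Set (PP d)) (m : ℕ) (l : ℝ) : Prop :=
  ∃ φ : Fin m → (PP d → ℝ), (∀ i, IsTest S (φ i)) ∧ LinearIndependent ℝ φ ∧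
    ∀ c : Fin m → ℝ, q0 k (∑ i, c i • φ i) ≤ l * n2 k (∑ i, c i • φ i)

lemma Fam.mono {S S' : Set (PP d)} {m : ℕ} {l : ℝ} (h : Fam k S m l) (hS : S ⊆ S') :
    Fam k S' m l := by
  obtain ⟨φ, h1, h2, h3⟩ := h
  exact ⟨φ, fun i => (h1 i).mono hS, h2, h3⟩

lemma le_NN_of_Fam {m : ℕ} {l : ℝ} (hl : 0 ≤ l) (h : Fam k Θ.S m l) : m ≤ NN (TT k Θ) l := by
  obtain ⟨φ, h1, h2, h3⟩ := h
  set ψ : Fin m → Tst Θ := fun i => ⟨φ i, h1 i⟩ with hψ
  have hli : LinearIndependent ℝ ψ := by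
    apply LinearIndependent.of_comp (Tst Θ).subtype
    exact h2
  have hli2 : LinearIndependent ℝ (fun i => emb k Θ (ψ i)) :=
    hli.map' (emb k Θ) (LinearMap.ker_eq_bot.2 emb_injective)
  apply le_NN_of_family isCompact_TT TT_symm TT_nonneg hl hli2
  intro c
  have e : ∑ i, c i • emb k Θ (ψ i) = emb k Θ (∑ i, c i • ψ i) := by
    rw [map_sum]; simp
  rw [e, form_iff]
  have e2 : ((∑ i, c i • ψ i : Tst Θ) : PP d → ℝ) = ∑ i, c i • φ i := by
    rw [Submodule.coe_sum]; rfl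
  rw [e2]
  exact h3 c

lemma Fam_of_le_NN {m : ℕ} {l l' : ℝ} (hl : 0 ≤ l) (hll : l < l') (h : m ≤ NN (TT k Θ) l) :
    Fam k Θ.S m l' := by
  obtain ⟨b, h1, h2, h3⟩ := family_of_le_NN isCompact_TT TT_symm
    (dense_emb (k := k) (Θ := Θ)) hl hll h
  choose ψ hψ using h1
  have hb : b = fun i => emb k Θ (ψ i) := funext fun i => (hψ i).symm
  refine ⟨fun i => (ψ i : PP d → ℝ), fun i => tIs (ψ i), ?_, ?_⟩
  · have h4 : LinearIndependent ℝ ψ := by
      apply LinearIndependent.of_comp (emb k Θ)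
      rw [hb] at h2
      exact h2
    exact h4.map' (Tst Θ).subtype (Submodule.ker_subtype _)
  · intro c
    have h5 := h3 c
    have e : ∑ i, c i • b i = emb k Θ (∑ i, c i • ψ i) := by
      rw [map_sum]
      apply Finset.sum_congr rfl
      intro i _
      rw [map_smul, hψ]
    rw [e, form_iff] at h5
    have e2 : ((∑ i, c i • ψ i : Tst Θ) : PP d → ℝ) = ∑ i, c i • (ψ i : PP d → ℝ) := by
      rw [Submodule.coe_sum]; rfl
    rw [e2] at h5
    exact h5

/-- disjointly supported families -/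
lemma le_NN_of_disjoint {m : ℕ} {l : ℝ} (hl : 0 ≤ l) (φ : Fin m → Tst Θ)
    (hd : ∀ i j, i ≠ j → Disjoint (tsupport (φ i : PP d → ℝ)) (tsupport (φ j : PP d → ℝ)))
    (h0 : ∀ i, φ i ≠ 0) (h : ∀ i, q0 k (φ i : PP d → ℝ) ≤ l * n2 k (φ i : PP d → ℝ)) :
    m ≤ NN (TT k Θ) l := by
  set b : Fin m → VV k Θ := fun i => emb k Θ (φ i) with hb
  have hb0 : ∀ i, b i ≠ 0 := fun i hi => h0 i (emb_injective (by rw [map_zero]; exact hi))
  have hX : ∀ i j, i ≠ j → ∀ X : EE k d,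
      jet (lift k (φ i : PP d → ℝ)) X = 0 ∨ jet (lift k (φ j : PP d → ℝ)) X = 0 := by
    intro i j hij X
    have hz : ∀ i', rad k d X ∉ tsupport (φ i' : PP d → ℝ) →
        jet (lift k (φ i' : PP d → ℝ)) X = 0 := by
      intro i' h1
      have h2 : X ∉ tsupport (lift k (φ i' : PP d → ℝ)) := fun h3 => h1 (tsupport_lift_subset h3)
      unfold jet
      have h3 : (fun o : CI k d => o.elim (lift k (φ i' : PP d → ℝ) X)
          (fun i => pd (lift k (φ i' : PP d → ℝ)) i X)) = 0 := by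
        funext o
        rcases o with _ | o
        · exact image_eq_zero_of_notMem_tsupport (f := lift k (φ i' : PP d → ℝ)) h2
        · exact pd_eq_zero h2 o
      rw [h3]; rfl
    by_cases h1 : rad k d X ∈ tsupport (φ i : PP d → ℝ)
    · right
      exact hz j fun h2 => Set.disjoint_left.1 (hd i j hij) h1 h2
    · left; exact hz i h1
  have ho1 : ∀ i j, i ≠ j → ⟪b i, b j⟫_ℝ = 0 := by
    intro i j hij
    have h1 : ⟪b i, b j⟫_ℝ = ⟪vec k Θ (φ i), vec k Θ (φ j)⟫_ℝ := rfl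
    rw [h1, L2.inner_def]
    rw [← integral_zero (EE k d) ℝ]
    apply integral_congr_ae
    filter_upwards [coeFn_vec (k := k) (φ i), coeFn_vec (k := k) (φ j)] with X h2 h3
    rw [h2, h3]
    rcases hX i j hij X with h4 | h4
    · rw [h4, inner_zero_left]
    · rw [h4, inner_zero_right]
  have ho2 : ∀ i j, i ≠ j → ⟪TT k Θ (b i), b j⟫_ℝ = 0 := by
    intro i j hij
    rw [inner_TT, inner_io2]
    rw [← integral_zero (EE k d) ℝ]
    apply integral_congr_ae
    filter_upwards [coeFn_io2_emb (k := k) (φ i), coeFn_io2_emb (k := k) (φ j)] with X h2 h3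
    rw [h2, h3]
    have e : ∀ i', lift k (φ i' : PP d → ℝ) X = (jet (lift k (φ i' : PP d → ℝ)) X) none :=
      fun _ => rfl
    rcases hX i j hij X with h4 | h4
    · rw [e i, h4]; simp
    · rw [e j, h4]; simp
  exact le_NN_of_orth isCompact_TT TT_symm TT_nonneg hl hb0 ho1 ho2
    (fun i => (form_iff (φ i) l).2 (h i))

lemma n2_pos {φ : Tst Θ} (h : φ ≠ 0) : 0 < n2 k (φ : PP d → ℝ) := by
  have h1 : 0 ≤ ck k * n2 k (φ : PP d → ℝ) := by rw [← norm_io2_emb]; positivity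
  have h2 : 0 ≤ n2 k (φ : PP d → ℝ) := nonneg_of_mul_nonneg_right h1 (ck_pos k)
  rcases h2.eq_or_lt with h3 | h3
  · exfalso
    have h4 := norm_io2_emb (k := k) φ
    rw [← h3, mul_zero] at h4
    have h5 : io2 k Θ (emb k Θ φ) = 0 := by
      rw [← norm_eq_zero]
      exact pow_eq_zero_iff (by norm_num) |>.1 h4
    have h6 : lift k (φ : PP d → ℝ) =ᵐ[volume] (0 : EE k d → ℝ) := by
      have h2 := coeFn_io2_emb (k := k) φ
      rw [h5] at h2
      filter_upwards [h2, Lp.coeFn_zero ℝ 2 (volume : Measure (EE k d))] with X h3 h4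
      rw [← h3, h4]
    apply h
    apply emb_injective (k := k)
    rw [map_zero]
    have h7 : ‖emb k Θ φ‖ ^ 2 = 0 := by
      rw [norm_emb, ← integral_gsq_lift, ← integral_lift_sq]
      have h8 : lift k (φ : PP d → ℝ) = (0 : EE k d → ℝ) :=
        (tCd φ).continuous.ae_eq_iff_eq volume continuous_zero |>.1 h6
      rw [h8]
      simp [pd]
    rw [← norm_eq_zero]
    exact pow_eq_zero_iff (by norm_num) |>.1 h7
  · exact h3

lemma q0_nonneg (φ : Tst Θ) : 0 ≤ q0 k (φ : PP d → ℝ) := by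
  have h1 : 0 ≤ ck k * q0 k (φ : PP d → ℝ) := by
    rw [← integral_gsq_lift]
    exact integral_nonneg fun X => Finset.sum_nonneg fun _ _ => sq_nonneg _
  exact nonneg_of_mul_nonneg_right h1 (ck_pos k)

/-- bump functions in open sets -/
lemma exists_bump {U : Set (PP d)} (hU : IsOpen U) (hne : U.Nonempty) :
    ∃ φ : PP d → ℝ, IsTest U φ ∧ φ ≠ 0 := by
  obtain ⟨x, hx⟩ := hne
  obtain ⟨f, hf1, hf2, hf3, -, hf5⟩ := exists_contDiff_tsupport_subset (n := ⊤)
    (hU.mem_nhds hx)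
  refine ⟨f, ⟨by exact_mod_cast hf3, hf2, hf1⟩, ?_⟩
  intro h
  rw [h] at hf5
  simp at hf5

/-- there are infinitely many eigenvalues -/
theorem TT_inf (hne : (interior Θ.S).Nonempty) (m : ℕ) :
    ∃ l : ℝ, 0 ≤ l ∧ m ≤ NN (TT k Θ) l := by
  obtain ⟨P₀, hP₀⟩ := hne
  obtain ⟨r, hr, hball⟩ := Metric.isOpen_iff.1 isOpen_interior P₀ hP₀
  rcases Nat.eq_zero_or_pos m with rfl | hm
  · exact ⟨0, le_rfl, Nat.zero_le _⟩
  have hm' : (0:ℝ) < m := by exact_mod_cast hm
  set U : Fin m → Set (PP d) := fun i => {P | P ∈ Metric.ball P₀ r ∧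
    (i : ℝ) * (r / m) < P.1 - P₀.1 ∧ P.1 - P₀.1 < ((i : ℝ) + 1) * (r / m)} with hU
  have hUo : ∀ i, IsOpen (U i) := by
    intro i
    apply Metric.isOpen_ball.inter
    exact (isOpen_lt continuous_const (continuous_fst.sub continuous_const)).inter
      (isOpen_lt (continuous_fst.sub continuous_const) continuous_const)
  have hUne : ∀ i, (U i).Nonempty := by
    intro i
    have hi : (i : ℝ) + 1 ≤ m := by exact_mod_cast i.2
    refine ⟨(P₀.1 + ((i : ℝ) + 1 / 2) * (r / m), P₀.2), ?_, ?_, ?_⟩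
    · rw [Metric.mem_ball, Prod.dist_eq]
      simp only [dist_self, Real.dist_eq, add_sub_cancel_left]
      apply max_lt _ hr
      rw [abs_of_pos (by positivity)]
      calc ((i : ℝ) + 1 / 2) * (r / m) < ((i : ℝ) + 1) * (r / m) := by
            apply mul_lt_mul_of_pos_right _ (by positivity); linarith
        _ ≤ m * (r / m) := mul_le_mul_of_nonneg_right hi (by positivity)
        _ = r := by field_simp
    · simp only [add_sub_cancel_left]
      apply mul_lt_mul_of_pos_right _ (by positivity); linarith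
    · simp only [add_sub_cancel_left]
      apply mul_lt_mul_of_pos_right _ (by positivity); linarith
  have hUd : ∀ i j, i ≠ j → Disjoint (U i) (U j) := by
    intro i j hij
    rw [Set.disjoint_left]
    rintro P ⟨-, h1, h2⟩ ⟨-, h3, h4⟩
    have hrm : 0 < r / m := by positivity
    rcases lt_or_gt_of_ne hij with h | h
    · have h5 : (i : ℝ) + 1 ≤ (j : ℝ) := by exact_mod_cast h
      have := mul_le_mul_of_nonneg_right h5 hrm.le
      linarith
    · have h5 : (j : ℝ) + 1 ≤ (i : ℝ) := by exact_mod_cast h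
      have := mul_le_mul_of_nonneg_right h5 hrm.le
      linarith
  choose φ hφ1 hφ2 using fun i => exists_bump (hUo i) (hUne i)
  have hsub : ∀ i, U i ⊆ Θ.S := fun i P hP => interior_subset (hball hP.1)
  set ψ : Fin m → Tst Θ := fun i => ⟨φ i, (hφ1 i).mono (hsub i)⟩ with hψ
  have hψ0 : ∀ i, ψ i ≠ 0 := fun i h => hφ2 i (congrArg Subtype.val h)
  set l : ℝ := ∑ i, q0 k (ψ i : PP d → ℝ) / n2 k (ψ i : PP d → ℝ) with hl
  have hterm : ∀ i, 0 ≤ q0 k (ψ i : PP d → ℝ) / n2 k (ψ i : PP d → ℝ) := fun i =>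
    div_nonneg (q0_nonneg (ψ i)) (n2_pos (hψ0 i)).le
  refine ⟨l, Finset.sum_nonneg fun i _ => hterm i, ?_⟩
  apply le_NN_of_disjoint (Finset.sum_nonneg fun i _ => hterm i) ψ
  · intro i j hij
    exact (hUd i j hij).mono (hφ1 i).supp (hφ1 j).supp
  · exact hψ0
  · intro i
    have h1 : q0 k (ψ i : PP d → ℝ) / n2 k (ψ i : PP d → ℝ) ≤ l :=
      Finset.single_le_sum (f := fun i => q0 k (ψ i : PP d → ℝ) / n2 k (ψ i : PP d → ℝ))
        (fun i _ => hterm i) (Finset.mem_univ i)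
    rwa [div_le_iff₀ (n2_pos (hψ0 i))] at h1

/-- the eigenvalues of a domain -/
noncomputable def lamD (k : ℕ) {d : ℕ} (Θ : Dom d) (m : ℕ) : ℝ := lamA (TT k Θ) m

lemma lamD_le_of_Fam {m : ℕ} {l : ℝ} (hl : 0 ≤ l) (h : Fam k Θ.S m l) : lamD k Θ m ≤ l :=
  lamA_le hl (le_NN_of_Fam hl h)

lemma Fam_of_lamD_lt (hne : (interior Θ.S).Nonempty) {m : ℕ} {l : ℝ} (h : lamD k Θ m < l) :
    Fam k Θ.S m l :=
  Fam_of_le_NN (lamA_nonneg (TT_inf hne) m) h
    (le_NN_lamA isCompact_TT TT_symm TT_nonneg (TT_inf hne) m)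

/-- domain monotonicity -/
lemma lamD_anti (hne : (interior Θ.S).Nonempty) (h : Θ.S ⊆ Θ'.S) (m : ℕ) :
    lamD k Θ' m ≤ lamD k Θ m := by
  have h0 : 0 ≤ lamD k Θ m := lamA_nonneg (TT_inf hne) m
  apply le_of_forall_pos_le_add
  intro ε hε
  have h1 := Fam_of_lamD_lt hne (show lamD k Θ m < lamD k Θ m + ε by linarith)
  exact lamD_le_of_Fam (by linarith) (h1.mono h)

/-- eigenvalues tend to infinity -/
lemma lamD_unbounded (hne : (interior Θ.S).Nonempty) (R : ℝ) : ∃ m : ℕ, R < lamD k Θ m := by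
  by_contra hcon
  push Not at hcon
  set l := max R 0 with hl
  have h1 : ∀ m, m ≤ NN (TT k Θ) l := fun m =>
    (lamA_le_iff isCompact_TT TT_symm TT_nonneg (TT_inf hne) (le_max_right _ _)).1
      ((hcon m).trans (le_max_left _ _))
  have := h1 (NN (TT k Θ) l + 1)
  omega

end Pool.Agent.H56.BN
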