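import Mathlib

/-!
General facts on restrictions of square integrable functions.
-/

set_option autoImplicit false
set_option maxHeartbeats 1000000

namespace Pool.Agent.H56.BN

open MeasureTheory Filter Topology Set
open scoped InnerProductSpace

variable {X : Type*} [MeasurableSpace X] {μ : Measure X}

/-- restriction to a set -/
noncomputable def RR (μ : Measure X) (A : Set X) : Lp ℝ 2 μ →L[ℝ] Lp ℝ 2 (μ.restrict A) :=
  LpToLpRestrictCLM X ℝ ℝ μ 2 A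

lemma inner_L2 (f g : Lp ℝ 2 μ) : ⟪f, g⟫_ℝ = ∫ x, f x * g x ∂μ := by
  rw [L2.inner_def]
  apply integral_congr_ae
  refine ae_of_all _ fun x => ?_
  simp only [RCLike.inner_apply, conj_trivial]
  exact mul_comm _ _

lemma integrable_L2 (f g : Lp ℝ 2 μ) : Integrable (fun x => f x * g x) μ := by
  have h := L2.integrable_inner (𝕜 := ℝ) f g
  refine h.congr (ae_of_all _ fun x => ?_)
  simp only [RCLike.inner_apply, conj_trivial]
  exact mul_comm _ _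

lemma norm_sq_L2 (f : Lp ℝ 2 μ) : ‖f‖ ^ 2 = ∫ x, f x ^ 2 ∂μ := by
  rw [← real_inner_self_eq_norm_sq, inner_L2]
  apply integral_congr_ae
  exact ae_of_all _ fun x => (sq (f x)).symm

lemma norm_RR (A : Set X) (f : Lp ℝ 2 μ) : ‖RR μ A f‖ ^ 2 = ∫ x in A, f x ^ 2 ∂μ := by
  rw [norm_sq_L2]
  apply integral_congr_ae
  filter_upwards [LpToLpRestrictCLM_coeFn ℝ A f] with x hx
  unfold RR
  rw [hx]

/-- Cauchy-Schwarz on a set -/
lemma cs_set (A : Set X) (f g : Lp ℝ 2 μ) :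
    ∫ x in A, |f x * g x| ∂μ ≤ ‖RR μ A f‖ * ‖RR μ A g‖ := by
  set F : Lp ℝ 2 (μ.restrict A) := (Lp.memLp (RR μ A f)).norm.toLp _ with hF
  set G : Lp ℝ 2 (μ.restrict A) := (Lp.memLp (RR μ A g)).norm.toLp _ with hG
  have hcs : |⟪F, G⟫_ℝ| ≤ ‖F‖ * ‖G‖ := abs_real_inner_le_norm _ _
  have hFn : ‖F‖ = ‖RR μ A f‖ := by rw [hF, Lp.norm_toLp, eLpNorm_norm, ← Lp.norm_def]
  have hGn : ‖G‖ = ‖RR μ A g‖ := by rw [hG, Lp.norm_toLp, eLpNorm_norm, ← Lp.norm_def]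
  rw [hFn, hGn] at hcs
  refine le_trans (le_trans (le_of_eq ?_) (le_abs_self _)) hcs
  rw [inner_L2]
  apply integral_congr_ae
  filter_upwards [LpToLpRestrictCLM_coeFn ℝ A f, LpToLpRestrictCLM_coeFn ℝ A g,
    MemLp.coeFn_toLp (Lp.memLp (RR μ A f)).norm,
    MemLp.coeFn_toLp (Lp.memLp (RR μ A g)).norm] with x g1 g2 g3 g4
  rw [hF, hG, g3, g4]
  unfold RR
  rw [g1, g2, Real.norm_eq_abs, Real.norm_eq_abs, abs_mul]

/-- comparison of scalar products -/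
lemma inner_le_of_set {A : Set X} (hA : MeasurableSet A) {f g e : Lp ℝ 2 μ}
    (h1 : ∀ᵐ x ∂μ, x ∈ A → g x * e x ≤ f x * e x + |f x * e x|)
    (h2 : ∀ᵐ x ∂μ, x ∉ A → g x = f x) :
    ⟪g, e⟫_ℝ ≤ ⟪f, e⟫_ℝ + ‖RR μ A f‖ * ‖RR μ A e‖ := by
  refine le_trans ?_ (add_le_add_right (cs_set A f e) ⟪f, e⟫_ℝ)
  rw [inner_L2, inner_L2, ← integral_indicator hA,
    ← integral_add (integrable_L2 f e) ((integrable_L2 f e).abs.indicator hA)]
  apply integral_mono_ae (integrable_L2 g e)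
    ((integrable_L2 f e).add ((integrable_L2 f e).abs.indicator hA))
  filter_upwards [h1, h2] with x g1 g2
  show g x * e x ≤ f x * e x + A.indicator (fun x => |f x * e x|) x
  by_cases hx : x ∈ A
  · rw [Set.indicator_of_mem hx]
    exact g1 hx
  · rw [Set.indicator_of_notMem hx, g2 hx, add_zero]

lemma inner_le_of_set' {A : Set X} (hA : MeasurableSet A) {f g e : Lp ℝ 2 μ} {v w : X → ℝ}
    (hf : f =ᵐ[μ] v) (hg : g =ᵐ[μ] w) (h1 : ∀ x ∈ A, ∀ b : ℝ, w x * b ≤ v x * b + |v x * b|)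
    (h2 : ∀ x, x ∉ A → w x = v x) :
    ⟪g, e⟫_ℝ ≤ ⟪f, e⟫_ℝ + ‖RR μ A f‖ * ‖RR μ A e‖ := by
  apply inner_le_of_set hA
  · filter_upwards [hf, hg] with x g1 g2 hx
    rw [g1, g2]
    exact h1 x hx _
  · filter_upwards [hf, hg] with x g1 g2 hx
    rw [g1, g2]
    exact h2 x hx

/-- mass of a set bounded by a weighted integral -/
lemma mass_of_le {A : Set X} (hA : MeasurableSet A) {f : Lp ℝ 2 μ} {v w : X → ℝ}
    (hf : f =ᵐ[μ] v) (hw : Integrable w μ) (hw0 : ∀ x, 0 ≤ w x) (h : ∀ x ∈ A, v x ^ 2 ≤ w x) :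
    ‖RR μ A f‖ ^ 2 ≤ ∫ x, w x ∂μ := by
  rw [norm_RR]
  have hi : Integrable (fun x => f x ^ 2) μ := by
    refine (integrable_L2 f f).congr (ae_of_all _ fun x => ?_)
    exact (sq (f x)).symm
  calc ∫ x in A, f x ^ 2 ∂μ ≤ ∫ x in A, w x ∂μ := by
        apply setIntegral_mono_on_ae hi.integrableOn hw.integrableOn hA
        filter_upwards [hf] with x hx hxA
        rw [hx]
        exact h x hxA
    _ ≤ ∫ x, w x ∂μ := setIntegral_le_integral hw (ae_of_all _ hw0)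

end Pool.Agent.H56.BN
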