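import Mathlib
import Pool.Agent.H56.BN.Restr
import Pool.Agent.H56.BN.Emb
import Pool.Agent.H56.BN.Dual6
import Pool.Agent.H56.BN.Lam

/-!
Eigenfunctions as elements of the dual space.
-/

set_option autoImplicit false
set_option maxHeartbeats 1000000

namespace Pool.Agent.H56.BN

open MeasureTheory Filter Topology Set
open scoped ContDiff InnerProductSpace ENNReal

section gen

variable {X : Type*} [MeasurableSpace X] {μ : Measure X}

lemma dual_elem {q : ℝ} (hq1 : 1 < q) (hq2 : q ≤ 2) (g : Lp ℝ 2 μ) {A : Set X}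
    (hA : MeasurableSet A) (hAf : μ A ≠ ⊤) (h0 : ∀ᵐ x ∂μ, x ∉ A → g x = 0) :
    ∃ f : LL q μ, f =ᵐ[μ] g ∧ ‖f‖ ^ 2 ≤ ((μ A).toReal ^ (1 / q - 1 / 2)) ^ 2 * ‖g‖ ^ 2 := by
  have hq0 : 0 < q := by linarith
  have hind : (g : X → ℝ) =ᵐ[μ] A.indicator g := by
    filter_upwards [h0] with x hx
    by_cases h : x ∈ A
    · rw [indicator_of_mem h]
    · rw [indicator_of_notMem h, hx h]
  have hm2 : MemLp g 2 μ := Lp.memLp g
  have hexp : 0 ≤ 1 / q - 1 / 2 := by
    have := one_div_le_one_div_of_le hq0 hq2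
    linarith
  have hofq : ENNReal.ofReal q ≤ 2 := by
    calc ENNReal.ofReal q ≤ ENNReal.ofReal 2 := ENNReal.ofReal_le_ofReal hq2
      _ = 2 := by norm_num
  have hb : eLpNorm g (ENNReal.ofReal q) (μ.restrict A) ≤
      eLpNorm g 2 (μ.restrict A) * μ A ^ (1 / q - 1 / 2) := by
    have h1 := eLpNorm_le_eLpNorm_mul_rpow_measure_univ (μ := μ.restrict A) (f := (g : X → ℝ))
      hofq hm2.aestronglyMeasurable.restrict
    rw [Measure.restrict_apply_univ, ENNReal.toReal_ofReal hq0.le, ENNReal.toReal_ofNat] at h1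
    exact h1
  have hb2 : eLpNorm g (ENNReal.ofReal q) μ ≤ eLpNorm g 2 μ * μ A ^ (1 / q - 1 / 2) := by
    rw [eLpNorm_congr_ae hind, eLpNorm_indicator_eq_eLpNorm_restrict hA]
    refine hb.trans ?_
    apply mul_le_mul_left
    exact eLpNorm_mono_measure _ Measure.restrict_le_self
  have hAp : μ A ^ (1 / q - 1 / 2) ≠ ⊤ := ENNReal.rpow_ne_top_of_nonneg hexp hAf
  have hfin : eLpNorm g (ENNReal.ofReal q) μ < ⊤ :=
    lt_of_le_of_lt hb2 (ENNReal.mul_lt_top hm2.eLpNorm_lt_top hAp.lt_top)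
  have hmem : MemLp g (ENNReal.ofReal q) μ := ⟨hm2.aestronglyMeasurable, hfin⟩
  refine ⟨hmem.toLp _, MemLp.coeFn_toLp hmem, ?_⟩
  have hn : ‖hmem.toLp _‖ ≤ (μ A).toReal ^ (1 / q - 1 / 2) * ‖g‖ := by
    rw [Lp.norm_toLp, Lp.norm_def, ENNReal.toReal_rpow, mul_comm, ← ENNReal.toReal_mul]
    exact ENNReal.toReal_mono (ENNReal.mul_lt_top hm2.eLpNorm_lt_top hAp.lt_top).ne hb2
  have hn0 : 0 ≤ ‖hmem.toLp _‖ := by rw [Lp.norm_def]; exact ENNReal.toReal_nonneg
  rw [← mul_pow]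
  exact pow_le_pow_left₀ hn0 hn 2

end gen

variable {k d : ℕ} {Θ : Dom d}

/-- elements vanish outside the domain -/
lemma io2_zero {A : Set (EE k d)} (hA : MeasurableSet A) (hS : ∀ X, rad k d X ∈ Θ.S → X ∈ A)
    (u : VV k Θ) : ∀ᵐ X ∂(volume : Measure (EE k d)), X ∉ A → io2 k Θ u X = 0 := by
  have hcl : IsClosed {u : VV k Θ | RR (volume : Measure (EE k d)) Aᶜ (io2 k Θ u) = 0} :=
    isClosed_eq ((RR (volume : Measure (EE k d)) Aᶜ).continuous.comp (io2 k Θ).continuous)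
      continuous_const
  have h1 : RR (volume : Measure (EE k d)) Aᶜ (io2 k Θ u) = 0 := by
    refine isClosed_property dense_emb hcl (fun φ => ?_) u
    have h2 : ‖RR (volume : Measure (EE k d)) Aᶜ (io2 k Θ (emb k Θ φ))‖ ^ 2 = 0 := by
      rw [norm_RR]
      have h3 : ∀ᵐ X ∂((volume : Measure (EE k d)).restrict Aᶜ),
          (io2 k Θ (emb k Θ φ)) X ^ 2 = 0 := by
        rw [ae_restrict_iff' hA.compl]
        filter_upwards [coeFn_io2_emb (k := k) φ] with X hX hXA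
        rw [hX]
        have : lift k (φ : PP d → ℝ) X = 0 := by
          unfold lift
          apply (tIs φ).eq_zero
          intro h4
          exact hXA (hS X h4)
        rw [this]; norm_num
      rw [integral_congr_ae h3, integral_zero]
    have h3 : ‖RR (volume : Measure (EE k d)) Aᶜ (io2 k Θ (emb k Θ φ))‖ = 0 :=
      pow_eq_zero_iff (by norm_num) |>.1 h2
    exact norm_eq_zero.1 h3
  have h2 := LpToLpRestrictCLM_coeFn ℝ Aᶜ (io2 k Θ u)
  have h3 : (RR (volume : Measure (EE k d)) Aᶜ (io2 k Θ u) : EE k d → ℝ)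
      =ᵐ[(volume : Measure (EE k d)).restrict Aᶜ] 0 := by
    rw [h1]; exact Lp.coeFn_zero _ _ _
  have h4 : ∀ᵐ X ∂((volume : Measure (EE k d)).restrict Aᶜ), io2 k Θ u X = 0 := by
    filter_upwards [h2, h3] with X h5 h6
    rw [← h5]
    exact h6
  rw [ae_restrict_iff' hA.compl] at h4
  exact h4

/-- **ground states when the gap is small** -/
theorem ground_main (hd : 2 ≤ d) [Fact (1 < pex d)] [Fact (1 < qex d)]
    (hne : (interior Θ.S).Nonempty) (hE : HasEmb k Θ (pex d)) {A : Set (EE k d)}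
    (hA : MeasurableSet A) (hAf : volume A ≠ ⊤) (hS : ∀ X, rad k d X ∈ Θ.S → X ∈ A) {m : ℕ}
    {l : ℝ} (h1 : lamD k Θ m < l) (h2 : l < lamD k Θ (m + 1))
    (hgap : (lamD k Θ (m + 1) - lamD k Θ m) * (‖iop k Θ (pex d)‖ ^ 2 *
      ((volume A).toReal ^ (1 / qex d - 1 / 2)) ^ 2) ≤ 1) :
    Ground (pq_conj hd) (iop k Θ (pex d)) (BB (TT k Θ) l) := by
  have hq1 : 1 < qex d := Fact.out
  have hq2 : qex d ≤ 2 := by
    have : (2:ℝ) ≤ d := by exact_mod_cast hd
    unfold qex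
    rw [div_le_iff₀ (by linarith)]; linarith
  obtain ⟨e, he0, he⟩ := eig_at_gap (isCompact_TT (k := k) (Θ := Θ)) TT_symm TT_nonneg
    (TT_inf hne) (m := m) (h1.trans h2)
  obtain ⟨f, hf1, hf2⟩ := dual_elem hq1 hq2 (io2 k Θ e) hA hAf (io2_zero hA hS e)
  refine ground_gap (isCompact_TT (k := k) (Θ := Θ)) TT_symm TT_nonneg
    (TT_inf hne) (pq_conj hd) (pex_gt hd) (iop k Θ (pex d)) h1 h2 (fun v R hR => iop_ae hE v R hR)
    he0 he (f := f) (W := ((volume A).toReal ^ (1 / qex d - 1 / 2)) ^ 2) ?_ ?_ hgap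
  · intro v
    rw [inner_TT, inner_io2]
    apply integral_congr_ae
    filter_upwards [hf1, coeFn_iop hE v] with X h3 h4
    rw [h3, h4]
  · rw [inner_TT_self]
    exact hf2

end Pool.Agent.H56.BN
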