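import Mathlib
import Pool.Agent.H56.BN.Emb

/-!
Norm of the embedding and the no ground state theorem in abstract form.
-/

set_option autoImplicit false
set_option maxHeartbeats 1000000

namespace Pool.Agent.H56.BN

open MeasureTheory Filter Topology Set
open scoped ContDiff InnerProductSpace

variable {k d : ℕ} {Θ : Dom d}

lemma le_of_sq' {a b : ℝ} (hb : 0 ≤ b) (h : a ^ 2 ≤ b ^ 2) : a ≤ b :=
  (le_abs_self a).trans (abs_le_of_sq_le_sq h hb)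

lemma sq_le_of' {x C : ℝ} (hx : 0 ≤ x) (hC : 0 ≤ C) (h : x ≤ Real.sqrt C) : x ^ 2 ≤ C := by
  calc x ^ 2 ≤ (Real.sqrt C) ^ 2 := pow_le_pow_left₀ hx h 2
    _ = C := Real.sq_sqrt hC

/-- bound for the square of the embedding constant -/
noncomputable def Cemb (k d : ℕ) (a b : ℝ) : ℝ :=
  (ck k) ^ (2 / pex d) / (SS d * (a ^ k / (b ^ k) ^ (2 / pex d))) / ck k

lemma Cemb_pos (hd : 2 ≤ d) {a b : ℝ} (ha : 0 < a) (hb : 0 < b) : 0 < Cemb k d a b := by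
  have h1 := SS_pos hd
  have h2 := ck_pos k
  unfold Cemb
  have h3 : 0 < (ck k) ^ (2 / pex d) := Real.rpow_pos_of_pos h2 _
  have h4 : 0 < (b ^ k) ^ (2 / pex d) := Real.rpow_pos_of_pos (pow_pos hb k) _
  have h5 : 0 < a ^ k := pow_pos ha k
  positivity

lemma vecp_le (hd : 2 ≤ d) [Fact (1 < pex d)] {a b : ℝ} (ha : 0 < a) (hb : 0 < b)
    (hΘa : ∀ P ∈ Θ.S, a ≤ P.1) (hΘb : ∀ P ∈ Θ.S, P.1 ≤ b) (φ : Tst Θ) :
    ‖vecp k Θ (pex d) φ‖ ^ 2 ≤ Cemb k d a b * ‖emb k Θ φ‖ ^ 2 := by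
  have hp : 1 < pex d := Fact.out
  have hp0 : 0 < pex d := by linarith
  have h1 := npp_le (k := k) hd ha hΘa hΘb φ
  have hn := npp_nonneg (k := k) hd φ
  have hc := ck_pos k
  have hSS := SS_pos hd
  have e : ‖vecp k Θ (pex d) φ‖ ^ 2 =
      (ck k) ^ (2 / pex d) * (npp k (pex d) (φ : PP d → ℝ)) ^ (2 / pex d) := by
    rw [← Real.mul_rpow hc.le hn, ← norm_vecp hp,
      ← Real.rpow_mul (norm_nonneg _), mul_div_cancel₀ _ hp0.ne', Real.rpow_two]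
  obtain ⟨X, hX⟩ : ∃ X, X = (npp k (pex d) (φ : PP d → ℝ)) ^ (2 / pex d) := ⟨_, rfl⟩
  obtain ⟨c1, hc1⟩ : ∃ c, c = (ck k) ^ (2 / pex d) := ⟨_, rfl⟩
  obtain ⟨c2, hc2⟩ : ∃ c, c = SS d * (a ^ k / (b ^ k) ^ (2 / pex d)) := ⟨_, rfl⟩
  have h3 : 0 < c1 := by rw [hc1]; exact Real.rpow_pos_of_pos hc _
  have h4 : 0 < c2 := by
    rw [hc2]
    exact mul_pos hSS (div_pos (pow_pos ha k) (Real.rpow_pos_of_pos (pow_pos hb k) _))
  have e2 : Cemb k d a b = c1 / c2 / ck k := by rw [hc1, hc2]; rfl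
  rw [e, norm_emb, e2, ← hX, ← hc1]
  rw [← hX, ← hc2] at h1
  have h5 := n2_nonneg (k := k) φ
  calc c1 * X = c1 / c2 / ck k * (ck k * (c2 * X)) := by field_simp
    _ ≤ c1 / c2 / ck k * (ck k * q0 k (φ : PP d → ℝ) + ck k * n2 k (φ : PP d → ℝ)) := by
      apply mul_le_mul_of_nonneg_left _ (by positivity)
      have := mul_le_mul_of_nonneg_left h1 hc.le
      have h6 : 0 ≤ ck k * n2 k (φ : PP d → ℝ) := by positivity
      linarith

lemma hasEmb_of (hd : 2 ≤ d) [Fact (1 < pex d)] {a b : ℝ} (ha : 0 < a) (hb : 0 < b)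
    (hΘa : ∀ P ∈ Θ.S, a ≤ P.1) (hΘb : ∀ P ∈ Θ.S, P.1 ≤ b) : HasEmb k Θ (pex d) := by
  refine ⟨Real.sqrt (Cemb k d a b), fun φ => ?_⟩
  have h1 := vecp_le (k := k) hd ha hb hΘa hΘb φ
  have hC := Cemb_pos (k := k) hd ha hb
  apply le_of_sq' (by positivity)
  rw [mul_pow, Real.sq_sqrt hC.le]
  exact h1

lemma norm_iop_sq_le (hd : 2 ≤ d) [Fact (1 < pex d)] {a b : ℝ} (ha : 0 < a) (hb : 0 < b)
    (hΘa : ∀ P ∈ Θ.S, a ≤ P.1) (hΘb : ∀ P ∈ Θ.S, P.1 ≤ b) :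
    ‖iop k Θ (pex d)‖ ^ 2 ≤ Cemb k d a b := by
  have hC := Cemb_pos (k := k) hd ha hb
  have hE := hasEmb_of (k := k) hd ha hb hΘa hΘb
  have h1 : ‖iop k Θ (pex d)‖ ≤ Real.sqrt (Cemb k d a b) := by
    apply ContinuousLinearMap.opNorm_le_bound _ (Real.sqrt_nonneg _)
    intro u
    have hcl : IsClosed {u : VV k Θ | ‖iop k Θ (pex d) u‖ ≤ Real.sqrt (Cemb k d a b) * ‖u‖} :=
      isClosed_le (iop k Θ (pex d)).continuous.norm (continuous_const.mul continuous_norm)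
    refine isClosed_property dense_emb hcl (fun φ => ?_) u
    rw [iop_emb hE]
    apply le_of_sq' (by positivity)
    rw [mul_pow, Real.sq_sqrt hC.le]
    exact vecp_le (k := k) hd ha hb hΘa hΘb φ
  exact sq_le_of' (ContinuousLinearMap.opNorm_nonneg _) hC.le h1

end Pool.Agent.H56.BN
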