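import Mathlib
import Pool.Agent.H56.BN.Sob

/-!
The cube in the `z`-space and the ground state representation.
-/

set_option autoImplicit false
set_option maxHeartbeats 1000000

namespace Pool.Agent.H56.BN

open MeasureTheory Filter Topology Set
open scoped ContDiff

variable {d : ℕ}

/-- smooth functions of `z` with compact support in `S` -/
structure TZ {d : ℕ} (S : Set (Zd d)) (ψ : Zd d → ℝ) : Prop where
  smooth : ContDiff ℝ ∞ ψ
  cpt : HasCompactSupport ψ
  supp : tsupport ψ ⊆ S

/-- the open cube -/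
def Qb (d : ℕ) (b : ℝ) : Set (Zd d) := {z | ∀ i, |z i| < b}

/-- the frequency -/
noncomputable def om (b : ℝ) : ℝ := Real.pi / (2 * b)

/-- the ground state of the cube -/
noncomputable def chi (d : ℕ) (b : ℝ) (z : Zd d) : ℝ := ∏ i, Real.cos (om b * z i)

/-- derivative in direction `j` -/
noncomputable def dd (ψ : Zd d → ℝ) (j : Fin d) (z : Zd d) : ℝ :=
  fderiv ℝ ψ z (EuclideanSpace.single j 1)

/-- the other factors -/
noncomputable def Rj (d : ℕ) (b : ℝ) (j : Fin d) (z : Zd d) : ℝ :=
  ∏ i ∈ Finset.univ.erase j, Real.cos (om b * z i)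

lemma chi_eq (b : ℝ) (j : Fin d) (z : Zd d) :
    chi d b z = Real.cos (om b * z j) * Rj d b j z := by
  unfold chi Rj
  exact (Finset.mul_prod_erase Finset.univ _ (Finset.mem_univ j)).symm

lemma contDiff_coord (i : Fin d) : ContDiff ℝ ∞ (fun z : Zd d => z i) :=
  (EuclideanSpace.proj (𝕜 := ℝ) i).contDiff

lemma contDiff_chi (b : ℝ) : ContDiff ℝ ∞ (chi d b) := by
  unfold chi
  apply contDiff_prod
  intro i _
  exact Real.contDiff_cos.comp (contDiff_const.mul (contDiff_coord i))

lemma contDiff_Rj (b : ℝ) (j : Fin d) : ContDiff ℝ ∞ (Rj d b j) := by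
  unfold Rj
  apply contDiff_prod
  intro i _
  exact Real.contDiff_cos.comp (contDiff_const.mul (contDiff_coord i))

/-- the line in direction `j` -/
lemma line_coord (z : Zd d) (j i : Fin d) (t : ℝ) :
    (z + t • EuclideanSpace.single j (1:ℝ)) i = if i = j then z j + t else z i := by
  split_ifs with h
  · subst h; simp
  · simp [h]

lemma Rj_line (b : ℝ) (j : Fin d) (z : Zd d) (t : ℝ) :
    Rj d b j (z + t • EuclideanSpace.single j (1:ℝ)) = Rj d b j z := by
  unfold Rj
  apply Finset.prod_congr rfl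
  intro i hi
  rw [line_coord, if_neg (Finset.ne_of_mem_erase hi)]

lemma hasDerivAt_lineZ {ψ : Zd d → ℝ} {z : Zd d} (h : DifferentiableAt ℝ ψ z) (j : Fin d) :
    HasDerivAt (fun t : ℝ => ψ (z + t • EuclideanSpace.single j (1:ℝ))) (dd ψ j z) 0 := by
  have h1 : HasFDerivAt ψ (fderiv ℝ ψ z) (z + (0:ℝ) • EuclideanSpace.single j (1:ℝ)) := by
    rw [zero_smul, add_zero]; exact h.hasFDerivAt
  have h2 : HasDerivAt (fun t : ℝ => z + t • EuclideanSpace.single j (1:ℝ))
      (EuclideanSpace.single j (1:ℝ)) 0 := by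
    have := ((hasDerivAt_id (0:ℝ)).smul_const (EuclideanSpace.single j (1:ℝ))).const_add z
    simpa using this
  exact h1.comp_hasDerivAt (0:ℝ) h2

lemma dd_eq_of {ψ : Zd d → ℝ} {z : Zd d} (h : DifferentiableAt ℝ ψ z) {j : Fin d} {c : ℝ}
    (hc : HasDerivAt (fun t : ℝ => ψ (z + t • EuclideanSpace.single j (1:ℝ))) c 0) :
    dd ψ j z = c := (hasDerivAt_lineZ h j).unique hc

/-- the derivative of the ground state -/
noncomputable def chj (d : ℕ) (b : ℝ) (j : Fin d) (z : Zd d) : ℝ :=
  -(om b * Real.sin (om b * z j)) * Rj d b j z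

lemma contDiff_chj (b : ℝ) (j : Fin d) : ContDiff ℝ ∞ (chj d b j) := by
  unfold chj
  apply ContDiff.mul _ (contDiff_Rj b j)
  exact (contDiff_const.mul
    (Real.contDiff_sin.comp (contDiff_const.mul (contDiff_coord j)))).neg

lemma line_chi (b : ℝ) (j : Fin d) (z : Zd d) :
    HasDerivAt (fun t : ℝ => chi d b (z + t • EuclideanSpace.single j (1:ℝ))) (chj d b j z) 0 := by
  have e : (fun t : ℝ => chi d b (z + t • EuclideanSpace.single j (1:ℝ))) =
      fun t : ℝ => Real.cos (om b * (z j + t)) * Rj d b j z := by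
    funext t
    rw [chi_eq b j, Rj_line, line_coord, if_pos rfl]
  rw [e]
  have h1 : HasDerivAt (fun t : ℝ => om b * (z j + t)) (om b) 0 := by
    have := ((hasDerivAt_id (0:ℝ)).const_add (z j)).const_mul (om b)
    simpa using this
  have h2 := (h1.cos).mul_const (Rj d b j z)
  refine h2.congr_deriv ?_
  unfold chj
  rw [add_zero]; ring

lemma line_chj (b : ℝ) (j : Fin d) (z : Zd d) :
    HasDerivAt (fun t : ℝ => chj d b j (z + t • EuclideanSpace.single j (1:ℝ)))
      (-(om b ^ 2 * chi d b z)) 0 := by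
  have e : (fun t : ℝ => chj d b j (z + t • EuclideanSpace.single j (1:ℝ))) =
      fun t : ℝ => -(om b * Real.sin (om b * (z j + t))) * Rj d b j z := by
    funext t
    unfold chj
    rw [Rj_line, line_coord, if_pos rfl]
  rw [e]
  have h1 : HasDerivAt (fun t : ℝ => om b * (z j + t)) (om b) 0 := by
    have := ((hasDerivAt_id (0:ℝ)).const_add (z j)).const_mul (om b)
    simpa using this
  have h2 := ((h1.sin).const_mul (om b)).neg.mul_const (Rj d b j z)
  refine h2.congr_deriv ?_
  rw [chi_eq b j, add_zero]; ring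

section tz

variable {S : Set (Zd d)} {ψ v : Zd d → ℝ}

lemma TZ.diff (h : TZ S ψ) (z : Zd d) : DifferentiableAt ℝ ψ z :=
  h.smooth.differentiable (by simp) z

lemma TZ.cont (h : TZ S ψ) : Continuous ψ := h.smooth.continuous

lemma TZ.zero (h : TZ S ψ) {z : Zd d} (hz : z ∉ S) : ψ z = 0 :=
  image_eq_zero_of_notMem_tsupport fun h' => hz (h.supp h')

lemma TZ.mul_left (h : TZ S ψ) {a : Zd d → ℝ} {U : Set (Zd d)} (hU : IsOpen U)
    (ha : ContDiffOn ℝ ∞ a U) (hS : S ⊆ U) : TZ S (fun z => a z * ψ z) := by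
  refine ⟨?_, h.cpt.mul_left, ?_⟩
  · rw [contDiff_iff_contDiffAt]
    intro z
    by_cases hz : z ∈ tsupport ψ
    · exact (ha.contDiffAt (hU.mem_nhds (hS (h.supp hz)))).mul h.smooth.contDiffAt
    · have h1 : (fun z => a z * ψ z) =ᶠ[𝓝 z] fun _ => 0 := by
        filter_upwards [notMem_tsupport_iff_eventuallyEq.1 hz] with y hy
        rw [hy]; simp
      exact contDiffAt_const.congr_of_eventuallyEq h1
  · exact (closure_mono (Function.support_mul_subset_right a ψ)).trans h.supp

lemma cont_dd (h : ContDiff ℝ ∞ ψ) (j : Fin d) : Continuous (dd ψ j) :=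
  (h.continuous_fderiv (by simp)).clm_apply continuous_const

lemma dd_zero {z : Zd d} (hz : z ∉ tsupport ψ) (j : Fin d) : dd ψ j z = 0 := by
  unfold dd
  have : fderiv ℝ ψ z = 0 := by
    rw [(notMem_tsupport_iff_eventuallyEq.1 hz).fderiv_eq]; simp
  rw [this]; rfl

lemma TZ.int (h : TZ S ψ) {f : Zd d → ℝ} (hf : Continuous f) (h0 : ∀ z, z ∉ tsupport ψ → f z = 0) :
    Integrable f (volume : Measure (Zd d)) := by
  apply hf.integrable_of_hasCompactSupport
  refine HasCompactSupport.of_support_subset_isCompact h.cpt (fun z hz => ?_)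
  by_contra h'
  exact hz (h0 z h')

lemma integral_dd_zero (h : TZ S ψ) (j : Fin d) : ∫ z, dd ψ j z = 0 := by
  have h1 : Integrable (fun z => fderiv ℝ ψ z (EuclideanSpace.single j 1))
      (volume : Measure (Zd d)) := h.int (cont_dd h.smooth j) fun z hz => dd_zero hz j
  have h2 := integral_mul_fderiv_eq_neg_fderiv_mul_of_integrable (𝕜 := ℝ)
    (μ := (volume : Measure (Zd d))) (f := fun _ => (1:ℝ)) (g := ψ)
    (v := EuclideanSpace.single j 1) (by simp) (by simpa using h1)
    (by simpa using h.cont.integrable_of_hasCompactSupport h.cpt)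
    (fun _ _ => differentiableAt_const _) (fun x _ => h.diff x)
  have h3 : ∫ z, fderiv ℝ ψ z (EuclideanSpace.single j 1) = 0 := by simpa using h2
  exact h3

/-- **ground state representation** -/
theorem jacobi (b : ℝ) (h : TZ S v) (j : Fin d) :
    ∫ z, dd (fun z => chi d b z * v z) j z ^ 2 =
      (∫ z, chi d b z ^ 2 * dd v j z ^ 2) + om b ^ 2 * ∫ z, (chi d b z * v z) ^ 2 := by
  have hv := h.cont
  have hdv := cont_dd h.smooth j
  have hc := (contDiff_chi (d := d) b).continuous
  have hcj := (contDiff_chj (d := d) b j).continuous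
  -- the total derivative
  have hw : TZ S (fun z => (chi d b z * chj d b j z * v z) * v z) :=
    h.mul_left isOpen_univ ((((contDiff_chi b).mul (contDiff_chj b j)).mul
      h.smooth).contDiffOn) (subset_univ _)
  have hcd : ∀ z, DifferentiableAt ℝ (fun z => chi d b z * v z) z := fun z =>
    (((contDiff_chi b).mul h.smooth).differentiable (by simp)) z
  have e1 : ∀ z, dd (fun z => chi d b z * v z) j z = chj d b j z * v z + chi d b z * dd v j z := by
    intro z
    apply dd_eq_of (hcd z)
    have h1 := (line_chi b j z).mul (hasDerivAt_lineZ (h.diff z) j)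
    refine h1.congr_deriv ?_
    rw [zero_smul, add_zero]
  have e2 : ∀ z, dd (fun z => (chi d b z * chj d b j z * v z) * v z) j z =
      chj d b j z ^ 2 * v z ^ 2 - om b ^ 2 * (chi d b z * v z) ^ 2 +
        2 * chi d b z * chj d b j z * v z * dd v j z := by
    intro z
    apply dd_eq_of (hw.diff z)
    have h1 := (((line_chi b j z).mul (line_chj b j z)).mul
      (hasDerivAt_lineZ (h.diff z) j)).mul (hasDerivAt_lineZ (h.diff z) j)
    refine h1.congr_deriv ?_
    simp only [zero_smul, add_zero]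
    simp only [Pi.mul_apply, zero_smul, add_zero]
    ring
  have h0 := integral_dd_zero hw j
  have i1 : Integrable (fun z => chi d b z ^ 2 * dd v j z ^ 2) (volume : Measure (Zd d)) :=
    h.int (by fun_prop) fun z hz => by rw [dd_zero hz]; simp
  have i2 : Integrable (fun z => om b ^ 2 * (chi d b z * v z) ^ 2) (volume : Measure (Zd d)) :=
    h.int (by fun_prop) fun z hz => by rw [image_eq_zero_of_notMem_tsupport hz]; simp
  have i3 : Integrable (fun z => dd (fun z => (chi d b z * chj d b j z * v z) * v z) j z)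
      (volume : Measure (Zd d)) := hw.int (cont_dd hw.smooth j) fun z hz => dd_zero hz j
  have e3 : ∫ z, dd (fun z => chi d b z * v z) j z ^ 2 =
      ∫ z, ((chi d b z ^ 2 * dd v j z ^ 2 + om b ^ 2 * (chi d b z * v z) ^ 2) +
        dd (fun z => (chi d b z * chj d b j z * v z) * v z) j z) := by
    congr 1
    funext z
    rw [e1, e2]; ring
  have i12 : Integrable (fun z => chi d b z ^ 2 * dd v j z ^ 2 + om b ^ 2 *
      (chi d b z * v z) ^ 2) (volume : Measure (Zd d)) := i1.add i2
  rw [e3, integral_add i12 i3, h0, add_zero, integral_add i1 i2, integral_const_mul]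

end tz

end Pool.Agent.H56.BN
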