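import Mathlib
import Pool.Agent.H56.BN.Cube1

/-!
A weighted Poincare inequality on the cube.
-/

set_option autoImplicit false
set_option maxHeartbeats 1000000

namespace Pool.Agent.H56.BN

open MeasureTheory Filter Topology Set
open scoped ContDiff ENNReal

variable {d : ℕ}

/-- the squared gradient -/
noncomputable def gz (v : Zd d → ℝ) (z : Zd d) : ℝ := ∑ j, dd v j z ^ 2

lemma gz_nonneg (v : Zd d → ℝ) (z : Zd d) : 0 ≤ gz v z := Finset.sum_nonneg fun _ _ => sq_nonneg _

lemma cont_gz {v : Zd d → ℝ} (hv : ContDiff ℝ ∞ v) : Continuous (gz v) :=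
  continuous_finset_sum _ fun j _ => (cont_dd hv j).pow 2

lemma eq_sum_single (h : Zd d) : h = ∑ j, h j • EuclideanSpace.single j (1:ℝ) := by
  ext i
  simp [Finset.sum_apply, Pi.single_apply]

lemma fderiv_sq_le (v : Zd d → ℝ) (z h : Zd d) : (fderiv ℝ v z h) ^ 2 ≤ ‖h‖ ^ 2 * gz v z := by
  have e : fderiv ℝ v z h = ∑ j, h j * dd v j z := by
    nth_rewrite 1 [eq_sum_single h]
    rw [map_sum]
    simp only [map_smul, smul_eq_mul]
    rfl
  rw [e, EuclideanSpace.norm_sq_eq]
  have h3 := Finset.sum_mul_sq_le_sq_mul_sq Finset.univ (fun j => h j) (fun j => dd v j z)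
  simpa [gz] using h3

lemma jensen01 {h : ℝ → ℝ} (hh : Continuous h) :
    (∫ t in (0:ℝ)..1, h t) ^ 2 ≤ ∫ t in (0:ℝ)..1, h t ^ 2 := by
  obtain ⟨c, hc⟩ : ∃ c, c = ∫ t in (0:ℝ)..1, h t := ⟨_, rfl⟩
  rw [← hc]
  have h1 : 0 ≤ ∫ t in (0:ℝ)..1, (h t - c) ^ 2 :=
    intervalIntegral.integral_nonneg (by norm_num) fun t _ => sq_nonneg _
  have h2 : ∫ t in (0:ℝ)..1, (h t - c) ^ 2 = (∫ t in (0:ℝ)..1, h t ^ 2) - c ^ 2 := by
    have e : ∀ t, (h t - c) ^ 2 = h t ^ 2 - (2 * c * h t - c ^ 2) := fun t => by ring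
    simp only [e]
    have i1 : IntervalIntegrable (fun t => h t ^ 2) volume 0 1 :=
      (hh.pow 2).intervalIntegrable _ _
    have i2 : IntervalIntegrable (fun t => 2 * c * h t) volume 0 1 :=
      (continuous_const.mul hh).intervalIntegrable _ _
    have i3 : IntervalIntegrable (fun _ : ℝ => c ^ 2) volume 0 1 :=
      continuous_const.intervalIntegrable _ _
    rw [intervalIntegral.integral_sub i1 (i2.sub i3), intervalIntegral.integral_sub i2 i3,
      intervalIntegral.integral_const_mul, ← hc]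
    simp
    ring
  linarith

/-- mean value estimate -/
lemma seg_le {v : Zd d → ℝ} (hv : ContDiff ℝ ∞ v) (y y' : Zd d) :
    (v y - v y') ^ 2 ≤ ‖y - y'‖ ^ 2 * ∫ t in (0:ℝ)..1, gz v (y' + t • (y - y')) := by
  have hd : ∀ z, DifferentiableAt ℝ v z := fun z => hv.differentiable (by simp) z
  have hc : Continuous fun t : ℝ => fderiv ℝ v (y' + t • (y - y')) (y - y') := by
    have h1 : Continuous fun t : ℝ => y' + t • (y - y') := by fun_prop
    exact ((hv.continuous_fderiv (by simp)).comp h1).clm_apply continuous_const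
  have hcg : Continuous fun t : ℝ => gz v (y' + t • (y - y')) :=
    (cont_gz hv).comp (by fun_prop)
  have hder : ∀ t : ℝ, HasDerivAt (fun t : ℝ => v (y' + t • (y - y')))
      (fderiv ℝ v (y' + t • (y - y')) (y - y')) t := by
    intro t
    have h2 : HasDerivAt (fun t : ℝ => y' + t • (y - y')) (y - y') t := by
      have := ((hasDerivAt_id t).smul_const (y - y')).const_add y'
      simpa using this
    exact (hd _).hasFDerivAt.comp_hasDerivAt t h2
  have h3 := intervalIntegral.integral_eq_sub_of_hasDerivAt (a := 0) (b := 1)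
    (fun t _ => hder t) (hc.intervalIntegrable _ _)
  have h4 : v y - v y' = ∫ t in (0:ℝ)..1, fderiv ℝ v (y' + t • (y - y')) (y - y') := by
    rw [h3]; simp
  rw [h4, ← intervalIntegral.integral_const_mul]
  refine (jensen01 hc).trans ?_
  apply intervalIntegral.integral_mono_on (by norm_num) ((hc.pow 2).intervalIntegrable _ _)
    ((continuous_const.mul hcg).intervalIntegrable _ _)
  intro t _
  exact fderiv_sq_le v _ _

lemma cos_mul_le {α β t : ℝ} (hα : |α| ≤ Real.pi / 2) (hβ : |β| ≤ Real.pi / 2) (ht0 : 0 ≤ t)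
    (ht1 : t ≤ 1) : Real.cos α * Real.cos β ≤ Real.cos (β + t * (α - β)) := by
  have h1 := strictConcaveOn_cos_Icc.concaveOn.2 (x := α) (y := β) (abs_le.1 hα) (abs_le.1 hβ)
    ht0 (sub_nonneg.2 ht1) (by ring)
  have e : β + t * (α - β) = t • α + (1 - t) • β := by
    simp only [smul_eq_mul]; ring
  rw [e]
  refine le_trans ?_ h1
  have h2 : 0 ≤ Real.cos α := Real.cos_nonneg_of_mem_Icc (abs_le.1 hα)
  have h3 : 0 ≤ Real.cos β := Real.cos_nonneg_of_mem_Icc (abs_le.1 hβ)
  have h4 := Real.cos_le_one α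
  have h5 := Real.cos_le_one β
  have h6 : Real.cos α * Real.cos β ≤ Real.cos α := by nlinarith
  have h7 : Real.cos α * Real.cos β ≤ Real.cos β := by nlinarith
  simp only [smul_eq_mul]
  nlinarith

lemma om_arg {b s : ℝ} (hb : 0 < b) (hs : |s| ≤ b) : |om b * s| ≤ Real.pi / 2 := by
  unfold om
  rw [abs_mul, abs_of_pos (by have := Real.pi_pos; positivity)]
  rw [div_mul_eq_mul_div, div_le_div_iff₀ (by positivity) (by norm_num)]
  have := Real.pi_pos
  nlinarith

lemma isOpen_Qb (b : ℝ) : IsOpen (Qb d b) := by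
  have : Qb d b = ⋂ i, {z : Zd d | |z i| < b} := by
    ext z; simp [Qb]
  rw [this]
  apply isOpen_iInter_of_finite
  intro i
  exact isOpen_lt ((contDiff_coord i).continuous.abs) continuous_const

lemma chi_nonneg {b : ℝ} (hb : 0 < b) {z : Zd d} (hz : ∀ i, |z i| ≤ b) : 0 ≤ chi d b z := by
  unfold chi
  apply Finset.prod_nonneg
  intro i _
  exact Real.cos_nonneg_of_mem_Icc (abs_le.1 (om_arg hb (hz i)))

lemma chi_pos {b : ℝ} (hb : 0 < b) {z : Zd d} (hz : z ∈ Qb d b) : 0 < chi d b z := by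
  unfold chi
  apply Finset.prod_pos
  intro i _
  apply Real.cos_pos_of_mem_Ioo
  have h1 : |om b * z i| < Real.pi / 2 := by
    unfold om
    have := Real.pi_pos
    rw [abs_mul, abs_of_pos (by positivity), div_mul_eq_mul_div,
      div_lt_div_iff₀ (by positivity) (by norm_num)]
    have h2 := hz i
    nlinarith
  exact abs_lt.1 h1

lemma chi_le_one (b : ℝ) {z : Zd d} (hz : 0 ≤ chi d b z) : chi d b z ≤ 1 := by
  have h1 : |chi d b z| ≤ 1 := by
    unfold chi
    rw [Finset.abs_prod]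
    exact Finset.prod_le_one (fun i _ => abs_nonneg _) fun i _ => Real.abs_cos_le_one _
  rwa [abs_of_nonneg hz] at h1

/-- quasi concavity of the ground state -/
lemma chi_seg {b : ℝ} (hb : 0 < b) {y y' : Zd d} (hy : y ∈ Qb d b) (hy' : y' ∈ Qb d b) {t : ℝ}
    (ht0 : 0 ≤ t) (ht1 : t ≤ 1) :
    y' + t • (y - y') ∈ Qb d b ∧ chi d b y * chi d b y' ≤ chi d b (y' + t • (y - y')) := by
  have e : ∀ i, (y' + t • (y - y')) i = y' i + t * (y i - y' i) := fun i => by simp
  constructor
  · intro i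
    rw [e]
    have h1 := abs_lt.1 (hy i)
    have h2 := abs_lt.1 (hy' i)
    have e2 : y' i + t * (y i - y' i) = t • y i + (1 - t) • y' i := by
      simp only [smul_eq_mul]; ring
    rw [e2, abs_lt]
    exact convex_Ioo (-b) b h1 h2 ht0 (sub_nonneg.2 ht1) (by ring)
  · unfold chi
    rw [← Finset.prod_mul_distrib]
    apply Finset.prod_le_prod
    · intro i _
      exact mul_nonneg (Real.cos_nonneg_of_mem_Icc (abs_le.1 (om_arg hb (hy i).le)))
        (Real.cos_nonneg_of_mem_Icc (abs_le.1 (om_arg hb (hy' i).le)))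
    · intro i _
      rw [e]
      have e3 : om b * (y' i + t * (y i - y' i)) = om b * y' i + t * (om b * y i - om b * y' i) := by
        ring
      rw [e3]
      exact cos_mul_le (om_arg hb (hy i).le) (om_arg hb (hy' i).le) ht0 ht1

/-- affine change of variables -/
lemma lint_affine {F : Zd d → ℝ≥0∞} (hF : Measurable F) {t : ℝ} (ht : 1 / 2 ≤ t) (c : Zd d) :
    ∫⁻ y, F (c + t • y) ≤ 2 ^ d * ∫⁻ y, F y := by
  have ht0 : t ≠ 0 := by intro h; rw [h] at ht; norm_num at ht
  have h1 : ∫⁻ y, F (c + t • y) = ∫⁻ y, F (c + y) ∂(Measure.map (fun y : Zd d => t • y) volume) := by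
    rw [lintegral_map (f := fun y => F (c + y)) (hF.comp (measurable_const_add c))
      (measurable_const_smul t)]
  rw [h1, Measure.map_addHaar_smul volume ht0, lintegral_smul_measure,
    lintegral_add_left_eq_self F c, finrank_euclideanSpace, Fintype.card_fin, smul_eq_mul]
  apply mul_le_mul_left
  have h2 : |(t ^ d)⁻¹| ≤ 2 ^ d := by
    have ht' : 0 < t := by linarith
    rw [abs_of_pos (by positivity), inv_le_comm₀ (by positivity) (by positivity), ← inv_pow]
    exact pow_le_pow_left₀ (by norm_num) (by linarith) d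
  calc ENNReal.ofReal |(t ^ d)⁻¹| ≤ ENNReal.ofReal (2 ^ d) := ENNReal.ofReal_le_ofReal h2
    _ = 2 ^ d := by rw [ENNReal.ofReal_pow (by norm_num)]; norm_num

end Pool.Agent.H56.BN
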