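import Mathlib
import Pool.Agent.H56.BN.Cube2

/-!
A weighted Poincare inequality on the cube, continued.
-/

set_option autoImplicit false
set_option maxHeartbeats 1000000

namespace Pool.Agent.H56.BN

open MeasureTheory Filter Topology Set
open scoped ContDiff ENNReal

variable {d : ℕ}

/-- the energy density -/
noncomputable def Fz (d : ℕ) (b : ℝ) (v : Zd d → ℝ) (z : Zd d) : ℝ≥0∞ :=
  (Qb d b).indicator (fun z => ENNReal.ofReal (chi d b z ^ 2 * gz v z)) z

lemma measurable_Fz {b : ℝ} {v : Zd d → ℝ} (hv : ContDiff ℝ ∞ v) : Measurable (Fz d b v) := by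
  apply Measurable.indicator _ (isOpen_Qb b).measurableSet
  apply Measurable.ennreal_ofReal
  exact (((contDiff_chi b).continuous.pow 2).mul (cont_gz hv)).measurable

/-- the integral over the segments at a fixed time -/
lemma lint_time {b : ℝ} {v : Zd d → ℝ} (hv : ContDiff ℝ ∞ v) {t : ℝ} :
    ∫⁻ y in Qb d b, ∫⁻ y' in Qb d b, Fz d b v (y' + t • (y - y')) ≤
      volume (Qb d b) * (2 ^ d * ∫⁻ z, Fz d b v z) := by
  have hF := measurable_Fz (b := b) hv
  have key1 : ∀ (s : ℝ), 1 / 2 ≤ s → ∀ c : Zd d,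
      ∫⁻ y in Qb d b, Fz d b v (c + s • y) ≤ 2 ^ d * ∫⁻ z, Fz d b v z := fun s hs c =>
    (setLIntegral_le_lintegral _ _).trans (lint_affine hF hs c)
  have hconst : ∀ A : ℝ≥0∞, ∫⁻ _ in Qb d b, A = volume (Qb d b) * A := by
    intro A
    rw [lintegral_const, Measure.restrict_apply_univ, mul_comm]
  rcases le_or_gt (1 / 2) t with ht | ht
  · have hm : Measurable (Function.uncurry fun (y y' : Zd d) => Fz d b v (y' + t • (y - y'))) := by
      apply hF.comp
      fun_prop
    rw [lintegral_lintegral_swap hm.aemeasurable]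
    rw [← hconst]
    apply lintegral_mono
    intro y'
    have e : ∀ y, y' + t • (y - y') = (y' - t • y') + t • y := by
      intro y
      rw [smul_sub]; abel
    simp only [e]
    exact key1 t ht _
  · rw [← hconst]
    apply lintegral_mono
    intro y
    have e : ∀ y', y' + t • (y - y') = t • y + (1 - t) • y' := by
      intro y'
      rw [smul_sub, sub_smul, one_smul]; abel
    simp only [e]
    exact key1 (1 - t) (by linarith) _

/-- the double integral -/
lemma lint_double {b D : ℝ} (hb : 0 < b) {v : Zd d → ℝ} (hv : ContDiff ℝ ∞ v)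
    (hD : ∀ y ∈ Qb d b, ∀ y' ∈ Qb d b, ‖y - y'‖ ^ 2 ≤ D) :
    ∫⁻ y in Qb d b, ∫⁻ y' in Qb d b,
      ENNReal.ofReal (chi d b y ^ 2 * chi d b y' ^ 2 * (v y - v y') ^ 2) ≤
      ENNReal.ofReal D * (volume (Qb d b) * (2 ^ d * ∫⁻ z, Fz d b v z)) := by
  have hF := measurable_Fz (b := b) hv
  have hQ := (isOpen_Qb (d := d) b).measurableSet
  -- pointwise bound
  have hpt : ∀ y ∈ Qb d b, ∀ y' ∈ Qb d b,
      ENNReal.ofReal (chi d b y ^ 2 * chi d b y' ^ 2 * (v y - v y') ^ 2) ≤
        ENNReal.ofReal D * ∫⁻ t in Ioc (0:ℝ) 1, Fz d b v (y' + t • (y - y')) := by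
    intro y hy y' hy'
    have hcg : Continuous fun t : ℝ => gz v (y' + t • (y - y')) :=
      (cont_gz hv).comp (by fun_prop)
    have hD0 : 0 ≤ D := (sq_nonneg _).trans (hD y hy y' hy')
    have hI0 : 0 ≤ ∫ t in (0:ℝ)..1, gz v (y' + t • (y - y')) :=
      intervalIntegral.integral_nonneg (by norm_num) fun t _ => gz_nonneg _ _
    have h1 : (v y - v y') ^ 2 ≤ D * ∫ t in (0:ℝ)..1, gz v (y' + t • (y - y')) :=
      (seg_le hv y y').trans (mul_le_mul_of_nonneg_right (hD y hy y' hy') hI0)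
    have hc0 : 0 ≤ chi d b y ^ 2 * chi d b y' ^ 2 := by positivity
    have h2 : chi d b y ^ 2 * chi d b y' ^ 2 * (v y - v y') ^ 2 ≤
        D * ∫ t in Ioc (0:ℝ) 1, chi d b y ^ 2 * chi d b y' ^ 2 * gz v (y' + t • (y - y')) := by
      rw [integral_const_mul, ← intervalIntegral.integral_of_le (by norm_num : (0:ℝ) ≤ 1)]
      calc _ ≤ chi d b y ^ 2 * chi d b y' ^ 2 *
            (D * ∫ t in (0:ℝ)..1, gz v (y' + t • (y - y'))) := mul_le_mul_of_nonneg_left h1 hc0
        _ = _ := by ring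
    refine (ENNReal.ofReal_le_ofReal h2).trans ?_
    rw [ENNReal.ofReal_mul hD0]
    apply mul_le_mul_right
    have hint : Integrable (fun t : ℝ => chi d b y ^ 2 * chi d b y' ^ 2 *
        gz v (y' + t • (y - y'))) (volume.restrict (Ioc (0:ℝ) 1)) :=
      (continuous_const.mul hcg).integrableOn_Ioc
    rw [ofReal_integral_eq_lintegral_ofReal hint
      (ae_of_all _ fun t => mul_nonneg hc0 (gz_nonneg _ _))]
    apply setLIntegral_mono (hF.comp (by fun_prop))
    intro t ht
    obtain ⟨h3, h4⟩ := chi_seg hb hy hy' ht.1.le ht.2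
    show ENNReal.ofReal (chi d b y ^ 2 * chi d b y' ^ 2 * gz v (y' + t • (y - y'))) ≤
      Fz d b v (y' + t • (y - y'))
    unfold Fz
    rw [indicator_of_mem h3]
    apply ENNReal.ofReal_le_ofReal
    apply mul_le_mul_of_nonneg_right _ (gz_nonneg _ _)
    rw [← mul_pow]
    exact pow_le_pow_left₀ (mul_nonneg (chi_nonneg hb fun i => (hy i).le)
      (chi_nonneg hb fun i => (hy' i).le)) h4 2
  have hmeas3 : Measurable (fun p : (Zd d × Zd d) × ℝ => Fz d b v (p.1.2 + p.2 • (p.1.1 - p.1.2))) :=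
    hF.comp (by fun_prop)
  have hmeas2 : Measurable (fun p : Zd d × Zd d =>
      ∫⁻ t in Ioc (0:ℝ) 1, Fz d b v (p.2 + t • (p.1 - p.2))) :=
    Measurable.lintegral_prod_right' hmeas3
  calc _ ≤ ∫⁻ y in Qb d b, ∫⁻ y' in Qb d b,
        ENNReal.ofReal D * ∫⁻ t in Ioc (0:ℝ) 1, Fz d b v (y' + t • (y - y')) := by
        apply setLIntegral_mono'  hQ
        intro y hy
        apply setLIntegral_mono' hQ
        intro y' hy'
        exact hpt y hy y' hy'
    _ = ENNReal.ofReal D * ∫⁻ y in Qb d b, ∫⁻ y' in Qb d b,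
        ∫⁻ t in Ioc (0:ℝ) 1, Fz d b v (y' + t • (y - y')) := by
        rw [← lintegral_const_mul' _ _ ENNReal.ofReal_ne_top]
        congr 1
        funext y
        rw [lintegral_const_mul' _ _ ENNReal.ofReal_ne_top]
    _ ≤ _ := by
        apply mul_le_mul_right
        have e1 : ∀ y, ∫⁻ y' in Qb d b, ∫⁻ t in Ioc (0:ℝ) 1, Fz d b v (y' + t • (y - y')) =
            ∫⁻ t in Ioc (0:ℝ) 1, ∫⁻ y' in Qb d b, Fz d b v (y' + t • (y - y')) := by
          intro y
          apply lintegral_lintegral_swap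
          apply Measurable.aemeasurable
          exact hF.comp (by fun_prop)
        simp only [e1]
        rw [lintegral_lintegral_swap]
        · calc ∫⁻ t in Ioc (0:ℝ) 1, ∫⁻ y in Qb d b, ∫⁻ y' in Qb d b,
              Fz d b v (y' + t • (y - y')) ≤ ∫⁻ _ in Ioc (0:ℝ) 1,
                (volume (Qb d b) * (2 ^ d * ∫⁻ z, Fz d b v z)) :=
                lintegral_mono fun t => lint_time hv
            _ = _ := by
                rw [lintegral_const, Measure.restrict_apply_univ, Real.volume_Ioc]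
                simp
        · apply Measurable.aemeasurable
          have h5 : Measurable (fun p : (Zd d × ℝ) × Zd d =>
              Fz d b v (p.2 + p.1.2 • (p.1.1 - p.2))) := hF.comp (by fun_prop)
          exact Measurable.lintegral_prod_right' h5

/-- the mass of the ground state -/
noncomputable def Nb (d : ℕ) (b : ℝ) : ℝ := ∫ z in Qb d b, chi d b z ^ 2

lemma Qb_subset (b : ℝ) : Qb d b ⊆ Metric.closedBall 0 (Real.sqrt (d * b ^ 2)) := by
  intro z hz
  rw [mem_closedBall_zero_iff]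
  apply Real.le_sqrt_of_sq_le
  rw [EuclideanSpace.norm_sq_eq]
  have h1 : ∀ i ∈ Finset.univ, ‖z i‖ ^ 2 ≤ b ^ 2 := fun i _ =>
    pow_le_pow_left₀ (norm_nonneg _) (hz i).le 2
  calc _ ≤ ∑ i : Fin d, b ^ 2 := Finset.sum_le_sum h1
    _ = d * b ^ 2 := by rw [Finset.sum_const, Finset.card_univ, Fintype.card_fin]; simp

lemma vol_Qb_lt (b : ℝ) : volume (Qb d b) < ⊤ :=
  (measure_mono (Qb_subset b)).trans_lt
    (isCompact_closedBall (0 : Zd d) (Real.sqrt (d * b ^ 2))).measure_lt_top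

lemma int_Qb {f : Zd d → ℝ} (hf : Continuous f) (b : ℝ) :
    Integrable f ((volume : Measure (Zd d)).restrict (Qb d b)) :=
  (hf.continuousOn.integrableOn_compact (isCompact_closedBall (0 : Zd d)
    (Real.sqrt (d * b ^ 2)))).mono_set (Qb_subset b)

lemma diam_Qb {b : ℝ} {y y' : Zd d} (hy : y ∈ Qb d b) (hy' : y' ∈ Qb d b) :
    ‖y - y'‖ ^ 2 ≤ 4 * d * b ^ 2 := by
  rw [EuclideanSpace.norm_sq_eq]
  have h1 : ∀ i ∈ Finset.univ, ‖(y - y') i‖ ^ 2 ≤ 4 * b ^ 2 := by
    intro i _
    have h2 := abs_lt.1 (hy i)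
    have h3 := abs_lt.1 (hy' i)
    rw [Real.norm_eq_abs, sq_abs]
    have e : (y - y') i = y i - y' i := rfl
    rw [e]
    nlinarith [h2.1, h2.2, h3.1, h3.2]
  calc _ ≤ ∑ i : Fin d, 4 * b ^ 2 := Finset.sum_le_sum h1
    _ = 4 * d * b ^ 2 := by
      rw [Finset.sum_const, Finset.card_univ, Fintype.card_fin, nsmul_eq_mul]; ring

/-- weighted Poincare inequality -/
theorem poincare {b : ℝ} (hb : 0 < b) {v : Zd d → ℝ} (hv : ContDiff ℝ ∞ v) :
    2 * (Nb d b * (∫ z in Qb d b, chi d b z ^ 2 * v z ^ 2) -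
      (∫ z in Qb d b, chi d b z ^ 2 * v z) ^ 2) ≤
      4 * d * b ^ 2 * ((volume (Qb d b)).toReal * (2 ^ d *
        ∫ z in Qb d b, chi d b z ^ 2 * gz v z)) := by
  have hc := (contDiff_chi (d := d) b).continuous
  have hvc := hv.continuous
  have hg := cont_gz hv
  have h1 := lint_double hb hv (D := 4 * d * b ^ 2) fun y hy y' hy' => diam_Qb hy hy'
  obtain ⟨N, hN⟩ : ∃ N, N = Nb d b := ⟨_, rfl⟩
  obtain ⟨B, hB⟩ : ∃ B, B = ∫ z in Qb d b, chi d b z ^ 2 * v z := ⟨_, rfl⟩
  obtain ⟨C, hC⟩ : ∃ C, C = ∫ z in Qb d b, chi d b z ^ 2 * v z ^ 2 := ⟨_, rfl⟩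
  obtain ⟨I, hI⟩ : ∃ I, I = ∫ z in Qb d b, chi d b z ^ 2 * gz v z := ⟨_, rfl⟩
  have hI0 : 0 ≤ I := by
    rw [hI]; exact integral_nonneg fun z => mul_nonneg (sq_nonneg _) (gz_nonneg _ _)
  have hFI : ∫⁻ z, Fz d b v z = ENNReal.ofReal I := by
    rw [hI, ofReal_integral_eq_lintegral_ofReal (int_Qb (by fun_prop) b)
      (ae_of_all _ fun z => mul_nonneg (sq_nonneg _) (gz_nonneg _ _))]
    unfold Fz
    rw [lintegral_indicator (isOpen_Qb b).measurableSet]
  have i1 : Integrable (fun z => chi d b z ^ 2) ((volume : Measure (Zd d)).restrict (Qb d b)) :=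
    int_Qb (by fun_prop) b
  have i2 : Integrable (fun z => chi d b z ^ 2 * v z)
      ((volume : Measure (Zd d)).restrict (Qb d b)) := int_Qb (by fun_prop) b
  have i3 : Integrable (fun z => chi d b z ^ 2 * v z ^ 2)
      ((volume : Measure (Zd d)).restrict (Qb d b)) := int_Qb (by fun_prop) b
  have inner : ∀ y, ∫ y' in Qb d b, chi d b y ^ 2 * chi d b y' ^ 2 * (v y - v y') ^ 2 =
      N * (chi d b y ^ 2 * v y ^ 2) + (-2 * B) * (chi d b y ^ 2 * v y) + C * chi d b y ^ 2 := by
    intro y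
    have e : ∀ y', chi d b y ^ 2 * chi d b y' ^ 2 * (v y - v y') ^ 2 =
        (chi d b y ^ 2 * v y ^ 2) * chi d b y' ^ 2 +
        (-2 * (chi d b y ^ 2 * v y)) * (chi d b y' ^ 2 * v y') +
        chi d b y ^ 2 * (chi d b y' ^ 2 * v y' ^ 2) := fun y' => by ring
    simp only [e]
    have j1 : Integrable (fun y' => (chi d b y ^ 2 * v y ^ 2) * chi d b y' ^ 2)
        ((volume : Measure (Zd d)).restrict (Qb d b)) := i1.const_mul _
    have j2 : Integrable (fun y' => (-2 * (chi d b y ^ 2 * v y)) * (chi d b y' ^ 2 * v y'))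
        ((volume : Measure (Zd d)).restrict (Qb d b)) := i2.const_mul _
    have j3 : Integrable (fun y' => chi d b y ^ 2 * (chi d b y' ^ 2 * v y' ^ 2))
        ((volume : Measure (Zd d)).restrict (Qb d b)) := i3.const_mul _
    have j12 : Integrable (fun y' => (chi d b y ^ 2 * v y ^ 2) * chi d b y' ^ 2 +
        (-2 * (chi d b y ^ 2 * v y)) * (chi d b y' ^ 2 * v y'))
        ((volume : Measure (Zd d)).restrict (Qb d b)) := j1.add j2
    rw [integral_add j12 j3, integral_add j1 j2, integral_const_mul, integral_const_mul,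
      integral_const_mul, ← hB, ← hC]
    have e2 : ∫ y' in Qb d b, chi d b y' ^ 2 = N := by rw [hN]; rfl
    rw [e2]; ring
  have hnn : ∀ y y', 0 ≤ chi d b y ^ 2 * chi d b y' ^ 2 * (v y - v y') ^ 2 := fun y y' => by
    positivity
  have outer : ∫ y in Qb d b, ∫ y' in Qb d b,
      chi d b y ^ 2 * chi d b y' ^ 2 * (v y - v y') ^ 2 = 2 * (N * C - B ^ 2) := by
    simp only [inner]
    have j1 : Integrable (fun y => N * (chi d b y ^ 2 * v y ^ 2))
        ((volume : Measure (Zd d)).restrict (Qb d b)) := i3.const_mul _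
    have j2 : Integrable (fun y => (-2 * B) * (chi d b y ^ 2 * v y))
        ((volume : Measure (Zd d)).restrict (Qb d b)) := i2.const_mul _
    have j3 : Integrable (fun y => C * chi d b y ^ 2)
        ((volume : Measure (Zd d)).restrict (Qb d b)) := i1.const_mul _
    have j12 : Integrable (fun y => N * (chi d b y ^ 2 * v y ^ 2) +
        (-2 * B) * (chi d b y ^ 2 * v y))
        ((volume : Measure (Zd d)).restrict (Qb d b)) := j1.add j2
    rw [integral_add j12 j3, integral_add j1 j2, integral_const_mul, integral_const_mul,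
      integral_const_mul, ← hB, ← hC]
    have e2 : ∫ y' in Qb d b, chi d b y' ^ 2 = N := by rw [hN]; rfl
    rw [e2]; ring
  have hout : Integrable (fun y => ∫ y' in Qb d b,
      chi d b y ^ 2 * chi d b y' ^ 2 * (v y - v y') ^ 2)
      ((volume : Measure (Zd d)).restrict (Qb d b)) := by
    simp only [inner]
    exact ((i3.const_mul N).add (i2.const_mul (-2 * B))).add (i1.const_mul C)
  have hin : ∀ y, Integrable (fun y' => chi d b y ^ 2 * chi d b y' ^ 2 * (v y - v y') ^ 2)
      ((volume : Measure (Zd d)).restrict (Qb d b)) := fun y => int_Qb (by fun_prop) b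
  have hlin : ∫⁻ y in Qb d b, ∫⁻ y' in Qb d b,
      ENNReal.ofReal (chi d b y ^ 2 * chi d b y' ^ 2 * (v y - v y') ^ 2) =
      ENNReal.ofReal (2 * (N * C - B ^ 2)) := by
    rw [← outer, ofReal_integral_eq_lintegral_ofReal hout
      (ae_of_all _ fun y => integral_nonneg fun y' => hnn y y')]
    congr 1
    funext y
    rw [ofReal_integral_eq_lintegral_ofReal (hin y) (ae_of_all _ fun y' => hnn y y')]
  rw [hlin, hFI] at h1
  rw [← hN, ← hB, ← hC, ← hI]
  have hV : volume (Qb d b) = ENNReal.ofReal (volume (Qb d b)).toReal :=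
    (ENNReal.ofReal_toReal (vol_Qb_lt b).ne).symm
  have h2d : (2:ℝ≥0∞) ^ d = ENNReal.ofReal (2 ^ d) := by
    rw [ENNReal.ofReal_pow (by norm_num)]; norm_num
  rw [hV, h2d, ← ENNReal.ofReal_mul (by positivity), ← ENNReal.ofReal_mul (by positivity),
    ← ENNReal.ofReal_mul (by positivity)] at h1
  exact (ENNReal.ofReal_le_ofReal_iff (by positivity)).1 h1

end Pool.Agent.H56.BN
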