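import Mathlib
import Pool.Agent.H56.BN.Cube3

/-!
The transversal inequality on the cube.
-/

set_option autoImplicit false
set_option maxHeartbeats 1000000

namespace Pool.Agent.H56.BN

open MeasureTheory Filter Topology Set
open scoped ContDiff ENNReal Pointwise

variable {d : ℕ}

lemma cos_sq_half {x : ℝ} (hx : |x| ≤ Real.pi / 4) : 1 / 2 ≤ Real.cos x ^ 2 := by
  have h1 : Real.cos (Real.pi / 4) ≤ Real.cos |x| :=
    Real.cos_le_cos_of_nonneg_of_le_pi (abs_nonneg _) (by have := Real.pi_pos; linarith) hx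
  rw [Real.cos_abs, Real.cos_pi_div_four] at h1
  have h2 : (Real.sqrt 2 / 2) ^ 2 = 1 / 2 := by
    rw [div_pow, Real.sq_sqrt (by norm_num)]; norm_num
  rw [← h2]
  exact pow_le_pow_left₀ (by positivity) h1 2

lemma chi_sq_half {b : ℝ} (hb : 0 < b) {z : Zd d} (hz : z ∈ Qb d (b / 2)) :
    (1 / 2) ^ d ≤ chi d b z ^ 2 := by
  unfold chi
  rw [← Finset.prod_pow]
  calc (1 / 2 : ℝ) ^ d = ∏ i : Fin d, (1 / 2 : ℝ) := by
        rw [Finset.prod_const, Finset.card_univ, Fintype.card_fin]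
    _ ≤ _ := by
      apply Finset.prod_le_prod
      · intro i _; norm_num
      · intro i _
        apply cos_sq_half
        unfold om
        have := Real.pi_pos
        rw [abs_mul, abs_of_pos (by positivity), div_mul_eq_mul_div,
          div_le_div_iff₀ (by positivity) (by norm_num)]
        have h2 := (hz i).le
        nlinarith

lemma vol_Qb_half (b : ℝ) : volume (Qb d b) = 2 ^ d * volume (Qb d (b / 2)) := by
  have e : Qb d b = (2:ℝ) • Qb d (b / 2) := by
    ext z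
    rw [Set.mem_smul_set_iff_inv_smul_mem₀ (by norm_num)]
    constructor
    · intro h i
      have := h i
      have e2 : ((2:ℝ)⁻¹ • z) i = z i / 2 := by
        rw [PiLp.smul_apply, smul_eq_mul]; ring
      rw [e2, abs_div, abs_of_pos (by norm_num : (0:ℝ) < 2)]
      linarith
    · intro h i
      have := h i
      have e2 : ((2:ℝ)⁻¹ • z) i = z i / 2 := by
        rw [PiLp.smul_apply, smul_eq_mul]; ring
      rw [e2, abs_div, abs_of_pos (by norm_num : (0:ℝ) < 2)] at this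
      linarith
  rw [e, Measure.addHaar_smul, finrank_euclideanSpace, Fintype.card_fin]
  congr 1
  rw [abs_of_pos (by positivity), ENNReal.ofReal_pow (by norm_num)]
  norm_num

lemma vol_Qb_pos {b : ℝ} (hb : 0 < b) : 0 < (volume (Qb d b)).toReal := by
  apply ENNReal.toReal_pos _ (vol_Qb_lt b).ne
  exact ((isOpen_Qb b).measure_pos volume ⟨0, fun i => by simpa using hb⟩).ne'

lemma Nb_ge {b : ℝ} (hb : 0 < b) : (1 / 4) ^ d * (volume (Qb d b)).toReal ≤ Nb d b := by
  have hsub : Qb d (b / 2) ⊆ Qb d b := fun z hz i => (hz i).trans (by linarith)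
  have h1 : ∫ z in Qb d (b / 2), (1 / 2 : ℝ) ^ d ≤ Nb d b := by
    calc ∫ z in Qb d (b / 2), (1 / 2 : ℝ) ^ d ≤ ∫ z in Qb d (b / 2), chi d b z ^ 2 := by
          apply setIntegral_mono_on
          · exact integrableOn_const (vol_Qb_lt _).ne
          · exact int_Qb ((contDiff_chi b).continuous.pow 2) _
          · exact (isOpen_Qb _).measurableSet
          · intro z hz
            exact chi_sq_half hb hz
      _ ≤ _ := by
          apply setIntegral_mono_set (int_Qb ((contDiff_chi b).continuous.pow 2) b)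
            (ae_of_all _ fun z => sq_nonneg _) hsub.eventuallyLE
  rw [setIntegral_const, smul_eq_mul] at h1
  have h2 : (volume (Qb d b)).toReal = 2 ^ d * (volume (Qb d (b / 2))).toReal := by
    rw [vol_Qb_half, ENNReal.toReal_mul, ENNReal.toReal_pow]; norm_num
  rw [h2]
  have e : (1 / 4 : ℝ) ^ d * (2 ^ d * (volume (Qb d (b / 2))).toReal) =
      (volume.real (Qb d (b / 2))) * (1 / 2 : ℝ) ^ d := by
    rw [← mul_assoc, ← mul_pow, mul_comm]
    norm_num
    rfl
  rw [e]
  exact h1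

lemma Nb_pos {b : ℝ} (hb : 0 < b) : 0 < Nb d b :=
  lt_of_lt_of_le (mul_pos (by positivity) (vol_Qb_pos hb)) (Nb_ge hb)

/-- the transversal gap -/
noncomputable def Gb (d : ℕ) (b : ℝ) : ℝ :=
  2 * Nb d b / (4 * d * b ^ 2 * ((volume (Qb d b)).toReal * 2 ^ d))

lemma Gb_ge (hd : 1 ≤ d) {b : ℝ} (hb : 0 < b) : 1 / (2 * 8 ^ d * d * b ^ 2) ≤ Gb d b := by
  unfold Gb
  have hV := vol_Qb_pos (d := d) hb
  have hN := Nb_ge (d := d) hb
  have hd' : (0:ℝ) < d := by exact_mod_cast hd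
  obtain ⟨V, hVd⟩ : ∃ V, V = (volume (Qb d b)).toReal := ⟨_, rfl⟩
  rw [← hVd] at hV hN ⊢
  rw [div_le_div_iff₀ (by positivity) (by positivity)]
  have e : (8:ℝ) ^ d * (1 / 4) ^ d = 2 ^ d := by rw [← mul_pow]; norm_num
  calc 1 * (4 * d * b ^ 2 * (V * 2 ^ d)) = (2 * ((1 / 4) ^ d * V)) * (2 * 8 ^ d * d * b ^ 2) := by
        rw [← e]; ring
    _ ≤ 2 * Nb d b * (2 * 8 ^ d * d * b ^ 2) := by
        apply mul_le_mul_of_nonneg_right _ (by positivity)
        linarith

lemma trans_alg {A B I V N b D E : ℝ} (hN : 0 < N) (hV : 0 < V) (hD : 0 < D) (hb : 0 < b)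
    (hE : 0 < E) (hp : 2 * (N * A - B ^ 2) ≤ 4 * D * b ^ 2 * (V * (E * I))) :
    2 * N / (4 * D * b ^ 2 * (V * E)) * (A - 1 / N * B ^ 2) ≤ I := by
  have hK : 0 < 4 * D * b ^ 2 * (V * E) := by positivity
  have e3 : 2 * N / (4 * D * b ^ 2 * (V * E)) * (A - 1 / N * B ^ 2) =
      2 * (N * A - B ^ 2) / (4 * D * b ^ 2 * (V * E)) := by
    field_simp
  rw [e3, div_le_iff₀ hK]
  linarith

/-- **the transversal inequality** -/
theorem trans_ineq (hd : 1 ≤ d) {b : ℝ} (hb : 0 < b) {ψ : Zd d → ℝ} (h : TZ (Qb d b) ψ) :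
    d * om b ^ 2 * (∫ z, ψ z ^ 2) + Gb d b * ((∫ z, ψ z ^ 2) -
      (1 / Nb d b) * (∫ z, chi d b z * ψ z) ^ 2) ≤ ∫ z, gz ψ z := by
  have hN := Nb_pos (d := d) hb
  have hV := vol_Qb_pos (d := d) hb
  have hd' : (0:ℝ) < d := by exact_mod_cast hd
  have hQ := (isOpen_Qb (d := d) b).measurableSet
  have hinv : ContDiffOn ℝ ∞ (fun z => (chi d b z)⁻¹) (Qb d b) :=
    (contDiff_chi b).contDiffOn.inv fun z hz => (chi_pos hb hz).ne'
  have hv : TZ (Qb d b) (fun z => (chi d b z)⁻¹ * ψ z) :=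
    h.mul_left (isOpen_Qb b) hinv (subset_refl _)
  obtain ⟨v, hvd⟩ : ∃ v : Zd d → ℝ, v = fun z => (chi d b z)⁻¹ * ψ z := ⟨_, rfl⟩
  rw [← hvd] at hv
  have hcv : ∀ z, chi d b z * v z = ψ z := by
    intro z
    by_cases hz : z ∈ Qb d b
    · rw [hvd]
      have := (chi_pos hb hz).ne'
      show chi d b z * ((chi d b z)⁻¹ * ψ z) = ψ z
      field_simp
    · rw [hv.zero hz, h.zero hz, mul_zero]
  have hψ : (fun z => chi d b z * v z) = ψ := funext hcv
  have hc := (contDiff_chi (d := d) b).continuous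
  have hJ : ∀ j, ∫ z, dd ψ j z ^ 2 = (∫ z, chi d b z ^ 2 * dd v j z ^ 2) +
      om b ^ 2 * ∫ z, ψ z ^ 2 := by
    intro j
    have := jacobi b hv j
    rw [hψ] at this
    simp only [hcv] at this
    exact this
  have hg1 : ∫ z, gz ψ z = ∑ j, ∫ z, dd ψ j z ^ 2 := by
    unfold gz
    apply integral_finset_sum
    intro j _
    have := cont_dd h.smooth j
    exact h.int (by fun_prop) fun z hz => by rw [dd_zero hz]; norm_num
  have hdv := fun j => cont_dd hv.smooth j
  have hg2 : ∫ z, chi d b z ^ 2 * gz v z = ∑ j, ∫ z, chi d b z ^ 2 * dd v j z ^ 2 := by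
    unfold gz
    simp only [Finset.mul_sum]
    apply integral_finset_sum
    intro j _
    have := cont_dd hv.smooth j
    exact hv.int (by fun_prop) fun z hz => by rw [dd_zero hz]; norm_num
  have hg3 : ∫ z, gz ψ z = (∫ z, chi d b z ^ 2 * gz v z) + d * om b ^ 2 * ∫ z, ψ z ^ 2 := by
    rw [hg1, hg2, Finset.sum_congr rfl fun j _ => hJ j, Finset.sum_add_distrib, Finset.sum_const,
      Finset.card_univ, Fintype.card_fin, nsmul_eq_mul]
    ring
  have hset : ∀ f : Zd d → ℝ, (∀ z, z ∉ Qb d b → f z = 0) → ∫ z in Qb d b, f z = ∫ z, f z := by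
    intro f hf
    rw [← integral_indicator hQ]
    congr 1
    funext z
    by_cases hz : z ∈ Qb d b
    · rw [indicator_of_mem hz]
    · rw [indicator_of_notMem hz, hf z hz]
  have hp := poincare hb hv.smooth
  rw [hset _ fun z hz => by rw [hv.zero hz]; ring, hset _ fun z hz => by rw [hv.zero hz]; ring,
    hset (fun z => chi d b z ^ 2 * gz v z) fun z hz => by
      unfold gz
      rw [Finset.sum_eq_zero fun j _ => by
        rw [dd_zero fun h' => hz (hv.supp h')]; norm_num]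
      ring] at hp
  have e1 : ∫ z, chi d b z ^ 2 * v z ^ 2 = ∫ z, ψ z ^ 2 := by
    congr 1; funext z; rw [← hcv]; ring
  have e2 : ∫ z, chi d b z ^ 2 * v z = ∫ z, chi d b z * ψ z := by
    congr 1; funext z; rw [← hcv]; ring
  rw [e1, e2] at hp
  rw [hg3]
  have := trans_alg (E := 2 ^ d) hN hV hd' hb (by positivity) hp
  unfold Gb
  linarith

end Pool.Agent.H56.BN
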