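import Mathlib

/-!
The weighted one dimensional Dirichlet inequality.
-/

set_option autoImplicit false
set_option maxHeartbeats 1000000

namespace Pool.Agent.H56.BN

open MeasureTheory Filter Topology Set
open scoped ContDiff

/-- smooth functions with compact support in `(a,b)` -/
structure T1 (a b : ℝ) (g : ℝ → ℝ) : Prop where
  smooth : ContDiff ℝ ∞ g
  cpt : HasCompactSupport g
  supp : tsupport g ⊆ Ioo a b

/-- the one dimensional inequality -/
def F1 (k : ℕ) (a b L : ℝ) : Prop :=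
  ∀ g : ℝ → ℝ, T1 a b g → L * ∫ x, x ^ k * g x ^ 2 ≤ ∫ x, x ^ k * deriv g x ^ 2

variable {k : ℕ} {a b a' b' L : ℝ} {g : ℝ → ℝ}

lemma T1.mono (h : T1 a b g) (ha : a' ≤ a) (hb : b ≤ b') : T1 a' b' g :=
  ⟨h.smooth, h.cpt, h.supp.trans (Ioo_subset_Ioo ha hb)⟩

lemma T1.zero (h : T1 a b g) {x : ℝ} (hx : x ∉ Ioo a b) : g x = 0 :=
  image_eq_zero_of_notMem_tsupport fun h' => hx (h.supp h')

lemma T1.cont (h : T1 a b g) : Continuous g := h.smooth.continuous

lemma T1.contDeriv (h : T1 a b g) : Continuous (deriv g) :=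
  h.smooth.continuous_deriv (by simp)

lemma T1.hasDeriv (h : T1 a b g) (x : ℝ) : HasDerivAt g (deriv g x) x :=
  (h.smooth.differentiable (by simp) x).hasDerivAt

lemma T1.dzero (h : T1 a b g) {x : ℝ} (hx : x ∉ tsupport g) : deriv g x = 0 := by
  have h1 := notMem_tsupport_iff_eventuallyEq.1 hx
  rw [h1.deriv_eq]
  exact deriv_const x 0

lemma hcs_wt {w f : ℝ → ℝ} (hf : HasCompactSupport f) : HasCompactSupport (fun x => w x * f x) :=
  hf.mul_left

lemma hcs_sq {f : ℝ → ℝ} (hf : HasCompactSupport f) : HasCompactSupport (fun x => f x ^ 2) := by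
  refine HasCompactSupport.of_support_subset_isCompact hf (fun x hx => ?_)
  apply subset_tsupport
  intro h0
  apply hx
  show f x ^ 2 = 0
  rw [h0]; norm_num

lemma T1.int_wt (h : T1 a b g) {w : ℝ → ℝ} (hw : Continuous w) :
    Integrable (fun x => w x * g x ^ 2) := by
  have h1 := h.cont
  have h2 : Continuous (fun x => w x * g x ^ 2) := by fun_prop
  exact h2.integrable_of_hasCompactSupport
    (hcs_wt (w := w) (f := fun x => g x ^ 2) (hcs_sq h.cpt))

lemma T1.int_wt' (h : T1 a b g) {w : ℝ → ℝ} (hw : Continuous w) :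
    Integrable (fun x => w x * deriv g x ^ 2) := by
  have h1 := h.contDeriv
  have h2 : Continuous (fun x => w x * deriv g x ^ 2) := by fun_prop
  exact h2.integrable_of_hasCompactSupport
    (hcs_wt (w := w) (f := fun x => deriv g x ^ 2) (hcs_sq h.cpt.deriv))

lemma T1.nonneg (ha : 0 ≤ a) (h : T1 a b g) : 0 ≤ ∫ x, x ^ k * g x ^ 2 := by
  apply integral_nonneg
  intro x
  show 0 ≤ x ^ k * g x ^ 2
  by_cases hx : x ∈ Ioo a b
  · have : 0 ≤ x := ha.trans hx.1.le
    positivity
  · rw [h.zero hx]; simp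

lemma F1.mono_int (h : F1 k a b L) (ha : a ≤ a') (hb : b' ≤ b) : F1 k a' b' L :=
  fun g hg => h g (hg.mono ha hb)

lemma F1.mono_L (ha : 0 ≤ a) (h : F1 k a b L) {L' : ℝ} (hL : L' ≤ L) : F1 k a b L' :=
  fun _ hg => (mul_le_mul_of_nonneg_right hL (hg.nonneg ha)).trans (h _ hg)

/-- primitive bound -/
lemma prim_le {x a : ℝ} (ha : 0 ≤ a) (hx : a ≤ x) (k : ℕ) :
    0 ≤ (x ^ (k + 1) - a ^ (k + 1)) / (k + 1) ∧
      (x ^ (k + 1) - a ^ (k + 1)) / (k + 1) ≤ x ^ k * (x - a) := by
  have h0 : a ^ (k + 1) ≤ x ^ (k + 1) := pow_le_pow_left₀ ha hx _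
  refine ⟨div_nonneg (by linarith) (by positivity), ?_⟩
  rw [div_le_iff₀ (by positivity)]
  have h1 : x ^ (k + 1) - a ^ (k + 1) =
      (∑ i ∈ Finset.range (k + 1), x ^ i * a ^ (k - i)) * (x - a) := by
    have := (Commute.all x a).geom_sum₂_mul (k + 1)
    rw [← this]
    rfl
  rw [h1]
  have h2 : ∑ i ∈ Finset.range (k + 1), x ^ i * a ^ (k - i) ≤ (k + 1) * x ^ k := by
    have h3 : ∀ i ∈ Finset.range (k + 1), x ^ i * a ^ (k - i) ≤ x ^ k := by
      intro i hi
      have hi' : i ≤ k := Nat.lt_succ_iff.1 (Finset.mem_range.1 hi)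
      have hx0 : 0 ≤ x := ha.trans hx
      calc x ^ i * a ^ (k - i) ≤ x ^ i * x ^ (k - i) :=
            mul_le_mul_of_nonneg_left (pow_le_pow_left₀ ha hx _) (by positivity)
        _ = x ^ k := by rw [← pow_add]; congr 1; omega
    calc _ ≤ ∑ i ∈ Finset.range (k + 1), x ^ k := Finset.sum_le_sum h3
      _ = (k + 1) * x ^ k := by rw [Finset.sum_const, Finset.card_range]; simp
  have h4 : 0 ≤ x - a := by linarith
  nlinarith [mul_le_mul_of_nonneg_right h2 h4]

/-- short intervals -/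
lemma F1_small (ha : 0 ≤ a) (h : 4 * (b - a) ^ 2 * L ≤ 1) (hab : a < b) : F1 k a b L := by
  intro g hg
  set P : ℝ → ℝ := fun x => (x ^ (k + 1) - a ^ (k + 1)) / (k + 1) with hP
  have hPd : ∀ x, HasDerivAt P (x ^ k) x := by
    intro x
    have h1 := ((hasDerivAt_pow (k + 1) x).sub_const (a ^ (k + 1))).div_const ((k:ℝ) + 1)
    refine h1.congr_deriv ?_
    push_cast
    have : (k:ℝ) + 1 ≠ 0 := by positivity
    field_simp
    try simp
  have hPc : Continuous P := by
    rw [hP]; fun_prop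
  have hder : ∀ x, HasDerivAt (fun x => P x * g x ^ 2)
      (x ^ k * g x ^ 2 + P x * (2 * g x * deriv g x)) x := by
    intro x
    have h1 := (hPd x).mul ((hg.hasDeriv x).pow 2)
    refine h1.congr_deriv ?_
    simp
  have hi1 : Integrable (fun x => x ^ k * g x ^ 2) := hg.int_wt (w := fun x => x ^ k) (by fun_prop)
  have hi2 : Integrable (fun x => P x * (2 * g x * deriv g x)) := by
    apply Continuous.integrable_of_hasCompactSupport
    · exact hPc.mul ((continuous_const.mul hg.cont).mul hg.contDeriv)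
    · exact (hg.cpt.mul_left.mul_right).mul_left
  have hi3 : Integrable (fun x => P x * g x ^ 2) := hg.int_wt hPc
  have h1 := integral_eq_zero_of_hasDerivAt_of_integrable hder (hi1.add hi2) hi3
  rw [integral_add hi1 hi2] at h1
  have hi4 : Integrable (fun x => x ^ k * deriv g x ^ 2) :=
    hg.int_wt' (w := fun x => x ^ k) (by fun_prop)
  have h2 : -(∫ x, P x * (2 * g x * deriv g x)) ≤
      (1 / 2) * (∫ x, x ^ k * g x ^ 2) + 2 * (b - a) ^ 2 * ∫ x, x ^ k * deriv g x ^ 2 := by
    rw [← integral_neg, ← integral_const_mul, ← integral_const_mul,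
      ← integral_add (hi1.const_mul _) (hi4.const_mul _)]
    apply integral_mono hi2.neg ((hi1.const_mul _).add (hi4.const_mul _))
    intro x
    show -(P x * (2 * g x * deriv g x)) ≤
      1 / 2 * (x ^ k * g x ^ 2) + 2 * (b - a) ^ 2 * (x ^ k * deriv g x ^ 2)
    by_cases hx : x ∈ Ioo a b
    · obtain ⟨h3, h4⟩ := prim_le ha hx.1.le k
      have h5 : P x ≤ x ^ k * (b - a) := h4.trans
        (mul_le_mul_of_nonneg_left (by linarith [hx.2]) (by have := ha.trans hx.1.le; positivity))
      have h6 : -(P x * (2 * g x * deriv g x)) ≤ P x * (2 * (|g x| * |deriv g x|)) := by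
        have h7 : -(g x * deriv g x) ≤ |g x| * |deriv g x| := by
          rw [← abs_mul]; exact neg_le_abs _
        have h8 : 0 ≤ P x := h3
        nlinarith
      have h9 : P x * (2 * (|g x| * |deriv g x|)) ≤
          x ^ k * (b - a) * (2 * (|g x| * |deriv g x|)) :=
        mul_le_mul_of_nonneg_right h5 (by positivity)
      have h10 : x ^ k * (b - a) * (2 * (|g x| * |deriv g x|)) ≤
          x ^ k * (1 / 2 * g x ^ 2 + 2 * (b - a) ^ 2 * deriv g x ^ 2) := by
        rw [mul_assoc]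
        apply mul_le_mul_of_nonneg_left _ (by have := ha.trans hx.1.le; positivity)
        have e1 : g x ^ 2 = |g x| ^ 2 := (sq_abs _).symm
        have e2 : deriv g x ^ 2 = |deriv g x| ^ 2 := (sq_abs _).symm
        rw [e1, e2]
        nlinarith [sq_nonneg (|g x| - 2 * (b - a) * |deriv g x|)]
      linarith
    · rw [hg.zero hx, hg.dzero fun h' => hx (hg.supp h')]; simp
  have h3 : ∫ x, x ^ k * g x ^ 2 ≤ 4 * (b - a) ^ 2 * ∫ x, x ^ k * deriv g x ^ 2 := by linarith
  have h4 := hg.nonneg (k := k) ha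
  have h5 : 0 ≤ ∫ x, x ^ k * deriv g x ^ 2 := by
    by_contra hcon
    push Not at hcon
    have : 0 < (b - a) ^ 2 := by have : 0 < b - a := by linarith
                                 positivity
    nlinarith
  rcases le_or_gt L 0 with hL | hL
  · nlinarith
  · calc L * ∫ x, x ^ k * g x ^ 2 ≤ L * (4 * (b - a) ^ 2 * ∫ x, x ^ k * deriv g x ^ 2) :=
          mul_le_mul_of_nonneg_left h3 hL.le
      _ = (4 * (b - a) ^ 2 * L) * ∫ x, x ^ k * deriv g x ^ 2 := by ring
      _ ≤ 1 * ∫ x, x ^ k * deriv g x ^ 2 := mul_le_mul_of_nonneg_right h h5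
      _ = _ := one_mul _

/-- closedness from inside -/
lemma F1_sup (h : ∀ b' < b, F1 k a b' L) : F1 k a b L := by
  intro g hg
  rcases (tsupport g).eq_empty_or_nonempty with he | hne
  · have : g = fun _ => 0 := by
      funext x
      exact image_eq_zero_of_notMem_tsupport (by rw [he]; simp)
    rw [this]; simp
  · obtain ⟨x, hx, hmax⟩ := hg.cpt.exists_isMaxOn hne continuous_id.continuousOn
    have hxb : x < b := (hg.supp hx).2
    refine h ((x + b) / 2) (by linarith) g ⟨hg.smooth, hg.cpt, fun y hy => ⟨(hg.supp hy).1, ?_⟩⟩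
    have : y ≤ x := hmax hy
    linarith

end Pool.Agent.H56.BN
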