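import Mathlib
import Pool.Agent.H56.BN.AEmb
import Pool.Agent.H56.BN.Cube4
import Pool.Agent.H56.BN.OneD
import Pool.Agent.H56.BN.Cemb

/-!
Volume of thin boxes and the size of the embedding constant.
-/

set_option autoImplicit false
set_option maxHeartbeats 1000000

namespace Pool.Agent.H56.BN

open MeasureTheory Filter Topology Set
open scoped ContDiff InnerProductSpace ENNReal

variable {k d : ℕ}

/-- rotation of a box -/
def Abox (k d : ℕ) (a b' b : ℝ) : Set (EE k d) := {X | a < ‖X.1‖ ∧ ‖X.1‖ < b' ∧ X.2 ∈ Qb d b}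

lemma Abox_eq (a b' b : ℝ) : Abox k d a b' b =
    (Metric.ball (0 : EuclideanSpace ℝ (Fin (k + 1))) b' \ Metric.closedBall 0 a) ×ˢ Qb d b := by
  ext X
  constructor
  · rintro ⟨h1, h2, h3⟩
    refine ⟨⟨by rw [mem_ball_zero_iff]; exact h2, ?_⟩, h3⟩
    rw [mem_closedBall_zero_iff]; exact not_le.2 h1
  · rintro ⟨⟨h1, h2⟩, h3⟩
    rw [mem_ball_zero_iff] at h1
    rw [mem_closedBall_zero_iff] at h2
    exact ⟨not_le.1 h2, h1, h3⟩

lemma measurable_Abox (a b' b : ℝ) : MeasurableSet (Abox k d a b' b) := by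
  rw [Abox_eq]
  exact (measurableSet_ball.diff measurableSet_closedBall).prod (isOpen_Qb b).measurableSet

lemma vol_Abox_ne (a b' b : ℝ) : volume (Abox k d a b' b) ≠ ⊤ := by
  rw [Abox_eq, Measure.volume_eq_prod, Measure.prod_prod]
  apply ENNReal.mul_ne_top _ (vol_Qb_lt b).ne
  exact ((measure_mono diff_subset).trans_lt measure_ball_lt_top).ne

lemma vol_Abox_le {a b' b : ℝ} (ha : 0 ≤ a) (hab : a ≤ b') :
    (volume (Abox k d a b' b)).toReal ≤ ck k * (b' ^ k * (b' - a)) * (volume (Qb d b)).toReal := by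
  rw [Abox_eq, Measure.volume_eq_prod, Measure.prod_prod, ENNReal.toReal_mul]
  apply mul_le_mul_of_nonneg_right _ ENNReal.toReal_nonneg
  obtain ⟨μ, hμ⟩ : ∃ μ : Measure (EuclideanSpace ℝ (Fin (k + 1))), μ = volume := ⟨_, rfl⟩
  have h1 : (volume : Measure (EuclideanSpace ℝ (Fin (k + 1)))).real
      (Metric.ball 0 b' \ Metric.closedBall 0 a) =
      (b' ^ (k + 1) - a ^ (k + 1)) *
        (volume : Measure (EuclideanSpace ℝ (Fin (k + 1)))).real (Metric.ball 0 1) := by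
    rcases hab.eq_or_lt with h | h
    · have : Metric.ball (0 : EuclideanSpace ℝ (Fin (k + 1))) b' \ Metric.closedBall 0 a = ∅ := by
        rw [h]
        exact diff_eq_empty.2 Metric.ball_subset_closedBall
      rw [this, h, sub_self, zero_mul]
      exact measureReal_empty
    · have hsub : Metric.closedBall (0 : EuclideanSpace ℝ (Fin (k + 1))) a ⊆ Metric.ball 0 b' :=
        Metric.closedBall_subset_ball h
      have hball : (volume : Measure (EuclideanSpace ℝ (Fin (k + 1)))).real (Metric.ball 0 b') =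
          b' ^ (k + 1) *
            (volume : Measure (EuclideanSpace ℝ (Fin (k + 1)))).real (Metric.ball 0 1) := by
        rw [← Measure.addHaar_real_closedBall_eq_addHaar_real_ball _ 0 b',
          Measure.addHaar_real_closedBall _ _ (ha.trans hab), finrank_euclideanSpace,
          Fintype.card_fin]
      rw [measureReal_diff hsub measurableSet_closedBall, hball,
        Measure.addHaar_real_closedBall _ _ ha, finrank_euclideanSpace, Fintype.card_fin]
      ring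
  have h2 : (volume (Metric.ball (0 : EuclideanSpace ℝ (Fin (k + 1))) b' \
      Metric.closedBall 0 a)).toReal = _ := h1
  rw [h2]
  obtain ⟨-, h3⟩ := prim_le ha hab k
  rw [div_le_iff₀ (by positivity)] at h3
  unfold ck
  have h4 : 0 ≤ (volume : Measure (EuclideanSpace ℝ (Fin (k + 1)))).real (Metric.ball 0 1) :=
    measureReal_nonneg
  have h5 := mul_le_mul_of_nonneg_right h3 h4
  push_cast
  linarith

/-- the product of the constants -/
lemma const_prod (hd : 2 ≤ d) {a b' l V : ℝ} (ha : 0 < a) (hab : a ≤ b') (hb2 : b' ≤ 2 * a)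
    (hl : 0 ≤ l) (hV : 0 ≤ V) {B : ℝ} (hB0 : 0 ≤ B) (hB : B ≤ ck k * (b' ^ k * l) * V) :
    Cemb k d a b' * (B ^ (1 / qex d - 1 / 2)) ^ 2 ≤
      ((ck k) ^ (2 / pex d) / SS d / ck k * 2 ^ k) * (ck k * V * l) ^ (2 / ((d:ℝ) + 1)) := by
  have hd' : (2:ℝ) ≤ d := by exact_mod_cast hd
  have hck := ck_pos k
  have hSS := SS_pos hd
  have hb' : 0 < b' := ha.trans_le hab
  have hk0 : 0 < b' ^ k := by positivity
  have ha0 : 0 < a ^ k := by positivity
  have e1 : (B ^ (1 / qex d - 1 / 2)) ^ 2 = B ^ (2 / ((d:ℝ) + 1)) := by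
    rw [← Real.rpow_two, ← Real.rpow_mul hB0]
    congr 1
    unfold qex
    have h1 : (d:ℝ) + 3 ≠ 0 := by linarith
    have h3 : (d:ℝ) + 1 ≠ 0 := by linarith
    field_simp
    ring
  have hexp : 0 ≤ 2 / ((d:ℝ) + 1) := by positivity
  have h2 : B ^ (2 / ((d:ℝ) + 1)) ≤ (b' ^ k) ^ (2 / ((d:ℝ) + 1)) *
      (ck k * V * l) ^ (2 / ((d:ℝ) + 1)) := by
    rw [← Real.mul_rpow hk0.le (by positivity)]
    apply Real.rpow_le_rpow hB0 _ hexp
    refine hB.trans (le_of_eq ?_)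
    ring
  have e2 : (b' ^ k) ^ (2 / pex d) * (b' ^ k) ^ (2 / ((d:ℝ) + 1)) = b' ^ k := by
    rw [← Real.rpow_add hk0]
    have : 2 / pex d + 2 / ((d:ℝ) + 1) = 1 := by
      unfold pex
      have h1 : (d:ℝ) - 1 ≠ 0 := by linarith
      have h3 : (d:ℝ) + 1 ≠ 0 := by linarith
      field_simp
      ring
    rw [this, Real.rpow_one]
  have h3 : b' ^ k ≤ 2 ^ k * a ^ k := by
    rw [← mul_pow]
    exact pow_le_pow_left₀ hb'.le hb2 k
  obtain ⟨X, hX⟩ : ∃ X, X = (b' ^ k) ^ (2 / pex d) := ⟨_, rfl⟩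
  obtain ⟨Y, hY⟩ : ∃ Y, Y = (b' ^ k) ^ (2 / ((d:ℝ) + 1)) := ⟨_, rfl⟩
  obtain ⟨Z, hZ⟩ : ∃ Z, Z = (ck k * V * l) ^ (2 / ((d:ℝ) + 1)) := ⟨_, rfl⟩
  obtain ⟨c, hc⟩ : ∃ c, c = (ck k) ^ (2 / pex d) := ⟨_, rfl⟩
  have hX0 : 0 < X := by rw [hX]; exact Real.rpow_pos_of_pos hk0 _
  have hY0 : 0 < Y := by rw [hY]; exact Real.rpow_pos_of_pos hk0 _
  have hZ0 : 0 ≤ Z := by rw [hZ]; exact Real.rpow_nonneg (by positivity) _
  have hc0 : 0 < c := by rw [hc]; exact Real.rpow_pos_of_pos hck _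
  have e3 : Cemb k d a b' = c / (SS d * (a ^ k / X)) / ck k := by
    rw [hc, hX]; rfl
  rw [e1, e3, ← hZ, ← hc]
  rw [← hY, ← hZ] at h2
  rw [← hX, ← hY] at e2
  calc c / (SS d * (a ^ k / X)) / ck k * B ^ (2 / ((d:ℝ) + 1)) ≤
        c / (SS d * (a ^ k / X)) / ck k * (Y * Z) := by gcongr
    _ = (c / SS d / ck k) * ((X * Y) / a ^ k) * Z := by field_simp
    _ ≤ (c / SS d / ck k) * (2 ^ k) * Z := by
        apply mul_le_mul_of_nonneg_right _ hZ0
        apply mul_le_mul_of_nonneg_left _ (by positivity)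
        rw [e2, div_le_iff₀ ha0]
        exact h3
    _ = _ := by ring

end Pool.Agent.H56.BN
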