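import Mathlib
import Pool.Agent.H56.BN.OneD

/-!
Partition points for the weighted one dimensional problem.
-/

set_option autoImplicit false
set_option maxHeartbeats 1000000

namespace Pool.Agent.H56.BN

open MeasureTheory Filter Topology Set
open scoped ContDiff

/-- a fixed bump in `(1,2)` -/
lemma exists_eta : ∃ η : ℝ → ℝ, T1 1 2 η ∧ 0 < ∫ x, η x ^ 2 := by
  obtain ⟨f, hf1, hf2, hf3, -, hf5⟩ := exists_contDiff_tsupport_subset (n := ⊤)
    (s := Ioo (1:ℝ) 2) (x := 3 / 2) (Ioo_mem_nhds (by norm_num) (by norm_num))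
  have hT : T1 1 2 f := ⟨by exact_mod_cast hf3, hf2, hf1⟩
  refine ⟨f, hT, ?_⟩
  have hi : Integrable (fun x => f x ^ 2) := by
    have := hT.int_wt (w := fun _ => 1) continuous_const
    simpa using this
  rw [integral_pos_iff_support_of_nonneg (fun x => sq_nonneg _) hi]
  have hc : Continuous fun x => f x ^ 2 := by
    have := hT.cont
    fun_prop
  refine hc.isOpen_support.measure_pos volume ⟨3 / 2, ?_⟩
  show f (3 / 2) ^ 2 ≠ 0
  rw [hf5]; norm_num

/-- rescaled bumps -/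
lemma exists_bump1 (k : ℕ) : ∃ C : ℝ, 0 < C ∧ ∀ a l : ℝ, 0 ≤ a → 0 < l →
    ∃ g : ℝ → ℝ, T1 a (a + 2 * l) g ∧ 0 < (∫ x, x ^ k * g x ^ 2) ∧
      ∫ x, x ^ k * deriv g x ^ 2 ≤ (C / l ^ 2) * ∫ x, x ^ k * g x ^ 2 := by
  obtain ⟨η, hη, hI0⟩ := exists_eta
  obtain ⟨I0, hI0d⟩ : ∃ I, I = ∫ x, η x ^ 2 := ⟨_, rfl⟩
  obtain ⟨I1, hI1d⟩ : ∃ I, I = ∫ x, deriv η x ^ 2 := ⟨_, rfl⟩
  rw [← hI0d] at hI0
  have hI1 : 0 ≤ I1 := by rw [hI1d]; exact integral_nonneg fun x => sq_nonneg _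
  refine ⟨2 ^ k * (I1 / I0) + 1, by positivity, ?_⟩
  intro a l ha hl
  set g : ℝ → ℝ := fun x => η ((x - a) / l) with hg
  have hsupp : tsupport g ⊆ Icc (a + l) (a + 2 * l) ∩ Ioo (a + l) (a + 2 * l) := by
    have h1 : tsupport g ⊆ (fun x => (x - a) / l) ⁻¹' tsupport η := by
      apply closure_minimal
      · intro x hx
        exact subset_tsupport η hx
      · exact (isClosed_tsupport η).preimage (by fun_prop)
    intro x hx
    have h2 := hη.supp (h1 hx)
    have h3 : 1 < (x - a) / l := h2.1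
    have h4 : (x - a) / l < 2 := h2.2
    rw [lt_div_iff₀ hl] at h3
    rw [div_lt_iff₀ hl] at h4
    exact ⟨⟨by linarith, by linarith⟩, by linarith, by linarith⟩
  have hT : T1 (a + l) (a + 2 * l) g := by
    refine ⟨?_, ?_, fun x hx => (hsupp hx).2⟩
    · have h1 : ContDiff ℝ ∞ (fun x : ℝ => (x - a) / l) := by fun_prop
      exact hη.smooth.comp h1
    · exact (isCompact_Icc (a := a + l) (b := a + 2 * l)).of_isClosed_subset
        (isClosed_tsupport g) fun x hx => (hsupp hx).1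
  have hder : ∀ x, deriv g x = deriv η ((x - a) / l) / l := by
    intro x
    have h1 : HasDerivAt (fun x : ℝ => (x - a) / l) (1 / l) x :=
      ((hasDerivAt_id x).sub_const a).div_const l
    have h2 := (hη.hasDeriv ((x - a) / l)).comp x h1
    rw [div_eq_mul_one_div]
    exact h2.deriv
  have e0 : ∫ x, g x ^ 2 = l * I0 := by
    have h1 : ∫ x, g x ^ 2 = ∫ x, (fun y => η y ^ 2) ((x - a) / l) := rfl
    rw [h1, integral_sub_right_eq_self (fun x => (fun y => η y ^ 2) (x / l)) a,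
      Measure.integral_comp_div (fun y => η y ^ 2) l, abs_of_pos hl, smul_eq_mul, hI0d]
  have e1 : ∫ x, deriv g x ^ 2 = I1 / l := by
    simp only [hder]
    have h1 : ∫ x, (deriv η ((x - a) / l) / l) ^ 2 =
        ∫ x, (fun y => (deriv η y / l) ^ 2) ((x - a) / l) := rfl
    rw [h1, integral_sub_right_eq_self (fun x => (fun y => (deriv η y / l) ^ 2) (x / l)) a,
      Measure.integral_comp_div (fun y => (deriv η y / l) ^ 2) l, abs_of_pos hl, smul_eq_mul]
    simp only [div_pow]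
    rw [integral_div, ← hI1d]
    field_simp
  have hi0 : Integrable (fun x => g x ^ 2) := by
    have := hT.int_wt (w := fun _ => 1) continuous_const
    simpa using this
  have hi1 : Integrable (fun x => deriv g x ^ 2) := by
    have := hT.int_wt' (w := fun _ => 1) continuous_const
    simpa using this
  have b0 : (a + l) ^ k * (l * I0) ≤ ∫ x, x ^ k * g x ^ 2 := by
    rw [← e0, ← integral_const_mul]
    apply integral_mono (hi0.const_mul _) (hT.int_wt (w := fun x => x ^ k) (by fun_prop))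
    intro x
    show (a + l) ^ k * g x ^ 2 ≤ x ^ k * g x ^ 2
    by_cases hx : x ∈ Ioo (a + l) (a + 2 * l)
    · exact mul_le_mul_of_nonneg_right (pow_le_pow_left₀ (by positivity) hx.1.le k) (sq_nonneg _)
    · rw [hT.zero hx]; simp
  have b1 : ∫ x, x ^ k * deriv g x ^ 2 ≤ (a + 2 * l) ^ k * (I1 / l) := by
    rw [← e1, ← integral_const_mul]
    apply integral_mono (hT.int_wt' (w := fun x => x ^ k) (by fun_prop)) (hi1.const_mul _)
    intro x
    show x ^ k * deriv g x ^ 2 ≤ (a + 2 * l) ^ k * deriv g x ^ 2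
    by_cases hx : x ∈ Ioo (a + l) (a + 2 * l)
    · exact mul_le_mul_of_nonneg_right (pow_le_pow_left₀ (by linarith [hx.1]) hx.2.le k)
        (sq_nonneg _)
    · rw [hT.dzero fun h' => hx (hT.supp h')]; simp
  have hpos : 0 < (a + l) ^ k * (l * I0) := by positivity
  refine ⟨g, hT.mono (by linarith) le_rfl, lt_of_lt_of_le hpos b0, b1.trans ?_⟩
  have h5 : (a + 2 * l) ^ k ≤ 2 ^ k * (a + l) ^ k := by
    rw [← mul_pow]
    exact pow_le_pow_left₀ (by positivity) (by linarith) k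
  calc (a + 2 * l) ^ k * (I1 / l) ≤ 2 ^ k * (a + l) ^ k * (I1 / l) :=
        mul_le_mul_of_nonneg_right h5 (by positivity)
    _ = (2 ^ k * (I1 / I0)) / l ^ 2 * ((a + l) ^ k * (l * I0)) := by field_simp
    _ ≤ (2 ^ k * (I1 / I0) + 1) / l ^ 2 * ((a + l) ^ k * (l * I0)) := by
        gcongr
        linarith
    _ ≤ _ := mul_le_mul_of_nonneg_left b0 (by positivity)

/-- the next partition point -/
theorem exists_next (k : ℕ) : ∃ C : ℝ, 0 < C ∧ ∀ a L : ℝ, 0 ≤ a → 0 < L →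
    ∃ t : ℝ, a < t ∧ F1 k a t L ∧ (∀ T > t, ¬ F1 k a T L) ∧ 1 / (4 * L) ≤ (t - a) ^ 2 ∧
      (t - a) ^ 2 ≤ C / L := by
  obtain ⟨C₀, hC₀, hb⟩ := exists_bump1 k
  refine ⟨8 * C₀, by positivity, ?_⟩
  intro a L ha hL
  set A : Set ℝ := {t | a < t ∧ F1 k a t L} with hA
  set s : ℝ := Real.sqrt (1 / (4 * L)) with hs
  have hs2 : s ^ 2 = 1 / (4 * L) := Real.sq_sqrt (by positivity)
  have hs0 : 0 < s := Real.sqrt_pos.2 (by positivity)
  have hmem : a + s ∈ A := by
    refine ⟨by linarith, F1_small ha ?_ (by linarith)⟩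
    rw [add_sub_cancel_left, hs2]
    field_simp
    exact le_rfl
  set l : ℝ := Real.sqrt (2 * C₀ / L) with hl
  have hl2 : l ^ 2 = 2 * C₀ / L := Real.sq_sqrt (by positivity)
  have hl0 : 0 < l := Real.sqrt_pos.2 (by positivity)
  have hub : ∀ t ∈ A, t ≤ a + 2 * l := by
    intro t ht
    by_contra hcon
    push Not at hcon
    obtain ⟨g, hg1, hg2, hg3⟩ := hb a l ha hl0
    have h1 := ht.2 g (hg1.mono le_rfl hcon.le)
    have h2 := h1.trans hg3
    have h3 : L ≤ C₀ / l ^ 2 := le_of_mul_le_mul_right h2 hg2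
    rw [hl2] at h3
    have h4 : C₀ / (2 * C₀ / L) = L / 2 := by field_simp
    rw [h4] at h3
    linarith
  have hbdd : BddAbove A := ⟨a + 2 * l, hub⟩
  have hle : a + s ≤ sSup A := le_csSup hbdd hmem
  refine ⟨sSup A, by linarith, ?_, ?_, ?_, ?_⟩
  · apply F1_sup
    intro b' hb'
    obtain ⟨t, ht, htb⟩ := exists_lt_of_lt_csSup ⟨_, hmem⟩ hb'
    exact ht.2.mono_int le_rfl htb.le
  · intro T hT hF
    have : T ≤ sSup A := le_csSup hbdd ⟨by linarith, hF⟩
    linarith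
  · rw [← hs2]
    exact pow_le_pow_left₀ hs0.le (by linarith) 2
  · have h1 : sSup A ≤ a + 2 * l := csSup_le ⟨_, hmem⟩ hub
    calc (sSup A - a) ^ 2 ≤ (2 * l) ^ 2 := pow_le_pow_left₀ (by linarith) (by linarith) 2
      _ = 4 * l ^ 2 := by ring
      _ = 8 * C₀ / L := by rw [hl2]; ring

/-- the partition -/
theorem exists_part (k : ℕ) : ∃ C : ℝ, 0 < C ∧ ∀ a L : ℝ, 0 ≤ a → 0 < L →
    ∃ t : ℕ → ℝ, t 0 = a ∧ ∀ i, t i < t (i + 1) ∧ F1 k (t i) (t (i + 1)) L ∧
      (∀ T > t (i + 1), ¬ F1 k (t i) T L) ∧ 1 / (4 * L) ≤ (t (i + 1) - t i) ^ 2 ∧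
      (t (i + 1) - t i) ^ 2 ≤ C / L := by
  obtain ⟨C, hC, h⟩ := exists_next k
  refine ⟨C, hC, ?_⟩
  intro a L ha hL
  have h' : ∀ x : {x : ℝ // 0 ≤ x}, ∃ y : {x : ℝ // 0 ≤ x}, (x:ℝ) < y ∧ F1 k x y L ∧
      (∀ T > (y:ℝ), ¬ F1 k x T L) ∧ 1 / (4 * L) ≤ ((y:ℝ) - x) ^ 2 ∧ ((y:ℝ) - x) ^ 2 ≤ C / L := by
    intro x
    obtain ⟨t, h1, h2, h3, h4, h5⟩ := h x L x.2 hL
    exact ⟨⟨t, x.2.trans h1.le⟩, h1, h2, h3, h4, h5⟩
  choose nx hnx using h'
  exact ⟨fun i => ((nx^[i] ⟨a, ha⟩ : {x : ℝ // 0 ≤ x}) : ℝ), rfl, fun i => by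
    simp only [Function.iterate_succ_apply']
    exact hnx _⟩

/-- disjoint functions with small quotient -/
theorem exists_disj {k : ℕ} {L : ℝ} {t : ℕ → ℝ} (ht : ∀ i, t i < t (i + 1))
    (hn : ∀ i, ∀ T > t (i + 1), ¬ F1 k (t i) T L) (m : ℕ) :
    ∀ T > t m, ∃ g : ℕ → ℝ → ℝ, (∀ i < m, T1 (t 0) T (g i) ∧
      ∫ x, x ^ k * deriv (g i) x ^ 2 < L * ∫ x, x ^ k * g i x ^ 2) ∧
      ∀ i < m, ∀ j < m, i ≠ j → Disjoint (tsupport (g i)) (tsupport (g j)) := by
  have hmono : StrictMono t := strictMono_nat_of_lt_succ ht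
  induction m with
  | zero => exact fun T _ => ⟨fun _ _ => 0, fun i hi => absurd hi (Nat.not_lt_zero _),
      fun i hi => absurd hi (Nat.not_lt_zero _)⟩
  | succ m ih =>
    intro T hT
    have h1 := hn m T hT
    unfold F1 at h1
    push Not at h1
    obtain ⟨g, hg, hgq⟩ := h1
    have hne : (tsupport g).Nonempty := by
      by_contra hcon
      rw [Set.not_nonempty_iff_eq_empty] at hcon
      have : g = fun _ => 0 := by
        funext x
        exact image_eq_zero_of_notMem_tsupport (by rw [hcon]; simp)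
      rw [this] at hgq
      simp at hgq
    obtain ⟨x₀, hx₀, hmin⟩ := hg.cpt.exists_isMinOn hne continuous_id.continuousOn
    have hx₀' : t m < x₀ := (hg.supp hx₀).1
    obtain ⟨G, hG1, hG2⟩ := ih ((t m + x₀) / 2) (by linarith)
    have hx₀T : x₀ < T := (hg.supp hx₀).2
    have hdis : ∀ i < m, Disjoint (tsupport (G i)) (tsupport g) := by
      intro i hi
      rw [Set.disjoint_left]
      intro x hx hx'
      have h2 : x < (t m + x₀) / 2 := ((hG1 i hi).1.supp hx).2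
      have h3 : x₀ ≤ x := hmin hx'
      linarith
    have h0m : t 0 ≤ t m := hmono.monotone (Nat.zero_le m)
    refine ⟨fun i => if i = m then g else G i, ?_, ?_⟩
    · intro i hi
      rcases Nat.lt_succ_iff_lt_or_eq.1 hi with h | h
      · have : (if i = m then g else G i) = G i := if_neg h.ne
        simp only [this]
        exact ⟨(hG1 i h).1.mono le_rfl (by linarith), (hG1 i h).2⟩
      · simp only [if_pos h]
        exact ⟨hg.mono h0m le_rfl, hgq⟩
    · intro i hi j hj hij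
      show Disjoint (tsupport (if i = m then g else G i)) (tsupport (if j = m then g else G j))
      rcases Nat.lt_succ_iff_lt_or_eq.1 hi with h | h <;>
      rcases Nat.lt_succ_iff_lt_or_eq.1 hj with h' | h'
      · rw [if_neg h.ne, if_neg h'.ne]; exact hG2 i h j h' hij
      · rw [if_neg h.ne, if_pos h']; exact hdis i h
      · rw [if_pos h, if_neg h'.ne]; exact (hdis j h').symm
      · exact absurd (h.trans h'.symm) hij

end Pool.Agent.H56.BN
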