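import Mathlib
import Pool.Agent.H56.BN.OneD2
import Pool.Agent.H56.BN.Cube1

/-!
Domains without ground states just above an eigenvalue.
-/

set_option autoImplicit false
set_option maxHeartbeats 1000000

namespace Pool.Agent.H56.BN

open MeasureTheory Filter Topology Set
open scoped ContDiff

variable {d : ℕ}

lemma exists_ratio {A B : ℕ → ℝ} {L : ℝ} (hL : 0 < L) (m : ℕ)
    (h : ∀ i < m, 0 ≤ A i ∧ A i < L * B i) :
    ∃ L' : ℝ, 0 ≤ L' ∧ L' < L ∧ ∀ i < m, A i ≤ L' * B i := by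
  induction m with
  | zero => exact ⟨0, le_rfl, hL, fun i hi => absurd hi (Nat.not_lt_zero i)⟩
  | succ m ih =>
    obtain ⟨L', h1, h2, h3⟩ := ih fun i hi => h i (hi.trans (Nat.lt_succ_self m))
    obtain ⟨h4, h5⟩ := h m (Nat.lt_succ_self m)
    have hB : 0 < B m := by
      by_contra hcon
      push Not at hcon
      nlinarith
    refine ⟨max L' (A m / B m), h1.trans (le_max_left _ _), max_lt h2 ?_, ?_⟩
    · rwa [div_lt_iff₀ hB]
    · intro i hi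
      rcases Nat.lt_succ_iff_lt_or_eq.1 hi with h6 | h6
      · have hBi : 0 ≤ B i := by
          obtain ⟨h7, h8⟩ := h i hi
          by_contra hcon
          push Not at hcon
          nlinarith
        exact (h3 i h6).trans (mul_le_mul_of_nonneg_right (le_max_left _ _) hBi)
      · subst h6
        calc A i = A i / B i * B i := by field_simp
          _ ≤ _ := mul_le_mul_of_nonneg_right (le_max_right _ _) hB.le

lemma compact_in_Ioo {a b : ℝ} (hab : a < b) {K : Set ℝ} (hK : IsCompact K) (hs : K ⊆ Ioo a b) :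
    ∃ c₀ c₁ : ℝ, a < c₀ ∧ c₀ ≤ c₁ ∧ c₁ < b ∧ K ⊆ Icc c₀ c₁ := by
  rcases K.eq_empty_or_nonempty with he | hne
  · exact ⟨(a + b) / 2, (a + b) / 2, by linarith, le_rfl, by linarith, by rw [he]; simp⟩
  · obtain ⟨x, hx, hmin⟩ := hK.exists_isMinOn hne continuous_id.continuousOn
    obtain ⟨y, hy, hmax⟩ := hK.exists_isMaxOn hne continuous_id.continuousOn
    exact ⟨x, y, (hs hx).1, hmin hy, (hs hy).2, fun z hz => ⟨hmin hz, hmax hz⟩⟩

lemma compact_in_Qb {b : ℝ} (hb : 0 < b) {K : Set (Zd d)} (hK : IsCompact K) (hs : K ⊆ Qb d b) :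
    ∃ b₁ : ℝ, 0 ≤ b₁ ∧ b₁ < b ∧ ∀ z ∈ K, ∀ i, |z i| ≤ b₁ := by
  rcases K.eq_empty_or_nonempty with he | hne
  · exact ⟨0, le_rfl, hb, by rw [he]; simp⟩
  · have hc : Continuous fun z : Zd d => ‖(WithLp.ofLp z : Fin d → ℝ)‖ :=
      (PiLp.continuous_ofLp 2 (fun _ : Fin d => ℝ)).norm
    obtain ⟨y, hy, hmax⟩ := hK.exists_isMaxOn hne hc.continuousOn
    refine ⟨‖(WithLp.ofLp y : Fin d → ℝ)‖, norm_nonneg _, ?_, ?_⟩
    · rw [pi_norm_lt_iff hb]
      exact fun i => hs hy i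
    · intro z hz i
      exact (norm_le_pi_norm (WithLp.ofLp z : Fin d → ℝ) i).trans (hmax hz)

/-- the one dimensional functions with all their properties -/
lemma exists_fam (k : ℕ) {a L : ℝ} (ha : 0 ≤ a) (hL : 0 < L) {t : ℕ → ℝ} (ht0 : t 0 = a)
    (ht : ∀ i, t i < t (i + 1)) (hn : ∀ i, ∀ T > t (i + 1), ¬ F1 k (t i) T L) (m : ℕ) {T : ℝ}
    (hT : t m < T) : ∃ (g : ℕ → ℝ → ℝ) (L' c₀ c₁ : ℝ), 0 ≤ L' ∧ L' < L ∧ a < c₀ ∧ c₀ ≤ c₁ ∧
      c₁ < T ∧ (∀ i < m, T1 a T (g i) ∧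
        ∫ x, x ^ k * deriv (g i) x ^ 2 ≤ L' * ∫ x, x ^ k * g i x ^ 2) ∧
      (∀ i < m, 0 < ∫ x, x ^ k * g i x ^ 2) ∧
      (∀ i < m, ∀ j < m, i ≠ j → Disjoint (tsupport (g i)) (tsupport (g j))) ∧
      ∀ i < m, tsupport (g i) ⊆ Icc c₀ c₁ := by
  obtain ⟨g, hg, hdis⟩ := exists_disj ht hn m T hT
  rw [ht0] at hg
  have hnn : ∀ i < m, 0 ≤ ∫ x, x ^ k * deriv (g i) x ^ 2 := by
    intro i hi
    apply integral_nonneg
    intro x
    show 0 ≤ x ^ k * deriv (g i) x ^ 2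
    by_cases hx : x ∈ tsupport (g i)
    · have : 0 ≤ x := ha.trans ((hg i hi).1.supp hx).1.le
      positivity
    · rw [(hg i hi).1.dzero hx]; simp
  obtain ⟨L', h1, h2, h3⟩ := exists_ratio hL m fun i hi => ⟨hnn i hi, (hg i hi).2⟩
  have haT : a < T := by
    have : t 0 ≤ t m := (strictMono_nat_of_lt_succ ht).monotone (Nat.zero_le m)
    rw [← ht0]; linarith
  obtain ⟨K, hKd⟩ : ∃ K : Set ℝ, K = ⋃ i ∈ Finset.range m, tsupport (g i) := ⟨_, rfl⟩
  have hK : IsCompact K := by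
    rw [hKd]
    exact (Finset.range m).isCompact_biUnion fun i hi => (hg i (Finset.mem_range.1 hi)).1.cpt
  have hKs : K ⊆ Ioo a T := by
    rw [hKd]
    exact iUnion₂_subset fun i hi => (hg i (Finset.mem_range.1 hi)).1.supp
  obtain ⟨c₀, c₁, h4, h5, h6, h7⟩ := compact_in_Ioo haT hK hKs
  refine ⟨g, L', c₀, c₁, h1, h2, h4, h5, h6, fun i hi => ⟨(hg i hi).1, h3 i hi⟩, ?_, hdis, ?_⟩
  · intro i hi
    have h8 := (hg i hi).2
    have h9 := hnn i hi
    by_contra hcon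
    push Not at hcon
    nlinarith
  · intro i hi
    refine Subset.trans ?_ h7
    rw [hKd]
    exact subset_biUnion_of_mem (u := fun i => tsupport (g i)) (Finset.mem_coe.2 (Finset.mem_range.2 hi))

lemma exists_p {r s D : ℝ} (hr0 : 0 ≤ r) (hr : r < 1) (hs0 : 0 ≤ s) (hs : s < 1) {ε : ℝ}
    (hε : 0 < ε) : ∃ p : ℕ, 1 ≤ p ∧ r ^ (2 * p) + D * s ^ (2 * p) ≤ ε := by
  have h1 : Tendsto (fun p : ℕ => r ^ (2 * p) + D * s ^ (2 * p)) atTop (𝓝 (0 + D * 0)) := by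
    have e : ∀ (q : ℝ), (fun p : ℕ => q ^ (2 * p)) = fun p : ℕ => (q ^ 2) ^ p := fun q => by
      funext p; rw [pow_mul]
    have t : ∀ q : ℝ, 0 ≤ q → q < 1 → Tendsto (fun p : ℕ => q ^ (2 * p)) atTop (𝓝 0) := by
      intro q h0 h1
      rw [e]
      exact tendsto_pow_atTop_nhds_zero_of_lt_one (sq_nonneg q) (by nlinarith)
    exact (t r hr0 hr).add ((t s hs0 hs).const_mul D)
  rw [mul_zero, add_zero] at h1
  obtain ⟨p, hp1, hp2⟩ := ((h1.eventually_le_const hε).and (eventually_ge_atTop 1)).exists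
  exact ⟨p, hp2, hp1⟩

end Pool.Agent.H56.BN
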