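import Mathlib
import Pool.Agent.H56.BN.Cube3

/-!
A family of smooth domains.
-/

set_option autoImplicit false
set_option maxHeartbeats 1000000

namespace Pool.Agent.H56.BN

open MeasureTheory Filter Topology Set
open scoped ContDiff

variable {d : ℕ}

/-- the admissible profiles -/
structure Prof (f : ℝ → ℝ) (a a₁ : ℝ) : Prop where
  smooth : ContDiffOn ℝ ∞ f (Ioi 0)
  tang : ∀ x, 0 < x → ∃ c, HasDerivAt f c x ∧ ∀ y, 0 < y → f x + c * (y - x) ≤ f y
  loc : ∀ x, 0 < x → f x < 0 → a < x ∧ x < a₁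
  neg : ∃ y, 0 < y ∧ f y < 0
  low : ∀ x, 0 < x → -1 ≤ f x

/-- the level function -/
noncomputable def lev2 (f : ℝ → ℝ) (K b : ℝ) (p : ℕ) (j : Fin d) (P : PP d) : ℝ :=
  f P.1 + (K * (P.2 j / P.1) ^ 2 + ∑ i, (P.2 i / b) ^ (2 * p))

/-- the domain -/
def dset (f : ℝ → ℝ) (K b : ℝ) (p : ℕ) (j : Fin d) : Set (PP d) :=
  {P | 0 < P.1 ∧ lev2 f K b p j P < 0}

section dset

variable {f : ℝ → ℝ} {a a₁ K b : ℝ} {p : ℕ} {j : Fin d}

lemma even_nonneg (x : ℝ) (p : ℕ) : 0 ≤ x ^ (2 * p) := by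
  rw [pow_mul]; positivity

lemma rest_nonneg (hK : 0 ≤ K) (P : PP d) :
    0 ≤ K * (P.2 j / P.1) ^ 2 + ∑ i, (P.2 i / b) ^ (2 * p) :=
  add_nonneg (mul_nonneg hK (sq_nonneg _)) (Finset.sum_nonneg fun i _ => even_nonneg _ _)

lemma contDiffOn_lev2 (hf : Prof f a a₁) : ContDiffOn ℝ ∞ (lev2 f K b p j) (HP d) := by
  unfold lev2
  have h1 : ContDiffOn ℝ ∞ (fun P : PP d => f P.1) (HP d) :=
    hf.smooth.comp contDiff_fst.contDiffOn fun P hP => hP
  have hz : ∀ i : Fin d, ContDiff ℝ ∞ (fun P : PP d => P.2 i) := fun i =>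
    (contDiff_coord i).comp contDiff_snd
  apply h1.add
  apply ContDiffOn.add
  · apply contDiffOn_const.mul
    apply ContDiffOn.pow
    exact (hz j).contDiffOn.div contDiff_fst.contDiffOn fun P hP => ne_of_gt hP
  · apply ContDiffOn.sum
    intro i _
    exact (((hz i).div_const b).pow (2 * p)).contDiffOn

lemma isOpen_dset (hf : Prof f a a₁) : IsOpen (dset f K b p j) :=
  (contDiffOn_lev2 (K := K) (b := b) (p := p) (j := j) hf).continuousOn.isOpen_inter_preimage
    (isOpen_HP d) isOpen_Iio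

lemma dset_loc (hf : Prof f a a₁) (hK : 0 ≤ K) (hb : 0 < b) (hp : 1 ≤ p) {P : PP d}
    (hP : P ∈ dset f K b p j) : a < P.1 ∧ P.1 < a₁ ∧ P.2 ∈ Qb d b := by
  obtain ⟨h1, h2⟩ := hP
  unfold lev2 at h2
  have h3 := rest_nonneg (b := b) (p := p) (j := j) hK P
  obtain ⟨h4, h5⟩ := hf.loc P.1 h1 (by linarith)
  refine ⟨h4, h5, fun i => ?_⟩
  have h6 := hf.low P.1 h1
  have h7 : (P.2 i / b) ^ (2 * p) ≤ ∑ i, (P.2 i / b) ^ (2 * p) :=
    Finset.single_le_sum (f := fun i => (P.2 i / b) ^ (2 * p)) (fun i _ => even_nonneg _ _)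
      (Finset.mem_univ i)
  have h8 : 0 ≤ K * (P.2 j / P.1) ^ 2 := mul_nonneg hK (sq_nonneg _)
  have h9 : (P.2 i / b) ^ (2 * p) < 1 := by linarith
  have h10 : |P.2 i / b| < 1 := by
    by_contra hcon
    push Not at hcon
    have : 1 ≤ |P.2 i / b| ^ (2 * p) := one_le_pow₀ hcon
    rw [Even.pow_abs (even_two_mul p)] at this
    linarith
  rwa [abs_div, abs_of_pos hb, div_lt_one hb] at h10

lemma bdd_dset (hf : Prof f a a₁) (hK : 0 ≤ K) (hb : 0 < b) (hp : 1 ≤ p) :
    Bornology.IsBounded (dset f K b p j) := by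
  have h1 : dset f K b p j ⊆ Icc a a₁ ×ˢ Metric.closedBall (0 : Zd d) (Real.sqrt (d * b ^ 2)) := by
    intro P hP
    obtain ⟨h1, h2, h3⟩ := dset_loc hf hK hb hp hP
    exact ⟨⟨h1.le, h2.le⟩, Qb_subset b h3⟩
  exact ((Metric.isBounded_Icc a a₁).prod Metric.isBounded_closedBall).subset h1

lemma lev2_axis (x : ℝ) (hp : 1 ≤ p) : lev2 f K b p j ((x, 0) : PP d) = f x := by
  unfold lev2
  have : 2 * p ≠ 0 := by omega
  simp [this]

lemma lev2_scale (x : ℝ) (z : Zd d) (s : ℝ) : lev2 f K b p j ((x, s • z) : PP d) =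
    f x + (s ^ 2 * (K * (z j / x) ^ 2) + s ^ (2 * p) * ∑ i, (z i / b) ^ (2 * p)) := by
  unfold lev2
  simp only [PiLp.smul_apply, smul_eq_mul]
  rw [Finset.mul_sum]
  congr 2
  · ring
  · apply Finset.sum_congr rfl
    intro i _
    rw [mul_div_assoc, mul_pow]

lemma conn_dset (hf : Prof f a a₁) (hK : 0 ≤ K) (hp : 1 ≤ p) :
    IsConnected (dset (d := d) f K b p j) := by
  obtain ⟨y, hy0, hy⟩ := hf.neg
  have hy' : ((y, 0) : PP d) ∈ dset f K b p j := ⟨hy0, by rw [lev2_axis y hp]; exact hy⟩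
  apply IsPathConnected.isConnected
  refine ⟨(y, 0), hy', ?_⟩
  rintro ⟨x, z⟩ hP
  have hx0 : 0 < x := hP.1
  have hfx : f x < 0 := by
    have h1 := hP.2
    unfold lev2 at h1
    have h2 := rest_nonneg (b := b) (p := p) (j := j) hK ((x, z) : PP d)
    show f x < 0
    have h3 : f x + (K * (z j / x) ^ 2 + ∑ i, (z i / b) ^ (2 * p)) < 0 := h1
    have h4 : 0 ≤ K * (z j / x) ^ 2 + ∑ i, (z i / b) ^ (2 * p) := h2
    linarith
  have s1 : JoinedIn (dset f K b p j) ((y, 0) : PP d) ((x, 0) : PP d) := by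
    apply JoinedIn.of_segment_subset
    rintro P ⟨u, v, hu, hv, huv, rfl⟩
    have e : u • ((y, 0) : PP d) + v • ((x, 0) : PP d) = ((u * y + v * x, 0) : PP d) := by
      ext <;> simp
    rw [e]
    have hpos : 0 < u * y + v * x := by
      rcases hu.eq_or_lt with h | h
      · have : v = 1 := by linarith
        rw [← h, this]; linarith
      · have : 0 < u * y := by positivity
        have : 0 ≤ v * x := by positivity
        linarith
    refine ⟨hpos, ?_⟩
    rw [lev2_axis _ hp]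
    obtain ⟨c, -, hc⟩ := hf.tang _ hpos
    have h1 := hc y hy0
    have h2 := hc x hx0
    have h3 : f (u * y + v * x) ≤ u * f y + v * f x := by
      have e1 : u * (f (u * y + v * x) + c * (y - (u * y + v * x))) +
          v * (f (u * y + v * x) + c * (x - (u * y + v * x))) = f (u * y + v * x) := by
        have hv' : v = 1 - u := by linarith
        rw [hv']; ring
      have e2 := mul_le_mul_of_nonneg_left h1 hu
      have e3 := mul_le_mul_of_nonneg_left h2 hv
      linarith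
    rcases hu.eq_or_lt with h | h
    · have hv1 : v = 1 := by linarith
      rw [← h, hv1] at h3 ⊢
      linarith
    · have : u * f y < 0 := mul_neg_of_pos_of_neg h hy
      have : v * f x ≤ 0 := mul_nonpos_of_nonneg_of_nonpos hv hfx.le
      linarith
  have s2 : JoinedIn (dset f K b p j) ((x, 0) : PP d) ((x, z) : PP d) := by
    apply JoinedIn.of_segment_subset
    rintro P ⟨u, v, hu, hv, huv, rfl⟩
    have e : u • ((x, 0) : PP d) + v • ((x, z) : PP d) = ((x, v • z) : PP d) := by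
      apply Prod.ext
      · simp only [Prod.fst_add, Prod.smul_fst, smul_eq_mul]
        rw [← add_mul, huv, one_mul]
      · simp
    rw [e]
    refine ⟨hx0, ?_⟩
    rw [lev2_scale]
    have h1 : lev2 f K b p j ((x, z) : PP d) < 0 := hP.2
    have h2 : lev2 f K b p j ((x, z) : PP d) =
      f x + ((K * (z j / x) ^ 2) + ∑ i, (z i / b) ^ (2 * p)) := rfl
    rw [h2] at h1
    have hv1 : v ≤ 1 := by linarith
    have h3 : 0 ≤ K * (z j / x) ^ 2 := mul_nonneg hK (sq_nonneg _)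
    have h4 : 0 ≤ ∑ i, (z i / b) ^ (2 * p) := Finset.sum_nonneg fun i _ => even_nonneg _ _
    have h5 : v ^ 2 ≤ 1 := pow_le_one₀ hv hv1
    have h6 : v ^ (2 * p) ≤ 1 := pow_le_one₀ hv hv1
    nlinarith [mul_le_mul_of_nonneg_right h5 h3, mul_le_mul_of_nonneg_right h6 h4]
  exact s1.trans s2

/-- **the domains are smooth** -/
theorem smooth_dset (hf : Prof f a a₁) (ha : 0 < a) (hK : 0 ≤ K) (hb : 0 < b) (hp : 1 ≤ p) :
    SmoothDom (dset (d := d) f K b p j) := by
  refine ⟨isOpen_dset hf, conn_dset hf hK hp, bdd_dset hf hK hb hp, ?_⟩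
  intro P hP
  have hcl : P ∈ closure (dset f K b p j) := frontier_subset_closure hP
  have hPa : a ≤ P.1 := by
    have h1 : dset f K b p j ⊆ {P : PP d | a ≤ P.1} := fun Q hQ => (dset_loc hf hK hb hp hQ).1.le
    exact closure_minimal h1 (isClosed_le continuous_const continuous_fst) hcl
  have hP0 : 0 < P.1 := ha.trans_le hPa
  have hsm := contDiffOn_lev2 (K := K) (b := b) (p := p) (j := j) hf
  have hca : ContDiffAt ℝ ∞ (lev2 f K b p j) P := hsm.contDiffAt ((isOpen_HP d).mem_nhds hP0)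
  have hnot : P ∉ dset f K b p j := by
    have h2 : frontier (dset f K b p j) = closure (dset f K b p j) \ dset f K b p j :=
      (isOpen_dset hf).frontier_eq
    rw [h2] at hP
    exact hP.2
  have hge : 0 ≤ lev2 f K b p j P := by
    by_contra hcon
    push Not at hcon
    exact hnot ⟨hP0, hcon⟩
  have hle : lev2 f K b p j P ≤ 0 := by
    rw [mem_closure_iff_frequently] at hcl
    have h3 : Tendsto (lev2 f K b p j) (𝓝 P) (𝓝 (lev2 f K b p j P)) := hca.continuousAt
    exact le_of_tendsto_of_frequently h3 (hcl.mono fun Q hQ => hQ.2.le)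
  have h0 : lev2 f K b p j P = 0 := le_antisymm hle hge
  refine ⟨HP d, lev2 f K b p j, isOpen_HP d, hP0, hsm, ?_, fun Q hQ => ⟨fun h => h.2, fun h => ⟨hQ, h⟩⟩⟩
  intro hder
  have hdiff : HasFDerivAt (lev2 f K b p j) (0 : PP d →L[ℝ] ℝ) P := by
    rw [← hder]
    exact (hca.differentiableAt (by simp)).hasFDerivAt
  obtain ⟨x, z⟩ := P
  -- the direction of `z`
  have h4 : HasDerivAt (fun t : ℝ => lev2 f K b p j ((x, (1 + t) • z) : PP d)) 0 0 := by
    have h5 : HasDerivAt (fun t : ℝ => ((x, (1 + t) • z) : PP d)) (0, z) 0 := by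
      apply HasDerivAt.prodMk (hasDerivAt_const _ _)
      have := ((hasDerivAt_id (0:ℝ)).const_add 1).smul_const z
      simpa using this
    have h6 : HasFDerivAt (lev2 f K b p j) (0 : PP d →L[ℝ] ℝ) ((x, (1 + (0:ℝ)) • z) : PP d) := by
      rw [add_zero, one_smul]; exact hdiff
    exact h6.comp_hasDerivAt (0:ℝ) h5
  simp only [lev2_scale] at h4
  obtain ⟨X, hX⟩ : ∃ X, X = K * (z j / x) ^ 2 := ⟨_, rfl⟩
  obtain ⟨Y, hY⟩ : ∃ Y, Y = ∑ i, (z i / b) ^ (2 * p) := ⟨_, rfl⟩
  rw [← hX, ← hY] at h4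
  have hX0 : 0 ≤ X := by rw [hX]; exact mul_nonneg hK (sq_nonneg _)
  have hY0 : 0 ≤ Y := by rw [hY]; exact Finset.sum_nonneg fun i _ => even_nonneg _ _
  have h7 : HasDerivAt (fun t : ℝ => f x + ((1 + t) ^ 2 * X + (1 + t) ^ (2 * p) * Y))
      (2 * X + (2 * p : ℕ) * Y) 0 := by
    have e1 : HasDerivAt (fun t : ℝ => 1 + t) 1 0 := (hasDerivAt_id (0:ℝ)).const_add 1
    have e2 := (((e1.pow 2).mul_const X).add ((e1.pow (2 * p)).mul_const Y)).const_add (f x)
    refine e2.congr_deriv ?_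
    simp
  have h8 := h4.unique h7
  have hYz : Y = 0 := by
    have : (0:ℝ) < (2 * p : ℕ) := by
      have : 0 < 2 * p := by omega
      exact_mod_cast this
    nlinarith
  have hz : z = 0 := by
    ext i
    have h9 : (z i / b) ^ (2 * p) = 0 := by
      rw [hY] at hYz
      exact (Finset.sum_eq_zero_iff_of_nonneg fun i _ => even_nonneg _ _).1 hYz i
        (Finset.mem_univ i)
    have h10 : z i / b = 0 := pow_eq_zero_iff (by omega) |>.1 h9
    have h11 : z i = 0 := by
      rcases div_eq_zero_iff.1 h10 with h | h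
      · exact h
      · exact absurd h hb.ne'
    rw [h11]; rfl
  subst hz
  have hx0 : 0 < x := hP0
  rw [lev2_axis x hp] at h0
  have h12 : HasDerivAt f 0 x := by
    have h13 : HasDerivAt (fun t : ℝ => ((t, 0) : PP d)) (1, 0) x :=
      (hasDerivAt_id x).prodMk (hasDerivAt_const _ _)
    have h14 := hdiff.comp_hasDerivAt x h13
    have e : (lev2 f K b p j) ∘ (fun t : ℝ => ((t, 0) : PP d)) = f := by
      funext t
      exact lev2_axis t hp
    rw [e] at h14
    simpa using h14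
  obtain ⟨c, hc1, hc2⟩ := hf.tang x hx0
  have hc0 : c = 0 := hc1.unique h12
  obtain ⟨y, hy0, hy⟩ := hf.neg
  have := hc2 y hy0
  rw [h0, hc0] at this
  linarith

lemma closure_dset (hf : Prof f a a₁) (hK : 0 ≤ K) (hb : 0 < b) (hp : 1 ≤ p) :
    closure (dset (d := d) f K b p j) ⊆ {P : PP d | a ≤ P.1} :=
  closure_minimal (fun _ hQ => (dset_loc hf hK hb hp hQ).1.le)
    (isClosed_le continuous_const continuous_fst)

end dset

end Pool.Agent.H56.BN
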