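import Mathlib
import Pool.Agent.H56.BN.Sob

/-!
A Hardy type identity and a Poincare inequality in narrow domains.
-/

set_option autoImplicit false
set_option maxHeartbeats 1000000

namespace Pool.Agent.H56.BN

open MeasureTheory Filter Topology Set
open scoped ContDiff

variable {k d : ℕ}

/-! ### calculus of test functions -/

lemma cont_mul {χ a : PP d → ℝ} {U : Set (PP d)} (hχ : Continuous χ) (hU : IsOpen U)
    (ha : ContinuousOn a U) (hs : tsupport χ ⊆ U) : Continuous (fun P => a P * χ P) := by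
  rw [continuous_iff_continuousAt]
  intro P
  by_cases hP : P ∈ tsupport χ
  · exact (ha.continuousAt (hU.mem_nhds (hs hP))).mul hχ.continuousAt
  · have h1 : (fun P => a P * χ P) =ᶠ[𝓝 P] fun _ => 0 := by
      filter_upwards [notMem_tsupport_iff_eventuallyEq.1 hP] with Q hQ
      rw [hQ]; simp
    exact continuousAt_const.congr h1.symm

lemma integrable_mul_of {χ a : PP d → ℝ} {U : Set (PP d)} (hχ : Continuous χ)
    (hc : HasCompactSupport χ) (hU : IsOpen U) (ha : ContinuousOn a U) (hs : tsupport χ ⊆ U) :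
    Integrable (fun P => a P * χ P) (volume : Measure (PP d)) :=
  (cont_mul hχ hU ha hs).integrable_of_hasCompactSupport hc.mul_left

lemma IsTest.integrable {S : Set (PP d)} {φ : PP d → ℝ} (h : IsTest S φ) :
    Integrable φ (volume : Measure (PP d)) :=
  h.continuous.integrable_of_hasCompactSupport h.cpt

lemma IsTest.sq {S : Set (PP d)} {φ : PP d → ℝ} (h : IsTest S φ) :
    IsTest S (fun P => φ P ^ 2) := by
  have := h.mul_left (a := φ) (U := univ) isOpen_univ h.smooth.contDiffOn (subset_univ _)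
  convert this using 2
  exact pow_two _

lemma hcs_gsq {φ : PP d → ℝ} (h : HasCompactSupport φ) : HasCompactSupport (gsq φ) := by
  refine HasCompactSupport.of_support_subset_isCompact h (fun X hX => ?_)
  by_contra h'
  exact hX (gsq_eq_zero h')

lemma tsupport_gsq (φ : PP d → ℝ) : tsupport (gsq φ) ⊆ tsupport φ := by
  apply closure_minimal _ (isClosed_tsupport φ)
  intro P hP
  by_contra h
  exact hP (gsq_eq_zero h)

lemma integral_fderiv_zero {φ : PP d → ℝ} (h : CC φ) (v : PP d) :
    ∫ P, fderiv ℝ φ P v = 0 := by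
  have h1 : Integrable (fun P => fderiv ℝ φ P v) (volume : Measure (PP d)) := by
    refine ((h.smooth.continuous_fderiv (by simp)).clm_apply
      continuous_const).integrable_of_hasCompactSupport ?_
    exact (h.cpt.fderiv ℝ).comp_left (g := fun L => L v) (by simp)
  have h2 := integral_mul_fderiv_eq_neg_fderiv_mul_of_integrable (𝕜 := ℝ)
    (μ := (volume : Measure (PP d))) (f := fun _ : PP d => (1:ℝ)) (g := φ) (v := v)
    (by simp) (by simpa using h1) (by simpa using h.integrable)
    (fun _ _ => differentiableAt_const _) (fun x _ => h.differentiable x)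
  simpa using h2

lemma integral_dx_zero {φ : PP d → ℝ} (h : CC φ) : ∫ P, dx φ P = 0 := integral_fderiv_zero h _

lemma integral_dz_zero {φ : PP d → ℝ} (h : CC φ) (j : Fin d) : ∫ P, dz φ j P = 0 :=
  integral_fderiv_zero h _

lemma hasDerivAt_line {φ : PP d → ℝ} {P : PP d} (h : DifferentiableAt ℝ φ P) (v : PP d) :
    HasDerivAt (fun t : ℝ => φ (P + t • v)) (fderiv ℝ φ P v) 0 := by
  have h1 : HasFDerivAt φ (fderiv ℝ φ P) (P + (0:ℝ) • v) := by
    rw [zero_smul, add_zero]; exact h.hasFDerivAt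
  have h2 : HasDerivAt (fun t : ℝ => P + t • v) v 0 := by
    have := ((hasDerivAt_id (0:ℝ)).smul_const v).const_add P
    simpa using this
  exact h1.comp_hasDerivAt (0:ℝ) h2

lemma line_dx {φ : PP d → ℝ} {P : PP d} (h : DifferentiableAt ℝ φ P) :
    HasDerivAt (fun t : ℝ => φ (P.1 + t, P.2)) (dx φ P) 0 := by
  have h1 := hasDerivAt_line h (1, 0)
  have e : (fun t : ℝ => φ (P + t • ((1, 0) : PP d))) = fun t : ℝ => φ (P.1 + t, P.2) := by
    funext t
    congr 1
    apply Prod.ext
    · simp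
    · simp
  rw [e] at h1
  exact h1

lemma line_dz {φ : PP d → ℝ} {P : PP d} (h : DifferentiableAt ℝ φ P) (j : Fin d) :
    HasDerivAt (fun t : ℝ => φ (P.1, P.2 + t • EuclideanSpace.single j 1)) (dz φ j P) 0 := by
  have h1 := hasDerivAt_line h (0, EuclideanSpace.single j 1)
  have e : (fun t : ℝ => φ (P + t • ((0, EuclideanSpace.single j 1) : PP d))) =
      fun t : ℝ => φ (P.1, P.2 + t • EuclideanSpace.single j 1) := by
    funext t
    congr 1
    apply Prod.ext
    · simp
    · simp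
  rw [e] at h1
  exact h1

/-- the derivative of a product with a function of `x`, in direction `x` -/
lemma dx_mul_fst {S : Set (PP d)} {φ : PP d → ℝ} (hφ : IsTest S φ) {a : ℝ → ℝ} {a' : ℝ}
    {P : PP d} (hψ : DifferentiableAt ℝ (fun P : PP d => a P.1 * φ P) P)
    (ha : HasDerivAt a a' P.1) :
    dx (fun P : PP d => a P.1 * φ P) P = a' * φ P + a P.1 * dx φ P := by
  have h1 := line_dx hψ
  have h2 := line_dx (hφ.differentiable P)
  have h3 : HasDerivAt (fun t : ℝ => a (P.1 + t)) a' 0 := by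
    have h4 : HasDerivAt (fun t : ℝ => P.1 + t) 1 0 := by
      simpa using (hasDerivAt_id (0:ℝ)).const_add P.1
    have h5 : HasDerivAt a a' (P.1 + 0) := by rwa [add_zero]
    have h7 := h5.comp (0:ℝ) h4
    rw [mul_one] at h7
    exact h7
  have h6 := h3.mul h2
  simp only [add_zero, Prod.mk.eta] at h6
  exact h1.unique h6

/-- the derivative of a product with a function of `x`, in direction `z_j` -/
lemma dz_mul_fst {S : Set (PP d)} {φ : PP d → ℝ} (hφ : IsTest S φ) {a : ℝ → ℝ}
    {P : PP d} (hψ : DifferentiableAt ℝ (fun P : PP d => a P.1 * φ P) P) (j : Fin d) :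
    dz (fun P : PP d => a P.1 * φ P) j P = a P.1 * dz φ j P := by
  have h1 := line_dz hψ j
  have h2 := (line_dz (hφ.differentiable P) j).const_mul (a P.1)
  exact h1.unique h2

/-- a cut-off or weight depending on `x` only -/
lemma IsTest.mul_fst {S : Set (PP d)} {φ : PP d → ℝ} (h : IsTest S φ) {a : ℝ → ℝ} {α : ℝ}
    (ha : ContDiffOn ℝ ∞ a (Ioi α)) (hS : S ⊆ {P | α < P.1}) :
    IsTest S (fun P => a P.1 * φ P) := by
  apply h.mul_left (U := {P : PP d | α < P.1}) (isOpen_lt continuous_const continuous_fst)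
  · exact ha.comp contDiff_fst.contDiffOn (fun P hP => hP)
  · exact hS

/-! ### the Hardy inequality -/

/-- the exponent `s` -/
noncomputable def sx (k d : ℕ) : ℝ := k / pex d
/-- the exponent `γ = k - 2s` -/
noncomputable def gx (k d : ℕ) : ℝ := k - 2 * sx k d

/-- `∫ x^(k-2) φ²` -/
noncomputable def h2 (k : ℕ) {d : ℕ} (φ : PP d → ℝ) : ℝ := ∫ P : PP d, P.1 ^ k * (φ P / P.1) ^ 2

/-- `x^s φ` -/
noncomputable def tw (k : ℕ) {d : ℕ} (φ : PP d → ℝ) (P : PP d) : ℝ := P.1 ^ sx k d * φ P

lemma contDiffOn_rpow (s : ℝ) : ContDiffOn ℝ ∞ (fun x : ℝ => x ^ s) (Ioi 0) := by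
  intro x hx
  exact (Real.contDiffAt_rpow_const_of_ne (ne_of_gt hx)).contDiffWithinAt

lemma isTest_tw {S : Set (PP d)} {φ : PP d → ℝ} (h : IsTest S φ) (hS : S ⊆ HP d) :
    IsTest S (tw k φ) :=
  h.mul_fst (contDiffOn_rpow (sx k d)) hS

/-- the pointwise identity -/
lemma pointwise_hardy {S : Set (PP d)} {φ : PP d → ℝ} (h : IsTest S φ) (hS : S ⊆ HP d)
    (hk : 1 ≤ k) {P : PP d} (hP : 0 < P.1) :
    P.1 ^ k * gsq φ P = P.1 ^ gx k d * gsq (tw k φ) P -
      sx k d * dx (fun P : PP d => P.1 ^ (k - 1) * φ P ^ 2) P +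
      sx k d * (k - 1 - sx k d) * (P.1 ^ k * (φ P / P.1) ^ 2) := by
  set s := sx k d with hs
  have hψ := isTest_tw (k := k) h hS
  have h1 : dx (tw k φ) P = s * P.1 ^ (s - 1) * φ P + P.1 ^ s * dx φ P := by
    apply dx_mul_fst (a := fun x => x ^ s) h (hψ.differentiable P)
    exact Real.hasDerivAt_rpow_const (Or.inl hP.ne')
  have h2 : ∀ j, dz (tw k φ) j P = P.1 ^ s * dz φ j P := fun j =>
    dz_mul_fst (a := fun x => x ^ s) h (hψ.differentiable P) j
  have hG : IsTest S (fun P : PP d => P.1 ^ (k - 1) * φ P ^ 2) := by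
    apply h.sq.mul_fst (a := fun x => x ^ (k - 1)) (α := 0) _ hS
    exact (contDiff_id.pow (k - 1)).contDiffOn
  have h3 : dx (fun P : PP d => P.1 ^ (k - 1) * φ P ^ 2) P =
      ((k - 1 : ℕ) * P.1 ^ (k - 1 - 1)) * φ P ^ 2 + P.1 ^ (k - 1) * (2 * φ P * dx φ P) := by
    have h4 := dx_mul_fst h.sq (a := fun x => x ^ (k - 1)) (hG.differentiable P)
      (hasDerivAt_pow (k - 1) P.1)
    have h5 : dx (fun P => φ P ^ 2) P = 2 * φ P * dx φ P := by
      have h6 := line_dx (h.sq.differentiable P)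
      have h7 := (line_dx (h.differentiable P)).pow 2
      have := h6.unique h7
      simpa using this
    rw [h5] at h4
    exact h4
  have hx := hP
  set x := P.1 with hxd
  have e1 : x ^ gx k d * (x ^ s * x ^ s) = x ^ k := by
    rw [← Real.rpow_add hx, ← Real.rpow_add hx, ← Real.rpow_natCast]
    congr 1
    unfold gx; ring
  have e2 : x ^ (s - 1) = x ^ s / x := by
    rw [Real.rpow_sub hx, Real.rpow_one]
  have e3 : x ^ (k - 1) = x ^ k / x := by
    rw [eq_div_iff hx.ne', ← pow_succ]; congr 1; omega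
  have e4 : ((k - 1 : ℕ) : ℝ) * x ^ (k - 1 - 1) = (k - 1) * (x ^ k / x ^ 2) := by
    rcases Nat.lt_or_ge 1 k with h5 | h5
    · have : x ^ k = x ^ (k - 1 - 1) * x ^ 2 := by rw [← pow_add]; congr 1; omega
      rw [this, Nat.cast_sub hk]
      field_simp
      simp
    · have : k = 1 := by omega
      subst this
      simp
  rw [h3, e4, e3]
  unfold gsq
  rw [h1]
  simp_rw [h2]
  rw [e2]
  set A := ∑ j, dz φ j P ^ 2 with hA
  have e5 : ∑ j, (x ^ s * dz φ j P) ^ 2 = (x ^ s * x ^ s) * A := by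
    rw [hA, Finset.mul_sum]
    apply Finset.sum_congr rfl
    intro j _
    ring
  rw [e5]
  have e6 : x ^ gx k d * ((s * (x ^ s / x) * φ P + x ^ s * dx φ P) ^ 2 + x ^ s * x ^ s * A) =
      (x ^ gx k d * (x ^ s * x ^ s)) * ((s / x * φ P + dx φ P) ^ 2 + A) := by
    ring
  rw [e6, e1]
  field_simp
  ring

end Pool.Agent.H56.BN
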