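import Mathlib
import Pool.Agent.H56.BN.Hardy
import Pool.Agent.H56.BN.Space

/-!
The Hardy inequality with the sharp Sobolev constant in narrow domains.
-/

set_option autoImplicit false
set_option maxHeartbeats 1000000

namespace Pool.Agent.H56.BN

open MeasureTheory Filter Topology Set
open scoped ContDiff

variable {k d : ℕ}

/-- the narrow region -/
def NS {d : ℕ} (α σ : ℝ) (j : Fin d) : Set (PP d) :=
  {P | α < P.1 ∧ P.2 j ^ 2 ≤ σ ^ 2 * (P.1 * (P.1 - α))}

lemma NS_HP {α σ : ℝ} (hα : 0 ≤ α) (j : Fin d) : NS α σ j ⊆ HP d :=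
  fun _ hP => lt_of_le_of_lt hα hP.1

/-- the coefficient `a(x)` -/
noncomputable def ax (α σ x : ℝ) : ℝ := 1 / (4 * σ ^ 2 * (x * (x - α)))

lemma ax_pos {α σ x : ℝ} (hα : 0 ≤ α) (hσ : 0 < σ) (hx : α < x) : 0 < ax α σ x := by
  unfold ax
  have h1 : 0 < x := lt_of_le_of_lt hα hx
  have h2 : 0 < x - α := by linarith
  positivity

lemma contDiffOn_ax {α σ : ℝ} (hα : 0 ≤ α) (hσ : 0 < σ) : ContDiffOn ℝ ∞ (ax α σ) (Ioi α) := by
  unfold ax
  apply ContDiffOn.div contDiffOn_const
  · exact (contDiff_const.mul (contDiff_id.mul (contDiff_id.sub contDiff_const))).contDiffOn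
  · intro x hx
    have h1 : 0 < x := lt_of_le_of_lt hα hx
    have h2 : 0 < x - α := by
      have : α < x := hx
      linarith
    positivity

/-- the coefficient `c(x) = (x^γ - B) x^(2s)` -/
noncomputable def cx (k d : ℕ) (B x : ℝ) : ℝ := (x ^ gx k d - B) * (x ^ sx k d) ^ 2

lemma contDiffOn_cx (B : ℝ) : ContDiffOn ℝ ∞ (cx k d B) (Ioi 0) :=
  ((contDiffOn_rpow (gx k d)).sub contDiffOn_const).mul ((contDiffOn_rpow (sx k d)).pow 2)

/-- the flux in direction `z_j` -/
noncomputable def Gz (k : ℕ) {d : ℕ} (α σ B : ℝ) (j : Fin d) (φ : PP d → ℝ) (P : PP d) : ℝ :=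
  (2 * (cx k d B P.1 * ax α σ P.1)) * (P.2 j * φ P ^ 2)

lemma isTest_zsq {S : Set (PP d)} {φ : PP d → ℝ} (h : IsTest S φ) (j : Fin d) :
    IsTest S (fun P => P.2 j * φ P ^ 2) := by
  apply h.sq.mul_left (a := fun P : PP d => P.2 j) isOpen_univ _ (subset_univ _)
  apply ContDiff.contDiffOn
  have : (fun P : PP d => P.2 j) = fun P : PP d => EuclideanSpace.proj (𝕜 := ℝ) j P.2 := rfl
  rw [this]
  exact (EuclideanSpace.proj (𝕜 := ℝ) j).contDiff.comp contDiff_snd

lemma isTest_Gz {α σ B : ℝ} (hα : 0 ≤ α) (hσ : 0 < σ) {j : Fin d} {S : Set (PP d)}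
    {φ : PP d → ℝ} (h : IsTest S φ) (hS : S ⊆ NS α σ j) : IsTest S (Gz k α σ B j φ) := by
  apply (isTest_zsq h j).mul_fst (a := fun x => 2 * (cx k d B x * ax α σ x)) (α := α)
  · apply contDiffOn_const.mul
    apply ContDiffOn.mul _ (contDiffOn_ax hα hσ)
    exact (contDiffOn_cx B).mono (fun x hx => lt_of_le_of_lt hα hx)
  · exact fun P hP => (hS hP).1

lemma dz_Gz {α σ B : ℝ} (hα : 0 ≤ α) (hσ : 0 < σ) {j : Fin d} {S : Set (PP d)}
    {φ : PP d → ℝ} (h : IsTest S φ) (hS : S ⊆ NS α σ j) (P : PP d) :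
    dz (Gz k α σ B j φ) j P = (2 * (cx k d B P.1 * ax α σ P.1)) *
      (φ P ^ 2 + P.2 j * (2 * φ P * dz φ j P)) := by
  have h1 := dz_mul_fst (isTest_zsq h j) (a := fun x => 2 * (cx k d B x * ax α σ x))
    ((isTest_Gz (k := k) (B := B) hα hσ h hS).differentiable P) j
  have h2 : dz (fun P => P.2 j * φ P ^ 2) j P = φ P ^ 2 + P.2 j * (2 * φ P * dz φ j P) := by
    have h3 := line_dz ((isTest_zsq h j).differentiable P) j
    have h4 := (line_dz (h.differentiable P) j).pow 2
    have h5 : HasDerivAt (fun t : ℝ => (P.2 + t • EuclideanSpace.single j 1 : Zd d) j) 1 0 := by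
      have : (fun t : ℝ => (P.2 + t • EuclideanSpace.single j 1 : Zd d) j) =
          fun t : ℝ => P.2 j + t := by
        funext t; simp
      rw [this]
      simpa using (hasDerivAt_id (0:ℝ)).const_add (P.2 j)
    have h6 := h5.mul h4
    have h7 := h3.unique h6
    simpa using h7
  rw [← h2]
  exact h1

/-- the general inequality -/
theorem hardy_gen (hk : 1 ≤ k) {α σ : ℝ} (hα : 0 ≤ α) (hσ : 0 < σ) {j : Fin d}
    {S : Set (PP d)} {φ : PP d → ℝ} (h : IsTest S φ) (hS : S ⊆ NS α σ j) {B κ : ℝ}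
    (hB : ∀ P ∈ tsupport φ, B ≤ P.1 ^ gx k d)
    (hκ : ∀ P ∈ tsupport φ, κ * P.1 ^ (gx k d - 2) ≤ (P.1 ^ gx k d - B) * ax α σ P.1 +
      sx k d * (k - 1 - sx k d) * P.1 ^ (gx k d - 2)) :
    B * (∫ P, gsq (tw k φ) P) + κ * h2 k φ ≤ q0 k φ := by
  have hHP : S ⊆ HP d := hS.trans (NS_HP hα j)
  set s := sx k d with hs
  set G1 : PP d → ℝ := fun P => P.1 ^ (k - 1) * φ P ^ 2 with hG1
  have tG1 : IsTest S G1 := h.sq.mul_fst (a := fun x => x ^ (k - 1)) (α := 0)
    ((contDiff_id.pow (k - 1)).contDiffOn) hHP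
  have tG2 := isTest_Gz (k := k) (B := B) hα hσ h hS
  have htw := isTest_tw (k := k) h hHP
  -- pointwise inequality
  have hpt : ∀ P : PP d, B * gsq (tw k φ) P + κ * (P.1 ^ k * (φ P / P.1) ^ 2) -
      dz (Gz k α σ B j φ) j P - s * dx G1 P ≤ P.1 ^ k * gsq φ P := by
    intro P
    by_cases hP : P ∈ tsupport φ
    · have hPS := hS (h.supp hP)
      have hx : 0 < P.1 := lt_of_le_of_lt hα hPS.1
      have hz := hPS.2
      rw [pointwise_hardy h hHP hk hx, ← hs, dz_Gz hα hσ h hS]
      have hBP := hB P hP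
      have hκP := hκ P hP
      set x := P.1 with hxd
      set a := ax α σ x with ha
      have ha0 : 0 < a := ax_pos hα hσ hPS.1
      have haz : 4 * a * P.2 j ^ 2 ≤ 1 := by
        have h1 : 4 * a * (σ ^ 2 * (x * (x - α))) = 1 := by
          rw [ha]
          unfold ax
          have h3 : 0 < x - α := by
            have := hPS.1
            linarith
          field_simp
        calc 4 * a * P.2 j ^ 2 ≤ 4 * a * (σ ^ 2 * (x * (x - α))) :=
              mul_le_mul_of_nonneg_left hz (by positivity)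
          _ = 1 := h1
      have hdz : dz (tw k φ) j P = x ^ s * dz φ j P :=
        dz_mul_fst (a := fun x => x ^ s) h (htw.differentiable P) j
      have hgs : (x ^ s * dz φ j P) ^ 2 ≤ gsq (tw k φ) P := by
        rw [← hdz]
        unfold gsq
        have h4 : dz (tw k φ) j P ^ 2 ≤ ∑ i, dz (tw k φ) i P ^ 2 :=
          Finset.single_le_sum (f := fun i => dz (tw k φ) i P ^ 2)
            (fun i _ => sq_nonneg _) (Finset.mem_univ j)
        have := sq_nonneg (dx (tw k φ) P)
        linarith
      set g := x ^ gx k d with hg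
      set X := (x ^ s) ^ 2 with hX
      have hX0 : 0 < X := by rw [hX]; positivity
      have hc : cx k d B x = (g - B) * X := rfl
      rw [hc]
      set D := dz φ j P with hD
      set z := P.2 j with hzd
      set f := φ P with hf
      have hgB : 0 ≤ g - B := by linarith
      have e1 : (g - B) * (X * D ^ 2) ≤ (g - B) * gsq (tw k φ) P := by
        apply mul_le_mul_of_nonneg_left _ hgB
        calc X * D ^ 2 = (x ^ s * D) ^ 2 := by rw [hX]; ring
          _ ≤ _ := hgs
      have e2 : 0 ≤ (g - B) * X * (D ^ 2 + 4 * a * z * f * D + a * f ^ 2) := by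
        apply mul_nonneg (mul_nonneg hgB hX0.le)
        have h5 : 4 * a ^ 2 * z ^ 2 * f ^ 2 ≤ a * f ^ 2 := by
          have h6 : (4 * a * z ^ 2) * (a * f ^ 2) ≤ 1 * (a * f ^ 2) :=
            mul_le_mul_of_nonneg_right haz (by positivity)
          nlinarith
        nlinarith [sq_nonneg (D + 2 * a * z * f)]
      -- the potential
      have e3 : x ^ (gx k d - 2) * X = x ^ k / x ^ 2 := by
        rw [hX, ← Real.rpow_natCast (x ^ s) 2, ← Real.rpow_mul hx.le, ← Real.rpow_add hx,
          ← Real.rpow_natCast x k, ← Real.rpow_natCast x 2, ← Real.rpow_sub hx]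
        congr 1
        unfold gx
        push_cast
        ring
      have e4 : κ * (x ^ k * (f / x) ^ 2) ≤ (g - B) * X * a * f ^ 2 +
          s * (k - 1 - s) * (x ^ k * (f / x) ^ 2) := by
        have h7 : x ^ k * (f / x) ^ 2 = x ^ (gx k d - 2) * (X * f ^ 2) := by
          rw [← mul_assoc, e3]; field_simp
        rw [h7]
        have h8 := mul_le_mul_of_nonneg_right hκP (by positivity : 0 ≤ X * f ^ 2)
        nlinarith
      nlinarith
    · have z1 : φ P = 0 := image_eq_zero_of_notMem_tsupport hP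
      have z2 : gsq φ P = 0 := gsq_eq_zero hP
      have z3 : gsq (tw k φ) P = 0 := by
        apply gsq_eq_zero
        intro h'
        apply hP
        exact closure_mono (Function.support_mul_subset_right _ φ) h'
      have z4 : dz (Gz k α σ B j φ) j P = 0 := by
        rw [dz_Gz hα hσ h hS, z1]
        simp
      have z5 : dx G1 P = 0 := by
        apply dx_eq_zero
        intro h'
        apply hP
        have hsub : Function.support G1 ⊆ Function.support φ := by
          intro Q hQ hQ0
          apply hQ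
          simp only [hG1]
          rw [hQ0]; simp
        exact closure_mono hsub h'
      rw [z1, z2, z3, z4, z5]
      simp
  -- integrability
  have i1 : Integrable (fun P => gsq (tw k φ) P) (volume : Measure (PP d)) :=
    integrable_gsq (htw.mono (subset_univ _))
  have i2 : Integrable (fun P : PP d => P.1 ^ k * (φ P / P.1) ^ 2) (volume : Measure (PP d)) := by
    have h1 := integrable_mul_of (a := fun P : PP d => P.1 ^ k * (P.1⁻¹) ^ 2) h.sq.continuous
      h.sq.cpt (isOpen_HP d) (by
        apply ContinuousOn.mul (continuous_fst.pow k).continuousOn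
        apply ContinuousOn.pow
        exact continuous_fst.continuousOn.inv₀ (fun P hP => ne_of_gt hP)) (h.sq.supp.trans hHP)
    refine h1.congr (ae_of_all _ fun P => ?_)
    show P.1 ^ k * (P.1⁻¹) ^ 2 * φ P ^ 2 = P.1 ^ k * (φ P / P.1) ^ 2
    rw [div_eq_mul_inv]; ring
  have i3 : Integrable (fun P => dz (Gz k α σ B j φ) j P) (volume : Measure (PP d)) := by
    refine (continuous_dz tG2.smooth j).integrable_of_hasCompactSupport ?_
    refine HasCompactSupport.of_support_subset_isCompact tG2.cpt (fun X hX => ?_)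
    by_contra h'
    exact hX (dz_eq_zero h' j)
  have i4 : Integrable (fun P => dx G1 P) (volume : Measure (PP d)) := by
    refine (continuous_dx tG1.smooth).integrable_of_hasCompactSupport ?_
    refine HasCompactSupport.of_support_subset_isCompact tG1.cpt (fun X hX => ?_)
    by_contra h'
    exact hX (dx_eq_zero h')
  have i5 : Integrable (fun P : PP d => P.1 ^ k * gsq φ P) (volume : Measure (PP d)) :=
    integrable_mul_of (continuous_gsq h.smooth) (hcs_gsq h.cpt) isOpen_univ
      (continuous_fst.pow k).continuousOn (subset_univ _)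
  have hI := integral_mono ((((i1.const_mul B).add (i2.const_mul κ)).sub i3).sub
    (i4.const_mul s)) i5 hpt
  have e1 : ∫ P, (B * gsq (tw k φ) P + κ * (P.1 ^ k * (φ P / P.1) ^ 2) -
      dz (Gz k α σ B j φ) j P - s * dx G1 P) = B * (∫ P, gsq (tw k φ) P) + κ * h2 k φ := by
    have j1 : Integrable (fun P : PP d => B * gsq (tw k φ) P + κ * (P.1 ^ k * (φ P / P.1) ^ 2))
      (volume : Measure (PP d)) := (i1.const_mul B).add (i2.const_mul κ)
    have j2 : Integrable (fun P : PP d => B * gsq (tw k φ) P +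
      κ * (P.1 ^ k * (φ P / P.1) ^ 2) - dz (Gz k α σ B j φ) j P) (volume : Measure (PP d)) :=
      j1.sub i3
    rw [integral_sub j2 (i4.const_mul s), integral_sub j1 i3,
      integral_add (i1.const_mul B) (i2.const_mul κ), integral_const_mul, integral_const_mul,
      integral_const_mul, integral_dz_zero (tG2.mono (subset_univ _)),
      integral_dx_zero (tG1.mono (subset_univ _))]
    unfold h2
    ring
  have e2 : ∫ P : PP d, P.1 ^ k * gsq φ P = q0 k φ := rfl
  rw [← e1, ← e2]
  exact hI

end Pool.Agent.H56.BN
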