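import Mathlib
import Pool.Agent.H56.BN.DomFam
import Pool.Agent.H56.BN.Hardy2

/-!
The two profiles.
-/

set_option autoImplicit false
set_option maxHeartbeats 1000000

namespace Pool.Agent.H56.BN

open MeasureTheory Filter Topology Set
open scoped ContDiff

variable {d : ℕ}

lemma Prof.conv {f : ℝ → ℝ} {a a₁ : ℝ} (hf : Prof f a a₁) {x y u v : ℝ} (hx : 0 < x) (hy : 0 < y)
    (hu : 0 ≤ u) (hv : 0 ≤ v) (huv : u + v = 1) : f (u * x + v * y) ≤ u * f x + v * f y := by
  have hpos : 0 < u * x + v * y := by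
    rcases hu.eq_or_lt with h | h
    · have : v = 1 := by linarith
      rw [← h, this]; linarith
    · have : 0 < u * x := by positivity
      have : 0 ≤ v * y := by positivity
      linarith
  obtain ⟨c, -, hc⟩ := hf.tang _ hpos
  have h1 := hc x hx
  have h2 := hc y hy
  have e1 : u * (f (u * x + v * y) + c * (x - (u * x + v * y))) +
      v * (f (u * x + v * y) + c * (y - (u * x + v * y))) = f (u * x + v * y) := by
    have hv' : v = 1 - u := by linarith
    rw [hv']; ring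
  have e2 := mul_le_mul_of_nonneg_left h1 hu
  have e3 := mul_le_mul_of_nonneg_left h2 hv
  linarith

/-- tangent inequality for even powers -/
lemma pow_tang (p : ℕ) (hp : 1 ≤ p) (u v : ℝ) :
    v ^ (2 * p) + (2 * p : ℕ) * v ^ (2 * p - 1) * (u - v) ≤ u ^ (2 * p) := by
  by_cases hv : v = 0
  · subst hv
    rw [zero_pow (by omega), zero_pow (by omega)]
    have := even_nonneg u p
    simpa using this
  · have h1 : 1 + (2 * p : ℕ) * (u / v - 1) ≤ (u / v) ^ (2 * p) := by
      by_cases h2 : -2 ≤ u / v - 1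
      · have := one_add_mul_le_pow h2 (2 * p)
        simpa using this
      · push Not at h2
        have h3 := even_nonneg (u / v) p
        have h4 : (2:ℝ) ≤ (2 * p : ℕ) := by
          have : 2 ≤ 2 * p := by omega
          exact_mod_cast this
        nlinarith
    have h5 : 0 ≤ v ^ (2 * p) := even_nonneg v p
    have h6 := mul_le_mul_of_nonneg_left h1 h5
    have e1 : v ^ (2 * p) * (u / v) ^ (2 * p) = u ^ (2 * p) := by
      rw [← mul_pow, mul_div_cancel₀ _ hv]
    have e2 : v ^ (2 * p) * (1 + (2 * p : ℕ) * (u / v - 1)) =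
        v ^ (2 * p) + (2 * p : ℕ) * v ^ (2 * p - 1) * (u - v) := by
      have e3 : v ^ (2 * p) = v ^ (2 * p - 1) * v := by
        rw [← pow_succ]; congr 1; omega
      rw [e3]
      field_simp
    rw [e1, e2] at h6
    exact h6

/-- profile far from the axis -/
noncomputable def fA (c h : ℝ) (p : ℕ) (x : ℝ) : ℝ := ((x - c) / h) ^ (2 * p) - 1

lemma prof_fA {c h : ℝ} (hh : 0 < h) (hc : 0 < c) {p : ℕ} (hp : 1 ≤ p) :
    Prof (fA c h p) (c - h) (c + h) := by
  refine ⟨?_, ?_, ?_, ⟨c, hc, ?_⟩, ?_⟩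
  · unfold fA
    exact (((contDiff_id.sub contDiff_const).div_const h).pow (2 * p)).sub
      contDiff_const |>.contDiffOn
  · intro x hx
    refine ⟨(2 * p : ℕ) * ((x - c) / h) ^ (2 * p - 1) * (1 / h), ?_, ?_⟩
    · have h1 : HasDerivAt (fun x : ℝ => (x - c) / h) (1 / h) x :=
        ((hasDerivAt_id x).sub_const c).div_const h
      exact (h1.pow (2 * p)).sub_const 1
    · intro y hy
      have h2 := pow_tang p hp ((y - c) / h) ((x - c) / h)
      unfold fA
      have e : (y - c) / h - (x - c) / h = 1 / h * (y - x) := by ring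
      rw [e] at h2
      linarith
  · intro x hx hfx
    unfold fA at hfx
    have h1 : ((x - c) / h) ^ (2 * p) < 1 := by linarith
    have h2 : |(x - c) / h| < 1 := by
      by_contra hcon
      push Not at hcon
      have : 1 ≤ |(x - c) / h| ^ (2 * p) := one_le_pow₀ hcon
      rw [Even.pow_abs (even_two_mul p)] at this
      linarith
    rw [abs_div, abs_of_pos hh, div_lt_one hh] at h2
    have h3 := abs_lt.1 h2
    exact ⟨by linarith, by linarith⟩
  · unfold fA
    rw [sub_self, zero_div, zero_pow (by omega)]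
    norm_num
  · intro x hx
    unfold fA
    have := even_nonneg ((x - c) / h) p
    linarith

/-- profile reaching towards the axis -/
noncomputable def fB (x₂ α : ℝ) (p : ℕ) (x : ℝ) : ℝ :=
  (x / x₂) ^ (2 * p) + α * (1 - (α / x₂) ^ (2 * p)) / x - 1

section fB

variable {x₂ α : ℝ} {p : ℕ}

lemma fB_self (hα : 0 < α) : fB x₂ α p α = 0 := by
  unfold fB
  field_simp
  ring

lemma fB_nonneg (hα : 0 < α) (hA : (2 * p + 1 : ℕ) * (α / x₂) ^ (2 * p) ≤ 1)
    {x : ℝ} (hx : 0 < x) (hxα : x ≤ α) : 0 ≤ fB x₂ α p x := by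
  obtain ⟨A, hAd⟩ : ∃ A, A = (α / x₂) ^ (2 * p) := ⟨_, rfl⟩
  obtain ⟨r, hr⟩ : ∃ r, r = x / α := ⟨_, rfl⟩
  have hr0 : 0 < r := by rw [hr]; positivity
  have hr1 : r ≤ 1 := by rw [hr, div_le_one hα]; exact hxα
  have hA0 : 0 ≤ A := by rw [hAd]; exact even_nonneg _ _
  rw [← hAd] at hA
  have hA1 : A ≤ 1 := by
    have : (1:ℝ) ≤ (2 * p + 1 : ℕ) := by
      have : 1 ≤ 2 * p + 1 := by omega
      exact_mod_cast this
    nlinarith
  have e1 : (x / x₂) ^ (2 * p) = r ^ (2 * p) * A := by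
    rw [hAd, ← mul_pow, hr]
    congr 1
    field_simp
  have e2 : α * (1 - A) / x = (1 - A) / r := by
    rw [hr]; field_simp
  unfold fB
  rw [← hAd, e1, e2]
  have h1 : 1 + (2 * p : ℕ) * (r - 1) ≤ r ^ (2 * p) := by
    have := one_add_mul_le_pow (show -2 ≤ r - 1 by linarith) (2 * p)
    simpa using this
  have h2 : 2 - r ≤ 1 / r := by
    rw [le_div_iff₀ hr0]
    nlinarith [sq_nonneg (r - 1)]
  have h3 := mul_le_mul_of_nonneg_right h1 hA0
  have h4 : (1 - A) * (2 - r) ≤ (1 - A) / r := by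
    rw [div_eq_mul_one_div (1 - A) r]
    exact mul_le_mul_of_nonneg_left h2 (by linarith)
  have h5 : 0 ≤ (1 - r) * (1 - (2 * p + 1 : ℕ) * A) := mul_nonneg (by linarith) (by linarith)
  push_cast at h3 h5
  nlinarith

lemma prof_fB (hx₂ : 0 < x₂) (hα : 0 < α) (hαx : α ≤ x₂) (hp : 1 ≤ p)
    (hA : (2 * p + 1 : ℕ) * (α / x₂) ^ (2 * p) ≤ 1) {y₀ : ℝ} (hy₀ : 0 < y₀)
    (hneg : fB x₂ α p y₀ < 0) : Prof (fB x₂ α p) α x₂ := by
  have hA1 : (α / x₂) ^ (2 * p) ≤ 1 := pow_le_one₀ (by positivity) (by rw [div_le_one hx₂]; exact hαx)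
  obtain ⟨c, hc⟩ : ∃ c, c = α * (1 - (α / x₂) ^ (2 * p)) := ⟨_, rfl⟩
  have hc0 : 0 ≤ c := by rw [hc]; exact mul_nonneg hα.le (by linarith)
  have hf : fB x₂ α p = fun x => (x / x₂) ^ (2 * p) + c / x - 1 := by
    funext x; unfold fB; rw [← hc]
  refine ⟨?_, ?_, ?_, ⟨y₀, hy₀, hneg⟩, ?_⟩
  · rw [hf]
    apply ContDiffOn.sub _ contDiffOn_const
    apply ContDiffOn.add
    · exact ((contDiff_id.div_const x₂).pow (2 * p)).contDiffOn
    · exact contDiffOn_const.div contDiffOn_id fun x hx => ne_of_gt hx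
  · intro x hx
    refine ⟨(2 * p : ℕ) * (x / x₂) ^ (2 * p - 1) * (1 / x₂) + -(c / x ^ 2), ?_, ?_⟩
    · rw [hf]
      have h1 : HasDerivAt (fun x : ℝ => x / x₂) (1 / x₂) x := (hasDerivAt_id x).div_const x₂
      have h2 : HasDerivAt (fun x : ℝ => c / x) (-(c / x ^ 2)) x := by
        have := (hasDerivAt_inv hx.ne').const_mul c
        simp only [← div_eq_mul_inv] at this
        refine this.congr_deriv ?_
        field_simp
      exact ((h1.pow (2 * p)).add h2).sub_const 1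
    · intro y hy
      have h2 := pow_tang p hp (y / x₂) (x / x₂)
      have e : y / x₂ - x / x₂ = 1 / x₂ * (y - x) := by ring
      rw [e] at h2
      have h3 : c / x + -(c / x ^ 2) * (y - x) ≤ c / y := by
        have e4 : c / y - (c / x + -(c / x ^ 2) * (y - x)) = c * ((y - x) ^ 2 / (x ^ 2 * y)) := by
          field_simp
          ring
        have : 0 ≤ c * ((y - x) ^ 2 / (x ^ 2 * y)) := by positivity
        linarith
      rw [hf]
      simp only
      linarith
  · intro x hx hfx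
    constructor
    · by_contra hcon
      push Not at hcon
      have := fB_nonneg hα hA hx hcon
      linarith
    · rw [hf] at hfx
      have h1 : (x / x₂) ^ (2 * p) < 1 := by
        have : 0 ≤ c / x := by positivity
        linarith
      by_contra hcon
      push Not at hcon
      have : 1 ≤ (x / x₂) ^ (2 * p) := one_le_pow₀ (by rw [le_div_iff₀ hx₂]; linarith)
      linarith
  · intro x hx
    rw [hf]
    have h1 := even_nonneg (x / x₂) p
    have : 0 ≤ c / x := by positivity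
    linarith

/-- inclusion in the thin set -/
lemma dset_NS {σ b : ℝ} (hσ : 0 < σ) (hb : 0 < b) (hx₂ : 0 < x₂) (hα : 0 < α) (hp : 1 ≤ p)
    (hf : Prof (fB x₂ α p) α x₂) (j : Fin d) :
    dset (fB x₂ α p) (1 / σ ^ 2) b p j ⊆ NS α σ j := by
  intro P hP
  have hloc := dset_loc hf (by positivity) hb hp hP
  obtain ⟨h1, h2⟩ := hP
  refine ⟨hloc.1, ?_⟩
  unfold lev2 fB at h2
  have hs : 0 ≤ ∑ i, (P.2 i / b) ^ (2 * p) := Finset.sum_nonneg fun i _ => even_nonneg _ _
  obtain ⟨x, z⟩ := P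
  simp only at h1 h2 hs hloc ⊢
  have hαx : α < x := hloc.1
  have hA : (α / x₂) ^ (2 * p) ≤ (x / x₂) ^ (2 * p) :=
    pow_le_pow_left₀ (by positivity) (by gcongr) _
  obtain ⟨A, hAd⟩ : ∃ A, A = (α / x₂) ^ (2 * p) := ⟨_, rfl⟩
  obtain ⟨B, hBd⟩ : ∃ B, B = (x / x₂) ^ (2 * p) := ⟨_, rfl⟩
  have hA0 : 0 ≤ A := by rw [hAd]; exact even_nonneg _ _
  rw [← hAd, ← hBd] at h2 hA
  have h3 : α / x ≤ B + α * (1 - A) / x := by
    rw [← sub_le_iff_le_add]
    have e : α / x - α * (1 - A) / x = A * (α / x) := by field_simp; ring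
    rw [e]
    have : α / x ≤ 1 := by rw [div_le_one h1]; exact hαx.le
    nlinarith
  have h4 : 1 / σ ^ 2 * (z j / x) ^ 2 < 1 - α / x := by linarith
  have h5 : z j ^ 2 = (σ ^ 2 * x ^ 2) * (1 / σ ^ 2 * (z j / x) ^ 2) := by field_simp
  rw [h5]
  calc (σ ^ 2 * x ^ 2) * (1 / σ ^ 2 * (z j / x) ^ 2) ≤ (σ ^ 2 * x ^ 2) * (1 - α / x) :=
        mul_le_mul_of_nonneg_left h4.le (by positivity)
    _ = σ ^ 2 * (x * (x - α)) := by field_simp

/-- the tip -/
lemma dset_tip {K b : ℝ} (hα : 0 < α) (hp : 1 ≤ p) (hf : Prof (fB x₂ α p) α x₂)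
    (j : Fin d) {δ : ℝ} (hδ : 0 < δ) :
    ∃ P ∈ interior (dset (fB x₂ α p) K b p j), P.1 < α + δ := by
  obtain ⟨y₀, hy₀, hneg⟩ := hf.neg
  have hαy := (hf.loc y₀ hy₀ hneg).1
  obtain ⟨s, hs⟩ : ∃ s, s = min 1 (δ / 2 / (y₀ - α)) := ⟨_, rfl⟩
  have hya : 0 < y₀ - α := by linarith
  have hs0 : 0 < s := by rw [hs]; exact lt_min one_pos (by positivity)
  have hs1 : s ≤ 1 := by rw [hs]; exact min_le_left _ _
  have hs2 : s * (y₀ - α) ≤ δ / 2 := by
    have : s ≤ δ / 2 / (y₀ - α) := by rw [hs]; exact min_le_right _ _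
    rwa [le_div_iff₀ hya] at this
  have h1 := hf.conv hα hy₀ (by linarith : 0 ≤ 1 - s) hs0.le (by ring)
  rw [fB_self hα, mul_zero, zero_add] at h1
  have h2 : s * fB x₂ α p y₀ < 0 := mul_neg_of_pos_of_neg hs0 hneg
  have hpos : 0 < (1 - s) * α + s * y₀ := by nlinarith
  refine ⟨((1 - s) * α + s * y₀, 0), ?_, ?_⟩
  · rw [(isOpen_dset hf).interior_eq]
    exact ⟨hpos, by rw [lev2_axis _ hp]; linarith⟩
  · show (1 - s) * α + s * y₀ < α + δ
    nlinarith

end fB

end Pool.Agent.H56.BN
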