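import Mathlib
import Pool.Agent.H56.BN.Cube4
import Pool.Agent.H56.BN.Bst

/-!
Almost optimal functions on the cube.
-/

set_option autoImplicit false
set_option maxHeartbeats 1000000

namespace Pool.Agent.H56.BN

open MeasureTheory Filter Topology Set
open scoped ContDiff ENNReal

variable {d : ℕ}

/-- the one dimensional cutoff -/
noncomputable def th (b δ s : ℝ) : ℝ := Real.smoothTransition ((b ^ 2 - s ^ 2) / δ - 1)

/-- its derivative -/
noncomputable def th' (b δ s : ℝ) : ℝ :=
  deriv Real.smoothTransition ((b ^ 2 - s ^ 2) / δ - 1) * (-(2 * s) / δ)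

lemma hasDerivAt_th (b δ s : ℝ) : HasDerivAt (th b δ) (th' b δ s) s := by
  have h1 : HasDerivAt (fun s : ℝ => (b ^ 2 - s ^ 2) / δ - 1) (-(2 * s) / δ) s := by
    have := ((((hasDerivAt_id s).pow 2).const_sub (b ^ 2)).div_const δ).sub_const 1
    refine this.congr_deriv ?_
    simp
  have h2 : HasDerivAt Real.smoothTransition
      (deriv Real.smoothTransition ((b ^ 2 - s ^ 2) / δ - 1)) ((b ^ 2 - s ^ 2) / δ - 1) :=
    ((Real.smoothTransition.contDiff (n := 1)).differentiable (by norm_num) _).hasDerivAt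
  exact h2.comp s h1

lemma contDiff_th (b δ : ℝ) : ContDiff ℝ ∞ (th b δ) := by
  unfold th
  have h1 : ContDiff ℝ ∞ (fun s : ℝ => (b ^ 2 - s ^ 2) / δ - 1) := by fun_prop
  exact Real.smoothTransition.contDiff.comp h1

lemma th_nonneg (b δ s : ℝ) : 0 ≤ th b δ s := Real.smoothTransition.nonneg _
lemma th_le_one (b δ s : ℝ) : th b δ s ≤ 1 := Real.smoothTransition.le_one _

lemma th_zero {b δ s : ℝ} (hδ : 0 < δ) (h : b ^ 2 - s ^ 2 ≤ δ) : th b δ s = 0 := by
  unfold th
  apply Real.smoothTransition.zero_of_nonpos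
  rw [sub_nonpos, div_le_one hδ]
  exact h

lemma th_one {b δ s : ℝ} (hδ : 0 < δ) (h : 2 * δ ≤ b ^ 2 - s ^ 2) : th b δ s = 1 := by
  unfold th
  apply Real.smoothTransition.one_of_one_le
  rw [le_sub_iff_add_le, le_div_iff₀ hδ]
  linarith

lemma dst_zero {x : ℝ} (h : x < 0 ∨ 1 < x) : deriv Real.smoothTransition x = 0 := by
  rcases h with h | h
  · have h1 : Real.smoothTransition =ᶠ[𝓝 x] fun _ => 0 := by
      filter_upwards [gt_mem_nhds h] with y hy
      exact Real.smoothTransition.zero_of_nonpos (le_of_lt hy)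
    rw [h1.deriv_eq]; simp
  · have h1 : Real.smoothTransition =ᶠ[𝓝 x] fun _ => 1 := by
      filter_upwards [lt_mem_nhds h] with y hy
      exact Real.smoothTransition.one_of_one_le (le_of_lt hy)
    rw [h1.deriv_eq]; simp

lemma th'_zero {b δ s : ℝ} (hδ : 0 < δ) (h : b ^ 2 - s ^ 2 < δ ∨ 2 * δ < b ^ 2 - s ^ 2) :
    th' b δ s = 0 := by
  unfold th'
  rw [dst_zero, zero_mul]
  rcases h with h | h
  · left
    rw [sub_neg, div_lt_one hδ]
    exact h
  · right
    rw [lt_sub_iff_add_lt, lt_div_iff₀ hδ]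
    linarith

/-- the key bound -/
lemma th'_bound {b : ℝ} (hb : 0 < b) : ∃ K : ℝ, 0 ≤ K ∧ ∀ δ s : ℝ, 0 < δ →
    |Real.cos (om b * s) * th' b δ s| ≤ K := by
  obtain ⟨C, hC0, hC⟩ := exists_bound_st
  have hpi := Real.pi_pos
  refine ⟨2 * Real.pi * C / b, by positivity, ?_⟩
  intro δ s hδ
  by_cases h : b ^ 2 - s ^ 2 < δ ∨ 2 * δ < b ^ 2 - s ^ 2
  · rw [th'_zero hδ h, mul_zero, abs_zero]; positivity
  push Not at h
  obtain ⟨h1, h2⟩ := h
  have hs : |s| < b := by
    apply abs_lt_of_sq_lt_sq _ hb.le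
    linarith
  have hcos : |Real.cos (om b * s)| ≤ Real.pi * δ / b ^ 2 := by
    have e : Real.cos (om b * s) = Real.sin (Real.pi / 2 - om b * |s|) := by
      rw [Real.sin_pi_div_two_sub]
      rcases abs_cases s with ⟨h3, -⟩ | ⟨h3, -⟩
      · rw [h3]
      · rw [h3, mul_neg, Real.cos_neg]
    have e2 : Real.pi / 2 - om b * |s| = Real.pi / (2 * b) * (b - |s|) := by
      unfold om; field_simp
    have h4 : 0 ≤ Real.pi / (2 * b) * (b - |s|) :=
      mul_nonneg (by positivity) (by linarith)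
    rw [e, e2]
    have h5 := Real.sin_le h4
    have h6 : 0 ≤ Real.sin (Real.pi / (2 * b) * (b - |s|)) := by
      apply Real.sin_nonneg_of_nonneg_of_le_pi h4
      rw [← e2]
      have : 0 ≤ om b * |s| := mul_nonneg (by unfold om; positivity) (abs_nonneg _)
      linarith
    rw [abs_of_nonneg h6]
    refine h5.trans ?_
    have h7 : b * (b - |s|) ≤ b ^ 2 - s ^ 2 := by
      rw [← sq_abs s]
      nlinarith [abs_nonneg s]
    rw [div_mul_eq_mul_div, div_le_div_iff₀ (by positivity) (by positivity)]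
    have h8 : b * (b - |s|) ≤ 2 * δ := h7.trans h2
    calc Real.pi * (b - |s|) * b ^ 2 = Real.pi * b * (b * (b - |s|)) := by ring
      _ ≤ Real.pi * b * (2 * δ) := mul_le_mul_of_nonneg_left h8 (by positivity)
      _ = _ := by ring
  have hth : |th' b δ s| ≤ C * (2 * b / δ) := by
    unfold th'
    rw [abs_mul]
    apply mul_le_mul (hC _) _ (abs_nonneg _) hC0
    rw [abs_div, abs_neg, abs_mul, abs_of_pos (by norm_num : (0:ℝ) < 2), abs_of_pos hδ]
    gcongr
  rw [abs_mul]
  calc |Real.cos (om b * s)| * |th' b δ s| ≤ (Real.pi * δ / b ^ 2) * (C * (2 * b / δ)) :=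
        mul_le_mul hcos hth (abs_nonneg _) (by positivity)
    _ = 2 * Real.pi * C / b := by field_simp

/-- the product cutoff -/
noncomputable def vth (d : ℕ) (b δ : ℝ) (z : Zd d) : ℝ := ∏ i, th b δ (z i)

lemma contDiff_vth (b δ : ℝ) : ContDiff ℝ ∞ (vth d b δ) := by
  unfold vth
  apply contDiff_prod
  intro i _
  exact (contDiff_th b δ).comp (contDiff_coord i)

lemma vth_TZ {b δ : ℝ} (hb : 0 < b) (hδ : 0 < δ) : TZ (Qb d b) (vth d b δ) := by
  have hsub : tsupport (vth d b δ) ⊆ {z | ∀ i, δ ≤ b ^ 2 - z i ^ 2} := by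
    apply closure_minimal
    · intro z hz i
      by_contra hcon
      push Not at hcon
      apply hz
      unfold vth
      exact Finset.prod_eq_zero (Finset.mem_univ i) (th_zero hδ hcon.le)
    · have : {z : Zd d | ∀ i, δ ≤ b ^ 2 - z i ^ 2} = ⋂ i, {z : Zd d | δ ≤ b ^ 2 - z i ^ 2} := by
        ext z; simp
      rw [this]
      apply isClosed_iInter
      intro i
      exact isClosed_le continuous_const
        (continuous_const.sub ((contDiff_coord i).continuous.pow 2))
  have hsub2 : tsupport (vth d b δ) ⊆ Qb d b := by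
    intro z hz i
    apply abs_lt_of_sq_lt_sq _ hb.le
    have := hsub hz i
    linarith
  exact ⟨contDiff_vth b δ, (isCompact_closedBall (0 : Zd d) (Real.sqrt (d * b ^ 2))).of_isClosed_subset
    (isClosed_tsupport _) (hsub2.trans (Qb_subset b)), hsub2⟩

lemma dd_vth (b δ : ℝ) (j : Fin d) (z : Zd d) :
    dd (vth d b δ) j z = th' b δ (z j) * ∏ i ∈ Finset.univ.erase j, th b δ (z i) := by
  apply dd_eq_of ((contDiff_vth b δ).differentiable (by simp) z)
  have e : (fun t : ℝ => vth d b δ (z + t • EuclideanSpace.single j (1:ℝ))) =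
      fun t : ℝ => th b δ (z j + t) * ∏ i ∈ Finset.univ.erase j, th b δ (z i) := by
    funext t
    unfold vth
    rw [← Finset.mul_prod_erase Finset.univ _ (Finset.mem_univ j), line_coord, if_pos rfl]
    congr 1
    apply Finset.prod_congr rfl
    intro i hi
    rw [line_coord, if_neg (Finset.ne_of_mem_erase hi)]
  rw [e]
  apply HasDerivAt.mul_const
  have h1 : HasDerivAt (fun t : ℝ => z j + t) 1 0 := (hasDerivAt_id (0:ℝ)).const_add (z j)
  have h2 : HasDerivAt (th b δ) (th' b δ (z j)) (z j + 0) := by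
    rw [add_zero]; exact hasDerivAt_th b δ (z j)
  have h3 := h2.comp (0:ℝ) h1
  rw [mul_one] at h3
  exact h3

lemma abs_chi_dd {b K δ : ℝ} (hK0 : 0 ≤ K) (hK : ∀ s : ℝ, |Real.cos (om b * s) * th' b δ s| ≤ K)
    (j : Fin d) (z : Zd d) : |chi d b z * dd (vth d b δ) j z| ≤ K := by
  rw [dd_vth, chi_eq b j]
  have e : Real.cos (om b * z j) * Rj d b j z *
      (th' b δ (z j) * ∏ i ∈ Finset.univ.erase j, th b δ (z i)) =
      (Real.cos (om b * z j) * th' b δ (z j)) *
      (Rj d b j z * ∏ i ∈ Finset.univ.erase j, th b δ (z i)) := by ring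
  rw [e, abs_mul]
  have h1 : |Rj d b j z * ∏ i ∈ Finset.univ.erase j, th b δ (z i)| ≤ 1 := by
    unfold Rj
    rw [abs_mul, Finset.abs_prod, Finset.abs_prod]
    apply mul_le_one₀
    · exact Finset.prod_le_one (fun i _ => abs_nonneg _) fun i _ => Real.abs_cos_le_one _
    · exact Finset.prod_nonneg fun i _ => abs_nonneg _
    · apply Finset.prod_le_one (fun i _ => abs_nonneg _)
      intro i _
      rw [abs_of_nonneg (th_nonneg _ _ _)]
      exact th_le_one _ _ _
  calc _ ≤ K * 1 := mul_le_mul (hK _) h1 (abs_nonneg _) hK0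
    _ = K := mul_one K

/-- **almost optimal functions on the cube** -/
theorem exists_opt {b : ℝ} (hb : 0 < b) {ε : ℝ} (hε : 0 < ε) : ∃ ψ : Zd d → ℝ, TZ (Qb d b) ψ ∧
    0 < (∫ z, ψ z ^ 2) ∧ ∫ z, gz ψ z ≤ (d * om b ^ 2 + ε) * ∫ z, ψ z ^ 2 := by
  obtain ⟨K, hK0, hK⟩ := th'_bound hb
  have hδ : ∀ n : ℕ, (0:ℝ) < 1 / (n + 1) := fun n => by positivity
  have hN := Nb_pos (d := d) hb
  have hc := (contDiff_chi (d := d) b).continuous
  obtain ⟨v, hv⟩ : ∃ v : ℕ → Zd d → ℝ, v = fun n : ℕ => vth d b (1 / ((n:ℝ) + 1)) :=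
    ⟨_, rfl⟩
  have hvT : ∀ n, TZ (Qb d b) (v n) := fun n => by rw [hv]; exact vth_TZ hb (hδ n)
  have hev : ∀ s : ℝ, |s| < b → ∀ᶠ n : ℕ in atTop, 2 * (1 / ((n:ℝ) + 1)) < b ^ 2 - s ^ 2 := by
    intro s hs
    have h1 : Tendsto (fun n : ℕ => 2 * (1 / ((n:ℝ) + 1))) atTop (𝓝 (2 * 0)) :=
      (tendsto_one_div_add_atTop_nhds_zero_nat (𝕜 := ℝ)).const_mul 2
    rw [mul_zero] at h1
    apply h1.eventually_lt_const
    have : s ^ 2 < b ^ 2 := by
      rw [← sq_abs s]
      exact pow_lt_pow_left₀ hs (abs_nonneg _) (by norm_num)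
    linarith
  have L1 : Tendsto (fun n => ∫ z, (chi d b z * v n z) ^ 2) atTop (𝓝 (Nb d b)) := by
    unfold Nb
    rw [← integral_indicator (isOpen_Qb b).measurableSet]
    apply tendsto_integral_of_dominated_convergence ((Qb d b).indicator fun z => chi d b z ^ 2)
    · intro n
      exact ((hc.mul (hvT n).cont).pow 2).aestronglyMeasurable
    · rw [integrable_indicator_iff (isOpen_Qb b).measurableSet]
      exact int_Qb (hc.pow 2) b
    · intro n
      apply ae_of_all
      intro z
      by_cases hz : z ∈ Qb d b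
      · rw [indicator_of_mem hz, Real.norm_eq_abs, abs_of_nonneg (sq_nonneg _), mul_pow]
        have h1 : v n z ^ 2 ≤ 1 := by
          have h2 : 0 ≤ v n z := by
            rw [hv]; exact Finset.prod_nonneg fun i _ => th_nonneg _ _ _
          have h3 : v n z ≤ 1 := by
            rw [hv]
            exact Finset.prod_le_one (fun i _ => th_nonneg _ _ _) fun i _ => th_le_one _ _ _
          nlinarith
        calc chi d b z ^ 2 * v n z ^ 2 ≤ chi d b z ^ 2 * 1 :=
              mul_le_mul_of_nonneg_left h1 (sq_nonneg _)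
          _ = _ := mul_one _
      · rw [indicator_of_notMem hz, (hvT n).zero hz]; simp
    · apply ae_of_all
      intro z
      by_cases hz : z ∈ Qb d b
      · rw [indicator_of_mem hz]
        apply tendsto_const_nhds.congr'
        have h1 : ∀ᶠ n : ℕ in atTop, ∀ i, 2 * (1 / ((n:ℝ) + 1)) < b ^ 2 - z i ^ 2 := by
          rw [eventually_all]
          exact fun i => hev _ (hz i)
        filter_upwards [h1] with n hn
        have : v n z = 1 := by
          rw [hv]
          exact Finset.prod_eq_one fun i _ => th_one (hδ n) (hn i).le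
        rw [this, mul_one]
      · rw [indicator_of_notMem hz]
        apply tendsto_const_nhds.congr
        intro n
        rw [(hvT n).zero hz]; norm_num
  have L2 : ∀ j, Tendsto (fun n => ∫ z, chi d b z ^ 2 * dd (v n) j z ^ 2) atTop (𝓝 0) := by
    intro j
    have : (0:ℝ) = ∫ z : Zd d, (0:ℝ) := by simp
    rw [this]
    apply tendsto_integral_of_dominated_convergence ((Qb d b).indicator fun _ => K ^ 2)
    · intro n
      exact ((hc.pow 2).mul ((cont_dd (hvT n).smooth j).pow 2)).aestronglyMeasurable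
    · rw [integrable_indicator_iff (isOpen_Qb b).measurableSet]
      exact integrableOn_const (vol_Qb_lt b).ne
    · intro n
      apply ae_of_all
      intro z
      by_cases hz : z ∈ Qb d b
      · rw [indicator_of_mem hz, Real.norm_eq_abs, ← mul_pow, abs_of_nonneg (sq_nonneg _),
          ← sq_abs]
        apply pow_le_pow_left₀ (abs_nonneg _)
        rw [hv]
        exact abs_chi_dd hK0 (fun s => hK _ s (hδ n)) j z
      · rw [indicator_of_notMem hz, dd_zero fun h' => hz ((hvT n).supp h')]; simp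
    · apply ae_of_all
      intro z
      by_cases hz : |z j| < b
      · apply tendsto_const_nhds.congr'
        filter_upwards [hev _ hz] with n hn
        rw [hv]
        show 0 = chi d b z ^ 2 * dd (vth d b (1 / ((n:ℝ) + 1))) j z ^ 2
        rw [dd_vth, th'_zero (hδ n) (Or.inr hn)]; ring
      · apply tendsto_const_nhds.congr
        intro n
        rw [dd_zero fun h' => hz ((hvT n).supp h' j)]; ring
  have L3 : Tendsto (fun n => ∫ z, chi d b z ^ 2 * gz (v n) z) atTop (𝓝 0) := by
    have h1 := tendsto_finset_sum Finset.univ fun j _ => L2 j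
    rw [Finset.sum_const_zero] at h1
    refine h1.congr fun n => ?_
    unfold gz
    simp only [Finset.mul_sum]
    rw [integral_finset_sum]
    intro j _
    have := cont_dd (hvT n).smooth j
    exact (hvT n).int (by fun_prop) fun z hz => by rw [dd_zero hz]; norm_num
  have E1 : ∀ᶠ n in atTop, Nb d b / 2 < ∫ z, (chi d b z * v n z) ^ 2 :=
    L1.eventually_const_lt (by linarith)
  have E2 : ∀ᶠ n in atTop, ∫ z, chi d b z ^ 2 * gz (v n) z < ε * (Nb d b / 2) :=
    L3.eventually_lt_const (by positivity)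
  obtain ⟨n, hn1, hn2⟩ := (E1.and E2).exists
  have hψ : TZ (Qb d b) (fun z => chi d b z * v n z) :=
    (hvT n).mul_left isOpen_univ (contDiff_chi b).contDiffOn (subset_univ _)
  refine ⟨_, hψ, by linarith, ?_⟩
  have hg1 : ∫ z, gz (fun z => chi d b z * v n z) z =
      ∑ j, ∫ z, dd (fun z => chi d b z * v n z) j z ^ 2 := by
    unfold gz
    apply integral_finset_sum
    intro j _
    have := cont_dd hψ.smooth j
    exact hψ.int (by fun_prop) fun z hz => by rw [dd_zero hz]; norm_num
  have hg2 : ∫ z, chi d b z ^ 2 * gz (v n) z = ∑ j, ∫ z, chi d b z ^ 2 * dd (v n) j z ^ 2 := by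
    unfold gz
    simp only [Finset.mul_sum]
    apply integral_finset_sum
    intro j _
    have := cont_dd (hvT n).smooth j
    exact (hvT n).int (by fun_prop) fun z hz => by rw [dd_zero hz]; norm_num
  rw [hg1, Finset.sum_congr rfl fun j _ => jacobi b (hvT n) j, Finset.sum_add_distrib, ← hg2,
    Finset.sum_const, Finset.card_univ, Fintype.card_fin, nsmul_eq_mul]
  have h5 : ε * (Nb d b / 2) ≤ ε * ∫ z, (chi d b z * v n z) ^ 2 :=
    mul_le_mul_of_nonneg_left hn1.le hε.le
  nlinarith

end Pool.Agent.H56.BN
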