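import Mathlib
import Pool.Agent.H56.BN.OneD2
import Pool.Agent.H56.BN.Bst

/-!
The one dimensional inequality with point constraints.
-/

set_option autoImplicit false
set_option maxHeartbeats 1000000

namespace Pool.Agent.H56.BN

open MeasureTheory Filter Topology Set
open scoped ContDiff

section cut

variable {a b s : ℝ} {h : ℝ → ℝ}

/-- restriction to an open set with the boundary outside the support -/
lemma cut_smooth (hh : T1 a b h) {U V : Set ℝ} (hU : IsOpen U) (hV : IsOpen V)
    (hUV : Disjoint U V) (hcov : ∀ x ∈ tsupport h, x ∈ U ∪ V) :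
    ContDiff ℝ ∞ (U.indicator h) ∧ HasCompactSupport (U.indicator h) ∧
      tsupport (U.indicator h) ⊆ tsupport h ∩ U ∧
      ∀ x, deriv (U.indicator h) x = U.indicator (deriv h) x := by
  have loc : ∀ x, (x ∈ U → U.indicator h =ᶠ[𝓝 x] h) ∧ (x ∉ U → U.indicator h =ᶠ[𝓝 x] fun _ => 0) := by
    intro x
    refine ⟨fun hx => ?_, fun hx => ?_⟩
    · filter_upwards [hU.mem_nhds hx] with y hy
      exact indicator_of_mem hy h
    · by_cases hx' : x ∈ tsupport h
      · have hxV : x ∈ V := by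
          rcases hcov x hx' with h1 | h1
          · exact absurd h1 hx
          · exact h1
        filter_upwards [hV.mem_nhds hxV] with y hy
        exact indicator_of_notMem (fun hyU => Set.disjoint_left.1 hUV hyU hy) h
      · filter_upwards [notMem_tsupport_iff_eventuallyEq.1 hx'] with y hy
        by_cases hyU : y ∈ U
        · rw [indicator_of_mem hyU, hy]; rfl
        · rw [indicator_of_notMem hyU]
  have hs1 : tsupport (U.indicator h) ⊆ tsupport h ∩ U := by
    intro x hx
    refine ⟨?_, ?_⟩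
    · have h1 : tsupport (U.indicator h) ⊆ tsupport h := by
        apply closure_mono
        intro y hy
        have : (U.indicator h) y ≠ 0 := hy
        intro h0
        apply this
        by_cases hyU : y ∈ U
        · rw [indicator_of_mem hyU, h0]
        · rw [indicator_of_notMem hyU]
      exact h1 hx
    · by_contra hxU
      exact (notMem_tsupport_iff_eventuallyEq.2 ((loc x).2 hxU)) hx
  refine ⟨?_, ?_, hs1, ?_⟩
  · rw [contDiff_iff_contDiffAt]
    intro x
    by_cases hx : x ∈ U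
    · exact hh.smooth.contDiffAt.congr_of_eventuallyEq ((loc x).1 hx)
    · exact contDiffAt_const.congr_of_eventuallyEq ((loc x).2 hx)
  · exact hh.cpt.of_isClosed_subset (isClosed_tsupport _) (hs1.trans inter_subset_left)
  · intro x
    by_cases hx : x ∈ U
    · rw [((loc x).1 hx).deriv_eq, indicator_of_mem hx]
    · rw [((loc x).2 hx).deriv_eq, indicator_of_notMem hx]
      exact deriv_const x 0

/-- splitting at a point outside the support -/
lemma cut_split (hh : T1 a b h) (hs : s ∉ tsupport h) :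
    ∃ h1 h2 : ℝ → ℝ, T1 a s h1 ∧ T1 s b h2 ∧ tsupport h1 ⊆ tsupport h ∧
      (∀ x, h x ^ 2 = h1 x ^ 2 + h2 x ^ 2) ∧
      ∀ x, deriv h x ^ 2 = deriv h1 x ^ 2 + deriv h2 x ^ 2 := by
  have hcov : ∀ x ∈ tsupport h, x ∈ Iio s ∪ Ioi s := by
    intro x hx
    rcases lt_trichotomy x s with h1 | h1 | h1
    · exact Or.inl h1
    · rw [h1] at hx; exact absurd hx hs
    · exact Or.inr h1
  have hdis : Disjoint (Iio s) (Ioi s) := by
    rw [Set.disjoint_left]
    intro x hx hx'
    exact lt_asymm (show x < s from hx) hx'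
  obtain ⟨a1, a2, a3, a4⟩ := cut_smooth hh isOpen_Iio isOpen_Ioi hdis hcov
  obtain ⟨b1, b2, b3, b4⟩ := cut_smooth hh isOpen_Ioi isOpen_Iio hdis.symm
    (fun x hx => (hcov x hx).symm)
  have hsum : ∀ (f : ℝ → ℝ) (x : ℝ), f s = 0 →
      f x ^ 2 = (Iio s).indicator f x ^ 2 + (Ioi s).indicator f x ^ 2 := by
    intro f x hf
    rcases lt_trichotomy x s with h1 | h1 | h1
    · rw [indicator_of_mem (show x ∈ Iio s from h1),
        indicator_of_notMem (show x ∉ Ioi s from not_lt.2 h1.le)]; ring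
    · rw [h1, hf, indicator_of_notMem (show s ∉ Ioi s from lt_irrefl s),
        indicator_of_notMem (show s ∉ Iio s from lt_irrefl s)]; ring
    · rw [indicator_of_mem (show x ∈ Ioi s from h1),
        indicator_of_notMem (show x ∉ Iio s from not_lt.2 h1.le)]; ring
  refine ⟨(Iio s).indicator h, (Ioi s).indicator h, ⟨a1, a2, ?_⟩, ⟨b1, b2, ?_⟩,
    a3.trans inter_subset_left, ?_, ?_⟩
  · intro x hx
    exact ⟨(hh.supp (a3 hx).1).1, (a3 hx).2⟩
  · intro x hx
    exact ⟨(b3 hx).2, (hh.supp (b3 hx).1).2⟩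
  · intro x
    exact hsum h x (image_eq_zero_of_notMem_tsupport hs)
  · intro x
    rw [a4, b4]
    exact hsum (deriv h) x (hh.dzero hs)

end cut

/-- functions vanishing near the partition points -/
lemma part_supp {k : ℕ} {L : ℝ} {t : ℕ → ℝ} (ht : ∀ i, t i < t (i + 1)) (h0 : 0 ≤ t 0) (m : ℕ)
    (hF : ∀ i ≤ m, F1 k (t i) (t (i + 1)) L) :
    ∀ h : ℝ → ℝ, T1 (t 0) (t (m + 1)) h → (∀ i, 1 ≤ i → i ≤ m → t i ∉ tsupport h) →
      L * ∫ x, x ^ k * h x ^ 2 ≤ ∫ x, x ^ k * deriv h x ^ 2 := by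
  induction m with
  | zero => exact fun h hh _ => hF 0 le_rfl h hh
  | succ m ih =>
    intro h hh hz
    obtain ⟨h1, h2, hh1, hh2, hsub, e1, e2⟩ := cut_split hh (hz (m + 1) (by omega) le_rfl)
    have i1 := ih (fun i hi => hF i (hi.trans (Nat.le_succ m))) h1 hh1
      (fun i hi1 hi2 hi3 => hz i hi1 (hi2.trans (Nat.le_succ m)) (hsub hi3))
    have i2 := hF (m + 1) le_rfl h2 hh2
    have c : Continuous fun x : ℝ => x ^ k := by fun_prop
    have s1 : ∫ x, x ^ k * h x ^ 2 = (∫ x, x ^ k * h1 x ^ 2) + ∫ x, x ^ k * h2 x ^ 2 := by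
      rw [← integral_add (hh1.int_wt c) (hh2.int_wt c)]
      congr 1
      funext x
      rw [e1]; ring
    have s2 : ∫ x, x ^ k * deriv h x ^ 2 = (∫ x, x ^ k * deriv h1 x ^ 2) +
        ∫ x, x ^ k * deriv h2 x ^ 2 := by
      rw [← integral_add (hh1.int_wt' c) (hh2.int_wt' c)]
      congr 1
      funext x
      rw [e2]; ring
    rw [s1, s2, mul_add]
    exact add_le_add i1 i2

/-- the truncation -/
noncomputable def trn (ε s : ℝ) : ℝ := s * Real.smoothTransition ((s / ε) ^ 2 - 1)

lemma contDiff_trn (ε : ℝ) : ContDiff ℝ ∞ (trn ε) := by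
  unfold trn
  have h1 : ContDiff ℝ ∞ (fun s : ℝ => (s / ε) ^ 2 - 1) := by fun_prop
  exact contDiff_id.mul (Real.smoothTransition.contDiff.comp h1)

lemma trn_small {ε s : ℝ} (hε : 0 < ε) (hs : |s| ≤ ε) : trn ε s = 0 := by
  unfold trn
  have h1 : (s / ε) ^ 2 - 1 ≤ 0 := by
    rw [div_pow, sub_nonpos, div_le_one (by positivity), ← sq_abs s]
    exact pow_le_pow_left₀ (abs_nonneg _) hs 2
  rw [Real.smoothTransition.zero_of_nonpos h1, mul_zero]

lemma trn_large {ε s : ℝ} (hε : 0 < ε) (hs : 2 * ε ≤ |s|) : trn ε s = s := by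
  unfold trn
  have h1 : 1 ≤ (s / ε) ^ 2 - 1 := by
    have h2 : 2 ≤ |s| / ε := by rw [le_div_iff₀ hε]; exact hs
    have h3 : (s / ε) ^ 2 = (|s| / ε) ^ 2 := by rw [div_pow, div_pow, sq_abs]
    rw [h3]
    nlinarith
  rw [Real.smoothTransition.one_of_one_le h1, mul_one]

lemma trn_abs (ε s : ℝ) : |trn ε s| ≤ |s| := by
  unfold trn
  rw [abs_mul, abs_of_nonneg (Real.smoothTransition.nonneg _)]
  have := Real.smoothTransition.le_one ((s / ε) ^ 2 - 1)
  have h := abs_nonneg s
  nlinarith

lemma trn_deriv_bound : ∃ M : ℝ, 0 ≤ M ∧ ∀ ε s : ℝ, 0 < ε → |deriv (trn ε) s| ≤ M := by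
  obtain ⟨C, hC0, hC⟩ := exists_bound_st
  refine ⟨1 + 8 * C, by positivity, ?_⟩
  intro ε s hε
  have h1 : HasDerivAt (fun s : ℝ => (s / ε) ^ 2 - 1) (2 * (s / ε) * (1 / ε)) s := by
    have := (((hasDerivAt_id s).div_const ε).pow 2).sub_const 1
    refine this.congr_deriv ?_
    simp
  have h2 : HasDerivAt Real.smoothTransition
      (deriv Real.smoothTransition ((s / ε) ^ 2 - 1)) ((s / ε) ^ 2 - 1) :=
    ((Real.smoothTransition.contDiff (n := 1)).differentiable (by norm_num) _).hasDerivAt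
  have h3 := (hasDerivAt_id s).mul (h2.comp s h1)
  have h4 : deriv (trn ε) s = Real.smoothTransition ((s / ε) ^ 2 - 1) +
      s * (deriv Real.smoothTransition ((s / ε) ^ 2 - 1) * (2 * (s / ε) * (1 / ε))) := by
    have h5 : HasDerivAt (trn ε) _ s := h3
    rw [h5.deriv]
    simp
  by_cases hs : 2 * ε < |s|
  · have h6 : trn ε =ᶠ[𝓝 s] id := by
      have : ∀ᶠ y in 𝓝 s, 2 * ε < |y| :=
        (isOpen_lt continuous_const continuous_abs).mem_nhds hs
      filter_upwards [this] with y hy
      exact trn_large hε hy.le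
    rw [h6.deriv_eq, deriv_id]
    rw [abs_one]
    linarith
  · push Not at hs
    rw [h4]
    have h7 : |s| / ε ≤ 2 := by rw [div_le_iff₀ hε]; exact hs
    have h8 : s * (deriv Real.smoothTransition ((s / ε) ^ 2 - 1) * (2 * (s / ε) * (1 / ε))) =
        2 * (|s| / ε) ^ 2 * deriv Real.smoothTransition ((s / ε) ^ 2 - 1) := by
      have e : (|s| / ε) ^ 2 = s ^ 2 / ε ^ 2 := by rw [div_pow, sq_abs]
      rw [e]
      obtain ⟨D, hD⟩ : ∃ D, D = deriv Real.smoothTransition ((s / ε) ^ 2 - 1) := ⟨_, rfl⟩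
      rw [← hD]
      field_simp
    rw [h8]
    have h9 := Real.smoothTransition.nonneg ((s / ε) ^ 2 - 1)
    have h10 := Real.smoothTransition.le_one ((s / ε) ^ 2 - 1)
    have h11 := hC ((s / ε) ^ 2 - 1)
    have h12 : (|s| / ε) ^ 2 ≤ 4 := by
      have : 0 ≤ |s| / ε := by positivity
      nlinarith
    calc |_| ≤ |Real.smoothTransition ((s / ε) ^ 2 - 1)| +
          |2 * (|s| / ε) ^ 2 * deriv Real.smoothTransition ((s / ε) ^ 2 - 1)| := abs_add_le _ _
      _ ≤ 1 + 8 * C := by
        rw [abs_of_nonneg h9, abs_mul, abs_of_nonneg (by positivity : 0 ≤ 2 * (|s| / ε) ^ 2)]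
        have : 2 * (|s| / ε) ^ 2 * |deriv Real.smoothTransition ((s / ε) ^ 2 - 1)| ≤ 8 * C :=
          mul_le_mul (by linarith) h11 (abs_nonneg _) (by norm_num)
        linarith

/-- **the inequality with point constraints** -/
theorem part_ineq {k : ℕ} {L : ℝ} {t : ℕ → ℝ} (ht : ∀ i, t i < t (i + 1)) (h0 : 0 ≤ t 0) (m : ℕ)
    (hF : ∀ i ≤ m, F1 k (t i) (t (i + 1)) L) {G : ℝ → ℝ} (hG : T1 (t 0) (t (m + 1)) G)
    (hz : ∀ i, 1 ≤ i → i ≤ m → G (t i) = 0) :
    L * ∫ x, x ^ k * G x ^ 2 ≤ ∫ x, x ^ k * deriv G x ^ 2 := by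
  obtain ⟨M, hM0, hM⟩ := trn_deriv_bound
  have hε : ∀ n : ℕ, (0:ℝ) < 1 / (n + 1) := fun n => by positivity
  set h : ℕ → ℝ → ℝ := fun n x => trn (1 / ((n:ℝ) + 1)) (G x) with hh
  have hsub : ∀ n, tsupport (h n) ⊆ tsupport G ∩ {x | 1 / ((n:ℝ) + 1) ≤ |G x|} := by
    intro n
    apply closure_minimal _ ((isClosed_tsupport G).inter
      (isClosed_le continuous_const hG.cont.abs))
    intro x hx
    have hx' : h n x ≠ 0 := hx
    have h1 : 1 / ((n:ℝ) + 1) ≤ |G x| := by
      by_contra hcon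
      push Not at hcon
      exact hx' (trn_small (hε n) hcon.le)
    refine ⟨subset_tsupport G ?_, h1⟩
    intro h2
    rw [h2, abs_zero] at h1
    linarith [hε n]
  have hT : ∀ n, T1 (t 0) (t (m + 1)) (h n) := fun n =>
    ⟨(contDiff_trn _).comp hG.smooth,
      hG.cpt.of_isClosed_subset (isClosed_tsupport _) ((hsub n).trans inter_subset_left),
      ((hsub n).trans inter_subset_left).trans hG.supp⟩
  have hder : ∀ n x, deriv (h n) x = deriv (trn (1 / ((n:ℝ) + 1))) (G x) * deriv G x := by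
    intro n x
    have h1 : HasDerivAt (trn (1 / ((n:ℝ) + 1))) (deriv (trn (1 / ((n:ℝ) + 1))) (G x)) (G x) :=
      ((contDiff_trn (1 / ((n:ℝ) + 1))).differentiable (by simp) _).hasDerivAt
    exact (h1.comp x (hG.hasDeriv x)).deriv
  have hin : ∀ n, L * ∫ x, x ^ k * h n x ^ 2 ≤ ∫ x, x ^ k * deriv (h n) x ^ 2 := by
    intro n
    refine part_supp ht h0 m hF (h n) (hT n) fun i hi1 hi2 hi3 => ?_
    have h1 : 1 / ((n:ℝ) + 1) ≤ |G (t i)| := (hsub n hi3).2
    rw [hz i hi1 hi2, abs_zero] at h1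
    linarith [hε n]
  have c : Continuous fun x : ℝ => x ^ k := by fun_prop
  have hlim0 : Tendsto (fun n : ℕ => 1 / ((n:ℝ) + 1)) atTop (𝓝 0) :=
    tendsto_one_div_add_atTop_nhds_zero_nat
  have hev : ∀ x, G x ≠ 0 → ∀ᶠ n : ℕ in atTop, 2 * (1 / ((n:ℝ) + 1)) < |G x| := by
    intro x hx
    have h1 : Tendsto (fun n : ℕ => 2 * (1 / ((n:ℝ) + 1))) atTop (𝓝 (2 * 0)) :=
      hlim0.const_mul 2
    rw [mul_zero] at h1
    exact h1.eventually_lt_const (abs_pos.2 hx)
  -- the limits
  have L1 : Tendsto (fun n => ∫ x, x ^ k * h n x ^ 2) atTop (𝓝 (∫ x, x ^ k * G x ^ 2)) := by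
    apply tendsto_integral_of_dominated_convergence (fun x => |x| ^ k * G x ^ 2)
    · intro n
      exact (hT n).int_wt c |>.aestronglyMeasurable
    · exact hG.int_wt (w := fun x => |x| ^ k) (by fun_prop)
    · intro n
      apply ae_of_all
      intro x
      rw [Real.norm_eq_abs, abs_mul, abs_pow, abs_of_nonneg (sq_nonneg (h n x))]
      apply mul_le_mul_of_nonneg_left _ (by positivity)
      rw [← sq_abs (h n x), ← sq_abs (G x)]
      exact pow_le_pow_left₀ (abs_nonneg _) (trn_abs _ _) 2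
    · apply ae_of_all
      intro x
      by_cases hx : G x = 0
      · have : ∀ n, h n x = G x := by
          intro n
          rw [hx]
          exact trn_small (hε n) (by rw [hx, abs_zero]; exact (hε n).le)
        simp only [this]
        exact tendsto_const_nhds
      · apply tendsto_const_nhds.congr'
        filter_upwards [hev x hx] with n hn
        rw [show h n x = G x from trn_large (hε n) hn.le]
  have L2 : Tendsto (fun n => ∫ x, x ^ k * deriv (h n) x ^ 2) atTop
      (𝓝 (∫ x, x ^ k * (if G x = 0 then 0 else deriv G x ^ 2))) := by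
    apply tendsto_integral_of_dominated_convergence (fun x => (|x| ^ k * M ^ 2) * deriv G x ^ 2)
    · intro n
      exact (hT n).int_wt' c |>.aestronglyMeasurable
    · exact hG.int_wt' (w := fun x => |x| ^ k * M ^ 2) (by fun_prop)
    · intro n
      apply ae_of_all
      intro x
      rw [Real.norm_eq_abs, abs_mul, abs_pow, abs_of_nonneg (sq_nonneg (deriv (h n) x)), mul_assoc]
      apply mul_le_mul_of_nonneg_left _ (by positivity)
      rw [hder, mul_pow]
      apply mul_le_mul_of_nonneg_right _ (sq_nonneg _)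
      rw [← sq_abs]
      exact pow_le_pow_left₀ (abs_nonneg _) (hM _ _ (hε n)) 2
    · apply ae_of_all
      intro x
      by_cases hx : G x = 0
      · have : ∀ n, deriv (h n) x = 0 := by
          intro n
          rw [hder]
          have h1 : trn (1 / ((n:ℝ) + 1)) =ᶠ[𝓝 (G x)] fun _ => 0 := by
            rw [hx]
            filter_upwards [Metric.ball_mem_nhds (0:ℝ) (hε n)] with y hy
            rw [mem_ball_zero_iff, Real.norm_eq_abs] at hy
            exact trn_small (hε n) hy.le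
          rw [h1.deriv_eq, deriv_const, zero_mul]
        simp only [this, if_pos hx]
        simp
      · rw [if_neg hx]
        apply tendsto_const_nhds.congr'
        filter_upwards [hev x hx] with n hn
        have h1 : trn (1 / ((n:ℝ) + 1)) =ᶠ[𝓝 (G x)] id := by
          filter_upwards [(isOpen_lt continuous_const continuous_abs).mem_nhds hn] with y hy
          exact trn_large (hε n) (le_of_lt hy)
        rw [hder, h1.deriv_eq, deriv_id, one_mul]
  have hfin := le_of_tendsto_of_tendsto' (L1.const_mul L) L2 hin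
  refine hfin.trans ?_
  apply integral_mono_of_nonneg
  · apply ae_of_all
    intro x
    show 0 ≤ x ^ k * (if G x = 0 then 0 else deriv G x ^ 2)
    by_cases hx : G x = 0
    · rw [if_pos hx, mul_zero]
    · rw [if_neg hx]
      have hx' : x ∈ Ioo (t 0) (t (m + 1)) := by
        by_contra h'
        exact hx (hG.zero h')
      have : 0 ≤ x := h0.trans hx'.1.le
      positivity
  · exact hG.int_wt' c
  · apply ae_of_all
    intro x
    show x ^ k * (if G x = 0 then 0 else deriv G x ^ 2) ≤ x ^ k * deriv G x ^ 2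
    by_cases hx' : x ∈ Ioo (t 0) (t (m + 1))
    · have hx0 : 0 ≤ x := h0.trans hx'.1.le
      apply mul_le_mul_of_nonneg_left _ (by positivity)
      split_ifs
      · exact sq_nonneg _
      · exact le_rfl
    · rw [if_pos (hG.zero hx'), hG.dzero fun h' => hx' (hG.supp h')]
      simp

end Pool.Agent.H56.BN
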