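import Mathlib
import Pool.Agent.H56.BN.OneD
import Pool.Agent.H56.BN.Cube4

/-!
Slices of test functions.
-/

set_option autoImplicit false
set_option maxHeartbeats 1000000

namespace Pool.Agent.H56.BN

open MeasureTheory Filter Topology Set
open scoped ContDiff

variable {d k : ℕ}

/-- the slice at height `x` -/
def slc (φ : PP d → ℝ) (x : ℝ) (z : Zd d) : ℝ := φ (x, z)

/-- integration against the ground state of the cube -/
noncomputable def GG (b : ℝ) (φ : PP d → ℝ) (x : ℝ) : ℝ := ∫ z : Zd d, chi d b z * φ (x, z)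

section slc

variable {S : Set (PP d)} {φ : PP d → ℝ}

lemma IsTest.dx (h : IsTest S φ) : IsTest S (BN.dx φ) := by
  refine ⟨?_, ?_, ?_⟩
  · have h1 : ContDiff ℝ ∞ (fderiv ℝ φ) := h.smooth.fderiv_right (by simp)
    exact h1.clm_apply contDiff_const
  · refine HasCompactSupport.of_support_subset_isCompact h.cpt (fun P hP => ?_)
    by_contra h'
    exact hP (dx_eq_zero h')
  · refine (closure_minimal (fun P hP => ?_) (isClosed_tsupport φ)).trans h.supp
    by_contra h'
    exact hP (dx_eq_zero h')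

lemma tsupport_slc (φ : PP d → ℝ) (x : ℝ) : tsupport (slc φ x) ⊆ {z | (x, z) ∈ tsupport φ} := by
  apply closure_minimal
  · intro z hz
    exact subset_tsupport φ hz
  · exact (isClosed_tsupport φ).preimage (by fun_prop)

lemma slc_TZ {b : ℝ} (h : IsTest S φ) (hS : ∀ P ∈ S, P.2 ∈ Qb d b) (x : ℝ) :
    TZ (Qb d b) (slc φ x) := by
  refine ⟨?_, ?_, fun z hz => hS _ (h.supp (tsupport_slc φ x hz))⟩
  · have h1 : ContDiff ℝ ∞ (fun z : Zd d => ((x, z) : PP d)) := by fun_prop
    exact h.smooth.comp h1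
  · have h2 : IsCompact (Prod.snd '' tsupport φ) := h.cpt.image continuous_snd
    apply h2.of_isClosed_subset (isClosed_tsupport _)
    intro z hz
    exact ⟨(x, z), tsupport_slc φ x hz, rfl⟩

lemma dd_slc (h : Differentiable ℝ φ) (x : ℝ) (j : Fin d) (z : Zd d) :
    dd (slc φ x) j z = dz φ j (x, z) := by
  have h1 : HasFDerivAt (fun z : Zd d => ((x, z) : PP d))
      ((0 : Zd d →L[ℝ] ℝ).prod (ContinuousLinearMap.id ℝ (Zd d))) z :=
    (hasFDerivAt_const x z).prodMk (hasFDerivAt_id z)
  have h2 : HasFDerivAt (slc φ x) ((fderiv ℝ φ (x, z)).comp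
      ((0 : Zd d →L[ℝ] ℝ).prod (ContinuousLinearMap.id ℝ (Zd d)))) z :=
    (h (x, z)).hasFDerivAt.comp z h1
  unfold dd dz
  rw [h2.fderiv]
  rfl

lemma gz_slc (h : Differentiable ℝ φ) (x : ℝ) (z : Zd d) :
    gsq φ (x, z) = BN.dx φ (x, z) ^ 2 + gz (slc φ x) z := by
  unfold gsq gz
  congr 1
  apply Finset.sum_congr rfl
  intro j _
  rw [dd_slc h]

lemma GG_hasDeriv (b : ℝ) (h : IsTest S φ) (x : ℝ) :
    HasDerivAt (GG b φ) (GG b (BN.dx φ) x) x := by
  have hc := (contDiff_chi (d := d) b).continuous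
  have hdx := h.dx
  obtain ⟨K, hK⟩ : ∃ K : Set (Zd d), K = Prod.snd '' tsupport φ := ⟨_, rfl⟩
  have hKc : IsCompact K := by rw [hK]; exact h.cpt.image continuous_snd
  have hzero : ∀ x z, z ∉ K → φ (x, z) = 0 := by
    intro x z hz
    apply image_eq_zero_of_notMem_tsupport
    intro h'
    apply hz
    rw [hK]
    exact ⟨(x, z), h', rfl⟩
  have hzero' : ∀ x z, z ∉ K → BN.dx φ (x, z) = 0 := by
    intro x z hz
    apply dx_eq_zero
    intro h'
    apply hz
    rw [hK]
    exact ⟨(x, z), h', rfl⟩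
  obtain ⟨M, hM⟩ : ∃ M, ∀ P, ‖BN.dx φ P‖ ≤ M := hdx.continuous.bounded_above_of_compact_support hdx.cpt
  have hcont : ∀ ψ : PP d → ℝ, Continuous ψ → (∀ x z, z ∉ K → ψ (x, z) = 0) → ∀ x,
      Continuous (fun z => chi d b z * ψ (x, z)) ∧
      Integrable (fun z => chi d b z * ψ (x, z)) (volume : Measure (Zd d)) := by
    intro ψ hψ h0 x
    have h1 : Continuous (fun z => chi d b z * ψ (x, z)) :=
      hc.mul (hψ.comp (by fun_prop))
    refine ⟨h1, h1.integrable_of_hasCompactSupport ?_⟩
    refine HasCompactSupport.of_support_subset_isCompact hKc (fun z hz => ?_)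
    by_contra h'
    apply hz
    show chi d b z * ψ (x, z) = 0
    rw [h0 x z h', mul_zero]
  have hmain := hasDerivAt_integral_of_dominated_loc_of_deriv_le
    (μ := (volume : Measure (Zd d))) (F := fun x z => chi d b z * φ (x, z))
    (F' := fun x z => chi d b z * BN.dx φ (x, z)) (x₀ := x) (s := univ)
    (bound := K.indicator fun _ => M) Filter.univ_mem
    (Eventually.of_forall fun y => ((hcont φ h.continuous hzero y).1).aestronglyMeasurable)
    (hcont φ h.continuous hzero x).2
    ((hcont _ hdx.continuous hzero' x).1).aestronglyMeasurable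
    (ae_of_all _ fun z y _ => by
      by_cases hz : z ∈ K
      · rw [indicator_of_mem hz, norm_mul]
        have h1 : ‖chi d b z‖ ≤ 1 := by
          unfold chi
          rw [Real.norm_eq_abs, Finset.abs_prod]
          exact Finset.prod_le_one (fun i _ => abs_nonneg _) fun i _ => Real.abs_cos_le_one _
        calc ‖chi d b z‖ * ‖BN.dx φ (y, z)‖ ≤ 1 * M :=
              mul_le_mul h1 (hM _) (norm_nonneg _) (by norm_num)
          _ = M := one_mul _
      · rw [indicator_of_notMem hz, hzero' y z hz, mul_zero, norm_zero])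
    (by
      rw [integrable_indicator_iff hKc.measurableSet]
      exact integrableOn_const hKc.measure_lt_top.ne)
    (ae_of_all _ fun z y _ => by
      apply HasDerivAt.const_mul
      have h1 : HasDerivAt (fun t : ℝ => ((t, z) : PP d)) (1, 0) y :=
        (hasDerivAt_id y).prodMk (hasDerivAt_const y z)
      exact (h.differentiable (y, z)).hasFDerivAt.comp_hasDerivAt y h1)
  exact hmain.2

lemma GG_contDiff (b : ℝ) (n : ℕ) : ∀ φ : PP d → ℝ, IsTest S φ → ContDiff ℝ n (GG b φ) := by
  induction n with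
  | zero =>
    intro φ h
    rw [Nat.cast_zero, contDiff_zero]
    exact continuous_iff_continuousAt.2 fun x => (GG_hasDeriv b h x).continuousAt
  | succ n ih =>
    intro φ h
    have h1 : deriv (GG b φ) = GG b (BN.dx φ) := funext fun x => (GG_hasDeriv b h x).deriv
    have h2 : ((n + 1 : ℕ) : WithTop ℕ∞) = (n : WithTop ℕ∞) + 1 := by push_cast; rfl
    rw [h2, contDiff_succ_iff_deriv, h1]
    refine ⟨fun x => (GG_hasDeriv b h x).differentiableAt, fun h3 => ?_, ih _ h.dx⟩
    exact absurd h3 (by simp)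

lemma GG_T1 {b a₀ a₁ : ℝ} (h : IsTest S φ) (hS : ∀ P ∈ S, a₀ < P.1 ∧ P.1 < a₁) :
    T1 a₀ a₁ (GG b φ) := by
  have hsub : tsupport (GG b φ) ⊆ Prod.fst '' tsupport φ := by
    apply closure_minimal _ (h.cpt.image continuous_fst).isClosed
    intro x hx
    by_contra hcon
    apply hx
    unfold GG
    have : ∀ z, φ (x, z) = 0 := by
      intro z
      apply image_eq_zero_of_notMem_tsupport
      intro h'
      exact hcon ⟨(x, z), h', rfl⟩
    simp [this]
  refine ⟨?_, (h.cpt.image continuous_fst).of_isClosed_subset (isClosed_tsupport _) hsub, ?_⟩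
  · exact contDiff_infty.2 fun n => GG_contDiff b n φ h
  · intro x hx
    obtain ⟨P, hP, rfl⟩ := hsub hx
    exact hS P (h.supp hP)

end slc

end Pool.Agent.H56.BN
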