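import Mathlib
import Pool.Agent.H56.BN.Slice1
import Pool.Agent.H56.BN.Space

/-!
The lower bound on thin boxes.
-/

set_option autoImplicit false
set_option maxHeartbeats 1000000

namespace Pool.Agent.H56.BN

open MeasureTheory Filter Topology Set
open scoped ContDiff

variable {d k : ℕ}

lemma set_int {b : ℝ} {f : Zd d → ℝ} (hf : ∀ z, z ∉ Qb d b → f z = 0) :
    ∫ z in Qb d b, f z = ∫ z, f z := by
  rw [← integral_indicator (isOpen_Qb b).measurableSet]
  congr 1
  funext z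
  by_cases hz : z ∈ Qb d b
  · rw [indicator_of_mem hz]
  · rw [indicator_of_notMem hz, hf z hz]

/-- Cauchy-Schwarz against the ground state -/
lemma cs_chi {b : ℝ} (hb : 0 < b) {ψ : Zd d → ℝ} (h : TZ (Qb d b) ψ) :
    (1 / Nb d b) * (∫ z, chi d b z * ψ z) ^ 2 ≤ ∫ z, ψ z ^ 2 := by
  have hN := Nb_pos (d := d) hb
  have hc := (contDiff_chi (d := d) b).continuous
  have hψ := h.cont
  obtain ⟨B, hB⟩ : ∃ B, B = ∫ z, chi d b z * ψ z := ⟨_, rfl⟩
  obtain ⟨s, hs⟩ : ∃ s, s = B / Nb d b := ⟨_, rfl⟩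
  have h0 : 0 ≤ ∫ z in Qb d b, (ψ z - s * chi d b z) ^ 2 := integral_nonneg fun z => sq_nonneg _
  have e : ∀ z, (ψ z - s * chi d b z) ^ 2 = ψ z ^ 2 +
      (-(2 * s)) * (chi d b z * ψ z) + s ^ 2 * chi d b z ^ 2 := fun z => by ring
  simp only [e] at h0
  have j1 : Integrable (fun z => ψ z ^ 2) ((volume : Measure (Zd d)).restrict (Qb d b)) :=
    int_Qb (by fun_prop) b
  have j2 : Integrable (fun z => (-(2 * s)) * (chi d b z * ψ z))
      ((volume : Measure (Zd d)).restrict (Qb d b)) := int_Qb (by fun_prop) b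
  have j3 : Integrable (fun z => s ^ 2 * chi d b z ^ 2)
      ((volume : Measure (Zd d)).restrict (Qb d b)) := int_Qb (by fun_prop) b
  have j12 : Integrable (fun z => ψ z ^ 2 + (-(2 * s)) * (chi d b z * ψ z))
      ((volume : Measure (Zd d)).restrict (Qb d b)) := j1.add j2
  rw [integral_add j12 j3, integral_add j1 j2, integral_const_mul, integral_const_mul,
    set_int (f := fun z => ψ z ^ 2) fun z hz => by rw [h.zero hz]; norm_num,
    set_int (f := fun z => chi d b z * ψ z) fun z hz => by rw [h.zero hz, mul_zero], ← hB] at h0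
  have e2 : ∫ z in Qb d b, chi d b z ^ 2 = Nb d b := rfl
  rw [e2, hs] at h0
  rw [← hB]
  have e3 : -(2 * (B / Nb d b)) * B + (B / Nb d b) ^ 2 * Nb d b = -(1 / Nb d b * B ^ 2) := by
    field_simp
    ring
  linarith

/-- integrals over slices -/
lemma prod_int {S : Set (PP d)} {φ : PP d → ℝ} (h : IsTest S φ) {f : PP d → ℝ}
    (hf : Continuous f) (h0 : ∀ P, P ∉ tsupport φ → f P = 0) (k : ℕ) :
    ∫ P : PP d, P.1 ^ k * f P = ∫ x, x ^ k * ∫ z, f (x, z) ∧
      Integrable (fun x => x ^ k * ∫ z, f (x, z)) := by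
  have hi : Integrable (fun P : PP d => P.1 ^ k * f P)
      ((volume : Measure ℝ).prod (volume : Measure (Zd d))) := by
    have h1 : Integrable (fun P : PP d => P.1 ^ k * f P) (volume : Measure (PP d)) := by
      apply ((continuous_fst.pow k).mul hf).integrable_of_hasCompactSupport
      refine HasCompactSupport.of_support_subset_isCompact h.cpt (fun P hP => ?_)
      by_contra h'
      apply hP
      show P.1 ^ k * f P = 0
      rw [h0 P h', mul_zero]
    exact h1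
  have e : ∀ x : ℝ, ∫ z : Zd d, x ^ k * f (x, z) = x ^ k * ∫ z, f (x, z) := fun x =>
    integral_const_mul _ _
  constructor
  · have h2 := integral_prod _ hi
    simp only [e] at h2
    exact h2
  · have h3 := hi.integral_prod_left
    simp only [e] at h3
    exact h3

/-- **the lower bound on thin boxes** -/
theorem slice_lower (hd : 1 ≤ d) {b : ℝ} (hb : 0 < b) {S : Set (PP d)} {φ : PP d → ℝ}
    (h : IsTest S φ) {a₀ a₁ : ℝ} (ha : 0 ≤ a₀)
    (hS : ∀ P ∈ S, a₀ < P.1 ∧ P.1 < a₁ ∧ P.2 ∈ Qb d b) {L : ℝ} (hL : L ≤ Gb d b)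
    (hG : L * (∫ x, x ^ k * GG b φ x ^ 2) ≤ ∫ x, x ^ k * deriv (GG b φ) x ^ 2) :
    (d * om b ^ 2 + L) * n2 k φ ≤ q0 k φ := by
  have hN := Nb_pos (d := d) hb
  have hT : T1 a₀ a₁ (GG b φ) := GG_T1 h fun P hP => ⟨(hS P hP).1, (hS P hP).2.1⟩
  have hQ : ∀ P ∈ S, P.2 ∈ Qb d b := fun P hP => (hS P hP).2.2
  obtain ⟨q1, q2⟩ := prod_int h (continuous_gsq h.smooth) (fun P hP => gsq_eq_zero hP) k
  obtain ⟨n1, n3⟩ := prod_int h (f := fun P => φ P ^ 2) (h.continuous.pow 2)
    (fun P hP => by rw [image_eq_zero_of_notMem_tsupport hP]; norm_num) k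
  have hq : q0 k φ = ∫ x, x ^ k * ∫ z, gsq φ (x, z) := q1
  have hn : n2 k φ = ∫ x, x ^ k * ∫ z, φ (x, z) ^ 2 := n1
  have c : Continuous fun x : ℝ => x ^ k := by fun_prop
  have i1 := hT.int_wt c
  have i2 := hT.int_wt' c
  have hder : ∀ x, deriv (GG b φ) x = GG b (BN.dx φ) x := fun x => (GG_hasDeriv b h x).deriv
  -- the inequality on slices
  have hpt : ∀ x : ℝ, x ^ k * ((d * om b ^ 2 + Gb d b) * ∫ z, φ (x, z) ^ 2) +
      (-(Gb d b / Nb d b)) * (x ^ k * GG b φ x ^ 2) +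
      (1 / Nb d b) * (x ^ k * deriv (GG b φ) x ^ 2) ≤ x ^ k * ∫ z, gsq φ (x, z) := by
    intro x
    by_cases hx : a₀ < x
    · have hx0 : 0 ≤ x ^ k := by
        have : 0 ≤ x := ha.trans hx.le
        positivity
      have t1 := trans_ineq hd hb (slc_TZ h hQ x)
      have t2 := cs_chi hb (slc_TZ h.dx hQ x)
      have e1 : ∫ z, gsq φ (x, z) = (∫ z, slc (BN.dx φ) x z ^ 2) + ∫ z, gz (slc φ x) z := by
        rw [← integral_add]
        · congr 1
          funext z
          exact gz_slc h.differentiable x z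
        · have := (slc_TZ h.dx hQ x).cont
          exact (slc_TZ h.dx hQ x).int (by fun_prop) fun z hz => by
            rw [image_eq_zero_of_notMem_tsupport hz]; norm_num
        · exact (slc_TZ h hQ x).int (cont_gz (slc_TZ h hQ x).smooth) fun z hz => by
            unfold gz
            exact Finset.sum_eq_zero fun j _ => by rw [dd_zero hz]; norm_num
      have e2 : ∫ z, slc φ x z ^ 2 = ∫ z, φ (x, z) ^ 2 := rfl
      have e3 : ∫ z, chi d b z * slc φ x z = GG b φ x := rfl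
      have e4 : ∫ z, chi d b z * slc (BN.dx φ) x z = deriv (GG b φ) x := by rw [hder]; rfl
      rw [e2, e3] at t1
      rw [e4] at t2
      rw [e1]
      have t3 : (d * om b ^ 2 + Gb d b) * (∫ z, φ (x, z) ^ 2) + -(Gb d b / Nb d b) * GG b φ x ^ 2 +
          (1 / Nb d b) * deriv (GG b φ) x ^ 2 ≤
          (∫ z, slc (BN.dx φ) x z ^ 2) + ∫ z, gz (slc φ x) z := by
        have e5 : Gb d b / Nb d b = Gb d b * (1 / Nb d b) := by ring
        rw [e5]
        nlinarith
      have := mul_le_mul_of_nonneg_left t3 hx0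
      nlinarith
    · have hz : ∀ z, (x, z) ∉ tsupport φ := fun z hz => hx (hS _ (h.supp hz)).1
      have e1 : ∀ z, φ (x, z) = 0 := fun z => image_eq_zero_of_notMem_tsupport (hz z)
      have e2 : ∀ z, gsq φ (x, z) = 0 := fun z => gsq_eq_zero (hz z)
      have e3 : GG b φ x = 0 := by unfold GG; simp [e1]
      have e4 : deriv (GG b φ) x = 0 := by
        rw [hder]
        unfold GG
        simp [dx_eq_zero (hz _)]
      simp [e1, e2, e3, e4]
  have hA : ∀ x : ℝ, (1 / Nb d b) * (x ^ k * GG b φ x ^ 2) ≤ x ^ k * ∫ z, φ (x, z) ^ 2 := by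
    intro x
    by_cases hx : a₀ < x
    · have hx0 : 0 ≤ x ^ k := by
        have : 0 ≤ x := ha.trans hx.le
        positivity
      have t2 := cs_chi hb (slc_TZ h hQ x)
      have := mul_le_mul_of_nonneg_left t2 hx0
      calc _ = x ^ k * (1 / Nb d b * GG b φ x ^ 2) := by ring
        _ ≤ _ := this
    · have hz : ∀ z, (x, z) ∉ tsupport φ := fun z hz => hx (hS _ (h.supp hz)).1
      have e1 : ∀ z, φ (x, z) = 0 := fun z => image_eq_zero_of_notMem_tsupport (hz z)
      have e3 : GG b φ x = 0 := by unfold GG; simp [e1]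
      simp [e1, e3]
  have I1 := integral_mono (i1.const_mul (1 / Nb d b)) n3 hA
  rw [integral_const_mul, ← hn] at I1
  have j0 : Integrable (fun x : ℝ => x ^ k * ((d * om b ^ 2 + Gb d b) * ∫ z, φ (x, z) ^ 2)) := by
    refine (n3.const_mul (d * om b ^ 2 + Gb d b)).congr (ae_of_all _ fun x => ?_)
    show (d * om b ^ 2 + Gb d b) * (x ^ k * ∫ z, φ (x, z) ^ 2) =
      x ^ k * ((d * om b ^ 2 + Gb d b) * ∫ z, φ (x, z) ^ 2)
    ring
  have j1 : Integrable (fun x => (-(Gb d b / Nb d b)) * (x ^ k * GG b φ x ^ 2)) :=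
    i1.const_mul _
  have j2 : Integrable (fun x => (1 / Nb d b) * (x ^ k * deriv (GG b φ) x ^ 2)) :=
    i2.const_mul _
  have j01 : Integrable (fun x : ℝ => x ^ k * ((d * om b ^ 2 + Gb d b) * ∫ z, φ (x, z) ^ 2) +
      (-(Gb d b / Nb d b)) * (x ^ k * GG b φ x ^ 2)) := j0.add j1
  have I2 := integral_mono (j01.add j2) q2 hpt
  have e6 : ∫ x : ℝ, ((x ^ k * ((d * om b ^ 2 + Gb d b) * ∫ z, φ (x, z) ^ 2) +
      (-(Gb d b / Nb d b)) * (x ^ k * GG b φ x ^ 2)) +
      (1 / Nb d b) * (x ^ k * deriv (GG b φ) x ^ 2)) =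
      (d * om b ^ 2 + Gb d b) * n2 k φ + (-(Gb d b / Nb d b)) * (∫ x, x ^ k * GG b φ x ^ 2) +
      (1 / Nb d b) * ∫ x, x ^ k * deriv (GG b φ) x ^ 2 := by
    rw [integral_add j01 j2, integral_add j0 j1, integral_const_mul, integral_const_mul]
    congr 2
    rw [hn, ← integral_const_mul]
    congr 1
    funext x
    ring
  have I3 : (d * om b ^ 2 + Gb d b) * n2 k φ +
      (-(Gb d b / Nb d b)) * (∫ x, x ^ k * GG b φ x ^ 2) +
      (1 / Nb d b) * (∫ x, x ^ k * deriv (GG b φ) x ^ 2) ≤ q0 k φ := by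
    rw [← e6, hq]; exact I2
  obtain ⟨X, hX⟩ : ∃ X, X = ∫ x, x ^ k * GG b φ x ^ 2 := ⟨_, rfl⟩
  obtain ⟨Y, hY⟩ : ∃ Y, Y = ∫ x, x ^ k * deriv (GG b φ) x ^ 2 := ⟨_, rfl⟩
  rw [← hX, ← hY] at I3 hG
  rw [← hX] at I1
  have hN' : 0 < 1 / Nb d b := by positivity
  have s1 : (1 / Nb d b) * (L * X) ≤ (1 / Nb d b) * Y := mul_le_mul_of_nonneg_left hG hN'.le
  have s2 : (Gb d b - L) * (1 / Nb d b * X) ≤ (Gb d b - L) * n2 k φ :=
    mul_le_mul_of_nonneg_left I1 (by linarith)
  have e7 : Gb d b / Nb d b = Gb d b * (1 / Nb d b) := by ring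
  rw [e7] at I3
  nlinarith

end Pool.Agent.H56.BN
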