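import Mathlib
import Pool.Agent.H56.BN.Slice2
import Pool.Agent.H56.BN.OneD3
import Pool.Agent.H56.BN.Cube5
import Pool.Agent.H56.BN.Lam

/-!
Bounds for the eigenvalues of thin boxes.
-/

set_option autoImplicit false
set_option maxHeartbeats 1000000

namespace Pool.Agent.H56.BN

open MeasureTheory Filter Topology Set
open scoped ContDiff

variable {d k : ℕ}

lemma GG_int {S : Set (PP d)} {φ : PP d → ℝ} (h : IsTest S φ) (b x : ℝ) :
    Integrable (fun z : Zd d => chi d b z * φ (x, z)) (volume : Measure (Zd d)) := by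
  have h1 : Continuous (fun z : Zd d => chi d b z * φ (x, z)) :=
    (contDiff_chi b).continuous.mul (h.continuous.comp (by fun_prop))
  apply h1.integrable_of_hasCompactSupport
  refine HasCompactSupport.of_support_subset_isCompact (h.cpt.image continuous_snd)
    (fun z hz => ?_)
  by_contra h'
  apply hz
  show chi d b z * φ (x, z) = 0
  rw [image_eq_zero_of_notMem_tsupport fun h2 => h' ⟨(x, z), h2, rfl⟩, mul_zero]

lemma IsTest.sum {S : Set (PP d)} {n : ℕ} {φ : Fin n → PP d → ℝ} (h : ∀ i, IsTest S (φ i))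
    (c : Fin n → ℝ) : IsTest S (∑ i, c i • φ i) := by
  have h2 : ∀ s : Finset (Fin n), IsTest S (∑ i ∈ s, c i • φ i) := by
    intro s
    induction s using Finset.induction_on with
    | empty => rw [Finset.sum_empty]; exact IsTest.zero
    | insert a s ha ih =>
      rw [Finset.sum_insert ha]
      exact ((h a).smul (c a)).add ih
  exact h2 Finset.univ

lemma GG_sum {S : Set (PP d)} {n : ℕ} {φ : Fin n → PP d → ℝ} (h : ∀ i, IsTest S (φ i))
    (c : Fin n → ℝ) (b x : ℝ) : GG b (∑ i, c i • φ i) x = ∑ i, c i * GG b (φ i) x := by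
  unfold GG
  have e : ∀ z : Zd d, chi d b z * (∑ i, c i • φ i) (x, z) =
      ∑ i, c i * (chi d b z * φ i (x, z)) := by
    intro z
    rw [Finset.sum_apply, Finset.mul_sum]
    apply Finset.sum_congr rfl
    intro i _
    rw [Pi.smul_apply, smul_eq_mul]; ring
  simp only [e]
  rw [integral_finset_sum _ fun i _ => (GG_int (h i) b x).const_mul _]
  simp only [integral_const_mul]

variable {Θ : Dom d}

/-- **the lower bound for the eigenvalues** -/
theorem lamD_lower (hd : 1 ≤ d) {b : ℝ} (hb : 0 < b) (hne : (interior Θ.S).Nonempty)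
    {t : ℕ → ℝ} (ht : ∀ i, t i < t (i + 1)) (h0 : 0 ≤ t 0) (m : ℕ)
    (hS : ∀ P ∈ Θ.S, t 0 < P.1 ∧ P.1 < t (m + 1) ∧ P.2 ∈ Qb d b) {L : ℝ} (hL : L ≤ Gb d b)
    (hF : ∀ i ≤ m, F1 k (t i) (t (i + 1)) L) : d * om b ^ 2 + L ≤ lamD k Θ (m + 1) := by
  by_contra hcon
  push Not at hcon
  obtain ⟨l', hl1, hl2⟩ := exists_between hcon
  obtain ⟨φ, hφ, hli, hq⟩ := Fam_of_lamD_lt hne hl1
  -- constraints
  obtain ⟨A, hA⟩ : ∃ A : (Fin (m + 1) → ℝ) →ₗ[ℝ] (Fin m → ℝ), ∀ c i,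
      A c i = ∑ j, c j * GG b (φ j) (t (i + 1)) := by
    refine ⟨{ toFun := fun c i => ∑ j, c j * GG b (φ j) (t (i + 1))
              map_add' := ?_
              map_smul' := ?_ }, fun c i => rfl⟩
    · intro c c'
      funext i
      simp only [Pi.add_apply, add_mul, Finset.sum_add_distrib]
    · intro r c
      funext i
      simp only [Pi.smul_apply, smul_eq_mul, RingHom.id_apply, Finset.mul_sum, mul_assoc]
  have hker : LinearMap.ker A ≠ ⊥ := by
    apply LinearMap.ker_ne_bot_of_finrank_lt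
    rw [Module.finrank_fin_fun, Module.finrank_fin_fun]
    exact Nat.lt_succ_self m
  obtain ⟨c, hc, hc0⟩ := (Submodule.ne_bot_iff _).1 hker
  have hA0 : A c = 0 := hc
  obtain ⟨ψ, hψ⟩ : ∃ ψ, ψ = ∑ i, c i • φ i := ⟨_, rfl⟩
  have hψT : IsTest Θ.S ψ := by rw [hψ]; exact IsTest.sum hφ c
  have hψ0 : ψ ≠ 0 := by
    intro h
    apply hc0
    funext i
    rw [hψ] at h
    exact Fintype.linearIndependent_iff.1 hli c h i
  have hz : ∀ i, 1 ≤ i → i ≤ m → GG b ψ (t i) = 0 := by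
    intro i hi1 hi2
    rw [hψ, GG_sum hφ]
    have h1 := congrFun hA0 ⟨i - 1, by omega⟩
    rw [hA] at h1
    have h2 : i - 1 + 1 = i := by omega
    simpa [h2] using h1
  have hG := part_ineq (k := k) (L := L) ht h0 m hF
    (GG_T1 (b := b) hψT fun P hP => ⟨(hS P hP).1, (hS P hP).2.1⟩) hz
  have h1 := slice_lower (k := k) hd hb hψT h0 hS hL hG
  have h2 := hq c
  rw [← hψ] at h2
  have h3 : 0 < n2 k ψ := n2_pos (k := k) (φ := (⟨ψ, hψT⟩ : Tst Θ)) fun h => hψ0 (by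
    have := congrArg Subtype.val h
    exact this)
  nlinarith

/-- product functions -/
lemma prod_test {a₀ T : ℝ} {g : ℝ → ℝ} (hg : T1 a₀ T g) {U : Set (Zd d)} {ψ : Zd d → ℝ}
    (hψ : TZ U ψ) {S : Set (PP d)} (hS : ∀ x ∈ tsupport g, ∀ z ∈ tsupport ψ, (x, z) ∈ S) :
    IsTest S (fun P : PP d => g P.1 * ψ P.2) ∧
      tsupport (fun P : PP d => g P.1 * ψ P.2) ⊆ tsupport g ×ˢ tsupport ψ := by
  have hsub : tsupport (fun P : PP d => g P.1 * ψ P.2) ⊆ tsupport g ×ˢ tsupport ψ := by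
    apply closure_minimal _ ((isClosed_tsupport g).prod (isClosed_tsupport ψ))
    intro P hP
    have hP' : g P.1 * ψ P.2 ≠ 0 := hP
    exact ⟨subset_tsupport g (left_ne_zero_of_mul hP'), subset_tsupport ψ (right_ne_zero_of_mul hP')⟩
  refine ⟨⟨?_, ?_, ?_⟩, hsub⟩
  · exact (hg.smooth.comp contDiff_fst).mul (hψ.smooth.comp contDiff_snd)
  · exact (IsCompact.prod hg.cpt hψ.cpt).of_isClosed_subset (isClosed_tsupport _) hsub
  · intro P hP
    exact hS P.1 (hsub hP).1 P.2 (hsub hP).2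

lemma prod_gsq {a₀ T : ℝ} {g : ℝ → ℝ} (hg : T1 a₀ T g) {U : Set (Zd d)} {ψ : Zd d → ℝ}
    (hψ : TZ U ψ) (P : PP d) : gsq (fun P : PP d => g P.1 * ψ P.2) P =
      deriv g P.1 ^ 2 * ψ P.2 ^ 2 + g P.1 ^ 2 * gz ψ P.2 := by
  have h1 : HasFDerivAt (fun P : PP d => g P.1)
      (((1 : ℝ →L[ℝ] ℝ).smulRight (deriv g P.1)).comp (ContinuousLinearMap.fst ℝ ℝ (Zd d))) P :=
    (hg.hasDeriv P.1).hasFDerivAt.comp P hasFDerivAt_fst
  have h2 : HasFDerivAt (fun P : PP d => ψ P.2)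
      ((fderiv ℝ ψ P.2).comp (ContinuousLinearMap.snd ℝ ℝ (Zd d))) P :=
    (hψ.diff P.2).hasFDerivAt.comp P hasFDerivAt_snd
  have h3 := (h1.mul h2).fderiv
  have e1 : dx (fun P : PP d => g P.1 * ψ P.2) P = deriv g P.1 * ψ P.2 := by
    unfold dx
    rw [show (fun P : PP d => g P.1 * ψ P.2) = (fun P : PP d => g P.1) * fun P => ψ P.2 from rfl,
      h3]
    simp
    ring
  have e2 : ∀ j, dz (fun P : PP d => g P.1 * ψ P.2) j P = g P.1 * dd ψ j P.2 := by
    intro j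
    unfold dz dd
    rw [show (fun P : PP d => g P.1 * ψ P.2) = (fun P : PP d => g P.1) * fun P => ψ P.2 from rfl,
      h3]
    simp
  unfold gsq gz
  rw [e1, Finset.mul_sum]
  congr 1
  · ring
  · apply Finset.sum_congr rfl
    intro j _
    rw [e2]; ring

lemma prod_forms {a₀ T : ℝ} {g : ℝ → ℝ} (hg : T1 a₀ T g) {U : Set (Zd d)} {ψ : Zd d → ℝ}
    (hψ : TZ U ψ) : q0 k (fun P : PP d => g P.1 * ψ P.2) =
      (∫ x, x ^ k * deriv g x ^ 2) * (∫ z, ψ z ^ 2) + (∫ x, x ^ k * g x ^ 2) * ∫ z, gz ψ z ∧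
    n2 k (fun P : PP d => g P.1 * ψ P.2) = (∫ x, x ^ k * g x ^ 2) * ∫ z, ψ z ^ 2 := by
  have c : Continuous fun x : ℝ => x ^ k := by fun_prop
  have hc := hψ.cont
  have j1 : Integrable (fun z => ψ z ^ 2) (volume : Measure (Zd d)) :=
    hψ.int (by fun_prop) fun z hz => by rw [image_eq_zero_of_notMem_tsupport hz]; norm_num
  have j2 : Integrable (fun z => gz ψ z) (volume : Measure (Zd d)) :=
    hψ.int (cont_gz hψ.smooth) fun z hz => by
      unfold gz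
      exact Finset.sum_eq_zero fun j _ => by rw [dd_zero hz]; norm_num
  constructor
  · have e : q0 k (fun P : PP d => g P.1 * ψ P.2) =
        ∫ P : ℝ × Zd d, ((P.1 ^ k * deriv g P.1 ^ 2) * ψ P.2 ^ 2 +
          (P.1 ^ k * g P.1 ^ 2) * gz ψ P.2) ∂((volume : Measure ℝ).prod volume) := by
      unfold q0
      rw [← Measure.volume_eq_prod]
      congr 1
      funext P
      rw [prod_gsq hg hψ]; ring
    have k1 : Integrable (fun P : ℝ × Zd d => (P.1 ^ k * deriv g P.1 ^ 2) * ψ P.2 ^ 2)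
        ((volume : Measure ℝ).prod volume) := (hg.int_wt' c).mul_prod j1
    have k2 : Integrable (fun P : ℝ × Zd d => (P.1 ^ k * g P.1 ^ 2) * gz ψ P.2)
        ((volume : Measure ℝ).prod volume) := (hg.int_wt c).mul_prod j2
    rw [e, integral_add k1 k2,
      integral_prod_mul (fun x : ℝ => x ^ k * deriv g x ^ 2) (fun z : Zd d => ψ z ^ 2),
      integral_prod_mul (fun x : ℝ => x ^ k * g x ^ 2) (fun z : Zd d => gz ψ z)]
  · have e : n2 k (fun P : PP d => g P.1 * ψ P.2) =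
        ∫ P : ℝ × Zd d, (P.1 ^ k * g P.1 ^ 2) * ψ P.2 ^ 2 ∂((volume : Measure ℝ).prod volume) := by
      unfold n2
      rw [← Measure.volume_eq_prod]
      congr 1
      funext P
      ring
    rw [e, integral_prod_mul (fun x : ℝ => x ^ k * g x ^ 2) (fun z : Zd d => ψ z ^ 2)]

/-- **the upper bound for the eigenvalues** -/
theorem lamD_upper {b a₀ T E L : ℝ} (ha : 0 ≤ a₀) {m : ℕ} {g : ℕ → ℝ → ℝ}
    (hg : ∀ i < m, T1 a₀ T (g i) ∧ ∫ x, x ^ k * deriv (g i) x ^ 2 ≤ L * ∫ x, x ^ k * g i x ^ 2)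
    (hg0 : ∀ i < m, 0 < ∫ x, x ^ k * g i x ^ 2)
    (hdis : ∀ i < m, ∀ j < m, i ≠ j → Disjoint (tsupport (g i)) (tsupport (g j)))
    {ψ : Zd d → ℝ} (hψ : TZ (Qb d b) ψ) (hψ0 : 0 < ∫ z, ψ z ^ 2)
    (hψE : ∫ z, gz ψ z ≤ E * ∫ z, ψ z ^ 2) (hEL : 0 ≤ E + L)
    (hS : ∀ i < m, ∀ x ∈ tsupport (g i), ∀ z ∈ tsupport ψ, (x, z) ∈ Θ.S) :
    lamD k Θ m ≤ E + L := by
  apply lamA_le hEL
  have hT : ∀ i : Fin m, IsTest Θ.S (fun P : PP d => g i P.1 * ψ P.2) := fun i =>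
    (prod_test (hg i i.2).1 hψ (hS i i.2)).1
  have hsup : ∀ i : Fin m, tsupport (fun P : PP d => g i P.1 * ψ P.2) ⊆
      tsupport (g i) ×ˢ tsupport ψ := fun i => (prod_test (hg i i.2).1 hψ (hS i i.2)).2
  obtain ⟨φ, hφ⟩ : ∃ φ : Fin m → Tst Θ, ∀ i, (φ i : PP d → ℝ) =
      fun P : PP d => g i P.1 * ψ P.2 := ⟨fun i => ⟨_, hT i⟩, fun i => rfl⟩
  apply le_NN_of_disjoint hEL φ
  · intro i j hij
    rw [hφ, hφ]
    rw [Set.disjoint_left]
    intro P hP hP'
    have h1 := (hsup i hP).1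
    have h2 := (hsup j hP').1
    exact Set.disjoint_left.1 (hdis i i.2 j j.2 fun h => hij (Fin.ext h)) h1 h2
  · intro i h0
    have h1 : n2 k (φ i : PP d → ℝ) = 0 := by
      rw [h0]
      unfold n2
      simp
    rw [hφ, (prod_forms (hg i i.2).1 hψ).2] at h1
    exact (mul_pos (hg0 i i.2) hψ0).ne' h1
  · intro i
    rw [hφ, (prod_forms (hg i i.2).1 hψ).2, (prod_forms (hg i i.2).1 hψ).1]
    have h1 := (hg i i.2).2
    have h2 := hg0 i i.2
    have h3 : (∫ x, x ^ k * deriv (g i) x ^ 2) * (∫ z, ψ z ^ 2) ≤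
        (L * ∫ x, x ^ k * g i x ^ 2) * (∫ z, ψ z ^ 2) := mul_le_mul_of_nonneg_right h1 hψ0.le
    have h4 : (∫ x, x ^ k * g i x ^ 2) * (∫ z, gz ψ z) ≤
        (∫ x, x ^ k * g i x ^ 2) * (E * ∫ z, ψ z ^ 2) := mul_le_mul_of_nonneg_left hψE h2.le
    linarith

end Pool.Agent.H56.BN
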