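import Mathlib
import Pool.Agent.H56.BN.AVol
import Pool.Agent.H56.BN.BHelp
import Pool.Agent.H56.BN.Slice3
import Pool.Agent.H56.BN.Prof

/-!
Domains with ground states in the whole gap above an eigenvalue.
-/

set_option autoImplicit false
set_option maxHeartbeats 1000000

namespace Pool.Agent.H56.BN

open MeasureTheory Filter Topology Set
open scoped ContDiff

variable {d : ℕ}

lemma rpow_le_one_add {X θ : ℝ} (hX : 0 ≤ X) (hθ0 : 0 ≤ θ) (hθ1 : θ ≤ 1) : X ^ θ ≤ 1 + X := by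
  rcases le_or_gt X 1 with h | h
  · have := Real.rpow_le_one hX h hθ0
    linarith
  · have := Real.rpow_le_rpow_of_exponent_le h.le hθ1
    rw [Real.rpow_one] at this
    linarith

/-- choice of the small parameter -/
lemma exists_s {K1 K G θ : ℝ} (hK1 : 0 ≤ K1) (hK : 0 ≤ K) (hG : 0 < G) (hθ0 : 0 ≤ θ)
    (hθ1 : θ ≤ 1) : ∃ s : ℝ, 0 < s ∧ s ^ 2 ≤ G ∧ K1 * s ^ 2 * (K / s) ^ θ ≤ 1 := by
  obtain ⟨s, hs⟩ : ∃ s, s = min (min 1 G) (1 / (K1 * (1 + K) + 1)) := ⟨_, rfl⟩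
  have hs0 : 0 < s := by rw [hs]; exact lt_min (lt_min one_pos hG) (by positivity)
  have hs1 : s ≤ 1 := by rw [hs]; exact (min_le_left _ _).trans (min_le_left _ _)
  have hsG : s ≤ G := by rw [hs]; exact (min_le_left _ _).trans (min_le_right _ _)
  have hs3 : s ≤ 1 / (K1 * (1 + K) + 1) := by rw [hs]; exact min_le_right _ _
  refine ⟨s, hs0, by nlinarith, ?_⟩
  have h1 := rpow_le_one_add (X := K / s) (by positivity) hθ0 hθ1
  have h2 : K1 * s ^ 2 * (K / s) ^ θ ≤ K1 * s ^ 2 * (1 + K / s) :=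
    mul_le_mul_of_nonneg_left h1 (by positivity)
  have h3 : K1 * s ^ 2 * (1 + K / s) = K1 * (s ^ 2 + K * s) := by field_simp
  rw [h3] at h2
  have h4 : K1 * (s ^ 2 + K * s) ≤ K1 * ((1 + K) * s) := by
    apply mul_le_mul_of_nonneg_left _ hK1
    nlinarith
  rw [le_div_iff₀ (by positivity)] at hs3
  nlinarith

/-- bumps in the intervals of the partition -/
lemma exists_bumps (k : ℕ) : ∃ C₀ : ℝ, 0 < C₀ ∧ ∀ (s : ℝ) (t : ℕ → ℝ), 0 < s → 0 ≤ t 0 →
    (∀ i, t i < t (i + 1)) → (∀ i, 1 / (4 * s ^ 2) ≤ (t (i + 1) - t i) ^ 2) → ∀ m : ℕ, 1 ≤ m →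
    ∃ (g : ℕ → ℝ → ℝ) (c₀ c₁ : ℝ), t 0 < c₀ ∧ c₀ ≤ c₁ ∧ c₁ < t m ∧
      (∀ i < m, T1 (t 0) (t m) (g i) ∧
        ∫ x, x ^ k * deriv (g i) x ^ 2 ≤ (C₀ * s ^ 2) * ∫ x, x ^ k * g i x ^ 2) ∧
      (∀ i < m, 0 < ∫ x, x ^ k * g i x ^ 2) ∧
      (∀ i < m, ∀ j < m, i ≠ j → Disjoint (tsupport (g i)) (tsupport (g j))) ∧
      ∀ i < m, tsupport (g i) ⊆ Icc c₀ c₁ := by
  obtain ⟨C₀, hC₀, hb⟩ := exists_bump1 k
  refine ⟨16 * C₀, by positivity, ?_⟩
  intro s t hs ht0 ht hlen m hm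
  have hmono : StrictMono t := strictMono_nat_of_lt_succ ht
  have hti : ∀ i, 0 ≤ t i := fun i => ht0.trans (hmono.monotone (Nat.zero_le i))
  have hr : 0 < 1 / (4 * s) := by positivity
  choose g hg1 hg2 hg3 using fun i : ℕ => hb (t i) (1 / (4 * s)) (hti i) hr
  have hlen2 : ∀ i, t i + 2 * (1 / (4 * s)) ≤ t (i + 1) := by
    intro i
    have h1 : (1 / (2 * s)) ^ 2 ≤ (t (i + 1) - t i) ^ 2 := by
      have e : (1 / (2 * s)) ^ 2 = 1 / (4 * s ^ 2) := by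
        rw [div_pow, mul_pow]; norm_num
      rw [e]; exact hlen i
    have h2 := le_of_sq' (by linarith [ht i]) h1
    have e2 : 2 * (1 / (4 * s)) = 1 / (2 * s) := by field_simp; ring
    linarith
  have hg4 : ∀ i, T1 (t i) (t (i + 1)) (g i) := fun i => (hg1 i).mono le_rfl (hlen2 i)
  have hg5 : ∀ i < m, T1 (t 0) (t m) (g i) := fun i hi =>
    (hg4 i).mono (hmono.monotone (Nat.zero_le i)) (hmono.monotone hi)
  obtain ⟨K, hKd⟩ : ∃ K : Set ℝ, K = ⋃ i ∈ Finset.range m, tsupport (g i) := ⟨_, rfl⟩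
  have hK : IsCompact K := by
    rw [hKd]
    exact (Finset.range m).isCompact_biUnion fun i hi => (hg4 i).cpt
  have hKs : K ⊆ Ioo (t 0) (t m) := by
    rw [hKd]
    exact iUnion₂_subset fun i hi => (hg5 i (Finset.mem_range.1 hi)).supp
  obtain ⟨c₀, c₁, h4, h5, h6, h7⟩ := compact_in_Ioo (hmono hm) hK hKs
  refine ⟨g, c₀, c₁, h4, h5, h6, fun i hi => ⟨hg5 i hi, ?_⟩, fun i _ => hg2 i, ?_, ?_⟩
  · have h8 := hg3 i
    have e : C₀ / (1 / (4 * s)) ^ 2 = 16 * C₀ * s ^ 2 := by field_simp; ring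
    rwa [e] at h8
  · intro i _ j _ hij
    rw [Set.disjoint_left]
    intro x hx hx'
    have h8 := (hg4 i).supp hx
    have h9 := (hg4 j).supp hx'
    rcases lt_or_gt_of_ne hij with h | h
    · have := hmono.monotone (show i + 1 ≤ j from h)
      linarith [h8.2, h9.1]
    · have := hmono.monotone (show j + 1 ≤ i from h)
      linarith [h8.1, h9.2]
  · intro i hi
    refine Subset.trans ?_ h7
    rw [hKd]
    exact subset_biUnion_of_mem (u := fun i => tsupport (g i))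
      (Finset.mem_coe.2 (Finset.mem_range.2 hi))

lemma part_len {t : ℕ → ℝ} {r : ℝ} (h : ∀ i, t (i + 1) - t i ≤ r) (m : ℕ) :
    t m - t 0 ≤ m * r := by
  induction m with
  | zero => simp
  | succ m ih =>
    have := h m
    push_cast
    linarith

/-- **domains with ground states in the whole gap** -/
theorem A_main (k : ℕ) (hd : 2 ≤ d) [Fact (1 < pex d)] [Fact (1 < qex d)] (m : ℕ) (hm : 1 ≤ m) :
    ∃ Θ : Dom d, SmoothDom Θ.S ∧ (∃ a > 0, closure Θ.S ⊆ {P : PP d | a ≤ P.1}) ∧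
      HasEmb k Θ (pex d) ∧ lamD k Θ m < lamD k Θ (m + 1) ∧
      ∀ l, lamD k Θ m < l → l < lamD k Θ (m + 1) →
        Ground (pq_conj hd) (iop k Θ (pex d)) (BB (TT k Θ) l) := by
  have hd1 : 1 ≤ d := by omega
  have hd' : (2:ℝ) ≤ d := by exact_mod_cast hd
  have hck := ck_pos k
  have hSS := SS_pos hd
  obtain ⟨C₁, hC₁, hpart⟩ := exists_part k
  obtain ⟨C₀, hC₀, hbumps⟩ := exists_bumps k
  obtain ⟨V, hVd⟩ : ∃ V, V = (volume (Qb d 1)).toReal := ⟨_, rfl⟩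
  have hV : 0 < V := by rw [hVd]; exact vol_Qb_pos one_pos
  obtain ⟨D₁, hD₁d⟩ : ∃ D, D = (ck k) ^ (2 / pex d) / SS d / ck k * 2 ^ k := ⟨_, rfl⟩
  have hD₁ : 0 < D₁ := by
    rw [hD₁d]
    have : 0 < (ck k) ^ (2 / pex d) := Real.rpow_pos_of_pos hck _
    positivity
  have hG : 0 < Gb d 1 := lt_of_lt_of_le (by positivity) (Gb_ge hd1 one_pos)
  obtain ⟨s, hs0, hsG, hs⟩ := exists_s (K1 := (1 + C₀) * D₁)
    (K := ck k * V * ((m + 1 : ℕ) * Real.sqrt C₁)) (G := Gb d 1) (θ := 2 / ((d:ℝ) + 1))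
    (by positivity) (by positivity) hG (by positivity)
    (by rw [div_le_one (by positivity)]; linarith)
  obtain ⟨L, hLd⟩ : ∃ L, L = s ^ 2 := ⟨_, rfl⟩
  have hL : 0 < L := by rw [hLd]; positivity
  obtain ⟨a, had⟩ : ∃ a, a = (m + 1 : ℕ) * (Real.sqrt C₁ / s) := ⟨_, rfl⟩
  have hsC : 0 < Real.sqrt C₁ := Real.sqrt_pos.2 hC₁
  have ha : 0 < a := by
    rw [had]
    have : (0:ℝ) < (m + 1 : ℕ) := by exact_mod_cast Nat.succ_pos m
    positivity
  obtain ⟨t, ht0, ht⟩ := hpart a L ha.le hL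
  have hmono : StrictMono t := strictMono_nat_of_lt_succ fun i => (ht i).1
  have hlen : t (m + 1) - t 0 ≤ a := by
    rw [had]
    apply part_len
    intro i
    apply le_of_sq' (by positivity)
    rw [div_pow, Real.sq_sqrt hC₁.le, ← hLd]
    exact (ht i).2.2.2.2
  obtain ⟨b', hb'd⟩ : ∃ b', b' = t (m + 1) := ⟨_, rfl⟩
  have hab : a < b' := by rw [hb'd, ← ht0]; exact hmono (Nat.succ_pos m)
  have hb' : 0 < b' := ha.trans hab
  have hb2 : b' ≤ 2 * a := by rw [hb'd]; rw [ht0] at hlen; linarith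
  obtain ⟨g, L', c₀, c₁, hL0, hL1, hc₀, hc01, hc₁, hg, hg0, hdis, hsup⟩ :=
    exists_fam k ha.le hL ht0 (fun i => (ht i).1) (fun i => (ht i).2.2.1) m
      (T := b') (by rw [hb'd]; exact (ht m).1)
  obtain ⟨g', e₀, e₁, he₀, he01, he₁, hg', hg0', hdis', hsup'⟩ := hbumps s t hs0
    (by rw [ht0]; exact ha.le) (fun i => (ht i).1)
    (fun i => by rw [← hLd]; exact (ht i).2.2.2.1) (m + 1) (Nat.succ_pos m)
  rw [ht0, ← hb'd] at hg'
  rw [ht0] at he₀
  rw [← hb'd] at he₁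
  obtain ⟨ε, hεd⟩ : ∃ ε, ε = min ((L - L') / 2) L := ⟨_, rfl⟩
  have hε : 0 < ε := by rw [hεd]; exact lt_min (by linarith) hL
  have hε1 : ε ≤ (L - L') / 2 := by rw [hεd]; exact min_le_left _ _
  have hε2 : ε ≤ L := by rw [hεd]; exact min_le_right _ _
  obtain ⟨ψ, hψ, hψ0, hψE⟩ := exists_opt (d := d) one_pos hε
  obtain ⟨b₁, hb₁0, hb₁b, hb₁⟩ := compact_in_Qb one_pos hψ.cpt hψ.supp
  obtain ⟨q₀, hq₀d⟩ : ∃ q, q = min c₀ e₀ := ⟨_, rfl⟩
  obtain ⟨q₁, hq₁d⟩ : ∃ q, q = max c₁ e₁ := ⟨_, rfl⟩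
  have hq₀ : a < q₀ := by rw [hq₀d]; exact lt_min hc₀ he₀
  have hq₁ : q₁ < b' := by rw [hq₁d]; exact max_lt hc₁ he₁
  have hq01 : q₀ ≤ q₁ := by
    rw [hq₀d, hq₁d]; exact (min_le_left _ _).trans (hc01.trans (le_max_left _ _))
  have hsupq : ∀ i < m, tsupport (g i) ⊆ Icc q₀ q₁ := fun i hi =>
    (hsup i hi).trans (Icc_subset_Icc (by rw [hq₀d]; exact min_le_left _ _)
      (by rw [hq₁d]; exact le_max_left _ _))
  have hsupq' : ∀ i < m + 1, tsupport (g' i) ⊆ Icc q₀ q₁ := fun i hi =>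
    (hsup' i hi).trans (Icc_subset_Icc (by rw [hq₀d]; exact min_le_right _ _)
      (by rw [hq₁d]; exact le_max_right _ _))
  obtain ⟨c, hcd⟩ : ∃ c, c = (a + b') / 2 := ⟨_, rfl⟩
  obtain ⟨h, hhd⟩ : ∃ h, h = (b' - a) / 2 := ⟨_, rfl⟩
  have hc : 0 < c := by rw [hcd]; linarith
  have hh : 0 < h := by rw [hhd]; linarith
  have hch : c - h = a := by rw [hcd, hhd]; ring
  have hch' : c + h = b' := by rw [hcd, hhd]; ring
  obtain ⟨h₁, hh₁d⟩ : ∃ h₁, h₁ = max (q₁ - c) (c - q₀) := ⟨_, rfl⟩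
  have hh₁ : h₁ < h := by rw [hh₁d]; exact max_lt (by linarith) (by linarith)
  have hh₁0 : 0 ≤ h₁ := by
    rw [hh₁d]
    rcases le_or_gt c q₀ with h8 | h8
    · exact le_trans (by linarith) (le_max_left _ _)
    · exact le_trans (by linarith) (le_max_right _ _)
  obtain ⟨p, hp, hpe⟩ := exists_p (r := h₁ / h) (s := b₁) (D := d) (ε := 1 / 2)
    (by positivity) (by rw [div_lt_one hh]; exact hh₁) hb₁0 hb₁b (by norm_num)
  obtain ⟨j, -⟩ : ∃ j : Fin d, True := ⟨⟨0, by omega⟩, trivial⟩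
  have htrial : ∀ x ∈ Icc q₀ q₁, ∀ z : Zd d, (∀ i, |z i| ≤ b₁) →
      lev2 (fA c h p) 0 1 p j ((x, z) : PP d) < 0 := by
    intro x hx z hz
    have e1 : ((x - c) / h) ^ (2 * p) ≤ (h₁ / h) ^ (2 * p) := by
      rw [← Even.pow_abs (even_two_mul p) ((x - c) / h)]
      apply pow_le_pow_left₀ (abs_nonneg _)
      rw [abs_div, abs_of_pos hh]
      gcongr
      rw [abs_le]
      have h8 : q₁ - c ≤ h₁ := by rw [hh₁d]; exact le_max_left _ _
      have h9 : c - q₀ ≤ h₁ := by rw [hh₁d]; exact le_max_right _ _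
      exact ⟨by linarith [hx.1], by linarith [hx.2]⟩
    have e4 : ∑ i, (z i / 1) ^ (2 * p) ≤ d * b₁ ^ (2 * p) := by
      have h1 : ∀ i ∈ Finset.univ, (z i / 1) ^ (2 * p) ≤ b₁ ^ (2 * p) := by
        intro i _
        rw [div_one, ← Even.pow_abs (even_two_mul p) (z i)]
        exact pow_le_pow_left₀ (abs_nonneg _) (hz i) _
      calc _ ≤ ∑ i : Fin d, b₁ ^ (2 * p) := Finset.sum_le_sum h1
        _ = _ := by rw [Finset.sum_const, Finset.card_univ, Fintype.card_fin, nsmul_eq_mul]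
    unfold lev2 fA
    simp only [zero_mul, zero_add]
    linarith
  have hprof : Prof (fA c h p) a b' := by
    have := prof_fA hh hc hp
    rwa [hch, hch'] at this
  obtain ⟨Θ, hΘ⟩ : ∃ Θ : Dom d, Θ.S = dset (fA c h p) 0 1 p j :=
    ⟨⟨_, fun P hP => hP.1, bdd_dset hprof le_rfl one_pos hp⟩, rfl⟩
  have hloc : ∀ P ∈ Θ.S, a < P.1 ∧ P.1 < b' ∧ P.2 ∈ Qb d 1 := by
    rw [hΘ]; exact fun P hP => dset_loc hprof le_rfl one_pos hp hP
  have hE : HasEmb k Θ (pex d) := hasEmb_of hd ha hb' (fun P hP => (hloc P hP).1.le)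
    fun P hP => (hloc P hP).2.1.le
  have hne : (interior Θ.S).Nonempty := by
    refine ⟨(q₀, 0), ?_⟩
    rw [hΘ, (isOpen_dset hprof).interior_eq]
    exact ⟨ha.trans hq₀, htrial q₀ ⟨le_rfl, hq01⟩ 0 (fun i => by simpa using hb₁0)⟩
  have hup : lamD k Θ m ≤ (d * om 1 ^ 2 + ε) + L' := by
    refine lamD_upper ha.le hg hg0 hdis hψ hψ0 hψE (by positivity) ?_
    intro i hi x hx z hz
    rw [hΘ]
    have h8 := hsupq i hi hx
    exact ⟨(ha.trans hq₀).trans_le h8.1, htrial x h8 z (hb₁ z hz)⟩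
  have hup' : lamD k Θ (m + 1) ≤ (d * om 1 ^ 2 + ε) + C₀ * s ^ 2 := by
    refine lamD_upper ha.le hg' hg0' hdis' hψ hψ0 hψE (by positivity) ?_
    intro i hi x hx z hz
    rw [hΘ]
    have h8 := hsupq' i hi hx
    exact ⟨(ha.trans hq₀).trans_le h8.1, htrial x h8 z (hb₁ z hz)⟩
  have hlow : d * om 1 ^ 2 + L ≤ lamD k Θ (m + 1) := by
    refine lamD_lower hd1 one_pos hne (fun i => (ht i).1) (by rw [ht0]; exact ha.le) m ?_
      (by rw [hLd]; exact hsG) fun i _ => (ht i).2.1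
    intro P hP
    obtain ⟨h1, h2, h3⟩ := hloc P hP
    exact ⟨by rw [ht0]; exact h1, by rw [← hb'd]; exact h2, h3⟩
  have hlow' : d * om 1 ^ 2 + 0 ≤ lamD k Θ m := by
    have h1 : d * om 1 ^ 2 + 0 ≤ lamD k Θ (0 + 1) := by
      refine lamD_lower (t := fun i : ℕ => a + i * (b' - a)) hd1 one_pos hne ?_ ?_ 0 ?_ hG.le ?_
      · intro i
        push_cast
        nlinarith
      · push_cast
        linarith
      · intro P hP
        obtain ⟨h1, h2, h3⟩ := hloc P hP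
        push_cast
        exact ⟨by linarith, by linarith, h3⟩
      · intro i _ g hg
        rw [zero_mul]
        apply integral_nonneg
        intro x
        show 0 ≤ x ^ k * deriv g x ^ 2
        by_cases hx : x ∈ tsupport g
        · have h1 := (hg.supp hx).1
          have h2 : 0 ≤ (i:ℝ) * (b' - a) := mul_nonneg (Nat.cast_nonneg i) (by linarith)
          have : 0 ≤ x := by linarith
          positivity
        · rw [hg.dzero hx]; simp
    exact h1.trans (lamA_mono (TT_inf hne) (by omega))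
  have hgap : lamD k Θ (m + 1) - lamD k Θ m ≤ (1 + C₀) * L := by
    rw [hLd] at hε2 ⊢
    linarith
  have hA : ∀ X, rad k d X ∈ Θ.S → X ∈ Abox k d a b' 1 := fun X hX => hloc _ hX
  refine ⟨Θ, ?_, ⟨a, ha, ?_⟩, hE, by linarith, ?_⟩
  · rw [hΘ]; exact smooth_dset hprof ha le_rfl one_pos hp
  · rw [hΘ]; exact closure_dset hprof le_rfl one_pos hp
  · intro l hl1 hl2
    refine ground_main hd hne hE (measurable_Abox a b' 1) (vol_Abox_ne a b' 1) hA hl1 hl2 ?_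
    obtain ⟨B, hB⟩ : ∃ B, B = (volume (Abox k d a b' 1)).toReal := ⟨_, rfl⟩
    have hB0 : 0 ≤ B := by rw [hB]; exact ENNReal.toReal_nonneg
    have hBle : B ≤ ck k * (b' ^ k * (b' - a)) * V := by
      rw [hB, hVd]; exact vol_Abox_le ha.le hab.le
    have h1 := const_prod (k := k) hd ha hab.le hb2 (by linarith : 0 ≤ b' - a) hV.le hB0 hBle
    rw [← hD₁d] at h1
    have h2 := norm_iop_sq_le (k := k) (Θ := Θ) hd ha hb' (fun P hP => (hloc P hP).1.le)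
      fun P hP => (hloc P hP).2.1.le
    rw [← hB]
    have h3 : ‖iop k Θ (pex d)‖ ^ 2 * (B ^ (1 / qex d - 1 / 2)) ^ 2 ≤
        D₁ * (ck k * V * (b' - a)) ^ (2 / ((d:ℝ) + 1)) :=
      (mul_le_mul_of_nonneg_right h2 (sq_nonneg _)).trans h1
    have h4 : (ck k * V * (b' - a)) ^ (2 / ((d:ℝ) + 1)) ≤
        (ck k * V * ((m + 1 : ℕ) * Real.sqrt C₁) / s) ^ (2 / ((d:ℝ) + 1)) := by
      apply Real.rpow_le_rpow (mul_nonneg (by positivity) (by linarith)) _ (by positivity)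
      have h5 : b' - a ≤ (m + 1 : ℕ) * (Real.sqrt C₁ / s) := by
        rw [← had, hb'd, ← ht0]
        rw [ht0] at hlen ⊢
        exact hlen
      calc ck k * V * (b' - a) ≤ ck k * V * ((m + 1 : ℕ) * (Real.sqrt C₁ / s)) :=
            mul_le_mul_of_nonneg_left h5 (by positivity)
        _ = _ := by ring
    have h6 : 0 ≤ lamD k Θ (m + 1) - lamD k Θ m := by linarith
    have h7 : 0 ≤ D₁ * (ck k * V * (b' - a)) ^ (2 / ((d:ℝ) + 1)) :=
      mul_nonneg hD₁.le (Real.rpow_nonneg (mul_nonneg (by positivity) (by linarith)) _)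
    calc _ ≤ (lamD k Θ (m + 1) - lamD k Θ m) *
          (D₁ * (ck k * V * (b' - a)) ^ (2 / ((d:ℝ) + 1))) := mul_le_mul_of_nonneg_left h3 h6
      _ ≤ ((1 + C₀) * L) * (D₁ * (ck k * V * (b' - a)) ^ (2 / ((d:ℝ) + 1))) :=
          mul_le_mul_of_nonneg_right hgap h7
      _ ≤ ((1 + C₀) * L) * (D₁ *
          (ck k * V * ((m + 1 : ℕ) * Real.sqrt C₁) / s) ^ (2 / ((d:ℝ) + 1))) := by
          apply mul_le_mul_of_nonneg_left _ (by positivity)
          exact mul_le_mul_of_nonneg_left h4 hD₁.le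
      _ = (1 + C₀) * D₁ * s ^ 2 *
          (ck k * V * ((m + 1 : ℕ) * Real.sqrt C₁) / s) ^ (2 / ((d:ℝ) + 1)) := by
          rw [hLd]; ring
      _ ≤ 1 := hs

end Pool.Agent.H56.BN
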