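import Mathlib

/-!
Smoothness of integrals that depend on a parameter, over a compact space.
-/

set_option autoImplicit false
set_option maxHeartbeats 1000000

namespace Pool.Agent.H56.BN

open MeasureTheory Filter Topology Set
open scoped ContDiff

section param

variable {Y : Type} [TopologicalSpace Y] [CompactSpace Y] [SecondCountableTopology Y]
  [MeasurableSpace Y] [OpensMeasurableSpace Y] {μ : Measure Y} [IsFiniteMeasure μ]
variable {E F : Type} [NormedAddCommGroup E] [NormedSpace ℝ E] [ProperSpace E]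
  [NormedAddCommGroup F] [NormedSpace ℝ F] {τ : Y → F}

lemma cont_sec (hτ : Continuous τ) {W : Type} [TopologicalSpace W] {Φ : E × F → W}
    (hΦ : Continuous Φ) (x : E) : Continuous fun y => Φ (x, τ y) :=
  hΦ.comp (continuous_const.prodMk hτ)

lemma param_bound (hτ : Continuous τ) {W : Type} [NormedAddCommGroup W] {Φ : E × F → W}
    (hΦ : Continuous Φ) (x₀ : E) :
    ∃ C : ℝ, ∀ x ∈ Metric.closedBall x₀ 1, ∀ y, ‖Φ (x, τ y)‖ ≤ C := by
  have hK : IsCompact (Metric.closedBall x₀ 1 ×ˢ (univ : Set Y)) :=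
    (isCompact_closedBall x₀ 1).prod isCompact_univ
  have hc : Continuous fun q : E × Y => Φ (q.1, τ q.2) :=
    hΦ.comp (continuous_fst.prodMk (hτ.comp continuous_snd))
  obtain ⟨C, hC⟩ := hK.exists_bound_of_continuousOn hc.continuousOn
  exact ⟨C, fun x hx y => hC (x, y) ⟨hx, mem_univ _⟩⟩

lemma param_integrable (hτ : Continuous τ) {W : Type} [NormedAddCommGroup W] {Φ : E × F → W}
    (hΦ : Continuous Φ) (x : E) : Integrable (fun y => Φ (x, τ y)) μ := by
  obtain ⟨C, hC⟩ := param_bound hτ hΦ x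
  exact Integrable.of_bound (cont_sec hτ hΦ x).aestronglyMeasurable C
    (ae_of_all _ fun y => hC x (Metric.mem_closedBall_self zero_le_one) y)

lemma param_continuous (hτ : Continuous τ) {W : Type} [NormedAddCommGroup W] [NormedSpace ℝ W]
    {Φ : E × F → W} (hΦ : Continuous Φ) : Continuous fun x => ∫ y, Φ (x, τ y) ∂μ := by
  rw [continuous_iff_continuousAt]
  intro x₀
  obtain ⟨C, hC⟩ := param_bound hτ hΦ x₀
  apply continuousAt_of_dominated (bound := fun _ => C)
  · exact Eventually.of_forall fun x => (cont_sec hτ hΦ x).aestronglyMeasurable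
  · filter_upwards [Metric.closedBall_mem_nhds x₀ one_pos] with x hx
    exact ae_of_all _ fun y => hC x hx y
  · exact integrable_const C
  · exact ae_of_all _ fun y => (hΦ.comp (continuous_id.prodMk continuous_const)).continuousAt

/-- the partial derivative in the first variable -/
noncomputable def D1 {W : Type} [NormedAddCommGroup W] [NormedSpace ℝ W] (Φ : E × F → W)
    (q : E × F) : E →L[ℝ] W :=
  (fderiv ℝ Φ q).comp (ContinuousLinearMap.inl ℝ E F)

lemma contDiff_D1 {W : Type} [NormedAddCommGroup W] [NormedSpace ℝ W] {Φ : E × F → W}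
    (hΦ : ContDiff ℝ ∞ Φ) : ContDiff ℝ ∞ (D1 Φ) := by
  have h1 : ContDiff ℝ ∞ (fderiv ℝ Φ) := hΦ.fderiv_right (by simp)
  exact h1.clm_comp contDiff_const

lemma hasFDerivAt_D1 {W : Type} [NormedAddCommGroup W] [NormedSpace ℝ W] {Φ : E × F → W}
    (hΦ : ContDiff ℝ ∞ Φ) (x : E) (t : F) : HasFDerivAt (fun x => Φ (x, t)) (D1 Φ (x, t)) x := by
  have h1 : HasFDerivAt Φ (fderiv ℝ Φ (x, t)) (x, t) :=
    (hΦ.differentiable (by simp) (x, t)).hasFDerivAt
  have h2 : HasFDerivAt (fun x : E => (x, t)) (ContinuousLinearMap.inl ℝ E F) x :=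
    hasFDerivAt_prodMk_left x t
  exact h1.comp x h2

lemma param_hasFDerivAt (hτ : Continuous τ) {W : Type} [NormedAddCommGroup W] [NormedSpace ℝ W]
    {Φ : E × F → W} (hΦ : ContDiff ℝ ∞ Φ) (x₀ : E) :
    HasFDerivAt (fun x => ∫ y, Φ (x, τ y) ∂μ) (∫ y, D1 Φ (x₀, τ y) ∂μ) x₀ := by
  have hD := (contDiff_D1 hΦ).continuous
  obtain ⟨C, hC⟩ := param_bound hτ hD x₀
  apply hasFDerivAt_integral_of_dominated_of_fderiv_le (s := Metric.closedBall x₀ 1)
    (bound := fun _ => C) (F' := fun x y => D1 Φ (x, τ y))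
    (Metric.closedBall_mem_nhds x₀ one_pos)
  · exact Eventually.of_forall fun x => (cont_sec hτ hΦ.continuous x).aestronglyMeasurable
  · exact param_integrable hτ hΦ.continuous x₀
  · exact (cont_sec hτ hD x₀).aestronglyMeasurable
  · exact ae_of_all _ fun y x hx => hC x hx y
  · exact integrable_const C
  · exact ae_of_all _ fun y x hx => hasFDerivAt_D1 hΦ x (τ y)

theorem param_contDiff_nat (hτ : Continuous τ) (n : ℕ) :
    ∀ {W : Type} [NormedAddCommGroup W] [NormedSpace ℝ W] {Φ : E × F → W}, ContDiff ℝ ∞ Φ →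
      ContDiff ℝ n (fun x => ∫ y, Φ (x, τ y) ∂μ) := by
  induction n with
  | zero =>
    intro W _ _ Φ hΦ
    rw [Nat.cast_zero, contDiff_zero]
    exact param_continuous hτ hΦ.continuous
  | succ n ih =>
    intro W _ _ Φ hΦ
    have h1 := ih (contDiff_D1 hΦ)
    rw [Nat.cast_succ, contDiff_succ_iff_hasFDerivAt]
    exact ⟨_, h1, param_hasFDerivAt hτ hΦ⟩

theorem param_contDiff (hτ : Continuous τ) {W : Type} [NormedAddCommGroup W] [NormedSpace ℝ W]
    {Φ : E × F → W} (hΦ : ContDiff ℝ ∞ Φ) : ContDiff ℝ ∞ (fun x => ∫ y, Φ (x, τ y) ∂μ) := by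
  rw [contDiff_infty]
  exact fun n => param_contDiff_nat hτ n hΦ

end param

end Pool.Agent.H56.BN
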