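import Mathlib
import Pool.Agent.H56.BN.Defs

/-!
The definitions of the problem with invariant test functions.
-/

set_option autoImplicit false

namespace Pool.Agent.H56.BN

open MeasureTheory Filter Topology
open scoped ContDiff

/-- `O(k+1)`-invariant functions in `C_c^∞(Ω)` -/
structure InvTest (k : ℕ) {d : ℕ} (S : Set (PP d)) (φ : EE k d → ℝ) : Prop where
  smooth : ContDiff ℝ ∞ φ
  cpt : HasCompactSupport φ
  supp : tsupport φ ⊆ Omega k S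
  inv : ∀ (g : EuclideanSpace ℝ (Fin (k + 1)) ≃ₗᵢ[ℝ] EuclideanSpace ℝ (Fin (k + 1)))
    (X : EE k d), φ (g X.1, X.2) = φ X

/-- `v ∈ H` with gradient `G`: limits in `H¹` of invariant functions in `C_c^∞(Ω)` -/
structure InHi (k : ℕ) {d : ℕ} (S : Set (PP d)) (v : EE k d → ℝ) (G : Ix k d → EE k d → ℝ) :
    Prop where
  mem : MemLp v 2
  grad : ∀ i, MemLp (G i) 2
  lim : ∃ φ : ℕ → EE k d → ℝ, (∀ n, InvTest k S (φ n)) ∧
    Tendsto (fun n => ∫ X, (φ n X - v X) ^ 2) atTop (𝓝 0) ∧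
    ∀ i, Tendsto (fun n => ∫ X, (pd (φ n) i X - G i X) ^ 2) atTop (𝓝 0)

/-- there is a `(PS)_τ` sequence in `H` -/
def PSi (k : ℕ) {d : ℕ} (S : Set (PP d)) (l τ : ℝ) : Prop :=
  ∃ (v : ℕ → EE k d → ℝ) (G : ℕ → Ix k d → EE k d → ℝ), (∀ n, InHi k S (v n) (G n)) ∧
    Tendsto (fun n => JJ l (v n) (G n)) atTop (𝓝 τ) ∧
    ∀ ε > 0, ∀ᶠ n in atTop, ∀ φ, InvTest k S φ → |dJJ l (v n) (G n) φ| ≤ ε * Real.sqrt (nsq φ)

/-- the lowest positive Palais-Smale level -/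
noncomputable def elli (k : ℕ) {d : ℕ} (S : Set (PP d)) (l : ℝ) : ℝ :=
  sInf {τ : ℝ | 0 < τ ∧ PSi k S l τ}

/-- a symmetric ground state exists -/
def HasGSi (k : ℕ) {d : ℕ} (S : Set (PP d)) (l : ℝ) : Prop :=
  ∃ (v : EE k d → ℝ) (G : Ix k d → EE k d → ℝ), InHi k S v G ∧
    (∀ φ, InvTest k S φ → dJJ l v G φ = 0) ∧ JJ l v G = elli k S l

/-- `v`, with gradient `G`, is an eigenfunction in `H` with eigenvalue `μ` -/
def IsEigi (k : ℕ) {d : ℕ} (S : Set (PP d)) (μ : ℝ) (v : EE k d → ℝ)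
    (G : Ix k d → EE k d → ℝ) : Prop :=
  InHi k S v G ∧ ∀ φ, InvTest k S φ → ∑ i, (∫ X, G i X * pd φ i X) = μ * ∫ X, v X * φ X

/-- at least `m` eigenvalues, counted with multiplicity, are at most `t` -/
def ManyEigi (k : ℕ) {d : ℕ} (S : Set (PP d)) (m : ℕ) (t : ℝ) : Prop :=
  ∃ (v : Fin m → EE k d → ℝ) (G : Fin m → Ix k d → EE k d → ℝ),
    (∀ i, ∃ μ ≤ t, IsEigi k S μ (v i) (G i)) ∧
    ∀ i j, ∫ X, v i X * v j X = if i = j then 1 else 0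

/-- the `m`-th eigenvalue of `-Δ` in `H`, counted with multiplicity; it is `0` for `m = 0` -/
noncomputable def lami (k : ℕ) {d : ℕ} (S : Set (PP d)) (m : ℕ) : ℝ :=
  sInf {t : ℝ | 0 ≤ t ∧ ManyEigi k S m t}

end Pool.Agent.H56.BN
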