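import Mathlib
import Pool.Agent.H56.BN.Av1
import Pool.Agent.H56.BN.Test
import Pool.Agent.H56.BN.DefsI

/-!
Averages over the orthogonal group.
-/

set_option autoImplicit false
set_option maxHeartbeats 1000000

namespace Pool.Agent.H56.BN

open MeasureTheory Filter Topology Set
open scoped ContDiff

/-- the `y`-space -/
abbrev Ek (k : ℕ) := EuclideanSpace ℝ (Fin (k + 1))
/-- the orthogonal group -/
noncomputable abbrev OG (k : ℕ) := unitary (Ek k →L[ℝ] Ek k)

instance instCS (k : ℕ) : ContinuousStar (Ek k →L[ℝ] Ek k) where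
  continuous_star := (ContinuousLinearMap.adjoint (𝕜 := ℝ) (E := Ek k) (F := Ek k)).continuous

instance instCompOG (k : ℕ) : CompactSpace (OG k) := by
  apply isCompact_iff_compactSpace.1
  apply Metric.isCompact_of_isClosed_isBounded isClosed_unitary
  rw [isBounded_iff_forall_norm_le]
  refine ⟨1, fun g hg => ?_⟩
  apply ContinuousLinearMap.opNorm_le_bound _ zero_le_one
  intro x
  rw [ContinuousLinearMap.norm_map_of_mem_unitary hg, one_mul]

noncomputable instance instMeasOG (k : ℕ) : MeasurableSpace (OG k) := borel _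
instance instBorelOG (k : ℕ) : BorelSpace (OG k) := ⟨rfl⟩

/-- the Haar probability measure -/
noncomputable def hm (k : ℕ) : Measure (OG k) := Measure.haarMeasure ⊤

instance instProbOG (k : ℕ) : IsProbabilityMeasure (hm k) := by
  constructor
  have h : Measure.haarMeasure (⊤ : TopologicalSpace.PositiveCompacts (OG k))
      (⊤ : TopologicalSpace.PositiveCompacts (OG k)) = 1 := Measure.haarMeasure_self
  exact h

instance instInvOG (k : ℕ) : (hm k).IsMulLeftInvariant := by
  unfold hm; infer_instance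

variable {k d : ℕ}

/-- the action on the ambient space, for any operator -/
noncomputable def actT (d : ℕ) {k : ℕ} (T : Ek k →L[ℝ] Ek k) (X : EE k d) : EE k d := (T X.1, X.2)

/-- the action on the ambient space -/
noncomputable def act (d : ℕ) {k : ℕ} (g : OG k) (X : EE k d) : EE k d :=
  actT d (g : Ek k →L[ℝ] Ek k) X

lemma act_mul (g h : OG k) (X : EE k d) : act d (g * h) X = act d g (act d h X) := rfl

lemma act_one (X : EE k d) : act d (1 : OG k) X = X := rfl

lemma act_inv_act (g : OG k) (X : EE k d) : act d g⁻¹ (act d g X) = X := by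
  rw [← act_mul, inv_mul_cancel, act_one]

lemma act_act_inv (g : OG k) (X : EE k d) : act d g (act d g⁻¹ X) = X := by
  rw [← act_mul, mul_inv_cancel, act_one]

lemma rad_act (g : OG k) (X : EE k d) : rad k d (act d g X) = rad k d X := by
  unfold rad act actT
  simp only
  rw [Unitary.norm_map]

lemma contDiff_actT : ContDiff ℝ ∞ fun q : EE k d × (Ek k →L[ℝ] Ek k) => actT d q.2 q.1 := by
  unfold actT
  exact (contDiff_snd.clm_apply (contDiff_fst.comp contDiff_fst)).prodMk
    (contDiff_snd.comp contDiff_fst)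

lemma contDiff_act (g : OG k) : ContDiff ℝ ∞ (act d g) := by
  have h : ContDiff ℝ ∞ fun X : EE k d => ((X, (g : Ek k →L[ℝ] Ek k)) : EE k d × _) :=
    contDiff_id.prodMk contDiff_const
  exact contDiff_actT.comp h

/-- the operator attached to the inverse -/
noncomputable def ti (g : OG k) : Ek k →L[ℝ] Ek k := ((g⁻¹ : OG k) : Ek k →L[ℝ] Ek k)

lemma continuous_ti : Continuous (ti (k := k)) := continuous_subtype_val.comp continuous_inv

/-- the average -/
noncomputable def Avg (φ : EE k d → ℝ) (X : EE k d) : ℝ := ∫ g, φ (act d g⁻¹ X) ∂(hm k)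

/-- the function of two variables behind the average -/
noncomputable def Ph (φ : EE k d → ℝ) (q : EE k d × (Ek k →L[ℝ] Ek k)) : ℝ := φ (actT d q.2 q.1)

lemma contDiff_Ph {φ : EE k d → ℝ} (h : ContDiff ℝ ∞ φ) : ContDiff ℝ ∞ (Ph φ) :=
  h.comp contDiff_actT

lemma Avg_eq (φ : EE k d → ℝ) (X : EE k d) : Avg φ X = ∫ g, Ph φ (X, ti g) ∂(hm k) := rfl

lemma contDiff_Avg {φ : EE k d → ℝ} (h : ContDiff ℝ ∞ φ) : ContDiff ℝ ∞ (Avg φ) :=
  param_contDiff (μ := hm k) continuous_ti (contDiff_Ph h)

lemma pd_Avg {φ : EE k d → ℝ} (h : ContDiff ℝ ∞ φ) (i : Ix k d) (X : EE k d) :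
    pd (Avg φ) i X = ∫ g, pd (fun X => φ (act d g⁻¹ X)) i X ∂(hm k) := by
  have h1 := param_hasFDerivAt (μ := hm k) continuous_ti (contDiff_Ph h) X
  have h2 : Integrable (fun g => D1 (Ph φ) (X, ti g)) (hm k) :=
    param_integrable continuous_ti (contDiff_D1 (contDiff_Ph h)).continuous X
  unfold pd
  rw [show fderiv ℝ (Avg φ) X = ∫ g, D1 (Ph φ) (X, ti g) ∂(hm k) from h1.fderiv,
    ContinuousLinearMap.integral_apply h2]
  congr 1
  funext g
  have h3 := (hasFDerivAt_D1 (contDiff_Ph h) X (ti g)).fderiv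
  rw [← h3]
  rfl

lemma Avg_support {φ : EE k d → ℝ} {X : EE k d} (h : Avg φ X ≠ 0) :
    rad k d X ∈ rad k d '' tsupport φ := by
  by_contra hcon
  apply h
  unfold Avg
  have : ∀ g : OG k, φ (act d g⁻¹ X) = 0 := by
    intro g
    by_contra h1
    apply hcon
    refine ⟨act d g⁻¹ X, subset_tsupport φ h1, rad_act _ _⟩
  simp only [this, integral_zero]

/-- the saturation of the support -/
def Sat (φ : EE k d → ℝ) : Set (EE k d) := rad k d ⁻¹' (rad k d '' tsupport φ)

lemma isCompact_Sat {φ : EE k d → ℝ} (h : HasCompactSupport φ) : IsCompact (Sat φ) :=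
  isCompact_rad_preimage ((show IsCompact (tsupport φ) from h).image continuous_rad)

lemma tsupport_Avg {φ : EE k d → ℝ} (h : HasCompactSupport φ) : tsupport (Avg φ) ⊆ Sat φ :=
  closure_minimal (fun _ hX => Avg_support hX) (isCompact_Sat h).isClosed

lemma tsupport_subset_Sat (φ : EE k d → ℝ) : tsupport φ ⊆ Sat φ := fun X hX => ⟨X, hX, rfl⟩

lemma Sat_subset {S : Set (PP d)} {φ : EE k d → ℝ} (h : tsupport φ ⊆ Omega k S) :
    Sat φ ⊆ Omega k S := by
  rintro X ⟨X', hX', he⟩
  have h1 : rad k d X' ∈ S := h hX'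
  rw [he] at h1
  exact h1

lemma Avg_inv (φ : EE k d → ℝ) (h : OG k) (X : EE k d) : Avg φ (act d h X) = Avg φ X := by
  unfold Avg
  have h1 := integral_mul_left_eq_self (μ := hm k) (fun g => φ (act d g⁻¹ X)) h⁻¹
  rw [← h1]
  congr 1
  funext g
  rw [mul_inv_rev, inv_inv, act_mul]

lemma invTest_Avg {S : Set (PP d)} {φ : EE k d → ℝ} (h1 : ContDiff ℝ ∞ φ)
    (h2 : HasCompactSupport φ) (h3 : tsupport φ ⊆ Omega k S) : InvTest k S (Avg φ) := by
  refine ⟨contDiff_Avg h1, (isCompact_Sat h2).of_isClosed_subset (isClosed_tsupport _)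
    (tsupport_Avg h2), (tsupport_Avg h2).trans (Sat_subset h3), fun e X => ?_⟩
  have h4 := Avg_inv φ (Unitary.linearIsometryEquiv.symm e) X
  exact h4

end Pool.Agent.H56.BN
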