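import Mathlib
import Pool.Agent.H56.BN.Av2

/-!
Integrals and averages over the orthogonal group.
-/

set_option autoImplicit false
set_option maxHeartbeats 1000000

namespace Pool.Agent.H56.BN

open MeasureTheory Filter Topology Set
open scoped ContDiff

variable {k d : ℕ}

lemma continuous_act (g : OG k) : Continuous (act d g) := (contDiff_act g).continuous

/-- the action as a homeomorphism -/
noncomputable def actH (d : ℕ) {k : ℕ} (g : OG k) : EE k d ≃ₜ EE k d where
  toFun := act d g
  invFun := act d g⁻¹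
  left_inv := act_inv_act g
  right_inv := act_act_inv g
  continuous_toFun := continuous_act g
  continuous_invFun := continuous_act g⁻¹

lemma mp_act (g : OG k) :
    MeasurePreserving (act d g) (volume : Measure (EE k d)) (volume : Measure (EE k d)) := by
  have h1 : MeasurePreserving (Unitary.linearIsometryEquiv g)
      (volume : Measure (Ek k)) (volume : Measure (Ek k)) :=
    LinearIsometryEquiv.measurePreserving _
  exact h1.prod (MeasurePreserving.id (volume : Measure (Zd d)))

lemma int_act (g : OG k) (f : EE k d → ℝ) : ∫ X, f (act d g X) = ∫ X, f X :=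
  (mp_act g).integral_comp (actH d g).measurableEmbedding f

lemma fubini_avg {f : EE k d → ℝ} (hf : LocallyIntegrable f) {h : OG k → EE k d → ℝ}
    (hc : Continuous fun q : EE k d × OG k => h q.2 q.1) {K : Set (EE k d)} (hK : IsCompact K)
    (h0 : ∀ g, ∀ X, X ∉ K → h g X = 0) :
    (∫ X, f X * ∫ g, h g X ∂(hm k) = ∫ g, (∫ X, f X * h g X) ∂(hm k)) ∧
      Integrable (fun g => ∫ X, f X * h g X) (hm k) := by
  have h1 : Integrable (fun X => K.indicator f X) :=
    (hf.integrableOn_isCompact hK).integrable_indicator hK.measurableSet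
  obtain ⟨C, hC⟩ := (hK.prod (isCompact_univ (X := OG k))).exists_bound_of_continuousOn
    hc.continuousOn
  have hC' : ∀ q : EE k d × OG k, ‖h q.2 q.1‖ ≤ max C 0 := by
    intro q
    by_cases hq : q.1 ∈ K
    · exact (hC q ⟨hq, mem_univ _⟩).trans (le_max_left _ _)
    · rw [h0 q.2 q.1 hq, norm_zero]; exact le_max_right _ _
  have h2 : Integrable (fun q : EE k d × OG k => K.indicator f q.1 * h q.2 q.1)
      ((volume : Measure (EE k d)).prod (hm k)) :=
    (h1.comp_fst (hm k)).mul_bdd hc.aestronglyMeasurable (ae_of_all _ hC')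
  have h3 : ∀ X g, K.indicator f X * h g X = f X * h g X := by
    intro X g
    by_cases hX : X ∈ K
    · rw [indicator_of_mem hX]
    · rw [h0 g X hX, mul_zero, mul_zero]
  have h4 := integral_integral_swap (f := fun (X : EE k d) (g : OG k) =>
    K.indicator f X * h g X) h2
  have h5 := h2.integral_prod_right
  simp only [h3] at h4 h5
  refine ⟨?_, h5⟩
  rw [← h4]
  congr 1
  funext X
  rw [integral_const_mul]

lemma avg_zero {φ : EE k d → ℝ} {X : EE k d} (hX : X ∉ Sat φ) (g : OG k) :
    φ (act d g⁻¹ X) = 0 := by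
  by_contra h
  apply hX
  exact ⟨act d g⁻¹ X, subset_tsupport φ h, rad_act _ _⟩

lemma cont_avg {φ : EE k d → ℝ} (h : Continuous φ) :
    Continuous fun q : EE k d × OG k => φ (act d q.2⁻¹ q.1) := by
  have h1 : Continuous fun q : EE k d × OG k => actT d (ti q.2) q.1 :=
    (contDiff_actT (k := k) (d := d)).continuous.comp
      (continuous_fst.prodMk (continuous_ti.comp continuous_snd))
  exact h.comp h1

/-- averages do not change the pairing with invariant functions -/
lemma int_Avg {f : EE k d → ℝ} (hf : LocallyIntegrable f)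
    (hinv : ∀ g : OG k, (fun X => f (act d g X)) =ᵐ[volume] f) {φ : EE k d → ℝ}
    (h1 : Continuous φ) (h2 : HasCompactSupport φ) :
    ∫ X, f X * Avg φ X = ∫ X, f X * φ X := by
  have h3 := fubini_avg hf (h := fun g X => φ (act d g⁻¹ X)) (cont_avg h1) (isCompact_Sat h2)
    (fun g X hX => avg_zero hX g)
  replace h3 := h3.1
  rw [show (∫ X, f X * Avg φ X) = ∫ X, f X * ∫ g, φ (act d g⁻¹ X) ∂(hm k) from rfl, h3]
  have h4 : ∀ g : OG k, ∫ X, f X * φ (act d g⁻¹ X) = ∫ X, f X * φ X := by
    intro g
    rw [← int_act g]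
    apply integral_congr_ae
    filter_upwards [hinv g] with X hX
    rw [hX, act_inv_act]
  simp only [h4]
  rw [integral_const, probReal_univ, one_smul]

lemma pd_avg_eq {φ : EE k d → ℝ} (h : ContDiff ℝ ∞ φ) (i : Ix k d) (X : EE k d) (g : OG k) :
    pd (fun X => φ (act d g⁻¹ X)) i X = D1 (Ph φ) (X, ti g) (dir k d i) := by
  unfold pd
  rw [← (hasFDerivAt_D1 (contDiff_Ph h) X (ti g)).fderiv]
  rfl

lemma pd_avg_zero {φ : EE k d → ℝ} (h2 : HasCompactSupport φ) {X : EE k d} (hX : X ∉ Sat φ)
    (i : Ix k d) (g : OG k) : pd (fun X => φ (act d g⁻¹ X)) i X = 0 := by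
  have h1 : (fun X => φ (act d g⁻¹ X)) =ᶠ[𝓝 X] fun _ => 0 := by
    filter_upwards [(isCompact_Sat h2).isClosed.isOpen_compl.mem_nhds hX] with Y hY
    exact avg_zero hY g
  unfold pd
  rw [h1.fderiv_eq]
  simp

/-- averages do not change the pairing with equivariant fields -/
lemma grad_Avg {G : Ix k d → EE k d → ℝ} (hG : ∀ i, LocallyIntegrable (G i))
    {φ : EE k d → ℝ} (h1 : ContDiff ℝ ∞ φ) (h2 : HasCompactSupport φ)
    (hinv : ∀ g : OG k, ∑ i, (∫ X, G i X * pd (fun X => φ (act d g⁻¹ X)) i X) =
      ∑ i, ∫ X, G i X * pd φ i X) :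
    ∑ i, (∫ X, G i X * pd (Avg φ) i X) = ∑ i, ∫ X, G i X * pd φ i X := by
  have hc : ∀ i, Continuous fun q : EE k d × OG k =>
      pd (fun X => φ (act d q.2⁻¹ X)) i q.1 := by
    intro i
    have h3 : Continuous fun q : EE k d × OG k => D1 (Ph φ) (q.1, ti q.2) (dir k d i) :=
      ((contDiff_D1 (contDiff_Ph h1)).continuous.comp
        (continuous_fst.prodMk (continuous_ti.comp continuous_snd))).clm_apply continuous_const
    refine h3.congr fun q => ?_
    rw [pd_avg_eq h1]
  have hf := fun i => fubini_avg (hG i) (h := fun g X => pd (fun X => φ (act d g⁻¹ X)) i X) (hc i)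
      (isCompact_Sat h2) (fun g X hX => pd_avg_zero h2 hX i g)
  have h3 : ∀ i, ∫ X, G i X * pd (Avg φ) i X =
      ∫ g, (∫ X, G i X * pd (fun X => φ (act d g⁻¹ X)) i X) ∂(hm k) := by
    intro i
    rw [← (hf i).1]
    congr 1
    funext X
    rw [pd_Avg h1]
  simp only [h3]
  rw [← integral_finset_sum]
  · simp only [hinv]
    rw [integral_const, probReal_univ, one_smul]
  · intro i _
    exact (hf i).2

end Pool.Agent.H56.BN
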