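import Mathlib
import Pool.Agent.H56.BN.Av3
import Pool.Agent.H56.BN.Rellich2

/-!
Gradients and the orthogonal group.
-/

set_option autoImplicit false
set_option maxHeartbeats 1000000

namespace Pool.Agent.H56.BN

open MeasureTheory Filter Topology Set
open scoped ContDiff InnerProductSpace

variable {k d : ℕ}

/-! ### pointwise orthogonality -/

lemma sum_orth (l m : Ek k →L[ℝ] ℝ) (g : OG k) :
    ∑ i, l ((g : Ek k →L[ℝ] Ek k) (EuclideanSpace.single i 1)) *
      m ((g : Ek k →L[ℝ] Ek k) (EuclideanSpace.single i 1)) =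
    ∑ i, l (EuclideanSpace.single i 1) * m (EuclideanSpace.single i 1) := by
  have key : ∀ b : OrthonormalBasis (Fin (k + 1)) ℝ (Ek k),
      ∑ i, l (b i) * m (b i) = ⟪(InnerProductSpace.toDual ℝ (Ek k)).symm l,
        (InnerProductSpace.toDual ℝ (Ek k)).symm m⟫_ℝ := by
    intro b
    rw [← b.sum_inner_mul_inner]
    apply Finset.sum_congr rfl
    intro i _
    rw [InnerProductSpace.toDual_symm_apply, real_inner_comm,
      InnerProductSpace.toDual_symm_apply]
  have h1 := key (EuclideanSpace.basisFun (Fin (k + 1)) ℝ)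
  have h2 := key ((EuclideanSpace.basisFun (Fin (k + 1)) ℝ).map (Unitary.linearIsometryEquiv g))
  simp only [EuclideanSpace.basisFun_apply] at h1
  simp only [OrthonormalBasis.map_apply, EuclideanSpace.basisFun_apply] at h2
  rw [h1, ← h2]
  rfl

/-- the action as a continuous linear map -/
noncomputable def actL (d : ℕ) {k : ℕ} (g : OG k) : EE k d →L[ℝ] EE k d :=
  ((g : Ek k →L[ℝ] Ek k).comp (ContinuousLinearMap.fst ℝ (Ek k) (Zd d))).prod
    (ContinuousLinearMap.snd ℝ (Ek k) (Zd d))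

lemma actL_apply (g : OG k) (X : EE k d) : actL d g X = act d g X := rfl

lemma pd_act {ψ : EE k d → ℝ} (h : Differentiable ℝ ψ) (g : OG k) (i : Ix k d) (X : EE k d) :
    pd (fun X => ψ (act d g X)) i X = fderiv ℝ ψ (act d g X) (actL d g (dir k d i)) := by
  unfold pd
  have h1 : HasFDerivAt (fun X : EE k d => act d g X) (actL d g) X := (actL d g).hasFDerivAt
  have h2 := (h (act d g X)).hasFDerivAt.comp X h1
  rw [show (fun X => ψ (act d g X)) = ψ ∘ fun X : EE k d => act d g X from rfl, h2.fderiv]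
  rfl

lemma grad_orth {ψ φ : EE k d → ℝ} (h1 : Differentiable ℝ ψ) (h2 : Differentiable ℝ φ) (g : OG k)
    (X : EE k d) : ∑ i, pd (fun X => ψ (act d g X)) i X * pd (fun X => φ (act d g X)) i X =
      ∑ i, pd ψ i (act d g X) * pd φ i (act d g X) := by
  simp only [pd_act h1, pd_act h2]
  rw [Fintype.sum_sum_type, Fintype.sum_sum_type]
  congr 1
  exact sum_orth ((fderiv ℝ ψ (act d g X)).comp (ContinuousLinearMap.inl ℝ (Ek k) (Zd d)))
    ((fderiv ℝ φ (act d g X)).comp (ContinuousLinearMap.inl ℝ (Ek k) (Zd d))) g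
  apply Finset.sum_congr rfl
  intro j _
  have e : actL d g (dir k d (Sum.inr j)) = dir k d (Sum.inr j) := by
    rw [actL_apply]
    unfold act actT dir
    simp
  rw [e]
  rfl

/-- smooth functions with compact support -/
structure CcE (φ : EE k d → ℝ) : Prop where
  smooth : ContDiff ℝ ∞ φ
  cpt : HasCompactSupport φ

lemma CcE.diff {φ : EE k d → ℝ} (h : CcE φ) : Differentiable ℝ φ := h.smooth.differentiable (by simp)

lemma CcE.pd {φ : EE k d → ℝ} (h : CcE φ) (i : Ix k d) : CcE (pd φ i) := by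
  refine ⟨(h.smooth.fderiv_right (by simp)).clm_apply contDiff_const, ?_⟩
  refine HasCompactSupport.of_support_subset_isCompact h.cpt fun X hX => ?_
  by_contra hcon
  exact hX (pd_eq_zero hcon i)

lemma CcE.act {φ : EE k d → ℝ} (h : CcE φ) (g : OG k) : CcE fun X => φ (act d g X) := by
  refine ⟨h.smooth.comp (contDiff_act g), ?_⟩
  exact h.cpt.comp_homeomorph (actH d g)

lemma CcE.memLp {φ : EE k d → ℝ} (h : CcE φ) : MemLp φ 2 (volume : Measure (EE k d)) :=
  h.smooth.continuous.memLp_of_hasCompactSupport h.cpt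

lemma CcE.int_mul {φ ψ : EE k d → ℝ} (h : CcE φ) (h' : CcE ψ) :
    Integrable (fun X => φ X * ψ X) (volume : Measure (EE k d)) :=
  h.memLp.integrable_mul h'.memLp

lemma ibp {φ ψ : EE k d → ℝ} (h : CcE φ) (h' : CcE ψ) (i : Ix k d) :
    ∫ X, pd φ i X * ψ X = - ∫ X, φ X * pd ψ i X := by
  have h1 := integral_mul_fderiv_eq_neg_fderiv_mul_of_integrable (𝕜 := ℝ)
    (μ := (volume : Measure (EE k d))) (f := φ) (g := ψ) (v := dir k d i)
    ((h.pd i).int_mul h') (h.int_mul (h'.pd i)) (h.int_mul h')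
    (fun x _ => h.diff x) (fun x _ => h'.diff x)
  have h2 : ∫ X, φ X * pd ψ i X = - ∫ X, pd φ i X * ψ X := h1
  rw [h2, neg_neg]

/-- the Laplacian -/
noncomputable def Lap (φ : EE k d → ℝ) (X : EE k d) : ℝ := ∑ i, pd (pd φ i) i X

lemma CcE.lap {φ : EE k d → ℝ} (h : CcE φ) : MemLp (Lap φ) 2 (volume : Measure (EE k d)) := by
  unfold Lap
  exact memLp_finsetSum _ fun i _ => ((h.pd i).pd i).memLp

lemma grad_pair {φ ψ : EE k d → ℝ} (h : CcE φ) (h' : CcE ψ) :
    ∑ i, (∫ X, pd φ i X * pd ψ i X) = - ∫ X, φ X * Lap ψ X := by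
  have h1 : ∀ X, φ X * Lap ψ X = ∑ i, φ X * pd (pd ψ i) i X := by
    intro X
    unfold Lap
    rw [Finset.mul_sum]
  simp only [h1]
  rw [integral_finsetSum _ fun i _ => h.int_mul ((h'.pd i).pd i), ← Finset.sum_neg_distrib]
  apply Finset.sum_congr rfl
  intro i _
  exact ibp h (h'.pd i) i

lemma grad_pair_act {φ ψ : EE k d → ℝ} (h : CcE φ) (h' : CcE ψ) (g : OG k) :
    ∑ i, (∫ X, pd φ i X * pd (fun X => ψ (act d g⁻¹ X)) i X) =
      ∑ i, ∫ X, pd (fun X => φ (act d g X)) i X * pd ψ i X := by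
  have e : φ = fun X => (fun Y => φ (act d g Y)) (act d g⁻¹ X) := by
    funext X
    simp only
    rw [act_act_inv]
  rw [← integral_finsetSum _ fun i _ => (h.pd i).int_mul ((h'.act g⁻¹).pd i),
    ← integral_finsetSum _ fun i _ => ((h.act g).pd i).int_mul (h'.pd i)]
  rw [← int_act g⁻¹ (fun X => ∑ i, pd (fun X => φ (act d g X)) i X * pd ψ i X)]
  congr 1
  funext X
  rw [← grad_orth (h.act g).diff h'.diff g⁻¹ X, ← e]

/-! ### limits -/

lemma tendsto_pair {f : ℕ → EE k d → ℝ} {v b : EE k d → ℝ} (hf : ∀ n, MemLp (f n) 2)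
    (hv : MemLp v 2) (hb : MemLp b 2)
    (h : Tendsto (fun n => ∫ X, (f n X - v X) ^ 2) atTop (𝓝 0)) :
    Tendsto (fun n => ∫ X, f n X * b X) atTop (𝓝 (∫ X, v X * b X)) := by
  have h1 : Tendsto (fun n => (∫ X, (f n X - v X) ^ 2)) atTop (𝓝 0) := h
  rw [Metric.tendsto_atTop]
  intro ε hε
  obtain ⟨B, hB⟩ : ∃ B, B = ∫ X, b X ^ 2 := ⟨_, rfl⟩
  have hB0 : 0 ≤ B := by rw [hB]; exact integral_nonneg fun X => sq_nonneg _
  -- `|∫ (f-v) b| ≤ δ/2 * B + 1/(2δ) * ∫ (f-v)²`
  obtain ⟨δ, hδ, hδB⟩ : ∃ δ > 0, δ / 2 * B ≤ ε / 4 := by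
    refine ⟨ε / (2 * (B + 1)), by positivity, ?_⟩
    rw [div_div, div_mul_eq_mul_div, div_le_div_iff₀ (by positivity) (by norm_num)]
    nlinarith
  obtain ⟨n₀, hn₀⟩ := Metric.tendsto_atTop.1 h1 (δ * ε / 2) (by positivity)
  refine ⟨n₀, fun n hn => ?_⟩
  have h2 := hn₀ n hn
  rw [Real.dist_eq, sub_zero] at h2
  have hd : MemLp (fun X => f n X - v X) 2 := (hf n).sub hv
  have i1 : Integrable fun X => (f n X - v X) ^ 2 := hd.integrable_sq
  have i2 : Integrable fun X => b X ^ 2 := hb.integrable_sq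
  have i3 : Integrable fun X => f n X * b X := (hf n).integrable_mul hb
  have i4 : Integrable fun X => v X * b X := hv.integrable_mul hb
  rw [Real.dist_eq, ← integral_sub i3 i4]
  have h3 : |∫ X, (f n X * b X - v X * b X)| ≤
      ∫ X, (δ / 2 * b X ^ 2 + 1 / (2 * δ) * (f n X - v X) ^ 2) := by
    refine (abs_integral_le_integral_abs).trans ?_
    apply integral_mono (i3.sub i4).abs ((i2.const_mul _).add (i1.const_mul _))
    intro X
    show |f n X * b X - v X * b X| ≤ δ / 2 * b X ^ 2 + 1 / (2 * δ) * (f n X - v X) ^ 2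
    have e : f n X * b X - v X * b X = (f n X - v X) * b X := by ring
    rw [e, abs_mul]
    have e2 : δ / 2 * b X ^ 2 + 1 / (2 * δ) * (f n X - v X) ^ 2 - |f n X - v X| * |b X| =
        δ / 2 * (|b X| - 1 / δ * |f n X - v X|) ^ 2 := by
      rw [← sq_abs (b X), ← sq_abs (f n X - v X)]
      field_simp
      ring
    have : 0 ≤ δ / 2 * (|b X| - 1 / δ * |f n X - v X|) ^ 2 := by positivity
    linarith
  rw [integral_add (i2.const_mul _) (i1.const_mul _), integral_const_mul, integral_const_mul,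
    ← hB] at h3
  have h4 : 1 / (2 * δ) * ∫ X, (f n X - v X) ^ 2 < ε / 4 + ε / 4 := by
    have h5 : ∫ X, (f n X - v X) ^ 2 < δ * ε / 2 := (le_abs_self _).trans_lt h2
    calc 1 / (2 * δ) * ∫ X, (f n X - v X) ^ 2 < 1 / (2 * δ) * (δ * ε / 2) :=
          mul_lt_mul_of_pos_left h5 (by positivity)
      _ = ε / 4 := by field_simp; ring
      _ ≤ _ := by linarith
  linarith

end Pool.Agent.H56.BN
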