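import Mathlib
import Pool.Agent.H56.BN.DefsI
import Pool.Agent.H56.BN.Space

/-!
Invariant test functions are lifts.
-/

set_option autoImplicit false
set_option maxHeartbeats 1000000

namespace Pool.Agent.H56.BN

open MeasureTheory Filter Topology Set
open scoped ContDiff InnerProductSpace ENNReal

variable {k d : ℕ} {S : Set (PP d)}

lemma invTest_lift (hS : S ⊆ HP d) {ψ : PP d → ℝ} (h : IsTest S ψ) :
    InvTest k S (lift k ψ) := by
  refine ⟨contDiff_lift h.smooth (h.supp.trans hS), hasCompactSupport_lift h.cpt, ?_, ?_⟩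
  · intro X hX
    exact h.supp (tsupport_lift_subset hX)
  · intro g X
    unfold lift
    rw [g.norm_map]

/-- the unit vector -/
noncomputable def e0 (k : ℕ) : EuclideanSpace ℝ (Fin (k + 1)) := EuclideanSpace.single 0 1

lemma norm_e0 (k : ℕ) : ‖e0 k‖ = 1 := by
  unfold e0
  rw [EuclideanSpace.norm_single, norm_one]

lemma inv_eq {φ : EE k d → ℝ} (h : InvTest k S φ) {y y' : EuclideanSpace ℝ (Fin (k + 1))}
    (hy : ‖y‖ = ‖y'‖) (z : Zd d) : φ (y, z) = φ (y', z) := by
  have h1 := h.inv ((ℝ ∙ (y - y'))ᗮ.reflection) (y, z)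
  have h2 : (ℝ ∙ (y - y'))ᗮ.reflection y = y' := Submodule.reflection_sub hy
  rw [← h1]
  simp only
  rw [h2]

/-- the section of an invariant function -/
noncomputable def sect {k d : ℕ} (φ : EE k d → ℝ) (P : PP d) : ℝ :=
  if 0 < P.1 then φ (P.1 • e0 k, P.2) else 0

lemma exists_low (hS : S ⊆ HP d) {φ : EE k d → ℝ} (h : InvTest k S φ) :
    ∃ c : ℝ, 0 < c ∧ ∀ X ∈ tsupport φ, c ≤ ‖X.1‖ := by
  rcases (tsupport φ).eq_empty_or_nonempty with he | hne
  · exact ⟨1, one_pos, fun X hX => by rw [he] at hX; exact absurd hX (notMem_empty _)⟩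
  · have hc : IsCompact (tsupport φ) := h.cpt
    obtain ⟨X₀, hX₀, hmin⟩ := hc.exists_isMinOn hne
      (f := fun X : EE k d => ‖X.1‖) (continuous_fst.norm.continuousOn)
    refine ⟨‖X₀.1‖, hS (h.supp hX₀), fun X hX => hmin hX⟩

lemma sect_support {φ : EE k d → ℝ} (h : InvTest k S φ) :
    tsupport (sect φ) ⊆ rad k d '' tsupport φ := by
  apply closure_minimal
  · intro P hP
    unfold sect at hP
    rw [Function.mem_support] at hP
    split_ifs at hP with h1
    · refine ⟨(P.1 • e0 k, P.2), subset_tsupport φ hP, ?_⟩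
      unfold rad
      rw [norm_smul, norm_e0, mul_one, Real.norm_eq_abs, abs_of_pos h1]
    · exact absurd rfl hP
  · exact ((show IsCompact (tsupport φ) from h.cpt).image continuous_rad).isClosed

lemma isTest_sect (hS : S ⊆ HP d) {φ : EE k d → ℝ} (h : InvTest k S φ) : IsTest S (sect φ) := by
  have hcpt : IsCompact (rad k d '' tsupport φ) :=
    (show IsCompact (tsupport φ) from h.cpt).image continuous_rad
  refine ⟨?_, hcpt.of_isClosed_subset (isClosed_tsupport _) (sect_support h), ?_⟩
  · obtain ⟨c, hc, hlow⟩ := exists_low hS h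
    rw [contDiff_iff_contDiffAt]
    intro P
    rcases lt_or_ge 0 P.1 with hP | hP
    · have h1 : sect φ =ᶠ[𝓝 P] fun Q => φ (Q.1 • e0 k, Q.2) := by
        filter_upwards [(isOpen_HP d).mem_nhds hP] with Q hQ
        exact if_pos hQ
      have h2 : ContDiff ℝ ∞ fun Q : PP d => φ (Q.1 • e0 k, Q.2) :=
        h.smooth.comp ((contDiff_fst.smul contDiff_const).prodMk contDiff_snd)
      exact h2.contDiffAt.congr_of_eventuallyEq h1
    · have h1 : sect φ =ᶠ[𝓝 P] fun _ => 0 := by
        have ho : IsOpen {Q : PP d | Q.1 < c} := isOpen_lt continuous_fst continuous_const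
        filter_upwards [ho.mem_nhds (show P.1 < c by linarith)] with Q hQ
        unfold sect
        split_ifs with h3
        · by_contra hne
          have h4 := hlow _ (subset_tsupport φ (Function.mem_support.2 hne))
          have h5 : ‖((Q.1 • e0 k, Q.2) : EE k d).1‖ = Q.1 := by
            show ‖Q.1 • e0 k‖ = Q.1
            rw [norm_smul, norm_e0, mul_one, Real.norm_eq_abs, abs_of_pos h3]
          rw [h5] at h4
          exact absurd (hQ : Q.1 < c) (not_lt.2 h4)
        · rfl
      exact contDiffAt_const.congr_of_eventuallyEq h1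
  · intro P hP
    obtain ⟨X, hX, rfl⟩ := sect_support h hP
    exact h.supp hX

lemma lift_sect (hS : S ⊆ HP d) {φ : EE k d → ℝ} (h : InvTest k S φ) : lift k (sect φ) = φ := by
  funext X
  unfold lift sect
  simp only
  split_ifs with h1
  · apply inv_eq h
    rw [norm_smul, norm_e0, mul_one, norm_norm]
  · symm
    apply image_eq_zero_of_notMem_tsupport
    intro h2
    exact h1 (hS (h.supp h2))

/-- the test function attached to an invariant test function -/
noncomputable def toT {Θ : Dom d} {φ : EE k d → ℝ} (h : InvTest k Θ.S φ) : Tst Θ :=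
  ⟨sect φ, isTest_sect Θ.pos h⟩

lemma lift_toT {Θ : Dom d} {φ : EE k d → ℝ} (h : InvTest k Θ.S φ) :
    lift k (toT h : PP d → ℝ) = φ := lift_sect Θ.pos h

lemma invTest_tst {Θ : Dom d} (ψ : Tst Θ) : InvTest k Θ.S (lift k (ψ : PP d → ℝ)) :=
  invTest_lift Θ.pos (tIs ψ)

end Pool.Agent.H56.BN
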