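import Mathlib
import Pool.Agent.H56.BN.Fin1
import Pool.Agent.H56.BN.Emb
import Pool.Agent.H56.BN.Dual6
import Pool.Agent.H56.BN.Restr

/-!
Elements of the Hilbert space as pairs (function, gradient).
-/

set_option autoImplicit false
set_option maxHeartbeats 1000000

namespace Pool.Agent.H56.BN

open MeasureTheory Filter Topology Set
open scoped ContDiff InnerProductSpace ENNReal

section gen

variable {X : Type*} [MeasurableSpace X] {μ : Measure X}

lemma int_mul_L2 (f g : Lp ℝ 2 μ) : Integrable (fun x => f x * g x) μ :=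
  (Lp.memLp f).integrable_mul (Lp.memLp g)

lemma inner_pi {ι : Type*} [Fintype ι] (f g : Lp (EuclideanSpace ℝ ι) 2 μ)
    (F G : ι → Lp ℝ 2 μ) (hF : ∀ o, F o =ᵐ[μ] fun x => f x o) (hG : ∀ o, G o =ᵐ[μ] fun x => g x o) :
    ⟪f, g⟫_ℝ = ∑ o, ∫ x, F o x * G o x ∂μ := by
  rw [L2.inner_def, ← integral_finset_sum _ (fun o _ => int_mul_L2 (F o) (G o))]
  apply integral_congr_ae
  have h1 : ∀ᵐ x ∂μ, ∀ o, F o x = f x o := ae_all_iff.2 hF
  have h2 : ∀ᵐ x ∂μ, ∀ o, G o x = g x o := ae_all_iff.2 hG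
  filter_upwards [h1, h2] with x h3 h4
  rw [PiLp.inner_apply]
  apply Finset.sum_congr rfl
  intro o _
  rw [h3, h4]
  simp [mul_comm]

/-- limits in `L²` through integrals -/
lemma tendsto_L2 {f : ℕ → Lp ℝ 2 μ} {g : Lp ℝ 2 μ} :
    Tendsto f atTop (𝓝 g) ↔ Tendsto (fun n => ∫ x, (f n x - g x) ^ 2 ∂μ) atTop (𝓝 0) := by
  have e : ∀ n, ∫ x, (f n x - g x) ^ 2 ∂μ = ‖f n - g‖ ^ 2 := by
    intro n
    rw [norm_sq_L2]
    apply integral_congr_ae
    filter_upwards [Lp.coeFn_sub (f n) g] with x hx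
    rw [hx]; rfl
  simp_rw [e]
  rw [tendsto_iff_norm_sub_tendsto_zero]
  constructor
  · intro h
    have := h.pow 2
    simpa using this
  · intro h
    have h1 := (Real.continuous_sqrt.tendsto _).comp h
    rw [Real.sqrt_zero] at h1
    refine h1.congr fun n => ?_
    show Real.sqrt (‖f n - g‖ ^ 2) = ‖f n - g‖
    exact Real.sqrt_sq (norm_nonneg _)

end gen

variable {k d : ℕ} {Θ : Dom d}

lemma inner_HH (u w : HH k d) :
    ⟪u, w⟫_ℝ = ∑ o, ∫ X, comp k d o u X * comp k d o w X :=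
  inner_pi u w (fun o => comp k d o u) (fun o => comp k d o w) (fun o => coeFn_comp o u)
    (fun o => coeFn_comp o w)

/-- `u` is represented by the function `v` with gradient `G` -/
structure Rep (u : VV k Θ) (v : EE k d → ℝ) (G : Ix k d → EE k d → ℝ) : Prop where
  fn : v =ᵐ[volume] comp k d none (u : HH k d)
  gr : ∀ i, G i =ᵐ[volume] comp k d (some i) (u : HH k d)

lemma rep_emb (ψ : Tst Θ) :
    Rep (emb k Θ ψ) (lift k (ψ : PP d → ℝ)) (pd (lift k (ψ : PP d → ℝ))) := by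
  constructor
  · filter_upwards [coeFn_comp none (emb k Θ ψ : HH k d), coeFn_vec (k := k) ψ] with X h1 h2
    rw [h1, coe_emb, h2]
    rfl
  · intro i
    filter_upwards [coeFn_comp (some i) (emb k Θ ψ : HH k d), coeFn_vec (k := k) ψ] with X h1 h2
    rw [h1, coe_emb, h2]
    rfl

lemma inner_rep {u u' : VV k Θ} {v v' : EE k d → ℝ} {G G' : Ix k d → EE k d → ℝ}
    (h : Rep u v G) (h' : Rep u' v' G') :
    ⟪u, u'⟫_ℝ = (∫ X, v X * v' X) + ∑ i, ∫ X, G i X * G' i X := by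
  have e : ⟪u, u'⟫_ℝ = ⟪(u : HH k d), (u' : HH k d)⟫_ℝ := rfl
  rw [e, inner_HH, Fintype.sum_option]
  congr 1
  · apply integral_congr_ae
    filter_upwards [h.fn, h'.fn] with X h1 h2
    rw [h1, h2]
  · apply Finset.sum_congr rfl
    intro i _
    apply integral_congr_ae
    filter_upwards [h.gr i, h'.gr i] with X h1 h2
    rw [h1, h2]

lemma rep_io2 {u : VV k Θ} {v : EE k d → ℝ} {G : Ix k d → EE k d → ℝ} (h : Rep u v G) :
    v =ᵐ[volume] io2 k Θ u := h.fn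

lemma inner_TT_rep {u u' : VV k Θ} {v v' : EE k d → ℝ} {G G' : Ix k d → EE k d → ℝ}
    (h : Rep u v G) (h' : Rep u' v' G') :
    ⟪TT k Θ u, u'⟫_ℝ = ∫ X, v X * v' X := by
  rw [inner_TT, inner_io2]
  apply integral_congr_ae
  filter_upwards [rep_io2 h, rep_io2 h'] with X h1 h2
  rw [h1, h2]

lemma iop_rep [Fact (1 < pex d)] (hE : HasEmb k Θ (pex d)) {u : VV k Θ} {v : EE k d → ℝ}
    {G : Ix k d → EE k d → ℝ} (h : Rep u v G) : v =ᵐ[volume] iop k Θ (pex d) u := by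
  filter_upwards [rep_io2 h, coeFn_iop hE u] with X h1 h2
  rw [h1, h2]

lemma norm_iop_rep [Fact (1 < pex d)] (hE : HasEmb k Θ (pex d)) {u : VV k Θ} {v : EE k d → ℝ}
    {G : Ix k d → EE k d → ℝ} (h : Rep u v G) :
    ‖iop k Θ (pex d) u‖ ^ pex d = ∫ X, |v X| ^ pex d := by
  rw [norm_rpow (show 1 < pex d from Fact.out)]
  apply integral_congr_ae
  filter_upwards [iop_rep hE h] with X h1
  rw [h1]

lemma inner_adjF_rep (hd : 2 ≤ d) [Fact (1 < pex d)] [Fact (1 < qex d)]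
    (hE : HasEmb k Θ (pex d)) {u u' : VV k Θ} {v v' : EE k d → ℝ} {G G' : Ix k d → EE k d → ℝ}
    (h : Rep u v G) (h' : Rep u' v' G') :
    ⟪adjF (pq_conj hd) (iop k Θ (pex d)) (Jm (pq_conj hd) (iop k Θ (pex d) u)), u'⟫_ℝ =
      ∫ X, |v X| ^ (pex d - 2) * v X * v' X := by
  rw [inner_adjF]
  apply integral_congr_ae
  filter_upwards [iop_rep hE h, iop_rep hE h', coeFn_Jm (pq_conj hd) (iop k Θ (pex d) u)]
    with X h1 h2 h3
  rw [h3, h1, h2]
  rfl

lemma En_rep [Fact (1 < pex d)] (hE : HasEmb k Θ (pex d)) {u : VV k Θ}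
    {v : EE k d → ℝ} {G : Ix k d → EE k d → ℝ} (h : Rep u v G) (l : ℝ) :
    En (iop k Θ (pex d)) (BB (TT k Θ) l) u = JJ l v G := by
  unfold En JJ
  rw [norm_iop_rep hE h, BB_apply, inner_sub_left, real_inner_smul_left, inner_TT_rep h h,
    inner_rep h h]
  simp_rw [← sq]
  ring

lemma gr_rep (hd : 2 ≤ d) [Fact (1 < pex d)] [Fact (1 < qex d)] (hE : HasEmb k Θ (pex d))
    {u : VV k Θ} {v : EE k d → ℝ} {G : Ix k d → EE k d → ℝ} (h : Rep u v G) (l : ℝ)
    (ψ : Tst Θ) :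
    ⟪gr (pq_conj hd) (iop k Θ (pex d)) (BB (TT k Θ) l) u, emb k Θ ψ⟫_ℝ =
      dJJ l v G (lift k (ψ : PP d → ℝ)) := by
  unfold gr dJJ
  rw [inner_sub_left, inner_adjF_rep hd hE h (rep_emb ψ), BB_apply, inner_sub_left,
    real_inner_smul_left, inner_TT_rep h (rep_emb ψ), inner_rep h (rep_emb ψ)]
  ring

lemma nsq_rep (ψ : Tst Θ) : nsq (lift k (ψ : PP d → ℝ)) = ‖emb k Θ ψ‖ ^ 2 := by
  rw [← real_inner_self_eq_norm_sq, inner_rep (rep_emb ψ) (rep_emb ψ)]
  unfold nsq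
  simp_rw [← sq]
  ring

end Pool.Agent.H56.BN
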