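import Mathlib
import Pool.Agent.H56.BN.Fin2

/-!
Elements of `H` and of the abstract Hilbert space.
-/

set_option autoImplicit false
set_option maxHeartbeats 1000000

namespace Pool.Agent.H56.BN

open MeasureTheory Filter Topology Set
open scoped ContDiff InnerProductSpace ENNReal

variable {k d : ℕ} {Θ : Dom d}

/-- convergence in `HH` is convergence of the components -/
lemma tendsto_HH {u : ℕ → HH k d} {w : HH k d} :
    Tendsto u atTop (𝓝 w) ↔ ∀ o, Tendsto (fun n => comp k d o (u n)) atTop (𝓝 (comp k d o w)) := by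
  constructor
  · intro h o
    exact ((comp k d o).continuous.tendsto w).comp h
  · intro h
    rw [tendsto_iff_norm_sub_tendsto_zero]
    have h1 : ∀ o, Tendsto (fun n => ‖comp k d o (u n) - comp k d o w‖ ^ 2) atTop (𝓝 0) := by
      intro o
      have := (tendsto_iff_norm_sub_tendsto_zero.1 (h o)).pow 2
      simpa using this
    have h2 : Tendsto (fun n => ∑ o, ‖comp k d o (u n) - comp k d o w‖ ^ 2) atTop (𝓝 0) := by
      have := tendsto_finset_sum Finset.univ fun o _ => h1 o
      simpa using this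
    have h3 : ∀ n, ‖u n - w‖ ^ 2 = ∑ o, ‖comp k d o (u n) - comp k d o w‖ ^ 2 := by
      intro n
      rw [← real_inner_self_eq_norm_sq, inner_HH]
      apply Finset.sum_congr rfl
      intro o _
      rw [← map_sub, ← real_inner_self_eq_norm_sq, L2.inner_def]
      apply integral_congr_ae
      apply ae_of_all
      intro X
      simp only [RCLike.inner_apply, conj_trivial]
    have h4 := (Real.continuous_sqrt.tendsto _).comp h2
    rw [Real.sqrt_zero] at h4
    refine h4.congr fun n => ?_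
    show Real.sqrt (∑ o, ‖comp k d o (u n) - comp k d o w‖ ^ 2) = ‖u n - w‖
    rw [← h3, Real.sqrt_sq (norm_nonneg _)]

lemma comp_emb_none (ψ : Tst Θ) :
    comp k d none (emb k Θ ψ : HH k d) =ᵐ[volume] lift k (ψ : PP d → ℝ) :=
  ((rep_emb (k := k) ψ).fn).symm

lemma comp_emb_some (ψ : Tst Θ) (i : Ix k d) :
    comp k d (some i) (emb k Θ ψ : HH k d) =ᵐ[volume] pd (lift k (ψ : PP d → ℝ)) i :=
  ((rep_emb (k := k) ψ).gr i).symm

lemma rep_of_inH {v : EE k d → ℝ} {G : Ix k d → EE k d → ℝ} (h : InHi k Θ.S v G) :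
    ∃ u : VV k Θ, Rep u v G := by
  obtain ⟨hv, hG, φ, hφ, hl1, hl2⟩ := h
  have hmem : MemLp (fun X => (WithLp.toLp 2 (fun o : CI k d => o.elim (v X) (fun i => G i X)) :
      FF k d)) 2 (volume : Measure (EE k d)) := by
    apply MemLp.of_eval_piLp
    rintro (_ | i)
    · exact hv
    · exact hG i
  obtain ⟨U, hU⟩ : ∃ U : HH k d, U = hmem.toLp _ := ⟨_, rfl⟩
  have hUae : U =ᵐ[volume] fun X => (WithLp.toLp 2 (fun o : CI k d =>
      o.elim (v X) (fun i => G i X)) : FF k d) := by
    rw [hU]; exact MemLp.coeFn_toLp hmem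
  have hU0 : comp k d none U =ᵐ[volume] v := by
    filter_upwards [coeFn_comp none U, hUae] with X h1 h2
    rw [h1, h2]
    rfl
  have hUi : ∀ i, comp k d (some i) U =ᵐ[volume] G i := by
    intro i
    filter_upwards [coeFn_comp (some i) U, hUae] with X h1 h2
    rw [h1, h2]
    rfl
  have hlift : ∀ n, lift k (toT (Θ := Θ) (hφ n) : PP d → ℝ) = φ n := fun n => lift_toT (hφ n)
  have hlim : Tendsto (fun n => (emb k Θ (toT (hφ n)) : HH k d)) atTop (𝓝 U) := by
    rw [tendsto_HH]
    rintro (_ | i)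
    · rw [tendsto_L2]
      refine hl1.congr fun n => ?_
      apply integral_congr_ae
      filter_upwards [comp_emb_none (k := k) (toT (hφ n)), hU0] with X h1 h2
      rw [h1, h2, hlift]
    · rw [tendsto_L2]
      refine (hl2 i).congr fun n => ?_
      apply integral_congr_ae
      filter_upwards [comp_emb_some (k := k) (toT (hφ n)) i, hUi i] with X h1 h2
      rw [h1, h2, hlift]
  have hUV : U ∈ VV k Θ := by
    have hcl : IsClosed (VV k Θ : Set (HH k d)) := Submodule.isClosed_topologicalClosure _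
    exact hcl.mem_of_tendsto hlim (Eventually.of_forall fun n => (emb k Θ (toT (hφ n))).2)
  exact ⟨⟨U, hUV⟩, ⟨hU0.symm, fun i => (hUi i).symm⟩⟩

lemma inH_of_rep {u : VV k Θ} {v : EE k d → ℝ} {G : Ix k d → EE k d → ℝ} (h : Rep u v G) :
    InHi k Θ.S v G := by
  refine ⟨(memLp_congr_ae h.fn).2 (Lp.memLp _), fun i => (memLp_congr_ae (h.gr i)).2 (Lp.memLp _),
    ?_⟩
  obtain ⟨ψ, hψ⟩ := exists_seq_emb u
  have hlim : Tendsto (fun n => (emb k Θ (ψ n) : HH k d)) atTop (𝓝 (u : HH k d)) :=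
    (continuous_subtype_val.tendsto u).comp hψ
  rw [tendsto_HH] at hlim
  refine ⟨fun n => lift k (ψ n : PP d → ℝ), fun n => invTest_tst (ψ n), ?_, fun i => ?_⟩
  · refine (tendsto_L2.1 (hlim none)).congr fun n => ?_
    apply integral_congr_ae
    filter_upwards [comp_emb_none (k := k) (ψ n), h.fn] with X h1 h2
    rw [h1, h2]
  · refine (tendsto_L2.1 (hlim (some i))).congr fun n => ?_
    apply integral_congr_ae
    filter_upwards [comp_emb_some (k := k) (ψ n) i, h.gr i] with X h1 h2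
    rw [h1, h2]

lemma exists_rep (u : VV k Θ) : ∃ (v : EE k d → ℝ) (G : Ix k d → EE k d → ℝ), Rep u v G :=
  ⟨comp k d none (u : HH k d), fun i => comp k d (some i) (u : HH k d),
    ⟨EventuallyEq.rfl, fun _ => EventuallyEq.rfl⟩⟩

/-! ### dual norms by density -/

lemma le_norm_of_dense {V : Type*} [NormedAddCommGroup V] [InnerProductSpace ℝ V]
    {T : Type*} {e : T → V} (he : DenseRange e) {g : V} {ε : ℝ} (hε : 0 ≤ ε)
    (h : ∀ t, |⟪g, e t⟫_ℝ| ≤ ε * ‖e t‖) : ‖g‖ ≤ ε := by
  have h1 : ∀ w : V, |⟪g, w⟫_ℝ| ≤ ε * ‖w‖ := by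
    intro w
    have hcl : IsClosed {w : V | |⟪g, w⟫_ℝ| ≤ ε * ‖w‖} :=
      isClosed_le ((continuous_const.inner continuous_id).abs) (continuous_const.mul continuous_norm)
    exact he.induction_on (p := fun w => |⟪g, w⟫_ℝ| ≤ ε * ‖w‖) w hcl h
  have h2 := h1 g
  rw [real_inner_self_eq_norm_sq, abs_of_nonneg (sq_nonneg _)] at h2
  rcases (norm_nonneg g).eq_or_lt with h3 | h3
  · rw [← h3]; exact hε
  · nlinarith

lemma eq_zero_of_dense {V : Type*} [NormedAddCommGroup V] [InnerProductSpace ℝ V]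
    {T : Type*} {e : T → V} (he : DenseRange e) {g : V} (h : ∀ t, ⟪g, e t⟫_ℝ = 0) : g = 0 := by
  have h1 := le_norm_of_dense he le_rfl (g := g) (fun t => by rw [h t]; simp)
  exact norm_eq_zero.1 (le_antisymm h1 (norm_nonneg _))

end Pool.Agent.H56.BN
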