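import Mathlib
import Pool.Agent.H56.BN.Av4
import Pool.Agent.H56.BN.Fin3

/-!
The invariant functions of `H_0^1(Ω)` are limits of invariant test functions.
-/

set_option autoImplicit false
set_option maxHeartbeats 1000000

namespace Pool.Agent.H56.BN

open MeasureTheory Filter Topology Set
open scoped ContDiff InnerProductSpace

variable {k d : ℕ} {S : Set (PP d)}

lemma IsCc.ccE {φ : EE k d → ℝ} (h : IsCc k S φ) : CcE φ := ⟨h.smooth, h.cpt⟩

lemma InvTest.isCc {φ : EE k d → ℝ} (h : InvTest k S φ) : IsCc k S φ := ⟨h.smooth, h.cpt, h.supp⟩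

lemma InvTest.ccE {φ : EE k d → ℝ} (h : InvTest k S φ) : CcE φ := ⟨h.smooth, h.cpt⟩

lemma IsCc.avg {φ : EE k d → ℝ} (h : IsCc k S φ) : InvTest k S (Avg φ) :=
  invTest_Avg h.smooth h.cpt h.supp

lemma InvTest.act {φ : EE k d → ℝ} (h : InvTest k S φ) (g : OG k) (X : EE k d) :
    φ (act d g X) = φ X := h.inv (Unitary.linearIsometryEquiv g) X

lemma inv_act {v : EE k d → ℝ} (h : ∀ g : EuclideanSpace ℝ (Fin (k + 1)) ≃ₗᵢ[ℝ]
    EuclideanSpace ℝ (Fin (k + 1)), (fun X : EE k d => v (g X.1, X.2)) =ᵐ[volume] v) (g : OG k) :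
    (fun X => v (act d g X)) =ᵐ[volume] v := h (Unitary.linearIsometryEquiv g)

lemma inv_of_act {v : EE k d → ℝ} (h : ∀ g : OG k, (fun X => v (act d g X)) =ᵐ[volume] v)
    (g : EuclideanSpace ℝ (Fin (k + 1)) ≃ₗᵢ[ℝ] EuclideanSpace ℝ (Fin (k + 1))) :
    (fun X : EE k d => v (g X.1, X.2)) =ᵐ[volume] v := h (Unitary.linearIsometryEquiv.symm g)

/-! ### limits are unique -/

lemma ae_eq_of_lim {f : ℕ → EE k d → ℝ} {v w : EE k d → ℝ} (hf : ∀ n, MemLp (f n) 2)
    (hv : MemLp v 2) (hw : MemLp w 2)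
    (h1 : Tendsto (fun n => ∫ X, (f n X - v X) ^ 2) atTop (𝓝 0))
    (h2 : Tendsto (fun n => ∫ X, (f n X - w X) ^ 2) atTop (𝓝 0)) : v =ᵐ[volume] w := by
  have h3 : ∫ X, (v X - w X) ^ 2 ≤ 0 := by
    have h4 : Tendsto (fun n => 2 * (∫ X, (f n X - v X) ^ 2) + 2 * ∫ X, (f n X - w X) ^ 2) atTop
        (𝓝 (2 * 0 + 2 * 0)) := (h1.const_mul 2).add (h2.const_mul 2)
    rw [mul_zero, add_zero] at h4
    refine ge_of_tendsto' h4 fun n => ?_
    have i1 : Integrable fun X => (f n X - v X) ^ 2 := ((hf n).sub hv).integrable_sq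
    have i2 : Integrable fun X => (f n X - w X) ^ 2 := ((hf n).sub hw).integrable_sq
    have i3 : Integrable fun X => (v X - w X) ^ 2 := (hv.sub hw).integrable_sq
    rw [← integral_const_mul, ← integral_const_mul, ← integral_add (i1.const_mul 2) (i2.const_mul 2)]
    apply integral_mono i3 ((i1.const_mul 2).add (i2.const_mul 2))
    intro X
    show (v X - w X) ^ 2 ≤ 2 * (f n X - v X) ^ 2 + 2 * (f n X - w X) ^ 2
    nlinarith [sq_nonneg (f n X - v X + (f n X - w X))]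
  have i3 : Integrable fun X => (v X - w X) ^ 2 := (hv.sub hw).integrable_sq
  have h4 : ∫ X, (v X - w X) ^ 2 = 0 :=
    le_antisymm h3 (integral_nonneg fun X => sq_nonneg _)
  rw [integral_eq_zero_iff_of_nonneg (fun X => sq_nonneg _) i3] at h4
  filter_upwards [h4] with X hX
  have h5 : (v X - w X) ^ 2 = 0 := hX
  have h6 := pow_eq_zero_iff (two_ne_zero) |>.1 h5
  linarith

lemma memLp_act {v : EE k d → ℝ} (h : MemLp v 2) (g : OG k) :
    MemLp (fun X => v (act d g X)) 2 (volume : Measure (EE k d)) :=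
  h.comp_measurePreserving (mp_act g)

lemma int_sub_act (f v : EE k d → ℝ) (g : OG k) :
    ∫ X, (f (act d g X) - v (act d g X)) ^ 2 = ∫ X, (f X - v X) ^ 2 :=
  int_act g (fun X => (f X - v X) ^ 2)

/-- limits of invariant test functions are invariant -/
lemma inH_of_inHi {v : EE k d → ℝ} {G : Ix k d → EE k d → ℝ} (h : InHi k S v G) :
    InH k S v G := by
  obtain ⟨h1, h2, φ, h3, h4, h5⟩ := h
  refine ⟨h1, h2, ⟨φ, fun n => (h3 n).isCc, h4, h5⟩, inv_of_act fun g => ?_⟩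
  apply ae_eq_of_lim (f := φ) (fun n => (h3 n).ccE.memLp) (memLp_act h1 g) h1 _ h4
  refine h4.congr fun n => ?_
  rw [← int_sub_act _ _ g]
  congr 1
  funext X
  rw [(h3 n).act g]

/-- the gradient is equivariant, weak form -/
lemma gradInv {v : EE k d → ℝ} {G : Ix k d → EE k d → ℝ} (h : InH k S v G) {φ : EE k d → ℝ}
    (hφ : CcE φ) (g : OG k) :
    ∑ i, (∫ X, G i X * pd (fun X => φ (act d g⁻¹ X)) i X) = ∑ i, ∫ X, G i X * pd φ i X := by
  obtain ⟨h1, h2, ⟨f, h3, h4, h5⟩, h6⟩ := h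
  have hc := fun n => (h3 n).ccE
  -- first limit
  have t1 : Tendsto (fun n => ∑ i, ∫ X, pd (f n) i X * pd (fun X => φ (act d g⁻¹ X)) i X) atTop
      (𝓝 (∑ i, ∫ X, G i X * pd (fun X => φ (act d g⁻¹ X)) i X)) :=
    tendsto_finset_sum _ fun i _ => tendsto_pair (fun n => ((hc n).pd i).memLp) (h2 i)
      (((hφ.act g⁻¹).pd i).memLp) (h5 i)
  have t2 : Tendsto (fun n => ∫ X, f n (act d g X) * Lap φ X) atTop
      (𝓝 (∫ X, v (act d g X) * Lap φ X)) := by
    apply tendsto_pair (f := fun n X => f n (act d g X)) (v := fun X => v (act d g X))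
      (fun n => ((hc n).act g).memLp) (memLp_act h1 g) hφ.lap
    refine h4.congr fun n => ?_
    exact (int_sub_act (f n) v g).symm
  have t3 : Tendsto (fun n => ∑ i, ∫ X, pd (f n) i X * pd φ i X) atTop
      (𝓝 (∑ i, ∫ X, G i X * pd φ i X)) :=
    tendsto_finset_sum _ fun i _ => tendsto_pair (fun n => ((hc n).pd i).memLp) (h2 i)
      ((hφ.pd i).memLp) (h5 i)
  have t4 : Tendsto (fun n => ∫ X, f n X * Lap φ X) atTop (𝓝 (∫ X, v X * Lap φ X)) :=
    tendsto_pair (fun n => (hc n).memLp) h1 hφ.lap h4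
  have e1 : ∀ n, ∑ i, (∫ X, pd (f n) i X * pd (fun X => φ (act d g⁻¹ X)) i X) =
      - ∫ X, f n (act d g X) * Lap φ X := by
    intro n
    rw [grad_pair_act (hc n) hφ g, grad_pair ((hc n).act g) hφ]
  have e2 : ∀ n, ∑ i, (∫ X, pd (f n) i X * pd φ i X) = - ∫ X, f n X * Lap φ X :=
    fun n => grad_pair (hc n) hφ
  have e3 : ∫ X, v (act d g X) * Lap φ X = ∫ X, v X * Lap φ X := by
    apply integral_congr_ae
    filter_upwards [inv_act h6 g] with X hX
    rw [hX]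
  have r1 := tendsto_nhds_unique (t1.congr e1) t2.neg
  have r2 := tendsto_nhds_unique (t3.congr e2) t4.neg
  rw [r1, r2, e3]

lemma locInt {v : EE k d → ℝ} (h : MemLp v 2) : LocallyIntegrable v :=
  h.locallyIntegrable (by norm_num)

/-- averages do not change the pairings with the elements of `H` -/
lemma pair_Avg {v : EE k d → ℝ} {G : Ix k d → EE k d → ℝ} (h : InH k S v G) {φ : EE k d → ℝ}
    (hφ : CcE φ) :
    (∫ X, v X * Avg φ X = ∫ X, v X * φ X) ∧
      ∑ i, (∫ X, G i X * pd (Avg φ) i X) = ∑ i, ∫ X, G i X * pd φ i X := by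
  refine ⟨int_Avg (locInt h.mem) (inv_act h.inv) hφ.smooth.continuous hφ.cpt, ?_⟩
  exact grad_Avg (fun i => locInt (h.grad i)) hφ.smooth hφ.cpt fun g => gradInv h hφ g

/-- averages decrease the norm -/
lemma nsq_Avg {φ : EE k d → ℝ} (hφ : CcE φ) : nsq (Avg φ) ≤ nsq φ := by
  have hA : InvTest k univ (Avg φ) := invTest_Avg hφ.smooth hφ.cpt (fun X _ => mem_univ _)
  have hc := hA.ccE
  have h1 : InHi k univ (Avg φ) (pd (Avg φ)) := by
    refine ⟨hc.memLp, fun i => (hc.pd i).memLp, fun _ => Avg φ, fun _ => hA, ?_, fun i => ?_⟩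
    · simp
    · simp
  obtain ⟨h2, h3⟩ := pair_Avg (inH_of_inHi h1) hφ
  have h4 : nsq (Avg φ) = ∑ i, (∫ X, pd (Avg φ) i X * pd φ i X) + ∫ X, Avg φ X * φ X := by
    rw [← h2, ← h3]
    unfold nsq
    simp only [← sq]
  have amgm : ∀ a b : EE k d → ℝ, CcE a → CcE b →
      2 * ∫ X, a X * b X ≤ (∫ X, a X ^ 2) + ∫ X, b X ^ 2 := by
    intro a b ha hb
    have i1 : Integrable fun X => a X ^ 2 := ha.memLp.integrable_sq
    have i2 : Integrable fun X => b X ^ 2 := hb.memLp.integrable_sq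
    rw [← integral_const_mul, ← integral_add i1 i2]
    apply integral_mono ((ha.int_mul hb).const_mul 2) (i1.add i2)
    intro X
    show 2 * (a X * b X) ≤ a X ^ 2 + b X ^ 2
    nlinarith [sq_nonneg (a X - b X)]
  have h5 : 2 * nsq (Avg φ) ≤ nsq (Avg φ) + nsq φ := by
    nth_rewrite 1 [h4]
    unfold nsq
    rw [mul_add, Finset.mul_sum]
    have h6 := amgm _ _ hc hφ
    have h7 : ∑ i, 2 * (∫ X, pd (Avg φ) i X * pd φ i X) ≤
        ∑ i, ((∫ X, pd (Avg φ) i X ^ 2) + ∫ X, pd φ i X ^ 2) :=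
      Finset.sum_le_sum fun i _ => amgm _ _ (hc.pd i) (hφ.pd i)
    rw [Finset.sum_add_distrib] at h7
    linarith
  linarith

end Pool.Agent.H56.BN
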