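import Mathlib
import Pool.Agent.H56.BN.Fin3
import Pool.Agent.H56.BN.Lam

/-!
The concrete definitions agree with the abstract ones.
-/

set_option autoImplicit false
set_option maxHeartbeats 1000000

namespace Pool.Agent.H56.BN

open MeasureTheory Filter Topology Set
open scoped ContDiff InnerProductSpace ENNReal

variable {k d : ℕ} {Θ : Dom d}

section ps

variable (hd : 2 ≤ d) [Fact (1 < pex d)] [Fact (1 < qex d)] (hE : HasEmb k Θ (pex d))

include hE in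
lemma norm_gr_le {u : VV k Θ} {v : EE k d → ℝ} {G : Ix k d → EE k d → ℝ} (h : Rep u v G) {l ε : ℝ}
    (hε : 0 ≤ ε) (h2 : ∀ φ, InvTest k Θ.S φ → |dJJ l v G φ| ≤ ε * Real.sqrt (nsq φ)) :
    ‖gr (pq_conj hd) (iop k Θ (pex d)) (BB (TT k Θ) l) u‖ ≤ ε := by
  apply le_norm_of_dense (dense_emb (k := k) (Θ := Θ)) hε
  intro ψ
  rw [gr_rep hd hE h]
  have h3 := h2 _ (invTest_tst ψ)
  rw [nsq_rep, Real.sqrt_sq (norm_nonneg _)] at h3
  exact h3

include hE in
lemma dJJ_le {u : VV k Θ} {v : EE k d → ℝ} {G : Ix k d → EE k d → ℝ} (h : Rep u v G) {l ε : ℝ}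
    (h2 : ‖gr (pq_conj hd) (iop k Θ (pex d)) (BB (TT k Θ) l) u‖ ≤ ε) {φ : EE k d → ℝ}
    (hφ : InvTest k Θ.S φ) : |dJJ l v G φ| ≤ ε * Real.sqrt (nsq φ) := by
  have e1 := lift_toT hφ
  rw [← e1, ← gr_rep hd hE h l (toT hφ), nsq_rep, Real.sqrt_sq (norm_nonneg _)]
  exact (abs_real_inner_le_norm _ _).trans (mul_le_mul_of_nonneg_right h2 (norm_nonneg _))

include hE in
lemma PS_iff (l τ : ℝ) : PSi k Θ.S l τ ↔
    ∃ u : ℕ → VV k Θ, Tendsto (fun j => En (iop k Θ (pex d)) (BB (TT k Θ) l) (u j)) atTop (𝓝 τ) ∧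
      Tendsto (fun j => ‖gr (pq_conj hd) (iop k Θ (pex d)) (BB (TT k Θ) l) (u j)‖) atTop (𝓝 0) := by
  constructor
  · rintro ⟨v, G, h1, h2, h3⟩
    choose u hu using fun n => rep_of_inH (h1 n)
    refine ⟨u, h2.congr fun n => (En_rep hE (hu n) l).symm, ?_⟩
    rw [Metric.tendsto_atTop]
    intro ε hε
    obtain ⟨n₀, hn₀⟩ := eventually_atTop.1 (h3 (ε / 2) (half_pos hε))
    refine ⟨n₀, fun n hn => ?_⟩
    have h4 := norm_gr_le hd hE (hu n) (half_pos hε).le (hn₀ n hn)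
    have h5 := norm_nonneg (gr (pq_conj hd) (iop k Θ (pex d)) (BB (TT k Θ) l) (u n))
    rw [Real.dist_eq, sub_zero, abs_of_nonneg h5]
    linarith
  · rintro ⟨u, h2, h3⟩
    choose v G hu using fun n => exists_rep (u n)
    refine ⟨v, G, fun n => inH_of_rep (hu n), h2.congr fun n => En_rep hE (hu n) l, ?_⟩
    intro ε hε
    have h4 := (Metric.tendsto_atTop.1 h3) ε hε
    obtain ⟨n₀, hn₀⟩ := h4
    filter_upwards [eventually_ge_atTop n₀] with n hn φ hφ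
    have h5 := hn₀ n hn
    have h6 := norm_nonneg (gr (pq_conj hd) (iop k Θ (pex d)) (BB (TT k Θ) l) (u n))
    rw [Real.dist_eq, sub_zero, abs_of_nonneg h6] at h5
    exact dJJ_le hd hE (hu n) h5.le hφ

include hE in
lemma ell_eq (l : ℝ) :
    elli k Θ.S l = sInf (PSset (pq_conj hd) (iop k Θ (pex d)) (BB (TT k Θ) l)) := by
  unfold elli PSset
  congr 1
  ext τ
  rw [mem_ofPred_eq, mem_ofPred_eq, PS_iff hd hE]

include hE in
theorem hasGS_iff (l : ℝ) :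
    HasGSi k Θ.S l ↔ Ground (pq_conj hd) (iop k Θ (pex d)) (BB (TT k Θ) l) := by
  constructor
  · rintro ⟨v, G, h1, h2, h3⟩
    obtain ⟨u, hu⟩ := rep_of_inH h1
    refine ⟨u, ?_, ?_⟩
    · apply eq_zero_of_dense (dense_emb (k := k) (Θ := Θ))
      intro ψ
      rw [gr_rep hd hE hu]
      exact h2 _ (invTest_tst ψ)
    · rw [En_rep hE hu, h3, ell_eq hd hE]
  · rintro ⟨u, h2, h3⟩
    obtain ⟨v, G, hu⟩ := exists_rep u
    refine ⟨v, G, inH_of_rep hu, ?_, ?_⟩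
    · intro φ hφ
      rw [← lift_toT hφ, ← gr_rep hd hE hu l (toT hφ), h2, inner_zero_left]
    · rw [← En_rep hE hu, h3, ell_eq hd hE]

end ps

/-! ### eigenvalues -/

section abs

variable {V : Type*} [NormedAddCommGroup V] [InnerProductSpace ℝ V]

lemma eig_inner {T : V →L[ℝ] V} {u w : V} {s : ℝ} (hs : (s + 1) • T u = u) :
    ⟪u, w⟫_ℝ = (s + 1) * ⟪T u, w⟫_ℝ := by
  rw [← real_inner_smul_left, hs]

lemma eig_of_inner {T : V →L[ℝ] V} {A : Type*} {e : A → V} (he : DenseRange e) {u : V} {s : ℝ}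
    (h : ∀ t, ⟪u, e t⟫_ℝ = (s + 1) * ⟪T u, e t⟫_ℝ) : (s + 1) • T u = u := by
  have h0 : (s + 1) • T u - u = 0 := by
    apply eq_zero_of_dense he
    intro t
    rw [inner_sub_left, real_inner_smul_left, h t, sub_self]
  exact sub_eq_zero.1 h0

end abs

lemma isEig_of_rep {u : VV k Θ} {v : EE k d → ℝ} {G : Ix k d → EE k d → ℝ} (h : Rep u v G) {s : ℝ}
    (hs : (s + 1) • TT k Θ u = u) : IsEigi k Θ.S s v G := by
  refine ⟨inH_of_rep h, fun φ hφ => ?_⟩
  have h1 := inner_rep h (rep_emb (toT hφ))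
  have h2 := inner_TT_rep h (rep_emb (toT hφ))
  rw [lift_toT hφ] at h1 h2
  have h3 := eig_inner (w := emb k Θ (toT hφ)) hs
  rw [h1, h2] at h3
  linarith

lemma rep_of_isEig {u : VV k Θ} {v : EE k d → ℝ} {G : Ix k d → EE k d → ℝ} (h : Rep u v G) {s : ℝ}
    (hs : IsEigi k Θ.S s v G) : (s + 1) • TT k Θ u = u := by
  apply eig_of_inner (dense_emb (k := k) (Θ := Θ))
  intro ψ
  rw [inner_TT_rep h (rep_emb ψ), inner_rep h (rep_emb ψ), hs.2 _ (invTest_tst ψ)]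
  ring

lemma manyEig_iff {m : ℕ} {t : ℝ} (ht : 0 ≤ t) :
    ManyEigi k Θ.S m t ↔ m ≤ NN (TT k Θ) t := by
  constructor
  · rintro ⟨v, G, h1, h2⟩
    choose μ hμ hE using h1
    choose u hu using fun i => rep_of_inH (hE i).1
    apply le_NN_of_eigfamily (isCompact_TT (k := k) (Θ := Θ)) TT_symm ht (e := u)
    · intro i
      have h3 := rep_of_isEig (hu i) (hE i)
      refine ⟨μ i, hμ i, ?_, h3⟩
      -- `⟪u, u⟫ = (μ + 1) ⟪T u, u⟫` and `⟪T u, u⟫ = 1`
      have h4 : ⟪TT k Θ (u i), u i⟫_ℝ = 1 := by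
        rw [inner_TT_rep (hu i) (hu i), h2 i i, if_pos rfl]
      have h5 : ⟪u i, u i⟫_ℝ = μ i + 1 := by
        rw [eig_inner (w := u i) h3, h4, mul_one]
      have h6 : u i ≠ 0 := by
        intro h0
        rw [h0, map_zero, inner_zero_left] at h4
        exact zero_ne_one h4
      rw [← h5, real_inner_self_eq_norm_sq]
      have := norm_pos_iff.2 h6
      positivity
    · intro i j
      rw [inner_TT_rep (hu i) (hu j), h2 i j]
  · intro h
    obtain ⟨e, h1, h2⟩ := eigfamily_of_le_NN (isCompact_TT (k := k) (Θ := Θ)) TT_symm ht h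
    choose v G hu using fun i => exists_rep (e i)
    refine ⟨v, G, fun i => ?_, fun i j => ?_⟩
    · obtain ⟨s, hs1, -, hs3⟩ := h1 i
      exact ⟨s, hs1, isEig_of_rep (hu i) hs3⟩
    · rw [← inner_TT_rep (hu i) (hu j), h2]

lemma lam_eq (m : ℕ) : lami k Θ.S m = lamD k Θ m := by
  unfold lami lamD lamA
  congr 1
  ext t
  rw [mem_ofPred_eq, mem_ofPred_eq]
  constructor
  · rintro ⟨h1, h2⟩
    exact ⟨h1, (manyEig_iff h1).1 h2⟩
  · rintro ⟨h1, h2⟩
    exact ⟨h1, (manyEig_iff h1).2 h2⟩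

end Pool.Agent.H56.BN
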