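import Mathlib
import Pool.Agent.H56.BN.Av5
import Pool.Agent.H56.BN.Fin4

/-!
The definitions with all test functions and with invariant test functions agree.
-/

set_option autoImplicit false
set_option maxHeartbeats 1000000

namespace Pool.Agent.H56.BN

open MeasureTheory Filter Topology Set
open scoped ContDiff InnerProductSpace

variable {k d : ℕ} {Θ : Dom d}

/-- `U` is represented by `v` with gradient `G` -/
structure RepH (U : HH k d) (v : EE k d → ℝ) (G : Ix k d → EE k d → ℝ) : Prop where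
  fn : v =ᵐ[volume] comp k d none U
  gr : ∀ i, G i =ᵐ[volume] comp k d (some i) U

lemma repH_inner {U U' : HH k d} {v v' : EE k d → ℝ} {G G' : Ix k d → EE k d → ℝ}
    (h : RepH U v G) (h' : RepH U' v' G') :
    ⟪U, U'⟫_ℝ = (∫ X, v X * v' X) + ∑ i, ∫ X, G i X * G' i X := by
  rw [inner_HH, Fintype.sum_option]
  congr 1
  · apply integral_congr_ae
    filter_upwards [h.fn, h'.fn] with X h1 h2
    rw [h1, h2]
  · apply Finset.sum_congr rfl
    intro i _
    apply integral_congr_ae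
    filter_upwards [h.gr i, h'.gr i] with X h1 h2
    rw [h1, h2]

lemma exists_repH {v : EE k d → ℝ} {G : Ix k d → EE k d → ℝ} (hv : MemLp v 2)
    (hG : ∀ i, MemLp (G i) 2) : ∃ U : HH k d, RepH U v G := by
  have hmem : MemLp (fun X => (WithLp.toLp 2 (fun o : CI k d => o.elim (v X) (fun i => G i X)) :
      FF k d)) 2 (volume : Measure (EE k d)) := by
    apply MemLp.of_eval_piLp
    rintro (_ | i)
    · exact hv
    · exact hG i
  obtain ⟨U, hU⟩ : ∃ U : HH k d, U = hmem.toLp _ := ⟨_, rfl⟩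
  have hUae : U =ᵐ[volume] fun X => (WithLp.toLp 2 (fun o : CI k d =>
      o.elim (v X) (fun i => G i X)) : FF k d) := by
    rw [hU]; exact MemLp.coeFn_toLp hmem
  refine ⟨U, ?_, fun i => ?_⟩
  · filter_upwards [coeFn_comp none U, hUae] with X h1 h2
    rw [h1, h2]
    rfl
  · filter_upwards [coeFn_comp (some i) U, hUae] with X h1 h2
    rw [h1, h2]
    rfl

lemma exists_repC {φ : EE k d → ℝ} (h : CcE φ) : ∃ U : HH k d, RepH U φ (pd φ) :=
  exists_repH h.memLp fun i => (h.pd i).memLp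

lemma repH_lim {u : ℕ → HH k d} {U : HH k d} {f : ℕ → EE k d → ℝ} {v : EE k d → ℝ}
    {F : ℕ → Ix k d → EE k d → ℝ} {G : Ix k d → EE k d → ℝ} (hu : ∀ n, RepH (u n) (f n) (F n))
    (hU : RepH U v G) (h1 : Tendsto (fun n => ∫ X, (f n X - v X) ^ 2) atTop (𝓝 0))
    (h2 : ∀ i, Tendsto (fun n => ∫ X, (F n i X - G i X) ^ 2) atTop (𝓝 0)) :
    Tendsto u atTop (𝓝 U) := by
  rw [tendsto_HH]
  rintro (_ | i)
  · rw [tendsto_L2]
    refine h1.congr fun n => ?_
    apply integral_congr_ae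
    filter_upwards [(hu n).fn, hU.fn] with X h3 h4
    rw [h3, h4]
  · rw [tendsto_L2]
    refine (h2 i).congr fun n => ?_
    apply integral_congr_ae
    filter_upwards [(hu n).gr i, hU.gr i] with X h3 h4
    rw [h3, h4]

lemma repH_unique {U U' : HH k d} {v : EE k d → ℝ} {G : Ix k d → EE k d → ℝ} (h : RepH U v G)
    (h' : RepH U' v G) : U = U' := by
  have h1 : U - U' = 0 := by
    have h2 : ⟪U - U', U - U'⟫_ℝ = 0 := by
      rw [inner_sub_left, inner_sub_right, inner_sub_right, repH_inner h h, repH_inner h h',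
        repH_inner h' h, repH_inner h' h']
      ring
    exact inner_self_eq_zero.1 h2
  exact sub_eq_zero.1 h1

/-- the invariant functions of `H_0^1(Ω)` are limits of invariant test functions -/
theorem inHi_of_inH {v : EE k d → ℝ} {G : Ix k d → EE k d → ℝ} (h : InH k Θ.S v G) :
    InHi k Θ.S v G := by
  obtain ⟨U, hU⟩ := exists_repH h.mem h.grad
  -- the projection
  obtain ⟨P, hP, W, hW, hPW⟩ := (VV k Θ).exists_add_mem_mem_orthogonal U
  obtain ⟨v', G', hr⟩ := exists_rep (k := k) (Θ := Θ) ⟨P, hP⟩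
  have hPr : RepH P v' G' := ⟨hr.fn, hr.gr⟩
  have hPH : InH k Θ.S v' G' := inH_of_inHi (inH_of_rep hr)
  -- the rest is orthogonal to all test functions
  have key : ∀ (φ : EE k d → ℝ) (J : HH k d), IsCc k Θ.S φ → RepH J φ (pd φ) →
      ⟪W, J⟫_ℝ = 0 := by
    intro φ J hφ hJ
    have hA := hφ.avg
    obtain ⟨JA, hJA⟩ := exists_repC hA.ccE
    have hJV : JA ∈ VV k Θ := by
      have h1 := rep_emb (k := k) (toT hA)
      rw [lift_toT hA] at h1
      have h2 : RepH (emb k Θ (toT hA) : HH k d) (Avg φ) (pd (Avg φ)) := ⟨h1.fn, h1.gr⟩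
      rw [repH_unique hJA h2]
      exact (emb k Θ (toT hA)).2
    have hW1 : ⟪W, JA⟫_ℝ = 0 := by
      rw [real_inner_comm]
      exact (Submodule.mem_orthogonal _ _).1 hW JA hJV
    have hWe : W = U - P := by rw [hPW]; abel
    rw [hWe, inner_sub_left, repH_inner hU hJ, repH_inner hPr hJ]
    rw [hWe, inner_sub_left, repH_inner hU hJA, repH_inner hPr hJA] at hW1
    obtain ⟨a1, a2⟩ := pair_Avg h hφ.ccE
    obtain ⟨b1, b2⟩ := pair_Avg hPH hφ.ccE
    rw [← a1, ← a2, ← b1, ← b2]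
    exact hW1
  obtain ⟨f, h3, h4, h5⟩ := h.lim
  choose J hJ using fun n => exists_repC (h3 n).ccE
  have hlim : Tendsto J atTop (𝓝 U) := repH_lim hJ hU h4 h5
  have hWU : ⟪W, U⟫_ℝ = 0 := by
    have t1 : Tendsto (fun n => ⟪W, J n⟫_ℝ) atTop (𝓝 ⟪W, U⟫_ℝ) :=
      tendsto_const_nhds.inner hlim
    have t2 : ∀ n, ⟪W, J n⟫_ℝ = 0 := fun n => key (f n) (J n) (h3 n) (hJ n)
    simp only [t2] at t1
    exact (tendsto_nhds_unique t1 tendsto_const_nhds).symm ▸ rfl
  have hWP : ⟪W, P⟫_ℝ = 0 := by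
    rw [real_inner_comm]
    exact (Submodule.mem_orthogonal _ _).1 hW P hP
  have hW0 : W = 0 := by
    have : ⟪W, W⟫_ℝ = 0 := by
      nth_rewrite 2 [show W = U - P by rw [hPW]; abel]
      rw [inner_sub_right, hWU, hWP, sub_zero]
    exact inner_self_eq_zero.1 this
  have hUP : U = P := by rw [hPW, hW0, add_zero]
  have hUV : U ∈ VV k Θ := by rw [hUP]; exact hP
  have hfin : Rep (⟨U, hUV⟩ : VV k Θ) v G := ⟨hU.fn, hU.gr⟩
  exact inH_of_rep hfin

lemma inH_iff {v : EE k d → ℝ} {G : Ix k d → EE k d → ℝ} :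
    InH k Θ.S v G ↔ InHi k Θ.S v G := ⟨inHi_of_inH, inH_of_inHi⟩

/-! ### eigenvalues -/

lemma isEig_iff {μ : ℝ} {v : EE k d → ℝ} {G : Ix k d → EE k d → ℝ} :
    IsEig k Θ.S μ v G ↔ IsEigi k Θ.S μ v G := by
  constructor
  · rintro ⟨h1, h2⟩
    exact ⟨inHi_of_inH h1, fun φ hφ => h2 φ hφ.isCc⟩
  · rintro ⟨h1, h2⟩
    refine ⟨inH_of_inHi h1, fun φ hφ => ?_⟩
    obtain ⟨a1, a2⟩ := pair_Avg (inH_of_inHi h1) hφ.ccE
    rw [← a1, ← a2]
    exact h2 _ hφ.avg

lemma lam_eq_lami (m : ℕ) : lam k Θ.S m = lami k Θ.S m := by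
  unfold lam lami ManyEig ManyEigi
  simp only [isEig_iff]

lemma lam_eq' (m : ℕ) : lam k Θ.S m = lamD k Θ m := by
  rw [lam_eq_lami, lam_eq]

/-! ### Palais-Smale sequences -/

section ps

variable (hd : 2 ≤ d) [Fact (1 < pex d)] [Fact (1 < qex d)] (hE : HasEmb k Θ (pex d))

include hd hE in
lemma dJJ_Avg {v : EE k d → ℝ} {G : Ix k d → EE k d → ℝ} (h : InHi k Θ.S v G)
    {φ : EE k d → ℝ} (hφ : CcE φ) (l : ℝ) : dJJ l v G (Avg φ) = dJJ l v G φ := by
  have hH := inH_of_inHi h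
  obtain ⟨a1, a2⟩ := pair_Avg hH hφ
  obtain ⟨u, hu⟩ := rep_of_inH h
  have h1 : (fun X => |v X| ^ (pex d - 2) * v X) =ᵐ[volume]
      Jm (pq_conj hd) (iop k Θ (pex d) u) := by
    filter_upwards [iop_rep hE hu, coeFn_Jm (pq_conj hd) (iop k Θ (pex d) u)] with X h2 h3
    rw [h3, h2]
    rfl
  have h2 : MemLp (fun X => |v X| ^ (pex d - 2) * v X) (ENNReal.ofReal (qex d))
      (volume : Measure (EE k d)) := (memLp_congr_ae h1).2 (Lp.memLp _)
  have hq : (1 : ENNReal) ≤ ENNReal.ofReal (qex d) := by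
    rw [ENNReal.one_le_ofReal]
    exact (show 1 < qex d from Fact.out).le
  have h3 := int_Avg (h2.locallyIntegrable hq) (fun g => ?_) hφ.smooth.continuous hφ.cpt
  · unfold dJJ
    rw [a1, a2]
    rw [show (∫ X, |v X| ^ (pex d - 2) * v X * Avg φ X) =
      ∫ X, |v X| ^ (pex d - 2) * v X * φ X from h3]
  · filter_upwards [inv_act hH.inv g] with X hX
    rw [hX]

include hd hE in
lemma PS_iff' (l τ : ℝ) : PSlevel k Θ.S l τ ↔ PSi k Θ.S l τ := by
  constructor
  · rintro ⟨v, G, h1, h2, h3⟩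
    refine ⟨v, G, fun n => inHi_of_inH (h1 n), h2, fun ε hε => ?_⟩
    filter_upwards [h3 ε hε] with n hn φ hφ
    exact hn φ hφ.isCc
  · rintro ⟨v, G, h1, h2, h3⟩
    refine ⟨v, G, fun n => inH_of_inHi (h1 n), h2, fun ε hε => ?_⟩
    filter_upwards [h3 ε hε] with n hn φ hφ
    rw [← dJJ_Avg hd hE (h1 n) hφ.ccE]
    refine (hn _ hφ.avg).trans ?_
    exact mul_le_mul_of_nonneg_left (Real.sqrt_le_sqrt (nsq_Avg hφ.ccE)) hε.le

include hd hE in
lemma ell_eq' (l : ℝ) : ell k Θ.S l = elli k Θ.S l := by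
  unfold ell elli
  simp only [PS_iff' hd hE]

include hE in
theorem hasGS_iff' (l : ℝ) :
    HasGS k Θ.S l ↔ Ground (pq_conj hd) (iop k Θ (pex d)) (BB (TT k Θ) l) := by
  rw [← hasGS_iff hd hE]
  constructor
  · rintro ⟨v, G, h1, h2, h3⟩
    exact ⟨v, G, inHi_of_inH h1, fun φ hφ => h2 φ hφ.isCc, by rw [h3, ell_eq' hd hE]⟩
  · rintro ⟨v, G, h1, h2, h3⟩
    refine ⟨v, G, inH_of_inHi h1, fun φ hφ => ?_, by rw [h3, ell_eq' hd hE]⟩
    rw [← dJJ_Avg hd hE h1 hφ.ccE]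
    exact h2 _ hφ.avg

end ps

end Pool.Agent.H56.BN
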