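import Mathlib
import Pool.Agent.H56.BN.Hardy2

/-!
Consequences of the Hardy inequality.
-/

set_option autoImplicit false
set_option maxHeartbeats 1000000

namespace Pool.Agent.H56.BN

open MeasureTheory Filter Topology Set
open scoped ContDiff

variable {k d : ℕ}

lemma gx_eq (hd : 2 ≤ d) : gx k d = 2 * k / (d + 1) := by
  unfold gx sx pex
  have : (2:ℝ) ≤ d := by exact_mod_cast hd
  have h1 : (d:ℝ) - 1 ≠ 0 := by linarith
  have h3 : (d:ℝ) + 1 ≠ 0 := by linarith
  field_simp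
  ring

lemma gx_pos (hk : 1 ≤ k) (hd : 2 ≤ d) : 0 < gx k d := by
  rw [gx_eq hd]
  have : (1:ℝ) ≤ k := by exact_mod_cast hk
  positivity

lemma rpow_diff {γ α x : ℝ} (hγ : 0 < γ) (hα : 0 ≤ α) (hx : α < x) :
    min γ 1 * (x ^ (γ - 1) * (x - α)) ≤ x ^ γ - α ^ γ := by
  have hx0 : 0 < x := lt_of_le_of_lt hα hx
  have e1 : x ^ γ = x ^ (γ - 1) * x := by
    rw [Real.rpow_sub hx0, Real.rpow_one]; field_simp
  have hp : 0 < x ^ (γ - 1) := Real.rpow_pos_of_pos hx0 _
  rcases le_or_gt 1 γ with h | h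
  · rw [min_eq_right h, one_mul]
    have h1 : α ^ γ ≤ x ^ (γ - 1) * α := by
      rcases hα.eq_or_lt with h0 | h0
      · rw [← h0, Real.zero_rpow (by linarith), mul_zero]
      · have e2 : α ^ γ = α ^ (γ - 1) * α := by
          rw [Real.rpow_sub h0, Real.rpow_one]; field_simp
        rw [e2]
        exact mul_le_mul_of_nonneg_right (Real.rpow_le_rpow h0.le hx.le (by linarith)) h0.le
    rw [e1]
    nlinarith
  · rw [min_eq_left h.le]
    have h1 := rpow_one_add_le_one_add_mul_self (s := α / x - 1)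
      (by have : 0 ≤ α / x := by positivity
          linarith) hγ.le h.le
    rw [add_sub_cancel, Real.div_rpow hα hx0.le] at h1
    have h2 : 0 < x ^ γ := Real.rpow_pos_of_pos hx0 _
    rw [div_le_iff₀ h2] at h1
    have e3 : (1 + γ * (α / x - 1)) * x ^ γ = x ^ γ + γ * (x ^ (γ - 1) * (α - x)) := by
      rw [e1]; field_simp
    rw [e3] at h1
    linarith

lemma npp_tw (hd : 2 ≤ d) {S : Set (PP d)} {φ : PP d → ℝ} (h : IsTest S φ) (hS : S ⊆ HP d) :
    ∫ P, |tw k φ P| ^ pex d = npp k (pex d) φ := by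
  have hp0 : 0 < pex d := by have := pex_gt hd; linarith
  unfold npp
  congr 1
  funext P
  by_cases hP : P ∈ HP d
  · have hx : 0 < P.1 := hP
    unfold tw
    rw [abs_mul, abs_of_pos (Real.rpow_pos_of_pos hx _), Real.mul_rpow (by positivity)
      (abs_nonneg _), ← Real.rpow_mul hx.le]
    congr 1
    have : sx k d * pex d = k := by unfold sx; field_simp
    rw [this, Real.rpow_natCast]
  · have h0 : φ P = 0 := h.eq_zero fun h' => hP (hS h')
    unfold tw
    rw [h0, mul_zero, abs_zero, Real.zero_rpow hp0.ne', mul_zero]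

/-- Hardy-Sobolev with the sharp constant at distance `α` -/
theorem hardy_one (hk : 1 ≤ k) (hd : 2 ≤ d) {α σ : ℝ} (hα : 0 ≤ α) (hσ : 0 < σ) {j : Fin d}
    (hσ1 : 1 ≤ min (gx k d) 1 / (4 * σ ^ 2) + sx k d * (k - 1 - sx k d))
    {S : Set (PP d)} {φ : PP d → ℝ} (h : IsTest S φ) (hS : S ⊆ NS α σ j) :
    α ^ gx k d * (SS d * (npp k (pex d) φ) ^ (2 / pex d)) + h2 k φ ≤ q0 k φ := by
  have hγ := gx_pos hk hd
  have hHP : S ⊆ HP d := hS.trans (NS_HP hα j)
  have h1 := hardy_gen hk hα hσ h hS (B := α ^ gx k d) (κ := 1)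
    (fun P hP => Real.rpow_le_rpow hα (hS (h.supp hP)).1.le hγ.le) (fun P hP => by
      have hPS := (hS (h.supp hP)).1
      set x := P.1 with hx
      have hx0 : 0 < x := lt_of_le_of_lt hα hPS
      have hxa : 0 < x - α := by linarith
      have h2 := rpow_diff hγ hα hPS
      have h3 : 0 < x ^ (gx k d - 2) := Real.rpow_pos_of_pos hx0 _
      have h4 : min (gx k d) 1 / (4 * σ ^ 2) * x ^ (gx k d - 2) ≤
          (x ^ gx k d - α ^ gx k d) * ax α σ x := by
        unfold ax
        rw [mul_one_div, le_div_iff₀ (by positivity)]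
        refine le_trans (le_of_eq ?_) h2
        have e1 : x ^ (gx k d - 1) = x ^ (gx k d - 2) * x := by
          nth_rewrite 3 [← Real.rpow_one x]
          rw [← Real.rpow_add hx0]; congr 1; ring
        rw [e1]
        field_simp
      have h5 := mul_le_mul_of_nonneg_right hσ1 h3.le
      linarith)
  have h3 := SS_le hd ((isTest_tw (k := k) h hHP).mono (subset_univ _))
  rw [npp_tw hd h hHP] at h3
  have h4 : 0 ≤ α ^ gx k d := Real.rpow_nonneg hα _
  have h5 := mul_le_mul_of_nonneg_left h3 h4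
  linarith

/-- Hardy-Sobolev away from the tip -/
theorem hardy_two (hk : 1 ≤ k) (hd : 2 ≤ d) {α σ r : ℝ} (hα : 0 ≤ α) (hσ : 0 < σ) (hr : 0 < r)
    {j : Fin d} (hσ2 : 0 ≤ 1 / (8 * σ ^ 2) + sx k d * (k - 1 - sx k d))
    {S : Set (PP d)} {φ : PP d → ℝ} (h : IsTest S φ) (hS : S ⊆ NS α σ j)
    (hφ : ∀ P ∈ tsupport φ, r ≤ P.1) :
    (1 / 2) * r ^ gx k d * (SS d * (npp k (pex d) φ) ^ (2 / pex d)) ≤ q0 k φ := by
  have hγ := gx_pos hk hd
  have hHP : S ⊆ HP d := hS.trans (NS_HP hα j)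
  have h1 := hardy_gen hk hα hσ h hS (B := (1 / 2) * r ^ gx k d) (κ := 0)
    (fun P hP => by
      have h2 := Real.rpow_le_rpow hr.le (hφ P hP) hγ.le
      have h3 : 0 < r ^ gx k d := Real.rpow_pos_of_pos hr _
      linarith) (fun P hP => by
      have hPS := (hS (h.supp hP)).1
      have hPr := hφ P hP
      set x := P.1 with hx
      have hx0 : 0 < x := lt_of_le_of_lt hα hPS
      have hxa : 0 < x - α := by linarith
      have h2 := Real.rpow_le_rpow hr.le hPr hγ.le
      have h3 : 0 < x ^ (gx k d - 2) := Real.rpow_pos_of_pos hx0 _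
      have h4 : 1 / (8 * σ ^ 2) * x ^ (gx k d - 2) ≤
          (x ^ gx k d - (1 / 2) * r ^ gx k d) * ax α σ x := by
        have e1 : x ^ gx k d = x ^ (gx k d - 2) * x ^ 2 := by
          rw [← Real.rpow_natCast x 2, ← Real.rpow_add hx0]; congr 1; push_cast; ring
        have h5 : (1 / 2) * x ^ gx k d ≤ x ^ gx k d - (1 / 2) * r ^ gx k d := by linarith
        have h6 : 1 / (4 * σ ^ 2 * x ^ 2) ≤ ax α σ x := by
          unfold ax
          apply one_div_le_one_div_of_le (by positivity)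
          have : x * (x - α) ≤ x ^ 2 := by nlinarith
          gcongr
        calc 1 / (8 * σ ^ 2) * x ^ (gx k d - 2)
            = ((1 / 2) * x ^ gx k d) * (1 / (4 * σ ^ 2 * x ^ 2)) := by
              rw [e1]; field_simp; ring
          _ ≤ ((1 / 2) * x ^ gx k d) * ax α σ x :=
              mul_le_mul_of_nonneg_left h6 (by positivity)
          _ ≤ _ := mul_le_mul_of_nonneg_right h5 (ax_pos hα hσ hPS).le
      have h5 := mul_nonneg hσ2 h3.le
      rw [zero_mul]
      linarith)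
  have h3 := SS_le hd ((isTest_tw (k := k) h hHP).mono (subset_univ _))
  rw [npp_tw hd h hHP] at h3
  have h4 : 0 ≤ (1 / 2) * r ^ gx k d := by positivity
  have h5 := mul_le_mul_of_nonneg_left h3 h4
  linarith

/-- the width can be chosen -/
lemma exists_sigma (hk : 1 ≤ k) (hd : 2 ≤ d) : ∃ σ : ℝ, 0 < σ ∧ σ ≤ 1 ∧
    1 ≤ min (gx k d) 1 / (4 * σ ^ 2) + sx k d * (k - 1 - sx k d) ∧
    0 ≤ 1 / (8 * σ ^ 2) + sx k d * (k - 1 - sx k d) := by
  have hγ := gx_pos hk hd
  set m := min (gx k d) 1 with hm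
  have hm0 : 0 < m := lt_min hγ one_pos
  have hm1 : m ≤ 1 := min_le_right _ _
  set A := |sx k d * (k - 1 - sx k d)| with hA
  have hA0 : 0 ≤ A := abs_nonneg _
  have hA1 : -A ≤ sx k d * (k - 1 - sx k d) := neg_abs_le _
  set σ := Real.sqrt (m / (8 * (1 + A))) with hσ
  have hs : σ ^ 2 = m / (8 * (1 + A)) := Real.sq_sqrt (by positivity)
  refine ⟨σ, Real.sqrt_pos.2 (by positivity), ?_, ?_, ?_⟩
  · rw [hσ, Real.sqrt_le_iff]
    refine ⟨zero_le_one, ?_⟩
    rw [one_pow]
    rw [div_le_one (by positivity)]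
    linarith
  · rw [hs]
    have : m / (4 * (m / (8 * (1 + A)))) = 2 * (1 + A) := by field_simp; ring
    rw [this]; linarith
  · rw [hs]
    have : 1 / (8 * (m / (8 * (1 + A)))) = (1 + A) / m := by field_simp
    rw [this]
    have h1 : 1 + A ≤ (1 + A) / m := by
      rw [le_div_iff₀ hm0]; nlinarith
    linarith

end Pool.Agent.H56.BN
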