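import Mathlib
import Pool.Agent.H56.BN.Hardy3
import Pool.Agent.H56.BN.Bst
import Pool.Agent.H56.BN.LpFacts

/-!
Localisation.
-/

set_option autoImplicit false
set_option maxHeartbeats 1000000

namespace Pool.Agent.H56.BN

open MeasureTheory Filter Topology Set
open scoped ContDiff

variable {k d : ℕ}

/-- logarithmic cut-off angle -/
lemma exists_cut {ε : ℝ} (hε : 0 < ε) : ∃ L : ℝ, 1 < L ∧ ∀ r : ℝ, 0 < r → ∃ ϑ : ℝ → ℝ,
    ContDiffOn ℝ ∞ ϑ (Ioi 0) ∧ (∀ x, 0 < x → x ≤ r → ϑ x = 0) ∧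
    (∀ x, L * r ≤ x → ϑ x = Real.pi / 2) ∧
    (∀ x, 0 < x → ∃ c : ℝ, HasDerivAt ϑ c x ∧ c ^ 2 ≤ ε / x ^ 2) ∧
    ∀ x, 0 ≤ Real.sin (ϑ x) := by
  obtain ⟨C, hC0, hC⟩ := exists_bound_st
  have hpi := Real.pi_pos
  set A : ℝ := (Real.pi / 2 * C + 1) / Real.sqrt ε with hA
  have hsε : 0 < Real.sqrt ε := Real.sqrt_pos.2 hε
  have hA0 : 0 < A := by positivity
  refine ⟨Real.exp A, by rw [Real.one_lt_exp_iff]; exact hA0, fun r hr => ?_⟩
  refine ⟨fun x => Real.pi / 2 * Real.smoothTransition (Real.log (x / r) / A), ?_, ?_, ?_, ?_, ?_⟩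
  · apply contDiffOn_const.mul
    apply Real.smoothTransition.contDiff.comp_contDiffOn
    apply ContDiffOn.div_const
    intro x hx
    have hx' : (0:ℝ) < x := hx
    apply ContDiffAt.contDiffWithinAt
    have h1 : ContDiffAt ℝ ∞ (fun x : ℝ => x / r) x := contDiffAt_id.div_const r
    exact (Real.contDiffAt_log.2 (by positivity)).comp x h1
  · intro x hx hxr
    have h1 : Real.log (x / r) / A ≤ 0 := by
      apply div_nonpos_of_nonpos_of_nonneg _ hA0.le
      apply Real.log_nonpos (by positivity)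
      rw [div_le_one hr]; exact hxr
    simp only
    rw [Real.smoothTransition.zero_of_nonpos h1, mul_zero]
  · intro x hx
    have h1 : 1 ≤ Real.log (x / r) / A := by
      rw [le_div_iff₀ hA0, one_mul]
      have h2 : Real.exp A ≤ x / r := by rw [le_div_iff₀ hr]; exact hx
      have h3 := Real.log_le_log (Real.exp_pos A) h2
      rwa [Real.log_exp] at h3
    simp only
    rw [Real.smoothTransition.one_of_one_le h1, mul_one]
  · intro x hx
    have h1 : HasDerivAt (fun x : ℝ => Real.log (x / r) / A) (1 / x / A) x := by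
      have h2 : HasDerivAt (fun x : ℝ => x / r) (1 / r) x := (hasDerivAt_id x).div_const r
      have h3 := ((Real.hasDerivAt_log (by positivity : x / r ≠ 0)).comp x h2).div_const A
      refine h3.congr_deriv ?_
      field_simp
    have h4 : HasDerivAt Real.smoothTransition
        (deriv Real.smoothTransition (Real.log (x / r) / A)) (Real.log (x / r) / A) :=
      ((Real.smoothTransition.contDiff (n := 1)).differentiable (by norm_num) _).hasDerivAt
    have h5 := (h4.comp x h1).const_mul (Real.pi / 2)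
    refine ⟨_, h5, ?_⟩
    set D := deriv Real.smoothTransition (Real.log (x / r) / A) with hD
    have h6 : |D| ≤ C := hC _
    have h7 : (Real.pi / 2 * (D * (1 / x / A))) ^ 2 = (Real.pi / 2 * D / A) ^ 2 / x ^ 2 := by
      field_simp
    rw [h7]
    apply div_le_div_of_nonneg_right _ (by positivity)
    have h8 : |Real.pi / 2 * D / A| ≤ Real.sqrt ε := by
      rw [abs_div, abs_mul, abs_of_pos hA0, abs_of_pos (by positivity : 0 < Real.pi / 2),
        div_le_iff₀ hA0, hA]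
      have : Real.sqrt ε * ((Real.pi / 2 * C + 1) / Real.sqrt ε) = Real.pi / 2 * C + 1 := by
        field_simp
      rw [this]
      have := mul_le_mul_of_nonneg_left h6 (by positivity : 0 ≤ Real.pi / 2)
      linarith
    rw [← sq_abs]
    calc |Real.pi / 2 * D / A| ^ 2 ≤ (Real.sqrt ε) ^ 2 := pow_le_pow_left₀ (abs_nonneg _) h8 2
      _ = ε := Real.sq_sqrt hε.le
  · intro x
    have h1 := Real.smoothTransition.nonneg (Real.log (x / r) / A)
    have h2 := Real.smoothTransition.le_one (Real.log (x / r) / A)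
    apply Real.sin_nonneg_of_nonneg_of_le_pi
    · positivity
    · nlinarith

section loc

variable {S : Set (PP d)} {φ : PP d → ℝ} {ϑ : ℝ → ℝ}

lemma isTest_cos (h : IsTest S φ) (hS : S ⊆ HP d) (hϑ : ContDiffOn ℝ ∞ ϑ (Ioi 0)) :
    IsTest S (fun P => Real.cos (ϑ P.1) * φ P) :=
  h.mul_fst (a := fun x => Real.cos (ϑ x)) (Real.contDiff_cos.comp_contDiffOn hϑ) hS

lemma isTest_sin (h : IsTest S φ) (hS : S ⊆ HP d) (hϑ : ContDiffOn ℝ ∞ ϑ (Ioi 0)) :
    IsTest S (fun P => Real.sin (ϑ P.1) * φ P) :=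
  h.mul_fst (a := fun x => Real.sin (ϑ x)) (Real.contDiff_sin.comp_contDiffOn hϑ) hS

lemma integrable_wt {χ : PP d → ℝ} (hχ : Continuous χ) (hc : HasCompactSupport χ) :
    Integrable (fun P : PP d => P.1 ^ k * χ P) (volume : Measure (PP d)) :=
  integrable_mul_of hχ hc isOpen_univ (continuous_fst.pow k).continuousOn (subset_univ _)

lemma integrable_h2 (h : IsTest S φ) (hS : S ⊆ HP d) :
    Integrable (fun P : PP d => P.1 ^ k * (φ P / P.1) ^ 2) (volume : Measure (PP d)) := by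
  have h1 := integrable_mul_of (a := fun P : PP d => P.1 ^ k * (P.1⁻¹) ^ 2) h.sq.continuous
    h.sq.cpt (isOpen_HP d) (by
      apply ContinuousOn.mul (continuous_fst.pow k).continuousOn
      apply ContinuousOn.pow
      exact continuous_fst.continuousOn.inv₀ (fun P hP => ne_of_gt hP)) (h.sq.supp.trans hS)
  refine h1.congr (ae_of_all _ fun P => ?_)
  show P.1 ^ k * (P.1⁻¹) ^ 2 * φ P ^ 2 = P.1 ^ k * (φ P / P.1) ^ 2
  rw [div_eq_mul_inv]; ring

/-- the localisation formula -/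
theorem ims (h : IsTest S φ) (hS : S ⊆ HP d) (hϑ : ContDiffOn ℝ ∞ ϑ (Ioi 0)) {ε : ℝ}
    (hd : ∀ x, 0 < x → ∃ c : ℝ, HasDerivAt ϑ c x ∧ c ^ 2 ≤ ε / x ^ 2) :
    q0 k (fun P => Real.cos (ϑ P.1) * φ P) + q0 k (fun P => Real.sin (ϑ P.1) * φ P) ≤
      q0 k φ + ε * h2 k φ := by
  have t1 := isTest_cos h hS hϑ
  have t2 := isTest_sin h hS hϑ
  have i1 : Integrable (fun P : PP d => P.1 ^ k * gsq (fun P => Real.cos (ϑ P.1) * φ P) P)
    (volume : Measure (PP d)) := integrable_wt (continuous_gsq t1.smooth) (hcs_gsq t1.cpt)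
  have i2 : Integrable (fun P : PP d => P.1 ^ k * gsq (fun P => Real.sin (ϑ P.1) * φ P) P)
    (volume : Measure (PP d)) := integrable_wt (continuous_gsq t2.smooth) (hcs_gsq t2.cpt)
  have i3 : Integrable (fun P : PP d => P.1 ^ k * gsq φ P)
    (volume : Measure (PP d)) := integrable_wt (continuous_gsq h.smooth) (hcs_gsq h.cpt)
  have i4 := integrable_h2 (k := k) h hS
  unfold q0 h2
  rw [← integral_add i1 i2, ← integral_const_mul, ← integral_add i3 (i4.const_mul ε)]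
  apply integral_mono (i1.add i2) (i3.add (i4.const_mul ε))
  intro P
  show P.1 ^ k * gsq (fun P => Real.cos (ϑ P.1) * φ P) P +
    P.1 ^ k * gsq (fun P => Real.sin (ϑ P.1) * φ P) P ≤
    P.1 ^ k * gsq φ P + ε * (P.1 ^ k * (φ P / P.1) ^ 2)
  by_cases hP : P ∈ tsupport φ
  · have hx : 0 < P.1 := hS (h.supp hP)
    obtain ⟨c, hc1, hc2⟩ := hd P.1 hx
    have e1 : dx (fun P => Real.cos (ϑ P.1) * φ P) P =
        (-Real.sin (ϑ P.1) * c) * φ P + Real.cos (ϑ P.1) * dx φ P :=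
      dx_mul_fst (a := fun x => Real.cos (ϑ x)) h (t1.differentiable P)
        ((Real.hasDerivAt_cos _).comp P.1 hc1)
    have e2 : dx (fun P => Real.sin (ϑ P.1) * φ P) P =
        (Real.cos (ϑ P.1) * c) * φ P + Real.sin (ϑ P.1) * dx φ P :=
      dx_mul_fst (a := fun x => Real.sin (ϑ x)) h (t2.differentiable P)
        ((Real.hasDerivAt_sin _).comp P.1 hc1)
    have e3 : ∀ j, dz (fun P => Real.cos (ϑ P.1) * φ P) j P = Real.cos (ϑ P.1) * dz φ j P :=
      fun j => dz_mul_fst (a := fun x => Real.cos (ϑ x)) h (t1.differentiable P) j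
    have e4 : ∀ j, dz (fun P => Real.sin (ϑ P.1) * φ P) j P = Real.sin (ϑ P.1) * dz φ j P :=
      fun j => dz_mul_fst (a := fun x => Real.sin (ϑ x)) h (t2.differentiable P) j
    have e5 : gsq (fun P => Real.cos (ϑ P.1) * φ P) P + gsq (fun P => Real.sin (ϑ P.1) * φ P) P =
        gsq φ P + c ^ 2 * φ P ^ 2 := by
      unfold gsq
      rw [e1, e2]
      simp_rw [e3, e4]
      have hcs := Real.sin_sq_add_cos_sq (ϑ P.1)
      set C := Real.cos (ϑ P.1)
      set Sn := Real.sin (ϑ P.1)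
      have e6 : ∑ j, (C * dz φ j P) ^ 2 = C ^ 2 * ∑ j, dz φ j P ^ 2 := by
        rw [Finset.mul_sum]; apply Finset.sum_congr rfl; intro j _; ring
      have e7 : ∑ j, (Sn * dz φ j P) ^ 2 = Sn ^ 2 * ∑ j, dz φ j P ^ 2 := by
        rw [Finset.mul_sum]; apply Finset.sum_congr rfl; intro j _; ring
      rw [e6, e7]
      have e8 : C ^ 2 = 1 - Sn ^ 2 := by linarith
      calc _ = (Sn ^ 2 + C ^ 2) * (c ^ 2 * φ P ^ 2 + dx φ P ^ 2 + ∑ j, dz φ j P ^ 2) := by ring
        _ = _ := by rw [hcs]; ring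
    have hxk : 0 < P.1 ^ k := by positivity
    have e9 : c ^ 2 * φ P ^ 2 ≤ ε * (φ P / P.1) ^ 2 := by
      calc c ^ 2 * φ P ^ 2 ≤ (ε / P.1 ^ 2) * φ P ^ 2 :=
            mul_le_mul_of_nonneg_right hc2 (sq_nonneg _)
        _ = _ := by field_simp
    calc P.1 ^ k * gsq (fun P => Real.cos (ϑ P.1) * φ P) P +
          P.1 ^ k * gsq (fun P => Real.sin (ϑ P.1) * φ P) P
        = P.1 ^ k * (gsq φ P + c ^ 2 * φ P ^ 2) := by rw [← e5]; ring
      _ ≤ P.1 ^ k * (gsq φ P + ε * (φ P / P.1) ^ 2) := by gcongr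
      _ = _ := by ring
  · have z1 : φ P = 0 := image_eq_zero_of_notMem_tsupport hP
    have z2 : gsq (fun P => Real.cos (ϑ P.1) * φ P) P = 0 := by
      apply gsq_eq_zero
      intro h'
      exact hP (closure_mono (Function.support_mul_subset_right _ φ) h')
    have z3 : gsq (fun P => Real.sin (ϑ P.1) * φ P) P = 0 := by
      apply gsq_eq_zero
      intro h'
      exact hP (closure_mono (Function.support_mul_subset_right _ φ) h')
    rw [z1, z2, z3, gsq_eq_zero hP]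
    simp

lemma n2_split (h : IsTest S φ) (hS : S ⊆ HP d) (hϑ : ContDiffOn ℝ ∞ ϑ (Ioi 0)) :
    n2 k φ = n2 k (fun P => Real.cos (ϑ P.1) * φ P) +
      n2 k (fun P => Real.sin (ϑ P.1) * φ P) := by
  have t1 := (isTest_cos h hS hϑ).sq
  have t2 := (isTest_sin h hS hϑ).sq
  unfold n2
  rw [← integral_add (integrable_wt t1.continuous t1.cpt) (integrable_wt t2.continuous t2.cpt)]
  congr 1
  funext P
  have hcs := Real.sin_sq_add_cos_sq (ϑ P.1)
  calc P.1 ^ k * φ P ^ 2 = P.1 ^ k * ((Real.sin (ϑ P.1) ^ 2 + Real.cos (ϑ P.1) ^ 2) * φ P ^ 2) := by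
        rw [hcs, one_mul]
    _ = _ := by ring

lemma h2_split (h : IsTest S φ) (hS : S ⊆ HP d) (hϑ : ContDiffOn ℝ ∞ ϑ (Ioi 0)) :
    h2 k φ = h2 k (fun P => Real.cos (ϑ P.1) * φ P) +
      h2 k (fun P => Real.sin (ϑ P.1) * φ P) := by
  have t1 := isTest_cos h hS hϑ
  have t2 := isTest_sin h hS hϑ
  unfold h2
  rw [← integral_add (integrable_h2 t1 hS) (integrable_h2 t2 hS)]
  congr 1
  funext P
  have hcs := Real.sin_sq_add_cos_sq (ϑ P.1)
  calc P.1 ^ k * (φ P / P.1) ^ 2 = P.1 ^ k * ((Real.sin (ϑ P.1) ^ 2 + Real.cos (ϑ P.1) ^ 2) *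
        (φ P / P.1) ^ 2) := by rw [hcs, one_mul]
    _ = _ := by ring

lemma mink {X : Type*} [MeasurableSpace X] {μ : Measure X} {r : ℝ} (hr : 1 < r) {f g : X → ℝ}
    (hf : MemLp f (ENNReal.ofReal r) μ) (hg : MemLp g (ENNReal.ofReal r) μ) :
    (∫ x, |f x + g x| ^ r ∂μ) ^ (1 / r) ≤
      (∫ x, |f x| ^ r ∂μ) ^ (1 / r) + (∫ x, |g x| ^ r ∂μ) ^ (1 / r) := by
  have : Fact (1 < r) := ⟨hr⟩
  have hr0 : 0 < r := by linarith
  set F : LL r μ := hf.toLp f
  set G : LL r μ := hg.toLp g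
  have key : ∀ (H : LL r μ) (h : X → ℝ), H =ᵐ[μ] h → ‖H‖ = (∫ x, |h x| ^ r ∂μ) ^ (1 / r) := by
    intro H h hH
    have h1 := norm_rpow hr H
    have h2 : ∫ x, |H x| ^ r ∂μ = ∫ x, |h x| ^ r ∂μ := by
      apply integral_congr_ae
      filter_upwards [hH] with x hx
      rw [hx]
    rw [← h2, ← h1, ← Real.rpow_mul (norm_nonneg _), mul_one_div, div_self hr0.ne',
      Real.rpow_one]
  have hF : F =ᵐ[μ] f := MemLp.coeFn_toLp hf
  have hG : G =ᵐ[μ] g := MemLp.coeFn_toLp hg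
  have hFG : (F + G : LL r μ) =ᵐ[μ] fun x => f x + g x := by
    filter_upwards [Lp.coeFn_add F G, hF, hG] with x h1 h2 h3
    rw [h1, Pi.add_apply, h2, h3]
  rw [← key _ _ hF, ← key _ _ hG, ← key _ _ hFG]
  exact norm_add_le F G

end loc

/-- the critical norms are subadditive under the localisation -/
lemma npp_split (hd : 2 ≤ d) {Θ : Dom d} {ϑ : ℝ → ℝ} (φ φ₁ φ₂ : Tst Θ)
    (h1 : ∀ P, (φ₁ : PP d → ℝ) P = Real.cos (ϑ P.1) * (φ : PP d → ℝ) P)
    (h2 : ∀ P, (φ₂ : PP d → ℝ) P = Real.sin (ϑ P.1) * (φ : PP d → ℝ) P) :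
    (npp k (pex d) (φ : PP d → ℝ)) ^ (2 / pex d) ≤
      (npp k (pex d) (φ₁ : PP d → ℝ)) ^ (2 / pex d) +
      (npp k (pex d) (φ₂ : PP d → ℝ)) ^ (2 / pex d) := by
  have hp2 := pex_gt hd
  have hp0 : 0 < pex d := by linarith
  have hr : 1 < pex d / 2 := by linarith
  have hm : ∀ ψ : Tst Θ, MemLp (fun X : EE k d => lift k (ψ : PP d → ℝ) X ^ 2)
      (ENNReal.ofReal (pex d / 2)) (volume : Measure (EE k d)) := by
    intro ψ
    apply Continuous.memLp_of_hasCompactSupport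
    · exact (tCd ψ).continuous.pow 2
    · exact (tCs ψ).comp_left (g := fun x : ℝ => x ^ 2) (by norm_num)
  have hpow : ∀ ψ : Tst Θ, ∫ X : EE k d, |lift k (ψ : PP d → ℝ) X ^ 2| ^ (pex d / 2) =
      ck k * npp k (pex d) (ψ : PP d → ℝ) := by
    intro ψ
    rw [← integral_lift_rpow hp0]
    congr 1
    funext X
    rw [abs_pow, ← Real.rpow_natCast, ← Real.rpow_mul (abs_nonneg _)]
    congr 1
    push_cast
    field_simp
  have hsum : ∀ X : EE k d, lift k (φ₁ : PP d → ℝ) X ^ 2 + lift k (φ₂ : PP d → ℝ) X ^ 2 =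
      lift k (φ : PP d → ℝ) X ^ 2 := by
    intro X
    unfold lift
    rw [h1, h2]
    have hcs := Real.sin_sq_add_cos_sq (ϑ ‖X.1‖)
    calc _ = (Real.sin (ϑ ‖X.1‖) ^ 2 + Real.cos (ϑ ‖X.1‖) ^ 2) *
          (φ : PP d → ℝ) (‖X.1‖, X.2) ^ 2 := by ring
      _ = _ := by rw [hcs, one_mul]
  have h3 := mink hr (hm φ₁) (hm φ₂)
  simp_rw [hsum] at h3
  rw [hpow, hpow, hpow] at h3
  have e : 1 / (pex d / 2) = 2 / pex d := by field_simp
  have hn : ∀ ψ : Tst Θ, 0 ≤ npp k (pex d) (ψ : PP d → ℝ) := by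
    intro ψ
    have h4 : 0 ≤ ck k * npp k (pex d) (ψ : PP d → ℝ) := by
      rw [← integral_lift_rpow hp0]
      exact integral_nonneg fun X => Real.rpow_nonneg (abs_nonneg _) _
    exact nonneg_of_mul_nonneg_right h4 (ck_pos k)
  have hc := ck_pos k
  rw [e, Real.mul_rpow hc.le (hn φ), Real.mul_rpow hc.le (hn φ₁), Real.mul_rpow hc.le (hn φ₂),
    ← mul_add] at h3
  exact le_of_mul_le_mul_left h3 (Real.rpow_pos_of_pos hc _)

end Pool.Agent.H56.BN
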