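import Mathlib
import Pool.Agent.H56.BN.IMS
import Pool.Agent.H56.BN.Restr
import Pool.Agent.H56.BN.Lam

/-!
The key inequality on the complement of the low modes.
-/

set_option autoImplicit false
set_option maxHeartbeats 1000000

namespace Pool.Agent.H56.BN

open MeasureTheory Filter Topology Set
open scoped ContDiff InnerProductSpace

variable {k d : ℕ} {Θ : Dom d}

lemma io2_le (u : VV k Θ) : ‖io2 k Θ u‖ ≤ ‖u‖ := by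
  have hcl : IsClosed {u : VV k Θ | ‖io2 k Θ u‖ ≤ ‖u‖} :=
    isClosed_le (io2 k Θ).continuous.norm continuous_norm
  refine isClosed_property dense_emb hcl (fun φ => ?_) u
  apply le_of_sq_le_sq _ (norm_nonneg _)
  rw [norm_io2_emb, norm_emb]
  have := mul_nonneg (ck_pos k).le (q0_nonneg (k := k) φ)
  linarith

lemma TT_le (u : VV k Θ) : ⟪TT k Θ u, u⟫_ℝ ≤ ‖u‖ ^ 2 := by
  rw [inner_TT_self]
  exact pow_le_pow_left₀ (norm_nonneg _) (io2_le u) 2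

/-- the tube around the axis -/
def tube (k d : ℕ) (ρ : ℝ) : Set (EE k d) := {X | ‖X.1‖ < ρ}

lemma measurableSet_tube (ρ : ℝ) : MeasurableSet (tube k d ρ) :=
  (isOpen_lt continuous_fst.norm continuous_const).measurableSet

/-- restriction to the tube -/
noncomputable abbrev RT (k d : ℕ) (ρ : ℝ) : Lp ℝ 2 (volume : Measure (EE k d)) →L[ℝ]
    Lp ℝ 2 ((volume : Measure (EE k d)).restrict (tube k d ρ)) :=
  RR (volume : Measure (EE k d)) (tube k d ρ)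

lemma integrable_lift_h2 (φ : Tst Θ) :
    Integrable (fun X : EE k d => (lift k (φ : PP d → ℝ) X / ‖X.1‖) ^ 2)
      (volume : Measure (EE k d)) ∧
    ∫ X : EE k d, (lift k (φ : PP d → ℝ) X / ‖X.1‖) ^ 2 = ck k * h2 k (φ : PP d → ℝ) := by
  set F : PP d → ℝ := fun P => ((φ : PP d → ℝ) P / P.1) ^ 2 with hF
  have hFc : Continuous F := by
    have h1 := cont_mul (a := fun P : PP d => (P.1⁻¹) ^ 2) (tIs φ).sq.continuous (isOpen_HP d) (by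
      apply ContinuousOn.pow
      exact continuous_fst.continuousOn.inv₀ (fun P hP => ne_of_gt hP))
      ((tIs φ).sq.supp.trans Θ.pos)
    have : F = fun P : PP d => (P.1⁻¹) ^ 2 * (φ : PP d → ℝ) P ^ 2 := by
      funext P
      simp only [hF]
      rw [div_eq_mul_inv]; ring
    rw [this]; exact h1
  have hsub : Function.support F ⊆ Function.support (φ : PP d → ℝ) := by
    intro P hP h0
    apply hP
    simp only [hF]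
    rw [h0]; simp
  have hFs : HasCompactSupport F :=
    HasCompactSupport.of_support_subset_isCompact (tIs φ).cpt (hsub.trans (subset_tsupport _))
  constructor
  · have h1 : Continuous (fun X : EE k d => F (rad k d X)) := hFc.comp continuous_rad
    refine h1.integrable_of_hasCompactSupport ?_
    refine HasCompactSupport.of_support_subset_isCompact (isCompact_rad_preimage hFs) ?_
    intro X hX
    exact subset_tsupport F hX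
  · exact integral_rad hFc hFs ((closure_mono hsub).trans (tHp φ))

/-- mass in the tube -/
lemma mass_emb {ρ : ℝ} (φ : Tst Θ) :
    ‖RT k d ρ (io2 k Θ (emb k Θ φ))‖ ^ 2 ≤ ρ ^ 2 * (ck k * h2 k (φ : PP d → ℝ)) := by
  obtain ⟨i1, e1⟩ := integrable_lift_h2 (k := k) φ
  rw [← e1, ← integral_const_mul]
  apply mass_of_le (measurableSet_tube ρ) (coeFn_io2_emb (k := k) φ) (i1.const_mul _)
  · intro X; positivity
  · intro X hX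
    have hX' : ‖X.1‖ < ρ := hX
    rcases (norm_nonneg X.1).eq_or_lt with h0 | h0
    · have h2 : lift k (φ : PP d → ℝ) X = 0 := by
        unfold lift
        apply (tIs φ).eq_zero
        intro h3
        have h4 : (0:ℝ) < ‖X.1‖ := Θ.pos h3
        rw [← h0] at h4
        exact lt_irrefl _ h4
      rw [h2]; simp
    · rw [div_pow, mul_div_assoc', le_div_iff₀ (by positivity)]
      have h3 : ‖X.1‖ ^ 2 ≤ ρ ^ 2 := pow_le_pow_left₀ h0.le hX'.le 2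
      nlinarith [sq_nonneg (lift k (φ : PP d → ℝ) X)]

lemma alg_est {N M A B ρ Λ H : ℝ} (hN0 : 0 ≤ N) (hM0 : 0 ≤ M) (hA0 : 0 ≤ A) (hΛ : 0 ≤ Λ)
    (h7 : N ^ 2 ≤ M * N + A * B) (h1 : B ^ 2 ≤ ρ ^ 2 * (Λ * N ^ 2)) (h2 : A ^ 2 ≤ ρ ^ 2 * H) :
    N ^ 2 ≤ 2 * M ^ 2 + 2 * (ρ ^ 4 * Λ * H) := by
  have h8 : B ≤ Real.sqrt (ρ ^ 2 * Λ) * N := by
    apply le_of_sq_le_sq _ (by positivity)
    rw [mul_pow, Real.sq_sqrt (by positivity)]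
    linarith
  have h9 : N ^ 2 ≤ (M + A * Real.sqrt (ρ ^ 2 * Λ)) * N := by
    have := mul_le_mul_of_nonneg_left h8 hA0
    nlinarith
  have h10 : N ≤ M + A * Real.sqrt (ρ ^ 2 * Λ) := by
    rcases hN0.eq_or_lt with h0 | h0
    · rw [← h0]; positivity
    · have : N * N ≤ (M + A * Real.sqrt (ρ ^ 2 * Λ)) * N := by rw [← sq]; exact h9
      exact le_of_mul_le_mul_right this h0
  have h11 : N ^ 2 ≤ 2 * M ^ 2 + 2 * (A ^ 2 * (ρ ^ 2 * Λ)) := by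
    have h12 : N ^ 2 ≤ (M + A * Real.sqrt (ρ ^ 2 * Λ)) ^ 2 := pow_le_pow_left₀ hN0 h10 2
    have h13 : (A * Real.sqrt (ρ ^ 2 * Λ)) ^ 2 = A ^ 2 * (ρ ^ 2 * Λ) := by
      rw [mul_pow, Real.sq_sqrt (by positivity)]
    nlinarith [sq_nonneg (M - A * Real.sqrt (ρ ^ 2 * Λ))]
  have h14 : A ^ 2 * (ρ ^ 2 * Λ) ≤ (ρ ^ 2 * H) * (ρ ^ 2 * Λ) :=
    mul_le_mul_of_nonneg_right h2 (by positivity)
  nlinarith

section narrow

variable {α σ : ℝ} {j : Fin d}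

/-- Hardy: `h2 ≤ q0` -/
lemma h2_le (hk : 1 ≤ k) (hd : 2 ≤ d) (hα : 0 ≤ α) (hσ : 0 < σ)
    (hσ1 : 1 ≤ min (gx k d) 1 / (4 * σ ^ 2) + sx k d * (k - 1 - sx k d))
    (hS : Θ.S ⊆ NS α σ j) (φ : Tst Θ) : h2 k (φ : PP d → ℝ) ≤ q0 k (φ : PP d → ℝ) := by
  have h1 := hardy_one hk hd hα hσ hσ1 (tIs φ) hS
  have hS0 := SS_pos hd
  have hp0 : 0 < pex d := by have := pex_gt hd; linarith
  have hn : 0 ≤ npp k (pex d) (φ : PP d → ℝ) := by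
    have h4 : 0 ≤ ck k * npp k (pex d) (φ : PP d → ℝ) := by
      rw [← integral_lift_rpow hp0]
      exact integral_nonneg fun X => Real.rpow_nonneg (abs_nonneg _) _
    exact nonneg_of_mul_nonneg_right h4 (ck_pos k)
  have : 0 ≤ α ^ gx k d * (SS d * (npp k (pex d) (φ : PP d → ℝ)) ^ (2 / pex d)) :=
    mul_nonneg (Real.rpow_nonneg hα _) (mul_nonneg hS0.le (Real.rpow_nonneg hn _))
  linarith

/-- mass in the tube for general elements -/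
lemma mass_le (hk : 1 ≤ k) (hd : 2 ≤ d) (hα : 0 ≤ α) (hσ : 0 < σ)
    (hσ1 : 1 ≤ min (gx k d) 1 / (4 * σ ^ 2) + sx k d * (k - 1 - sx k d))
    (hS : Θ.S ⊆ NS α σ j) {ρ : ℝ} (u : VV k Θ) :
    ‖RT k d ρ (io2 k Θ u)‖ ^ 2 ≤ ρ ^ 2 * (‖u‖ ^ 2 - ‖io2 k Θ u‖ ^ 2) := by
  have hcl : IsClosed {u : VV k Θ | ‖RT k d ρ (io2 k Θ u)‖ ^ 2 ≤
      ρ ^ 2 * (‖u‖ ^ 2 - ‖io2 k Θ u‖ ^ 2)} := by
    apply isClosed_le
    · exact (((RT k d ρ).continuous.comp (io2 k Θ).continuous).norm).pow 2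
    · exact continuous_const.mul ((continuous_norm.pow 2).sub ((io2 k Θ).continuous.norm.pow 2))
  refine isClosed_property dense_emb hcl (fun φ => ?_) u
  have h1 := mass_emb (k := k) (ρ := ρ) φ
  have h3 := h2_le hk hd hα hσ hσ1 hS φ
  refine h1.trans ?_
  rw [norm_emb, norm_io2_emb, add_sub_cancel_right]
  apply mul_le_mul_of_nonneg_left _ (sq_nonneg ρ)
  exact mul_le_mul_of_nonneg_left h3 (ck_pos k).le

lemma cut_p1 {ρ : ℝ} {ϑ : ℝ → ℝ} (φ φ₂ : Tst Θ)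
    (hφ₂ : ∀ Q, (φ₂ : PP d → ℝ) Q = Real.sin (ϑ Q.1) * (φ : PP d → ℝ) Q)
    (hs01 : ∀ x, 0 < x → 0 ≤ Real.sin (ϑ x)) (X : EE k d) (_ : X ∈ tube k d ρ) (b : ℝ) :
    lift k (φ₂ : PP d → ℝ) X * b ≤ lift k (φ : PP d → ℝ) X * b +
      |lift k (φ : PP d → ℝ) X * b| := by
  unfold lift
  rw [hφ₂]
  set a := (φ : PP d → ℝ) (‖X.1‖, X.2) with ha
  by_cases hx : 0 < ‖X.1‖
  · show Real.sin (ϑ ‖X.1‖) * a * b ≤ a * b + |a * b|
    set s := Real.sin (ϑ ‖X.1‖) with hs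
    have hs0 : 0 ≤ s := hs01 _ hx
    have hs1 : s ≤ 1 := Real.sin_le_one _
    have h6 : (1 - s) * (-(a * b)) ≤ (1 - s) * |a * b| :=
      mul_le_mul_of_nonneg_left (neg_le_abs _) (by linarith)
    have h7 : (1 - s) * |a * b| ≤ 1 * |a * b| :=
      mul_le_mul_of_nonneg_right (by linarith) (abs_nonneg _)
    nlinarith
  · have ha0 : a = 0 := by
      apply (tIs φ).eq_zero
      intro h'
      exact hx (Θ.pos h')
    rw [ha0]; simp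

lemma cut_p2 {ρ : ℝ} {ϑ : ℝ → ℝ} (φ φ₂ : Tst Θ)
    (hφ₂ : ∀ Q, (φ₂ : PP d → ℝ) Q = Real.sin (ϑ Q.1) * (φ : PP d → ℝ) Q)
    (hϑ : ∀ x, ρ ≤ x → ϑ x = Real.pi / 2) (X : EE k d) (hX : X ∉ tube k d ρ) :
    lift k (φ₂ : PP d → ℝ) X = lift k (φ : PP d → ℝ) X := by
  unfold lift
  rw [hφ₂]
  have hx : ρ ≤ ‖X.1‖ := not_lt.1 hX
  show Real.sin (ϑ ‖X.1‖) * (φ : PP d → ℝ) (‖X.1‖, X.2) = (φ : PP d → ℝ) (‖X.1‖, X.2)
  rw [hϑ _ hx, Real.sin_pi_div_two, one_mul]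

/-- the projection of the localised function -/
lemma proj_est (hk : 1 ≤ k) (hd : 2 ≤ d) (hα : 0 ≤ α) (hσ : 0 < σ)
    (hσ1 : 1 ≤ min (gx k d) 1 / (4 * σ ^ 2) + sx k d * (k - 1 - sx k d))
    (hS : Θ.S ⊆ NS α σ j) {ρ Λ : ℝ} {ϑ : ℝ → ℝ}
    (hϑ : ∀ x, ρ ≤ x → ϑ x = Real.pi / 2) {W : Submodule ℝ (VV k Θ)} {P : VV k Θ →L[ℝ] VV k Θ}
    (hP1 : ∀ u, P u ∈ W)
    (hP3 : ∀ u, ∀ e ∈ W, ⟪TT k Θ u, e⟫_ℝ = ⟪TT k Θ (P u), e⟫_ℝ)
    (hP4 : ∀ e ∈ W, ‖e‖ ^ 2 ≤ (Λ + 1) * ⟪TT k Θ e, e⟫_ℝ) (hΛ : 0 ≤ Λ) (φ φ₂ : Tst Θ)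
    (hφ₂ : ∀ Q, (φ₂ : PP d → ℝ) Q = Real.sin (ϑ Q.1) * (φ : PP d → ℝ) Q)
    (hs01 : ∀ x, 0 < x → 0 ≤ Real.sin (ϑ x)) :
    ‖io2 k Θ (P (emb k Θ φ₂))‖ ^ 2 ≤ 2 * ‖io2 k Θ (P (emb k Θ φ))‖ ^ 2 +
      2 * (ρ ^ 4 * Λ * (ck k * h2 k (φ : PP d → ℝ))) := by
  obtain ⟨e, he⟩ : ∃ e, e = P (emb k Θ φ₂) := ⟨_, rfl⟩
  obtain ⟨f, hf⟩ : ∃ f, f = io2 k Θ (emb k Θ φ) := ⟨_, rfl⟩
  obtain ⟨g, hg⟩ : ∃ g, g = io2 k Θ (emb k Θ φ₂) := ⟨_, rfl⟩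
  obtain ⟨e2, he2⟩ : ∃ e2, e2 = io2 k Θ e := ⟨_, rfl⟩
  have heW : e ∈ W := by rw [he]; exact hP1 _
  -- the mass of `e` in the tube
  have h1 : ‖RT k d ρ e2‖ ^ 2 ≤ ρ ^ 2 * (Λ * ‖e2‖ ^ 2) := by
    rw [he2]
    refine (mass_le hk hd hα hσ hσ1 hS e).trans ?_
    apply mul_le_mul_of_nonneg_left _ (sq_nonneg ρ)
    have h2 := hP4 e heW
    rw [inner_TT_self] at h2
    linarith
  have h2 : ‖RT k d ρ f‖ ^ 2 ≤ ρ ^ 2 * (ck k * h2 k (φ : PP d → ℝ)) := by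
    rw [hf]; exact mass_emb (k := k) (ρ := ρ) φ
  -- the scalar product
  have h3 : ‖e2‖ ^ 2 = ⟪g, e2⟫_ℝ := by
    rw [hg, he2, ← inner_TT, hP3 _ e heW, ← he, inner_TT_self]
  have h4 : ⟪f, e2⟫_ℝ ≤ ‖io2 k Θ (P (emb k Θ φ))‖ * ‖e2‖ := by
    rw [hf, he2, ← inner_TT, hP3 _ e heW, inner_TT]
    exact real_inner_le_norm _ _
  have h5 : ⟪g, e2⟫_ℝ ≤ ⟪f, e2⟫_ℝ + ‖RT k d ρ f‖ * ‖RT k d ρ e2‖ := by
    rw [hf, hg]
    exact inner_le_of_set' (measurableSet_tube ρ) (coeFn_io2_emb φ) (coeFn_io2_emb φ₂)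
      (cut_p1 φ φ₂ hφ₂ hs01) (cut_p2 φ φ₂ hφ₂ hϑ)
  rw [← he, ← he2]
  have h6 : ‖e2‖ ^ 2 ≤ ‖io2 k Θ (P (emb k Θ φ))‖ * ‖e2‖ + ‖RT k d ρ f‖ * ‖RT k d ρ e2‖ :=
    (h3.le.trans h5).trans (add_le_add_left h4 _)
  exact alg_est (N := ‖e2‖) (M := ‖io2 k Θ (P (emb k Θ φ))‖) (A := ‖RT k d ρ f‖)
    (B := ‖RT k d ρ e2‖) (norm_nonneg _) (norm_nonneg _) (norm_nonneg _) hΛ h6 h1 h2

end narrow

end Pool.Agent.H56.BN
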