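import Mathlib
import Pool.Agent.H56.BN.Key
import Pool.Agent.H56.BN.Emb

/-!
The key inequality on the complement of the low modes.
-/

set_option autoImplicit false
set_option maxHeartbeats 1000000

namespace Pool.Agent.H56.BN

open MeasureTheory Filter Topology Set
open scoped ContDiff InnerProductSpace

variable {k d : ℕ} {Θ : Dom d}

/-- the level constant at distance `α` -/
noncomputable def Sinf (k d : ℕ) (α : ℝ) : ℝ := (ck k) ^ (1 - 2 / pex d) * (α ^ gx k d * SS d)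

lemma Sinf_pos (hd : 2 ≤ d) {α : ℝ} (hα : 0 < α) : 0 < Sinf k d α := by
  unfold Sinf
  have h1 : 0 < (ck k) ^ (1 - 2 / pex d) := Real.rpow_pos_of_pos (ck_pos k) _
  have h2 : 0 < α ^ gx k d := Real.rpow_pos_of_pos hα _
  have h3 := SS_pos hd
  positivity

lemma norm_iop_emb (hd : 2 ≤ d) [Fact (1 < pex d)] (hE : HasEmb k Θ (pex d)) (φ : Tst Θ) :
    ‖iop k Θ (pex d) (emb k Θ φ)‖ ^ 2 =
      (ck k) ^ (2 / pex d) * (npp k (pex d) (φ : PP d → ℝ)) ^ (2 / pex d) := by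
  have hp : 1 < pex d := Fact.out
  have hp0 : 0 < pex d := by linarith
  rw [iop_emb hE, ← Real.mul_rpow (ck_pos k).le (npp_nonneg hd φ), ← norm_vecp hp,
    ← Real.rpow_mul (norm_nonneg _), mul_div_cancel₀ _ hp0.ne', Real.rpow_two]

lemma Sinf_iop (hd : 2 ≤ d) [Fact (1 < pex d)] (hE : HasEmb k Θ (pex d)) (α : ℝ) (φ : Tst Θ) :
    Sinf k d α * ‖iop k Θ (pex d) (emb k Θ φ)‖ ^ 2 =
      ck k * (α ^ gx k d * (SS d * (npp k (pex d) (φ : PP d → ℝ)) ^ (2 / pex d))) := by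
  rw [norm_iop_emb hd hE]
  unfold Sinf
  have hc := ck_pos k
  have e : (ck k) ^ (1 - 2 / pex d) * (ck k) ^ (2 / pex d) = ck k := by
    rw [← Real.rpow_add hc, sub_add_cancel, Real.rpow_one]
  calc _ = ((ck k) ^ (1 - 2 / pex d) * (ck k) ^ (2 / pex d)) *
      (α ^ gx k d * (SS d * (npp k (pex d) (φ : PP d → ℝ)) ^ (2 / pex d))) := by ring
    _ = _ := by rw [e]

/-- the algebra of the key inequality -/
lemma key_alg {c Q Q1 Q2 N N1 N2 H H1 H2 A S1 S2 M M2 R θ l g Λ ρ : ℝ}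
    (hc : 0 < c) (hθ0 : 0 < θ) (hθ1 : θ ≤ 1 / 2) (hθ2 : θ * Λ ≤ g / 4) (hg : 0 < g)
    (hΛ : 0 ≤ Λ) (hl0 : 0 ≤ l) (hl : l ≤ Λ) (hM0 : 0 ≤ M) (hM2 : 0 ≤ M2) (hN2 : 0 ≤ N2)
    (hH1 : 0 ≤ H1) (hH2 : 0 ≤ H2) (hS2 : 0 ≤ S2) (hρ : 0 < ρ)
    (ha : Q1 + Q2 ≤ Q + θ / 8 * H) (hbN : N = N1 + N2) (hbH : H = H1 + H2)
    (hc1 : A * S1 + H1 ≤ Q1) (hc2 : H2 ≤ Q2) (hc3 : 1 / 2 * R * S2 ≤ Q2)
    (hd : N1 ≤ ρ ^ 2 * H1) (hN1 : 0 ≤ N1)
    (he : g * (c * N2) - (g + l) * M2 ≤ c * Q2 - l * (c * N2))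
    (hf : M2 ≤ 2 * M + 2 * (ρ ^ 4 * Λ * (c * H)))
    (hρ1 : Λ * ρ ^ 2 ≤ 1 / 8) (hρ2 : 2 * (g + Λ) * (ρ ^ 4 * Λ) ≤ θ / 8)
    (hA : A ≤ θ / 4 * R) :
    c * (A * (S1 + S2)) + min (g / 4) (1 / (2 * ρ ^ 2)) * (c * N) - 2 * (g + Λ) * M ≤
      c * Q - l * (c * N) := by
  -- the part of `φ₂`
  have s1 : (g / 4) * (c * N2) - (g + Λ) * M2 + θ * (c * Q2) ≤ c * Q2 - l * (c * N2) := by
    have h1 : (1 - θ) * (g * (c * N2) - (g + l) * M2) ≤ (1 - θ) * (c * Q2 - l * (c * N2)) :=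
      mul_le_mul_of_nonneg_left he (by linarith)
    have h2 : θ * l * (c * N2) ≤ g / 4 * (c * N2) := by
      apply mul_le_mul_of_nonneg_right _ (by positivity)
      exact (mul_le_mul_of_nonneg_left hl hθ0.le).trans hθ2
    have h3 : 1 / 2 * g * (c * N2) ≤ (1 - θ) * g * (c * N2) := by
      apply mul_le_mul_of_nonneg_right _ (by positivity)
      exact mul_le_mul_of_nonneg_right (by linarith) hg.le
    have h4 : (1 - θ) * (g + l) * M2 ≤ (g + Λ) * M2 := by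
      apply mul_le_mul_of_nonneg_right _ hM2
      calc (1 - θ) * (g + l) ≤ 1 * (g + Λ) :=
            mul_le_mul (by linarith) (by linarith) (by positivity) (by norm_num)
        _ = g + Λ := one_mul _
    nlinarith
  have s2 : θ / 2 * (c * H2) + c * (A * S2) ≤ θ * (c * Q2) := by
    have h1 : A * S2 ≤ θ / 4 * R * S2 := mul_le_mul_of_nonneg_right hA hS2
    have h2 : θ / 2 * (c * H2) ≤ θ / 2 * (c * Q2) := by gcongr
    have h3 : θ / 2 * (c * (1 / 2 * R * S2)) ≤ θ / 2 * (c * Q2) := by gcongr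
    have h4 : c * (A * S2) ≤ c * (θ / 4 * R * S2) := mul_le_mul_of_nonneg_left h1 hc.le
    nlinarith
  have s3 : c * (A * S1) + c * H1 ≤ c * Q1 := by
    have := mul_le_mul_of_nonneg_left hc1 hc.le
    linarith
  have s4 : c * Q1 + c * Q2 ≤ c * Q + θ / 8 * (c * H) := by
    have := mul_le_mul_of_nonneg_left ha hc.le
    linarith
  have s5 : (g + Λ) * M2 ≤ 2 * (g + Λ) * M + θ / 8 * (c * H) := by
    have h0 : 0 ≤ g + Λ := by linarith
    have h1 := mul_le_mul_of_nonneg_left hf h0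
    have hH0 : 0 ≤ c * H := by rw [hbH]; positivity
    have h2 := mul_le_mul_of_nonneg_right hρ2 hH0
    nlinarith
  have s6 : l * (c * N1) ≤ 1 / 8 * (c * H1) := by
    calc l * (c * N1) ≤ Λ * (c * (ρ ^ 2 * H1)) := by gcongr
      _ = (Λ * ρ ^ 2) * (c * H1) := by ring
      _ ≤ 1 / 8 * (c * H1) := mul_le_mul_of_nonneg_right hρ1 (by positivity)
  have s7 : min (g / 4) (1 / (2 * ρ ^ 2)) * (c * N) ≤ g / 4 * (c * N2) + 1 / 2 * (c * H1) := by
    have h1 : min (g / 4) (1 / (2 * ρ ^ 2)) * (c * N2) ≤ g / 4 * (c * N2) :=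
      mul_le_mul_of_nonneg_right (min_le_left _ _) (by positivity)
    have h2 : min (g / 4) (1 / (2 * ρ ^ 2)) * (c * N1) ≤ 1 / 2 * (c * H1) := by
      calc min (g / 4) (1 / (2 * ρ ^ 2)) * (c * N1) ≤ 1 / (2 * ρ ^ 2) * (c * N1) :=
            mul_le_mul_of_nonneg_right (min_le_right _ _) (by positivity)
        _ ≤ 1 / (2 * ρ ^ 2) * (c * (ρ ^ 2 * H1)) := by gcongr
        _ = 1 / 2 * (c * H1) := by field_simp
    rw [hbN]; nlinarith
  have s8 : θ / 8 * (c * H) = θ / 8 * (c * H1) + θ / 8 * (c * H2) := by rw [hbH]; ring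
  have s9 : θ / 8 * (c * H1) ≤ 1 / 16 * (c * H1) :=
    mul_le_mul_of_nonneg_right (by linarith) (by positivity)
  have s10 : 0 ≤ c * H1 := by positivity
  have s11 : 0 ≤ θ * (c * H2) := by positivity
  have s12 : c * (A * (S1 + S2)) = c * (A * S1) + c * (A * S2) := by ring
  have s13 : l * (c * N) = l * (c * N1) + l * (c * N2) := by rw [hbN]; ring
  rw [s12, s13]
  linarith

end Pool.Agent.H56.BN
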