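import Mathlib
import Pool.Agent.H56.BN.Sob

/-!
Rescaled test functions.
-/

set_option autoImplicit false
set_option maxHeartbeats 1000000

namespace Pool.Agent.H56.BN

open MeasureTheory Filter Topology Set
open scoped ContDiff

variable {d : ℕ}

/-- rescaled function -/
noncomputable def resc (φ : PP d → ℝ) (P₀ : PP d) (ε : ℝ) (P : PP d) : ℝ := φ (ε⁻¹ • (P - P₀))

lemma tsupport_resc {φ : PP d → ℝ} {P₀ : PP d} {ε R : ℝ} (hε : 0 < ε)
    (h : tsupport φ ⊆ Metric.closedBall 0 R) :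
    tsupport (resc φ P₀ ε) ⊆ Metric.closedBall P₀ (ε * R) := by
  apply closure_minimal _ Metric.isClosed_closedBall
  intro P hP
  have h1 : ε⁻¹ • (P - P₀) ∈ tsupport φ := subset_tsupport φ hP
  have h2 := h h1
  rw [mem_closedBall_zero_iff, norm_smul, norm_inv, Real.norm_eq_abs, abs_of_pos hε,
    inv_mul_le_iff₀ hε] at h2
  rwa [Metric.mem_closedBall, dist_eq_norm]

lemma contDiff_resc {φ : PP d → ℝ} (h : ContDiff ℝ ∞ φ) (P₀ : PP d) (ε : ℝ) :
    ContDiff ℝ ∞ (resc φ P₀ ε) := by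
  have h1 : ContDiff ℝ ∞ (fun P : PP d => ε⁻¹ • (P - P₀)) := by fun_prop
  exact h.comp h1

lemma cpt_resc {φ : PP d → ℝ} (h : HasCompactSupport φ) (P₀ : PP d) {ε : ℝ} (hε : 0 < ε) :
    HasCompactSupport (resc φ P₀ ε) := by
  obtain ⟨R, hR⟩ := h.isBounded.subset_closedBall (0 : PP d)
  exact (isCompact_closedBall P₀ (ε * R)).of_isClosed_subset (isClosed_tsupport _)
    (tsupport_resc hε hR)

lemma fderiv_resc {φ : PP d → ℝ} (h : Differentiable ℝ φ) (P₀ : PP d) (ε : ℝ) (P : PP d) :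
    fderiv ℝ (resc φ P₀ ε) P = ε⁻¹ • fderiv ℝ φ (ε⁻¹ • (P - P₀)) := by
  have h1 : HasFDerivAt (fun P : PP d => ε⁻¹ • (P - P₀)) (ε⁻¹ • ContinuousLinearMap.id ℝ (PP d))
      P := ((hasFDerivAt_id P).sub_const P₀).const_smul ε⁻¹
  have h2 : HasFDerivAt (resc φ P₀ ε) ((fderiv ℝ φ (ε⁻¹ • (P - P₀))).comp
      (ε⁻¹ • ContinuousLinearMap.id ℝ (PP d))) P := (h _).hasFDerivAt.comp P h1
  rw [h2.fderiv]
  ext y <;> simp

lemma gsq_resc {φ : PP d → ℝ} (h : Differentiable ℝ φ) (P₀ : PP d) (ε : ℝ) (P : PP d) :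
    gsq (resc φ P₀ ε) P = (ε⁻¹) ^ 2 * gsq φ (ε⁻¹ • (P - P₀)) := by
  unfold gsq dx dz
  simp only [fderiv_resc h, ContinuousLinearMap.smul_apply, smul_eq_mul, mul_pow]
  rw [mul_add, Finset.mul_sum]

lemma finrank_PP : Module.finrank ℝ (PP d) = d + 1 := by
  rw [Module.finrank_prod, finrank_euclideanSpace, Fintype.card_fin, Module.finrank_self, add_comm]

lemma integral_resc (f : PP d → ℝ) (P₀ : PP d) {ε : ℝ} (hε : 0 < ε) :
    ∫ P, f (ε⁻¹ • (P - P₀)) = ε ^ (d + 1) * ∫ P, f P := by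
  rw [integral_sub_right_eq_self (fun P => f (ε⁻¹ • P)) P₀,
    Measure.integral_comp_inv_smul_of_nonneg volume f hε.le, finrank_PP, smul_eq_mul]

/-- weight bounds -/
lemma wt_le {k : ℕ} {f : PP d → ℝ} {b : ℝ} (hf : Continuous f) (hfc : HasCompactSupport f)
    (hf0 : ∀ P, 0 ≤ f P) (hb : ∀ P, f P ≠ 0 → 0 ≤ P.1 ∧ P.1 ≤ b) :
    ∫ P, P.1 ^ k * f P ≤ b ^ k * ∫ P, f P := by
  rw [← integral_const_mul]
  apply integral_mono
  · exact ((continuous_fst.pow k).mul hf).integrable_of_hasCompactSupport hfc.mul_left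
  · exact (hf.integrable_of_hasCompactSupport hfc).const_mul _
  · intro P
    show P.1 ^ k * f P ≤ b ^ k * f P
    by_cases h : f P = 0
    · rw [h]; simp
    · obtain ⟨h1, h2⟩ := hb P h
      exact mul_le_mul_of_nonneg_right (pow_le_pow_left₀ h1 h2 k) (hf0 P)

lemma le_wt {k : ℕ} {f : PP d → ℝ} {a : ℝ} (ha : 0 ≤ a) (hf : Continuous f)
    (hfc : HasCompactSupport f)
    (hf0 : ∀ P, 0 ≤ f P) (hb : ∀ P, f P ≠ 0 → a ≤ P.1) :
    a ^ k * ∫ P, f P ≤ ∫ P, P.1 ^ k * f P := by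
  rw [← integral_const_mul]
  apply integral_mono
  · exact (hf.integrable_of_hasCompactSupport hfc).const_mul _
  · exact ((continuous_fst.pow k).mul hf).integrable_of_hasCompactSupport hfc.mul_left
  · intro P
    show a ^ k * f P ≤ P.1 ^ k * f P
    by_cases h : f P = 0
    · rw [h]; simp
    · exact mul_le_mul_of_nonneg_right (pow_le_pow_left₀ ha (hb P h) k) (hf0 P)

end Pool.Agent.H56.BN
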