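import Mathlib
import Pool.Agent.H56.BN.Resc
import Pool.Agent.H56.BN.Key2

/-!
Concentrating test functions near the tip of the domain.
-/

set_option autoImplicit false
set_option maxHeartbeats 1000000

namespace Pool.Agent.H56.BN

open MeasureTheory Filter Topology Set
open scoped ContDiff

variable {k d : ℕ}

lemma exists_small {c α G N R η : ℝ} (hη : 0 < η) (h : c * (α ^ k * G) < R) :
    ∃ t : ℝ, 0 < t ∧ t < η ∧ c * ((α + t) ^ k * (G + t ^ 2 * N)) < R := by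
  have hcont : Continuous fun t : ℝ => c * ((α + t) ^ k * (G + t ^ 2 * N)) := by fun_prop
  have h1 : Tendsto (fun t : ℝ => c * ((α + t) ^ k * (G + t ^ 2 * N))) (𝓝[>] 0)
      (𝓝 (c * (α ^ k * G))) := by
    have := (hcont.tendsto 0).mono_left (nhdsWithin_le_nhds (s := Ioi 0))
    simpa using this
  have h2 : ∀ᶠ t in 𝓝[>] (0:ℝ), t ∈ Ioo 0 η := Ioo_mem_nhdsGT hη
  obtain ⟨t, ht1, ht2⟩ := ((h1.eventually_lt_const h).and h2).exists
  exact ⟨t, ht2.1, ht2.2, ht1⟩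

section bounds

variable {ψ : PP d → ℝ} {a b : ℝ}

lemma q0_le_of (h : CC ψ) (ha : 0 ≤ a) (hs : ∀ P ∈ tsupport ψ, a ≤ P.1 ∧ P.1 ≤ b) :
    q0 k ψ ≤ b ^ k * ∫ P, gsq ψ P :=
  wt_le (k := k) (f := gsq ψ) (b := b) (continuous_gsq h.smooth) (hcs_gsq h.cpt) gsq_nonneg
    (fun P hP => by
      have hP' : P ∈ tsupport ψ := by
        by_contra h'
        exact hP (gsq_eq_zero h')
      exact ⟨ha.trans (hs P hP').1, (hs P hP').2⟩)

lemma q0_nonneg_of (h : CC ψ) (ha : 0 ≤ a) (hs : ∀ P ∈ tsupport ψ, a ≤ P.1 ∧ P.1 ≤ b) :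
    0 ≤ q0 k ψ := by
  have h1 := le_wt (k := k) (f := gsq ψ) ha (continuous_gsq h.smooth) (hcs_gsq h.cpt) gsq_nonneg
    (fun P hP => by
      have hP' : P ∈ tsupport ψ := by
        by_contra h'
        exact hP (gsq_eq_zero h')
      exact (hs P hP').1)
  refine le_trans ?_ h1
  have : 0 ≤ ∫ P, gsq ψ P := integral_nonneg fun P => gsq_nonneg P
  positivity

lemma n2_le_of (h : CC ψ) (ha : 0 ≤ a) (hs : ∀ P ∈ tsupport ψ, a ≤ P.1 ∧ P.1 ≤ b) :
    n2 k ψ ≤ b ^ k * ∫ P, ψ P ^ 2 := by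
  have h2 := h.sq
  exact wt_le (k := k) (f := fun P => ψ P ^ 2) (b := b) h2.continuous h2.cpt
    (fun P => sq_nonneg _)
    (fun P hP => by
      have hP' : P ∈ tsupport ψ := by
        apply subset_tsupport
        intro h'
        apply hP
        show ψ P ^ 2 = 0
        rw [h']; ring
      exact ⟨ha.trans (hs P hP').1, (hs P hP').2⟩)

lemma n2_nonneg_of (h : CC ψ) (ha : 0 ≤ a) (hs : ∀ P ∈ tsupport ψ, a ≤ P.1 ∧ P.1 ≤ b) :
    0 ≤ n2 k ψ := by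
  have h2 := h.sq
  have h1 := le_wt (k := k) (f := fun P => ψ P ^ 2) ha h2.continuous h2.cpt
    (fun P => sq_nonneg _)
    (fun P hP => by
      have hP' : P ∈ tsupport ψ := by
        apply subset_tsupport
        intro h'
        apply hP
        show ψ P ^ 2 = 0
        rw [h']; ring
      exact (hs P hP').1)
  refine le_trans ?_ h1
  have : 0 ≤ ∫ P, ψ P ^ 2 := integral_nonneg fun P => sq_nonneg _
  positivity

lemma le_npp_of {p : ℝ} (hp0 : 0 < p) (h : CC ψ) (ha : 0 ≤ a) (hs : ∀ P ∈ tsupport ψ, a ≤ P.1) :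
    a ^ k * ∫ P, |ψ P| ^ p ≤ npp k p ψ :=
  le_wt (k := k) (f := fun P => |ψ P| ^ p) ha
    (h.continuous.abs.rpow_const fun _ => Or.inr hp0.le)
    (h.cpt.comp_left (g := fun x : ℝ => |x| ^ p) (by simp [hp0.ne']))
    (fun P => Real.rpow_nonneg (abs_nonneg _) _)
    (fun P hP => by
      have hP' : P ∈ tsupport ψ := by
        apply subset_tsupport
        intro h'
        apply hP
        show |ψ P| ^ p = 0
        rw [h', abs_zero, Real.zero_rpow hp0.ne']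
      exact hs P hP')

end bounds

lemma resc_cc {φ₀ : PP d → ℝ} (h₀ : CC φ₀) {P₀ : PP d} {ε : ℝ} (hε : 0 < ε) :
    CC (resc φ₀ P₀ ε) :=
  ⟨contDiff_resc h₀.smooth P₀ ε, cpt_resc h₀.cpt P₀ hε, subset_univ _⟩

lemma int_resc_gsq (hd : 2 ≤ d) {φ₀ : PP d → ℝ} (h₀ : CC φ₀) {P₀ : PP d} {ε : ℝ} (hε : 0 < ε) :
    ∫ P, gsq (resc φ₀ P₀ ε) P = ε ^ (d - 1) * ∫ P, gsq φ₀ P := by
  have hpow : ε ^ (d + 1) = ε ^ (d - 1) * ε ^ 2 := by
    rw [← pow_add]; congr 1; omega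
  simp only [gsq_resc h₀.differentiable]
  rw [integral_const_mul, integral_resc (gsq φ₀) P₀ hε, hpow]
  have h1 : (ε⁻¹) ^ 2 * ε ^ 2 = 1 := by
    rw [← mul_pow, inv_mul_cancel₀ hε.ne', one_pow]
  calc (ε⁻¹) ^ 2 * (ε ^ (d - 1) * ε ^ 2 * ∫ P, gsq φ₀ P) =
      ((ε⁻¹) ^ 2 * ε ^ 2) * (ε ^ (d - 1) * ∫ P, gsq φ₀ P) := by ring
    _ = _ := by rw [h1, one_mul]

lemma int_resc_sq (hd : 2 ≤ d) (φ₀ : PP d → ℝ) {P₀ : PP d} {ε : ℝ} (hε : 0 < ε) :
    ∫ P, resc φ₀ P₀ ε P ^ 2 = ε ^ (d - 1) * (ε ^ 2 * ∫ P, φ₀ P ^ 2) := by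
  have hpow : ε ^ (d + 1) = ε ^ (d - 1) * ε ^ 2 := by
    rw [← pow_add]; congr 1; omega
  have := integral_resc (fun P => φ₀ P ^ 2) P₀ hε
  rw [hpow, mul_assoc] at this
  exact this

/-- the scaled quantities -/
lemma resc_bounds (hd : 2 ≤ d) {φ₀ : PP d → ℝ} (h₀ : CC φ₀) {P₀ : PP d} {ε a b : ℝ} (hε : 0 < ε)
    (ha : 0 ≤ a) (hsup : ∀ P ∈ tsupport (resc φ₀ P₀ ε), a ≤ P.1 ∧ P.1 ≤ b) :
    q0 k (resc φ₀ P₀ ε) ≤ b ^ k * (ε ^ (d - 1) * ∫ P, gsq φ₀ P) ∧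
    n2 k (resc φ₀ P₀ ε) ≤ b ^ k * (ε ^ (d - 1) * (ε ^ 2 * ∫ P, φ₀ P ^ 2)) ∧
    a ^ k * (ε ^ (d + 1) * ∫ P, |φ₀ P| ^ pex d) ≤ npp k (pex d) (resc φ₀ P₀ ε) := by
  have hp0 : 0 < pex d := by have := pex_gt hd; linarith
  have hcc := resc_cc h₀ (P₀ := P₀) hε
  have h1 := q0_le_of (k := k) hcc ha hsup
  have h2 := n2_le_of (k := k) hcc ha hsup
  have h3 := le_npp_of (k := k) hp0 hcc ha fun P hP => (hsup P hP).1
  rw [int_resc_gsq hd h₀ hε] at h1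
  rw [int_resc_sq hd φ₀ hε] at h2
  have e3 : ∫ P, |resc φ₀ P₀ ε P| ^ pex d = ε ^ (d + 1) * ∫ P, |φ₀ P| ^ pex d :=
    integral_resc (fun P => |φ₀ P| ^ pex d) P₀ hε
  rw [e3] at h3
  exact ⟨h1, h2, h3⟩

lemma pow_crit (hd : 2 ≤ d) {ε : ℝ} (hε : 0 < ε) : (ε ^ (d + 1)) ^ (2 / pex d) = ε ^ (d - 1) := by
  rw [← Real.rpow_natCast, ← Real.rpow_mul hε.le, ← Real.rpow_natCast ε (d - 1)]
  congr 1
  unfold pex
  have : (2:ℝ) ≤ d := by exact_mod_cast hd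
  have h1 : (d:ℝ) - 1 ≠ 0 := by linarith
  have h3 : (d:ℝ) + 1 ≠ 0 := by linarith
  rw [Nat.cast_sub (by omega)]
  push_cast
  field_simp

/-- the constant in the limit -/
lemma Sinf_id {α : ℝ} (hα : 0 < α) :
    ck k * α ^ k * SS d = Sinf k d α * ((ck k) ^ (2 / pex d) * (α ^ k) ^ (2 / pex d)) := by
  unfold Sinf
  have hc := ck_pos k
  have e1 : (ck k) ^ (1 - 2 / pex d) * (ck k) ^ (2 / pex d) = ck k := by
    rw [← Real.rpow_add hc, sub_add_cancel, Real.rpow_one]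
  have e2 : α ^ gx k d * (α ^ k) ^ (2 / pex d) = α ^ k := by
    rw [← Real.rpow_natCast, ← Real.rpow_mul hα.le, ← Real.rpow_add hα]
    congr 1
    unfold gx sx
    ring
  calc ck k * α ^ k * SS d = ((ck k) ^ (1 - 2 / pex d) * (ck k) ^ (2 / pex d)) *
      (α ^ gx k d * (α ^ k) ^ (2 / pex d)) * SS d := by rw [e1, e2]
    _ = _ := by ring

/-- concentrating test functions -/
theorem exists_conc (hd : 2 ≤ d) {α : ℝ} (hα : 0 < α) (Θ : Dom d)
    (h1 : ∀ P ∈ Θ.S, α < P.1) (h2 : ∀ δ > 0, ∃ P ∈ interior Θ.S, P.1 < α + δ) {η : ℝ}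
    (hη : 0 < η) :
    ∃ φ : Tst Θ, (∀ P, (φ : PP d → ℝ) P ≠ 0 → α < P.1 ∧ P.1 < α + η) ∧
      0 < npp k (pex d) (φ : PP d → ℝ) ∧
      (1 / Sinf k d α - η) * (ck k * q0 k (φ : PP d → ℝ) + ck k * n2 k (φ : PP d → ℝ)) ≤
        (ck k) ^ (2 / pex d) * (npp k (pex d) (φ : PP d → ℝ)) ^ (2 / pex d) := by
  have hp0 : 0 < pex d := by have := pex_gt hd; linarith
  have hS := Sinf_pos (k := k) hd hα
  have hSS := SS_pos hd
  have hck := ck_pos k
  obtain ⟨φ₀, h₀, hA0, hG⟩ := SS_near hd (η := η * Sinf k d α * SS d)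
    (mul_pos (mul_pos hη hS) hSS)
  obtain ⟨G, hGd⟩ : ∃ G, G = ∫ P, gsq φ₀ P := ⟨_, rfl⟩
  obtain ⟨A, hAd⟩ : ∃ A, A = ∫ P, |φ₀ P| ^ pex d := ⟨_, rfl⟩
  obtain ⟨N, hNd⟩ : ∃ N, N = ∫ P, φ₀ P ^ 2 := ⟨_, rfl⟩
  rw [← hAd] at hA0 hG
  rw [← hGd] at hG
  have hG0 : 0 ≤ G := by rw [hGd]; exact integral_nonneg fun P => gsq_nonneg P
  have hN0 : 0 ≤ N := by rw [hNd]; exact integral_nonneg fun P => sq_nonneg _
  obtain ⟨S, hSd⟩ : ∃ S, S = Sinf k d α := ⟨_, rfl⟩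
  have hid := Sinf_id (k := k) (d := d) hα
  rw [← hSd] at hS hG hid ⊢
  obtain ⟨c, hc⟩ : ∃ c, c = max (1 / S - η) 0 := ⟨_, rfl⟩
  have hc0 : 0 ≤ c := by rw [hc]; exact le_max_right _ _
  have hc1 : 1 / S - η ≤ c := by rw [hc]; exact le_max_left _ _
  have hK : 0 < (ck k) ^ (2 / pex d) * (α ^ k) ^ (2 / pex d) :=
    mul_pos (Real.rpow_pos_of_pos hck _) (Real.rpow_pos_of_pos (pow_pos hα k) _)
  obtain ⟨K, hKd⟩ : ∃ K, K = (ck k) ^ (2 / pex d) * (α ^ k) ^ (2 / pex d) := ⟨_, rfl⟩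
  rw [← hKd] at hK hid
  have hA' : 0 < A ^ (2 / pex d) := by positivity
  have hlim : (c * ck k) * (α ^ k * G) < K * A ^ (2 / pex d) := by
    rcases le_or_gt (1 / S - η) 0 with h | h
    · have : c = 0 := by rw [hc]; exact max_eq_right h
      rw [this, zero_mul, zero_mul]; positivity
    · have hce : c = 1 / S - η := by rw [hc]; exact max_eq_left h.le
      have hcp : 0 < c := by rw [hce]; exact h
      calc (c * ck k) * (α ^ k * G) < (c * ck k) * (α ^ k * ((SS d + η * S * SS d) *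
            A ^ (2 / pex d))) := by gcongr
        _ = c * (ck k * α ^ k * SS d) * (1 + η * S) * A ^ (2 / pex d) := by ring
        _ = ((1 / S - η) * S) * (1 + η * S) * (K * A ^ (2 / pex d)) := by rw [hid, hce]; ring
        _ = (1 - (η * S) ^ 2) * (K * A ^ (2 / pex d)) := by
            have : (1 / S - η) * S = 1 - η * S := by field_simp
            rw [this]; ring
        _ < 1 * (K * A ^ (2 / pex d)) := by
            apply mul_lt_mul_of_pos_right _ (by positivity)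
            have : 0 < (η * S) ^ 2 := by positivity
            linarith
        _ = _ := one_mul _
  obtain ⟨t, ht0, htη, ht⟩ := exists_small (N := N) hη hlim
  obtain ⟨P₀, hP₀, hP₀'⟩ := h2 t ht0
  have hopen : IsOpen (interior Θ.S ∩ {P : PP d | P.1 < α + t}) :=
    isOpen_interior.inter (isOpen_lt continuous_fst continuous_const)
  obtain ⟨r, hr, hball⟩ := Metric.isOpen_iff.1 hopen P₀ ⟨hP₀, hP₀'⟩
  obtain ⟨R, hR⟩ := h₀.cpt.isBounded.subset_closedBall (0 : PP d)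
  have hRR : tsupport φ₀ ⊆ Metric.closedBall 0 (|R| + 1) :=
    hR.trans (Metric.closedBall_subset_closedBall (by have := le_abs_self R; linarith))
  obtain ⟨ε, hεd⟩ : ∃ ε, ε = min t (r / 2 / (|R| + 1)) := ⟨_, rfl⟩
  have hR1 : 0 < |R| + 1 := by positivity
  have hε : 0 < ε := by rw [hεd]; exact lt_min ht0 (by positivity)
  have hεt : ε ≤ t := by rw [hεd]; exact min_le_left _ _
  have hεr : ε * (|R| + 1) < r := by
    have : ε ≤ r / 2 / (|R| + 1) := by rw [hεd]; exact min_le_right _ _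
    rw [le_div_iff₀ hR1] at this
    linarith
  have hsup : tsupport (resc φ₀ P₀ ε) ⊆ interior Θ.S ∩ {P : PP d | P.1 < α + t} :=
    (tsupport_resc hε hRR).trans
      ((Metric.closedBall_subset_ball hεr).trans hball)
  have hsup' : ∀ P ∈ tsupport (resc φ₀ P₀ ε), α ≤ P.1 ∧ P.1 ≤ α + t := fun P hP =>
    ⟨(h1 P (interior_subset (hsup hP).1)).le, (hsup hP).2.le⟩
  obtain ⟨b1, b2, b3⟩ := resc_bounds (k := k) hd h₀ hε hα.le hsup'
  rw [← hGd] at b1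
  rw [← hNd] at b2
  rw [← hAd] at b3
  refine ⟨⟨resc φ₀ P₀ ε, contDiff_resc h₀.smooth P₀ ε, cpt_resc h₀.cpt P₀ hε,
    fun P hP => interior_subset (hsup hP).1⟩, ?_, ?_, ?_⟩
  · intro P hP
    have h3 : P ∈ tsupport (resc φ₀ P₀ ε) := subset_tsupport _ hP
    have h4 : P.1 < α + t := (hsup h3).2
    exact ⟨h1 P (interior_subset (hsup h3).1), by linarith⟩
  · show 0 < npp k (pex d) (resc φ₀ P₀ ε)
    exact lt_of_lt_of_le (by positivity) b3
  · show (1 / S - η) * (ck k * q0 k (resc φ₀ P₀ ε) + ck k * n2 k (resc φ₀ P₀ ε)) ≤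
        (ck k) ^ (2 / pex d) * (npp k (pex d) (resc φ₀ P₀ ε)) ^ (2 / pex d)
    have hq0 : 0 ≤ q0 k (resc φ₀ P₀ ε) := q0_nonneg_of (resc_cc h₀ hε) hα.le hsup'
    have hn0 : 0 ≤ n2 k (resc φ₀ P₀ ε) := n2_nonneg_of (resc_cc h₀ hε) hα.le hsup'
    have hX : 0 ≤ ck k * q0 k (resc φ₀ P₀ ε) + ck k * n2 k (resc φ₀ P₀ ε) := by positivity
    have hE : 0 < ε ^ (d - 1) := by positivity
    calc (1 / S - η) * (ck k * q0 k (resc φ₀ P₀ ε) + ck k * n2 k (resc φ₀ P₀ ε))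
        ≤ c * (ck k * q0 k (resc φ₀ P₀ ε) + ck k * n2 k (resc φ₀ P₀ ε)) :=
          mul_le_mul_of_nonneg_right hc1 hX
      _ ≤ c * (ck k * ((α + t) ^ k * (ε ^ (d - 1) * G)) +
          ck k * ((α + t) ^ k * (ε ^ (d - 1) * (ε ^ 2 * N)))) := by gcongr
      _ = ε ^ (d - 1) * ((c * ck k) * ((α + t) ^ k * (G + ε ^ 2 * N))) := by ring
      _ ≤ ε ^ (d - 1) * ((c * ck k) * ((α + t) ^ k * (G + t ^ 2 * N))) := by gcongr
      _ ≤ ε ^ (d - 1) * (K * A ^ (2 / pex d)) := by gcongr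
      _ = (ck k) ^ (2 / pex d) * (α ^ k * (ε ^ (d + 1) * A)) ^ (2 / pex d) := by
          rw [Real.mul_rpow (by positivity) (by positivity),
            Real.mul_rpow (by positivity) hA0.le, pow_crit hd hε, hKd]
          ring
      _ ≤ _ := by
          apply mul_le_mul_of_nonneg_left _ (by positivity)
          exact Real.rpow_le_rpow (by positivity) b3 (by positivity)

/-- the concentrating sequence -/
theorem exists_conc_seq (hd : 2 ≤ d) [Fact (1 < pex d)] {α : ℝ} (hα : 0 < α) (Θ : Dom d)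
    (hE : HasEmb k Θ (pex d))
    (h1 : ∀ P ∈ Θ.S, α < P.1) (h2 : ∀ δ > 0, ∃ P ∈ interior Θ.S, P.1 < α + δ) :
    ∃ u : ℕ → VV k Θ, (∀ j, iop k Θ (pex d) (u j) ≠ 0) ∧
      (∀ᵐ X ∂(volume : Measure (EE k d)), ∀ᶠ j in atTop, (iop k Θ (pex d) (u j)) X = 0) ∧
      (∀ ε > 0, ∀ᶠ j in atTop,
        (1 / Sinf k d α - ε) * ‖u j‖ ^ 2 ≤ ‖iop k Θ (pex d) (u j)‖ ^ 2) := by
  have hp0 : 0 < pex d := by have := pex_gt hd; linarith
  have hη : ∀ j : ℕ, (0:ℝ) < 1 / (j + 1) := fun j => by positivity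
  choose φ hφ1 hφ2 hφ3 using fun j : ℕ => exists_conc (k := k) hd hα Θ h1 h2 (hη j)
  refine ⟨fun j => emb k Θ (φ j), ?_, ?_, ?_⟩
  · intro j h0
    have h4 := norm_iop_emb hd hE (φ j)
    rw [h0, norm_zero] at h4
    have h5 : 0 < (ck k) ^ (2 / pex d) * (npp k (pex d) (φ j : PP d → ℝ)) ^ (2 / pex d) :=
      mul_pos (Real.rpow_pos_of_pos (ck_pos k) _) (Real.rpow_pos_of_pos (hφ2 j) _)
    rw [← h4] at h5
    norm_num at h5
  · have h4 : ∀ᵐ X ∂(volume : Measure (EE k d)), ∀ j,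
        (iop k Θ (pex d) (emb k Θ (φ j))) X = lift k (φ j : PP d → ℝ) X := by
      rw [ae_all_iff]
      intro j
      filter_upwards [coeFn_iop hE (emb k Θ (φ j)), coeFn_io2_emb (k := k) (φ j)] with X hX hX'
      rw [hX, hX']
    filter_upwards [h4] with X hX
    by_cases hx : α < ‖X.1‖
    · obtain ⟨N, hN⟩ := exists_nat_one_div_lt (show (0:ℝ) < ‖X.1‖ - α by linarith)
      filter_upwards [eventually_ge_atTop N] with j hj
      rw [hX]
      by_contra h5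
      have h6 : ‖X.1‖ < α + 1 / ((j:ℝ) + 1) := (hφ1 j (‖X.1‖, X.2) h5).2
      have h7 : 1 / ((j:ℝ) + 1) ≤ 1 / ((N:ℝ) + 1) := by
        apply one_div_le_one_div_of_le (by positivity)
        have : (N:ℝ) ≤ j := by exact_mod_cast hj
        linarith
      linarith
    · filter_upwards with j
      rw [hX]
      by_contra h5
      exact hx (hφ1 j (‖X.1‖, X.2) h5).1
  · intro ε hε
    obtain ⟨N, hN⟩ := exists_nat_one_div_lt hε
    filter_upwards [eventually_ge_atTop N] with j hj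
    have h7 : 1 / ((j:ℝ) + 1) ≤ 1 / ((N:ℝ) + 1) := by
      apply one_div_le_one_div_of_le (by positivity)
      have : (N:ℝ) ≤ j := by exact_mod_cast hj
      linarith
    rw [norm_iop_emb hd hE, norm_emb]
    refine le_trans ?_ (hφ3 j)
    apply mul_le_mul_of_nonneg_right (by linarith)
    rw [← norm_emb]
    positivity

end Pool.Agent.H56.BN
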