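import Mathlib
import Pool.Agent.H56.BN.Spec4

/-!
The spectral projection below a gap.
-/

set_option autoImplicit false
set_option maxHeartbeats 1000000

namespace Pool.Agent.H56.BN

open Filter Topology Module Module.End
open scoped InnerProductSpace

variable {V : Type*} [NormedAddCommGroup V] [InnerProductSpace ℝ V] [CompleteSpace V]

theorem exists_P {T : V →L[ℝ] V} (hc : IsCompactOperator T) (hs : (T : V →ₗ[ℝ] V).IsSymmetric)
    (hp : ∀ v, 0 ≤ ⟪T v, v⟫_ℝ) (hinf : ∀ m : ℕ, ∃ l : ℝ, 0 ≤ l ∧ m ≤ NN T l)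
    (h1 : ∀ v, ⟪T v, v⟫_ℝ ≤ ‖v‖ ^ 2) {m : ℕ} (hgap : lamA T m < lamA T (m + 1)) :
    ∃ P : V →L[ℝ] V, (∀ u, P u ∈ WW T (1 / (lamA T m + 1))) ∧
      (∀ u ∈ (WW T (1 / (lamA T m + 1)))ᗮ, P u = 0) ∧
      (∀ u, ∀ e ∈ WW T (1 / (lamA T m + 1)), ⟪T u, e⟫_ℝ = ⟪T (P u), e⟫_ℝ) ∧
      (∀ e ∈ WW T (1 / (lamA T m + 1)), ‖e‖ ^ 2 ≤ (lamA T m + 1) * ⟪T e, e⟫_ℝ) ∧
      ∀ (g l : ℝ), 0 ≤ g → l + g ≤ lamA T (m + 1) → ∀ u,
        g * ⟪T u, u⟫_ℝ - (g + l) * ⟪T (P u), P u⟫_ℝ ≤ QF T l u := by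
  have h0 := lamA_nonneg hinf m
  set W := WW T (1 / (lamA T m + 1)) with hW
  have hfin : FiniteDimensional ℝ W := finite_WW hc hs (t := 1 / (lamA T m + 1)) (by positivity)
  have hWc : CompleteSpace W := FiniteDimensional.complete ℝ W
  have hPm : ∀ u, W.starProjection u ∈ W := fun u => W.starProjection_apply_mem u
  have hPo : ∀ u, u - W.starProjection u ∈ Wᗮ := fun u => W.sub_starProjection_mem_orthogonal u
  have hTo : ∀ u, ∀ e ∈ W, ⟪T (u - W.starProjection u), e⟫_ℝ = 0 := by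
    intro u e he
    have h2 : ⟪T (u - W.starProjection u), e⟫_ℝ = ⟪u - W.starProjection u, T e⟫_ℝ := hs _ _
    rw [h2, real_inner_comm]
    exact (Submodule.mem_orthogonal _ _).1 (hPo u) _ (T_mem_WW he)
  refine ⟨W.starProjection, hPm, ?_, ?_, ?_, ?_⟩
  · intro u hu
    have h2 : W.starProjection u ∈ Wᗮ := by
      have := Submodule.sub_mem _ hu (hPo u)
      simpa using this
    have h3 := (Submodule.mem_orthogonal _ _).1 h2 _ (hPm u)
    exact inner_self_eq_zero.1 h3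
  · intro u e he
    have := hTo u e he
    rw [map_sub, inner_sub_left] at this
    linarith
  · intro e he
    have h2 := WW_lower hs he
    rw [div_mul_eq_mul_div, one_mul, div_le_iff₀ (by positivity)] at h2
    linarith
  · intro g l hg hl u
    set a := W.starProjection u with ha
    set b := u - a with hb
    have hub : u = a + b := by rw [hb]; abel
    have hTab : ⟪T b, a⟫_ℝ = 0 := hTo u a (hPm u)
    have hTba : ⟪T a, b⟫_ℝ = 0 := by
      have h2 : ⟪T a, b⟫_ℝ = ⟪a, T b⟫_ℝ := hs _ _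
      rw [h2, real_inner_comm]; exact hTab
    have hab : ⟪a, b⟫_ℝ = 0 := (Submodule.mem_orthogonal _ _).1 (hPo u) a (hPm u)
    have e1 : ⟪T u, u⟫_ℝ = ⟪T a, a⟫_ℝ + ⟪T b, b⟫_ℝ := by
      nth_rewrite 1 2 [hub]
      rw [map_add, inner_add_left, inner_add_right, inner_add_right, hTab, hTba]; ring
    have e2 : ‖u‖ ^ 2 = ‖a‖ ^ 2 + ‖b‖ ^ 2 := by
      rw [hub, ← real_inner_self_eq_norm_sq, inner_add_left, inner_add_right, inner_add_right,
        real_inner_comm a b, hab, real_inner_self_eq_norm_sq, real_inner_self_eq_norm_sq]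
      ring
    have e3 := QF_pos hc hs hp hinf hgap (l := l) (b := b) (hPo u)
    have e4 := h1 a
    have e5 := hp b
    have e6 := hp a
    unfold QF at e3 ⊢
    rw [e1, e2]
    nlinarith

end Pool.Agent.H56.BN
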