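import Mathlib
import Pool.Agent.H56.BN.Key2
import Pool.Agent.H56.BN.Spec5

/-!
The key inequality on the complement of the low modes, final form.
-/

set_option autoImplicit false
set_option maxHeartbeats 1000000

namespace Pool.Agent.H56.BN

open MeasureTheory Filter Topology Set
open scoped ContDiff InnerProductSpace

variable {k d : ℕ} {Θ : Dom d}

lemma QF_emb (l : ℝ) (φ : Tst Θ) :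
    QF (TT k Θ) l (emb k Θ φ) = ck k * q0 k (φ : PP d → ℝ) - l * (ck k * n2 k (φ : PP d → ℝ)) := by
  unfold QF
  rw [norm_emb, TT_emb]; ring

lemma n2_le_h2 {ρ : ℝ} (φ : Tst Θ) (h : ∀ P, ρ ≤ P.1 → (φ : PP d → ℝ) P = 0) :
    n2 k (φ : PP d → ℝ) ≤ ρ ^ 2 * h2 k (φ : PP d → ℝ) := by
  unfold n2 h2
  rw [← integral_const_mul]
  apply integral_mono (integrable_wt (tIs φ).sq.continuous (tIs φ).sq.cpt)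
    ((integrable_h2 (tIs φ) Θ.pos).const_mul _)
  intro P
  show P.1 ^ k * (φ : PP d → ℝ) P ^ 2 ≤ ρ ^ 2 * (P.1 ^ k * ((φ : PP d → ℝ) P / P.1) ^ 2)
  by_cases hP : P ∈ Θ.S
  · have hx : 0 < P.1 := Θ.pos hP
    by_cases hPρ : ρ ≤ P.1
    · rw [h P hPρ]; simp
    · push Not at hPρ
      have h1 : (φ : PP d → ℝ) P ^ 2 ≤ ρ ^ 2 * ((φ : PP d → ℝ) P / P.1) ^ 2 := by
        rw [div_pow, mul_div_assoc', le_div_iff₀ (by positivity)]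
        have h3 : P.1 ^ 2 ≤ ρ ^ 2 := pow_le_pow_left₀ hx.le hPρ.le 2
        nlinarith [sq_nonneg ((φ : PP d → ℝ) P)]
      calc P.1 ^ k * (φ : PP d → ℝ) P ^ 2 ≤ P.1 ^ k * (ρ ^ 2 * ((φ : PP d → ℝ) P / P.1) ^ 2) :=
            mul_le_mul_of_nonneg_left h1 (by positivity)
        _ = _ := by ring
  · rw [(tIs φ).eq_zero hP]; simp

lemma h2_nonneg (φ : Tst Θ) : 0 ≤ h2 k (φ : PP d → ℝ) := by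
  have h1 := (integrable_lift_h2 (k := k) φ).2
  have h3 : 0 ≤ ck k * h2 k (φ : PP d → ℝ) := by
    rw [← h1]; exact integral_nonneg fun X => by positivity
  exact nonneg_of_mul_nonneg_right h3 (ck_pos k)

/-- final assembly -/
lemma key_fin {c Q Q1 Q2 N N1 N2 H H1 H2 A S S1 S2 M M2 R θ l g Λ ρ I J QQ : ℝ}
    (hc : 0 < c) (hθ0 : 0 < θ) (hθ1 : θ ≤ 1 / 2) (hθ2 : θ * Λ ≤ g / 4) (hg : 0 < g)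
    (hΛ : 0 ≤ Λ) (hl0 : 0 ≤ l) (hl : l ≤ Λ) (hM0 : 0 ≤ M) (hM2 : 0 ≤ M2) (hN2 : 0 ≤ N2)
    (hH1 : 0 ≤ H1) (hH2 : 0 ≤ H2) (hS2 : 0 ≤ S2) (hρ : 0 < ρ)
    (ha : Q1 + Q2 ≤ Q + θ / 8 * H) (hbN : N = N1 + N2) (hbH : H = H1 + H2)
    (hc1 : A * S1 + H1 ≤ Q1) (hc2 : H2 ≤ Q2) (hc3 : 1 / 2 * R * S2 ≤ Q2)
    (hd : N1 ≤ ρ ^ 2 * H1) (hN1 : 0 ≤ N1)
    (he : g * (c * N2) - (g + l) * M2 ≤ c * Q2 - l * (c * N2))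
    (hf : M2 ≤ 2 * M + 2 * (ρ ^ 4 * Λ * (c * H)))
    (hρ1 : Λ * ρ ^ 2 ≤ 1 / 8) (hρ2 : 2 * (g + Λ) * (ρ ^ 4 * Λ) ≤ θ / 8)
    (hA : A ≤ θ / 4 * R) (hA0 : 0 ≤ A) (hsp : S ≤ S1 + S2)
    (hI : I = c * (A * S)) (hJ : J = c * N) (hQQ : QQ = c * Q - l * (c * N)) :
    I + min (g / 4) (1 / (2 * ρ ^ 2)) * J - 2 * (g + Λ) * M ≤ QQ := by
  have h := key_alg hc hθ0 hθ1 hθ2 hg hΛ hl0 hl hM0 hM2 hN2 hH1 hH2 hS2 hρ ha hbN hbH hc1 hc2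
    hc3 hd hN1 he hf hρ1 hρ2 hA
  rw [hI, hJ, hQQ]
  have h1 : c * (A * S) ≤ c * (A * (S1 + S2)) := by gcongr
  linarith

/-- the inequality for test functions, with the two pieces given -/
theorem key_test' (hk : 1 ≤ k) (hd : 2 ≤ d) [Fact (1 < pex d)] {α σ : ℝ} {j : Fin d}
    (hα : 0 ≤ α) (hσ : 0 < σ)
    (hσ1 : 1 ≤ min (gx k d) 1 / (4 * σ ^ 2) + sx k d * (k - 1 - sx k d))
    (hσ2 : 0 ≤ 1 / (8 * σ ^ 2) + sx k d * (k - 1 - sx k d))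
    (hS : Θ.S ⊆ NS α σ j) (hE : HasEmb k Θ (pex d))
    {W : Submodule ℝ (VV k Θ)} {P : VV k Θ →L[ℝ] VV k Θ} (hP1 : ∀ u, P u ∈ W)
    (hP3 : ∀ u, ∀ e ∈ W, ⟪TT k Θ u, e⟫_ℝ = ⟪TT k Θ (P u), e⟫_ℝ) {Λ g l : ℝ}
    (hP4 : ∀ e ∈ W, ‖e‖ ^ 2 ≤ (Λ + 1) * ⟪TT k Θ e, e⟫_ℝ)
    (hP5 : ∀ u, g * ⟪TT k Θ u, u⟫_ℝ - (g + l) * ⟪TT k Θ (P u), P u⟫_ℝ ≤ QF (TT k Θ) l u)
    (hΛ : 0 ≤ Λ) (hg : 0 < g) (hl0 : 0 ≤ l) (hl : l ≤ Λ)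
    {θ ρ r : ℝ} (hθ0 : 0 < θ) (hθ1 : θ ≤ 1 / 2) (hθ2 : θ * Λ ≤ g / 4)
    (hρ : 0 < ρ) (hr : 0 < r) (hρ1 : Λ * ρ ^ 2 ≤ 1 / 8)
    (hρ2 : 2 * (g + Λ) * (ρ ^ 4 * Λ) ≤ θ / 8) (hA : α ^ gx k d ≤ θ / 4 * r ^ gx k d)
    {ϑ : ℝ → ℝ} (hϑ2 : ∀ x, ρ ≤ x → ϑ x = Real.pi / 2)
    (hs01 : ∀ x, 0 < x → 0 ≤ Real.sin (ϑ x)) (φ φ₁ φ₂ : Tst Θ)
    (e1 : ∀ P, (φ₁ : PP d → ℝ) P = Real.cos (ϑ P.1) * (φ : PP d → ℝ) P)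
    (e2 : ∀ P, (φ₂ : PP d → ℝ) P = Real.sin (ϑ P.1) * (φ : PP d → ℝ) P)
    (ha : q0 k (φ₁ : PP d → ℝ) + q0 k (φ₂ : PP d → ℝ) ≤
      q0 k (φ : PP d → ℝ) + θ / 8 * h2 k (φ : PP d → ℝ))
    (hbN : n2 k (φ : PP d → ℝ) = n2 k (φ₁ : PP d → ℝ) + n2 k (φ₂ : PP d → ℝ))
    (hbH : h2 k (φ : PP d → ℝ) = h2 k (φ₁ : PP d → ℝ) + h2 k (φ₂ : PP d → ℝ))
    (hsup2 : ∀ Q ∈ tsupport (φ₂ : PP d → ℝ), r ≤ Q.1)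
    (hd1 : n2 k (φ₁ : PP d → ℝ) ≤ ρ ^ 2 * h2 k (φ₁ : PP d → ℝ)) :
    Sinf k d α * ‖iop k Θ (pex d) (emb k Θ φ)‖ ^ 2 +
      min (g / 4) (1 / (2 * ρ ^ 2)) * ‖io2 k Θ (emb k Θ φ)‖ ^ 2 -
      2 * (g + Λ) * ‖io2 k Θ (P (emb k Θ φ))‖ ^ 2 ≤ QF (TT k Θ) l (emb k Θ φ) := by
  have hc1 := hardy_one hk hd hα hσ hσ1 (tIs φ₁) hS
  have hc2 := h2_le hk hd hα hσ hσ1 hS φ₂
  have hc3 := hardy_two hk hd hα hσ hr hσ2 (tIs φ₂) hS hsup2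
  have he := hP5 (emb k Θ φ₂)
  rw [QF_emb, TT_emb, inner_TT_self] at he
  have hf := proj_est hk hd hα hσ hσ1 hS hϑ2 hP1 hP3 hP4 hΛ φ φ₂ e2 hs01
  have hsplit := npp_split (k := k) hd φ φ₁ φ₂ e1 e2
  have hSS := SS_pos hd
  have hS2 : 0 ≤ SS d * (npp k (pex d) (φ₂ : PP d → ℝ)) ^ (2 / pex d) :=
    mul_nonneg hSS.le (Real.rpow_nonneg (npp_nonneg hd φ₂) _)
  have hsp : SS d * (npp k (pex d) (φ : PP d → ℝ)) ^ (2 / pex d) ≤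
      SS d * (npp k (pex d) (φ₁ : PP d → ℝ)) ^ (2 / pex d) +
      SS d * (npp k (pex d) (φ₂ : PP d → ℝ)) ^ (2 / pex d) := by
    rw [← mul_add]
    exact mul_le_mul_of_nonneg_left hsplit hSS.le
  exact key_fin (ck_pos k) hθ0 hθ1 hθ2 hg hΛ hl0 hl (sq_nonneg ‖io2 k Θ (P (emb k Θ φ))‖)
    (sq_nonneg ‖io2 k Θ (P (emb k Θ φ₂))‖) (n2_nonneg φ₂) (h2_nonneg φ₁) (h2_nonneg φ₂) hS2 hρ
    ha hbN hbH hc1 hc2 hc3 hd1 (n2_nonneg φ₁) he hf hρ1 hρ2 hA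
    (Real.rpow_nonneg hα _) hsp (Sinf_iop hd hE α φ) (norm_io2_emb φ) (QF_emb l φ)

/-- the inequality for test functions -/
theorem key_test (hk : 1 ≤ k) (hd : 2 ≤ d) [Fact (1 < pex d)] {α σ : ℝ} {j : Fin d}
    (hα : 0 ≤ α) (hσ : 0 < σ)
    (hσ1 : 1 ≤ min (gx k d) 1 / (4 * σ ^ 2) + sx k d * (k - 1 - sx k d))
    (hσ2 : 0 ≤ 1 / (8 * σ ^ 2) + sx k d * (k - 1 - sx k d))
    (hS : Θ.S ⊆ NS α σ j) (hE : HasEmb k Θ (pex d))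
    {W : Submodule ℝ (VV k Θ)} {P : VV k Θ →L[ℝ] VV k Θ} (hP1 : ∀ u, P u ∈ W)
    (hP3 : ∀ u, ∀ e ∈ W, ⟪TT k Θ u, e⟫_ℝ = ⟪TT k Θ (P u), e⟫_ℝ) {Λ g l : ℝ}
    (hP4 : ∀ e ∈ W, ‖e‖ ^ 2 ≤ (Λ + 1) * ⟪TT k Θ e, e⟫_ℝ)
    (hP5 : ∀ u, g * ⟪TT k Θ u, u⟫_ℝ - (g + l) * ⟪TT k Θ (P u), P u⟫_ℝ ≤ QF (TT k Θ) l u)
    (hΛ : 0 ≤ Λ) (hg : 0 < g) (hl0 : 0 ≤ l) (hl : l ≤ Λ)
    {θ ρ r : ℝ} (hθ0 : 0 < θ) (hθ1 : θ ≤ 1 / 2) (hθ2 : θ * Λ ≤ g / 4)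
    (hρ : 0 < ρ) (hr : 0 < r) (hρ1 : Λ * ρ ^ 2 ≤ 1 / 8)
    (hρ2 : 2 * (g + Λ) * (ρ ^ 4 * Λ) ≤ θ / 8) (hA : α ^ gx k d ≤ θ / 4 * r ^ gx k d)
    {ϑ : ℝ → ℝ} (hϑ0 : ContDiffOn ℝ ∞ ϑ (Ioi 0)) (hϑ1 : ∀ x, 0 < x → x ≤ r → ϑ x = 0)
    (hϑ2 : ∀ x, ρ ≤ x → ϑ x = Real.pi / 2)
    (hϑ3 : ∀ x, 0 < x → ∃ c : ℝ, HasDerivAt ϑ c x ∧ c ^ 2 ≤ θ / 8 / x ^ 2)
    (hs01 : ∀ x, 0 < x → 0 ≤ Real.sin (ϑ x)) (φ : Tst Θ) :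
    Sinf k d α * ‖iop k Θ (pex d) (emb k Θ φ)‖ ^ 2 +
      min (g / 4) (1 / (2 * ρ ^ 2)) * ‖io2 k Θ (emb k Θ φ)‖ ^ 2 -
      2 * (g + Λ) * ‖io2 k Θ (P (emb k Θ φ))‖ ^ 2 ≤ QF (TT k Θ) l (emb k Θ φ) := by
  obtain ⟨φ₁, e1⟩ : ∃ ψ : Tst Θ, (ψ : PP d → ℝ) = fun P => Real.cos (ϑ P.1) * (φ : PP d → ℝ) P :=
    ⟨⟨_, isTest_cos (tIs φ) Θ.pos hϑ0⟩, rfl⟩
  obtain ⟨φ₂, e2⟩ : ∃ ψ : Tst Θ, (ψ : PP d → ℝ) = fun P => Real.sin (ϑ P.1) * (φ : PP d → ℝ) P :=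
    ⟨⟨_, isTest_sin (tIs φ) Θ.pos hϑ0⟩, rfl⟩
  have ha := ims (k := k) (tIs φ) Θ.pos hϑ0 hϑ3
  have hbN := n2_split (k := k) (tIs φ) Θ.pos hϑ0
  have hbH := h2_split (k := k) (tIs φ) Θ.pos hϑ0
  rw [← e1, ← e2] at ha hbN hbH
  refine key_test' hk hd hα hσ hσ1 hσ2 hS hE hP1 hP3 hP4 hP5 hΛ hg hl0 hl hθ0 hθ1 hθ2 hρ hr hρ1
    hρ2 hA hϑ2 hs01 φ φ₁ φ₂ (fun P => congrFun e1 P) (fun P => congrFun e2 P) ha hbN hbH ?_ ?_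
  · intro Q hQ
    have h1 : IsClosed {Q : PP d | r ≤ Q.1} := isClosed_le continuous_const continuous_fst
    refine closure_minimal (fun Q' hQ' => ?_) h1 hQ
    show r ≤ Q'.1
    by_contra hcon
    push Not at hcon
    apply hQ'
    rw [e2]
    show Real.sin (ϑ Q'.1) * (φ : PP d → ℝ) Q' = 0
    by_cases hQ0 : 0 < Q'.1
    · rw [hϑ1 _ hQ0 hcon.le, Real.sin_zero, zero_mul]
    · have : (φ : PP d → ℝ) Q' = 0 := (tIs φ).eq_zero fun h => hQ0 (Θ.pos h)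
      rw [this, mul_zero]
  · apply n2_le_h2
    intro Q hQ
    rw [e1]
    show Real.cos (ϑ Q.1) * (φ : PP d → ℝ) Q = 0
    rw [hϑ2 _ hQ, Real.cos_pi_div_two, zero_mul]

lemma continuous_QF (T : VV k Θ →L[ℝ] VV k Θ) (l : ℝ) : Continuous (QF T l) := by
  unfold QF
  exact (continuous_norm.pow 2).sub (continuous_const.mul (T.continuous.inner continuous_id))

/-- the inequality for all elements -/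
theorem key_all [Fact (1 < pex d)] {a b c l : ℝ} {P : VV k Θ →L[ℝ] VV k Θ}
    (h : ∀ φ : Tst Θ, a * ‖iop k Θ (pex d) (emb k Θ φ)‖ ^ 2 + b * ‖io2 k Θ (emb k Θ φ)‖ ^ 2 -
      c * ‖io2 k Θ (P (emb k Θ φ))‖ ^ 2 ≤ QF (TT k Θ) l (emb k Θ φ)) (u : VV k Θ) :
    a * ‖iop k Θ (pex d) u‖ ^ 2 + b * ‖io2 k Θ u‖ ^ 2 - c * ‖io2 k Θ (P u)‖ ^ 2 ≤
      QF (TT k Θ) l u := by
  have hcl : IsClosed {u : VV k Θ | a * ‖iop k Θ (pex d) u‖ ^ 2 + b * ‖io2 k Θ u‖ ^ 2 -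
      c * ‖io2 k Θ (P u)‖ ^ 2 ≤ QF (TT k Θ) l u} := by
    apply isClosed_le _ (continuous_QF _ _)
    have c1 : Continuous fun u => a * ‖iop k Θ (pex d) u‖ ^ 2 :=
      continuous_const.mul ((iop k Θ (pex d)).continuous.norm.pow 2)
    have c2 : Continuous fun u => b * ‖io2 k Θ u‖ ^ 2 :=
      continuous_const.mul ((io2 k Θ).continuous.norm.pow 2)
    have c3 : Continuous fun u => c * ‖io2 k Θ (P u)‖ ^ 2 :=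
      continuous_const.mul ((((io2 k Θ).continuous.comp P.continuous).norm).pow 2)
    exact (c1.add c2).sub c3
  exact isClosed_property dense_emb hcl h u

/-- choice of the parameters -/
lemma exists_params {g Λ : ℝ} (hg : 0 < g) (hΛ : 0 ≤ Λ) : ∃ θ ρ r : ℝ, ∃ ϑ : ℝ → ℝ,
    0 < θ ∧ θ ≤ 1 / 2 ∧ θ * Λ ≤ g / 4 ∧ 0 < ρ ∧ 0 < r ∧ Λ * ρ ^ 2 ≤ 1 / 8 ∧
    2 * (g + Λ) * (ρ ^ 4 * Λ) ≤ θ / 8 ∧ ContDiffOn ℝ ∞ ϑ (Ioi 0) ∧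
    (∀ x, 0 < x → x ≤ r → ϑ x = 0) ∧ (∀ x, ρ ≤ x → ϑ x = Real.pi / 2) ∧
    (∀ x, 0 < x → ∃ c : ℝ, HasDerivAt ϑ c x ∧ c ^ 2 ≤ θ / 8 / x ^ 2) ∧
    ∀ x, 0 ≤ Real.sin (ϑ x) := by
  set θ : ℝ := min (1 / 2) (g / (4 * (Λ + 1))) with hθ
  have hθ0 : 0 < θ := lt_min (by norm_num) (by positivity)
  have hθ1 : θ ≤ 1 / 2 := min_le_left _ _
  have hθ2 : θ * Λ ≤ g / 4 := by
    have h1 : θ ≤ g / (4 * (Λ + 1)) := min_le_right _ _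
    calc θ * Λ ≤ g / (4 * (Λ + 1)) * (Λ + 1) :=
          mul_le_mul h1 (by linarith) hΛ (by positivity)
      _ = g / 4 := by field_simp
  obtain ⟨L, hL, hcut⟩ := exists_cut (ε := θ / 8) (by positivity)
  set t : ℝ := θ / (16 * (g + Λ + 1) * (Λ + 1)) with ht
  have ht0 : 0 < t := by positivity
  have hden : 1 ≤ (g + Λ + 1) * (Λ + 1) := by nlinarith
  have ht1 : t ≤ 1 := by
    rw [ht, div_le_one (by positivity)]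
    nlinarith
  set ρ : ℝ := Real.sqrt t with hρd
  have hρ : 0 < ρ := Real.sqrt_pos.2 ht0
  have hρsq : ρ ^ 2 = t := Real.sq_sqrt ht0.le
  have hρ1 : Λ * ρ ^ 2 ≤ 1 / 8 := by
    rw [hρsq, ht, mul_div_assoc', div_le_div_iff₀ (by positivity) (by norm_num)]
    have h1 : Λ * θ ≤ (Λ + 1) * (1 / 2) := mul_le_mul (by linarith) hθ1 hθ0.le (by linarith)
    have h2 : (Λ + 1) * 1 ≤ (Λ + 1) * (g + Λ + 1) :=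
      mul_le_mul_of_nonneg_left (by linarith) (by linarith)
    nlinarith
  have hρ2 : 2 * (g + Λ) * (ρ ^ 4 * Λ) ≤ θ / 8 := by
    have h0 : ρ ^ 4 = t * t := by
      have : ρ ^ 4 = ρ ^ 2 * ρ ^ 2 := by ring
      rw [this, hρsq]
    have h1 : ρ ^ 4 ≤ t := by rw [h0]; nlinarith
    have h2 : 2 * (g + Λ) * (ρ ^ 4 * Λ) ≤ 2 * (g + Λ + 1) * (t * (Λ + 1)) := by
      have h3 : ρ ^ 4 * Λ ≤ t * (Λ + 1) := mul_le_mul h1 (by linarith) hΛ ht0.le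
      have h4 : 0 ≤ ρ ^ 4 * Λ := by positivity
      exact mul_le_mul (by linarith) h3 h4 (by positivity)
    refine h2.trans (le_of_eq ?_)
    rw [ht]
    field_simp
    ring
  have hL0 : 0 < L := by linarith
  have hr : 0 < ρ / L := by positivity
  obtain ⟨ϑ, hϑ0, hϑ1, hϑ2, hϑ3, hϑ4⟩ := hcut (ρ / L) hr
  have hLr : L * (ρ / L) = ρ := by field_simp
  rw [hLr] at hϑ2
  exact ⟨θ, ρ, ρ / L, ϑ, hθ0, hθ1, hθ2, hρ, hr, hρ1, hρ2, hϑ0, hϑ1, hϑ2, hϑ3, hϑ4⟩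

/-- strictness -/
lemma key_strict [Fact (1 < pex d)] (hE : HasEmb k Θ (pex d)) {a b l : ℝ} (hb : 0 < b)
    {w : VV k Θ} (hw0 : w ≠ 0)
    (h : a * ‖iop k Θ (pex d) w‖ ^ 2 + b * ‖io2 k Θ w‖ ^ 2 ≤ QF (TT k Θ) l w) :
    a * ‖iop k Θ (pex d) w‖ ^ 2 < QF (TT k Θ) l w := by
  by_cases hw2 : io2 k Θ w = 0
  · have h1 : iop k Θ (pex d) w = 0 := by
      have h2 := coeFn_iop hE w
      rw [hw2] at h2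
      apply Lp.ext
      refine h2.trans ?_
      refine (Lp.coeFn_zero _ _ _).trans (Lp.coeFn_zero _ _ _).symm
    rw [h1, norm_zero]
    have h3 : ⟪TT k Θ w, w⟫_ℝ = 0 := by rw [inner_TT_self, hw2, norm_zero]; ring
    unfold QF
    rw [h3]
    have : 0 < ‖w‖ := norm_pos_iff.2 hw0
    have : 0 < ‖w‖ ^ 2 := by positivity
    linarith
  · have h1 : 0 < ‖io2 k Θ w‖ := norm_pos_iff.2 hw2
    have h2 : 0 < b * ‖io2 k Θ w‖ ^ 2 := by positivity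
    linarith

/-- the inequality with given parameters -/
lemma key_one (hk : 1 ≤ k) (hd : 2 ≤ d) [Fact (1 < pex d)] {α σ : ℝ} {j : Fin d}
    (hα : 0 ≤ α) (hσ : 0 < σ)
    (hσ1 : 1 ≤ min (gx k d) 1 / (4 * σ ^ 2) + sx k d * (k - 1 - sx k d))
    (hσ2 : 0 ≤ 1 / (8 * σ ^ 2) + sx k d * (k - 1 - sx k d))
    (hS : Θ.S ⊆ NS α σ j) (hE : HasEmb k Θ (pex d)) (hne : (interior Θ.S).Nonempty)
    {Λ g l : ℝ} {m : ℕ} (hΛ : 0 ≤ Λ) (hg : 0 < g) (hml : lamD k Θ m ≤ l) (hl : l ≤ Λ)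
    (hgap : l + g ≤ lamD k Θ (m + 1))
    {θ ρ r : ℝ} (hθ0 : 0 < θ) (hθ1 : θ ≤ 1 / 2) (hθ2 : θ * Λ ≤ g / 4)
    (hρ : 0 < ρ) (hr : 0 < r) (hρ1 : Λ * ρ ^ 2 ≤ 1 / 8)
    (hρ2 : 2 * (g + Λ) * (ρ ^ 4 * Λ) ≤ θ / 8) (hA : α ^ gx k d ≤ θ / 4 * r ^ gx k d)
    {ϑ : ℝ → ℝ} (hϑ0 : ContDiffOn ℝ ∞ ϑ (Ioi 0)) (hϑ1 : ∀ x, 0 < x → x ≤ r → ϑ x = 0)
    (hϑ2 : ∀ x, ρ ≤ x → ϑ x = Real.pi / 2)
    (hϑ3 : ∀ x, 0 < x → ∃ c : ℝ, HasDerivAt ϑ c x ∧ c ^ 2 ≤ θ / 8 / x ^ 2)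
    (hs01 : ∀ x, 0 ≤ Real.sin (ϑ x)) (w : VV k Θ)
    (hw : w ∈ (WW (TT k Θ) (1 / (lamA (TT k Θ) m + 1)))ᗮ) :
    Sinf k d α * ‖iop k Θ (pex d) w‖ ^ 2 +
      min (g / 4) (1 / (2 * ρ ^ 2)) * ‖io2 k Θ w‖ ^ 2 ≤ QF (TT k Θ) l w := by
  have h0 : 0 ≤ lamD k Θ m := lamA_nonneg (TT_inf hne) m
  obtain ⟨P, hP1, hP2, hP3, hP4, hP5⟩ := exists_P (isCompact_TT (k := k) (Θ := Θ)) TT_symm
    TT_nonneg (TT_inf hne) TT_le (m := m) (show lamD k Θ m < lamD k Θ (m + 1) by linarith)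
  have hl0 : 0 ≤ l := h0.trans hml
  have hP4' : ∀ e ∈ WW (TT k Θ) (1 / (lamA (TT k Θ) m + 1)),
      ‖e‖ ^ 2 ≤ (Λ + 1) * ⟪TT k Θ e, e⟫_ℝ := by
    intro e he
    refine (hP4 e he).trans ?_
    apply mul_le_mul_of_nonneg_right _ (TT_nonneg e)
    have : lamA (TT k Θ) m ≤ l := hml
    linarith
  have hmain := key_all (Θ := Θ) (fun φ => key_test hk hd hα hσ hσ1 hσ2 hS hE hP1 hP3 hP4'
    (fun u => hP5 g l hg.le hgap u) hΛ hg hl0 hl hθ0 hθ1 hθ2 hρ hr hρ1 hρ2 hA hϑ0 hϑ1 hϑ2 hϑ3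
    (fun x _ => hs01 x) φ) w
  rw [hP2 w hw, map_zero, norm_zero] at hmain
  linarith

/-- **the key theorem**: strict inequality on the complement of the low modes -/
theorem key_main (hk : 1 ≤ k) (hd : 2 ≤ d) [Fact (1 < pex d)] {σ : ℝ} (hσ : 0 < σ)
    (hσ1 : 1 ≤ min (gx k d) 1 / (4 * σ ^ 2) + sx k d * (k - 1 - sx k d))
    (hσ2 : 0 ≤ 1 / (8 * σ ^ 2) + sx k d * (k - 1 - sx k d)) (j : Fin d)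
    {g Λ : ℝ} (hg : 0 < g) (hΛ : 0 ≤ Λ) :
    ∃ α₀ : ℝ, 0 < α₀ ∧ ∀ (α : ℝ) (Θ : Dom d), 0 < α → α ≤ α₀ → Θ.S ⊆ NS α σ j →
      (interior Θ.S).Nonempty → HasEmb k Θ (pex d) → ∀ (m : ℕ) (l : ℝ), lamD k Θ m ≤ l → l ≤ Λ →
      l + g ≤ lamD k Θ (m + 1) → ∀ w ∈ (WW (TT k Θ) (1 / (lamA (TT k Θ) m + 1)))ᗮ, w ≠ 0 →
      Sinf k d α * ‖iop k Θ (pex d) w‖ ^ 2 < QF (TT k Θ) l w := by
  have hγ := gx_pos hk hd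
  obtain ⟨θ, ρ, r, ϑ, hθ0, hθ1, hθ2, hρ, hr, hρ1, hρ2, hϑ0, hϑ1, hϑ2, hϑ3, hϑ4⟩ :=
    exists_params hg hΛ
  refine ⟨(θ / 4) ^ (1 / gx k d) * r, by positivity, ?_⟩
  intro α Θ hα hα₀ hS hne hE m l hml hl hgap w hw hw0
  have hA : α ^ gx k d ≤ θ / 4 * r ^ gx k d := by
    have h1 := Real.rpow_le_rpow hα.le hα₀ hγ.le
    rwa [Real.mul_rpow (by positivity) hr.le, ← Real.rpow_mul (by positivity),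
      one_div_mul_cancel hγ.ne', Real.rpow_one] at h1
  have hb : 0 < min (g / 4) (1 / (2 * ρ ^ 2)) := lt_min (by positivity) (by positivity)
  exact key_strict hE hb hw0 (key_one hk hd hα.le hσ hσ1 hσ2 hS hE hne hΛ hg hml hl hgap hθ0 hθ1
    hθ2 hρ hr hρ1 hρ2 hA hϑ0 hϑ1 hϑ2 hϑ3 hϑ4 w hw)

end Pool.Agent.H56.BN
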