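import Mathlib
import Pool.Agent.H56.BN.Conc
import Pool.Agent.H56.BN.Dual6
import Pool.Agent.H56.BN.Key3
import Pool.Agent.H56.BN.Cemb

/-!
Norm of the embedding and the no ground state theorem in abstract form.
-/

set_option autoImplicit false
set_option maxHeartbeats 1000000

namespace Pool.Agent.H56.BN

open MeasureTheory Filter Topology Set
open scoped ContDiff InnerProductSpace

variable {k d : ℕ} {Θ : Dom d}

/-- **no ground state** for domains with a thin tip near the axis -/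
theorem no_ground_main (hk : 1 ≤ k) (hd : 2 ≤ d) [Fact (1 < pex d)] [Fact (1 < qex d)] {σ : ℝ}
    (hσ : 0 < σ)
    (hσ1 : 1 ≤ min (gx k d) 1 / (4 * σ ^ 2) + sx k d * (k - 1 - sx k d))
    (hσ2 : 0 ≤ 1 / (8 * σ ^ 2) + sx k d * (k - 1 - sx k d)) (j : Fin d)
    {g Λ : ℝ} (hg : 0 < g) (hΛ : 0 ≤ Λ) :
    ∃ α₀ : ℝ, 0 < α₀ ∧ ∀ (α : ℝ) (Θ : Dom d), 0 < α → α ≤ α₀ → Θ.S ⊆ NS α σ j →
      (∀ δ > 0, ∃ P ∈ interior Θ.S, P.1 < α + δ) → HasEmb k Θ (pex d) →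
      ∀ (m : ℕ) (l : ℝ), lamD k Θ m < l → l ≤ Λ → l + g ≤ lamD k Θ (m + 1) →
      ¬ Ground (pq_conj hd) (iop k Θ (pex d)) (BB (TT k Θ) l) := by
  obtain ⟨α₀, hα₀, h⟩ := key_main hk hd hσ hσ1 hσ2 j hg hΛ
  refine ⟨α₀, hα₀, ?_⟩
  intro α Θ hα hαα hS htip hE m l hml hl hgap
  have hne : (interior Θ.S).Nonempty := by
    obtain ⟨P, hP, -⟩ := htip 1 one_pos
    exact ⟨P, hP⟩
  have h1 := h α Θ hα hαα hS hne hE m l hml.le hl hgap
  obtain ⟨u, hu1, hu2, hu3⟩ := exists_conc_seq (k := k) hd hα Θ hE (fun P hP => (hS hP).1) htip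
  exact no_ground_gap (isCompact_TT (k := k) (Θ := Θ)) TT_symm TT_nonneg (TT_inf hne)
    (pq_conj hd) (pex_gt hd) (iop k Θ (pex d)) (m := m) (l := l) hml
    (show l < lamD k Θ (m + 1) by linarith) (Sinf_pos hd hα) h1 hu1 hu2 hu3

end Pool.Agent.H56.BN
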