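import Mathlib
import Pool.Agent.H56.BN.Prof
import Pool.Agent.H56.BN.Slice3
import Pool.Agent.H56.BN.Main1
import Pool.Agent.H56.BN.BHelp

/-!
Domains without ground states just above an eigenvalue.
-/

set_option autoImplicit false
set_option maxHeartbeats 1000000

namespace Pool.Agent.H56.BN

open MeasureTheory Filter Topology Set
open scoped ContDiff

variable {d : ℕ}

/-- **domains without ground states above the `m`-th eigenvalue** -/
theorem B_main {k : ℕ} (hk : 1 ≤ k) (hd : 2 ≤ d) [Fact (1 < pex d)] [Fact (1 < qex d)] (m : ℕ) :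
    ∃ Θ : Dom d, SmoothDom Θ.S ∧ (∃ a > 0, closure Θ.S ⊆ {P : PP d | a ≤ P.1}) ∧
      HasEmb k Θ (pex d) ∧ lamD k Θ m < lamD k Θ (m + 1) ∧
      ∃ δ > 0, ∀ l, lamD k Θ m < l → l < lamD k Θ m + δ →
        ¬ Ground (pq_conj hd) (iop k Θ (pex d)) (BB (TT k Θ) l) := by
  have hd1 : 1 ≤ d := by omega
  have hd' : (0:ℝ) < d := by exact_mod_cast hd1
  obtain ⟨C, hC, hpart⟩ := exists_part k
  obtain ⟨t, ht0, ht⟩ := hpart 0 1 le_rfl one_pos
  have hmono : StrictMono t := strictMono_nat_of_lt_succ fun i => (ht i).1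
  obtain ⟨x₂, hx₂d⟩ : ∃ x, x = t (m + 1) := ⟨_, rfl⟩
  have hx₂ : 0 < x₂ := by
    rw [hx₂d, ← ht0]
    exact hmono (Nat.succ_pos m)
  obtain ⟨g, L', c₀, c₁, hL0, hL1, hc₀, hc01, hc₁, hg, hg0, hdis, hsup⟩ :=
    exists_fam k le_rfl one_pos ht0 (fun i => (ht i).1) (fun i => (ht i).2.2.1) m
      (T := x₂) (by rw [hx₂d]; exact (ht m).1)
  obtain ⟨σ, hσ, -, hσ1, hσ2⟩ := exists_sigma (d := d) hk hd
  obtain ⟨b, hbd⟩ : ∃ b, b = min (σ * c₀ / 2) (1 / (2 * 8 ^ d * d)) := ⟨_, rfl⟩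
  have hb : 0 < b := by rw [hbd]; exact lt_min (by positivity) (by positivity)
  have hb1 : b ≤ σ * c₀ / 2 := by rw [hbd]; exact min_le_left _ _
  have hb2 : b ≤ 1 / (2 * 8 ^ d * d) := by rw [hbd]; exact min_le_right _ _
  have hGb : 1 ≤ Gb d b := by
    refine le_trans ?_ (Gb_ge hd1 hb)
    rw [le_div_iff₀ (by positivity), one_mul]
    rw [le_div_iff₀ (by positivity)] at hb2
    have h8 : (1:ℝ) ≤ 8 ^ d := one_le_pow₀ (by norm_num)
    have h9 : (1:ℝ) ≤ d := by exact_mod_cast hd1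
    have h10 : b ≤ 1 := by
      have : b * 1 ≤ b * (2 * 8 ^ d * d) := by
        apply mul_le_mul_of_nonneg_left _ hb.le
        nlinarith
      linarith
    calc 2 * 8 ^ d * d * b ^ 2 = (b * (2 * 8 ^ d * d)) * b := by ring
      _ ≤ 1 * 1 := mul_le_mul hb2 h10 hb.le (by norm_num)
      _ = 1 := one_mul 1
  obtain ⟨ψ, hψ, hψ0, hψE⟩ := exists_opt (d := d) hb (ε := (1 - L') / 2) (by linarith)
  obtain ⟨b₁, hb₁0, hb₁b, hb₁⟩ := compact_in_Qb hb hψ.cpt hψ.supp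
  obtain ⟨p, hp, hpe⟩ := exists_p (r := c₁ / x₂) (s := b₁ / b) (D := d) (ε := 1 / 4)
    (div_nonneg (hc₀.le.trans hc01) hx₂.le) (by rw [div_lt_one hx₂]; exact hc₁) (by positivity)
    (by rw [div_lt_one hb]; exact hb₁b) (by norm_num)
  obtain ⟨Λ, hΛd⟩ : ∃ Λ, Λ = d * om b ^ 2 + (3 + L') / 4 := ⟨_, rfl⟩
  have hΛ : 0 ≤ Λ := by rw [hΛd]; positivity
  obtain ⟨j, -⟩ : ∃ j : Fin d, True := ⟨⟨0, by omega⟩, trivial⟩
  obtain ⟨α₀, hα₀, hmain⟩ := no_ground_main hk hd hσ hσ1 hσ2 j (g := (1 - L') / 4) (Λ := Λ)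
    (by linarith) hΛ
  obtain ⟨α, hαd⟩ : ∃ α, α = min α₀ (min (c₀ / 4) (x₂ / (2 * p + 1 : ℕ))) := ⟨_, rfl⟩
  have hp0 : (0:ℝ) < (2 * p + 1 : ℕ) := by exact_mod_cast Nat.succ_pos _
  have hα : 0 < α := by
    rw [hαd]; exact lt_min hα₀ (lt_min (by positivity) (by positivity))
  have hα1 : α ≤ α₀ := by rw [hαd]; exact min_le_left _ _
  have hα2 : α ≤ c₀ / 4 := by rw [hαd]; exact (min_le_right _ _).trans (min_le_left _ _)
  have hα3 : α ≤ x₂ / (2 * p + 1 : ℕ) := by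
    rw [hαd]; exact (min_le_right _ _).trans (min_le_right _ _)
  have hα4 : α / x₂ ≤ 1 / (2 * p + 1 : ℕ) := by
    rw [div_le_div_iff₀ hx₂ hp0, one_mul]
    rwa [le_div_iff₀ hp0] at hα3
  have hα5 : α / x₂ ≤ 1 := by
    refine hα4.trans ?_
    rw [div_le_one hp0]
    exact_mod_cast Nat.le_add_left 1 (2 * p)
  have hαx : α ≤ x₂ := by rwa [div_le_one hx₂] at hα5
  have hA : (2 * p + 1 : ℕ) * (α / x₂) ^ (2 * p) ≤ 1 := by
    have h1 : (α / x₂) ^ (2 * p) ≤ α / x₂ := by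
      calc (α / x₂) ^ (2 * p) ≤ (α / x₂) ^ 1 :=
            pow_le_pow_of_le_one (by positivity) hα5 (by omega)
        _ = α / x₂ := pow_one _
    calc ((2 * p + 1 : ℕ) : ℝ) * (α / x₂) ^ (2 * p) ≤ (2 * p + 1 : ℕ) * (1 / (2 * p + 1 : ℕ)) :=
          mul_le_mul_of_nonneg_left (h1.trans hα4) hp0.le
      _ = 1 := by field_simp
  -- the trial region
  have htrial : ∀ x ∈ Icc c₀ c₁, ∀ z : Zd d, (∀ i, |z i| ≤ b₁) →
      lev2 (fB x₂ α p) (1 / σ ^ 2) b p j ((x, z) : PP d) < 0 := by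
    intro x hx z hz
    have hx0 : 0 < x := lt_of_lt_of_le hc₀ hx.1
    have hA0 : 0 ≤ (α / x₂) ^ (2 * p) := even_nonneg _ _
    have e1 : (x / x₂) ^ (2 * p) ≤ (c₁ / x₂) ^ (2 * p) :=
      pow_le_pow_left₀ (by positivity) (by gcongr; exact hx.2) _
    have e2 : α * (1 - (α / x₂) ^ (2 * p)) / x ≤ 1 / 4 := by
      rw [div_le_iff₀ hx0]
      have h1 : α * (1 - (α / x₂) ^ (2 * p)) ≤ α * 1 :=
        mul_le_mul_of_nonneg_left (by linarith) hα.le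
      have h2 := hx.1
      linarith
    have e3 : 1 / σ ^ 2 * (z j / x) ^ 2 ≤ 1 / 4 := by
      have h1 : |z j| ≤ σ * c₀ / 2 := ((hz j).trans hb₁b.le).trans hb1
      have h2 : z j ^ 2 ≤ (σ * c₀ / 2) ^ 2 := by
        rw [← sq_abs]; exact pow_le_pow_left₀ (abs_nonneg _) h1 2
      have h3 : c₀ ^ 2 ≤ x ^ 2 := pow_le_pow_left₀ hc₀.le hx.1 2
      rw [div_pow, one_div, inv_mul_eq_div, div_div, div_le_iff₀ (by positivity)]
      have h4 : 0 < σ ^ 2 := by positivity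
      nlinarith
    have e4 : ∑ i, (z i / b) ^ (2 * p) ≤ d * (b₁ / b) ^ (2 * p) := by
      have h1 : ∀ i ∈ Finset.univ, (z i / b) ^ (2 * p) ≤ (b₁ / b) ^ (2 * p) := by
        intro i _
        rw [← Even.pow_abs (even_two_mul p) (z i / b)]
        apply pow_le_pow_left₀ (abs_nonneg _)
        rw [abs_div, abs_of_pos hb]
        gcongr
        exact hz i
      calc _ ≤ ∑ i : Fin d, (b₁ / b) ^ (2 * p) := Finset.sum_le_sum h1
        _ = _ := by rw [Finset.sum_const, Finset.card_univ, Fintype.card_fin, nsmul_eq_mul]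
    unfold lev2 fB
    simp only
    linarith
  have hneg : fB x₂ α p c₀ < 0 := by
    have h1 := htrial c₀ ⟨le_rfl, hc01⟩ 0 (fun i => by simpa using hb₁0)
    rwa [lev2_axis _ hp] at h1
  have hprof := prof_fB hx₂ hα hαx hp hA hc₀ hneg
  have hK : (0:ℝ) ≤ 1 / σ ^ 2 := by positivity
  obtain ⟨Θ, hΘ⟩ : ∃ Θ : Dom d, Θ.S = dset (fB x₂ α p) (1 / σ ^ 2) b p j :=
    ⟨⟨_, fun P hP => hP.1, bdd_dset hprof hK hb hp⟩, rfl⟩
  have hloc : ∀ P ∈ Θ.S, α < P.1 ∧ P.1 < x₂ ∧ P.2 ∈ Qb d b := by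
    rw [hΘ]; exact fun P hP => dset_loc hprof hK hb hp hP
  have hE : HasEmb k Θ (pex d) := hasEmb_of hd hα hx₂ (fun P hP => (hloc P hP).1.le)
    fun P hP => (hloc P hP).2.1.le
  have htip : ∀ δ > 0, ∃ P ∈ interior Θ.S, P.1 < α + δ := by
    rw [hΘ]; exact fun δ hδ => dset_tip hα hp hprof j hδ
  have hne : (interior Θ.S).Nonempty := by
    obtain ⟨P, hP, -⟩ := htip 1 one_pos
    exact ⟨P, hP⟩
  have hup : lamD k Θ m ≤ (d * om b ^ 2 + (1 - L') / 2) + L' := by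
    refine lamD_upper le_rfl hg hg0 hdis hψ hψ0 hψE (by positivity) ?_
    intro i hi x hx z hz
    rw [hΘ]
    exact ⟨lt_of_lt_of_le hc₀ (hsup i hi hx).1, htrial x (hsup i hi hx) z (hb₁ z hz)⟩
  have hlow : d * om b ^ 2 + 1 ≤ lamD k Θ (m + 1) := by
    refine lamD_lower hd1 hb hne (fun i => (ht i).1) (by rw [ht0]) m ?_ hGb
      fun i _ => (ht i).2.1
    intro P hP
    obtain ⟨h1, h2, h3⟩ := hloc P hP
    refine ⟨by rw [ht0]; linarith, by rw [← hx₂d]; exact h2, h3⟩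
  refine ⟨Θ, ?_, ⟨α, hα, ?_⟩, hE, by linarith, Λ - lamD k Θ m, by rw [hΛd]; linarith, ?_⟩
  · rw [hΘ]; exact smooth_dset hprof hα hK hb hp
  · rw [hΘ]; exact closure_dset hprof hK hb hp
  · intro l hl1 hl2
    refine hmain α Θ hα hα1 ?_ htip hE m l hl1 (by linarith) ?_
    · rw [hΘ]; exact dset_NS hσ hb hx₂ hα hp hprof j
    · rw [hΛd] at hl2
      linarith

end Pool.Agent.H56.BN
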