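import Mathlib
import Pool.Agent.H56.BN.Av6
import Pool.Agent.H56.BN.AMain
import Pool.Agent.H56.BN.BMain

/-!
The main theorem.
-/

set_option autoImplicit false
set_option maxHeartbeats 1000000

namespace Pool.Agent.H56.BN

open MeasureTheory Filter Topology Set

/-- **both alternatives occur** -/
theorem final_main (k d m : ℕ) (hk : 1 ≤ k) (hd : 2 ≤ d) (hm : 1 ≤ m) :
    (∃ S : Set (PP d), Adm S ∧ lam k S m < lam k S (m + 1) ∧
      (∀ l, lam k S m < l → l < lam k S (m + 1) → HasGS k S l) ∧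
      ∀ s, IsThreshold k S m s ↔ s = lam k S m) ∧
    ∃ S : Set (PP d), Adm S ∧ lam k S m < lam k S (m + 1) ∧
      ∃ δ > 0, (∀ l, lam k S m < l → l < lam k S m + δ → ¬ HasGS k S l) ∧
        ∀ s, IsThreshold k S m s → lam k S m + δ ≤ s := by
  have hp : Fact (1 < pex d) := ⟨by have := pex_gt hd; linarith⟩
  have hq : Fact (1 < qex d) := ⟨(pq_conj hd).symm.lt⟩
  constructor
  · obtain ⟨Θ, h1, ⟨a, ha, h2⟩, h3, h4, h5⟩ := A_main k hd m hm
    have hgs : ∀ l, lam k Θ.S m < l → l < lam k Θ.S (m + 1) → HasGS k Θ.S l := by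
      intro l hl1 hl2
      rw [lam_eq'] at hl1 hl2
      exact (hasGS_iff' hd h3 l).2 (h5 l hl1 hl2)
    refine ⟨Θ.S, ⟨h1, fun P hP => lt_of_lt_of_le ha (h2 hP)⟩, ?_, hgs, fun s => ⟨?_, ?_⟩⟩
    · rw [lam_eq', lam_eq']; exact h4
    · rintro ⟨t1, t2, t3, t4⟩
      rcases t1.eq_or_lt with t5 | t5
      · exact t5.symm
      · exfalso
        obtain ⟨l, hl1, hl2⟩ := exists_between t5
        exact t4 l hl1.le hl2 (hgs l hl1 (hl2.trans t2))
    · rintro rfl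
      refine ⟨le_rfl, ?_, hgs, fun l hl1 hl2 => absurd hl2 (not_lt.2 hl1)⟩
      rw [lam_eq', lam_eq']; exact h4
  · obtain ⟨Θ, h1, ⟨a, ha, h2⟩, h3, h4, δ, hδ, h5⟩ := B_main hk hd m
    have hgs : ∀ l, lam k Θ.S m < l → l < lam k Θ.S m + δ → ¬ HasGS k Θ.S l := by
      intro l hl1 hl2
      rw [lam_eq'] at hl1 hl2
      exact fun h => h5 l hl1 hl2 ((hasGS_iff' hd h3 l).1 h)
    refine ⟨Θ.S, ⟨h1, fun P hP => lt_of_lt_of_le ha (h2 hP)⟩, ?_, δ, hδ, hgs, ?_⟩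
    · rw [lam_eq', lam_eq']; exact h4
    · rintro s ⟨t1, t2, t3, t4⟩
      by_contra hcon
      push Not at hcon
      obtain ⟨l, hl1, hl2⟩ := exists_between (lt_min hcon t2)
      exact hgs l (t1.trans_lt hl1) (hl2.trans_le (min_le_left _ _))
        (t3 l hl1 (hl2.trans_le (min_le_right _ _)))

end Pool.Agent.H56.BN
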